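import Pool.Agent.MP_d99b12_co.H25.Defs

/-! # Matroidal facts: what passes from one representation to another -/

namespace Pool.Agent.MP_d99b12_co.H25

open Matrix

set_option linter.unusedSectionVars false
set_option linter.unusedVariables false

variable {F : Type} [Field F] {E E' K ι : Type}

section Lin

@[simp] lemma scale_apply (c : E → Fˣ) (S : Matrix E E F) (u v : E) :
    scale c S u v = (c u : F) * (c v : F) * S u v := rfl

lemma dot_extend {l : Type} [Fintype K] [Fintype l] {e : K → l} (he : Function.Injective e)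
    (x y : K → F) : Function.extend e x 0 ⬝ᵥ Function.extend e y 0 = x ⬝ᵥ y := by
  classical
  unfold dotProduct
  symm
  refine Finset.sum_of_injOn e (fun a _ b _ h => he h) (by simp) ?_ ?_
  · intro t _ ht
    have : ¬∃ a, e a = t := by simpa using ht
    simp [Function.extend_apply' _ _ _ this]
  · intro k _
    simp [he.extend_apply]

lemma rank_le_iff_fac {I J : Type} [Fintype I] [Fintype J] (V : Matrix I J F) (l : ℕ) :
    V.rank ≤ l ↔ ∃ (x : I → Fin l → F) (y : J → Fin l → F), ∀ i j, V i j = x i ⬝ᵥ y j := by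
  classical
  constructor
  · intro h
    set W := Submodule.span F (Set.range V.col) with hW
    have hr : Module.finrank F W ≤ l := by rwa [hW, ← rank_eq_finrank_span_cols]
    let b := Module.finBasis F W
    have hm : ∀ j, V.col j ∈ W := fun j => Submodule.subset_span ⟨j, rfl⟩
    refine ⟨fun i => Function.extend (Fin.castLE hr) (fun t => (b t : I → F) i) 0,
      fun j => Function.extend (Fin.castLE hr) (fun t => b.repr ⟨_, hm j⟩ t) 0, fun i j => ?_⟩
    rw [dot_extend (Fin.castLE_injective hr)]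
    have := congrArg (fun v : W => (v : I → F) i) (b.sum_repr ⟨_, hm j⟩)
    simp only [AddSubmonoidClass.coe_finsetSum, Finset.sum_apply, SetLike.val_smul, Pi.smul_apply,
      smul_eq_mul] at this
    rw [dotProduct]
    simp only [mul_comm ((b _ : I → F) i)]
    exact this.symm
  · rintro ⟨x, y, h⟩
    have : V = (Matrix.of x) * (Matrix.of y)ᵀ := by
      ext i j; simp [h, Matrix.mul_apply, dotProduct]
    rw [this]
    exact (rank_mul_le_left _ _).trans ((rank_le_card_width _).trans (by simp))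

lemma rank_le_iff_ker {I J : Type} [Fintype I] [Fintype J] (V : Matrix I J F) (l : ℕ) :
    V.rank ≤ l ↔ ∀ Y0 : Finset J, Y0.card = l + 1 →
      ∃ u : J → F, u ≠ 0 ∧ (∀ j, j ∉ Y0 → u j = 0) ∧ V *ᵥ u = 0 := by
  classical
  rw [rank_eq_finrank_span_cols]
  constructor
  · intro h Y0 hY
    set W := Submodule.span F (Set.range V.col) with hW
    have hm : ∀ j, V.col j ∈ W := fun j => Submodule.subset_span ⟨j, rfl⟩
    have hn : ¬LinearIndependent F fun j : Y0 => (⟨V.col j, hm j⟩ : W) := by
      intro hl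
      have := hl.fintype_card_le_finrank
      simp only [Fintype.card_coe] at this
      omega
    obtain ⟨g, hg, j0, hj0⟩ := Fintype.not_linearIndependent_iff.1 hn
    refine ⟨fun j => if h : j ∈ Y0 then g ⟨j, h⟩ else 0, ?_, fun j hj => by simp [hj], ?_⟩
    · intro h0
      have := congrFun h0 j0
      simp at this
      exact hj0 this
    · ext i
      have := congrArg (fun v : W => (v : I → F) i) hg
      simp only [AddSubmonoidClass.coe_finsetSum, Finset.sum_apply, SetLike.val_smul,
        Pi.smul_apply, smul_eq_mul, ZeroMemClass.coe_zero, Pi.zero_apply] at this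
      simp only [mulVec, dotProduct, Pi.zero_apply]
      refine Eq.trans ?_ this
      rw [← Finset.sum_subset (Finset.subset_univ Y0) (fun j _ hj => by simp [hj]),
        ← Finset.sum_coe_sort Y0]
      refine Finset.sum_congr rfl fun j _ => ?_
      simp [mul_comm, Matrix.col]
  · intro h
    by_contra hl
    obtain ⟨κ, a, ha, hsp, hli⟩ := exists_linearIndependent' F V.col
    have : Finite κ := Finite.of_injective a ha
    have := Fintype.ofFinite κ
    have hc : Fintype.card κ = Module.finrank F (Submodule.span F (Set.range V.col)) := by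
      rw [← hsp, finrank_span_eq_card hli]
    obtain ⟨T, -, hT⟩ := Finset.exists_subset_card_eq (s := (Finset.univ : Finset κ)) (n := l + 1)
      (by simp; omega)
    obtain ⟨u, hu0, hu1, hu2⟩ := h (T.map ⟨a, ha⟩) (by simpa using hT)
    apply hu0
    have hs : ∑ k, u (a k) • (V.col ∘ a) k = 0 := by
      ext i
      have := congrFun hu2 i
      simp only [mulVec, dotProduct, Pi.zero_apply] at this
      simp only [Finset.sum_apply, Pi.smul_apply, Function.comp, smul_eq_mul, Pi.zero_apply]
      rw [← this]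
      refine Finset.sum_of_injOn a (fun _ _ _ _ h => ha h) (by simp) ?_ ?_
      · intro j _ hj
        rw [hu1 j, mul_zero]
        intro hj'
        obtain ⟨k, -, rfl⟩ := Finset.mem_map.1 hj'
        exact hj ⟨k, by simp, rfl⟩
      · intro k _; simp [mul_comm, Matrix.col]
    have h0 := Fintype.linearIndependent_iff.1 hli _ hs
    ext j
    by_cases hj : j ∈ T.map ⟨a, ha⟩
    · obtain ⟨k, -, rfl⟩ := Finset.mem_map.1 hj
      exact h0 k
    · exact hu1 j hj

lemma rkLE_of_fac [Fintype K] {S : Matrix E E F} {X Y : Set E} {l : ℕ} (x y : E → K → F)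
    (hl : Fintype.card K ≤ l) (h : ∀ u ∈ X, ∀ w ∈ Y, S u w = x u ⬝ᵥ y w) : RkLE S X Y l := by
  obtain ⟨e⟩ : Nonempty (K ↪ Fin l) := Function.Embedding.nonempty_of_card_le (by simpa using hl)
  exact ⟨fun u => Function.extend e (x u) 0, fun w => Function.extend e (y w) 0,
    fun u hu w hw => by rw [dot_extend e.injective, h u hu w hw]⟩

lemma RkLE.mono {S : Matrix E E F} {X X' Y Y' : Set E} {l l' : ℕ} (h : RkLE S X Y l) (hX : X' ⊆ X)
    (hY : Y' ⊆ Y) (hl : l ≤ l') : RkLE S X' Y' l' := by
  obtain ⟨x, y, h⟩ := h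
  exact rkLE_of_fac x y (by simpa using hl) fun u hu w hw => h u (hX hu) w (hY hw)

lemma rank_le_iff_rkLE {I J : Type} [Fintype I] [Fintype J] (S : Matrix E E F) (f : I → E)
    (g : J → E) (l : ℕ) :
    (S.submatrix f g).rank ≤ l ↔ RkLE S (Set.range f) (Set.range g) l := by
  classical
  rw [rank_le_iff_fac]
  constructor
  · rintro ⟨x, y, h⟩
    refine ⟨fun u => if hu : ∃ i, f i = u then x hu.choose else 0,
      fun w => if hw : ∃ j, g j = w then y hw.choose else 0, ?_⟩
    rintro _ ⟨i, rfl⟩ _ ⟨j, rfl⟩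
    have h1 : ∃ i', f i' = f i := ⟨i, rfl⟩
    have h2 : ∃ j', g j' = g j := ⟨j, rfl⟩
    simp only [dif_pos h1, dif_pos h2]
    rw [← h, submatrix_apply, h1.choose_spec, h2.choose_spec]
  · rintro ⟨x, y, h⟩
    exact ⟨fun i => x (f i), fun j => y (g j), fun i j => h _ ⟨i, rfl⟩ _ ⟨j, rfl⟩⟩

/-- A row lies in the span of other rows iff it kills their common kernel. -/
lemma inSpan_iff [Fintype E] [Fintype K] {S : Matrix E E F} {kk : K → E} {Y : Set E} {u : E} :
    InSpan S kk Y u ↔ ∀ w : E → F, (∀ y, y ∉ Y → w y = 0) → (∀ r, (S *ᵥ w) (kk r) = 0) →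
      (S *ᵥ w) u = 0 := by
  classical
  constructor
  · rintro ⟨x, hx⟩ w hw h0
    have : (S *ᵥ w) u = ∑ r, x r * (S *ᵥ w) (kk r) := by
      simp only [mulVec, dotProduct, Finset.mul_sum]
      rw [Finset.sum_comm]
      refine Finset.sum_congr rfl fun b _ => ?_
      by_cases hb : b ∈ Y
      · rw [hx b hb]; simp [dotProduct, yv, Finset.sum_mul, mul_assoc]
      · simp [hw b hb]
    simp [this, h0]
  · intro h
    let L : E → (E → F) →ₗ[F] F := fun v =>
      { toFun := fun w => (S *ᵥ Y.indicator w) v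
        map_add' := fun a b => by
          have : Y.indicator (a + b) = Y.indicator a + Y.indicator b := Set.indicator_add' Y a b
          rw [this, mulVec_add]; rfl
        map_smul' := fun c a => by
          have : Y.indicator (c • a) = c • Y.indicator a := by
            ext e; by_cases he : e ∈ Y <;> simp [he]
          rw [this, mulVec_smul]; rfl }
    have hm : L u ∈ Submodule.span F (Set.range fun r => L (kk r)) := by
      apply mem_span_of_iInf_ker_le_ker
      intro w hw
      simp only [Submodule.mem_iInf, LinearMap.mem_ker] at hw ⊢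
      exact h _ (fun y hy => by simp [hy]) hw
    obtain ⟨x, hx⟩ := (Submodule.mem_span_range_iff_exists_fun F).1 hm
    refine ⟨x, fun b hb => ?_⟩
    have := LinearMap.congr_fun hx (Pi.single b 1)
    have hi : Y.indicator (Pi.single b (1 : F) : E → F) = Pi.single b 1 := by
      ext e; by_cases he : e ∈ Y
      · simp [he]
      · have : e ≠ b := fun h => he (h ▸ hb)
        simp [he, this]
    simp only [LinearMap.coe_sum, Finset.sum_apply, LinearMap.smul_apply, L, LinearMap.coe_mk,
      AddHom.coe_mk, hi, mulVec_single_one, smul_eq_mul] at this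
    rw [dotProduct]
    exact this.symm

end Lin

section Same

variable [Fintype E] {S T R : Matrix E E F}

lemma Same.refl (S : Matrix E E F) : Same S S := fun _ _ => Iff.rfl

lemma Same.symm (h : Same S T) : Same T S := fun X Y => (h X Y).symm

lemma Same.trans (h : Same S T) (h' : Same T R) : Same S R := fun X Y => (h X Y).trans (h' X Y)

lemma Dep.mono {X X' Y Y' : Set E} (h : Dep S X Y) (hX : X' ⊆ X) (hY : Y ⊆ Y') : Dep S X' Y' := by
  obtain ⟨u, h0, h1, h2⟩ := h
  exact ⟨u, h0, fun y hy => h1 y fun hy' => hy (hY hy'), fun x hx => h2 x (hX hx)⟩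

/-- Kernels of rectangular blocks. -/
lemma Same.ker {I J : Type} [Fintype J] (h : Same S T) (f : I → E) (g : J → E) (X : Set I)
    (Y : Set J) (u : J → F) (h0 : u ≠ 0) (h1 : ∀ j, j ∉ Y → u j = 0)
    (h2 : ∀ i ∈ X, (S.submatrix f g *ᵥ u) i = 0) :
    ∃ u' : J → F, u' ≠ 0 ∧ (∀ j, j ∉ Y → u' j = 0) ∧ ∀ i ∈ X, (T.submatrix f g *ᵥ u') i = 0 := by
  classical
  let w : E → F := fun e => ∑ j with g j = e, u j
  have key : ∀ (M : Matrix E E F) i, (M.submatrix f g *ᵥ u) i = (M *ᵥ w) (f i) := by
    intro M i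
    simp only [mulVec, dotProduct, submatrix_apply, w, Finset.mul_sum]
    rw [← Finset.sum_fiberwise Finset.univ g]
    refine Finset.sum_congr rfl fun e _ => Finset.sum_congr rfl fun j hj => ?_
    rw [(Finset.mem_filter.1 hj).2]
  by_cases hw : w = 0
  · exact ⟨u, h0, h1, fun i _ => by simp [key, hw]⟩
  have hd : Dep S (f '' X) (g '' Y) := by
    refine ⟨w, hw, fun e he => Finset.sum_eq_zero fun j hj => h1 j fun hj' => he ?_, ?_⟩
    · exact ⟨j, hj', (Finset.mem_filter.1 hj).2⟩
    · rintro _ ⟨i, hi, rfl⟩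
      rw [← key]; exact h2 i hi
  obtain ⟨w', a0, a1, a2⟩ := (h _ _).1 hd
  have hs : ∀ e, w' e ≠ 0 → ∃ j ∈ Y, g j = e := fun e he => by
    by_contra hc; exact he (a1 e hc)
  choose s hs1 hs2 using hs
  refine ⟨fun j => if h : w' (g j) ≠ 0 then (if s _ h = j then w' (g j) else 0) else 0, ?_, ?_, ?_⟩
  · intro hz
    obtain ⟨e, he⟩ := Function.ne_iff.1 a0
    have he' : w' e ≠ 0 := he
    have := congrFun hz (s e he')
    simp only [hs2 e he', Pi.zero_apply] at this
    simp [he'] at this
  · intro j hj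
    by_cases h : w' (g j) ≠ 0
    · have : s _ h ≠ j := fun e => hj (e ▸ hs1 _ h)
      simp [h, this]
    · simp [h]
  · intro i hi
    refine Eq.trans ?_ (a2 (f i) ⟨i, hi, rfl⟩)
    simp only [mulVec, dotProduct, submatrix_apply]
    rw [← Finset.sum_fiberwise Finset.univ g]
    refine Finset.sum_congr rfl fun e _ => ?_
    by_cases he : w' e ≠ 0
    · rw [Finset.sum_eq_single (s e he)]
      · simp [hs2 e he, he]
      · intro j hj hne
        have hj' : g j = e := (Finset.mem_filter.1 hj).2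
        subst hj'
        simp [he, hne.symm]
      · intro hn; exact absurd (by simp [hs2 e he]) hn
    · have he' : w' e = 0 := not_not.1 he
      rw [he', mul_zero]
      refine Finset.sum_eq_zero fun j hj => ?_
      have hj' : g j = e := (Finset.mem_filter.1 hj).2
      simp [hj', he']

lemma Same.submatrix [Fintype E'] (h : Same S T) (f : E' → E) :
    Same (S.submatrix f f) (T.submatrix f f) := fun X Y =>
  ⟨fun ⟨u, a, b, c⟩ => h.ker f f X Y u a b c, fun ⟨u, a, b, c⟩ => h.symm.ker f f X Y u a b c⟩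

lemma dep_scale (c : E → Fˣ) {X Y : Set E} (h : Dep S X Y) : Dep (scale c S) X Y := by
  obtain ⟨u, h0, h1, h2⟩ := h
  refine ⟨fun e => ((c e)⁻¹ : Fˣ) * u e, ?_, fun y hy => by simp [h1 y hy], fun x hx => ?_⟩
  · intro hz
    apply h0
    ext e
    simpa using congrFun hz e
  · have := h2 x hx
    simp only [mulVec, dotProduct, scale, of_apply] at this ⊢
    rw [← mul_zero (c x : F), ← this, Finset.mul_sum]
    refine Finset.sum_congr rfl fun e _ => ?_
    have := (c e).ne_zero
    simp only [Units.val_inv_eq_inv_val]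
    field_simp

lemma same_scale (c : E → Fˣ) (S : Matrix E E F) : Same S (scale c S) := by
  intro X Y
  refine ⟨dep_scale c, fun h => ?_⟩
  have := dep_scale c⁻¹ h
  convert this using 1
  ext u v
  have := (c u).ne_zero
  have := (c v).ne_zero
  simp only [scale_apply, Pi.inv_apply, Units.val_inv_eq_inv_val]
  field_simp

lemma Same.rank_submatrix {I J : Type} [Fintype I] [Fintype J] (h : Same S T) (f : I → E)
    (g : J → E) : (S.submatrix f g).rank = (T.submatrix f g).rank := by
  have key : ∀ {S T : Matrix E E F}, Same S T →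
      (T.submatrix f g).rank ≤ (S.submatrix f g).rank := by
    intro S T h
    rw [rank_le_iff_ker]
    intro Y0 hY
    obtain ⟨u, a, b, c⟩ := (rank_le_iff_ker _ _).1 le_rfl Y0 hY
    obtain ⟨u', a', b', c'⟩ := h.ker f g Set.univ (↑Y0) u a b (fun i _ => by rw [c]; rfl)
    exact ⟨u', a', b', funext fun i => c' i trivial⟩
  exact le_antisymm (key h.symm) (key h)

lemma Same.rkLE (h : Same S T) {X Y : Set E} {l : ℕ} (h' : RkLE S X Y l) : RkLE T X Y l := by
  have := Fintype.ofFinite X
  have := Fintype.ofFinite Y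
  have e := fun M : Matrix E E F =>
    rank_le_iff_rkLE M (Subtype.val : X → E) (Subtype.val : Y → E) l
  simp only [Subtype.range_coe_subtype, Set.ofPred_mem_eq] at e
  rw [← e] at h' ⊢
  rwa [← h.rank_submatrix]

lemma rkLE_iff_dep {X Y : Set E} {l : ℕ} :
    RkLE S X Y l ↔ ∀ Y0 : Finset E, ↑Y0 ⊆ Y → Y0.card = l + 1 → Dep S X ↑Y0 := by
  classical
  have := Fintype.ofFinite X
  have := Fintype.ofFinite Y
  have e := rank_le_iff_rkLE S (Subtype.val : X → E) (Subtype.val : Y → E) l
  simp only [Subtype.range_coe_subtype, Set.ofPred_mem_eq] at e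
  rw [← e, rank_le_iff_ker]
  have key : ∀ (u : Y → F) (x : X), (S.submatrix Subtype.val Subtype.val *ᵥ u) x =
      (S *ᵥ Function.extend Subtype.val u 0) x := by
    intro u x
    simp only [mulVec, dotProduct, submatrix_apply]
    refine Finset.sum_of_injOn Subtype.val (fun _ _ _ _ h => Subtype.ext h) (by simp) ?_ ?_
    · intro e _ he
      rw [Function.extend_apply' _ _ _ (by simpa using he)]; simp
    · intro y _
      rw [Subtype.val_injective.extend_apply]
  constructor
  · intro h Y0 hY hc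
    obtain ⟨u, a, b, c⟩ := h (Y0.subtype (· ∈ Y)) (by
      rw [Finset.card_subtype, Finset.filter_true_of_mem fun y hy => hY hy, hc])
    refine ⟨Function.extend Subtype.val u 0, ?_, ?_, fun x hx => ?_⟩
    · intro hz
      apply a
      ext y
      have := congrFun hz y
      rwa [Subtype.val_injective.extend_apply] at this
    · intro y hy
      by_cases hy' : y ∈ Y
      · have := Subtype.val_injective.extend_apply u (0 : E → F) ⟨y, hy'⟩
        rw [this]
        exact b _ (by simpa using hy)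
      · rw [Function.extend_apply' _ _ _ (by simpa using hy')]; rfl
    · rw [← key u ⟨x, hx⟩, c]; rfl
  · intro h Y0 hc
    obtain ⟨u, a, b, c⟩ := h (Y0.map ⟨Subtype.val, Subtype.val_injective⟩)
      (by intro y hy; obtain ⟨y', -, rfl⟩ := Finset.mem_map.1 hy; exact y'.2) (by simpa using hc)
    have hu : Function.extend Subtype.val (fun y : Y => u y) 0 = u := by
      ext e
      by_cases he : e ∈ Y
      · exact Subtype.val_injective.extend_apply _ _ ⟨e, he⟩
      · rw [Function.extend_apply' _ _ _ (by simpa using he), b e]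
        · rfl
        · intro hm
          obtain ⟨y', -, rfl⟩ := Finset.mem_map.1 hm
          exact he y'.2
    refine ⟨fun y => u y, ?_, fun y hy => b _ (by simpa using hy), ?_⟩
    · intro hz
      apply a
      rw [← hu, hz]
      ext e
      by_cases he : ∃ y : Y, y.1 = e
      · obtain ⟨y, rfl⟩ := he
        rw [Subtype.val_injective.extend_apply]; rfl
      · rw [Function.extend_apply' _ _ _ he]
    · ext x
      rw [key, hu]
      exact c x x.2

lemma Same.conn (h : Same S T) {m : ℕ} (h' : Conn m S) : Conn m T :=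
  fun X l hl hr => h' X l hl (h.symm.rkLE hr)

lemma Same.zero_iff (h : Same S T) (x y : E) : S x y = 0 ↔ T x y = 0 := by
  have key : ∀ {S T : Matrix E E F}, Same S T → S x y = 0 → T x y = 0 := by
    intro S T h h0
    have : RkLE S {x} {y} 0 := ⟨0, 0, by simp [h0]⟩
    obtain ⟨a, b, hab⟩ := h.rkLE this
    simpa using hab x rfl y rfl
  exact ⟨key h, key h.symm⟩

lemma Same.inSpan [Fintype K] (h : Same S T) {kk : K → E} {Y : Set E} {u : E}
    (h' : InSpan S kk Y u) : InSpan T kk Y u := by
  classical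
  rw [inSpan_iff] at h' ⊢
  by_contra hc
  push Not at hc
  have hex : ∃ n, ∃ w : E → F, (Finset.univ.filter fun e => w e ≠ 0).card = n ∧
      (∀ y, y ∉ Y → w y = 0) ∧ (∀ r, (T *ᵥ w) (kk r) = 0) ∧ (T *ᵥ w) u ≠ 0 := by
    obtain ⟨w, hw⟩ := hc
    exact ⟨_, w, rfl, hw⟩
  obtain ⟨w, hn, w1, w2, w3⟩ := Nat.find_spec hex
  have w0 : w ≠ 0 := by rintro rfl; simp at w3
  have d1 : Dep T (Set.range kk) {e | w e ≠ 0} :=
    ⟨w, w0, fun y hy => by simpa using hy, by rintro _ ⟨r, rfl⟩; exact w2 r⟩
  obtain ⟨v, v0, v1, v2⟩ := (h _ _).2 d1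
  have d2 : Dep S (insert u (Set.range kk)) {e | w e ≠ 0} := by
    refine ⟨v, v0, v1, ?_⟩
    rintro x (rfl | hx)
    · exact h' v (fun y hy => v1 y (by simp [w1 y hy])) fun r => v2 _ ⟨r, rfl⟩
    · exact v2 x hx
  obtain ⟨z, z0, z1, z2⟩ := (h _ _).1 d2
  obtain ⟨e0, he0⟩ := Function.ne_iff.1 z0
  have he0' : z e0 ≠ 0 := he0
  have hw0 : w e0 ≠ 0 := by
    by_contra hh; exact he0' (z1 e0 (by simpa using hh))
  refine Nat.find_min hex (m := (Finset.univ.filter fun e =>
    (w - (w e0 / z e0) • z) e ≠ 0).card) ?_ ⟨w - (w e0 / z e0) • z, rfl, ?_, ?_, ?_⟩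
  · rw [← hn]
    apply Finset.card_lt_card
    refine ⟨fun e he => ?_, fun hs => ?_⟩
    · simp only [Finset.mem_filter, Finset.mem_univ, true_and] at he ⊢
      intro hw
      apply he
      simp [hw, z1 e (by simpa using hw)]
    · have := hs (Finset.mem_filter.2 ⟨Finset.mem_univ e0, hw0⟩)
      simp only [Finset.mem_filter, Finset.mem_univ, true_and, Pi.sub_apply, Pi.smul_apply,
        smul_eq_mul] at this
      apply this
      field_simp
      ring
  · intro y hy
    simp [w1 y hy, z1 y (by simp [w1 y hy])]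
  · intro r
    rw [mulVec_sub, mulVec_smul]
    simp [w2 r, z2 _ (Or.inr ⟨r, rfl⟩)]
  · rw [mulVec_sub, mulVec_smul]
    simpa [z2 u (Or.inl rfl)] using w3

lemma full_iff [Fintype K] [DecidableEq K] {kk : K → E} {Y : Set E} :
    Full S kk Y ↔ ∀ r, ¬InSpan S (fun r' : {r' // r' ≠ r} => kk r'.1) Y (kk r) := by
  constructor
  · rintro h r ⟨x, hx⟩
    have := h (fun r' => if h : r' = r then -1 else x ⟨r', h⟩) (fun b hb => by
      rw [dotProduct, Fintype.sum_eq_add_sum_subtype_ne _ r]
      have := hx b hb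
      simp only [dotProduct, yv] at this ⊢
      simp only [dite_true, this, neg_mul, one_mul]
      rw [neg_add_eq_zero]
      refine Finset.sum_congr rfl fun r' _ => ?_
      rw [dif_neg r'.2])
    simpa using congrFun this r
  · intro h x hx
    by_contra h0
    obtain ⟨r, hr⟩ := Function.ne_iff.1 h0
    have hr' : x r ≠ 0 := hr
    refine h r ⟨fun r' => -x r'.1 / x r, fun b hb => ?_⟩
    have := hx b hb
    rw [dotProduct, Fintype.sum_eq_add_sum_subtype_ne _ r] at this
    simp only [dotProduct, yv] at this ⊢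
    have e : ∑ r' : {r' // r' ≠ r}, -x r'.1 / x r * S (kk r'.1) b =
        -(∑ r' : {r' // r' ≠ r}, x r'.1 * S (kk r'.1) b) / x r := by
      rw [neg_div, Finset.sum_div, ← Finset.sum_neg_distrib]
      refine Finset.sum_congr rfl fun r' _ => by ring
    rw [e]
    field_simp
    linear_combination this

lemma Same.full [Fintype K] (h : Same S T) {kk : K → E} {Y : Set E} (h' : Full S kk Y) :
    Full T kk Y := by
  classical
  rw [full_iff] at h' ⊢
  exact fun r hr => h' r (h.symm.inSpan hr)

/-- Parallel rows. -/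
lemma Same.par_row (h : Same S T) {Y : Set E} {u v : E} {c : F} (hc : c ≠ 0)
    (h' : ∀ w ∈ Y, S u w = c * S v w) : ∃ c' : Fˣ, ∀ w ∈ Y, T u w = c' * T v w := by
  have h1 : InSpan S (fun _ : Unit => v) Y u :=
    ⟨fun _ => c, fun b hb => by simp [dotProduct, yv, h' b hb]⟩
  obtain ⟨x, hx⟩ := h.inSpan h1
  by_cases hx0 : x () = 0
  · refine ⟨1, fun w hw => ?_⟩
    have e1 : T u w = 0 := by simpa [dotProduct, hx0] using hx w hw
    have e2 : S v w = 0 := by
      have := h' w hw
      rw [(h.zero_iff u w).2 e1] at this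
      exact (mul_eq_zero.1 this.symm).resolve_left hc
    simp [e1, (h.zero_iff v w).1 e2]
  · exact ⟨Units.mk0 _ hx0, fun w hw => by simpa [dotProduct, yv] using hx w hw⟩

/-- Parallel columns (skew matrices). -/
lemma Same.par_col (h : Same S T) (hS : Skew S) (hT : Skew T) {Y : Set E} {u v : E} {c : F}
    (hc : c ≠ 0) (h' : ∀ w ∈ Y, S w u = c * S w v) :
    ∃ c' : Fˣ, ∀ w ∈ Y, T w u = c' * T w v := by
  obtain ⟨c', h''⟩ := h.par_row (Y := Y) (u := u) (v := v) hc fun w hw => by
    rw [hS u w, hS v w, h' w hw]; ring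
  exact ⟨c', fun w hw => by rw [hT w u, hT w v, h'' w hw]; ring⟩

/-- Vanishing of a `2 × 2` minor. -/
lemma Same.det2 (h : Same S T) (a b c d : E) :
    S a c * S b d = S a d * S b c ↔ T a c * T b d = T a d * T b c := by
  have key : ∀ {S T : Matrix E E F}, Same S T → S a c * S b d = S a d * S b c →
      T a c * T b d = T a d * T b c := by
    intro S T h h0
    have : RkLE S {a, b} {c, d} 1 := by
      by_cases h1 : S a c = 0
      · by_cases h2 : S a d = 0
        · classical
          refine ⟨fun u _ => if u = a then 0 else 1, fun w _ => S b w, ?_⟩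
          rintro u hu w hw
          by_cases hua : u = a
          · rcases hw with rfl | rfl <;> simp [hua, h1, h2]
          · have : u = b := hu.resolve_left hua
            simp [this ▸ hua, this, dotProduct]
        · have h3 : S b c = 0 := by
            rw [h1, zero_mul] at h0
            exact (mul_eq_zero.1 h0.symm).resolve_left h2
          classical
          refine ⟨fun u _ => S u d, fun w _ => if w = d then 1 else 0, ?_⟩
          rintro u hu w hw
          by_cases hwd : w = d
          · simp [hwd, dotProduct]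
          · have : w = c := hw.resolve_right hwd
            rcases hu with rfl | rfl <;> simp [this ▸ hwd, this, h1, h3]
      · refine ⟨fun u _ => S u c / S a c, fun w _ => S a w, ?_⟩
        rintro u (rfl | rfl) w (rfl | rfl) <;> simp [dotProduct] <;> field_simp
        linear_combination h0
    obtain ⟨x, y, hxy⟩ := h.rkLE this
    rw [hxy a (by simp) c (by simp), hxy b (by simp) d (by simp), hxy a (by simp) d (by simp),
      hxy b (by simp) c (by simp)]
    simp [dotProduct]; ring
  exact ⟨key h, key h.symm⟩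

lemma Same.clo (h : Same S T) {k e : E} {X : Set E} (h' : Clo S k e X) : Clo T k e X :=
  fun w hw x hx => (h.det2 w k x e).1 (h' w hw x hx)

lemma Same.noNb (h : Same S T) {O : Set E} {y : E} (h' : NoNb S O y) : NoNb T O y :=
  fun o ho => (h.zero_iff o y).1 (h' o ho)

end Same

section Rank

/-- `card K` independent rows and one more row outside their span. -/
lemma not_rkLE_of_full [Fintype K] {S : Matrix E E F} {kk : K → E} {X Y : Set E} {u : E}
    (hf : Full S kk Y) (hu : ¬InSpan S kk Y u) (hk : ∀ k, kk k ∈ X) (huX : u ∈ X) :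
    ¬RkLE S X Y (Fintype.card K) := by
  rintro ⟨x, y, h⟩
  have hn : ¬LinearIndependent F fun o : Option K => x (o.elim u kk) := by
    intro hl
    have := hl.fintype_card_le_finrank
    simp at this
  obtain ⟨g, hg, o, ho⟩ := Fintype.not_linearIndependent_iff.1 hn
  rw [Fintype.sum_option] at hg
  have key : ∀ b ∈ Y, g none * S u b + (fun r => g (some r)) ⬝ᵥ yv S kk b = 0 := by
    intro b hb
    have := congrArg (· ⬝ᵥ y b) hg
    simp only [Option.elim, add_dotProduct, smul_dotProduct, smul_eq_mul, zero_dotProduct,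
      sum_dotProduct] at this
    rw [h u huX b hb, ← this]
    congr 1
    exact Finset.sum_congr rfl fun r _ => by rw [yv, h _ (hk r) b hb]
  by_cases h0 : g none = 0
  · have := hf (fun r => g (some r)) fun b hb => by simpa [h0] using key b hb
    cases o with
    | none => exact ho h0
    | some r => exact ho (congrFun this r)
  · refine hu ⟨(-(g none)⁻¹) • fun r => g (some r), fun b hb => ?_⟩
    have := key b hb
    rw [smul_dotProduct, smul_eq_mul]
    field_simp
    linear_combination this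

lemma span_eq_top_of_perp [Fintype K] {J : Type} (y : J → K → F)
    (h : ∀ x : K → F, (∀ q, x ⬝ᵥ y q = 0) → x = 0) : Submodule.span F (Set.range y) = ⊤ := by
  classical
  by_contra hne
  obtain ⟨f, hf0, hf⟩ := Submodule.exists_le_ker_of_lt_top _ (lt_top_iff_ne_top.2 hne)
  apply hf0
  have := h (fun k => f (Pi.single k 1)) fun q => by
    have h1 : f (y q) = 0 := hf (Submodule.subset_span ⟨q, rfl⟩)
    rw [← h1, LinearMap.pi_apply_eq_sum_univ f (y q), dotProduct]
    refine Finset.sum_congr rfl fun k _ => ?_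
    rw [smul_eq_mul, mul_comm]
    congr 2
    ext j; simp [Pi.single_apply, eq_comm]
  ext k
  simpa using congrFun this k

/-- Independent rows: there are `card K` columns forming a nonsingular block. -/
lemma exists_cols [Fintype K] {J : Type} (y : J → K → F)
    (h : ∀ x : K → F, (∀ q, x ⬝ᵥ y q = 0) → x = 0) :
    ∃ C : K → J, ∀ u : K → F, ∑ k, u k • y (C k) = 0 → u = 0 := by
  obtain ⟨κ, a, ha, hsp, hli⟩ := exists_linearIndependent' F y
  have : Finite κ := hli.finite
  have := Fintype.ofFinite κ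
  have hc : Fintype.card K = Fintype.card κ := by
    rw [← finrank_span_eq_card hli, hsp, span_eq_top_of_perp y h]; simp
  let e := Fintype.equivOfCardEq hc
  refine ⟨a ∘ e, fun u hu => ?_⟩
  have hl : LinearIndependent F (y ∘ a ∘ e) := hli.comp e e.injective
  exact funext (Fintype.linearIndependent_iff.1 hl u hu)

lemma Full.mono [Fintype K] {S : Matrix E E F} {kk : K → E} {Y Y' : Set E} (h : Full S kk Y)
    (hY : Y ⊆ Y') : Full S kk Y' := fun x hx => h x fun b hb => hx b (hY hb)

lemma Al.mono [Fintype K] {S : Matrix E E F} {kk : K → E} {Y Y' : Set E} {u : E} {x : K → F}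
    (h : Al S kk Y u x) (hY : Y' ⊆ Y) : Al S kk Y' u x := fun b hb => h b (hY hb)

lemma Al.unique [Fintype K] {S : Matrix E E F} {kk : K → E} {Y : Set E} {u : E} {x x' : K → F}
    (hf : Full S kk Y) (h : Al S kk Y u x) (h' : Al S kk Y u x') : x = x' :=
  sub_eq_zero.1 (hf _ fun b hb => by rw [sub_dotProduct, ← h b hb, ← h' b hb, sub_self])

lemma Al.eq_single [Fintype K] [DecidableEq K] {S : Matrix E E F} {kk : K → E} {Y : Set E} {r : K}
    {x : K → F} (hf : Full S kk Y) (h : Al S kk Y (kk r) x) : x = Pi.single r 1 :=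
  Al.unique hf h fun b _ => by simp [yv]

lemma nat_core [Fintype K] {S : Matrix E E F} {kk : K → E} {Y : Set E} {r : K} {X : E → K → F}
    (hf : Full S kk Y) (h : Al S kk Y (kk r) (X (kk r))) (w : E) : nat S kk X (kk r) w = 0 := by
  classical
  simp [nat, h.eq_single hf, yv]

lemma nat_eq_zero_iff [Fintype K] {S : Matrix E E F} {kk : K → E} {Y : Set E} {X : E → K → F}
    {u : E} (hf : Full S kk Y) (hX : Al S kk Y u (X u)) (w : E) :
    nat S kk X u w = 0 ↔ InSpan S kk (insert w Y) u := by
  constructor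
  · intro h
    refine ⟨X u, ?_⟩
    rintro b (rfl | hb)
    · exact sub_eq_zero.1 h
    · exact hX b hb
  · rintro ⟨x, hx⟩
    have := Al.unique hf hX (hx.mono (Set.subset_insert _ _))
    rw [nat, this, hx w (Set.mem_insert _ _), sub_self]

/-- The zero pattern of the background-free matrix is matroidal. -/
lemma Same.nat_zero [Fintype E] [Fintype K] {S T : Matrix E E F} (h : Same S T) {kk : K → E}
    {Y : Set E} {X X' : E → K → F} {u : E}
    (hf : Full S kk Y) (hX : Al S kk Y u (X u)) (hX' : Al T kk Y u (X' u)) (w : E) :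
    nat S kk X u w = 0 ↔ nat T kk X' u w = 0 := by
  rw [nat_eq_zero_iff hf hX, nat_eq_zero_iff (h.full hf) hX']
  exact ⟨h.inSpan, h.symm.inSpan⟩

end Rank

section Family

variable [Fintype E] {col : E → Bool} {S : ι → Matrix E E F}

lemma Fam.diag (h : Fam col S) (i : ι) (u : E) : S i u u = 0 := h.bip i u u rfl

lemma Fam.zero_iff (h : Fam col S) (i j : ι) (u v : E) : S i u v = 0 ↔ S j u v = 0 :=
  (h.same i j).zero_iff u v

lemma Fam.zero_comm (h : Fam col S) (i : ι) (u v : E) : S i u v = 0 ↔ S i v u = 0 := by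
  rw [h.skew i u v, neg_eq_zero]

lemma Fam.col_ne (h : Fam col S) {i : ι} {u v : E} (h' : S i u v ≠ 0) : col u ≠ col v :=
  fun hc => h' (h.bip i u v hc)

lemma Fam.reindex {ι' : Type} (h : Fam col S) (g : ι' → ι) : Fam col fun i => S (g i) :=
  ⟨fun _ => h.skew _, fun _ => h.bip _, fun _ _ => h.same _ _⟩

lemma Fam.submatrix [Fintype E'] (h : Fam col S) (f : E' → E) :
    Fam (col ∘ f) fun i => (S i).submatrix f f :=
  ⟨fun i _ _ => h.skew i _ _, fun i _ _ hc => h.bip i _ _ hc, fun i j => (h.same i j).submatrix f⟩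

lemma Fam.scale (h : Fam col S) (c : ι → E → Fˣ) : Fam col fun i => scale (c i) (S i) :=
  ⟨fun i u v => by rw [scale_apply, scale_apply, h.skew i u v]; ring,
    fun i u v hc => by rw [scale_apply, h.bip i u v hc, mul_zero],
    fun i j => (same_scale _ _).symm.trans ((h.same i j).trans (same_scale _ _))⟩

lemma Conn.scale {m : ℕ} {M : Matrix E E F} (h : Conn m M) (c : E → Fˣ) : Conn m (scale c M) :=
  (same_scale c M).conn h

end Family

section Dev

variable {M M' M'' : Matrix E E F} {O O' P0 P1 W W' : Set E}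

lemma scale_one (S : Matrix E E F) : scale 1 S = S := by
  ext u v; simp [scale]

lemma scale_scale (c c' : E → Fˣ) (S : Matrix E E F) :
    scale c (scale c' S) = scale (c * c') S := by
  ext u v; simp [scale]; ring

lemma scale_submatrix (c : E → Fˣ) (S : Matrix E E F) (f : E' → E) :
    (scale c S).submatrix f f = scale (c ∘ f) (S.submatrix f f) := rfl

lemma AgreeOn.refl (W : Set E) (M : Matrix E E F) : AgreeOn W M M := fun _ _ _ _ => rfl

lemma AgreeOn.symm (h : AgreeOn W M M') : AgreeOn W M' M := fun u hu v hv => (h u hu v hv).symm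

lemma AgreeOn.trans (h : AgreeOn W M M') (h' : AgreeOn W M' M'') : AgreeOn W M M'' :=
  fun u hu v hv => (h' u hu v hv).trans (h u hu v hv)

lemma AgreeOn.mono (h : AgreeOn W M M') (hW : W' ⊆ W) : AgreeOn W' M M' :=
  fun u hu v hv => h u (hW hu) v (hW hv)

lemma AgreeOn.equivOn (h : AgreeOn W M M') : EquivOn W M M' :=
  ⟨1, fun u hu v hv => by simp [h u hu v hv]⟩

lemma unit_flip {a b : Fˣ} {x y : F} (h : x = (a : F) * (b : F) * y) :
    y = ((a⁻¹ : Fˣ) : F) * ((b⁻¹ : Fˣ) : F) * x := by
  have := a.ne_zero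
  have := b.ne_zero
  simp only [h, Units.val_inv_eq_inv_val]
  field_simp

lemma EquivOn.symm (h : EquivOn W M M') : EquivOn W M' M := by
  obtain ⟨c, hc⟩ := h
  exact ⟨c⁻¹, fun u hu v hv => unit_flip (hc u hu v hv)⟩

lemma EquivOn.trans (h : EquivOn W M M') (h' : EquivOn W M' M'') : EquivOn W M M'' := by
  obtain ⟨c, hc⟩ := h
  obtain ⟨c', hc'⟩ := h'
  exact ⟨c * c', fun u hu v hv => by rw [hc' u hu v hv, hc u hu v hv]; simp; ring⟩

lemma EquivOn.mono (h : EquivOn W M M') (hW : W' ⊆ W) : EquivOn W' M M' := by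
  obtain ⟨c, hc⟩ := h
  exact ⟨c, fun u hu v hv => hc u (hW hu) v (hW hv)⟩

lemma equivOn_iff_devP : EquivOn W M M' ↔ ¬DevP ∅ M M' W := by
  simp [DevP, EquivOn]

lemma DevP.mono (h : DevP O M M' P0) (hO : O ⊆ O') (hP : P0 ⊆ P1) : DevP O' M M' P1 := by
  rintro ⟨c, h1, h2⟩
  exact h ⟨c, fun o ho => h1 o (hO ho), fun u hu v hv =>
    h2 u (Set.union_subset_union hO hP hu) v (hP hv)⟩

lemma DevP.symm (h : DevP O M M' P0) : DevP O M' M P0 := by
  rintro ⟨c, h1, h2⟩
  exact h ⟨c⁻¹, fun o ho => by simp [h1 o ho], fun u hu v hv => unit_flip (h2 u hu v hv)⟩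

lemma DevP.nonempty (h : DevP O M M' P0) : P0.Nonempty := by
  by_contra hn
  rw [Set.not_nonempty_iff_eq_empty] at hn
  exact h ⟨1, fun _ _ => rfl, fun u _ v hv => by simp [hn] at hv⟩

/-- Only the entries with row in `O ∪ P0` and column in `P0` matter. -/
lemma DevP.congr {N N' : Matrix E E F} (h : DevP O M M' P0)
    (h1 : ∀ u ∈ O ∪ P0, ∀ v ∈ P0, N u v = M u v) (h2 : ∀ u ∈ O ∪ P0, ∀ v ∈ P0, N' u v = M' u v) :
    DevP O N N' P0 := by
  rintro ⟨c, a, b⟩
  exact h ⟨c, a, fun u hu v hv => by rw [← h1 u hu v hv, ← h2 u hu v hv, b u hu v hv]⟩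

lemma devP_scale_iff {c : E → Fˣ} (hc : ∀ o ∈ O, c o = 1) :
    DevP O M (scale c M') P0 ↔ DevP O M M' P0 := by
  refine not_congr ⟨?_, ?_⟩
  · rintro ⟨c', a, b⟩
    refine ⟨c⁻¹ * c', fun o ho => by simp [hc o ho, a o ho], fun u hu v hv => ?_⟩
    have := unit_flip (x := scale c M' u v) (a := c u) (b := c v) (y := M' u v) rfl
    rw [this, b u hu v hv]; simp; ring
  · rintro ⟨c', a, b⟩
    refine ⟨c * c', fun o ho => by simp [hc o ho, a o ho], fun u hu v hv => ?_⟩
    simp only [scale, of_apply, b u hu v hv]; simp; ring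

lemma devP_submatrix_iff {f : E' → E} (hf : Function.Injective f) {O1 P2 : Set E'} :
    DevP O1 (M.submatrix f f) (M'.submatrix f f) P2 ↔ DevP (f '' O1) M M' (f '' P2) := by
  refine not_congr ⟨?_, ?_⟩
  · rintro ⟨c, a, b⟩
    refine ⟨Function.extend f c 1, ?_, ?_⟩
    · rintro _ ⟨o, ho, rfl⟩
      rw [hf.extend_apply, a o ho]
    · rintro u hu _ ⟨v, hv, rfl⟩
      rw [← Set.image_union] at hu
      obtain ⟨u, hu, rfl⟩ := hu
      rw [hf.extend_apply, hf.extend_apply]
      exact b u hu v hv
  · rintro ⟨c, a, b⟩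
    exact ⟨c ∘ f, fun o ho => a _ ⟨o, ho, rfl⟩, fun u hu v hv =>
      b _ (by rw [← Set.image_union]; exact ⟨u, hu, rfl⟩) _ ⟨v, hv, rfl⟩⟩

lemma equivOn_submatrix_iff {f : E' → E} (hf : Function.Injective f) {W1 : Set E'} :
    EquivOn W1 (M.submatrix f f) (M'.submatrix f f) ↔ EquivOn (f '' W1) M M' := by
  rw [equivOn_iff_devP, equivOn_iff_devP, devP_submatrix_iff hf, Set.image_empty]

lemma equivOn_of_not_devP (hM : Skew M) (hM' : Skew M') (ha : AgreeOn O M M')
    (h : ¬DevP O M M' P0) : EquivOn (O ∪ P0) M M' := by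
  obtain ⟨c, a, b⟩ := not_not.1 h
  refine ⟨c, fun u hu v hv => ?_⟩
  rcases hv with hv | hv
  · rcases hu with hu | hu
    · simp [a u hu, a v hv, ha u hu v hv]
    · rw [hM' u v, hM u v, b v (Or.inl hv) u hu]; ring
  · exact b u hu v hv

/-- Part of the deviant set on which the matrices agree can be moved to the fixed side. -/
lemma DevP.shift (hM : Skew M) (hM' : Skew M') (h : DevP O M M' P0)
    (ha : AgreeOn (O ∪ P1) M M') : DevP (O ∪ P1) M M' (P0 \ P1) := by
  intro hn
  obtain ⟨c, a, b⟩ := id hn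
  refine h ⟨c, fun o ho => a o (Or.inl ho), fun u hu v hv => ?_⟩
  by_cases hv1 : v ∈ P1
  · by_cases hu1 : u ∈ O ∪ P1
    · simp [a u hu1, a v (Or.inr hv1), ha u hu1 v (Or.inr hv1)]
    · have hu0 : u ∈ P0 \ P1 := ⟨hu.resolve_left fun h => hu1 (Or.inl h), fun h => hu1 (Or.inr h)⟩
      rw [hM' u v, hM u v, b v (Or.inl (Or.inr hv1)) u hu0]; ring
  · refine b u ?_ v ⟨hv, hv1⟩
    by_cases hu1 : u ∈ P1
    · exact Or.inl (Or.inr hu1)
    · exact hu.elim (fun h => Or.inl (Or.inl h)) fun h => Or.inr ⟨h, hu1⟩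

/-- On a connected agreed set every equivalence can be normalised to `1`. -/
lemma DevP.not_equivOn {col : E → Bool} (hb : Bip col M) (hM : Skew M) (h : DevP O M M' P0)
    (ha : AgreeOn O M M') (hc : ConnOn M O) : ¬EquivOn (O ∪ P0) M M' := by
  rintro ⟨c, hcc⟩
  rcases O.eq_empty_or_nonempty with rfl | ⟨o0, ho0⟩
  · exact h ⟨c, by simp, fun u hu v hv => hcc u hu v (Or.inr hv)⟩
  let c' : E → Fˣ := fun u => if col u = col o0 then c u * (c o0)⁻¹ else c u * c o0
  have key : ∀ u ∈ O ∪ P0, ∀ v ∈ O ∪ P0, M' u v = (c' u : F) * (c' v : F) * M u v := by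
    intro u hu v hv
    rw [hcc u hu v hv]
    by_cases h0 : M u v = 0
    · simp [h0]
    have hne : col u ≠ col v := fun e => h0 (hb u v e)
    have := (c o0).ne_zero
    by_cases h1 : col u = col o0
    · have h2 : col v ≠ col o0 := fun e => hne (h1.trans e.symm)
      simp only [c', if_pos h1, if_neg h2, Units.val_mul, Units.val_inv_eq_inv_val]
      field_simp
    · have h2 : col v = col o0 := by
        revert hne h1; cases col u <;> cases col v <;> cases col o0 <;> simp
      simp only [c', if_neg h1, if_pos h2, Units.val_mul, Units.val_inv_eq_inv_val]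
      field_simp
  have := hc {u ∈ O | c' u = 1} (fun _ hu => hu.1) (by
    rintro u ⟨hu, hu1⟩ v ⟨hv, hv1⟩
    by_contra h0
    apply hv1
    refine ⟨hv, Units.ext ?_⟩
    have := key u (Or.inl hu) v (Or.inl hv)
    rw [ha u hu v hv, hu1] at this
    simp only [Units.val_one, one_mul] at this ⊢
    exact (mul_left_eq_self₀.1 this.symm).resolve_right h0)
  rcases this with h0 | h0
  · have : o0 ∈ {u ∈ O | c' u = 1} := ⟨ho0, by simp [c']⟩
    rw [h0] at this; exact this
  · refine h ⟨c', fun o ho => ?_, fun u hu v hv => key u hu v (Or.inr hv)⟩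
    rw [← h0] at ho; exact ho.2

lemma UC4.scale {k b1 a b2 : E} (h : UC4 M M' k b1 a b2) (c : E → Fˣ) :
    UC4 M (scale c M') k b1 a b2 := by
  obtain ⟨h1, h2, h3, h4, h5⟩ := h
  refine ⟨h1, h2, h3, h4, fun e => h5 ?_⟩
  simp only [H25.scale, of_apply] at e
  have hc : (c k : F) * c b1 * c a * c b2 ≠ 0 := by simp
  apply mul_left_cancel₀ hc
  linear_combination e

lemma UC4.swap {k b1 a b2 : E} (h : UC4 M M' k b1 a b2) : UC4 M M' k b2 a b1 := by
  obtain ⟨h1, h2, h3, h4, h5⟩ := h
  exact ⟨h2, h1, h4, h3, fun e => h5 e.symm⟩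

end Dev

section Data

variable [Fintype K] {S S' S'' : Matrix E E F} {kk : K → E} {X X' X'' : E → K → F} {W : Set E}

lemma DEq.symm (h : DEq S S' kk X X' W) : DEq S' S kk X' X W := by
  obtain ⟨c, hc⟩ := h
  refine ⟨c⁻¹, fun p hp => ?_⟩
  obtain ⟨a, b, d⟩ := hc p hp
  refine ⟨?_, fun r => ?_, fun q hq => unit_flip (d q hq)⟩
  · rw [a, smul_smul]; simp
  · rw [b r, ← mul_assoc]; simp

lemma DEq.trans (h : DEq S S' kk X X' W) (h' : DEq S' S'' kk X' X'' W) :
    DEq S S'' kk X X'' W := by
  obtain ⟨c, hc⟩ := h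
  obtain ⟨c', hc'⟩ := h'
  refine ⟨c' * c, fun p hp => ?_⟩
  obtain ⟨a, b, d⟩ := hc p hp
  obtain ⟨a', b', d'⟩ := hc' p hp
  refine ⟨?_, fun r => ?_, fun q hq => ?_⟩
  · rw [a', a, smul_smul]; simp
  · rw [b' r, b r]; simp [mul_assoc]
  · rw [d' q hq, d q hq]; simp; ring

/-- Equal data are equivalent. -/
lemma DEq.of_eq (h1 : ∀ p ∈ W, X' p = X p)
    (h2 : ∀ p ∈ W, ∀ r, nat S' kk X' p (kk r) = nat S kk X p (kk r))
    (h3 : ∀ p ∈ W, ∀ q ∈ W, nat S' kk X' p q = nat S kk X p q) : DEq S S' kk X X' W :=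
  ⟨1, fun p hp => ⟨by simp [h1 p hp], fun r => by simp [h2 p hp r],
    fun q hq => by simp [h3 p hp q hq]⟩⟩

/-- Inequivalent data give deviance as soon as the reference block is the same. -/
lemma devP_of_not_dEq {C : Set E} (ha : AgreeOn (Set.range kk ∪ C) S S') (hS : Skew S)
    (hS' : Skew S') (hf : Full S kk C) (hX : ∀ p ∈ W, Al S kk C p (X p))
    (hX' : ∀ p ∈ W, Al S' kk C p (X' p)) (h : ¬DEq S S' kk X X' W) :
    DevP (Set.range kk ∪ C) S S' W := by
  rintro ⟨c, a, b⟩
  have hy : ∀ w ∈ Set.range kk ∪ C, yv S' kk w = yv S kk w := fun w hw =>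
    funext fun r => ha _ (Or.inl ⟨r, rfl⟩) w hw
  have hrow : ∀ p ∈ W, ∀ w ∈ Set.range kk ∪ C, S' p w = c p * S p w := fun p hp w hw => by
    rw [hS' p w, hS p w, b w (Or.inl hw) p hp, a w hw]; simp
  have hx : ∀ p ∈ W, X' p = (c p : F) • X p := fun p hp =>
    sub_eq_zero.1 (hf _ fun w hw => by
      rw [sub_dotProduct, smul_dotProduct, ← hX p hp w hw, ← hy w (Or.inr hw), ← hX' p hp w hw,
        hrow p hp w (Or.inr hw), smul_eq_mul, sub_self])
  refine h ⟨c, fun p hp => ⟨hx p hp, fun r => ?_, fun q hq => ?_⟩⟩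
  · rw [nat, nat, hrow p hp _ (Or.inl ⟨r, rfl⟩), hy _ (Or.inl ⟨r, rfl⟩), hx p hp, smul_dotProduct,
      smul_eq_mul, mul_sub]
  · have : yv S' kk q = (c q : F) • yv S kk q := funext fun r => by
      simp only [yv, Pi.smul_apply, smul_eq_mul]
      rw [b _ (Or.inl (Or.inl ⟨r, rfl⟩)) q hq, a _ (Or.inl ⟨r, rfl⟩)]; simp
    rw [nat, nat, b p (Or.inr hp) q hq, this, hx p hp, smul_dotProduct, dotProduct_smul]
    simp only [smul_eq_mul]; ring

end Data

end Pool.Agent.MP_d99b12_co.H25
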