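import Pool.Agent.MP_d99b12_co.H25.Defs

/-! # Shortest walks, pigeonhole, Ramsey -/

namespace Pool.Agent.MP_d99b12_co.H25

section Walks

variable {E : Type} {R : E → E → Prop} {A B : Set E} {ℓ : ℕ} {z : ℕ → E}

lemma Walk.exists_sWalk (h : Walk R A B ℓ z) : ∃ ℓ' z', ℓ' ≤ ℓ ∧ SWalk R A B ℓ' z' := by
  classical
  have hex : ∃ n, ∃ z', Walk R A B n z' := ⟨ℓ, z, h⟩
  obtain ⟨z', hz'⟩ := Nat.find_spec hex
  exact ⟨Nat.find hex, z', Nat.find_min' hex ⟨z, h⟩,
    ⟨hz', fun ℓ' z'' hw => Nat.find_min' hex ⟨z'', hw⟩⟩⟩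

lemma walk_of_reflTransGen_aux {a b : E} (h : Relation.ReflTransGen R a b) :
    ∃ (ℓ : ℕ) (z : ℕ → E), z 0 = a ∧ z ℓ = b ∧ ∀ i < ℓ, R (z i) (z (i + 1)) := by
  induction h with
  | refl => exact ⟨0, fun _ => a, rfl, rfl, fun i hi => absurd hi (Nat.not_lt_zero i)⟩
  | @tail b c _ hbc ih =>
    obtain ⟨ℓ, z, h0, h1, hs⟩ := ih
    refine ⟨ℓ + 1, fun i => if i ≤ ℓ then z i else c, by simp [h0], by simp, ?_⟩
    intro i hi
    by_cases hil : i < ℓ
    · simp only [if_pos hil.le, if_pos (show i + 1 ≤ ℓ from hil)]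
      exact hs i hil
    · have : i = ℓ := by omega
      subst this
      simpa [h1] using hbc

lemma walk_of_reflTransGen {a b : E} (h : Relation.ReflTransGen R a b) (ha : a ∈ A) (hb : b ∈ B) :
    ∃ ℓ z, Walk R A B ℓ z := by
  obtain ⟨ℓ, z, h0, h1, hs⟩ := walk_of_reflTransGen_aux h
  exact ⟨ℓ, z, ⟨h0 ▸ ha, h1 ▸ hb, hs⟩⟩

lemma Walk.reflTransGen (h : Walk R A B ℓ z) {i j : ℕ} (hij : i ≤ j) (hj : j ≤ ℓ) :
    Relation.ReflTransGen R (z i) (z j) := by
  induction j, hij using Nat.le_induction with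
  | base => exact Relation.ReflTransGen.refl
  | succ j _ ih => exact (ih (by omega)).tail (h.step j (by omega))

/-- Either a set closed under `R` separates `A` from `B`, or there is a shortest walk. -/
lemma exists_sWalk_or_closed (R : E → E → Prop) (A B : Set E) :
    (∃ ℓ z, SWalk R A B ℓ z) ∨
      ∃ X : Set E, A ⊆ X ∧ Disjoint X B ∧ ∀ u ∈ X, ∀ v, v ∉ X → ¬R u v := by
  by_cases h : ∃ a ∈ A, ∃ b ∈ B, Relation.ReflTransGen R a b
  · left
    obtain ⟨a, ha, b, hb, hab⟩ := h
    obtain ⟨ℓ, z, hw⟩ := walk_of_reflTransGen hab ha hb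
    obtain ⟨ℓ', z', -, hs⟩ := hw.exists_sWalk
    exact ⟨ℓ', z', hs⟩
  · right
    refine ⟨{v | ∃ a ∈ A, Relation.ReflTransGen R a v},
      fun a ha => ⟨a, ha, Relation.ReflTransGen.refl⟩, ?_, ?_⟩
    · rw [Set.disjoint_left]
      rintro v ⟨a, ha, hav⟩ hv
      exact h ⟨a, ha, v, hv, hav⟩
    · rintro u ⟨a, ha, hau⟩ v hv huv
      exact hv ⟨a, ha, hau.tail huv⟩

lemma SWalk.notMem_start (h : SWalk R A B ℓ z) {i : ℕ} (h0 : 0 < i) (hi : i ≤ ℓ) : z i ∉ A := by
  intro hA
  have hw : Walk R A B (ℓ - i) (fun t => z (i + t)) := by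
    refine ⟨by simpa using hA, ?_, ?_⟩
    · have e : i + (ℓ - i) = ℓ := by omega
      simpa [e] using h.stop
    · intro t ht
      exact h.step (i + t) (by omega)
  have := h.min _ _ hw
  omega

lemma SWalk.notMem_stop (h : SWalk R A B ℓ z) {i : ℕ} (hi : i < ℓ) : z i ∉ B := by
  intro hB
  have hw : Walk R A B i z := ⟨h.start, hB, fun t ht => h.step t (by omega)⟩
  have := h.min _ _ hw
  omega

lemma SWalk.chord (h : SWalk R A B ℓ z) {i j : ℕ} (hij : i + 2 ≤ j) (hj : j ≤ ℓ) :
    ¬R (z i) (z j) := by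
  intro hR
  have hw : Walk R A B (i + 1 + (ℓ - j))
      (fun t => if t ≤ i then z t else z (t + (j - (i + 1)))) := by
    refine ⟨by simpa using h.start, ?_, ?_⟩
    · have e : i + 1 + (ℓ - j) + (j - (i + 1)) = ℓ := by omega
      have e' : ¬(i + 1 + (ℓ - j) ≤ i) := by omega
      simp only [if_neg e', e]
      exact h.stop
    · intro t ht
      rcases lt_trichotomy t i with hti | hti | hti
      · simp only [if_pos hti.le, if_pos (show t + 1 ≤ i from hti)]
        exact h.step t (by omega)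
      · subst hti
        have e : t + 1 + (j - (t + 1)) = j := by omega
        simp only [le_refl, if_true, if_neg (show ¬(t + 1 ≤ t) by omega), e]
        exact hR
      · have e : t + 1 + (j - (i + 1)) = t + (j - (i + 1)) + 1 := by omega
        simp only [if_neg (show ¬(t ≤ i) by omega), if_neg (show ¬(t + 1 ≤ i) by omega), e]
        exact h.step _ (by omega)
  have := h.min _ _ hw
  omega

lemma SWalk.ne_of_lt (h : SWalk R A B ℓ z) {i j : ℕ} (hij : i < j) (hj : j ≤ ℓ) : z i ≠ z j := by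
  intro e
  rcases hj.lt_or_eq with hj | hj
  · refine h.chord (i := i) (j := j + 1) (by omega) (by omega) ?_
    rw [e]
    exact h.step j hj
  · subst hj
    exact h.notMem_stop hij (e ▸ h.stop)

lemma SWalk.inj (h : SWalk R A B ℓ z) {i j : ℕ} (hi : i ≤ ℓ) (hj : j ≤ ℓ) (e : z i = z j) :
    i = j := by
  rcases lt_trichotomy i j with hij | hij | hij
  · exact absurd e (h.ne_of_lt hij hj)
  · exact hij
  · exact absurd e.symm (h.ne_of_lt hij hi)

lemma SWalk.chord_start (h : SWalk R A B ℓ z) {a : E} (ha : a ∈ A) {j : ℕ} (h2 : 2 ≤ j)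
    (hj : j ≤ ℓ) : ¬R a (z j) := by
  intro hR
  have hw : Walk R A B (1 + (ℓ - j)) (fun t => if t = 0 then a else z (t + (j - 1))) := by
    refine ⟨by simpa using ha, ?_, ?_⟩
    · have e : 1 + (ℓ - j) + (j - 1) = ℓ := by omega
      simp only [if_neg (show ¬(1 + (ℓ - j) = 0) by omega), e]
      exact h.stop
    · intro t ht
      rcases Nat.eq_zero_or_pos t with h0 | h0
      · subst h0
        have e : 0 + 1 + (j - 1) = j := by omega
        simp only [if_true, if_neg (show ¬(0 + 1 = 0) by omega), e]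
        exact hR
      · have e : t + 1 + (j - 1) = t + (j - 1) + 1 := by omega
        simp only [if_neg (show ¬(t = 0) by omega), if_neg (show ¬(t + 1 = 0) by omega), e]
        exact h.step _ (by omega)
  have := h.min _ _ hw
  omega

lemma SWalk.chord_stop (h : SWalk R A B ℓ z) {b : E} (hb : b ∈ B) {i : ℕ} (hi : i + 2 ≤ ℓ) :
    ¬R (z i) b := by
  intro hR
  have hw : Walk R A B (i + 1) (fun t => if t ≤ i then z t else b) := by
    refine ⟨by simpa using h.start, by simpa using hb, ?_⟩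
    intro t ht
    rcases (show t < i ∨ t = i by omega) with hti | hti
    · simp only [if_pos hti.le, if_pos (show t + 1 ≤ i from hti)]
      exact h.step t (by omega)
    · subst hti
      simpa using hR
  have := h.min _ _ hw
  omega

/-- A shortest walk in a finite type is short. -/
lemma SWalk.lt_card [Fintype E] (h : SWalk R A B ℓ z) : ℓ < Fintype.card E := by
  have hinj : Function.Injective fun i : Fin (ℓ + 1) => z i.val := by
    intro i j e
    exact Fin.ext (h.inj (by omega) (by omega) e)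
  have := Fintype.card_le_of_injective _ hinj
  simpa using this

end Walks

/-- Pigeonhole with a bound that depends only on the number of colours. -/
lemma pigeon (c n : ℕ) : ∃ N, ∀ (β : Type) [Finite β], Nat.card β ≤ c → ∀ f : Fin N → β,
    ∃ g : Fin n ↪o Fin N, ∀ i j, f (g i) = f (g j) := by
  classical
  refine ⟨c * n + 1, fun β _ hβ f => ?_⟩
  have := Fintype.ofFinite β
  rw [Nat.card_eq_fintype_card] at hβ
  obtain ⟨y, hy⟩ := Fintype.exists_lt_card_fiber_of_mul_lt_card f (n := n) (by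
    rw [Fintype.card_fin]
    exact Nat.lt_succ_of_le (Nat.mul_le_mul_right n hβ))
  refine ⟨Finset.orderEmbOfCardLe _ hy.le, fun i j => ?_⟩
  have hi := Finset.orderEmbOfCardLe_mem _ hy.le i
  have hj := Finset.orderEmbOfCardLe_mem _ hy.le j
  rw [Finset.mem_filter] at hi hj
  rw [hi.2, hj.2]

/-- Many indices with a property, or many without. -/
lemma pigeon_or (n1 n2 : ℕ) : ∃ N, ∀ p : Fin N → Prop,
    (∃ g : Fin n1 ↪o Fin N, ∀ i, p (g i)) ∨ ∃ g : Fin n2 ↪o Fin N, ∀ i, ¬p (g i) := by
  classical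
  refine ⟨n1 + n2, fun p => ?_⟩
  have hc := Finset.card_filter_add_card_filter_not (s := (Finset.univ : Finset (Fin (n1 + n2)))) p
  rw [Finset.card_univ, Fintype.card_fin] at hc
  by_cases h1 : n1 ≤ (Finset.univ.filter p).card
  · left
    refine ⟨Finset.orderEmbOfCardLe _ h1, fun i => ?_⟩
    exact (Finset.mem_filter.1 (Finset.orderEmbOfCardLe_mem _ h1 i)).2
  · right
    have h2 : n2 ≤ (Finset.univ.filter fun a => ¬p a).card := by omega
    refine ⟨Finset.orderEmbOfCardLe _ h2, fun i => ?_⟩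
    exact (Finset.mem_filter.1 (Finset.orderEmbOfCardLe_mem _ h2 i)).2

/-- Put `0` in front of an increasing list. -/
def consEmb {m N : ℕ} (g : Fin m ↪o Fin N) : Fin (m + 1) ↪o Fin (N + 1) :=
  OrderEmbedding.ofStrictMono (Fin.cases 0 fun i => (g i).succ) (by
    intro a b hab
    induction b using Fin.cases with
    | zero => exact absurd hab (Fin.not_lt_zero a)
    | succ b =>
      induction a using Fin.cases with
      | zero => simp
      | succ a =>
        simp only [Fin.cases_succ, Fin.succ_lt_succ_iff]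
        exact g.strictMono (Fin.succ_lt_succ_iff.1 hab))

@[simp] lemma consEmb_zero {m N : ℕ} (g : Fin m ↪o Fin N) : consEmb g 0 = 0 := rfl

@[simp] lemma consEmb_succ {m N : ℕ} (g : Fin m ↪o Fin N) (i : Fin m) :
    consEmb g i.succ = (g i).succ := rfl

/-- The colour of a pair depends only on its first element. -/
lemma front2 (β : Type) [Finite β] (m : ℕ) : ∃ N, ∀ f : Fin N → Fin N → β,
    ∃ g : Fin m ↪o Fin N, ∀ i j j', i < j → i < j' → f (g i) (g j) = f (g i) (g j') := by
  induction m with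
  | zero => exact ⟨0, fun f => ⟨RelEmbedding.refl _, fun i => i.elim0⟩⟩
  | succ m ih =>
    obtain ⟨N, hN⟩ := ih
    obtain ⟨P, hP⟩ := pigeon (Nat.card β) N
    refine ⟨P + 1, fun f => ?_⟩
    obtain ⟨g1, h1⟩ := hP β le_rfl fun j => f 0 j.succ
    obtain ⟨g2, h2⟩ := hN fun a b => f (g1 a).succ (g1 b).succ
    refine ⟨consEmb (g2.trans g1), fun i j j' hj hj' => ?_⟩
    induction j using Fin.cases with
    | zero => exact absurd hj (Fin.not_lt_zero i)
    | succ j =>
      induction j' using Fin.cases with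
      | zero => exact absurd hj' (Fin.not_lt_zero i)
      | succ j' =>
        induction i using Fin.cases with
        | zero => exact h1 (g2 j) (g2 j')
        | succ i => exact h2 i j j' (Fin.succ_lt_succ_iff.1 hj) (Fin.succ_lt_succ_iff.1 hj')

lemma ramsey2 (β : Type) [Finite β] (n : ℕ) : ∃ N, ∀ f : Fin N → Fin N → β,
    ∃ g : Fin n ↪o Fin N, ∀ i j i' j', i < j → i' < j' → f (g i) (g j) = f (g i') (g j') := by
  obtain ⟨M, hM⟩ := pigeon (Nat.card β) n
  obtain ⟨N, hN⟩ := front2 β (M + 1)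
  refine ⟨N, fun f => ?_⟩
  obtain ⟨g1, h1⟩ := hN f
  obtain ⟨g2, h2⟩ := hM β le_rfl fun i => f (g1 i.castSucc) (g1 (Fin.last M))
  refine ⟨(g2.trans Fin.castSuccOrderEmb).trans g1, fun i j i' j' hij hij' => ?_⟩
  have key : ∀ a b : Fin n, a < b → f (g1 (g2 a).castSucc) (g1 (g2 b).castSucc) =
      f (g1 (g2 a).castSucc) (g1 (Fin.last M)) := fun a b hab =>
    h1 _ _ _ (Fin.castSucc_lt_castSucc_iff.2 (g2.strictMono hab)) (Fin.castSucc_lt_last _)
  exact (key i j hij).trans ((h2 i i').trans (key i' j' hij').symm)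

/-- The colour of a triple depends only on its first element. -/
lemma front3 (β : Type) [Finite β] (m : ℕ) : ∃ N, ∀ f : Fin N → Fin N → Fin N → β,
    ∃ g : Fin m ↪o Fin N, ∀ i j k j' k', i < j → j < k → i < j' → j' < k' →
      f (g i) (g j) (g k) = f (g i) (g j') (g k') := by
  induction m with
  | zero => exact ⟨0, fun f => ⟨RelEmbedding.refl _, fun i => i.elim0⟩⟩
  | succ m ih =>
    obtain ⟨N, hN⟩ := ih
    obtain ⟨P, hP⟩ := ramsey2 β N
    refine ⟨P + 1, fun f => ?_⟩
    obtain ⟨g1, h1⟩ := hP fun j k => f 0 j.succ k.succ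
    obtain ⟨g2, h2⟩ := hN fun a b c => f (g1 a).succ (g1 b).succ (g1 c).succ
    refine ⟨consEmb (g2.trans g1), fun i j k j' k' hj hk hj' hk' => ?_⟩
    induction j using Fin.cases with
    | zero => exact absurd hj (Fin.not_lt_zero i)
    | succ j =>
    induction j' using Fin.cases with
    | zero => exact absurd hj' (Fin.not_lt_zero i)
    | succ j' =>
    induction k using Fin.cases with
    | zero => exact absurd hk (Fin.not_lt_zero _)
    | succ k =>
    induction k' using Fin.cases with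
    | zero => exact absurd hk' (Fin.not_lt_zero _)
    | succ k' =>
    have hk1 := Fin.succ_lt_succ_iff.1 hk
    have hk1' := Fin.succ_lt_succ_iff.1 hk'
    induction i using Fin.cases with
    | zero => exact h1 (g2 j) (g2 k) (g2 j') (g2 k') (g2.strictMono hk1) (g2.strictMono hk1')
    | succ i =>
      exact h2 i j k j' k' (Fin.succ_lt_succ_iff.1 hj) hk1 (Fin.succ_lt_succ_iff.1 hj') hk1'

lemma ramsey3 (β : Type) [Finite β] (n : ℕ) : ∃ N, ∀ f : Fin N → Fin N → Fin N → β,
    ∃ g : Fin n ↪o Fin N, ∀ i j k i' j' k', i < j → j < k → i' < j' → j' < k' →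
      f (g i) (g j) (g k) = f (g i') (g j') (g k') := by
  obtain ⟨M, hM⟩ := pigeon (Nat.card β) n
  obtain ⟨N, hN⟩ := front3 β (M + 2)
  refine ⟨N, fun f => ?_⟩
  obtain ⟨g1, h1⟩ := hN f
  obtain ⟨g2, h2⟩ := hM β le_rfl fun i =>
    f (g1 i.castSucc.castSucc) (g1 (Fin.last M).castSucc) (g1 (Fin.last (M + 1)))
  refine ⟨((g2.trans Fin.castSuccOrderEmb).trans Fin.castSuccOrderEmb).trans g1,
    fun i j k i' j' k' hij hjk hij' hjk' => ?_⟩
  have mono : ∀ a b : Fin n, a < b → (g2 a).castSucc.castSucc < (g2 b).castSucc.castSucc :=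
    fun a b hab => Fin.castSucc_lt_castSucc_iff.2
      (Fin.castSucc_lt_castSucc_iff.2 (g2.strictMono hab))
  have key : ∀ a b c : Fin n, a < b → b < c →
      f (g1 (g2 a).castSucc.castSucc) (g1 (g2 b).castSucc.castSucc)
        (g1 (g2 c).castSucc.castSucc) =
      f (g1 (g2 a).castSucc.castSucc) (g1 (Fin.last M).castSucc) (g1 (Fin.last (M + 1))) :=
    fun a b c hab hbc => h1 _ _ _ _ _ (mono a b hab) (mono b c hbc)
      (Fin.castSucc_lt_castSucc_iff.2 (Fin.castSucc_lt_last _)) (Fin.castSucc_lt_last _)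
  exact (key i j k hij hjk).trans ((h2 i i').trans (key i' j' k' hij' hjk').symm)

lemma finite_antitone {I : Type} [Finite I] (Ψ : I → ℕ → Prop)
    (hm : ∀ i n n', n ≤ n' → Ψ i n' → Ψ i n) (h : ∀ n, ∃ i, Ψ i n) : ∃ i, ∀ n, Ψ i n := by
  by_contra hc
  push Not at hc
  choose φ hφ using hc
  obtain ⟨M, hM⟩ := (Set.finite_range φ).bddAbove
  obtain ⟨i, hi⟩ := h M
  exact hφ i (hm i _ _ (hM ⟨i, rfl⟩) hi)

/-- A large rooted tree has a vertex with many children or a long branch. -/
lemma tree_dich (b L : ℕ) : ∃ T, ∀ par : Fin T → Option (Fin T), (∀ s t, par s = some t → t < s) →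
    (∃ (c : Option (Fin T)) (g : Fin b ↪o Fin T), ∀ i, par (g i) = c) ∨
      ∃ g : Fin L ↪o Fin T, ∀ j j' : Fin L, j.val + 1 = j'.val → par (g j') = some (g j) := by
  classical
  let c : ℕ → ℕ := fun j => Nat.rec 0 (fun _ x => b * (x + 1)) j
  have c0 : c 0 = 0 := rfl
  have cs : ∀ j, c (j + 1) = b * (c j + 1) := fun _ => rfl
  obtain ⟨T, hT⟩ : ∃ T, T = c L + 1 := ⟨_, rfl⟩
  refine ⟨T, fun par hpar => ?_⟩
  by_cases hb : ∃ x : Option (Fin T), b ≤ (Finset.univ.filter fun s => par s = x).card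
  · left
    obtain ⟨x, hx⟩ := hb
    exact ⟨x, Finset.orderEmbOfCardLe _ hx, fun i =>
      (Finset.mem_filter.1 (Finset.orderEmbOfCardLe_mem _ hx i)).2⟩
  right
  push Not at hb
  let Ch : ℕ → Fin T → Prop := fun j s =>
    ∃ z : ℕ → Fin T, z j = s ∧ ∀ i < j, par (z (i + 1)) = some (z i)
  have hcard : ∀ j, (Finset.univ.filter fun s => ¬Ch j s).card ≤ c j := by
    intro j
    induction j with
    | zero =>
      rw [c0, Nat.le_zero, Finset.card_eq_zero, Finset.filter_eq_empty_iff]
      intro s _ hs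
      exact hs ⟨fun _ => s, rfl, fun i hi => absurd hi (Nat.not_lt_zero i)⟩
    | succ j ih =>
      rw [cs]
      have hmap : ∀ s ∈ (Finset.univ.filter fun s => ¬Ch (j + 1) s),
          par s ∈ insert none ((Finset.univ.filter fun s => ¬Ch j s).image some) := by
        intro s hs
        have hs' := (Finset.mem_filter.1 hs).2
        rcases hp : par s with _ | t
        · exact Finset.mem_insert_self _ _
        · refine Finset.mem_insert_of_mem (Finset.mem_image_of_mem _ ?_)
          refine Finset.mem_filter.2 ⟨Finset.mem_univ _, ?_⟩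
          rintro ⟨z, hz, hstep⟩
          refine hs' ⟨fun i => if i ≤ j then z i else s, by simp, fun i hi => ?_⟩
          rcases (show i < j ∨ i = j by omega) with hij | hij
          · simp only [if_pos hij.le, if_pos (show i + 1 ≤ j from hij)]
            exact hstep i hij
          · subst hij
            simpa [hz] using hp
      refine (Finset.card_le_mul_card_image_of_maps_to hmap b fun x _ => ?_).trans ?_
      · refine le_trans (Finset.card_le_card ?_) (hb x).le
        intro s hs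
        exact Finset.mem_filter.2 ⟨Finset.mem_univ _, (Finset.mem_filter.1 hs).2⟩
      · refine Nat.mul_le_mul_left b ((Finset.card_insert_le _ _).trans ?_)
        exact Nat.add_le_add_right (Finset.card_image_le.trans ih) 1
  have hex : ∃ s, Ch L s := by
    by_contra hn
    push Not at hn
    have h1 := hcard L
    rw [Finset.filter_true_of_mem fun s _ => hn s, Finset.card_univ, Fintype.card_fin] at h1
    omega
  obtain ⟨s, z, -, hstep⟩ := hex
  have hmono : ∀ i j, i < j → j ≤ L → z i < z j := by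
    intro i j hij
    induction j, hij using Nat.le_induction with
    | base => exact fun h => hpar _ _ (hstep i (by omega))
    | succ j _ ih => exact fun h => (ih (by omega)).trans (hpar _ _ (hstep j (by omega)))
  refine ⟨OrderEmbedding.ofStrictMono (fun i => z i.val)
    fun i j hij => hmono i j hij j.isLt.le, fun j j' hj => ?_⟩
  show par (z j'.val) = some (z j.val)
  rw [← hj]
  exact hstep _ j.isLt

/-- A function `φ s ≤ s` has many points with the same value, or many disjoint pairs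
` (φ t, t)` with `φ t ≤ t`. -/
lemma pair_dich (n : ℕ) : ∃ T, ∀ φ : Fin T → Fin T, (∀ t, φ t ≤ t) →
    ∃ (s0 : Fin T) (g : Fin n ↪o Fin T) (h : Fin n → Fin T), (∀ i, h i < g i) ∧
      Function.Injective h ∧ (∀ i j, h i ≠ g j) ∧ (∀ i, s0 ≠ h i ∧ s0 < g i) ∧
      ∀ i, φ (g i) = s0 ∨ φ (g i) = h i ∨ φ (g i) = g i := by
  obtain ⟨T, hT⟩ := ramsey2 (Prop × Prop × Prop) (2 * n + 3)
  refine ⟨T, fun φ hφ => ?_⟩
  obtain ⟨G, hG⟩ := hT fun t t' => (φ t = φ t', φ t' = t, φ t = t)
  let i0 : Fin (2 * n + 3) := ⟨0, by omega⟩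
  let i1 : Fin (2 * n + 3) := ⟨1, by omega⟩
  let i2 : Fin (2 * n + 3) := ⟨2, by omega⟩
  have h01 : i0 < i1 := by simp [i0, i1]
  have hA : ∀ i j, i < j → (φ (G i) = φ (G j) ↔ φ (G i0) = φ (G i1)) := fun i j hij =>
    iff_of_eq (congrArg Prod.fst (hG i j i0 i1 hij h01))
  have hB : ∀ i j, i < j → (φ (G j) = G i ↔ φ (G i1) = G i0) := fun i j hij =>
    iff_of_eq (congrArg (fun x => x.2.1) (hG i j i0 i1 hij h01))
  have hC : ∀ i j, i < j → (φ (G i) = G i ↔ φ (G i0) = G i0) := fun i j hij =>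
    iff_of_eq (congrArg (fun x => x.2.2) (hG i j i0 i1 hij h01))
  let od : Fin n → Fin (2 * n + 3) := fun i => ⟨2 * i.val + 1, by omega⟩
  let ev : Fin n → Fin (2 * n + 3) := fun i => ⟨2 * i.val + 2, by omega⟩
  let su : Fin n → Fin (2 * n + 3) := fun i => ⟨i.val + 1, by omega⟩
  let la : Fin (2 * n + 3) := ⟨2 * n + 2, by omega⟩
  have evm : StrictMono ev := fun a b hab => by
    simp only [ev, Fin.lt_def] at hab ⊢; omega
  have sum : StrictMono su := fun a b hab => by
    simp only [su, Fin.lt_def] at hab ⊢; omega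
  have hoe : ∀ i, od i < ev i := fun i => by simp [od, ev, Fin.lt_def]
  have h0o : ∀ i, i0 < od i := fun i => by simp [od, i0, Fin.lt_def]
  have h0s : ∀ i, i0 < su i := fun i => by simp [su, i0, Fin.lt_def]
  have hel : ∀ i, ev i < la := fun i => by
    have := i.isLt
    simp only [ev, la, Fin.lt_def]; omega
  have hsl : ∀ i, su i < la := fun i => by
    have := i.isLt
    simp only [su, la, Fin.lt_def]; omega
  have hoinj : Function.Injective fun i => G (od i) := fun a b hab => by
    have := congrArg Fin.val (G.injective hab)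
    simp only [od] at this
    exact Fin.ext (by omega)
  have hone : ∀ i j, G (od i) ≠ G (ev j) := fun a b hab => by
    have := congrArg Fin.val (G.injective hab)
    simp only [od, ev] at this
    omega
  -- both constant cases use the odd and even positions
  have std : ∀ s0 : Fin T, s0 ≤ G i0 → (∀ i, φ (G (ev i)) = s0 ∨ φ (G (ev i)) = G (ev i)) →
      ∃ (s0 : Fin T) (g : Fin n ↪o Fin T) (h : Fin n → Fin T), (∀ i, h i < g i) ∧
      Function.Injective h ∧ (∀ i j, h i ≠ g j) ∧ (∀ i, s0 ≠ h i ∧ s0 < g i) ∧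
      ∀ i, φ (g i) = s0 ∨ φ (g i) = h i ∨ φ (g i) = g i := by
    intro s0 hs0 hv
    refine ⟨s0, (OrderEmbedding.ofStrictMono ev evm).trans G, fun i => G (od i),
      fun i => G.strictMono (hoe i), hoinj, hone, fun i => ⟨?_, ?_⟩, fun i => ?_⟩
    · exact (hs0.trans_lt (G.strictMono (h0o i))).ne
    · exact hs0.trans_lt (G.strictMono ((h0o i).trans (hoe i)))
    · rcases hv i with h | h
      · exact Or.inl h
      · exact Or.inr (Or.inr h)
  by_cases cC : φ (G i0) = G i0
  · exact std (G i0) le_rfl fun i => Or.inr ((hC _ _ (hel i)).2 cC)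
  by_cases cA : φ (G i0) = φ (G i1)
  · exact std (φ (G i0)) (hφ _) fun i => Or.inl ((hA _ _ ((h0o i).trans (hoe i))).2 cA).symm
  by_cases cB : φ (G i1) = G i0
  · have h02 : i0 < i2 := by simp [i0, i2, Fin.lt_def]
    have h12 : i1 < i2 := by simp [i1, i2, Fin.lt_def]
    have e := ((hB _ _ h02).2 cB).symm.trans ((hB _ _ h12).2 cB)
    exact absurd (G.injective e) h01.ne
  have hlt : ∀ i, φ (G (su i)) < G (su i) := fun i =>
    lt_of_le_of_ne (hφ _) fun e => cC ((hC _ _ (hsl i)).1 e)
  refine ⟨G i0, (OrderEmbedding.ofStrictMono su sum).trans G, fun i => φ (G (su i)), hlt, ?_, ?_,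
    fun i => ⟨?_, G.strictMono (h0s i)⟩, fun i => Or.inr (Or.inl rfl)⟩
  · intro a b hab
    rcases lt_trichotomy a b with h | h | h
    · exact absurd ((hA _ _ (sum h)).1 hab) cA
    · exact h
    · exact absurd ((hA _ _ (sum h)).1 hab.symm) cA
  · intro a b hab
    change φ (G (su a)) = G (su b) at hab
    rcases lt_or_ge b a with h | h
    · exact cB ((hB _ _ (sum h)).1 hab)
    · exact absurd hab ((hlt a).trans_le (G.monotone (sum.monotone h))).ne
  · exact fun e => cB ((hB _ _ (h0s i)).1 e.symm)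

end Pool.Agent.MP_d99b12_co.H25
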