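import Pool.Agent.MP_d99b12_co.H25.Spec
import Pool.Agent.MP_d99b12_co.H25.Comb
import Pool.Agent.MP_d99b12_co.H25.Basic

/-! # Row A1S: a visible pair at level at least three forces `δ = 0` -/

namespace Pool.Agent.MP_d99b12_co.H25

open Matrix

set_option linter.unusedSectionVars false

variable {F : Type} [Field F]

namespace A1S

variable {K P : Type} [Fintype K]

theorem act_ext {f g : Act F K} (h1 : ∀ x, x ∈ f.rel ↔ x ∈ g.rel) (h2 : f.hid ↔ g.hid) :
    f = g := by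
  obtain ⟨r, p⟩ := f
  obtain ⟨r', p'⟩ := g
  have e1 : r = r' := Submodule.ext h1
  have e2 : p = p' := propext h2
  rw [e1, e2]

theorem symm (s : Sys F K) (u v : K → F) : u ⬝ᵥ s.δ *ᵥ v = v ⬝ᵥ s.δ *ᵥ u := by
  have h : s.δᵀ = s.δ := by
    unfold Sys.δ
    rw [transpose_add, transpose_transpose, add_comm]
  rw [dotProduct_mulVec, ← mulVec_transpose, h, dotProduct_comm]

theorem pair_zero (s : Sys F K) (c : Bool) {u v : K → F} (hu : ∀ k, c = s.colK k → u k = 0)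
    (hv : ∀ k, c = s.colK k → v k = 0) : u ⬝ᵥ s.δ *ᵥ v = 0 := by
  unfold dotProduct mulVec dotProduct
  refine Finset.sum_eq_zero fun k _ => ?_
  by_cases h1 : c = s.colK k
  · rw [hu k h1, zero_mul]
  · refine mul_eq_zero_of_right _ (Finset.sum_eq_zero fun k' _ => ?_)
    by_cases h2 : c = s.colK k'
    · rw [hv k' h2, mul_zero]
    · have h3 : s.colK k = s.colK k' := by
        revert h1 h2
        cases c <;> cases s.colK k <;> cases s.colK k' <;> simp
      have h4 : s.δ k k' = 0 := by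
        unfold Sys.δ
        rw [Matrix.add_apply, transpose_apply, s.bipU k k' h3, s.bipU k' k h3.symm, add_zero]
      change s.δ k k' * v k' = 0
      rw [h4, zero_mul]

theorem ne_not {c c' : Bool} (h : c ≠ c') : c' = !c := by
  revert h
  cases c <;> cases c' <;> simp

/-- Conjugating a test by an invertible transfer gives a test. -/
theorem conj_test (δ Φ : Matrix K K F) (v v' : K → F)
    (hinj : ∀ d : K → F, d + Φ *ᵥ (δ *ᵥ d) = 0 → d = 0)
    (hv : ∀ e : K → F, v' ⬝ᵥ e = v ⬝ᵥ (e + δ *ᵥ (Φ *ᵥ e))) :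
    (Act.tfInv δ Φ).comp ((Act.test δ v).comp (Act.tf δ Φ)) = Act.test δ v' := by
  refine act_ext ?_ ?_
  · rintro ⟨ω, r, r2⟩
    constructor
    · rintro ⟨r1, ⟨r0, h1, h2, h3⟩, h4⟩
      have h1' : r0 = r + Φ *ᵥ (ω + δ *ᵥ r) := h1
      have h2' : r1 = r0 := h2
      have h3' : v ⬝ᵥ (ω + δ *ᵥ r0) = 0 := h3
      have h4' : r1 = r2 + Φ *ᵥ (ω + δ *ᵥ r2) := h4
      have h5 : r2 - r = 0 := hinj _ (by
        have h6 : r + Φ *ᵥ (ω + δ *ᵥ r) = r2 + Φ *ᵥ (ω + δ *ᵥ r2) := by rw [← h1', ← h2', h4']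
        simp only [mulVec_add, mulVec_sub] at h6 ⊢
        linear_combination (exp := 1) -h6)
      refine ⟨sub_eq_zero.1 h5, ?_⟩
      change v' ⬝ᵥ (ω + δ *ᵥ r) = 0
      rw [hv, ← h3', h1', mulVec_add δ r, add_assoc]
    · rintro ⟨h1, h2⟩
      have h1' : r2 = r := h1
      have h2' : v' ⬝ᵥ (ω + δ *ᵥ r) = 0 := h2
      refine ⟨r + Φ *ᵥ (ω + δ *ᵥ r), ⟨r + Φ *ᵥ (ω + δ *ᵥ r), rfl, rfl, ?_⟩, ?_⟩
      · change v ⬝ᵥ (ω + δ *ᵥ (r + Φ *ᵥ (ω + δ *ᵥ r))) = 0
        rw [← h2', hv, mulVec_add δ r, add_assoc]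
      · change r + Φ *ᵥ (ω + δ *ᵥ r) = r2 + Φ *ᵥ (ω + δ *ᵥ r2)
        rw [h1']
  · refine ⟨?_, False.elim⟩
    rintro (h | (h | h | ⟨r, h1, h2, -⟩) | ⟨r, h1, ⟨r0, h2, h3, -⟩, -⟩)
    · exact h
    · exact h
    · exact h
    · have h3 : r = 0 + Φ *ᵥ (0 + δ *ᵥ 0) := h2
      exact h1 (by simpa using h3)
    · have h4 : r0 = 0 + Φ *ᵥ (0 + δ *ᵥ 0) := h2
      have h5 : r = r0 := h3
      exact h1 (by simpa [h5] using h4)

variable [Fintype P]

theorem letter_test (δ : Matrix K K F) (y : P → K → F) (B : Matrix P P F) (x : P) :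
    Act.letter δ y B {x} ∅ = Act.test δ (y x) := by
  refine act_ext ?_ ?_
  · rintro ⟨ω, r, r2⟩
    constructor
    · rintro ⟨u, h1, h2, h3⟩
      have h4 : u = 0 := funext fun q => h1 q (Set.notMem_empty q)
      subst h4
      exact ⟨by simpa using h3, by simpa using h2 x rfl⟩
    · rintro ⟨h1, h2⟩
      refine ⟨0, fun _ _ => rfl, ?_, by simpa using h1⟩
      rintro p rfl
      simpa using h2
  · refine ⟨?_, False.elim⟩
    rintro ⟨u, h1, h2, -⟩
    exact h1 (funext fun q => h2 q (Set.notMem_empty q))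

/-- Two vectors with a nonzero pairing to which every achievable test is proportional or
orthogonal. -/
structure Two (s : Sys F K) (c : Bool) (ξ η : K → F) : Prop where
  cx : ∀ k, c = s.colK k → ξ k = 0
  cy : ∀ k, (!c) = s.colK k → η k = 0
  ne : ξ ⬝ᵥ s.δ *ᵥ η ≠ 0
  tx : Act.test s.δ ξ ∈ s.𝒜
  ty : Act.test s.δ η ∈ s.𝒜
  zx : ∀ v, Act.test s.δ v ∈ s.𝒜 → (∀ k, c = s.colK k → v k = 0) → v ⬝ᵥ s.δ *ᵥ η ≠ 0 →
    ∃ t : F, v = t • ξ
  zy : ∀ v, Act.test s.δ v ∈ s.𝒜 → (∀ k, (!c) = s.colK k → v k = 0) → v ⬝ᵥ s.δ *ᵥ ξ ≠ 0 →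
    ∃ t : F, v = t • η

variable {s : Sys F K} {c : Bool} {ξ η : K → F} {col : P → Bool} {y : P → K → F}
  {B : Matrix P P F}

theorem Two.swap (h : Two s c ξ η) : Two s (!c) η ξ where
  cx := h.cy
  cy := by simpa using h.cx
  ne := by
    rw [symm]
    exact h.ne
  tx := h.ty
  ty := h.tx
  zx := h.zy
  zy := by simpa using h.zx

theorem test_mem (hd : SDisp s col y B) (x : P) : Act.test s.δ (y x) ∈ s.𝒜 := by
  rw [← letter_test s.δ y B x]
  exact hd.mem _ _

theorem Two.mul (h : Two s c ξ η) (hd : SDisp s col y B) {x : P} (hx : y x ⬝ᵥ s.δ *ᵥ η ≠ 0) :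
    col x = c ∧ ∃ t : F, y x = t • ξ := by
  have h1 : col x = c := by
    by_contra h2
    exact hx (pair_zero s (!c) (fun k hk => hd.ycol x k ((ne_not (Ne.symm h2)).trans hk)) h.cy)
  exact ⟨h1, h.zx _ (test_mem hd x) (fun k hk => hd.ycol x k (h1.trans hk)) hx⟩

/-- Adjacent in the support of `B` or of its transpose. -/
def Adj (B : Matrix P P F) (p q : P) : Prop := B p q ≠ 0 ∨ B q p ≠ 0

theorem both (hd : SDisp s col y B) {p q : P} (h : Adj B p q) (h0 : y p ⬝ᵥ s.δ *ᵥ y q = 0) :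
    B p q ≠ 0 ∧ B q p ≠ 0 := by
  have h1 := hd.compat p q
  rw [h0] at h1
  rcases h with h | h
  · exact ⟨h, fun h2 => h (by rw [h2, add_zero] at h1; exact h1)⟩
  · exact ⟨fun h2 => h (by rw [h2, zero_add] at h1; exact h1), h⟩

theorem Adj.col_ne (hd : SDisp s col y B) {p q : P} (h : Adj B p q) : col p ≠ col q := by
  intro h1
  rcases h with h | h
  · exact h (hd.bip p q h1)
  · exact h (hd.bip q p h1.symm)

theorem phi_mulVec (y : P → K → F) (B : Matrix P P F) (a b : P) (e : K → F) :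
    rePhi y B a b *ᵥ e =
      -((B a b)⁻¹ * (y a ⬝ᵥ e)) • y b - ((B b a)⁻¹ * (y b ⬝ᵥ e)) • y a := by
  unfold rePhi
  rw [sub_mulVec, smul_mulVec, smul_mulVec, vecMulVec_mulVec, vecMulVec_mulVec]
  ext k
  simp only [Pi.sub_apply, Pi.smul_apply, smul_eq_mul, MulOpposite.smul_eq_mul_unop,
    MulOpposite.unop_op]
  ring

variable [Fintype F]

/-- No edge between the two types. -/
theorem edge (hs : SREB F) (h : Two s c ξ η) (hd : SDisp s col y B) {x w : P}
    (hx : y x ⬝ᵥ s.δ *ᵥ η ≠ 0) (hw : y w ≠ 0) (h1 : y w ⬝ᵥ s.δ *ᵥ η = 0)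
    (h2 : y w ⬝ᵥ s.δ *ᵥ ξ = 0) (ha : Adj B x w) : False := by
  obtain ⟨hc, t, ht⟩ := h.mul hd hx
  have hwx : y w ⬝ᵥ s.δ *ᵥ y x = 0 := by
    rw [ht, mulVec_smul, dotProduct_smul, h2, smul_zero]
  have hxw : y x ⬝ᵥ s.δ *ᵥ y w = 0 := by rw [symm, hwx]
  obtain ⟨b1, b2⟩ := both hd ha hxw
  have hxx : y x ⬝ᵥ s.δ *ᵥ y x = 0 := pair_zero s _ (hd.ycol x) (hd.ycol x)
  have hww : y w ⬝ᵥ s.δ *ᵥ y w = 0 := pair_zero s _ (hd.ycol w) (hd.ycol w)
  obtain ⟨-, m1, m2⟩ := hs K P s col y B x w hd b1 b2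
  have hcw : col w = !c := hc ▸ ne_not (ha.col_ne hd)
  set k : F := (B x w)⁻¹ * 0 + (B w x)⁻¹ * (y x ⬝ᵥ s.δ *ᵥ η) with hk
  have hk0 : k ≠ 0 := by
    rw [hk, mul_zero, zero_add]
    exact mul_ne_zero (inv_ne_zero b2) hx
  have hm : Act.test s.δ (η - k • y w) ∈ s.𝒜 := by
    rw [← conj_test s.δ (rePhi y B x w) η (η - k • y w) (fun d hdd => ?_) (fun e => ?_)]
    · exact s.comp_mem _ m2 _ (s.comp_mem _ h.ty _ m1)
    · rw [phi_mulVec] at hdd
      have e1 := congrArg (fun v => y x ⬝ᵥ s.δ *ᵥ v) hdd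
      have e2 := congrArg (fun v => y w ⬝ᵥ s.δ *ᵥ v) hdd
      simp only [mulVec_add, mulVec_sub, mulVec_smul, dotProduct_add, dotProduct_sub,
        dotProduct_smul, hxw, hxx, hww, hwx, smul_zero, sub_zero, add_zero, mulVec_zero,
        dotProduct_zero] at e1 e2
      rw [e1, e2] at hdd
      simpa using hdd
    · rw [phi_mulVec, dotProduct_add, mulVec_sub, mulVec_smul, mulVec_smul, dotProduct_sub,
        dotProduct_smul, dotProduct_smul, symm s η (y w), h1, symm s η (y x), sub_dotProduct,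
        smul_dotProduct, hk]
      simp only [smul_eq_mul]
      ring
  obtain ⟨t', ht'⟩ := h.zy _ hm (fun j hj => by
      rw [Pi.sub_apply, Pi.smul_apply, h.cy j hj, hd.ycol w j (hcw.trans hj), smul_zero, sub_zero])
    (by
      rw [sub_dotProduct, smul_dotProduct, h2, smul_zero, sub_zero]
      exact h.swap.ne)
  have e3 := congrArg (fun v => v ⬝ᵥ s.δ *ᵥ ξ) ht'
  simp only [sub_dotProduct, smul_dotProduct, h2, smul_eq_mul, mul_zero, sub_zero] at e3
  have e4 : t' = 1 := by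
    have e5 : (t' - 1) * (η ⬝ᵥ s.δ *ᵥ ξ) = 0 := by linear_combination -e3
    exact sub_eq_zero.1 ((mul_eq_zero.1 e5).resolve_right h.swap.ne)
  rw [e4, one_smul, sub_eq_self, smul_eq_zero] at ht'
  exact ht'.elim hk0 hw

theorem reY_other (y : P → K → F) (B : Matrix P P F) {a b p : P} (h1 : p ≠ a) (h2 : p ≠ b)
    (ha : y a = 0) : reY y B a b p = y p - (B p a / B b a) • y b := by
  simp [reY, h1, h2, ha]

/-- No path of length two between the two types through an uncharged vertex. -/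
theorem path2 (hs : SREB F) (h : Two s c ξ η) (hd : SDisp s col y B) {x m w : P}
    (hx : y x ⬝ᵥ s.δ *ᵥ η ≠ 0) (hm : y m = 0) (hw : y w ≠ 0) (h1 : y w ⬝ᵥ s.δ *ᵥ η = 0)
    (ha : Adj B x m) (ha' : Adj B m w) : False := by
  obtain ⟨-, t, ht⟩ := h.mul hd hx
  obtain ⟨b1, -⟩ := both hd ha (by rw [hm, mulVec_zero, dotProduct_zero])
  obtain ⟨b3, b4⟩ := both hd ha' (by rw [hm, zero_dotProduct])
  obtain ⟨hd', -, -⟩ := hs K P s col y B m w hd b3 b4
  have n1 : x ≠ m := fun e => hx (by rw [e, hm, zero_dotProduct])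
  have n2 : x ≠ w := fun e => hx (by rw [e, h1])
  have e1 := reY_other y B n1 n2 hm
  have e2 : reY y B m w x ⬝ᵥ s.δ *ᵥ η = y x ⬝ᵥ s.δ *ᵥ η := by
    rw [e1, sub_dotProduct, smul_dotProduct, h1, smul_zero, sub_zero]
  obtain ⟨-, t', ht'⟩ := h.mul hd' (x := x) (by rw [e2]; exact hx)
  have e3 : t' = t := by
    rw [ht', ht, smul_dotProduct, smul_dotProduct] at e2
    exact mul_right_cancel₀ h.ne e2
  rw [e1, e3, ← ht, sub_eq_self, smul_eq_zero] at ht'
  exact ht'.elim (div_ne_zero b1 b4) hw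

/-- The first type. -/
def T1 (s : Sys F K) (ξ η : K → F) (y : P → K → F) : Set P :=
  {p | y p ⬝ᵥ s.δ *ᵥ η ≠ 0 ∨ y p ⬝ᵥ s.δ *ᵥ ξ ≠ 0}

/-- The second type. -/
def T2 (s : Sys F K) (ξ η : K → F) (y : P → K → F) : Set P :=
  {p | y p ≠ 0 ∧ y p ⬝ᵥ s.δ *ᵥ η = 0 ∧ y p ⬝ᵥ s.δ *ᵥ ξ = 0}

theorem no_walk (hs : SREB F) (h : Two s c ξ η) (ℓ : ℕ) : ∀ (col : P → Bool) (y : P → K → F)
    (B : Matrix P P F) (z : ℕ → P), SDisp s col y B →
    ¬Walk (Adj B) (T1 s ξ η y) (T2 s ξ η y) ℓ z := by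
  induction ℓ using Nat.strong_induction_on with
  | _ ℓ ih =>
  intro col y B z hd hz
  have hsw : SWalk (Adj B) (T1 s ξ η y) (T2 s ξ η y) ℓ z :=
    { hz with min := fun ℓ' z' hz' => not_lt.1 fun hl => ih ℓ' hl col y B z' hd hz' }
  have hin : ∀ i, 0 < i → i < ℓ → y (z i) = 0 := fun i h0 hi => by
    by_contra hne
    have a1 := hsw.notMem_start h0 hi.le
    have a2 := hsw.notMem_stop hi
    refine a2 ⟨hne, ?_, ?_⟩
    · by_contra a3
      exact a1 (Or.inl a3)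
    · by_contra a3
      exact a1 (Or.inr a3)
  obtain ⟨w0, w1, w2⟩ := hz.stop
  have hst := hz.start
  rcases ℓ with _ | _ | _ | n
  · exact hst.elim (fun a => a w1) fun a => a w2
  · rcases hst with a | a
    · exact edge hs h hd a w0 w1 w2 (hz.step 0 (by omega))
    · exact edge hs h.swap hd a w0 w2 w1 (hz.step 0 (by omega))
  · rcases hst with a | a
    · exact path2 hs h hd a (hin 1 (by omega) (by omega)) w0 w1 (hz.step 0 (by omega))
        (hz.step 1 (by omega))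
    · exact path2 hs h.swap hd a (hin 1 (by omega) (by omega)) w0 w2 (hz.step 0 (by omega))
        (hz.step 1 (by omega))
  · have hm : y (z (n + 2)) = 0 := hin _ (by omega) (by omega)
    have hm' : y (z (n + 1)) = 0 := hin _ (by omega) (by omega)
    obtain ⟨b1, -⟩ := both hd (hz.step (n + 1) (by omega)) (by rw [hm', zero_dotProduct])
    obtain ⟨b3, b4⟩ := both hd (hz.step (n + 2) (by omega)) (by rw [hm, zero_dotProduct])
    obtain ⟨hd', -, -⟩ := hs K P s col y B _ _ hd b3 b4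
    have n1 : ∀ i ≤ n + 1, z i ≠ z (n + 2) := fun i hi e => by
      have := hsw.inj (by omega) (by omega) e
      omega
    have n2 : ∀ i ≤ n + 1, z i ≠ z (n + 2 + 1) := fun i hi e => by
      have := hsw.inj (by omega) (by omega) e
      omega
    have c2 : ∀ i ≤ n + 1, B (z i) (z (n + 2 + 1)) = 0 ∧ B (z (n + 2 + 1)) (z i) = 0 :=
      fun i hi => by
        have a := hsw.chord (i := i) (j := n + 2 + 1) (by omega) (by omega)
        exact ⟨not_not.1 fun a1 => a (Or.inl a1), not_not.1 fun a1 => a (Or.inr a1)⟩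
    have c3 : ∀ i ≤ n + 1, ∀ j ≤ n + 1,
        epiv B (z (n + 2)) (z (n + 2 + 1)) (z i) (z j) = B (z i) (z j) := fun i hi j hj => by
      simp [epiv, n1 i hi, n2 i hi, n1 j hj, n2 j hj, (c2 i hi).1, (c2 j hj).2]
    refine ih (n + 1) (by omega) _ _ _ z hd' ⟨?_, ?_, fun i hi => ?_⟩
    · have a := hsw.chord (i := 0) (j := n + 2) (by omega) (by omega)
      have a1 : B (z 0) (z (n + 2)) = 0 := not_not.1 fun a1 => a (Or.inl a1)
      have e : reY y B (z (n + 2)) (z (n + 2 + 1)) (z 0) = y (z 0) := by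
        rw [reY_other y B (n1 0 (by omega)) (n2 0 (by omega)) hm, a1, zero_div, zero_smul,
          sub_zero]
      change _ ∨ _
      rw [e]
      exact hst
    · have e := reY_other y B (n1 (n + 1) le_rfl) (n2 (n + 1) le_rfl) hm
      rw [hm', zero_sub] at e
      refine ⟨?_, ?_, ?_⟩
      · rw [e, neg_ne_zero]
        exact smul_ne_zero (div_ne_zero b1 b4) w0
      · rw [e, neg_dotProduct, smul_dotProduct, w1, smul_zero, neg_zero]
      · rw [e, neg_dotProduct, smul_dotProduct, w2, smul_zero, neg_zero]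
    · have a := hz.step i (by omega)
      unfold Adj at a ⊢
      rw [c3 i (by omega) (i + 1) (by omega), c3 (i + 1) (by omega) i (by omega)]
      exact a

/-- With three or more dimensions some vector is orthogonal to two given ones. -/
theorem exists_orth (h3 : 3 ≤ Fintype.card K) (u v : K → F) :
    ∃ x : K → F, x ≠ 0 ∧ x ⬝ᵥ u = 0 ∧ x ⬝ᵥ v = 0 := by
  let L : (K → F) →ₗ[F] F × F :=
    LinearMap.prod ((dotProductBilin F F).flip u) ((dotProductBilin F F).flip v)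
  have h1 : LinearMap.ker L ≠ ⊥ := LinearMap.ker_ne_bot_of_finrank_lt (by
    rw [Module.finrank_prod, Module.finrank_self, Module.finrank_fintype_fun_eq_card]
    omega)
  obtain ⟨x, hx, hx0⟩ := (Submodule.ne_bot_iff _).1 h1
  have h2 : L x = 0 := hx
  exact ⟨x, hx0, congrArg Prod.fst h2, congrArg Prod.snd h2⟩

theorem two_false (hs : SREB F) (h : Two s c ξ η) (hd : SDisp s col y B) {a : P}
    (ha : a ∈ T1 s ξ η y) (h3 : 3 ≤ Fintype.card K) : False := by
  rcases exists_sWalk_or_closed (Adj B) (T1 s ξ η y) (T2 s ξ η y) with ⟨ℓ, z, hz⟩ | ⟨X, h1, h2, h4⟩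
  · exact no_walk hs h ℓ col y B z hd hz.toWalk
  · rcases hd.conn X (fun p hp q hq => ⟨not_not.1 fun a1 => h4 p hp q hq (Or.inl a1),
      not_not.1 fun a1 => h4 p hp q hq (Or.inr a1)⟩) with e | e
    · have := h1 ha
      rw [e] at this
      exact this
    · obtain ⟨x, hx0, hx1, hx2⟩ := exists_orth h3 ξ η
      refine hx0 (hd.span x fun p => ?_)
      by_cases a1 : y p ⬝ᵥ s.δ *ᵥ η = 0
      · by_cases a2 : y p ⬝ᵥ s.δ *ᵥ ξ = 0
        · by_cases a3 : y p = 0
          · rw [a3, dotProduct_zero]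
          · exact (Set.disjoint_left.1 h2 (e ▸ Set.mem_univ p) ⟨a3, a1, a2⟩).elim
        · obtain ⟨-, t, ht⟩ := h.swap.mul hd a2
          rw [ht, dotProduct_smul, hx2, smul_zero]
      · obtain ⟨-, t, ht⟩ := h.mul hd a1
        rw [ht, dotProduct_smul, hx1, smul_zero]

theorem vis_symm {Bs : Matrix P P F} {ε : Matrix K K F} (hd : Disp s col y B Bs ε) {a b : P}
    (hv : VisP y B Bs a b) : VisP y B Bs b a := by
  refine ⟨hv.2.1, hv.1, fun e => hv.2.2 ?_⟩
  have h1 := hd.compat a b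
  have h2 := hd.compats a b
  linear_combination h2 - h1 - e

theorem vis_col {Bs : Matrix P P F} {ε : Matrix K K F} (hd : Disp s col y B Bs ε) {a b : P}
    (hv : VisP y B Bs a b) : col b = !col a :=
  ne_not fun e => hv.2.2 (by rw [hd.bips a b e, hd.bip a b e])

theorem core (hs : SREB F) (hz : ZT F) {Bs : Matrix P P F} (hd : Disp s col y B Bs 0) {a b : P}
    (hv : VisP y B Bs a b) (hb : s.δ *ᵥ y b ≠ 0) (h3 : 3 ≤ Fintype.card K) : False := by
  have hc := vis_col hd hv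
  have zx : ∀ v, Act.test s.δ v ∈ s.𝒜 → (∀ k, col a = s.colK k → v k = 0) →
      v ⬝ᵥ s.δ *ᵥ y b ≠ 0 → ∃ t : F, v = t • y a := fun v h1 h2 h4 => by
    obtain ⟨t, ht⟩ := Submodule.mem_span_singleton.1 (hz K P s col y B Bs a b v hd hv h1 h2 h4)
    exact ⟨t, ht.symm⟩
  have hne : y a ⬝ᵥ s.δ *ᵥ y b ≠ 0 := fun h0 => hb (hd.span _ fun x => by
    rw [dotProduct_comm]
    by_contra h1
    have h2 : col x = col a := by
      by_contra h4
      refine h1 (pair_zero s (col b) (fun k hk => hd.ycol x k ?_) (hd.ycol b))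
      rw [← hk, hc]
      exact ne_not (Ne.symm h4)
    obtain ⟨t, ht⟩ := zx _ (test_mem hd.toSDisp x) (fun k hk => hd.ycol x k (h2.trans hk)) h1
    exact h1 (by rw [ht, smul_dotProduct, h0, smul_zero]))
  have h : Two s (col a) (y a) (y b) :=
    { cx := hd.ycol a
      cy := fun k hk => hd.ycol b k (hc.trans hk)
      ne := hne
      tx := test_mem hd.toSDisp a
      ty := test_mem hd.toSDisp b
      zx := zx
      zy := fun v h1 h2 h4 => by
        obtain ⟨t, ht⟩ := Submodule.mem_span_singleton.1 (hz K P s col y B Bs b a v hd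
          (vis_symm hd hv) h1 (fun k hk => h2 k (hc.symm.trans hk)) h4)
        exact ⟨t, ht.symm⟩ }
  exact two_false hs h hd.toSDisp (a := a) (Or.inl hne) h3

/-- The diagonal blocks are skew, bipartite and have the same zero pattern. -/
theorem blocks {d : Datum F K P} (h : d.Alg) (p q : P) :
    d.A p q = -d.A q p ∧ d.As p q = -d.As q p ∧ (d.As p q = 0 ↔ d.A p q = 0) ∧ d.A p p = 0 := by
  obtain ⟨A', h1, h2⟩ := h 1
  have e0 : A' 0 0 = d.As := (h1 0).2 0 rfl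
  have e1 : A' 1 0 = d.A := (h1 1).1 0 (by decide)
  have e : ∀ i p q, d.big (A' i) (.inr (0, p)) (.inr (0, q)) = A' i 0 p q := fun i p q => by
    simp [Datum.big]
  have a1 := h2.skew 1 (.inr (0, p)) (.inr (0, q))
  have a2 := h2.skew 0 (.inr (0, p)) (.inr (0, q))
  have a3 := h2.zero_iff 0 1 (.inr (0, p)) (.inr (0, q))
  have a4 := h2.bip 1 (.inr (0, p)) (.inr (0, p)) rfl
  simp only [e, e0, e1] at a1 a2 a3 a4
  exact ⟨a1, a2, a3, a4⟩

theorem dev_ne {d : Datum F K P} (h : d.Alg) {a b : P} (hd : d.DevD {a, b}) :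
    d.As a b ≠ d.A a b ∧ d.y a ≠ 0 := by
  classical
  obtain ⟨s1, s2, z1, d1⟩ := blocks h a b
  obtain ⟨s3, s4, -, d2⟩ := blocks h b a
  have d3 : d.As a a = 0 := (blocks h a a).2.2.1.2 d1
  have d4 : d.As b b = 0 := (blocks h b b).2.2.1.2 d2
  have hne : d.As a b ≠ d.A a b := fun e => hd ⟨1, fun p _ k => by simp, by
    rintro p (rfl | rfl) q (rfl | rfl)
    · simp [d1, d3]
    · simp [e]
    · simp [s3, s4, e]
    · simp [d2, d4]⟩
  refine ⟨hne, fun h0 => hd ?_⟩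
  have n1 : d.A a b ≠ 0 := fun e => hne (by rw [z1.2 e, e])
  have n2 : d.As a b ≠ 0 := fun e => n1 (z1.1 e)
  have n3 : b ≠ a := fun e => n1 (by rw [e, d1])
  refine ⟨fun p => if p = a then Units.mk0 (d.As a b / d.A a b) (div_ne_zero n2 n1) else 1, ?_, ?_⟩
  · intro p _ k
    by_cases e : p = a
    · have e1 : d.V k a = 0 := congrFun h0 k
      rw [e, e1, mul_zero]
    · simp [e]
  · rintro p (rfl | rfl) q (rfl | rfl)
    · simp [d1, d3]
    · simp [n3, n1]
    · simp [n3, n1, s3, s4]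
    · simp [d2, d4]

theorem visP {d : Datum F K P} (h : d.Alg) {a b : P} (hd : d.DevD {a, b}) :
    VisP d.y d.B d.Bs a b :=
  ⟨(dev_ne h hd).2, (dev_ne h (Set.pair_comm a b ▸ hd)).2, fun e =>
    (dev_ne h hd).1 (add_right_cancel (b := d.Uᵀ a b) e)⟩

end A1S

variable [Fintype F]

theorem a1s (hs : SREB F) (_hp : ZP F) (hc : C1 F) (hz : ZT F) : A1S F := by
  intro K P _ _ s col y B Bs a b hd hv h3
  by_contra hδ
  by_cases hb : s.δ *ᵥ y b = 0
  · by_cases ha : s.δ *ᵥ y a = 0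
    · obtain ⟨col', y', B', Bs', ε', a', b', hd', hv', hb', -⟩ :=
        hc K P s col y B Bs 0 a b (LinearMap.ker s.δ.mulVecLin) hd hv (fun x hx => hx)
          (fun e => hδ (by
            have h1 : s.δ.mulVecLin = 0 := LinearMap.ker_eq_top.1 e
            refine Matrix.ext_iff_mulVec.2 fun v => ?_
            rw [zero_mulVec]
            exact LinearMap.congr_fun h1 v)) ha hb
      obtain rfl : ε' = 0 := hd'.adm.resolve_left hδ
      exact A1S.core hs hz hd' hv' hb' h3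
    · exact A1S.core hs hz hd (A1S.vis_symm hd hv) ha h3
  · exact A1S.core hs hz hd hv hb h3

theorem a1 (hs : SYS F) (h : A1S F) : A1 F := by
  intro K P _ _ d h1 h2 h3 h4 ⟨a, b, h5⟩ h6
  obtain ⟨s, hd, hs'⟩ := hs K P d h1 h2 h3 h4
  exact hs'.1 (h K P s _ _ _ _ a b hd (A1S.visP h1 h5) h6)

end Pool.Agent.MP_d99b12_co.H25
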