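import Pool.Agent.MP_d99b12_co.H25.Spec3

/-! # Auxiliary petals in all closed sets at the same time -/

namespace Pool.Agent.MP_d99b12_co.H25

open Matrix Sum

variable {F : Type} [Field F] [Fintype F]

namespace ALLWL

set_option linter.unusedSectionVars false

variable {E K P : Type} [Fintype E] [Fintype K]

lemma col_eq {S T : Matrix E E F} (hS : Skew S) (hT : Skew T) {u : E} (h : ∀ v, T u v = S u v)
    (w : E) : T w u = S w u := by
  rw [hT w u, hS w u, h w]

lemma yv_eq {S T : Matrix E E F} (hS : Skew S) (hT : Skew T) (kk : K → E) {u : E}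
    (h : ∀ v, T u v = S u v) : yv T kk u = yv S kk u :=
  funext fun r => col_eq hS hT h (kk r)

lemma shut_congr {S T : Matrix E E F} (hS : Skew S) (hT : Skew T) {kk : K → E} {C : Set E}
    (h : ∀ u ∈ C, ∀ v, T u v = S u v) (hs : Shut S kk C) : Shut T kk C := by
  refine ⟨hs.notK, fun w hw => ?_⟩
  obtain ⟨x, hx⟩ := hs.span w hw
  refine ⟨x, fun b hb => ?_⟩
  rw [col_eq hS hT (h b hb) w, yv_eq hS hT kk (h b hb)]
  exact hx b hb

lemma full_congr {S T : Matrix E E F} (hS : Skew S) (hT : Skew T) {kk : K → E} {C : Set E}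
    (h : ∀ u ∈ C, ∀ v, T u v = S u v) (hf : Full S kk C) : Full T kk C := by
  intro x hx
  refine hf x fun b hb => ?_
  rw [← yv_eq hS hT kk (h b hb)]
  exact hx b hb

lemma connOn_petal {N : ℕ} {d : Datum F K P} {col : E → Bool} {S : Fin (N + 1) → Matrix E E F}
    {kk : K → E} {pp : Fin N → P → E} (hU : d.U = 0) (hc : NConn d.B) (hF : Fam col S)
    (h : IsChain d col S kk pp) (j : Fin N) : ConnOn (S (Fin.last N)) (Set.range (pp j)) := by
  intro X hX h0
  have hj : j.val < (Fin.last N).val := by simp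
  have hB : ∀ p q, d.B p q = S (Fin.last N) (pp j p) (pp j q) := by
    intro p q
    rw [h.pp_left hj p q, Datum.B, hU]
    simp
  have key := hc (pp j ⁻¹' X) fun p hp q hq => by
    have h1 : S (Fin.last N) (pp j p) (pp j q) = 0 := h0 _ hp _ ⟨⟨q, rfl⟩, hq⟩
    refine ⟨by rw [hB, h1], ?_⟩
    rw [hB]
    exact (hF.zero_comm _ _ _).1 h1
  rcases key with key | key
  · left
    refine Set.eq_empty_of_forall_notMem fun x hx => ?_
    obtain ⟨p, rfl⟩ := hX hx
    have : p ∈ pp j ⁻¹' X := hx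
    rw [key] at this
    exact this
  · right
    refine Set.Subset.antisymm hX ?_
    rintro x ⟨p, rfl⟩
    have : p ∈ pp j ⁻¹' X := by rw [key]; trivial
    exact this

lemma exists_col {m : ℕ} {d : Datum F K P} {c : Bool} (hm : m < Fintype.card K)
    (h2 : 2 * Fintype.card {k // ¬d.colK k = c} < m) : ∃ k, d.colK k = c := by
  by_contra hn
  have hn' : ∀ k, ¬d.colK k = c := fun k e => hn ⟨k, e⟩
  have : Fintype.card {k // ¬d.colK k = c} = Fintype.card K :=
    Fintype.card_congr (Equiv.subtypeUnivEquiv hn')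
  omega

lemma exists_V {d : Datum F K P} (hr : d.Red) (k : K) : ∃ p, d.V k p ≠ 0 := by
  classical
  by_contra hn
  have hn' : ∀ p, d.V k p = 0 := fun p => by
    by_contra e
    exact hn ⟨p, e⟩
  have h0 := hr (Pi.single k 1) fun q => by
    rw [single_one_dotProduct]
    exact hn' q
  have h1 := congrFun h0 k
  simp at h1

end ALLWL

open ALLWL in
theorem allw {m : ℕ} (hE : EXT F m) (h1 : AUXSAME F m) (h2 : AUXCONGR F m) : ALLW F m := by
  intro K P _ _ d c E _ col N n S kk pp a b Ω J hU hr hc hm hsm hF hC hch hab hΩ hsh hdj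
  classical
  obtain ⟨k0, hk0⟩ := exists_col hm hsm
  obtain ⟨p0, hp0⟩ := exists_V hr k0
  have hcp : ∀ j, ¬col (pp j p0) = c := fun j e => by
    have h0 : S (Fin.last N) (kk k0) (pp j p0) ≠ 0 := by rw [hch.kk_pp]; exact hp0
    exact hF.col_ne h0 (by rw [hch.colK, hk0, e])
  suffices H : ∃ (col' : E → Bool) (S' : Fin (N + 1) → Matrix E E F), Fam col' S' ∧
      (∀ i, Conn m (S' i)) ∧ (∀ k, col' (kk k) = col (kk k)) ∧
      (∀ t, t ∉ J → ∀ u ∈ Ω t, col' u = col u ∧ ∀ i v, S' i u v = S i u v) ∧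
      (∀ t t', t ≠ t' → ∀ u ∈ Ω t, ∀ w ∈ Ω t', ∀ i, S' i u w = 0) ∧
      (∀ t ∈ J, ∃ W ⊆ Ω t, W.ncard ≤ 4 * (3 * Fintype.card K + 2) ∧
        ∀ i, Aux m c col' (S' i) kk W) ∧ ∀ t, Shut (S' (Fin.last N)) kk (Ω t) by
    obtain ⟨col', S', g1, g2, g3, g4, g5, g6, -⟩ := H
    exact ⟨col', S', g1, g2, g3, g4, g5, g6⟩
  induction J using Finset.induction_on with
  | empty =>
    refine ⟨col, S, hF, hC, fun _ => rfl, fun _ _ _ _ => ⟨rfl, fun _ _ => rfl⟩,
      fun t t' ht u hu w hw i => ?_, fun t ht => absurd ht (Finset.notMem_empty t), hsh⟩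
    exact (hF.zero_iff (Fin.last N) i u w).1 ((hdj t t' ht).2 u hu w hw)
  | insert t0 J ht0 ih =>
    obtain ⟨col', S', g1, g2, g3, g4, g5, g6, g7⟩ := ih
    have hrow : ∀ u ∈ Ω t0, ∀ v, S' (Fin.last N) u v = S (Fin.last N) u v :=
      fun u hu v => (g4 t0 ht0 u hu).2 _ v
    have hA : Set.range (pp (a t0)) ⊆ Ω t0 := by
      rintro x ⟨p, rfl⟩
      exact (hΩ t0 p).1
    have hB : Set.range (pp (b t0)) ⊆ Ω t0 := by
      rintro x ⟨p, rfl⟩
      exact (hΩ t0 p).2
    have hcon : ∀ j, Set.range (pp j) ⊆ Ω t0 → ConnOn (S' (Fin.last N)) (Set.range (pp j)) :=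
      fun j hj => (connOn_petal hU hc hF hch j).congr fun u hu v _ => hrow u (hj hu) v
    have hful : ∀ j, Set.range (pp j) ⊆ Ω t0 → Full (S' (Fin.last N)) kk (Set.range (pp j)) :=
      fun j hj => full_congr (hF.skew _) (g1.skew _) (fun u hu v => hrow u (hj hu) v)
        (hch.full hr _ j)
    have hyv : ∀ j, pp j p0 ∈ Ω t0 → yv (S' (Fin.last N)) kk (pp j p0) = d.y p0 := fun j hj => by
      rw [yv_eq (hF.skew _) (g1.skew _) kk (hrow _ hj), hch.yv_pp]
    have hcol : ∀ j, pp j p0 ∈ Ω t0 → ¬col' (pp j p0) = c := fun j hj => by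
      rw [(g4 t0 ht0 _ hj).1]
      exact hcp j
    have hcard : Fintype.card {k // ¬col' (kk k) = c} = Fintype.card {k // ¬d.colK k = c} :=
      Fintype.card_congr (Equiv.subtypeEquivRight fun k => by rw [g3, hch.colK])
    obtain ⟨bb, W, hP, hW, hWc, hAux⟩ := hE E (Fin (N + 1)) K (col', S') (Fin.last N) kk (Ω t0)
      (Set.range (pp (a t0))) (Set.range (pp (b t0))) c (pp (a t0) p0) (pp (b t0) p0) g1 (g2 _)
      hch.kk_inj hm (g7 t0) hA hB (hcon _ hA) (hcon _ hB) (hful _ hA) (hful _ hB) ⟨p0, rfl⟩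
      ⟨p0, rfl⟩ (fun e => hab t0 (hch.pp_inj e).1)
      (by rw [hyv _ (hΩ t0 p0).1, hyv _ (hΩ t0 p0).2]) (hcol _ (hΩ t0 p0).1)
      (hcol _ (hΩ t0 p0).2) (lt_of_eq_of_lt (congrArg (2 * ·) hcard) hsm)
    have f1 : Fam bb.1 bb.2 := hP.fam g1
    have fk : ∀ k, bb.1 (kk k) = col' (kk k) := fun k => hP.col ((g7 t0).notK k)
    have fo : ∀ t, t ≠ t0 → ∀ u ∈ Ω t, bb.1 u = col' u ∧ ∀ i v, bb.2 i u v = S' i u v := by
      intro t ht u hu
      have hu0 : u ∉ Ω t0 := Set.disjoint_left.1 (hdj t t0 ht).1 hu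
      exact ⟨hP.col hu0, fun i v =>
        hP.row g1 (i0 := Fin.last N) hu0 (fun z hz => g5 t t0 ht u hu z hz _) i v⟩
    refine ⟨bb.1, bb.2, f1, fun i => hP.conn (g2 i), fun k => (fk k).trans (g3 k), ?_, ?_, ?_, ?_⟩
    · intro t ht u hu
      have ht1 : t ≠ t0 := fun e => ht (by rw [e]; exact Finset.mem_insert_self _ _)
      have ht2 : t ∉ J := fun e => ht (Finset.mem_insert_of_mem e)
      exact ⟨(fo t ht1 u hu).1.trans (g4 t ht2 u hu).1,
        fun i v => ((fo t ht1 u hu).2 i v).trans ((g4 t ht2 u hu).2 i v)⟩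
    · intro t t' ht u hu w hw i
      by_cases e : t = t0
      · have e' : t' ≠ t0 := fun e' => ht (e.trans e'.symm)
        refine (f1.zero_comm i w u).1 ?_
        rw [(fo t' e' w hw).2 i u]
        exact g5 t' t (Ne.symm ht) w hw u hu i
      · rw [(fo t e u hu).2 i w]
        exact g5 t t' ht u hu w hw i
    · intro t ht
      rcases Finset.mem_insert.1 ht with rfl | ht
      · exact ⟨W, hW, hWc, fun i => h1 E K c bb.1 _ _ kk W (f1.same (Fin.last N) i) hAux⟩
      · have e : t ≠ t0 := fun e => ht0 (e ▸ ht)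
        obtain ⟨W', hW', hc', hx⟩ := g6 t ht
        exact ⟨W', hW', hc', fun i => h2 E K c col' bb.1 (S' i) (bb.2 i) kk W' (g1.skew i)
          (f1.skew i) (fun u hu v => (fo t e u (hW' hu)).2 i v)
          (fun u hu => (fo t e u (hW' hu)).1) fk (hx i)⟩
    · intro t
      by_cases e : t = t0
      · rw [e]
        exact hP.shut subset_rfl (g7 t0)
      · exact shut_congr (g1.skew _) (f1.skew _) (fun u hu v => (fo t e u hu).2 _ v) (g7 t)

end Pool.Agent.MP_d99b12_co.H25
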