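import Pool.Agent.MP_d99b12_co.H25.ANEM2

/-! # Row ANEM: the axioms of the end game, and the two final algebraic statements -/

namespace Pool.Agent.MP_d99b12_co.H25

open Matrix

namespace ANEM

variable {F : Type} [Field F] [Fintype F] {K P : Type} [Fintype K] [Fintype P]
  {s : Sys F K} {c : Bool} {D0 : Matrix {k // s.colK k = c} {k // ¬s.colK k = c} F}
  {XK YK : Set K} {col : P → Bool} {y : P → K → F} {B Bs : Matrix P P F} {ε : Matrix K K F}

omit [Fintype F] in
lemma exists_out (h : SDisp s col y B) {D1 : Submodule F (K → F)} (hD : D1 ≠ ⊤) :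
    ∃ p, y p ∉ D1 := by
  by_contra hn
  push Not at hn
  exact hD (top_le_iff.1 (span_eq_top_of_perp y h.span ▸
    Submodule.span_le.2 (Set.range_subset_iff.2 hn)))

lemma diff_mem_Y (hS : SREB F) (h : SDisp s col y B) (hδ : s.δ = 0) {w x b : P}
    (h1 : B w x ≠ 0) (h2 : B w b ≠ 0) :
    res (fun k => s.colK k = c) (y x) - (B w x / B w b) • res (fun k => s.colK k = c) (y b) ∈
      (mk s c D0).𝒴 := by
  by_cases e : x = b
  · rw [e, div_self h2, one_smul, sub_self, mem_Y_iff, map_zero, Submodule.span_zero_singleton]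
    exact (HK s).zero_mem.2
  have h2' : B b w ≠ 0 := by rw [skew h hδ]; exact neg_ne_zero.2 h2
  have := mem_Y (c := c) (D0 := D0) (hS K P s col y B w b h h2 h2').1 hδ x
  have xb : B x b = 0 := h.bip _ _ (by
    have a1 := col_ne h h1
    have a2 := col_ne h h2
    revert a1 a2
    cases col w <;> cases col x <;> cases col b <;> simp)
  rwa [reY_other (fun e => col_ne h h1 (by rw [e])) e, xb, zero_div, zero_smul, sub_zero, map_sub,
    map_smul, skew h hδ w x, skew h hδ w b, neg_div_neg_eq] at this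

lemma tree_aux (hS : SREB F) (h : SDisp s col y B) (hδ : s.δ = 0) (n : ℕ)
    (hn : n ≤ Fintype.card {k // s.colK k = c}) :
    ∃ (col' : P → Bool) (y' : P → K → F) (B' : Matrix P P F) (u : ℕ → {k // s.colK k = c} → F)
      (par : ℕ → ℕ), SDisp s col' y' B' ∧ LinearIndependent F (fun i : Fin n => u i) ∧
      (∀ i < n, ∃ x, ¬col' x = c ∧ ∃ t : F, t ≠ 0 ∧ u i = t • res (fun k => s.colK k = c) (y' x)) ∧
      ∀ i < n, 0 < i → par i < i ∧ u i - u (par i) ∈ (mk s c D0).𝒴 := by
  classical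
  induction n with
  | zero => exact ⟨col, y, B, 0, 0, h, linearIndependent_empty_type, by simp, by simp⟩
  | succ n ih =>
    obtain ⟨col1, y1, B1, u, par, h1, li, hx, hp⟩ := ih (by omega)
    let D1 := (Submodule.span F (Set.range fun i : Fin n => u i)).comap
      (res (F := F) fun k => s.colK k = c)
    have hD : ∀ v : K → F, (∀ k, s.colK k = c → v k = 0) → v ∈ D1 := by
      intro v hv
      have : res (fun k => s.colK k = c) v = 0 := funext fun k => hv k k.2
      simp [D1, this]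
    have hD' : D1 ≠ ⊤ := by
      intro e
      have : Submodule.span F (Set.range fun i : Fin n => u i) = ⊤ :=
        Submodule.eq_top_iff'.2 fun v => by
          have : ext (fun k => s.colK k = c) v ∈ D1 := e ▸ Submodule.mem_top
          simpa [D1] using this
      have k := finrank_range_le_card (R := F) fun i : Fin n => u i
      rw [Set.finrank, this, finrank_top, Module.finrank_fintype_fun_eq_card, Fintype.card_fin] at k
      omega
    obtain ⟨b, hb⟩ := exists_out h1 hD'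
    have : Nonempty P := ⟨b⟩
    choose! x xc t t0 ht using hx
    have ext1 : ∀ (col' : P → Bool) (y' : P → K → F) (B' : Matrix P P F) (b : P) (τ : F) (j : ℕ),
        SDisp s col' y' B' → (∀ i < n, col' (x i) = col1 (x i) ∧ y' (x i) = y1 (x i)) →
        y' b ∉ D1 → τ ≠ 0 →
        (0 < n → j < n ∧ τ • res (fun k => s.colK k = c) (y' b) - u j ∈ (mk s c D0).𝒴) →
        ∃ (col' : P → Bool) (y' : P → K → F) (B' : Matrix P P F)
          (u : ℕ → {k // s.colK k = c} → F) (par : ℕ → ℕ), SDisp s col' y' B' ∧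
          LinearIndependent F (fun i : Fin (n + 1) => u i) ∧
          (∀ i < n + 1, ∃ x, ¬col' x = c ∧ ∃ t : F, t ≠ 0 ∧
            u i = t • res (fun k => s.colK k = c) (y' x)) ∧
          ∀ i < n + 1, 0 < i → par i < i ∧ u i - u (par i) ∈ (mk s c D0).𝒴 := by
      intro col' y' B' b τ j h' hk hb hτ hj
      refine ⟨col', y', B', Function.update u n (τ • res (fun k => s.colK k = c) (y' b)),
        Function.update par n j, h', ?_, fun i hi => ?_, fun i hi h0 => ?_⟩
      · have : (fun i : Fin (n + 1) => Function.update u n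
            (τ • res (fun k => s.colK k = c) (y' b)) i) =
            Fin.snoc (fun i : Fin n => u i) (τ • res (fun k => s.colK k = c) (y' b)) := by
          funext i
          refine Fin.lastCases ?_ (fun i => ?_) i
          · simp
          · simp [Function.update_of_ne i.2.ne]
        rw [this, linearIndependent_finSnoc]
        exact ⟨li, fun hm => hb ((Submodule.smul_mem_iff _ hτ).1 hm)⟩
      · rcases Nat.lt_succ_iff_lt_or_eq.1 hi with hi | rfl
        · exact ⟨x i, by rw [(hk i hi).1]; exact xc i hi, t i, t0 i hi, by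
            rw [Function.update_of_ne hi.ne, (hk i hi).2, ht i hi]⟩
        · exact ⟨b, fun e => hb (hD _ (row_supp h' e)), τ, hτ, by simp⟩
      · rcases Nat.lt_succ_iff_lt_or_eq.1 hi with hi | rfl
        · have := hp i hi h0
          rw [Function.update_of_ne hi.ne, Function.update_of_ne hi.ne,
            Function.update_of_ne (this.1.trans hi).ne]
          exact this
        · rw [Function.update_self, Function.update_self, Function.update_of_ne (hj h0).1.ne]
          exact hj h0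
    rcases Nat.eq_zero_or_pos n with rfl | hn0
    · exact ext1 col1 y1 B1 b 1 0 h1 (by simp) hb one_ne_zero (by simp)
    obtain ⟨l, z, hw⟩ := exists_sWalk h1 (A := x '' {i | i < n}) (A' := {p | y1 p ∉ D1})
      ⟨_, 0, hn0, rfl⟩ ⟨b, hb⟩ hδ
    obtain ⟨col', y', B', h', hk, _, ⟨i, hi, rfl⟩, w, b', hb', e1, e2⟩ := grow_aux hS hδ _ D1 hD l
      col1 y1 B1 l z le_rfl h1 (by
        rintro _ ⟨i, hi, rfl⟩
        refine ⟨xc i hi, ?_⟩
        have : u i ∈ Submodule.span F (Set.range fun i : Fin n => u i) :=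
          Submodule.subset_span ⟨⟨i, hi⟩, rfl⟩
        rw [ht i hi, Submodule.smul_mem_iff _ (t0 i hi)] at this
        exact this) hw.toWalk
    refine ext1 col' y' B' b' (t i * (B' w (x i) / B' w b')) i h' (fun j hj => hk _ ⟨j, hj, rfl⟩) hb'
      (mul_ne_zero (t0 i hi) (div_ne_zero e1 e2)) fun _ => ⟨hi, ?_⟩
    have := smul_mem_Y (diff_mem_Y (c := c) (D0 := D0) hS h' hδ e1 e2) (neg_ne_zero.2 (t0 i hi))
    rw [(hk _ ⟨i, hi, rfl⟩).2] at this
    rw [ht i hi]
    convert this using 1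
    rw [mul_smul, neg_smul, smul_sub, neg_sub]

lemma tree (hS : SREB F) (h : SDisp s col y B) (hδ : s.δ = 0) :
    ∃ (u : Fin (Fintype.card {k // s.colK k = c}) → {k // s.colK k = c} → F)
      (par : Fin (Fintype.card {k // s.colK k = c}) → Fin (Fintype.card {k // s.colK k = c}))
      (X1 : Set ({k // ¬s.colK k = c} → F)), LinearIndependent F u ∧
      (∀ i, u i ∈ (mk s c D0).𝒴) ∧
      (∀ i, 0 < i.val → par i < i ∧ u i - u (par i) ∈ (mk s c D0).𝒴) ∧ X1 ⊆ (mk s c D0).𝒳 ∧
      Submodule.span F X1 = ⊤ ∧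
      ∀ i, ∀ ξ ∈ X1, ∃ t : F, t ≠ 0 ∧ t • vecMulVec (u i) ξ ∈ (mk s c D0).H := by
  obtain ⟨col', y', B', u, par, h', li, hx, hp⟩ := tree_aux (c := c) (D0 := D0) hS h hδ _ le_rfl
  refine ⟨fun i => u i, fun i => if h : 0 < i.val then ⟨par i, (hp i i.2 h).1.trans i.2⟩ else i,
    Set.range fun q => res (fun k => ¬s.colK k = c) (y' q), li, fun i => ?_, fun i hi => ?_,
    Set.range_subset_iff.2 (mem_X h' hδ), span_res h' _, ?_⟩
  · obtain ⟨x, -, t, t0, e⟩ := hx i i.2
    simp only [e]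
    exact smul_mem_Y (mem_Y h' hδ x) t0
  · simp only [dif_pos hi]
    exact hp i i.2 hi
  · rintro i _ ⟨q, rfl⟩
    obtain ⟨x, xc, t, t0, e⟩ := hx i i.2
    by_cases hq : col' q = c
    · obtain ⟨κ, k0, hk⟩ := lam hS h' hδ (a := q) (b := x) (fun e => xc (e ▸ hq))
      refine ⟨κ / t, div_ne_zero k0 t0, _, hk, ?_⟩
      change κ • blk s.colK c (wedge (y' q) (y' x)) = _
      simp only [e]
      rw [blk_wedge h' hq, smul_vecMulVec, smul_smul, div_mul_cancel₀ _ t0]
    · have : res (fun k => ¬s.colK k = c) (y' q) = 0 := funext fun k => col_supp h' hq k k.2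
      refine ⟨1, one_ne_zero, ?_⟩
      have z : vecMulVec (u i) (0 : {k // ¬s.colK k = c} → F) = 0 := by
        ext; simp [vecMulVec_apply]
      simp only [this, z, smul_zero]
      exact zero_mem _

omit [Fintype F] in
lemma skews (h : Disp s col y B Bs ε) (hδ : s.δ = 0) (p q : P) : Bs q p = -Bs p q := by
  have := h.compats p q
  rw [hδ, zero_mulVec, dotProduct_zero] at this
  linear_combination this

omit [Fintype F] in
lemma vis_symm (h : Disp s col y B Bs ε) (hδ : s.δ = 0) {a b : P} (hv : VisP y B Bs a b) :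
    VisP y B Bs b a :=
  ⟨hv.2.1, hv.1, by rw [skews h hδ a b, skew h.toSDisp hδ a b]; exact fun e => hv.2.2 (neg_inj.1 e)⟩

omit [Fintype F] in
lemma vis_ne (hZ : ZP F) (h : Disp s col y B Bs ε) {a b : P} (hv : Bs a b ≠ B a b) : B a b ≠ 0 :=
  fun e => hv (((hZ K P s col y B Bs ε h a b).2 e).trans e.symm)

lemma edge_ok (hS : SREB F) (hZ : ZP F) (hR : REB F) (hc : Core s c D0 XK YK)
    (h : Disp s col y B Bs ε) (hδ : s.δ = 0) {a b : P} (ha : col a = c) (e : B a b ≠ 0) :
    vecMulVec (-(B a b)⁻¹ • res (fun k => s.colK k = c) (y b))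
      (res (fun k => ¬s.colK k = c) (y a)) ∈ (mk s c D0).H ∧
    (mk s c D0).Ok (blk s.colK c ε + (B a b / Bs a b - 1) • vecMulVec
      (-(B a b)⁻¹ • res (fun k => s.colK k = c) (y b)) (res (fun k => ¬s.colK k = c) (y a))) := by
  refine ⟨⟨_, edge_mem hS h.toSDisp hδ e, ?_⟩, ?_⟩
  · change -(B a b)⁻¹ • blk s.colK c (wedge (y a) (y b)) = _
    rw [blk_wedge h.toSDisp ha, smul_vecMulVec]
  · obtain ⟨_, -, -, h'⟩ := hR K P s col y B Bs ε a b h e
      (by rw [skew h.toSDisp hδ]; exact neg_ne_zero.2 e) (Or.inl hδ)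
    have := ok_of_disp hc h' hδ
    rw [rePhi_eq (skew h.toSDisp hδ a b), rePhi_eq (skews h hδ a b)] at this
    convert this using 1
    have es : Bs a b ≠ 0 := fun e' => e ((hZ K P s col y B Bs ε h a b).1 e')
    change _ = blk s.colK c ε + -(Bs a b)⁻¹ • blk s.colK c (wedge (y a) (y b)) -
      -(B a b)⁻¹ • blk s.colK c (wedge (y a) (y b))
    rw [blk_wedge h.toSDisp ha, smul_vecMulVec, smul_smul, add_sub_assoc, ← sub_smul]
    congr 2
    field_simp
    ring

/-- The kernel of a vector. -/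
def perp (v : K → F) : Submodule F (K → F) := LinearMap.ker ((dotProductBilin F F) v)

omit [Fintype F] in
lemma mem_perp {v x : K → F} : x ∈ perp v ↔ v ⬝ᵥ x = 0 := Iff.rfl

omit [Fintype F] in
lemma perp_ne {v : K → F} (hv : v ≠ 0) : perp v ≠ ⊤ := fun e =>
  hv (dotProduct_eq_zero v fun _ => mem_perp.1 (e ▸ Submodule.mem_top))

lemma move (hS : SREB F) (hZ : ZP F) (hR : REB F) (hC : C1 F) (hc : Core s c D0 XK YK)
    (h : Disp s col y B Bs ε) (hδ : s.δ = 0) {a b : P} (ha : col a = c) (hv : VisP y B Bs a b)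
    (f : {k // s.colK k = c} → F) (hf : f ≠ 0) (w : {k // ¬s.colK k = c} → F) (hw : w ≠ 0) :
    ∃ v ∈ (mk s c D0).𝒴, ∃ ξ ∈ (mk s c D0).𝒳, ∃ (γ : F) (e : Matrix _ _ F), f ⬝ᵥ v ≠ 0 ∧
      ξ ⬝ᵥ w ≠ 0 ∧ vecMulVec v ξ ∈ (mk s c D0).H ∧ γ ≠ 0 ∧ γ ≠ 1 ∧ (mk s c D0).Ok e ∧
      (mk s c D0).Ok (e + (γ - 1) • vecMulVec v ξ) := by
  have colw : ∀ {col : P → Bool} {y B}, SDisp s col y B → ∀ p, ¬col p = c →
      y p ∈ perp (ext (fun k => ¬s.colK k = c) w) := by
    intro col y B h p hp
    have : res (fun k => ¬s.colK k = c) (y p) = 0 := funext fun k => col_supp h hp k k.2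
    rw [mem_perp, ext_dot, this, dotProduct_zero]
  have rowf : ∀ {col : P → Bool} {y B}, SDisp s col y B → ∀ p, col p = c →
      y p ∈ perp (ext (fun k => s.colK k = c) f) := by
    intro col y B h p hp
    have : res (fun k => s.colK k = c) (y p) = 0 := funext fun k => row_supp h hp k k.2
    rw [mem_perp, ext_dot, this, dotProduct_zero]
  have s1 : ∃ (col : P → Bool) (y : P → K → F) (B Bs : Matrix P P F) (ε : Matrix K K F) (a b : P),
      Disp s col y B Bs ε ∧ VisP y B Bs a b ∧ col a = c ∧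
        y a ∉ perp (ext (fun k => ¬s.colK k = c) w) := by
    by_cases h1 : y a ∈ perp (ext (fun k => ¬s.colK k = c) w)
    · obtain ⟨col', y', B', Bs', ε', a', b', h', hv', hb', -⟩ := hC K P s col y B Bs ε a b _ h hv
        (by simp [hδ]) (perp_ne fun e => hw (ext_inj _ (e.trans (map_zero _).symm))) h1
        (colw h.toSDisp b fun e => col_ne h.toSDisp (vis_ne hZ h hv.2.2) (ha.trans e.symm))
      exact ⟨col', y', B', Bs', ε', b', a', h', vis_symm h' hδ hv',
        by_contra fun e => hb' (colw h'.toSDisp b' e), hb'⟩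
    · exact ⟨col, y, B, Bs, ε, a, b, h, hv, ha, h1⟩
  clear hv ha h
  obtain ⟨col, y, B, Bs, ε, a, b, h, hv, ha, h1⟩ := s1
  have s2 : ∃ (col : P → Bool) (y : P → K → F) (B Bs : Matrix P P F) (ε : Matrix K K F) (a b : P),
      Disp s col y B Bs ε ∧ VisP y B Bs a b ∧ col a = c ∧
        y a ∉ perp (ext (fun k => ¬s.colK k = c) w) ∧
        y b ∉ perp (ext (fun k => s.colK k = c) f) := by
    by_cases h2 : y b ∈ perp (ext (fun k => s.colK k = c) f)
    · obtain ⟨col', y', B', Bs', ε', a', b', h', hv', hb', ho⟩ := hC K P s col y B Bs ε a b _ h hv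
        (by simp [hδ]) (perp_ne fun e => hf (ext_inj _ (e.trans (map_zero _).symm)))
        (rowf h.toSDisp a ha) h2
      rcases ho with ho | ho | ho
      · exact (ho hδ).elim
      · exact ⟨col', y', B', Bs', ε', a', b', h', hv', ho.1.trans ha, ho.2 ▸ h1, hb'⟩
      · exfalso
        have e1 := col_ne h.toSDisp (vis_ne hZ h hv.2.2)
        have e2 := col_ne h'.toSDisp (vis_ne hZ h' hv'.2.2)
        have e3 : ¬col' b' = c := fun e => hb' (rowf h'.toSDisp b' e)
        rw [ho.1] at e2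
        rw [ha] at e1
        revert e1 e2 e3
        cases col b <;> cases col' b' <;> cases c <;> simp
    · exact ⟨col, y, B, Bs, ε, a, b, h, hv, ha, h1, h2⟩
  clear hv ha h h1
  obtain ⟨col, y, B, Bs, ε, a, b, h, hv, ha, h1, h2⟩ := s2
  have e := vis_ne hZ h hv.2.2
  have es : Bs a b ≠ 0 := fun e' => e ((hZ K P s col y B Bs ε h a b).1 e')
  obtain ⟨k1, k2⟩ := edge_ok hS hZ hR hc h hδ ha e
  rw [mem_perp, ext_dot] at h1 h2
  exact ⟨_, smul_mem_Y (mem_Y h.toSDisp hδ b) (neg_ne_zero.2 (inv_ne_zero e)), _,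
    mem_X h.toSDisp hδ a, B a b / Bs a b, _, by
      rw [dotProduct_smul]; exact mul_ne_zero (neg_ne_zero.2 (inv_ne_zero e)) h2,
    by rwa [dotProduct_comm], k1, div_ne_zero e es,
    fun e' => hv.2.2 ((div_eq_one_iff_eq es).1 e').symm, ok_of_disp hc h hδ, k2⟩

/-- The conclusion of the star property. -/
def Star {I J : Type} [Fintype J] (A : Anem F I J) : Prop :=
  ∃ (u1 u2 : I → F) (ξ : J → F) (γ : F) (ε : Matrix I J F),
    LinearIndependent F ![u1, u2] ∧ u1 ∈ A.𝒴 ∧ u2 ∈ A.𝒴 ∧ u1 - u2 ∈ A.𝒴 ∧ ξ ∈ A.𝒳 ∧ ξ ≠ 0 ∧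
      vecMulVec u1 ξ ∈ A.H ∧ vecMulVec u2 ξ ∈ A.H ∧ γ ≠ 0 ∧ γ ≠ 1 ∧ A.Ok ε ∧
      A.Ok (ε + (γ - 1) • vecMulVec u1 ξ) ∧ A.Ok (ε + (γ - 1) • vecMulVec u2 ξ)

lemma star_at (hS : SREB F) (hZ : ZP F) (hR : REB F) (hc : Core s c D0 XK YK)
    (h : Disp s col y B Bs ε) (hδ : s.δ = 0) {a b z : P} (ha : col a = c) (ya : y a ≠ 0)
    (e1 : B a b ≠ 0) (e2 : B a z ≠ 0) (hv : Bs a b ≠ B a b)
    (li : ∀ α β : F, α • res (fun k => s.colK k = c) (y b) +
      β • res (fun k => s.colK k = c) (y z) = 0 → α = 0 ∧ β = 0) : Star (mk s c D0) := by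
  have s1 : Bs a b ≠ 0 := fun e' => e1 ((hZ K P s col y B Bs ε h a b).1 e')
  have s2 : Bs a z ≠ 0 := fun e' => e2 ((hZ K P s col y B Bs ε h a z).1 e')
  have bz : b ≠ z := by
    rintro rfl
    simpa using (li 1 (-1) (by simp)).1
  have ba : b ≠ a := fun e => col_ne h.toSDisp e1 (by rw [e])
  have cb : col b = col z := by
    have a1 := col_ne h.toSDisp e1
    have a2 := col_ne h.toSDisp e2
    revert a1 a2
    cases col a <;> cases col z <;> cases col b <;> simp
  obtain ⟨g, hg, -, -⟩ := hR K P s col y B Bs ε a z h e2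
    (by rw [skew h.toSDisp hδ]; exact neg_ne_zero.2 e2) (Or.inl hδ)
  have := congrArg (res fun k => s.colK k = c) (hg b)
  rw [reY_other ba bz, reY_other ba bz, h.bip _ _ cb, h.bips _ _ cb, skew h.toSDisp hδ a b,
    skew h.toSDisp hδ a z, skews h hδ a b, skews h hδ a z] at this
  simp only [zero_div, zero_smul, sub_zero, neg_div_neg_eq, map_sub, map_smul] at this
  obtain ⟨g1, g2⟩ := li (1 - g b) (g b * (B a b / B a z) - Bs a b / Bs a z) (by
    rw [sub_smul, sub_smul, one_smul, mul_smul]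
    rw [smul_sub] at this
    linear_combination (exp := 1) this)
  have eγ : B a z / Bs a z = B a b / Bs a b := by
    rw [← sub_eq_zero.1 g1, one_mul, sub_eq_zero, div_eq_div_iff e2 s2] at g2
    rw [div_eq_div_iff s2 s1]
    linear_combination -g2
  obtain ⟨k1, k2⟩ := edge_ok hS hZ hR hc h hδ ha e1
  obtain ⟨k3, k4⟩ := edge_ok hS hZ hR hc h hδ ha e2
  rw [eγ] at k4
  have n1 := neg_ne_zero.2 (inv_ne_zero e1)
  have n2 := neg_ne_zero.2 (inv_ne_zero e2)
  refine ⟨_, _, _, _, _, ?_, smul_mem_Y (mem_Y h.toSDisp hδ b) n1,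
    smul_mem_Y (mem_Y h.toSDisp hδ z) n2, ?_, mem_X h.toSDisp hδ a, fun e => ya ?_, k1, k3,
    div_ne_zero e1 s1, fun e' => hv ((div_eq_one_iff_eq s1).1 e').symm, ok_of_disp hc h hδ, k2, k4⟩
  · refine LinearIndependent.pair_iff.2 fun α β e => ?_
    rw [smul_smul, smul_smul] at e
    exact ⟨(mul_eq_zero.1 (li _ _ e).1).resolve_right n1,
      (mul_eq_zero.1 (li _ _ e).2).resolve_right n2⟩
  · convert smul_mem_Y (diff_mem_Y (c := c) (D0 := D0) hS h.toSDisp hδ e1 e2) n1 using 1
    rw [smul_sub, smul_smul]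
    congr 2
    field_simp
  · rw [← ext_res (fun k => ¬s.colK k = c) fun k hk => row_supp h.toSDisp ha k (not_not.1 hk), e,
      map_zero]

lemma star (hS : SREB F) (hZ : ZP F) (hR : REB F) (hC : C1PRE F) (hc : Core s c D0 XK YK)
    (h : Disp s col y B Bs ε) (hδ : s.δ = 0) {a b : P} (ha : col a = c) (hv : VisP y B Bs a b)
    (h2 : 2 ≤ Fintype.card {k // s.colK k = c}) : Star (mk s c D0) := by
  let D1 := (Submodule.span F {res (fun k => s.colK k = c) (y b)}).comap
    (res (F := F) fun k => s.colK k = c)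
  have hD : ∀ v : K → F, (∀ k, s.colK k = c → v k = 0) → v ∈ D1 := by
    intro v hv
    have : res (fun k => s.colK k = c) v = 0 := funext fun k => hv k k.2
    simp [D1, this]
  have hb : ¬col b = c := fun e => col_ne h.toSDisp (vis_ne hZ h hv.2.2) (ha.trans e.symm)
  have rb : res (fun k => s.colK k = c) (y b) ≠ 0 := fun e => hv.2.1 (by
    rw [← ext_res _ (col_supp h.toSDisp hb), e, map_zero])
  have hD' : D1 ≠ ⊤ := by
    intro e
    have : Submodule.span F {res (fun k => s.colK k = c) (y b)} = ⊤ :=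
      Submodule.eq_top_iff'.2 fun v => by
        have : ext (fun k => s.colK k = c) v ∈ D1 := e ▸ Submodule.mem_top
        simpa [D1] using this
    have k := finrank_span_singleton (K := F) rb
    rw [this, finrank_top, Module.finrank_fintype_fun_eq_card] at k
    omega
  obtain ⟨col', y', B', Bs', ε', h', ho | ⟨a', b', z, hab, hv', ya, yb, ca, cb, yz, ho⟩⟩ :=
    hC K P s col y B Bs ε a b D1 h hv (by simp [hδ]) hD' (hD _ (row_supp h.toSDisp ha))
      (Submodule.mem_span_singleton_self _)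
  · exact (ho.1 hδ).elim
  have cz : ¬col' z = c := fun e => yz (hD _ (row_supp h'.toSDisp e))
  have li : ∀ α β : F, α • res (fun k => s.colK k = c) (y b) +
      β • res (fun k => s.colK k = c) (y' z) = 0 → α = 0 ∧ β = 0 := by
    intro α β e
    have b0 : β = 0 := by
      by_contra hβ
      refine yz ((D1.smul_mem_iff hβ).1 ?_)
      rw [Submodule.mem_comap, map_smul, eq_neg_of_add_eq_zero_right e]
      exact neg_mem (Submodule.smul_mem _ _ (Submodule.mem_span_singleton_self _))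
    rw [b0, zero_smul, add_zero, smul_eq_zero] at e
    exact ⟨e.resolve_right rb, b0⟩
  rw [ha] at ca
  rw [← cb] at hb
  rcases ho with ho | ⟨w, -, wb, wz, az⟩
  · rcases hab with ⟨rfl, rfl⟩ | ⟨rfl, rfl⟩
    · exact star_at hS hZ hR hc h' hδ ca hv'.1 (vis_ne hZ h' hv'.2.2) ho hv'.2.2 (yb ▸ li)
    · exfalso
      have := col_ne h'.toSDisp ho
      revert this hb cz
      cases col' a' <;> cases col' z <;> cases c <;> simp
  have cw : col' w = c := by
    have := col_ne h'.toSDisp wz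
    revert this cz
    cases col' w <;> cases col' z <;> cases c <;> simp
  rcases hab with ⟨rfl, rfl⟩ | ⟨rfl, rfl⟩
  swap
  · exact (col_ne h'.toSDisp wb (cw.trans ca.symm)).elim
  by_cases hw : y' w ≠ 0 ∧ Bs' w b' ≠ B' w b'
  · exact star_at hS hZ hR hc h' hδ cw hw.1 wb wz hw.2 (yb ▸ li)
  have e := vis_ne hZ h' hv'.2.2
  have e' : B' b' a' ≠ 0 := by rw [skew h'.toSDisp hδ]; exact neg_ne_zero.2 e
  have es : Bs' a' b' ≠ 0 := fun e1 => e ((hZ K P s _ _ _ _ _ h' _ _).1 e1)
  have ws : Bs' w b' ≠ 0 := fun e1 => wb ((hZ K P s _ _ _ _ _ h' _ _).1 e1)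
  obtain ⟨g, hg, -, h''⟩ := hR K P s col' y' B' Bs' ε' a' b' h' e e' (Or.inl hδ)
  have wa : w ≠ a' := fun e1 => wz (e1 ▸ az)
  have wb' : w ≠ b' := fun e1 => hb (e1 ▸ cw)
  have za : z ≠ a' := fun e1 => cz (e1 ▸ ca)
  have zb : z ≠ b' := fun e1 => yz (by rw [e1, yb]; exact Submodule.mem_span_singleton_self _)
  have czb : col' z = col' b' := by
    revert cz hb
    cases col' z <;> cases col' b' <;> cases c <;> simp
  have r1 : reY y' B' a' b' a' = -(B' b' a')⁻¹ • y' b' := by simp [reY]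
  have r2 : reY y' B' a' b' z = y' z := by
    rw [reY_other za zb, h'.bip _ _ czb, skew h'.toSDisp hδ a' z, az]
    simp
  have r3 : reY y' B' a' b' w = y' w - (B' w b' / B' a' b') • y' a' := by
    rw [reY_other wa wb', h'.bip _ _ (cw.trans ca.symm)]
    simp
  have ga : (g a' : F) = B' a' b' / Bs' a' b' := by
    have := hg a'
    rw [r1, smul_smul] at this
    simp only [reY, if_true] at this
    have := smul_left_injective F hv'.2.1 this
    simp only [skew h'.toSDisp hδ a' b', skews h' hδ a' b'] at this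
    field_simp at this ⊢
    linear_combination -this
  have gw := hg w
  rw [r3, reY_other wa wb', h'.bips _ _ (cw.trans ca.symm)] at gw
  simp only [zero_div, zero_smul, sub_zero] at gw
  have key : y' w - (B' w b' / B' a' b') • y' a' ≠ 0 ∧
      Bs' w b' / Bs' a' b' ≠ g w * g a' * (B' w b' / B' a' b') := by
    by_cases y0 : y' w = 0
    · rw [y0, zero_sub, zero_sub, smul_neg, neg_inj, smul_smul] at gw
      have := smul_left_injective F hv'.1 gw
      refine ⟨by simpa [y0, wb, e] using hv'.1, fun k => hv'.2.2 ?_⟩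
      rw [this, mul_left_inj' (div_ne_zero wb e), left_eq_mul₀ (g w).ne_zero, ga] at k
      exact ((div_eq_one_iff_eq es).1 k).symm
    · have k0 : Bs' w b' = B' w b' := by_contra fun k => hw ⟨y0, k⟩
      have k1 : y' w - (B' w b' / Bs' a' b') • y' a' ≠ y' w - (B' w b' / B' a' b') • y' a' := by
        intro k
        have := smul_left_injective F hv'.1 (sub_right_injective k)
        exact hv'.2.2 (inv_injective (mul_left_cancel₀ wb (by simpa [div_eq_mul_inv] using this)))
      rw [k0] at gw ⊢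
      refine ⟨fun k => k1 (by rw [gw, k, smul_zero]), fun k => k1 ?_⟩
      have : (g w : F) = 1 := by
        rw [ga] at k
        field_simp at k
        exact k.symm
      rw [gw, this, one_smul]
  refine star_at hS hZ hR hc h'' hδ (a := w) (b := a') (z := z)
    (by rw [colFlip_of_notMem _ (by simp [wa, wb']), cw]) (r3 ▸ key.1)
    (by rw [epiv_ux _ wa wb']; exact div_ne_zero wb e)
    (by rw [epiv_uv _ wa wb' za zb, az, h'.bip _ _ (cw.trans ca.symm)]; simpa using wz) ?_ ?_
  · rw [scale_apply, epiv_ux _ wa wb', epiv_ux _ wa wb']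
    intro k
    apply key.2
    rw [← k]
    simp only [Pi.inv_apply, Units.val_inv_eq_inv_val]
    field_simp
  · intro α β k
    rw [r1, r2, map_smul, smul_smul, yb] at k
    exact ⟨(mul_eq_zero.1 (li _ _ k).1).resolve_right (neg_ne_zero.2 (inv_ne_zero e')), (li _ _ k).2⟩

omit [Fintype F] in
lemma vis_of_devD {d : Datum F K P} (ha : d.Alg) {a b : P} (hd : d.DevD {a, b}) :
    VisP d.y d.B d.Bs a b := by
  classical
  obtain ⟨A', h1, hf⟩ := ha 1
  have e0 : A' 0 0 = d.As := (h1 0).2 0 rfl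
  have e1 : A' 1 0 = d.A := (h1 1).1 0 (by simp)
  have b0 : ∀ p q, d.big (A' 0) (.inr (0, p)) (.inr (0, q)) = d.As p q := fun p q => by
    simp [Datum.big, e0]
  have b1 : ∀ p q, d.big (A' 1) (.inr (0, p)) (.inr (0, q)) = d.A p q := fun p q => by
    simp [Datum.big, e1]
  have zi : ∀ p q, d.As p q = 0 ↔ d.A p q = 0 := fun p q => by
    rw [← b0, ← b1]
    exact hf.zero_iff 0 1 _ _
  have k0 : ∀ p q, d.As q p = -d.As p q := fun p q => by
    rw [← b0, ← b0]
    exact hf.skew 0 _ _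
  have k1 : ∀ p q, d.A q p = -d.A p q := fun p q => by
    rw [← b1, ← b1]
    exact hf.skew 1 _ _
  have d0 : ∀ p, d.As p p = 0 := fun p => by rw [← b0]; exact hf.diag 0 _
  have d1 : ∀ p, d.A p p = 0 := fun p => by rw [← b1]; exact hf.diag 1 _
  have ne : d.As a b ≠ d.A a b := fun e => by
    have e' : d.As b a = d.A b a := by rw [k0 a b, k1 a b, e]
    exact hd ⟨1, by simp, by rintro p (rfl | rfl) q (rfl | rfl) <;> simp [d0, d1, e, e']⟩
  have one : ∀ a b, d.DevD {a, b} → d.As a b ≠ d.A a b → d.y a ≠ 0 := by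
    intro a b hd ne y0
    have n1 : d.A a b ≠ 0 := fun e => ne (((zi a b).2 e).trans e.symm)
    have n0 : d.As a b ≠ 0 := fun e => n1 ((zi a b).1 e)
    have ab : b ≠ a := fun e => n1 (e ▸ d1 b)
    have n2 : d.As b a = d.As a b / d.A a b * d.A b a := by
      rw [k0 a b, k1 a b]
      field_simp
    refine hd ⟨Function.update 1 a (Units.mk0 _ (div_ne_zero n0 n1)), ?_, ?_⟩
    · rintro p (rfl | rfl) k
      · rw [show d.V k p = 0 from congrFun y0 k, mul_zero]
      · simp [ab]
    · rintro p (rfl | rfl) q (rfl | rfl)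
      · simp [d0, d1]
      · simp [ab, n1]
      · simpa [ab] using n2
      · simp [d0, d1]
  refine ⟨one a b hd ne, one b a (by rwa [Set.pair_comm]) ?_, fun e => ne ?_⟩
  · rw [k0, k1]
    exact fun e => ne (neg_inj.1 e)
  · simpa [Datum.B, Datum.Bs] using e

omit [Fintype F] in
lemma alg_aux (hS : SYS F) (hA : ANEM F) {d : Datum F K P} (ha : d.Alg) (hr : d.Ref) (hd : d.Red)
    (hn : NConn d.B) (ht : d.Tau0) (hv : d.Vis) : ∃ col : K → Bool, ∀ c : Bool,
      1 ≤ Fintype.card {k // ¬col k = c} ∧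
      ∃ A : Anem F {k // col k = c} {k // ¬col k = c}, A.Ax := by
  obtain ⟨s, h, hδ⟩ := hS K P d ha hr hd hn
  obtain ⟨a, b, hab⟩ := hv
  have hv := vis_of_devD ha hab
  refine ⟨s.colK, fun c => ⟨?_, hA K P s _ _ _ _ _ a b c h hv (hδ.2 ht)⟩⟩
  have ne : d.colP a ≠ d.colP b := fun e => hv.2.2 ((h.bips _ _ e).trans (h.bip _ _ e).symm)
  obtain ⟨p, hp, yp⟩ : ∃ p, d.colP p = c ∧ d.y p ≠ 0 := by
    by_cases e : d.colP a = c
    · exact ⟨a, e, hv.1⟩
    · refine ⟨b, ?_, hv.2.1⟩
      revert e ne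
      cases d.colP a <;> cases d.colP b <;> cases c <;> simp
  obtain ⟨k, hk⟩ := Function.ne_iff.1 yp
  exact Fintype.card_pos_iff.2 ⟨⟨k, fun e => hk (row_supp h.toSDisp hp k e)⟩⟩

omit [Fintype P] in
lemma card_split (col : K → Bool) (c : Bool) :
    Fintype.card {k // col k = c} + Fintype.card {k // ¬col k = c} = Fintype.card K := by
  rw [Fintype.card_subtype_compl, Nat.add_sub_cancel' (Fintype.card_subtype_le _)]

omit [Fintype P] in
lemma card_swap (col : K → Bool) :
    Fintype.card {k // ¬col k = true} = Fintype.card {k // col k = false} :=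
  Fintype.card_congr (Equiv.subtypeEquivRight fun k => by simp)

end ANEM

variable {F : Type} [Field F] [Fintype F]

theorem anem (hS : SREB F) (hZ : ZP F) (hR : REB F) (hP : C1PRE F) (hC : C1 F) : ANEM F := by
  intro K P _ _ s col y B Bs ε a b c h hv hδ
  obtain ⟨D0, XK, YK, hc⟩ := ANEM.core s c
  obtain ⟨a, b, ha, hv⟩ : ∃ a b, col a = c ∧ VisP y B Bs a b := by
    by_cases e : col a = c
    · exact ⟨a, b, e, hv⟩
    · refine ⟨b, a, ?_, ANEM.vis_symm h hδ hv⟩
      have := ANEM.col_ne h.toSDisp (ANEM.vis_ne hZ h hv.2.2)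
      revert e this
      cases col a <;> cases col b <;> cases c <;> simp
  refine ⟨ANEM.mk s c D0, top_le_iff.1 ?_, top_le_iff.1 ?_, ANEM.move hS hZ hR hC hc h hδ ha hv,
    ANEM.tree hS h.toSDisp hδ, ANEM.star hS hZ hR hP hc h hδ ha hv⟩
  · rw [← ANEM.span_res h.toSDisp]
    exact Submodule.span_mono (Set.range_subset_iff.2 (ANEM.mem_Y h.toSDisp hδ))
  · rw [← ANEM.span_res h.toSDisp]
    exact Submodule.span_mono (Set.range_subset_iff.2 (ANEM.mem_X h.toSDisp hδ))

theorem alg2 (hS : SYS F) (hA : ANEM F) (hK : KILL2 F) {p : ℕ} (hp : p.Prime)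
    (hq : Fintype.card F = p ^ 2) : ALG F p := by
  intro K P _ _ d ha hr hd hn ht hv
  obtain ⟨col, h⟩ := ANEM.alg_aux hS hA ha hr hd hn ht hv
  have e1 := ANEM.card_split col true
  have e2 := ANEM.card_split col false
  have e3 := ANEM.card_swap col
  rcases le_total (Fintype.card {k // ¬col k = true}) (Fintype.card {k // col k = true}) with l | l
  · obtain ⟨h1, A, hA⟩ := h true
    exact e1 ▸ hK p hp hq _ _ A hA h1 l
  · obtain ⟨h1, A, hA⟩ := h false
    exact e2 ▸ hK p hp hq _ _ A hA h1 (by omega)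

theorem alg8 (hS : SYS F) (hA : ANEM F) (hK : KILL8 F) (hq : Fintype.card F = 8) : ALG F 2 := by
  intro K P _ _ d ha hr hd hn ht hv
  obtain ⟨col, h⟩ := ANEM.alg_aux hS hA ha hr hd hn ht hv
  have e1 := ANEM.card_split col true
  have e3 := ANEM.card_swap col
  obtain ⟨h1, A, hA⟩ := h true
  obtain ⟨h2, A', hA'⟩ := h false
  have := hK hq _ _ A hA h1
  have := hK hq _ _ A' hA' h2
  omega

end Pool.Agent.MP_d99b12_co.H25
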