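import Pool.Agent.MP_d99b12_co.H25.Basic

/-! # Principal pivots -/

namespace Pool.Agent.MP_d99b12_co.H25

open Matrix

set_option linter.unusedSectionVars false
set_option linter.unusedVariables false

variable {F : Type} [Field F] {E E' K ι : Type}

section Epiv

variable (S : Matrix E E F) {x y u v : E}

lemma epiv_xx : epiv S x y x x = 0 := by simp [epiv]
lemma epiv_yy (h : x ≠ y) : epiv S x y y y = 0 := by simp [epiv, h.symm]
lemma epiv_xy (h : x ≠ y) : epiv S x y x y = (S y x)⁻¹ := by simp [epiv, h.symm]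
lemma epiv_yx (h : x ≠ y) : epiv S x y y x = (S x y)⁻¹ := by simp [epiv, h.symm]
lemma epiv_xv (h1 : v ≠ x) (h2 : v ≠ y) : epiv S x y x v = -S y v / S y x := by simp [epiv, h1, h2]
lemma epiv_yv (h : x ≠ y) (h1 : v ≠ x) (h2 : v ≠ y) : epiv S x y y v = -S x v / S x y := by
  simp [epiv, h.symm, h1, h2]
lemma epiv_ux (h1 : u ≠ x) (h2 : u ≠ y) : epiv S x y u x = S u y / S x y := by simp [epiv, h1, h2]
lemma epiv_uy (h : x ≠ y) (h1 : u ≠ x) (h2 : u ≠ y) : epiv S x y u y = S u x / S y x := by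
  simp [epiv, h.symm, h1, h2]
lemma epiv_uv (h1 : u ≠ x) (h2 : u ≠ y) (h3 : v ≠ x) (h4 : v ≠ y) :
    epiv S x y u v = S u v - S u x * S y v / S y x - S u y * S x v / S x y := by
  simp [epiv, h1, h2, h3, h4]

lemma epiv_comm (h : x ≠ y) : epiv S x y = epiv S y x := by
  ext u v
  by_cases h1 : u = x <;> by_cases h2 : u = y <;> by_cases h3 : v = x <;> by_cases h4 : v = y <;>
    simp_all [epiv]
  ring

lemma colFlip_of_mem (col : E → Bool) {Z : Set E} (h : u ∈ Z) : colFlip col Z u = !col u := by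
  simp [colFlip, h]

lemma colFlip_of_notMem (col : E → Bool) {Z : Set E} (h : u ∉ Z) : colFlip col Z u = col u := by
  simp [colFlip, h]

/-- The pivot is an involution. -/
lemma epiv_epiv (hx : S x x = 0) (hy : S y y = 0) (h1 : S x y ≠ 0) (h2 : S y x ≠ 0) :
    epiv (epiv S x y) x y = S := by
  have h : x ≠ y := fun e => h1 (e ▸ hx)
  ext u v
  by_cases a1 : u = x
  · subst a1
    by_cases a3 : v = u
    · rw [a3, epiv_xx, hx]
    by_cases a4 : v = y
    · rw [a4, epiv_xy _ h, epiv_yx _ h, inv_inv]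
    · rw [epiv_xv _ a3 a4, epiv_yv _ h a3 a4, epiv_yx _ h]; field_simp
  by_cases a2 : u = y
  · subst a2
    by_cases a3 : v = x
    · rw [a3, epiv_yx _ h, epiv_xy _ h, inv_inv]
    by_cases a4 : v = u
    · rw [a4, epiv_yy _ h, hy]
    · rw [epiv_yv _ h a3 a4, epiv_xv _ a3 a4, epiv_xy _ h]; field_simp
  by_cases a3 : v = x
  · rw [a3, epiv_ux _ a1 a2, epiv_uy _ h a1 a2, epiv_xy _ h]; field_simp
  by_cases a4 : v = y
  · rw [a4, epiv_uy _ h a1 a2, epiv_ux _ a1 a2, epiv_yx _ h]; field_simp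
  rw [epiv_uv _ a1 a2 a3 a4, epiv_uv _ a1 a2 a3 a4, epiv_ux _ a1 a2, epiv_uy _ h a1 a2,
    epiv_xv _ a3 a4, epiv_yv _ h a3 a4, epiv_xy _ h, epiv_yx _ h]
  field_simp
  ring

/-- A block of zeros between `X` and its complement survives a pivot on an edge. -/
lemma epiv_block {X : Set E} (hxy : x ≠ y) (hm : x ∈ X ↔ y ∈ X)
    (h : ∀ p ∈ X, ∀ q, q ∉ X → S p q = 0 ∧ S q p = 0) :
    ∀ p ∈ X, ∀ q, q ∉ X → epiv S x y p q = 0 ∧ epiv S x y q p = 0 := by
  intro p hp q hq
  by_cases hx : x ∈ X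
  · have hy := hm.1 hx
    have q1 : q ≠ x := fun e => hq (e ▸ hx)
    have q2 : q ≠ y := fun e => hq (e ▸ hy)
    have e1 := h x hx q hq
    have e2 := h y hy q hq
    have e3 := h p hp q hq
    by_cases a1 : p = x
    · rw [a1, epiv_xv _ q1 q2, epiv_ux _ q1 q2]; simp [e2]
    by_cases a2 : p = y
    · rw [a2, epiv_yv _ hxy q1 q2, epiv_uy _ hxy q1 q2]; simp [e1]
    rw [epiv_uv _ a1 a2 q1 q2, epiv_uv _ q1 q2 a1 a2]; simp [e1, e2, e3]
  · have hy : y ∉ X := fun h => hx (hm.2 h)
    have q1 : p ≠ x := fun e => hx (e ▸ hp)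
    have q2 : p ≠ y := fun e => hy (e ▸ hp)
    have e1 := h p hp x hx
    have e2 := h p hp y hy
    have e3 := h p hp q hq
    by_cases a1 : q = x
    · rw [a1, epiv_xv _ q1 q2, epiv_ux _ q1 q2]; simp [e2]
    by_cases a2 : q = y
    · rw [a2, epiv_yv _ hxy q1 q2, epiv_uy _ hxy q1 q2]; simp [e1]
    rw [epiv_uv _ a1 a2 q1 q2, epiv_uv _ q1 q2 a1 a2]; simp [e1, e2, e3]

/-- A block structure survives a pivot on an edge. -/
lemma NConn.epiv (h : NConn S) (hx : S x x = 0) (hy : S y y = 0) (h1 : S x y ≠ 0) (h2 : S y x ≠ 0) :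
    NConn (epiv S x y) := by
  have hxy : x ≠ y := fun e => h1 (e ▸ hx)
  intro X hX
  apply h X
  have hm : x ∈ X ↔ y ∈ X := by
    constructor
    · intro a; by_contra b
      have := (hX x a y b).1
      rw [epiv_xy _ hxy] at this
      exact h2 (inv_eq_zero.1 this)
    · intro a; by_contra b
      have := (hX y a x b).2
      rw [epiv_xy _ hxy] at this
      exact h2 (inv_eq_zero.1 this)
  have := epiv_block (H25.epiv S x y) hxy hm hX
  rwa [epiv_epiv S hx hy h1 h2] at this

end Epiv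

section IsPiv

variable [Fintype E] {S S' S'' T T' : Matrix E E F} {Z Z' : Set E}

open Classical in
lemma pw_pw (Z : Set E) (u w : E → F) : Z.piecewise (Z.piecewise u w) (Z.piecewise w u) = u := by
  ext e; by_cases h : e ∈ Z <;> simp [h]

lemma isPiv_empty (S : Matrix E E F) : IsPiv S S ∅ := by
  intro u w; simp

lemma IsPiv.symm (h : IsPiv S S' Z) : IsPiv S' S Z := by
  intro u w
  have := h (open Classical in Z.piecewise w u) (open Classical in Z.piecewise u w)
  rw [pw_pw, pw_pw] at this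
  exact this.symm

open Classical in
/-- Every input `u'` of `S'` comes from a solution of `S`. -/
lemma IsPiv.solve (h : IsPiv S S' Z) (u' : E → F) :
    Z.piecewise u' (S' *ᵥ u') = S *ᵥ Z.piecewise (S' *ᵥ u') u' := (h.symm u' _).1 rfl

lemma IsPiv.unique (h : IsPiv S S' Z) (h' : IsPiv S S'' Z) : S' = S'' := by
  classical
  have key : ∀ u', S' *ᵥ u' = S'' *ᵥ u' := fun u' => (h'.symm u' _).2 (h.solve u')
  ext i j
  simpa using congrFun (key (Pi.single j 1)) i

lemma IsPiv.comp (h : IsPiv S S' Z) (h' : IsPiv S' S'' Z') : IsPiv S S'' (symmDiff Z Z') := by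
  intro u w
  rw [h u w, h']
  have e : ∀ u w : E → F, (open Classical in Z'.piecewise (Z.piecewise w u) (Z.piecewise u w)) =
      (open Classical in (symmDiff Z Z').piecewise u w) := by
    intro u w
    ext e
    by_cases h1 : e ∈ Z <;> by_cases h2 : e ∈ Z' <;> simp [h1, h2, Set.mem_symmDiff]
  rw [e, e]

lemma IsPiv.not_dep (h : IsPiv S S' Z) : ¬Dep S Z Z := by
  classical
  rintro ⟨u, h0, h1, h2⟩
  have := (h u _).1 rfl
  have e : Z.piecewise (S *ᵥ u) u = 0 := by
    ext e; by_cases he : e ∈ Z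
    · simp [he, h2 e he]
    · simp [he, h1 e he]
  rw [e, mulVec_zero] at this
  apply h0
  ext e
  by_cases he : e ∈ Z
  · simpa [he] using congrFun this e
  · exact h1 e he

lemma exists_isPiv (h : ¬Dep S Z Z) : ∃ S', IsPiv S S' Z := by
  classical
  let L : (E → F) →ₗ[F] (E → F) :=
    { toFun := fun u => Z.piecewise (S *ᵥ u) u
      map_add' := fun a b => by ext e; by_cases he : e ∈ Z <;> simp [he, mulVec_add]
      map_smul' := fun c a => by ext e; by_cases he : e ∈ Z <;> simp [he, mulVec_smul] }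
  let R : (E → F) →ₗ[F] (E → F) :=
    { toFun := fun u => Z.piecewise u (S *ᵥ u)
      map_add' := fun a b => by ext e; by_cases he : e ∈ Z <;> simp [he, mulVec_add]
      map_smul' := fun c a => by ext e; by_cases he : e ∈ Z <;> simp [he, mulVec_smul] }
  have hL : Function.Injective L := by
    rw [injective_iff_map_eq_zero]
    intro u hu
    by_contra h0
    refine h ⟨u, h0, fun y hy => ?_, fun x hx => ?_⟩
    · simpa [L, hy] using congrFun hu y
    · simpa [L, hx] using congrFun hu x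
  let e := LinearEquiv.ofInjectiveEndo L hL
  refine ⟨LinearMap.toMatrix' (R ∘ₗ e.symm.toLinearMap), fun u w => ?_⟩
  rw [← Matrix.toLin'_apply (LinearMap.toMatrix' _), Matrix.toLin'_toMatrix']
  constructor
  · rintro rfl
    have : e.symm (Z.piecewise (S *ᵥ u) u) = u := e.symm_apply_apply u
    simp only [LinearMap.comp_apply, LinearEquiv.coe_coe, this]
    rfl
  · intro hh
    simp only [LinearMap.comp_apply, LinearEquiv.coe_coe] at hh
    set u0 := e.symm (Z.piecewise w u) with hu0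
    have h1 : Z.piecewise (S *ᵥ u0) u0 = Z.piecewise w u := e.apply_symm_apply _
    have h2 : Z.piecewise u w = Z.piecewise u0 (S *ᵥ u0) := hh
    have h3 : u0 = u := by rw [← pw_pw Z u0 (S *ᵥ u0), ← h2, h1, pw_pw]
    rw [← pw_pw Z w u, ← h1, h2, pw_pw, h3]

lemma epiv_isPiv' {x y : E} (hZ : ∀ t, t ∈ Z ↔ t = x ∨ t = y) (hx : S x x = 0) (hy : S y y = 0)
    (h1 : S x y ≠ 0) (h2 : S y x ≠ 0) : IsPiv S (epiv S x y) Z := by
  classical
  have hxy : x ≠ y := fun e => h1 (e ▸ hx)
  have split : ∀ (M : Matrix E E F) (u : E → F) (e : E), (M *ᵥ u) e =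
      M e x * u x + M e y * u y + ∑ v ∈ (Finset.univ.erase x).erase y, M e v * u v := by
    intro M u e
    simp only [mulVec, dotProduct]
    rw [← Finset.add_sum_erase _ _ (Finset.mem_univ x),
      ← Finset.add_sum_erase _ _ (Finset.mem_erase.2 ⟨hxy.symm, Finset.mem_univ y⟩), add_assoc]
  have hnd : ¬Dep S Z Z := by
    rintro ⟨u, h0, a, b⟩
    have hz : ∀ e, ∑ v ∈ (Finset.univ.erase x).erase y, S e v * u v = 0 := fun e =>
      Finset.sum_eq_zero fun v hv => by
        simp only [Finset.mem_erase] at hv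
        rw [a v (by simp [hZ, hv.1, hv.2.1]), mul_zero]
    have b1 := b x (by simp [hZ])
    have b2 := b y (by simp [hZ])
    rw [split, hz] at b1 b2
    simp only [hx, hy, zero_mul, zero_add, add_zero, mul_eq_zero, h1, h2, false_or] at b1 b2
    apply h0
    ext e
    by_cases e1 : e = x
    · rw [e1, b2]; rfl
    by_cases e2 : e = y
    · rw [e2, b1]; rfl
    exact a e (by simp [hZ, e1, e2])
  obtain ⟨S', hS'⟩ := exists_isPiv hnd
  suffices S' = epiv S x y by rwa [← this]
  ext u v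
  have hs := hS'.solve (Pi.single v 1)
  simp only [mulVec_single_one] at hs
  have hsum : ∀ e, ∑ t ∈ (Finset.univ.erase x).erase y, S e t *
      Z.piecewise (S'.col v) (Pi.single v 1) t = if v = x ∨ v = y then 0 else S e v := by
    intro e
    rw [Finset.sum_congr rfl (g := fun t => S e t * (Pi.single v 1 : E → F) t)]
    · split_ifs with hv
      · refine Finset.sum_eq_zero fun t ht => ?_
        simp only [Finset.mem_erase] at ht
        have : t ≠ v := by rcases hv with rfl | rfl; exacts [ht.2.1, ht.1]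
        simp [this]
      · push Not at hv
        rw [Finset.sum_eq_single v]
        · simp
        · intro t _ ht; simp [ht]
        · intro hn; exact absurd (by simp [hv.1, hv.2]) hn
    · intro t ht
      simp only [Finset.mem_erase] at ht
      rw [Set.piecewise_eq_of_notMem _ _ _ (by simp [hZ, ht.1, ht.2.1])]
  have ex := congrFun hs x
  have ey := congrFun hs y
  have eu := congrFun hs u
  rw [split, hsum] at ex ey eu
  simp only [hZ, true_or, or_true,
    Set.piecewise_eq_of_mem, hx, hy, zero_mul, zero_add, add_zero, Matrix.col_apply] at ex ey eu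
  have fx : S' x v = ((Pi.single v 1 : E → F) y - if v = x ∨ v = y then 0 else S y v) / S y x := by
    rw [ey]; field_simp; ring
  have fy : S' y v = ((Pi.single v 1 : E → F) x - if v = x ∨ v = y then 0 else S x v) / S x y := by
    rw [ex]; field_simp; ring
  by_cases a1 : u = x
  · subst a1
    rw [fx]
    by_cases a3 : v = u
    · simp [a3, epiv_xx, hxy.symm]
    by_cases a4 : v = y
    · simp [a4, epiv_xy _ hxy]
    · rw [epiv_xv _ a3 a4]; simp [a3, a4, Ne.symm a4]
  by_cases a2 : u = y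
  · subst a2
    rw [fy]
    by_cases a3 : v = x
    · simp [a3, epiv_yx _ hxy]
    by_cases a4 : v = u
    · simp [a4, epiv_yy _ hxy, hxy]
    · rw [epiv_yv _ hxy a3 a4]; simp [a3, a4, Ne.symm a3]
  rw [Set.piecewise_eq_of_notMem _ _ _ (by simp [hZ, a1, a2]), Matrix.col_apply, fx, fy] at eu
  rw [eu]
  by_cases a3 : v = x
  · rw [a3, epiv_ux _ a1 a2]; simp [hxy.symm, div_eq_mul_inv]
  by_cases a4 : v = y
  · rw [a4, epiv_uy _ hxy a1 a2]; simp [hxy, div_eq_mul_inv]
  rw [epiv_uv _ a1 a2 a3 a4]; simp [a3, a4, Ne.symm a3, Ne.symm a4]; ring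

lemma epiv_isPiv {x y : E} (hx : S x x = 0) (hy : S y y = 0) (h1 : S x y ≠ 0) (h2 : S y x ≠ 0) :
    IsPiv S (epiv S x y) {x, y} := epiv_isPiv' (by simp) hx hy h1 h2

lemma IsPiv.dep (h : IsPiv S S' Z) {X Y : Set E} (hd : Dep S' X Y) :
    Dep S ((X \ Z) ∪ (Z \ Y)) ((Y \ Z) ∪ (Z \ X)) := by
  classical
  obtain ⟨u, h0, h1, h2⟩ := hd
  have hs := h.solve u
  refine ⟨Z.piecewise (S' *ᵥ u) u, fun hz => h0 ?_, fun y hy => ?_, fun x hx => ?_⟩
  · rw [hz, mulVec_zero] at hs
    ext e
    by_cases he : e ∈ Z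
    · simpa [he] using congrFun hs e
    · simpa [he] using congrFun hz e
  · by_cases he : y ∈ Z
    · rw [Set.piecewise_eq_of_mem _ _ _ he]
      exact h2 y (by by_contra hx; exact hy (Or.inr ⟨he, hx⟩))
    · rw [Set.piecewise_eq_of_notMem _ _ _ he]
      exact h1 y fun hy' => hy (Or.inl ⟨hy', he⟩)
  · rw [← hs]
    rcases hx with hx | hx
    · rw [Set.piecewise_eq_of_notMem _ _ _ hx.2]; exact h2 x hx.1
    · rw [Set.piecewise_eq_of_mem _ _ _ hx.1]; exact h1 x hx.2

lemma IsPiv.dep_iff (h : IsPiv S S' Z) (X Y : Set E) :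
    Dep S' X Y ↔ Dep S ((X \ Z) ∪ (Z \ Y)) ((Y \ Z) ∪ (Z \ X)) := by
  refine ⟨h.dep, fun hd => ?_⟩
  have := h.symm.dep hd
  convert this using 1
  · ext e; by_cases a : e ∈ Z <;> simp [a]
  · ext e; by_cases a : e ∈ Z <;> simp [a]

lemma IsPiv.same (h : IsPiv S S' Z) (h' : IsPiv T T' Z) (hs : Same S T) : Same S' T' :=
  fun X Y => by rw [h.dep_iff, h'.dep_iff, hs]

lemma Skew.form (hs : Skew S) (a b : E → F) : a ⬝ᵥ S *ᵥ b + S *ᵥ a ⬝ᵥ b = 0 := by
  simp only [mulVec, dotProduct, Finset.mul_sum, Finset.sum_mul]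
  rw [Finset.sum_comm (f := fun x y => S x y * a y * b x), ← Finset.sum_add_distrib]
  refine Finset.sum_eq_zero fun i _ => ?_
  rw [← Finset.sum_add_distrib]
  refine Finset.sum_eq_zero fun j _ => ?_
  rw [hs j i]; ring

lemma IsPiv.skew (h : IsPiv S S' Z) (hs : Skew S) : Skew S' := by
  classical
  intro u v
  have e := hs.form (Z.piecewise (S' *ᵥ Pi.single u 1) (Pi.single u 1))
    (Z.piecewise (S' *ᵥ Pi.single v 1) (Pi.single v 1))
  rw [← h.solve, ← h.solve] at e
  have e2 : (Pi.single u 1 : E → F) ⬝ᵥ S' *ᵥ Pi.single v 1 +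
      S' *ᵥ Pi.single u 1 ⬝ᵥ Pi.single v 1 = 0 := by
    rw [← e]
    simp only [dotProduct, ← Finset.sum_add_distrib]
    refine Finset.sum_congr rfl fun t _ => ?_
    by_cases ht : t ∈ Z
    · simp only [Set.piecewise_eq_of_mem _ _ _ ht]; ring
    · simp only [Set.piecewise_eq_of_notMem _ _ _ ht]
  simp only [mulVec_single_one, single_dotProduct, dotProduct_single, one_mul, mul_one,
    Matrix.col_apply] at e2
  linear_combination e2

lemma IsPiv.bip {col : E → Bool} (h : IsPiv S S' Z) (hb : Bip col S) :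
    Bip (colFlip col Z) S' := by
  classical
  intro u v hc
  set c := colFlip col Z v with hcv
  have hs := h.solve (Pi.single v 1)
  set U := Z.piecewise (S' *ᵥ Pi.single v 1) (Pi.single v 1) with hU
  set W := Z.piecewise (Pi.single v 1) (S' *ᵥ Pi.single v 1) with hW
  let U1 : E → F := fun e => if col e = c then 0 else U e
  let W1 : E → F := fun e => if col e = c then W e else 0
  have h1 : W1 = S *ᵥ U1 := by
    ext e
    by_cases he : col e = c
    · simp only [W1, if_pos he, hs, mulVec, dotProduct]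
      refine Finset.sum_congr rfl fun t _ => ?_
      by_cases ht : col t = c
      · simp [hb e t (he.trans ht.symm)]
      · simp [U1, ht]
    · simp only [W1, if_neg he, mulVec, dotProduct]
      symm
      refine Finset.sum_eq_zero fun t _ => ?_
      by_cases ht : col t = c
      · simp [U1, ht]
      · have : col e = col t := by revert he ht; cases col e <;> cases col t <;> cases c <;> simp
        simp [hb e t this]
  have h2 := (h U1 W1).1 h1
  have h3 : Z.piecewise W1 U1 = 0 := by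
    ext e
    by_cases he : e ∈ Z
    · simp only [Set.piecewise_eq_of_mem _ _ _ he, W1, hW, Pi.zero_apply]
      split_ifs with hh
      · have : e ≠ v := by
          rintro rfl
          rw [colFlip_of_mem _ he, hh] at hcv
          revert hcv; cases c <;> simp
        simp [this]
      · rfl
    · simp only [Set.piecewise_eq_of_notMem _ _ _ he, U1, hU, Pi.zero_apply]
      split_ifs with hh
      · rfl
      · have : e ≠ v := by
          rintro rfl
          rw [colFlip_of_notMem _ he] at hcv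
          exact hh hcv.symm
        simp [this]
  rw [h3, mulVec_zero] at h2
  have h4 := congrFun h2 u
  by_cases hu : u ∈ Z
  · rw [colFlip_of_mem _ hu] at hc
    have : col u ≠ c := by rw [← hc]; cases col u <;> simp
    simpa [hu, U1, this, hU] using h4
  · rw [colFlip_of_notMem _ hu] at hc
    simpa [hu, W1, hc, hW] using h4

lemma IsPiv.agree_rect (h : IsPiv S S' Z) (h' : IsPiv T T' Z) {R C : Set E} (hR : Z ⊆ R)
    (hC : Z ⊆ C) (ha : ∀ u ∈ R, ∀ v ∈ C, T u v = S u v) :
    ∀ u ∈ R, ∀ v ∈ C, T' u v = S' u v := by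
  classical
  intro u hu v hv
  have hs := h.solve (Pi.single v 1)
  have ht := h'.solve (Pi.single v 1)
  set U := Z.piecewise (S' *ᵥ Pi.single v 1) (Pi.single v 1) with hU
  set U' := Z.piecewise (T' *ᵥ Pi.single v 1) (Pi.single v 1) with hU'
  have hTS : ∀ e ∈ R, (T *ᵥ U) e = (S *ᵥ U) e := by
    intro e he
    simp only [mulVec, dotProduct]
    refine Finset.sum_congr rfl fun t _ => ?_
    by_cases htc : t ∈ C
    · rw [ha e he t htc]
    · have h1 : t ∉ Z := fun hz => htc (hC hz)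
      have h2 : t ≠ v := fun e => htc (e ▸ hv)
      simp [hU, h1, h2]
  have hUU : U = U' := by
    by_contra hne
    refine h'.not_dep ⟨U - U', sub_ne_zero.2 hne, fun y hy => by simp [hU, hU', hy],
      fun x hx => ?_⟩
    rw [mulVec_sub, Pi.sub_apply, hTS x (hR hx), ← hs, ← ht]
    simp [hx]
  by_cases huZ : u ∈ Z
  · have := congrFun hUU u
    simpa [hU, hU', huZ] using this.symm
  · have := hTS u hu
    rw [← hs, hUU, ← ht] at this
    simpa [huZ] using this

lemma IsPiv.submatrix [Fintype E'] (h : IsPiv S S' Z) {f : E' → E} (hf : Function.Injective f)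
    (hZ : Z ⊆ Set.range f) : IsPiv (S.submatrix f f) (S'.submatrix f f) (f ⁻¹' Z) := by
  classical
  have key : ∀ (M : Matrix E E F) (u : E' → F) (i : E'),
      (M.submatrix f f *ᵥ u) i = (M *ᵥ Function.extend f u 0) (f i) := by
    intro M u i
    simp only [mulVec, dotProduct, submatrix_apply]
    refine Finset.sum_of_injOn f (fun _ _ _ _ h => hf h) (by simp) ?_ ?_
    · intro e _ he
      rw [Function.extend_apply' _ _ _ (by simpa using he)]; simp
    · intro y _
      rw [hf.extend_apply]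
  have one : ∀ {S S' : Matrix E E F}, IsPiv S S' Z → ∀ u : E' → F,
      (f ⁻¹' Z).piecewise u (S.submatrix f f *ᵥ u) =
        S'.submatrix f f *ᵥ (f ⁻¹' Z).piecewise (S.submatrix f f *ᵥ u) u := by
    intro S S' h u
    have h1 := (h (Function.extend f u 0) _).1 rfl
    have h2 : Function.extend f ((f ⁻¹' Z).piecewise (S.submatrix f f *ᵥ u) u) 0 =
        Z.piecewise (S *ᵥ Function.extend f u 0) (Function.extend f u 0) := by
      ext e
      by_cases he : ∃ i, f i = e
      · obtain ⟨i, rfl⟩ := he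
        rw [hf.extend_apply]
        by_cases hi : f i ∈ Z
        · rw [Set.piecewise_eq_of_mem _ _ _ hi, Set.piecewise_eq_of_mem _ _ _ (by exact hi), key]
        · rw [Set.piecewise_eq_of_notMem _ _ _ hi, Set.piecewise_eq_of_notMem _ _ _ (by exact hi),
            hf.extend_apply]
      · rw [Set.piecewise_eq_of_notMem _ _ _ (fun hz => he (hZ hz)),
          Function.extend_apply' _ _ _ he, Function.extend_apply' _ _ _ he]
    ext i
    rw [key S', h2, ← h1]
    by_cases hi : f i ∈ Z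
    · rw [Set.piecewise_eq_of_mem _ _ _ hi, Set.piecewise_eq_of_mem _ _ _ (by exact hi),
        hf.extend_apply]
    · rw [Set.piecewise_eq_of_notMem _ _ _ hi, Set.piecewise_eq_of_notMem _ _ _ (by exact hi), key]
  intro u w
  constructor
  · rintro rfl; convert one h u
  · intro hh
    have := one h.symm ((f ⁻¹' Z).piecewise w u)
    have hh' : (f ⁻¹' Z).piecewise u w = S'.submatrix f f *ᵥ (f ⁻¹' Z).piecewise w u := by
      convert hh
    rw [← hh'] at this
    have e1 := pw_pw (E := E') (f ⁻¹' Z) w u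
    have e2 := pw_pw (E := E') (f ⁻¹' Z) u w
    convert this using 2
    · convert e1.symm
    · convert e2.symm

lemma scale_mulVec (c : E → Fˣ) (M : Matrix E E F) (u : E → F) (e : E) :
    (scale c M *ᵥ u) e = c e * (M *ᵥ fun t => c t * u t) e := by
  simp only [mulVec, dotProduct, scale_apply, Finset.mul_sum]
  exact Finset.sum_congr rfl fun t _ => by ring

open Classical in
lemma IsPiv.scale (h : IsPiv S S' Z) (c : E → Fˣ) :
    IsPiv (scale c S) (scale (Z.piecewise c⁻¹ c) S') Z := by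
  intro u w
  have := h (fun t => c t * u t) (fun t => ((c t)⁻¹ : Fˣ) * w t)
  have e1 : (fun t => ((Z.piecewise c⁻¹ c t : Fˣ) : F) * Z.piecewise w u t) =
      Z.piecewise (fun t => ((c t)⁻¹ : Fˣ) * w t) (fun t => c t * u t) := by
    ext t; by_cases ht : t ∈ Z <;> simp [ht]
  simp only [funext_iff, scale_mulVec] at this ⊢
  rw [e1]
  refine Iff.trans (forall_congr' fun e => ?_) (this.trans (forall_congr' fun e => ?_))
  · rw [Units.inv_mul_eq_iff_eq_mul]
  · by_cases he : e ∈ Z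
    · simp only [Set.piecewise_eq_of_mem _ _ _ he, Pi.inv_apply]
      rw [Units.eq_inv_mul_iff_mul_eq]
    · simp only [Set.piecewise_eq_of_notMem _ _ _ he]
      rw [Units.inv_mul_eq_iff_eq_mul]

/-- The solutions that vanish on `X` (input and output). -/
def cutKer (S : Matrix E E F) (X : Set E) : Submodule F (E → F) where
  carrier := {u | (∀ x ∈ X, u x = 0) ∧ ∀ x ∈ X, (S *ᵥ u) x = 0}
  add_mem' := by
    rintro a b ⟨a1, a2⟩ ⟨b1, b2⟩
    exact ⟨fun x hx => by simp [a1 x hx, b1 x hx], fun x hx => by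
      simp [mulVec_add, a2 x hx, b2 x hx]⟩
  zero_mem' := ⟨fun _ _ => rfl, fun _ _ => by simp⟩
  smul_mem' := by
    rintro c a ⟨a1, a2⟩
    exact ⟨fun x hx => by simp [a1 x hx], fun x hx => by simp [mulVec_smul, a2 x hx]⟩

lemma rkLE_cut_iff (S : Matrix E E F) (X : Set E) (l : ℕ) :
    RkLE S X Xᶜ l ↔ Xᶜ.ncard ≤ l + Module.finrank F (cutKer S X) := by
  classical
  have e := rank_le_iff_rkLE S (Subtype.val : X → E) (Subtype.val : ↥Xᶜ → E) l
  simp only [Subtype.range_coe_subtype, Set.ofPred_mem_eq] at e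
  rw [← e]
  set M := S.submatrix (Subtype.val : X → E) (Subtype.val : ↥Xᶜ → E) with hM
  have h1 := LinearMap.finrank_range_add_finrank_ker M.mulVecLin
  have key : ∀ (u : E → F), (∀ x ∈ X, u x = 0) → ∀ x : X,
      (M *ᵥ fun t : ↥Xᶜ => u t) x = (S *ᵥ u) x := by
    intro u hu x
    simp only [mulVec, dotProduct, hM, submatrix_apply]
    refine Finset.sum_of_injOn Subtype.val (fun _ _ _ _ h => Subtype.ext h) (by simp) ?_ ?_
    · intro e _ he
      rw [hu e (by simpa using he), mul_zero]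
    · intro y _; rfl
  let L : cutKer S X →ₗ[F] LinearMap.ker M.mulVecLin :=
    { toFun := fun u => ⟨fun t => u.1 t, by
        ext x
        rw [mulVecLin_apply, key _ u.2.1, u.2.2 x x.2]; rfl⟩
      map_add' := fun _ _ => rfl
      map_smul' := fun _ _ => rfl }
  have hb : Function.Bijective L := by
    constructor
    · intro a b hab
      ext t
      by_cases ht : t ∈ X
      · rw [a.2.1 t ht, b.2.1 t ht]
      · exact congrFun (congrArg Subtype.val hab) ⟨t, ht⟩
    · rintro ⟨v, hv⟩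
      let u : E → F := fun t => if h : t ∈ X then 0 else v ⟨t, h⟩
      have hu : ∀ x ∈ X, u x = 0 := fun x hx => by simp [u, hx]
      have hv' : (fun t : ↥Xᶜ => u t) = v := by
        ext t
        have : t.1 ∉ X := t.2
        simp [u, this]
      refine ⟨⟨u, hu, fun x hx => ?_⟩, Subtype.ext hv'⟩
      rw [← key u hu ⟨x, hx⟩, hv']
      exact congrFun hv ⟨x, hx⟩
  rw [(LinearEquiv.ofBijective L hb).finrank_eq]
  rw [Module.finrank_fintype_fun_eq_card, ← Nat.card_eq_fintype_card, Nat.card_coe_set_eq] at h1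
  have h2 : M.rank = Module.finrank F (LinearMap.range M.mulVecLin) := rfl
  rw [h2]
  omega

lemma IsPiv.rkLE_cut (h : IsPiv S S' Z) {X : Set E} {l : ℕ} (h' : RkLE S X Xᶜ l) :
    RkLE S' X Xᶜ l := by
  classical
  rw [rkLE_cut_iff] at h' ⊢
  refine h'.trans (Nat.add_le_add_left ?_ _)
  let L : cutKer S X →ₗ[F] cutKer S' X :=
    { toFun := fun u => ⟨Z.piecewise (S *ᵥ u.1) u.1, fun x hx => by
          by_cases hz : x ∈ Z <;> simp [hz, u.2.1 x hx, u.2.2 x hx], fun x hx => by
          have := (h u.1 _).1 rfl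
          rw [← this]
          by_cases hz : x ∈ Z <;> simp [hz, u.2.1 x hx, u.2.2 x hx]⟩
      map_add' := fun a b => by
        ext e; by_cases he : e ∈ Z <;> simp [he, mulVec_add]
      map_smul' := fun c a => by
        ext e; by_cases he : e ∈ Z <;> simp [he, mulVec_smul] }
  refine LinearMap.finrank_le_finrank_of_injective (f := L) ?_
  rw [injective_iff_map_eq_zero]
  intro u hu
  by_contra h0
  have hu' : Z.piecewise (S *ᵥ u.1) u.1 = 0 := congrArg Subtype.val hu
  refine h.not_dep ⟨u.1, fun e => h0 (Subtype.ext e), fun y hy => ?_, fun x hx => ?_⟩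
  · simpa [hy] using congrFun hu' y
  · simpa [hx] using congrFun hu' x

lemma IsPiv.conn (h : IsPiv S S' Z) {m : ℕ} (h' : Conn m S) : Conn m S' :=
  fun X l hl hr => h' X l hl (h.symm.rkLE_cut hr)

lemma Fam.piv {col : E → Bool} {A A' : ι → Matrix E E F} (h : Fam col A)
    (hp : ∀ i, IsPiv (A i) (A' i) Z) : Fam (colFlip col Z) A' :=
  ⟨fun i => (hp i).skew (h.skew i), fun i => (hp i).bip (h.bip i),
    fun i j => (hp i).same (hp j) (h.same i j)⟩

lemma Fam.exists_piv {col : E → Bool} {A : ι → Matrix E E F} (h : Fam col A) {i0 : ι}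
    (hZ : ¬Dep (A i0) Z Z) : ∃ A' : ι → Matrix E E F, ∀ i, IsPiv (A i) (A' i) Z := by
  choose A' hA' using fun i => exists_isPiv (S := A i) (Z := Z) fun hd =>
    hZ ((h.same i i0 Z Z).1 hd)
  exact ⟨A', hA'⟩

/-- Deviance is invariant under pivots inside the deviant set. -/
lemma IsPiv.devP_iff {O P0 : Set E} (h : IsPiv S S' Z) (h' : IsPiv T T' Z) (hZ : Z ⊆ P0)
    (hO : Disjoint Z O) : DevP O S T P0 ↔ DevP O S' T' P0 := by
  have key : ∀ {S S' T T' : Matrix E E F}, IsPiv S S' Z → IsPiv T T' Z → DevP O S' T' P0 →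
      DevP O S T P0 := by
    classical
    intro S S' T T' h h' hd ⟨c, a, b⟩
    refine hd ⟨_, fun o ho => ?_, (h.scale c).agree_rect h' (R := O ∪ P0) (C := P0)
      (hZ.trans Set.subset_union_right) hZ b⟩
    rw [Set.piecewise_eq_of_notMem _ _ _ (Set.disjoint_right.1 hO ho), a o ho]
  exact ⟨key h.symm h'.symm, key h h'⟩

lemma IsPiv.equivOn_iff {W : Set E} (h : IsPiv S S' Z) (h' : IsPiv T T' Z) (hZ : Z ⊆ W) :
    EquivOn W S T ↔ EquivOn W S' T' := by
  rw [equivOn_iff_devP, equivOn_iff_devP, h.devP_iff h' hZ (by simp)]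

/-- If `W` sees `Z` through the vectors `h u`, the pivot changes `W × W` by a bilinear form. -/
lemma IsPiv.flip {I : Type} [Fintype I] (hp : IsPiv S S' Z) (hs : Skew S) {W : Set E}
    (hW : Disjoint W Z) (h : E → I → F) (G : E → I → F)
    (hG : ∀ u ∈ W, ∀ z ∈ Z, S u z = h u ⬝ᵥ G z) :
    ∃ Ψ : Matrix I I F, ∀ u ∈ W, ∀ v ∈ W, S' u v = S u v + h u ⬝ᵥ Ψ *ᵥ h v := by
  classical
  have hs' := hp.skew hs
  have key : ∀ v, v ∉ Z → ∀ e, Z.piecewise (0 : E → F) (fun t => S t v) e =
      S' e v + ∑ z ∈ Finset.univ.filter (· ∈ Z), S' e z * S z v := by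
    intro v hv e
    have := congrFun ((hp (Pi.single v 1) _).1 rfl) e
    simp only [mulVec_single_one] at this
    have e1 : Z.piecewise (0 : E → F) (fun t => S t v) e =
        Z.piecewise (Pi.single v 1) (S.col v) e := by
      by_cases he : e ∈ Z
      · have : e ≠ v := fun h => hv (h ▸ he)
        simp [he, this]
      · simp [he]
    rw [e1, this]
    simp only [mulVec, dotProduct]
    rw [← Finset.sum_filter_add_sum_filter_not Finset.univ (· ∈ Z), add_comm]
    congr 1
    · rw [Finset.sum_eq_single v]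
      · simp [hv]
      · intro t ht hne
        simp [(Finset.mem_filter.1 ht).2, hne]
      · intro hn; exact absurd (by simp [hv]) hn
    · exact Finset.sum_congr rfl fun t ht => by simp [(Finset.mem_filter.1 ht).2]
  refine ⟨Matrix.of fun i j => -∑ z0 ∈ Finset.univ.filter (· ∈ Z),
    ∑ z ∈ Finset.univ.filter (· ∈ Z), S' z0 z * G z i * G z0 j, fun u hu v hv => ?_⟩
  have hu' : u ∉ Z := Set.disjoint_left.1 hW hu
  have hv' : v ∉ Z := Set.disjoint_left.1 hW hv
  have e1 := key v hv' u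
  rw [Set.piecewise_eq_of_notMem _ _ _ hu'] at e1
  have e2 : ∀ z0 ∈ Finset.univ.filter (· ∈ Z), S' u z0 * S z0 v =
      ∑ z ∈ Finset.univ.filter (· ∈ Z), S' z0 z * ((h u ⬝ᵥ G z) * (h v ⬝ᵥ G z0)) := by
    intro z0 hz0
    have hz := (Finset.mem_filter.1 hz0).2
    have e3 := key u hu' z0
    rw [Set.piecewise_eq_of_mem _ _ _ hz, Pi.zero_apply] at e3
    have e4 : S' u z0 = ∑ z ∈ Finset.univ.filter (· ∈ Z), S' z0 z * S z u := by
      rw [hs' u z0]; linear_combination e3
    rw [e4, Finset.sum_mul]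
    refine Finset.sum_congr rfl fun z hz' => ?_
    rw [hs z u, hs z0 v, hG u hu z (Finset.mem_filter.1 hz').2, hG v hv z0 hz]; ring
  rw [Finset.sum_congr rfl e2] at e1
  rw [e1, add_assoc, left_eq_add]
  simp only [dotProduct, mulVec, of_apply, neg_mul, mul_neg, Finset.sum_neg_distrib,
    Finset.mul_sum, Finset.sum_mul]
  rw [add_neg_eq_zero]
  simp only [Finset.sum_comm (s := Finset.univ.filter (· ∈ Z)) (t := (Finset.univ : Finset I))]
  rw [Finset.sum_comm]
  refine Finset.sum_congr rfl fun i _ => Finset.sum_congr rfl fun j _ =>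
    Finset.sum_congr rfl fun z0 _ => Finset.sum_congr rfl fun z _ => by ring

/-- A pivot on a set that lies between `Q` and `Ω` in the background. -/
lemma IsPiv.pers [Fintype K] (hp : IsPiv S S' Z) (hs : Skew S) {kk : K → E} {X : E → K → F}
    {Q Ω : Set E} (hQ : Disjoint Q Z) (hΩ : Disjoint Ω Z) (hQΩ : Disjoint Q Ω)
    (h1 : ∀ u ∈ Q, ∀ z ∈ Z, nat S kk X u z = 0) (h2 : ∀ z ∈ Z, ∀ w ∈ Ω, nat S kk X z w = 0) :
    ∃ Ψ1 Ψ2 Ψ3 : Matrix K K F,
      (∀ u ∈ Q, ∀ w ∈ Q, S' u w = S u w + X u ⬝ᵥ Ψ1 *ᵥ X w) ∧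
      (∀ u ∈ Q, ∀ w ∈ Ω, S' u w = S u w + X u ⬝ᵥ Ψ2 *ᵥ yv S kk w) ∧
      ∀ u ∈ Ω, ∀ w ∈ Ω, S' u w = S u w + yv S kk u ⬝ᵥ Ψ3 *ᵥ yv S kk w := by
  classical
  obtain ⟨Ψ, hΨ⟩ := hp.flip hs (W := Q ∪ Ω) (Set.disjoint_union_left.2 ⟨hQ, hΩ⟩)
    (fun u => if u ∈ Q then Sum.elim (X u) 0 else Sum.elim 0 (yv S kk u))
    (fun z => Sum.elim (yv S kk z) (-X z)) (by
      intro u hu z hz
      by_cases hq : u ∈ Q
      · simpa [hq, nat, sub_eq_zero] using h1 u hq z hz
      · have := h2 z hz u (hu.resolve_left hq)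
        rw [nat, sub_eq_zero] at this
        simp [hq, hs u z, this, dotProduct_comm])
  rw [← fromBlocks_toBlocks Ψ] at hΨ
  refine ⟨Ψ.toBlocks₁₁, Ψ.toBlocks₁₂, Ψ.toBlocks₂₂, fun u hu w hw => ?_, fun u hu w hw => ?_,
    fun u hu w hw => ?_⟩
  · simpa [hu, hw, fromBlocks_mulVec] using hΨ u (Or.inl hu) w (Or.inl hw)
  · have := Set.disjoint_right.1 hQΩ hw
    simpa [hu, this, fromBlocks_mulVec] using hΨ u (Or.inl hu) w (Or.inr hw)
  · have h3 := Set.disjoint_right.1 hQΩ hw
    have h4 := Set.disjoint_right.1 hQΩ hu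
    simpa [h3, h4, fromBlocks_mulVec] using hΨ u (Or.inr hu) w (Or.inr hw)

/-- Under such a pivot the background-free entries from `Q` do not change. -/
lemma IsPiv.nat_eq [Fintype K] [DecidableEq K] (hp : IsPiv S S' Z) (hs : Skew S) {kk : K → E}
    {X : E → K → F} {Q Ω : Set E} (hQ : Disjoint Q Z) (hΩ : Disjoint Ω Z) (hQΩ : Disjoint Q Ω)
    (h1 : ∀ u ∈ Q, ∀ z ∈ Z, nat S kk X u z = 0) (h2 : ∀ z ∈ Z, ∀ w ∈ Ω, nat S kk X z w = 0)
    (hk : ∀ r, kk r ∈ Q) (hX : ∀ r, X (kk r) = Pi.single r 1) :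
    ∀ u ∈ Q, ∀ w ∈ Q ∪ Ω, nat S' kk X u w = nat S kk X u w := by
  obtain ⟨Ψ1, Ψ2, Ψ3, a, b, -⟩ := hp.pers hs hQ hΩ hQΩ h1 h2
  rintro u hu w (hw | hw)
  · have : yv S' kk w = yv S kk w + Ψ1 *ᵥ X w := funext fun r => by
      simp [yv, a _ (hk r) w hw, hX r]
    rw [nat, nat, a u hu w hw, this, dotProduct_add]; ring
  · have : yv S' kk w = yv S kk w + Ψ2 *ᵥ yv S kk w := funext fun r => by
      have := b _ (hk r) w hw
      rw [hX r, single_dotProduct, one_mul] at this
      exact this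
    rw [nat, nat, b u hu w hw, this, dotProduct_add]; ring

end IsPiv

section Reach

variable [Fintype E] {O Y : Set E} {a b : Dsp F E ι}

lemma Fam.isPiv_epiv {col : E → Bool} {A : ι → Matrix E E F} (h : Fam col A) {x y : E} {i : ι}
    (hxy : A i x y ≠ 0) : IsPiv (A i) (epiv (A i) x y) {x, y} :=
  epiv_isPiv (h.diag i x) (h.diag i y) hxy fun e => hxy ((h.zero_comm i x y).2 e)

lemma Fam.ne_of_adj {col : E → Bool} {A : ι → Matrix E E F} (h : Fam col A) {x y : E} {i : ι}
    (hxy : A i x y ≠ 0) : x ≠ y := fun e => hxy (e ▸ h.diag i x)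

lemma colFlip_colFlip (col : E → Bool) (Z Z' : Set E) :
    colFlip (colFlip col Z) Z' = colFlip col (symmDiff Z Z') := by
  ext e
  by_cases h1 : e ∈ Z <;> by_cases h2 : e ∈ Z' <;> simp [colFlip, h1, h2, Set.mem_symmDiff]

lemma colFlip_empty (col : E → Bool) : colFlip col ∅ = col := by
  ext e; simp [colFlip]

lemma Fam.epiv {col : E → Bool} {A : ι → Matrix E E F} (h : Fam col A) {x y : E}
    (hxy : ∀ i, A i x y ≠ 0) : Fam (colFlip col {x, y}) fun i => epiv (A i) x y :=
  h.piv fun i => h.isPiv_epiv (hxy i)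

/-- Build a harmless step from facts about one member. -/
lemma HStep.mk' (h : Fam a.1 a.2) (i0 : ι) {x y : E} (hx : x ∉ O) (hy : y ∉ O)
    (hxy : a.2 i0 x y ≠ 0) (hn : NoNb (a.2 i0) O y) :
    HStep O a (colFlip a.1 {x, y}, fun i => epiv (a.2 i) x y) :=
  ⟨x, y, hx, hy, fun i e => hxy ((h.zero_iff i i0 x y).1 e), fun i => (h.same i0 i).noNb hn, rfl⟩

lemma IStep.mk' (h : Fam a.1 a.2) (i0 : ι) {x y : E} (hx : x ∈ Y) (hy : y ∈ Y)
    (hxy : a.2 i0 x y ≠ 0) (hnx : NoNb (a.2 i0) O x) (hny : NoNb (a.2 i0) O y) :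
    IStep O Y a (colFlip a.1 {x, y}, fun i => epiv (a.2 i) x y) :=
  ⟨x, y, hx, hy, fun i e => hxy ((h.zero_iff i i0 x y).1 e), fun i => (h.same i0 i).noNb hnx,
    fun i => (h.same i0 i).noNb hny, rfl⟩

lemma IStep.hStep (h : IStep O Y a b) (hd : Disjoint O Y) : HStep O a b := by
  obtain ⟨x, y, hx, hy, h1, -, h2, h3⟩ := h
  exact ⟨x, y, Set.disjoint_right.1 hd hx, Set.disjoint_right.1 hd hy, h1, h2, h3⟩

lemma HStep.fam (h : HStep O a b) (ha : Fam a.1 a.2) : Fam b.1 b.2 := by
  obtain ⟨x, y, -, -, h1, -, rfl⟩ := h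
  exact ha.epiv h1

lemma IStep.fam (h : IStep O Y a b) (ha : Fam a.1 a.2) : Fam b.1 b.2 := by
  obtain ⟨x, y, -, -, h1, -, -, rfl⟩ := h
  exact ha.epiv h1

lemma IReach.fam (h : IReach O Y a b) (ha : Fam a.1 a.2) : Fam b.1 b.2 := by
  induction h with
  | refl => exact ha
  | tail _ h2 ih => exact h2.fam ih

lemma IReach.hReach (h : IReach O Y a b) (hd : Disjoint O Y) : HReach O a b := by
  induction h with
  | refl => exact Relation.ReflTransGen.refl
  | tail _ h2 ih => exact ih.tail (h2.hStep hd)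

lemma HReach.fam (h : HReach O a b) (ha : Fam a.1 a.2) : Fam b.1 b.2 := by
  induction h with
  | refl => exact ha
  | tail _ h2 ih => exact h2.fam ih

lemma HReach.exists_piv (h : HReach O a b) (ha : Fam a.1 a.2) :
    ∃ Z, Disjoint Z O ∧ b.1 = colFlip a.1 Z ∧ ∀ i, IsPiv (a.2 i) (b.2 i) Z := by
  induction h with
  | refl => exact ⟨∅, by simp, (colFlip_empty _).symm, fun i => isPiv_empty _⟩
  | tail h1 h2 ih =>
    obtain ⟨Z, d, e, p⟩ := ih
    have hb := HReach.fam h1 ha
    obtain ⟨x, y, hx, hy, h3, -, rfl⟩ := h2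
    refine ⟨symmDiff Z {x, y}, ?_, ?_, fun i => (p i).comp (hb.isPiv_epiv (h3 i))⟩
    · refine Set.disjoint_of_subset_left symmDiff_le_sup (Set.disjoint_union_left.2 ⟨d, ?_⟩)
      rw [Set.disjoint_left]
      rintro t (rfl | rfl) <;> assumption
    · simp only [e, colFlip_colFlip]

lemma IReach.exists_piv (h : IReach O Y a b) (ha : Fam a.1 a.2) :
    ∃ Z ⊆ Y, b.1 = colFlip a.1 Z ∧ ∀ i, IsPiv (a.2 i) (b.2 i) Z := by
  induction h with
  | refl => exact ⟨∅, by simp, (colFlip_empty _).symm, fun i => isPiv_empty _⟩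
  | tail h1 h2 ih =>
    obtain ⟨Z, d, e, p⟩ := ih
    have hb := IReach.fam h1 ha
    obtain ⟨x, y, hx, hy, h3, -, -, rfl⟩ := h2
    refine ⟨symmDiff Z {x, y}, ?_, ?_, fun i => (p i).comp (hb.isPiv_epiv (h3 i))⟩
    · refine Set.Subset.trans symmDiff_le_sup (Set.union_subset d ?_)
      rintro t (rfl | rfl) <;> assumption
    · simp only [e, colFlip_colFlip]

lemma HReach.conn (h : HReach O a b) (ha : Fam a.1 a.2) {m : ℕ} {i : ι} (hc : Conn m (a.2 i)) :
    Conn m (b.2 i) := by
  obtain ⟨Z, -, -, p⟩ := h.exists_piv ha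
  exact (p i).conn hc

lemma HReach.agree (h : HReach O a b) (ha : Fam a.1 a.2) (i : ι) :
    AgreeOn O (a.2 i) (b.2 i) := by
  induction h with
  | refl => exact AgreeOn.refl _ _
  | tail h1 h2 ih =>
    have hb := HReach.fam h1 ha
    obtain ⟨x, y, hx, hy, h3, h4, rfl⟩ := h2
    refine ih.trans fun u hu v hv => ?_
    have e1 := h4 i u hu
    have e2 := (hb.zero_comm i v y).1 (h4 i v hv)
    simp only
    rw [epiv_uv (u := u) (v := v) (x := x) (y := y) _ (fun e => hx (e ▸ hu)) (fun e => hy (e ▸ hu))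
      (fun e => hx (e ▸ hv)) (fun e => hy (e ▸ hv)), e1, e2]
    simp

lemma HReach.col (h : HReach O a b) {o : E} (ho : o ∈ O) : b.1 o = a.1 o := by
  induction h with
  | refl => rfl
  | tail h1 h2 ih =>
    obtain ⟨x, y, hx, hy, -, -, rfl⟩ := h2
    rw [← ih]
    refine colFlip_of_notMem _ ?_
    rintro (rfl | rfl) <;> contradiction

/-- Inner pivots do not touch the rows of `O`. -/
lemma IReach.row (h : IReach O Y a b) (ha : Fam a.1 a.2) (hd : Disjoint O Y) (i : ι) {o : E}
    (ho : o ∈ O) (v : E) : b.2 i o v = a.2 i o v := by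
  induction h with
  | refl => rfl
  | tail h1 h2 ih =>
    have hb := IReach.fam h1 ha
    obtain ⟨x, y, hx, hy, h3, h4, h5, rfl⟩ := h2
    rw [← ih]
    have a1 : o ≠ x := fun e => Set.disjoint_left.1 hd ho (e ▸ hx)
    have a2 : o ≠ y := fun e => Set.disjoint_left.1 hd ho (e ▸ hy)
    have e1 := h4 i o ho
    have e2 := h5 i o ho
    simp only
    by_cases a3 : v = x
    · rw [a3, epiv_ux _ a1 a2, e1, e2, zero_div]
    by_cases a4 : v = y
    · rw [a4, epiv_uy _ (hb.ne_of_adj (h3 i)) a1 a2, e1, e2, zero_div]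
    rw [epiv_uv _ a1 a2 a3 a4, e1, e2]; simp

lemma HReach.rooted (h : HReach O a b) (ha : Fam a.1 a.2) {i : ι} (hr : Rooted O (a.2 i)) :
    Rooted O (b.2 i) := by
  induction h with
  | refl => exact hr
  | @tail b c h1 h2 ih =>
    have hb := HReach.fam h1 ha
    have hc := h2.fam hb
    obtain ⟨x, y, hx, hy, h3, h4, rfl⟩ := h2
    intro X hX h0
    have hxy := hb.ne_of_adj (h3 i)
    have h3' : b.2 i y x ≠ 0 := fun e => h3 i ((hb.zero_comm i x y).2 e)
    have h5 : ∀ p ∈ X, ∀ q, q ∉ X → epiv (b.2 i) x y p q = 0 ∧ epiv (b.2 i) x y q p = 0 :=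
      fun p hp q hq => ⟨h0 p hp q hq, (hc.zero_comm i p q).1 (h0 p hp q hq)⟩
    have hm : x ∈ X ↔ y ∈ X := by
      constructor
      · intro s; by_contra t
        have := (h5 x s y t).1
        rw [epiv_xy _ hxy] at this
        exact h3' (inv_eq_zero.1 this)
      · intro s; by_contra t
        have := (h5 y s x t).2
        rw [epiv_xy _ hxy] at this
        exact h3' (inv_eq_zero.1 this)
    have := epiv_block (epiv (b.2 i) x y) hxy hm h5
    rw [epiv_epiv _ (hb.diag i x) (hb.diag i y) (h3 i) h3'] at this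
    exact ih X hX fun u hu v hv => (this u hu v hv).1

lemma ParAll.reach {a b : Dsp F E Bool} (h : ParAll O a) (hr : HReach O a b) : ParAll O b :=
  fun c hc => h c (hr.trans hc)

lemma VisR.of_reach {a b : Dsp F E Bool} (h : VisR O b) (hr : HReach O a b) : VisR O a := by
  obtain ⟨c, hc, h'⟩ := h
  exact ⟨c, hr.trans hc, h'⟩

end Reach

end Pool.Agent.MP_d99b12_co.H25
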