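import Pool.Agent.MP_d99b12_co.H25.Spec
import Pool.Agent.MP_d99b12_co.H25.Piv
import Pool.Agent.MP_d99b12_co.H25.Comb

/-! # Row ANEM, part 1: windows as relations, the core condition, the structure `mk` -/

namespace Pool.Agent.MP_d99b12_co.H25

open Matrix

namespace ANEM

variable {F : Type} [Field F] {K P : Type} [Fintype K]

omit [Fintype K] in
lemma act_ext {f g : Act F K} (h1 : ∀ x, x ∈ f.rel ↔ x ∈ g.rel) (h2 : f.hid ↔ g.hid) : f = g := by
  obtain ⟨r, h⟩ := f
  obtain ⟨r', h'⟩ := g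
  obtain rfl : r = r' := Submodule.ext h1
  obtain rfl : h = h' := propext h2
  rfl

/-- Test by `X`, shift by `h`, add a vector of `W`. -/
def win (W : Submodule F (K → F)) (X : Set (K → F)) (h : Matrix K K F) : Act F K where
  rel :=
    { carrier := {x | (∀ ξ ∈ X, ξ ⬝ᵥ x.1 = 0) ∧ x.2.2 - x.2.1 - h *ᵥ x.1 ∈ W}
      add_mem' := by
        rintro a b ⟨h1, h2⟩ ⟨h3, h4⟩
        refine ⟨fun ξ hξ => by simp [h1 ξ hξ, h3 ξ hξ], ?_⟩
        have := W.add_mem h2 h4
        simp only [Prod.snd_add, Prod.fst_add, mulVec_add]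
        convert this using 1
        abel
      zero_mem' := by simp
      smul_mem' := by
        rintro c a ⟨h1, h2⟩
        refine ⟨fun ξ hξ => by simp [h1 ξ hξ], ?_⟩
        have := W.smul_mem c h2
        simp only [Prod.smul_snd, Prod.smul_fst, mulVec_smul]
        rwa [smul_sub, smul_sub] at this }
  hid := False

lemma mem_win {W : Submodule F (K → F)} {X : Set (K → F)} {h : Matrix K K F}
    {x : (K → F) × (K → F) × (K → F)} :
    x ∈ (win W X h).rel ↔ (∀ ξ ∈ X, ξ ⬝ᵥ x.1 = 0) ∧ x.2.2 - x.2.1 - h *ᵥ x.1 ∈ W := Iff.rfl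

lemma win_comp {W W' : Submodule F (K → F)} (hd : Disjoint W W') (X X' : Set (K → F))
    (h h' : Matrix K K F) : (win W X h).comp (win W' X' h') = win (W ⊔ W') (X ∪ X') (h + h') := by
  refine act_ext (fun x => ?_) ?_
  · change (∃ r', _ ∧ _) ↔ _
    simp only [mem_win]
    constructor
    · rintro ⟨r', ⟨a1, a2⟩, b1, b2⟩
      refine ⟨fun ξ hξ => hξ.elim (b1 ξ) (a1 ξ), ?_⟩
      have := Submodule.add_mem_sup b2 a2
      rw [add_mulVec]
      convert this using 1
      abel
    · rintro ⟨a1, a2⟩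
      obtain ⟨u, hu, v, hv, e⟩ := Submodule.mem_sup.1 a2
      refine ⟨x.2.1 + h' *ᵥ x.1 + v, ⟨fun ξ hξ => a1 ξ (Or.inr hξ), ?_⟩,
        fun ξ hξ => a1 ξ (Or.inl hξ), ?_⟩
      · convert hv using 1
        abel
      · rw [add_mulVec] at e
        convert hu using 1
        rw [eq_sub_of_add_eq e]
        abel
  · change (False ∨ False ∨ ∃ r', _ ∧ _ ∧ _) ↔ False
    simp only [mem_win, false_or, iff_false]
    rintro ⟨r', h0, ⟨-, a⟩, -, b⟩
    simp only [sub_zero, mulVec_zero, zero_sub, neg_mem_iff] at a b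
    exact h0 (Submodule.disjoint_def.1 hd r' b a)

lemma add_eq (W : Submodule F (K → F)) : Act.add W = win W ∅ 0 :=
  act_ext (fun x => by
    change x.2.2 - x.2.1 ∈ W ↔ _
    simp [mem_win]) Iff.rfl

lemma tf_eq (h : Matrix K K F) : Act.tf 0 h = win ⊥ ∅ h :=
  act_ext (fun x => by
    change x.2.2 = x.2.1 + h *ᵥ (x.1 + (0 : Matrix K K F) *ᵥ x.2.1) ↔ _
    simp only [mem_win, zero_mulVec, add_zero, Set.mem_empty_iff_false, false_imp_iff,
      implies_true, true_and, Submodule.mem_bot, sub_sub, sub_eq_zero]) Iff.rfl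

lemma test_eq (ξ : K → F) : Act.test 0 ξ = win ⊥ {ξ} 0 :=
  act_ext (fun x => by
    change (x.2.2 = x.2.1 ∧ ξ ⬝ᵥ (x.1 + (0 : Matrix K K F) *ᵥ x.2.1) = 0) ↔ _
    simp [mem_win, sub_eq_zero, and_comm]) Iff.rfl

variable [Fintype P]

lemma letter_row (y : P → K → F) (B : Matrix P P F) (X : Set P) :
    Act.letter 0 y B X ∅ = win ⊥ (y '' X) 0 := by
  refine act_ext (fun x => ?_) ?_
  · change (∃ u : P → F, _ ∧ _ ∧ _) ↔ _
    simp only [mem_win, Set.mem_empty_iff_false, not_false_eq_true, forall_const, zero_mulVec,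
      add_zero, sub_zero, Submodule.mem_bot, sub_eq_zero, Set.forall_mem_image]
    constructor
    · rintro ⟨u, h1, h2, h3⟩
      obtain rfl : u = 0 := funext h1
      exact ⟨fun p hp => by simpa using h2 p hp, by simpa using h3⟩
    · rintro ⟨h1, h2⟩
      exact ⟨0, fun _ => rfl, fun p hp => by simpa using h1 hp, by simpa using h2⟩
  · change (∃ u : P → F, _) ↔ False
    simp only [iff_false]
    rintro ⟨u, h0, h1, -⟩
    exact h0 (funext fun q => h1 q (by simp))

lemma letter_col (y : P → K → F) (B : Matrix P P F) {q : P} (hq : y q ≠ 0) :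
    Act.letter 0 y B ∅ {q} = win (Submodule.span F {y q}) ∅ 0 := by
  classical
  have key : ∀ u : P → F, (∀ p, p ∉ ({q} : Set P) → u p = 0) → ∑ p, u p • y p = u q • y q :=
    fun u h => Finset.sum_eq_single q (fun p _ hp => by rw [h p hp, zero_smul]) (by simp)
  refine act_ext (fun x => ?_) ?_
  · change (∃ u : P → F, _ ∧ _ ∧ _) ↔ _
    simp only [mem_win, Set.mem_empty_iff_false, false_imp_iff, implies_true, true_and,
      zero_mulVec, sub_zero, Submodule.mem_span_singleton]
    constructor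
    · rintro ⟨u, h1, h3⟩
      exact ⟨u q, by rw [h3, key u h1]; abel⟩
    · rintro ⟨t, ht⟩
      have h1 : ∀ p, p ∉ ({q} : Set P) → (Pi.single q t : P → F) p = 0 := fun p hp =>
        Pi.single_eq_of_ne hp _
      exact ⟨Pi.single q t, h1, by rw [key _ h1, Pi.single_eq_same, ht]; abel⟩
  · change (∃ u : P → F, _) ↔ False
    simp only [iff_false]
    rintro ⟨u, h0, h1, -, h3⟩
    rw [key u h1, smul_eq_zero] at h3
    refine h0 (funext fun p => ?_)
    by_cases hp : p = q
    · exact hp ▸ h3.resolve_right hq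
    · exact h1 p hp

section Blocks

variable (p : K → Prop) [DecidablePred p]

/-- Extension by zero. -/
def ext : ({k // p k} → F) →ₗ[F] K → F where
  toFun v k := if h : p k then v ⟨k, h⟩ else 0
  map_add' u v := by
    funext k
    by_cases h : p k <;> simp [h]
  map_smul' c v := by
    funext k
    by_cases h : p k <;> simp [h]

/-- Restriction. -/
def res : (K → F) →ₗ[F] {k // p k} → F := LinearMap.funLeft F F Subtype.val

omit [Fintype K] [DecidablePred p] in
@[simp] lemma res_apply (v : K → F) (k : {k // p k}) : res p v k = v k := rfl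

omit [Fintype K] in
lemma ext_apply (v : {k // p k} → F) (k : K) : ext p v k = if h : p k then v ⟨k, h⟩ else 0 := rfl

omit [Fintype K] in
@[simp] lemma res_ext (v : {k // p k} → F) : res p (ext p v) = v := by
  funext k
  simp [ext_apply, k.2]

omit [Fintype K] in
lemma ext_res {v : K → F} (h : ∀ k, ¬p k → v k = 0) : ext p (res p v) = v := by
  funext k
  by_cases hk : p k <;> simp [ext_apply, hk, h]

omit [Fintype K] in
lemma ext_inj : Function.Injective (ext (F := F) p) :=
  Function.LeftInverse.injective (res_ext p)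

lemma ext_dot (v : {k // p k} → F) (w : K → F) : ext p v ⬝ᵥ w = v ⬝ᵥ res p w := by
  simp only [dotProduct, res_apply]
  rw [← Fintype.sum_subtype_add_sum_subtype p, Finset.sum_eq_zero (s := Finset.univ)
    (f := fun k : {k // ¬p k} => ext p v k * w k) fun k _ => by simp [ext_apply, k.2], add_zero]
  exact Finset.sum_congr rfl fun k _ => by simp [ext_apply, k.2]

lemma mulVec_ext {I : Type} (M : Matrix I K F) (v : {k // p k} → F) :
    M *ᵥ ext p v = M.submatrix id Subtype.val *ᵥ v := by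
  funext i
  change M i ⬝ᵥ ext p v = _
  rw [dotProduct_comm, ext_dot, dotProduct_comm]
  rfl

end Blocks

/-- The block of `h` with rows of colour `c` and the other columns. -/
def blk (col : K → Bool) (c : Bool) (h : Matrix K K F) :
    Matrix {k // col k = c} {k // ¬col k = c} F := h.submatrix Subtype.val Subtype.val

lemma bip_mulVec {col : K → Bool} {c : Bool} {h : Matrix K K F} (hb : Bip col h)
    (w : {k // ¬col k = c} → F) :
    h *ᵥ ext (fun k => ¬col k = c) w = ext (fun k => col k = c) (blk col c h *ᵥ w) := by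
  rw [mulVec_ext]
  funext k
  rw [ext_apply]
  split_ifs with hk
  · rfl
  · refine Finset.sum_eq_zero fun j _ => ?_
    have : h k j = 0 := hb _ _ (by
      have := j.2
      revert hk this
      cases col k <;> cases col j <;> cases c <;> simp)
    simp [this]

lemma core (s : Sys F K) (c : Bool) : ∃ (D0 : Matrix {k // s.colK k = c} {k // ¬s.colK k = c} F)
    (XK YK : Set K), ∀ ω r : K → F, ((∀ k, k ∉ YK → (ω + s.Ubᵀ *ᵥ r) k = 0) ∧
      ∀ k ∈ XK, (r - s.D *ᵥ (ω + s.Ubᵀ *ᵥ r)) k = 0) ↔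
      ∃ w, ω = ext (fun k => ¬s.colK k = c) w ∧ r = -ext (fun k => s.colK k = c) (D0 *ᵥ w) := by
  classical
  let pI : K → Prop := fun k => s.colK k = c
  let pJ : K → Prop := fun k => ¬s.colK k = c
  have bU : Bip s.colK s.Ubᵀ := fun u v h => s.bipU v u h.symm
  let U : Matrix {k // pJ k} {k // pI k} F := s.Ubᵀ.submatrix Subtype.val Subtype.val
  let D := blk s.colK c s.D
  have hU : ∀ v, s.Ubᵀ *ᵥ ext pI v = ext pJ (U *ᵥ v) := by
    intro v
    rw [mulVec_ext]
    funext k
    rw [ext_apply]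
    split_ifs with hk
    · rfl
    · refine Finset.sum_eq_zero fun j _ => ?_
      have : s.Ubᵀ k j = 0 := bU _ _ ((not_not.1 hk).trans j.2.symm)
      simp only [submatrix_apply, id, this, zero_mul]
  let G : Matrix ({k // pI k} ⊕ {k // pJ k}) {k // pI k} F := fromRows (1 - D * U) U
  let N : Matrix ({k // pI k} ⊕ {k // pJ k}) {k // pJ k} F := fromRows D (-1)
  obtain ⟨C, hC⟩ := exists_cols (F := F) (K := {k // pI k}) (fun q => G q) (fun x hx => by
    have h2 : U *ᵥ x = 0 := funext fun j => by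
      rw [Pi.zero_apply, ← hx (Sum.inr j), dotProduct_comm]
      rfl
    have h1 : (1 - D * U) *ᵥ x = 0 := funext fun j => by
      rw [Pi.zero_apply, ← hx (Sum.inl j), dotProduct_comm]
      rfl
    rwa [sub_mulVec, ← mulVec_mulVec, h2, mulVec_zero, sub_zero, one_mulVec] at h1)
  let M := G.submatrix C id
  have hM : IsUnit M.det := by
    rw [← isUnit_iff_isUnit_det, ← vecMul_injective_iff_isUnit]
    refine (injective_iff_map_eq_zero M.vecMulLinear).2 fun u hu => hC u ?_
    rw [← hu, vecMulLinear_apply, vecMul_eq_sum]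
    rfl
  have solve : ∀ v w, M *ᵥ v = N.submatrix C id *ᵥ w ↔
      v = -((-(M⁻¹ * N.submatrix C id)) *ᵥ w) := by
    intro v w
    rw [neg_mulVec, neg_neg, ← mulVec_mulVec]
    constructor
    · intro h
      rw [← h, mulVec_mulVec, nonsing_inv_mul _ hM, one_mulVec]
    · intro h
      rw [h, mulVec_mulVec, mul_nonsing_inv _ hM, one_mulVec]
  have cond : ∀ v w, ((∀ k, k ∉ {k | ∃ h : pJ k, Sum.inr ⟨k, h⟩ ∉ Set.range C} →
      (ext pJ w + s.Ubᵀ *ᵥ ext pI v) k = 0) ∧
      ∀ k ∈ {k | ∀ h : pI k, Sum.inl ⟨k, h⟩ ∈ Set.range C},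
        (ext pI v - s.D *ᵥ (ext pJ w + s.Ubᵀ *ᵥ ext pI v)) k = 0) ↔
      M *ᵥ v = N.submatrix C id *ᵥ w := by
    intro v w
    rw [hU, ← map_add, bip_mulVec s.bipD, ← map_sub]
    have eI : ∀ i, (G *ᵥ v) (Sum.inl i) = (N *ᵥ w) (Sum.inl i) ↔
        (v - D *ᵥ (w + U *ᵥ v)) i = 0 := by
      intro i
      simp only [G, N, fromRows_mulVec, Sum.elim_inl, sub_mulVec, one_mulVec, ← mulVec_mulVec,
        mulVec_add, Pi.sub_apply, Pi.add_apply]
      constructor <;> intro h <;> linear_combination h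
    have eJ : ∀ j, (G *ᵥ v) (Sum.inr j) = (N *ᵥ w) (Sum.inr j) ↔ (w + U *ᵥ v) j = 0 := by
      intro j
      simp only [G, N, fromRows_mulVec, Sum.elim_inr, neg_mulVec, one_mulVec, Pi.add_apply,
        Pi.neg_apply]
      constructor <;> intro h <;> linear_combination h
    have eM : M *ᵥ v = N.submatrix C id *ᵥ w ↔ ∀ q ∈ Set.range C, (G *ᵥ v) q = (N *ᵥ w) q := by
      rw [funext_iff, Set.forall_mem_range]
      rfl
    rw [eM]
    constructor
    · rintro ⟨h1, h2⟩ (i | j) hq
      · have := h2 i fun _ => hq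
        rw [ext_apply, dif_pos i.2] at this
        exact (eI i).2 this
      · have := h1 j fun ⟨_, h⟩ => h hq
        rw [ext_apply, dif_pos j.2] at this
        exact (eJ j).2 this
    · intro h
      refine ⟨fun k hk => ?_, fun k hk => ?_⟩ <;> rw [ext_apply] <;> split_ifs with hp
      · exact (eJ _).1 (h _ (by_contra fun hn => hk ⟨hp, hn⟩))
      · rfl
      · exact (eI _).1 (h _ (hk hp))
      · rfl
  refine ⟨-(M⁻¹ * N.submatrix C id), {k | ∀ h : pI k, Sum.inl ⟨k, h⟩ ∈ Set.range C},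
    {k | ∃ h : pJ k, Sum.inr ⟨k, h⟩ ∉ Set.range C}, fun ω r => ⟨fun h => ?_, ?_⟩⟩
  · have vI : ω + s.Ubᵀ *ᵥ r = ext pJ (res pJ (ω + s.Ubᵀ *ᵥ r)) :=
      (ext_res pJ fun k hk => h.1 k fun ⟨h', _⟩ => hk h').symm
    have rJ : r = ext pI (res pI r) := by
      refine (ext_res pI fun k hk => ?_).symm
      have := h.2 k fun h' => absurd h' hk
      rw [vI, bip_mulVec s.bipD, Pi.sub_apply, ext_apply, dif_neg hk] at this
      simpa using this
    have wI : ω = ext pJ (res pJ ω) := by
      refine (ext_res pJ fun k hk => ?_).symm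
      have := h.1 k fun ⟨h', _⟩ => hk h'
      rw [rJ, hU, Pi.add_apply, ext_apply, dif_neg hk] at this
      simpa using this
    refine ⟨res pJ ω, wI, ?_⟩
    rw [wI, rJ] at h
    rw [rJ, (solve _ _).1 ((cond _ _).1 h), map_neg]
  · rintro ⟨w, rfl, rfl⟩
    rw [← map_neg]
    exact (cond _ _).2 ((solve _ _).2 rfl)

end ANEM

end Pool.Agent.MP_d99b12_co.H25
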