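import Pool.Agent.MP_d99b12_co.H25.ANEM1

/-! # Row ANEM, part 2: the structure, windows, shifts from paths, growth of a tree -/

namespace Pool.Agent.MP_d99b12_co.H25

open Matrix

namespace ANEM

variable {F : Type} [Field F] [Fintype F] {K P : Type} [Fintype K]

/-- Bipartite shifts realised by words. -/
def HK (s : Sys F K) : AddSubgroup (Matrix K K F) where
  carrier := {h | Bip s.colK h ∧ win ⊥ ∅ h ∈ s.𝒜}
  add_mem' := by
    rintro a b ⟨a1, a2⟩ ⟨b1, b2⟩
    refine ⟨fun u v h => by simp [a1 u v h, b1 u v h], ?_⟩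
    simpa [win_comp] using s.comp_mem _ a2 _ b2
  zero_mem' := ⟨fun _ _ _ => rfl, add_eq (F := F) (K := K) ⊥ ▸ s.one_mem⟩
  neg_mem' := by
    rintro a ⟨a1, a2⟩
    refine ⟨fun u v h => by simp [a1 u v h], ?_⟩
    have key : ∀ n : ℕ, win ⊥ ∅ (n • a) ∈ s.𝒜 := by
      intro n
      induction n with
      | zero => simpa using add_eq (F := F) (K := K) ⊥ ▸ s.one_mem
      | succ n ih => simpa [win_comp, succ_nsmul] using s.comp_mem _ ih _ a2
    have : Finite (Matrix K K F) := inferInstanceAs (Finite (K → K → F))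
    have e : -a = (addOrderOf a - 1) • a := by
      rw [neg_eq_iff_add_eq_zero, ← succ_nsmul', Nat.sub_add_cancel (addOrderOf_pos a),
        addOrderOf_nsmul_eq_zero]
    exact e ▸ key _

/-- `blk` as an additive map. -/
def blkHom (col : K → Bool) (c : Bool) :
    Matrix K K F →+ Matrix {k // col k = c} {k // ¬col k = c} F where
  toFun := blk col c
  map_zero' := rfl
  map_add' _ _ := rfl

/-- The end game attached to a system. -/
def mk (s : Sys F K) (c : Bool) (D0 : Matrix {k // s.colK k = c} {k // ¬s.colK k = c} F) :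
    Anem F {k // s.colK k = c} {k // ¬s.colK k = c} where
  D := D0
  H := (HK s).map (blkHom s.colK c)
  𝒴 := {v | win (Submodule.span F {ext (fun k => s.colK k = c) v}) ∅ 0 ∈ s.𝒜}
  𝒳 := {ξ | win ⊥ {ext (fun k => ¬s.colK k = c) ξ} 0 ∈ s.𝒜}

variable {s : Sys F K} {c : Bool} {D0 : Matrix {k // s.colK k = c} {k // ¬s.colK k = c} F}

lemma mem_Y_iff {v} : v ∈ (mk s c D0).𝒴 ↔
    win (Submodule.span F {ext (fun k => s.colK k = c) v}) ∅ 0 ∈ s.𝒜 := Iff.rfl

lemma mem_X_iff {v} : v ∈ (mk s c D0).𝒳 ↔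
    win ⊥ {ext (fun k => ¬s.colK k = c) v} 0 ∈ s.𝒜 := Iff.rfl

lemma smul_mem_Y {v} (hv : v ∈ (mk s c D0).𝒴) {t : F} (ht : t ≠ 0) : t • v ∈ (mk s c D0).𝒴 := by
  rw [mem_Y_iff, map_smul, Submodule.span_singleton_smul_eq ht.isUnit]
  exact hv

lemma win_mem {Y0 X0} (hY : Y0 ⊆ (mk s c D0).𝒴) (hX : X0 ⊆ (mk s c D0).𝒳) {h : Matrix K K F}
    (hh : h ∈ HK s) : win (Submodule.span F (ext (fun k => s.colK k = c) '' Y0))
      (ext (fun k => ¬s.colK k = c) '' X0) h ∈ s.𝒜 := by
  have a : win (Submodule.span F (ext (fun k => s.colK k = c) '' Y0)) ∅ h ∈ s.𝒜 := by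
    induction Y0, Y0.toFinite using Set.Finite.induction_on with
    | empty => simpa using hh.2
    | @insert v Y0 _ _ ih =>
      have ih := ih fun _ h => hY (Or.inr h)
      rw [Set.image_insert_eq]
      by_cases hv : ext (fun k => s.colK k = c) v ∈
          Submodule.span F (ext (fun k => s.colK k = c) '' Y0)
      · rwa [Submodule.span_insert_eq_span hv]
      · have := s.comp_mem _ (hY (Set.mem_insert _ _)) _ ih
        rw [win_comp (Submodule.disjoint_span_singleton_of_notMem hv).symm] at this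
        rw [Submodule.span_insert]
        simpa using this
  induction X0, X0.toFinite using Set.Finite.induction_on with
  | empty => simpa using a
  | @insert v X0 _ _ ih =>
    have := s.comp_mem _ (hX (Set.mem_insert _ _)) _ (ih fun _ h => hX (Or.inr h))
    rw [win_comp disjoint_bot_left] at this
    rw [Set.image_insert_eq]
    simpa using this

/-- The core condition in solved form. -/
def Core (s : Sys F K) (c : Bool) (D0 : Matrix {k // s.colK k = c} {k // ¬s.colK k = c} F)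
    (XK YK : Set K) : Prop := ∀ ω r : K → F, ((∀ k, k ∉ YK → (ω + s.Ubᵀ *ᵥ r) k = 0) ∧
      ∀ k ∈ XK, (r - s.D *ᵥ (ω + s.Ubᵀ *ᵥ r)) k = 0) ↔
      ∃ w, ω = ext (fun k => ¬s.colK k = c) w ∧ r = -ext (fun k => s.colK k = c) (D0 *ᵥ w)

omit [Fintype F] in
lemma cfg_win {XK YK : Set K} (hc : Core s c D0 XK YK) (Y0 X0) {h : Matrix K K F}
    (hb : Bip s.colK h) : cfg s.D s.Ub XK YK (win (Submodule.span F
      (ext (fun k => s.colK k = c) '' Y0)) (ext (fun k => ¬s.colK k = c) '' X0) h) ↔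
      Sing (D0 + blk s.colK c h) Y0 X0 := by
  have key : ∀ w, (ext (fun k => ¬s.colK k = c) w, (0 : K → F),
      -ext (fun k => s.colK k = c) (D0 *ᵥ w)) ∈ (win (Submodule.span F
      (ext (fun k => s.colK k = c) '' Y0)) (ext (fun k => ¬s.colK k = c) '' X0) h).rel ↔
      (∀ ξ ∈ X0, ξ ⬝ᵥ w = 0) ∧ (D0 + blk s.colK c h) *ᵥ w ∈ Submodule.span F Y0 := by
    intro w
    rw [mem_win, Set.forall_mem_image]
    simp only [ext_dot, res_ext, sub_zero]
    rw [bip_mulVec hb, ← neg_add', ← map_add, neg_mem_iff, ← Submodule.map_span, add_mulVec,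
      Submodule.mem_map]
    refine and_congr Iff.rfl ⟨?_, fun h => ⟨_, h, rfl⟩⟩
    rintro ⟨u, hu, e⟩
    exact ext_inj _ e ▸ hu
  constructor
  · rintro (h | ⟨ω, r, h0, hr, hk⟩)
    · exact h.elim
    obtain ⟨w, rfl, rfl⟩ := (hc ω r).1 hk
    refine ⟨w, ?_, (key w).1 hr⟩
    rintro rfl
    simp at h0
  · rintro ⟨w, h0, hw⟩
    exact Or.inr ⟨_, _, Or.inl fun e => h0 (ext_inj _ (e.trans (map_zero _).symm)), (key w).2 hw,
      (hc _ _).2 ⟨w, rfl, rfl⟩⟩

variable [Fintype P] {col : P → Bool} {y : P → K → F} {B Bs : Matrix P P F} {ε : Matrix K K F}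

lemma ok_of_disp {XK YK : Set K} (hc : Core s c D0 XK YK) (h : Disp s col y B Bs ε)
    (hδ : s.δ = 0) : (mk s c D0).Ok (blk s.colK c ε) := by
  rintro Y0 hY X0 hX _ ⟨g, hg, rfl⟩
  have := h.good0 ∅ ∅ _ (win_mem hY hX hg) XK YK
  rw [hδ, letter_row, letter_row, Act.shift, tf_eq, win_comp disjoint_bot_left,
    win_comp disjoint_bot_right, win_comp (by simp)] at this
  simp only [sup_bot_eq, Set.image_empty, Set.union_empty, add_zero] at this
  rw [cfg_win hc _ _ hg.1, cfg_win hc _ _ (fun u v e => by simp [hg.1 u v e, h.bipe u v e])] at this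
  rw [add_assoc]
  exact this

omit [Fintype F] in
lemma skew (h : SDisp s col y B) (hδ : s.δ = 0) (p q : P) : B q p = -B p q := by
  have := h.compat p q
  rw [hδ, zero_mulVec, dotProduct_zero] at this
  linear_combination this

omit [Fintype F] in
lemma col_ne (h : SDisp s col y B) {p q : P} (e : B p q ≠ 0) : col p ≠ col q :=
  fun hc => e (h.bip _ _ hc)

omit [Fintype F] in
lemma col_supp (h : SDisp s col y B) {p : P} (hp : ¬col p = c) (k : K) (hk : ¬s.colK k = c) :
    y p k = 0 := h.ycol p k (by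
  revert hp hk
  cases col p <;> cases s.colK k <;> cases c <;> simp)

omit [Fintype F] in
lemma row_supp (h : SDisp s col y B) {p : P} (hp : col p = c) (k : K) (hk : s.colK k = c) :
    y p k = 0 := h.ycol p k (hp.trans hk.symm)

lemma mem_Y (h : SDisp s col y B) (hδ : s.δ = 0) (p : P) :
    res (fun k => s.colK k = c) (y p) ∈ (mk s c D0).𝒴 := by
  rw [mem_Y_iff]
  by_cases h0 : res (fun k => s.colK k = c) (y p) = 0
  · rw [h0, map_zero, Submodule.span_zero_singleton]
    exact (HK s).zero_mem.2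
  have hp : ¬col p = c := fun hp => h0 (funext fun k => row_supp h hp k k.2)
  rw [ext_res _ (col_supp h hp), ← letter_col y B (fun e => h0 (by rw [e, map_zero])), ← hδ]
  exact h.mem _ _

lemma mem_X (h : SDisp s col y B) (hδ : s.δ = 0) (p : P) :
    res (fun k => ¬s.colK k = c) (y p) ∈ (mk s c D0).𝒳 := by
  rw [mem_X_iff]
  by_cases hp : col p = c
  · rw [ext_res _ fun k hk => row_supp h hp k (not_not.1 hk), ← Set.image_singleton,
      ← letter_row y B, ← hδ]
    exact h.mem _ _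
  · have : res (fun k => ¬s.colK k = c) (y p) = 0 := funext fun k => col_supp h hp k k.2
    rw [this, map_zero]
    convert (HK s).zero_mem.2 using 1
    exact act_ext (fun x => by simp [mem_win]) Iff.rfl

omit [Fintype F] in
lemma span_res (h : SDisp s col y B) (p : K → Prop) [DecidablePred p] :
    Submodule.span F (Set.range fun q => res p (y q)) = ⊤ := by
  have := congrArg (Submodule.map (res (F := F) p)) (span_eq_top_of_perp y h.span)
  rw [Submodule.map_span, ← Set.range_comp, Submodule.map_top,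
    LinearMap.range_eq_top.2 fun v => ⟨_, res_ext p v⟩] at this
  exact this

/-- The skew matrix of a pair of vectors. -/
def wedge (u v : K → F) : Matrix K K F := vecMulVec v u - vecMulVec u v

omit [Fintype F] [Fintype K] [Fintype P] in
lemma rePhi_eq {a b : P} (h : B b a = -B a b) :
    rePhi y B a b = -(B a b)⁻¹ • wedge (y a) (y b) := by
  rw [rePhi, wedge, h, inv_neg, smul_sub]

omit [Fintype F] in
lemma bip_wedge (h : SDisp s col y B) {a b : P} (e : col a ≠ col b) :
    Bip s.colK (wedge (y a) (y b)) := by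
  intro u v huv
  simp only [wedge, Matrix.sub_apply, vecMulVec_apply]
  by_cases h1 : col a = s.colK u
  · rw [h.ycol a u h1, h.ycol a v (h1.trans huv)]
    simp
  · have h2 : col b = s.colK u := by
      revert e h1
      cases col a <;> cases col b <;> cases s.colK u <;> simp
    rw [h.ycol b u h2, h.ycol b v (h2.trans huv)]
    simp

omit [Fintype F] in
lemma blk_wedge (h : SDisp s col y B) {a : P} (ha : col a = c) (v : K → F) :
    blk s.colK c (wedge (y a) v) =
      vecMulVec (res (fun k => s.colK k = c) v) (res (fun k => ¬s.colK k = c) (y a)) := by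
  ext i j
  simp [blk, wedge, vecMulVec_apply, row_supp h ha i i.2]

lemma edge_mem (hS : SREB F) (h : SDisp s col y B) (hδ : s.δ = 0) {a b : P} (e : B a b ≠ 0) :
    -(B a b)⁻¹ • wedge (y a) (y b) ∈ HK s := by
  have := (hS K P s col y B a b h e (by rw [skew h hδ a b]; exact neg_ne_zero.2 e)).2.1
  rw [hδ, tf_eq, rePhi_eq (skew h hδ a b)] at this
  exact ⟨fun u v huv => by simp [bip_wedge h (col_ne h e) u v huv], this⟩

omit [Fintype F] [Fintype K] [Fintype P] in
lemma reY_other {a b p : P} (h1 : p ≠ a) (h2 : p ≠ b) :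
    reY y B a b p = y p - (B p b / B a b) • y a - (B p a / B b a) • y b := by
  simp [reY, h1, h2]

lemma lam_path (hS : SREB F) (hδ : s.δ = 0) (l : ℕ) : ∀ t : ℕ → F, ∃ κ : F, κ ≠ 0 ∧
    ∀ (col : P → Bool) (y : P → K → F) (B : Matrix P P F) (z : ℕ → P), SDisp s col y B →
      (∀ i < 2 * l + 1, B (z i) (z (i + 1)) = t i ∧ t i ≠ 0) →
      (∀ i j, i + 2 ≤ j → j ≤ 2 * l + 1 → B (z i) (z j) = 0 ∧ z i ≠ z j) →
      κ • wedge (y (z 0)) (y (z (2 * l + 1))) ∈ HK s := by
  induction l with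
  | zero =>
    intro t
    by_cases h0 : t 0 = 0
    · exact ⟨1, one_ne_zero, fun _ _ _ _ _ h _ => ((h 0 (by omega)).2 h0).elim⟩
    refine ⟨-(t 0)⁻¹, by simpa using h0, fun col y B z h h1 _ => ?_⟩
    rw [← (h1 0 (by omega)).1]
    exact edge_mem hS h hδ ((h1 0 (by omega)).1 ▸ h0)
  | succ l ih =>
    intro t
    obtain ⟨κ, hκ, ih⟩ := ih fun i => t (i + 2)
    by_cases h0 : t 0 = 0 ∨ t 1 = 0
    · exact ⟨1, one_ne_zero, fun _ _ _ _ _ h _ =>
        (h0.elim (h 0 (by omega)).2 (h 1 (by omega)).2).elim⟩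
    rw [not_or] at h0
    refine ⟨κ * (-t 1 / t 0), mul_ne_zero hκ (div_ne_zero (neg_ne_zero.2 h0.2) h0.1),
      fun col y B z h h1 h2 => ?_⟩
    have e0 := (h1 0 (by omega)).1
    have e1 := (h1 1 (by omega)).1
    have n0 : B (z 0) (z 1) ≠ 0 := e0 ▸ h0.1
    have n0' : B (z 1) (z 0) ≠ 0 := by rw [skew h hδ]; exact neg_ne_zero.2 n0
    have h' := (hS K P s col y B (z 0) (z 1) h n0 n0').1
    have ne0 : ∀ i, i + 2 ≤ 2 * (l + 1) + 1 → z (i + 2) ≠ z 0 := fun i hi =>
      (h2 0 (i + 2) (by omega) hi).2.symm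
    have ne1 : ∀ i, i + 2 ≤ 2 * (l + 1) + 1 → z (i + 2) ≠ z 1 := by
      intro i hi e
      rcases Nat.eq_zero_or_pos i with rfl | hp
      · exact h0.2 (e1 ▸ h.bip _ _ (congrArg col e.symm))
      · exact (h2 1 (i + 2) (by omega) hi).2 e.symm
    have z0 : ∀ i, i + 2 ≤ 2 * (l + 1) + 1 → B (z 0) (z (i + 2)) = 0 := fun i hi =>
      (h2 0 (i + 2) (by omega) hi).1
    have z0' : ∀ i, i + 2 ≤ 2 * (l + 1) + 1 → B (z (i + 2)) (z 0) = 0 := fun i hi => by
      rw [skew h hδ, z0 i hi, neg_zero]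
    have same : ∀ i j, i + 2 ≤ 2 * (l + 1) + 1 → j + 2 ≤ 2 * (l + 1) + 1 →
        epiv B (z 0) (z 1) (z (i + 2)) (z (j + 2)) = B (z (i + 2)) (z (j + 2)) := by
      intro i j hi hj
      rw [epiv_uv B (ne0 i hi) (ne1 i hi) (ne0 j hj) (ne1 j hj), z0 j hj, z0' i hi]
      simp
    have a1 := ih col y B (fun i => z (i + 2)) h (fun i hi => h1 (i + 2) (by omega))
      (fun i j hi hj => h2 (i + 2) (j + 2) (by omega) (by omega))
    have a2 := ih _ _ _ (fun i => z (i + 2)) h'
      (fun i hi => by rw [same i (i + 1) (by omega) (by omega)]; exact h1 (i + 2) (by omega))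
      (fun i j hi hj => by
        rw [same i j (by omega) (by omega)]; exact h2 (i + 2) (j + 2) (by omega) (by omega))
    rw [reY_other (ne0 0 (by omega)) (ne1 0 (by omega)),
      reY_other (ne0 (2 * l + 1) (by omega)) (ne1 (2 * l + 1) (by omega)), z0' 0 (by omega),
      z0' (2 * l + 1) (by omega), skew h hδ (z 1) (z (2 * l + 1 + 2)),
      (h2 1 (2 * l + 1 + 2) (by omega) (by omega)).1, skew h hδ (z 1) (z (0 + 2)), e0] at a2
    have := (HK s).sub_mem a1 a2
    rw [show B (z 1) (z (0 + 2)) = t 1 from e1] at this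
    convert this using 1
    ext i j
    simp only [wedge, Matrix.smul_apply, Matrix.sub_apply, vecMulVec_apply, smul_eq_mul, Pi.sub_apply,
      Pi.smul_apply, show 2 * (l + 1) + 1 = 2 * l + 1 + 2 by ring]
    ring

omit [Fintype F] in
lemma exists_sWalk (h : SDisp s col y B) {A A' : Set P} (hA : A.Nonempty) (hA' : A'.Nonempty)
    (hδ : s.δ = 0) : ∃ l z, SWalk (fun u v => B u v ≠ 0) A A' l z := by
  rcases exists_sWalk_or_closed (fun u v => B u v ≠ 0) A A' with h1 | ⟨X, h1, h2, h3⟩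
  · exact h1
  rcases h.conn X (fun p hp q hq => ⟨not_not.1 (h3 p hp q hq), by
    rw [skew h hδ, not_not.1 (h3 p hp q hq), neg_zero]⟩) with rfl | rfl
  · exact (h1 hA.some_mem).elim
  · exact (Set.disjoint_left.1 h2 (Set.mem_univ _) hA'.some_mem).elim

omit [Fintype F] in
lemma walk_col (h : SDisp s col y B) {A A' : Set P} {l : ℕ} {z : ℕ → P}
    (hw : Walk (fun u v => B u v ≠ 0) A A' l z) (i : ℕ) (hi : i ≤ l) :
    col (z i) = col (z 0) ↔ Even i := by
  induction i with
  | zero => simp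
  | succ i ih =>
    have := col_ne h (hw.step i (by omega))
    rw [Nat.even_add_one, ← ih (by omega)]
    revert this
    cases col (z i) <;> cases col (z (i + 1)) <;> cases col (z 0) <;> simp

lemma lam (hS : SREB F) (h : SDisp s col y B) (hδ : s.δ = 0) {a b : P} (e : col a ≠ col b) :
    ∃ κ : F, κ ≠ 0 ∧ κ • wedge (y a) (y b) ∈ HK s := by
  obtain ⟨l, z, hw⟩ := exists_sWalk h (Set.singleton_nonempty a) (Set.singleton_nonempty b) hδ
  obtain rfl : z 0 = a := hw.start
  obtain rfl : z l = b := hw.stop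
  obtain ⟨l, rfl⟩ : Odd l := Nat.not_even_iff_odd.1 fun he =>
    e ((walk_col h hw.toWalk l le_rfl).2 he).symm
  obtain ⟨κ, hκ, hk⟩ := lam_path (P := P) hS hδ l fun i => B (z i) (z (i + 1))
  exact ⟨κ, hκ, hk col y B z h (fun i hi => ⟨rfl, hw.step i hi⟩) fun i j hi hj =>
    ⟨not_not.1 (hw.chord hi hj), fun e => by have := hw.inj (by omega) hj e; omega⟩⟩

omit [Fintype F] in
lemma grow_aux (hS : SREB F) (hδ : s.δ = 0) (Jc : Set P) (D1 : Submodule F (K → F))
    (hD : ∀ x : K → F, (∀ k, s.colK k = c → x k = 0) → x ∈ D1) (n : ℕ) :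
    ∀ (col : P → Bool) (y : P → K → F) (B : Matrix P P F) (l : ℕ) (z : ℕ → P), l ≤ n →
      SDisp s col y B → (∀ x ∈ Jc, ¬col x = c ∧ y x ∈ D1) →
      Walk (fun u v => B u v ≠ 0) Jc {p | y p ∉ D1} l z →
      ∃ (col' : P → Bool) (y' : P → K → F) (B' : Matrix P P F), SDisp s col' y' B' ∧
        (∀ x ∈ Jc, col' x = col x ∧ y' x = y x) ∧
        ∃ x ∈ Jc, ∃ w b, y' b ∉ D1 ∧ B' w x ≠ 0 ∧ B' w b ≠ 0 := by
  induction n with
  | zero =>
    intro col y B l z hl _ hJ hw
    obtain rfl : l = 0 := by omega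
    exact (hw.stop (hJ _ hw.start).2).elim
  | succ n ih =>
    intro col y B l0 z0 hl0 h hJ hw0
    obtain ⟨l, z, hl, hw⟩ := hw0.exists_sWalk
    have hc : ¬col (z l) = c := fun e => hw.stop (hD _ (row_supp h e))
    have ev : Even l := (walk_col h hw.toWalk l le_rfl).1 (by
      have := (hJ _ hw.start).1
      revert hc this
      cases col (z l) <;> cases col (z 0) <;> cases c <;> simp)
    obtain ⟨m, rfl⟩ := ev
    rcases m with _ | _ | m
    · exact (hw.stop (hJ _ hw.start).2).elim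
    · refine ⟨col, y, B, h, fun _ _ => ⟨rfl, rfl⟩, z 0, hw.start, z 1, z 2, hw.stop, ?_,
        hw.step 1 (by omega)⟩
      rw [skew h hδ]
      exact neg_ne_zero.2 (hw.step 0 (by omega))
    obtain ⟨k, hk⟩ : ∃ k, m + 1 + 1 + (m + 1 + 1) = k + 2 := ⟨2 * m + 2, by ring⟩
    have k2 : 2 ≤ k := by omega
    rw [hk] at hw hl
    have n0 : B (z (k + 1)) (z (k + 2)) ≠ 0 := hw.step _ (by omega)
    have n0' : B (z (k + 2)) (z (k + 1)) ≠ 0 := by rw [skew h hδ]; exact neg_ne_zero.2 n0
    have h' := (hS K P s col y B _ _ h n0 n0').1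
    have j1 : ∀ x ∈ Jc, x ≠ z (k + 1) := fun x hx e =>
      hw.notMem_start (i := k + 1) (by omega) (by omega) (e ▸ hx)
    have j2 : ∀ x ∈ Jc, x ≠ z (k + 2) := fun x hx e =>
      hw.notMem_start (i := k + 2) (by omega) (by omega) (e ▸ hx)
    have keep : ∀ x ∈ Jc, colFlip col {z (k + 1), z (k + 2)} x = col x ∧
        reY y B (z (k + 1)) (z (k + 2)) x = y x := by
      intro x hx
      refine ⟨colFlip_of_notMem _ (by simp [j1 x hx, j2 x hx]), ?_⟩
      rw [reY_other (j1 x hx) (j2 x hx), not_not.1 (hw.chord_start hx (j := k + 1) (by omega)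
        (by omega)), not_not.1 (hw.chord_start hx (j := k + 2) (by omega) (by omega))]
      simp
    have i1 : ∀ i ≤ k, z i ≠ z (k + 1) := fun i hi e => by
      have := hw.inj (by omega) (by omega) e
      omega
    have i2 : ∀ i ≤ k, z i ≠ z (k + 2) := fun i hi e => by
      have := hw.inj (by omega) (by omega) e
      omega
    have c2 : ∀ i ≤ k, B (z i) (z (k + 2)) = 0 := fun i hi =>
      not_not.1 (hw.chord (by omega) le_rfl)
    obtain ⟨col', y', B', a1, a2, a3⟩ := ih _ _ _ k z (by omega) h'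
      (fun x hx => by rw [(keep x hx).1, (keep x hx).2]; exact hJ x hx)
      ⟨hw.start, by
        intro hm
        rw [reY_other (i1 k le_rfl) (i2 k le_rfl), c2 k le_rfl] at hm
        have hk' : y (z k) ∈ D1 := not_not.1 (hw.notMem_stop (i := k) (by omega))
        simp only [zero_div, zero_smul, sub_zero] at hm
        have := D1.sub_mem hk' hm
        rw [sub_sub_cancel, D1.smul_mem_iff (div_ne_zero (hw.step k (by omega)) n0')] at this
        exact hw.stop this, fun i hi => by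
        rw [epiv_uv B (i1 i (by omega)) (i2 i (by omega)) (i1 _ hi) (i2 _ hi), c2 i (by omega),
          skew h hδ (z (i + 1)) (z (k + 2)), c2 _ hi]
        simpa using hw.step i (by omega)⟩
    exact ⟨col', y', B', a1, fun x hx => ⟨(a2 x hx).1.trans (keep x hx).1,
      (a2 x hx).2.trans (keep x hx).2⟩, a3⟩

end ANEM

end Pool.Agent.MP_d99b12_co.H25
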