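import Pool.Agent.MP_d99b12_co.H25.Piv
import Pool.Agent.MP_d99b12_co.H25.Comb

/-! # Basic facts on data and chains -/

namespace Pool.Agent.MP_d99b12_co.H25

open Matrix Sum

variable {F : Type} [Field F] {E K P K' P' : Type}

instance [Finite F] [Finite K] [Finite P] : Finite (Datum F K P) :=
  Finite.of_injective
    (fun d : Datum F K P => ((d.colK, d.colP, d.D, d.V, d.A, d.U, d.As) :
      (K → Bool) × (P → Bool) × (K → K → F) × (K → P → F) × (P → P → F) × (P → P → F) ×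
        (P → P → F)))
    (by
      rintro ⟨a1, a2, a3, a4, a5, a6, a7⟩ ⟨b1, b2, b3, b4, b5, b6, b7⟩ h
      simp only [Prod.mk.injEq] at h
      obtain ⟨rfl, rfl, rfl, rfl, rfl, rfl, rfl⟩ := h
      rfl)

section Entries

variable {n : ℕ} {d : Datum F K P} {col : E → Bool} {S : Fin (n + 1) → Matrix E E F} {kk : K → E}
  {pp : Fin n → P → E}

lemma IsChain.entry (h : IsChain d col S kk pp) (i) : ∃ A', d.Diag i A' ∧
    ∀ u v, S i (emb kk pp u) (emb kk pp v) = d.big A' u v := by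
  obtain ⟨A', hd, e⟩ := h.sub i
  exact ⟨A', hd, fun u v => congrFun (congrFun e u) v⟩

lemma IsChain.kk_kk (h : IsChain d col S kk pp) (i) (k k' : K) :
    S i (kk k) (kk k') = d.D k k' := by
  obtain ⟨A', -, e⟩ := h.entry i
  exact e (inl k) (inl k')

lemma IsChain.kk_pp (h : IsChain d col S kk pp) (i) (k : K) (j) (q : P) :
    S i (kk k) (pp j q) = d.V k q := by
  obtain ⟨A', -, e⟩ := h.entry i
  exact e (inl k) (inr (j, q))

lemma IsChain.pp_kk (h : IsChain d col S kk pp) (i) (k : K) (j) (q : P) :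
    S i (pp j q) (kk k) = -d.V k q := by
  obtain ⟨A', -, e⟩ := h.entry i
  exact e (inr (j, q)) (inl k)

lemma IsChain.yv_pp (h : IsChain d col S kk pp) (i) (j) (q : P) :
    yv (S i) kk (pp j q) = d.y q := funext fun k => h.kk_pp i k j q

lemma IsChain.pp_lt (h : IsChain d col S kk pp) (i) {j j' : Fin n} (hj : j < j') (p q : P) :
    S i (pp j p) (pp j' q) = d.U p q := by
  obtain ⟨A', -, e⟩ := h.entry i
  refine (e (inr (j, p)) (inr (j', q))).trans ?_
  change (if j = j' then A' j p q else if j < j' then d.U p q else -d.U q p) = _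
  rw [if_neg hj.ne, if_pos hj]

lemma IsChain.pp_gt (h : IsChain d col S kk pp) (i) {j j' : Fin n} (hj : j' < j) (p q : P) :
    S i (pp j p) (pp j' q) = -d.U q p := by
  obtain ⟨A', -, e⟩ := h.entry i
  refine (e (inr (j, p)) (inr (j', q))).trans ?_
  change (if j = j' then A' j p q else if j < j' then d.U p q else -d.U q p) = _
  rw [if_neg hj.ne', if_neg hj.not_gt]

lemma IsChain.pp_left (h : IsChain d col S kk pp) {i : Fin (n + 1)} {j : Fin n} (hj : j.val < i.val)
    (p q : P) : S i (pp j p) (pp j q) = d.A p q := by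
  obtain ⟨A', hd, e⟩ := h.entry i
  refine (e (inr (j, p)) (inr (j, q))).trans ?_
  change (if j = j then A' j p q else if j < j then d.U p q else -d.U q p) = _
  rw [if_pos rfl, hd.1 j hj]

lemma IsChain.pp_own (h : IsChain d col S kk pp) (j : Fin n) (p q : P) :
    S j.castSucc (pp j p) (pp j q) = d.As p q := by
  obtain ⟨A', hd, e⟩ := h.entry j.castSucc
  refine (e (inr (j, p)) (inr (j, q))).trans ?_
  change (if j = j then A' j p q else if j < j then d.U p q else -d.U q p) = _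
  rw [if_pos rfl, hd.2 j rfl]

lemma IsChain.kk_inj (h : IsChain d col S kk pp) : Function.Injective kk :=
  fun k k' e => inl_injective (h.inj (a₁ := inl k) (a₂ := inl k') e)

lemma IsChain.pp_inj (h : IsChain d col S kk pp) {j j' : Fin n} {p q : P} (e : pp j p = pp j' q) :
    j = j' ∧ p = q :=
  Prod.mk.inj (inr_injective (h.inj (a₁ := inr (j, p)) (a₂ := inr (j', q)) e))

lemma IsChain.kk_ne_pp (h : IsChain d col S kk pp) (k : K) (j) (p : P) : kk k ≠ pp j p :=
  fun e => inl_ne_inr (h.inj (a₁ := inl k) (a₂ := inr (j, p)) e)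

lemma IsChain.elim_inj (h : IsChain d col S kk pp) (j : Fin n) :
    Function.Injective (Sum.elim kk (pp j)) := by
  rintro (k | p) (k' | q) e
  · rw [h.kk_inj e]
  · exact absurd e (h.kk_ne_pp k j q)
  · exact absurd e.symm (h.kk_ne_pp k' j p)
  · rw [(h.pp_inj e).2]

lemma IsChain.pair_false (h : IsChain d col S kk pp) {i : Fin (n + 1)} {j : Fin n}
    (hj : j.val < i.val) :
    d.pair false = (S i).submatrix (Sum.elim kk (pp j)) (Sum.elim kk (pp j)) := by
  ext (k | p) (k' | q)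
  · exact (h.kk_kk i k k').symm
  · exact (h.kk_pp i k j q).symm
  · exact (h.pp_kk i k' j p).symm
  · exact (h.pp_left hj p q).symm

lemma IsChain.pair_true (h : IsChain d col S kk pp) (j : Fin n) :
    d.pair true = (S j.castSucc).submatrix (Sum.elim kk (pp j)) (Sum.elim kk (pp j)) := by
  ext (k | p) (k' | q)
  · exact (h.kk_kk _ k k').symm
  · exact (h.kk_pp _ k j q).symm
  · exact (h.pp_kk _ k' j p).symm
  · exact (h.pp_own j p q).symm

lemma IsChain.last (h : IsChain d col S kk pp) :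
    (S (Fin.last n)).submatrix (emb kk pp) (emb kk pp) = d.big fun _ => d.A := by
  obtain ⟨A', hd, e⟩ := h.sub (Fin.last n)
  rw [e]
  congr 1
  exact funext fun j => hd.1 j j.isLt

/-- Build a chain from all its entries. -/
lemma IsChain.of_entries' (hi : Function.Injective (emb kk pp)) (hK : ∀ k, col (kk k) = d.colK k)
    (hP : ∀ i p, col (pp i p) = d.colP p)
    (h1 : ∀ i k k', S i (kk k) (kk k') = d.D k k') (h2 : ∀ i k j q, S i (kk k) (pp j q) = d.V k q)
    (h2' : ∀ i k j q, S i (pp j q) (kk k) = -d.V k q)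
    (h3 : ∀ i j j', j < j' → ∀ p q, S i (pp j p) (pp j' q) = d.U p q)
    (h3' : ∀ i j j', j' < j → ∀ p q, S i (pp j p) (pp j' q) = -d.U q p)
    (h4 : ∀ (i : Fin (n + 1)) (j : Fin n), j.val < i.val → ∀ p q, S i (pp j p) (pp j q) = d.A p q)
    (h5 : ∀ (j : Fin n) p q, S j.castSucc (pp j p) (pp j q) = d.As p q) :
    IsChain d col S kk pp := by
  refine ⟨hi, hK, hP, fun i => ⟨fun j => Matrix.of fun p q => S i (pp j p) (pp j q),
    ⟨fun j hj => ?_, fun j hj => ?_⟩, ?_⟩⟩
  · ext p q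
    exact h4 i j hj p q
  · obtain rfl : i = j.castSucc := Fin.ext hj.symm
    ext p q
    exact h5 j p q
  · ext (k | ⟨j, p⟩) (k' | ⟨j', q⟩)
    · exact h1 i k k'
    · exact h2 i k j' q
    · exact h2' i k' j p
    · change S i (pp j p) (pp j' q) =
        if j = j' then S i (pp j p) (pp j q) else if j < j' then d.U p q else -d.U q p
      split_ifs with e1 e2
      · rw [e1]
      · exact h3 i j j' e2 p q
      · exact h3' i j j' (lt_of_le_of_ne (not_lt.1 e2) (Ne.symm e1)) p q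

/-- Build a chain from its entries. -/
lemma IsChain.of_entries (hi : Function.Injective (emb kk pp)) (hK : ∀ k, col (kk k) = d.colK k)
    (hP : ∀ i p, col (pp i p) = d.colP p) (hs : ∀ i, Skew (S i))
    (h1 : ∀ i k k', S i (kk k) (kk k') = d.D k k') (h2 : ∀ i k j q, S i (kk k) (pp j q) = d.V k q)
    (h3 : ∀ i j j', j < j' → ∀ p q, S i (pp j p) (pp j' q) = d.U p q)
    (h4 : ∀ (i : Fin (n + 1)) (j : Fin n), j.val < i.val → ∀ p q, S i (pp j p) (pp j q) = d.A p q)
    (h5 : ∀ (j : Fin n) p q, S j.castSucc (pp j p) (pp j q) = d.As p q) :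
    IsChain d col S kk pp :=
  IsChain.of_entries' hi hK hP h1 h2 (fun i k j q => by rw [hs i, h2]) h3
    (fun i j j' hj p q => by rw [hs i, h3 i j' j hj]) h4 h5

lemma IsChain.inj_comp (h : IsChain d col S kk pp) {n' : ℕ} {f : K' → K} {g : Fin n' → Fin n}
    {e : P' → P} (hf : Function.Injective f) (hg : Function.Injective g)
    (he : Function.Injective e) :
    Function.Injective (emb (fun k => kk (f k)) fun j p => pp (g j) (e p)) := by
  rintro (k | ⟨j, p⟩) (k' | ⟨j', q⟩) h'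
  · rw [hf (h.kk_inj h')]
  · exact absurd h' (h.kk_ne_pp _ _ _)
  · exact absurd h'.symm (h.kk_ne_pp _ _ _)
  · obtain ⟨h1, h2⟩ : g j = g j' ∧ e p = e q := h.pp_inj h'
    rw [hg h1, he h2]

/-- Sub-chains. -/
lemma IsChain.sub' (h : IsChain d col S kk pp) {n' : ℕ} {g : Fin n' → Fin n} (hg : StrictMono g)
    {g' : Fin (n' + 1) → Fin (n + 1)} (h1 : ∀ j : Fin n', g' j.castSucc = (g j).castSucc)
    (h2 : ∀ j, (g j).val < (g' (Fin.last n')).val) :
    IsChain d col (fun i => S (g' i)) kk fun j => pp (g j) := by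
  refine IsChain.of_entries'
    (h.inj_comp Function.injective_id hg.injective Function.injective_id) h.colK
    (fun j p => h.colP _ p) (fun i => h.kk_kk _) (fun i k j q => h.kk_pp _ k _ q)
    (fun i k j q => h.pp_kk _ k _ q) (fun i j j' hj => h.pp_lt _ (hg hj))
    (fun i j j' hj => h.pp_gt _ (hg hj)) (fun i j hj => h.pp_left ?_) (fun j p q => ?_)
  · induction i using Fin.lastCases with
    | last => exact h2 j
    | cast i =>
      rw [h1]
      exact hg (show j < i from hj)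
  · rw [h1]
    exact h.pp_own _ p q

lemma IsChain.full [Fintype K] (h : IsChain d col S kk pp) (hr : d.Red) (i) (j : Fin n) :
    Full (S i) kk (Set.range (pp j)) :=
  fun x hx => hr x fun q => by rw [← h.yv_pp i j q]; exact hx _ ⟨q, rfl⟩

lemma IsChain.resP (h : IsChain d col S kk pp) {f : P' → P} (hf : Function.Injective f) :
    IsChain (d.resP f) col S kk fun j p => pp j (f p) :=
  IsChain.of_entries' (h.inj_comp Function.injective_id Function.injective_id hf) h.colK
    (fun j p => h.colP j (f p)) h.kk_kk (fun i k j q => h.kk_pp i k j (f q))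
    (fun i k j q => h.pp_kk i k j (f q)) (fun i _ _ hj p q => h.pp_lt i hj (f p) (f q))
    (fun i _ _ hj p q => h.pp_gt i hj (f p) (f q)) (fun _ _ hj p q => h.pp_left hj (f p) (f q))
    fun j p q => h.pp_own j (f p) (f q)

lemma IsChain.resK (h : IsChain d col S kk pp) {f : K' → K} (hf : Function.Injective f) :
    IsChain (d.resK f) col S (fun k => kk (f k)) pp :=
  IsChain.of_entries' (h.inj_comp hf Function.injective_id Function.injective_id)
    (fun k => h.colK (f k)) h.colP (fun i k k' => h.kk_kk i (f k) (f k'))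
    (fun i k j q => h.kk_pp i (f k) j q) (fun i k j q => h.pp_kk i (f k) j q)
    (fun i _ _ hj p q => h.pp_lt i hj p q) (fun i _ _ hj p q => h.pp_gt i hj p q)
    (fun _ _ hj p q => h.pp_left hj p q) fun j p q => h.pp_own j p q

end Entries

section Real

variable {m : ℕ} {d : Datum F K P}

lemma RealN.mono {n n' : ℕ} (h : RealN m n' d) (hn : n ≤ n') : RealN m n d := by
  obtain ⟨E, _, col, S, kk, pp, hf, hc, hch⟩ := h
  exact ⟨E, _, col, fun i => S (Fin.castLE (Nat.succ_le_succ hn) i), kk,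
    fun j => pp (Fin.castLE hn j), hf.reindex _, fun i => hc _,
    hch.sub' (Fin.strictMono_castLE hn) (fun _ => rfl) fun j => j.isLt⟩

/-- Finitely many data: one of them works for all lengths. -/
lemma real_of_forall [Finite F] [Finite K] [Finite P] (Φ : Datum F K P → Prop)
    (h : ∀ n, ∃ d, RealN m n d ∧ Φ d) : ∃ d, Real m d ∧ Φ d := by
  obtain ⟨d, hd⟩ := finite_antitone (fun (d : Datum F K P) n => RealN m n d ∧ Φ d)
    (fun _ _ _ hn h' => ⟨h'.1.mono hn, h'.2⟩) h
  exact ⟨d, fun n => (hd n).1, (hd 0).2⟩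

lemma Real.resP (h : Real m d) {f : P' → P} (hf : Function.Injective f) : Real m (d.resP f) := by
  intro n
  obtain ⟨E, _, col, S, kk, pp, hF, hc, hch⟩ := h n
  exact ⟨E, _, col, S, kk, _, hF, hc, hch.resP hf⟩

lemma Real.resK (h : Real m d) {f : K' → K} (hf : Function.Injective f) : Real m (d.resK f) := by
  intro n
  obtain ⟨E, _, col, S, kk, pp, hF, hc, hch⟩ := h n
  exact ⟨E, _, col, S, _, pp, hF, hc, hch.resK hf⟩

lemma Datum.Ref.resP [Fintype K] (h : d.Ref) (f : P' → P) : (d.resP f).Ref :=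
  ⟨fun p => (h.1 (f p)).imp fun _ hx q => hx (f q), fun p => (h.2 (f p)).imp fun _ hx q => hx (f q)⟩

lemma Datum.Ref.U_zero [Fintype K] (h : d.Ref) {p : P} (hp : d.y p = 0) (q : P) :
    d.U p q = 0 ∧ d.U q p = 0 := by
  obtain ⟨x, hx⟩ := h.2 q
  obtain ⟨x', hx'⟩ := h.1 q
  rw [hx p, hx' p, hp]
  simp

lemma Datum.eq_one_of_y {p : P} {c : Fˣ} (hc : ∀ k, (c : F) * d.V k p = d.V k p) (hp : d.y p ≠ 0) :
    (c : F) = 1 := by
  obtain ⟨k, hk⟩ := Function.ne_iff.1 hp
  exact mul_right_cancel₀ hk ((hc k).trans (one_mul _).symm)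

variable [Fintype K] [Fintype P]

lemma Real.alg (h : Real m d) : d.Alg := by
  intro n
  obtain ⟨E, _, col, S, kk, pp, hF, -, hch⟩ := h n
  choose A' hd he using hch.sub
  refine ⟨A', hd, ?_⟩
  have h1 := hF.submatrix (emb kk pp)
  have h2 : col ∘ emb kk pp = d.col n := by
    funext u
    rcases u with k | ⟨j, p⟩
    · exact hch.colK k
    · exact hch.colP j p
  simpa only [h2, he] using h1

lemma Datum.Alg.chain (h : d.Alg) (n : ℕ) :
    ∃ S : Fin (n + 1) → Matrix (K ⊕ Fin n × P) (K ⊕ Fin n × P) F,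
      Fam (d.col n) S ∧ IsChain d (d.col n) S inl fun j p => inr (j, p) := by
  obtain ⟨A', hd, hF⟩ := h n
  have e : emb (inl : K → K ⊕ Fin n × P) (fun j p => inr (j, p)) = id := by
    funext u
    rcases u with k | ⟨j, p⟩ <;> rfl
  refine ⟨_, hF, ?_, fun _ => rfl, fun _ _ => rfl, fun i => ⟨A' i, hd i, ?_⟩⟩
  · rw [e]; exact Function.injective_id
  · rw [e]; rfl

lemma Datum.Alg.fam_pair (h : d.Alg) : Fam d.dsp.1 d.dsp.2 := by
  obtain ⟨S, hF, hc⟩ := h.chain 1
  have h1 := (hF.reindex fun b : Bool => bif b then (0 : Fin 1).castSucc else Fin.last 1).submatrix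
    (Sum.elim inl fun p => inr (0, p))
  have h2 : d.col 1 ∘ (Sum.elim inl fun p => inr (0, p)) = d.dsp.1 := by
    funext u
    rcases u with k | p <;> rfl
  have h3 : (fun b : Bool => (S (bif b then (0 : Fin 1).castSucc else Fin.last 1)).submatrix
      (Sum.elim inl fun p => inr (0, p)) (Sum.elim inl fun p => inr (0, p))) = d.dsp.2 := by
    funext b
    cases b
    · exact (hc.pair_false (i := Fin.last 1) (j := 0) Nat.zero_lt_one).symm
    · exact (hc.pair_true 0).symm
  rwa [h2, h3] at h1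

lemma Datum.Alg.y_col (h : d.Alg) {k : K} {p : P} (hc : d.colP p = d.colK k) : d.V k p = 0 :=
  h.fam_pair.bip false (inl k) (inr p) hc.symm

lemma Datum.Alg.U_col (h : d.Alg) {p q : P} (hc : d.colP p = d.colP q) : d.U p q = 0 := by
  obtain ⟨S, hF, hch⟩ := h.chain 2
  rw [← hch.pp_lt 0 (show (0 : Fin 2) < 1 from Nat.zero_lt_one) p q]
  exact hF.bip 0 _ _ hc

lemma Datum.Alg.skewA (h : d.Alg) : Skew d.A ∧ Skew d.As :=
  ⟨fun p q => h.fam_pair.skew false (inr p) (inr q), fun p q => h.fam_pair.skew true (inr p) (inr q)⟩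

lemma Datum.Alg.A_col (h : d.Alg) {p q : P} (hc : d.colP p = d.colP q) :
    d.A p q = 0 ∧ d.As p q = 0 :=
  ⟨h.fam_pair.bip false (inr p) (inr q) hc, h.fam_pair.bip true (inr p) (inr q) hc⟩

omit [Fintype P] in
lemma IsChain.inSpan_iff {col : E → Bool} {S : Fin 3 → Matrix E E F} {kk : K → E}
    {pp : Fin 2 → P → E} (h : IsChain d col S kk pp) (hr : d.Ref) (i : Fin 3) (p q : P) :
    InSpan (S i) kk (insert (pp 1 q) (Set.range (pp 0))) (pp 1 p) ↔
      S i (pp 1 p) (pp 1 q) + d.U q p = 0 := by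
  have h01 : (0 : Fin 2) < 1 := Nat.zero_lt_one
  constructor
  · rintro ⟨x, hx⟩
    have h1 := hx _ (Set.mem_insert _ _)
    have h2 := hx _ (Set.mem_insert_of_mem _ ⟨q, rfl⟩)
    rw [h.yv_pp] at h1 h2
    rw [h.pp_gt i h01] at h2
    rw [h1, ← h2, neg_add_cancel]
  · intro e
    obtain ⟨x, hx⟩ := hr.2 p
    refine ⟨-x, ?_⟩
    rintro b (rfl | ⟨q', rfl⟩)
    · rw [h.yv_pp, neg_dotProduct, ← hx q]
      exact eq_neg_of_add_eq_zero_left e
    · rw [h.yv_pp, neg_dotProduct, ← hx q', h.pp_gt i h01]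

/-- `A - L` and `As - L` have the same zero pattern. -/
lemma Datum.Alg.B_zero (h : d.Alg) (hr : d.Ref) (p q : P) : d.Bs p q = 0 ↔ d.B p q = 0 := by
  obtain ⟨S, hF, hch⟩ := h.chain 2
  have h1 := hch.inSpan_iff hr (1 : Fin 2).castSucc p q
  have h2 := hch.inSpan_iff hr (Fin.last 2) p q
  rw [hch.pp_own] at h1
  rw [hch.pp_left (i := Fin.last 2) (j := 1) Nat.one_lt_two] at h2
  change d.As p q + d.U q p = 0 ↔ d.A p q + d.U q p = 0
  rw [← h1, ← h2]
  exact ⟨(hF.same _ _).inSpan, (hF.same _ _).inSpan⟩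

omit [Fintype K] [Fintype P] in
lemma Datum.devD_iff' {P0 : Set P} :
    d.DevD P0 ↔ DevP (Set.range inl) (d.pair false) (d.pair true) (inr '' P0) := by
  refine not_congr ⟨?_, ?_⟩
  · rintro ⟨c, h1, h2⟩
    refine ⟨Sum.elim 1 c, ?_, ?_⟩
    · rintro _ ⟨k, rfl⟩
      rfl
    · rintro _ (⟨k, rfl⟩ | ⟨p, hp, rfl⟩) _ ⟨q, hq, rfl⟩
      · change d.V k q = ((1 : Fˣ) : F) * (c q : F) * d.V k q
        rw [Units.val_one, one_mul, h1 q hq]
      · exact h2 p hp q hq
  · rintro ⟨c, h1, h2⟩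
    refine ⟨fun p => c (inr p), fun p hp k => ?_, fun p hp q hq => ?_⟩
    · have h3 := h2 (inl k) (Or.inl ⟨k, rfl⟩) (inr p) ⟨p, hp, rfl⟩
      rw [h1 _ ⟨k, rfl⟩, Units.val_one, one_mul] at h3
      exact h3.symm
    · exact h2 (inr p) (Or.inr ⟨p, hp, rfl⟩) (inr q) ⟨q, hq, rfl⟩

set_option linter.unusedSectionVars false in
lemma Datum.devD_iff {P0 : Set P} :
    d.DevD P0 ↔ DevP (Set.range inl) (d.pair false) (d.pair true) (inr '' P0) :=
  Datum.devD_iff'

omit [Fintype K] [Fintype P] in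
lemma Datum.DevD.resP' {P0 : Set P} (h : d.DevD P0) :
    (d.resP (Subtype.val : P0 → P)).DevD Set.univ := by
  classical
  rintro ⟨c, h1, h2⟩
  refine h ⟨fun p => if hp : p ∈ P0 then c ⟨p, hp⟩ else 1, fun p hp k => ?_, fun p hp q hq => ?_⟩
  · beta_reduce
    rw [dif_pos hp]
    exact h1 ⟨p, hp⟩ trivial k
  · beta_reduce
    rw [dif_pos hp, dif_pos hq]
    exact h2 ⟨p, hp⟩ trivial ⟨q, hq⟩ trivial

set_option linter.unusedSectionVars false in
lemma Datum.DevD.resP {P0 : Set P} (h : d.DevD P0) :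
    (d.resP (Subtype.val : P0 → P)).DevD Set.univ := h.resP'

lemma Datum.Red.rank (h : d.Red) : d.V.rank = Fintype.card K := by
  refine LinearIndependent.rank_matrix (Fintype.linearIndependent_iff.2 fun x hx => ?_)
  refine congrFun (h x fun q => ?_)
  have := congrFun hx q
  simpa [Finset.sum_apply, dotProduct, Datum.y] using this

/-- Reduction of the core to independent rows. -/
lemma Datum.Ref.exists_red (h : d.Ref) : ∃ R : Finset K,
    (d.resK (Subtype.val : R → K)).Ref ∧ (d.resK (Subtype.val : R → K)).Red ∧ R.card = d.V.rank ∧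
    ∀ P0, d.DevD P0 → (d.resK (Subtype.val : R → K)).DevD P0 := by
  classical
  obtain ⟨b, -, -, hsp, hli⟩ := exists_linearIndepOn_extension
    (linearIndepOn_empty F d.V.row) (Set.empty_subset Set.univ)
  obtain ⟨R, rfl⟩ := (Set.toFinite b).exists_finset_coe
  have hT : ∀ k, ∃ t : R → F, ∀ q, d.V k q = t ⬝ᵥ (d.resK (Subtype.val : R → K)).y q := by
    intro k
    have h1 := hsp ⟨k, trivial, rfl⟩
    rw [Set.image_eq_range, SetLike.mem_coe, Submodule.mem_span_range_iff_exists_fun] at h1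
    obtain ⟨t, ht⟩ := h1
    refine ⟨t, fun q => ?_⟩
    have := congrFun ht q
    rw [Finset.sum_apply] at this
    exact this.symm
  choose T hT using hT
  have hx : ∀ x : K → F, ∃ x' : R → F, ∀ q,
      x ⬝ᵥ d.y q = x' ⬝ᵥ (d.resK (Subtype.val : R → K)).y q := by
    intro x
    refine ⟨∑ k, x k • T k, fun q => ?_⟩
    rw [sum_dotProduct]
    exact Finset.sum_congr rfl fun k _ => by rw [smul_dotProduct, ← hT k q]; rfl
  have hred : (d.resK (Subtype.val : R → K)).Red := by
    intro x hx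
    refine funext (Fintype.linearIndependent_iff.1 hli x (funext fun q => ?_))
    rw [Finset.sum_apply]
    exact hx q
  refine ⟨R, ⟨fun p => ?_, fun p => ?_⟩, hred, ?_, fun P0 hd => ?_⟩
  · obtain ⟨x, h1⟩ := h.1 p
    obtain ⟨x', h2⟩ := hx x
    exact ⟨x', fun q => (h1 q).trans (h2 q)⟩
  · obtain ⟨x, h1⟩ := h.2 p
    obtain ⟨x', h2⟩ := hx x
    exact ⟨x', fun q => (h1 q).trans (h2 q)⟩
  · rw [← Fintype.card_coe R]
    refine le_antisymm ?_ ?_
    · rw [← hred.rank]
      exact Matrix.rank_submatrix_le d.V Subtype.val id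
    · have e : d.V = Matrix.of T * (d.resK (Subtype.val : R → K)).V := by
        ext k q
        exact hT k q
      rw [e]
      exact (Matrix.rank_mul_le_left _ _).trans (Matrix.rank_le_card_width _)
  · rintro ⟨c, h1, h2⟩
    refine hd ⟨c, fun p hp k => ?_, h2⟩
    rw [hT k p, ← smul_eq_mul, ← dotProduct_smul]
    congr 1
    exact funext fun r => h1 p hp r

lemma Datum.Alg.glue (h : d.Alg) (hr : d.Ref) {p q : P} {c c' : Fˣ} (hB : d.B p q = 0)
    (hc : ∀ k, (c : F) * d.V k p = d.V k p) (hc' : ∀ k, (c' : F) * d.V k q = d.V k q) :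
    d.As p q = (c : F) * (c' : F) * d.A p q := by
  have h1 : d.A p q = -d.U q p := eq_neg_of_add_eq_zero_left hB
  have h2 : d.As p q = -d.U q p := eq_neg_of_add_eq_zero_left ((h.B_zero hr p q).2 hB)
  rw [h1, h2]
  by_cases hp : d.y p = 0
  · rw [(hr.U_zero hp q).2]; simp
  by_cases hq : d.y q = 0
  · rw [(hr.U_zero hq p).1]; simp
  rw [d.eq_one_of_y hc hp, d.eq_one_of_y hc' hq, one_mul, one_mul]

/-- Deviance survives on a connected part of the petal. -/
lemma Datum.Alg.exists_comp (h : d.Alg) (hr : d.Ref) (hd : d.DevD Set.univ) : ∃ X : Finset P,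
    NConn (d.resP (Subtype.val : X → P)).B ∧ (d.resP (Subtype.val : X → P)).DevD Set.univ := by
  classical
  obtain ⟨X, hX⟩ := exists_minimal_of_wellFoundedLT (fun X : Finset P => d.DevD ↑X)
    ⟨Finset.univ, by rwa [Finset.coe_univ]⟩
  refine ⟨X, fun Z hZ => ?_, hX.1.resP'⟩
  by_contra hne
  rw [not_or] at hne
  obtain ⟨z1, hz1⟩ := Set.nonempty_iff_ne_empty.2 hne.1
  obtain ⟨z2, hz2⟩ := (Set.ne_univ_iff_exists_notMem Z).1 hne.2
  let W : P → Prop := fun p => ∃ hp : p ∈ X, (⟨p, hp⟩ : X) ∈ Z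
  have e1 : ¬d.DevD ↑(X.filter W) := fun h1 => by
    have := hX.2 h1 (Finset.filter_subset _ _) z2.2
    exact hz2 (Finset.mem_filter.1 this).2.2
  have e2 : ¬d.DevD ↑(X.filter fun p => ¬W p) := fun h1 => by
    have := hX.2 h1 (Finset.filter_subset _ _) z1.2
    exact (Finset.mem_filter.1 this).2 ⟨z1.2, hz1⟩
  obtain ⟨c1, a1, b1⟩ := not_not.1 e1
  obtain ⟨c2, a2, b2⟩ := not_not.1 e2
  have m1 : ∀ p ∈ X, W p → p ∈ (↑(X.filter W) : Set P) :=
    fun p hp hw => Finset.mem_coe.2 (Finset.mem_filter.2 ⟨hp, hw⟩)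
  have m2 : ∀ p ∈ X, ¬W p → p ∈ (↑(X.filter fun p => ¬W p) : Set P) :=
    fun p hp hw => Finset.mem_coe.2 (Finset.mem_filter.2 ⟨hp, hw⟩)
  refine hX.1 ⟨fun p => if W p then c1 p else c2 p, fun p hp k => ?_, fun p hp q hq => ?_⟩
  · beta_reduce
    split_ifs with hw
    · exact a1 p (m1 p hp hw) k
    · exact a2 p (m2 p hp hw) k
  · beta_reduce
    split_ifs with hw hw' hw'
    · exact b1 p (m1 p hp hw) q (m1 q hq hw')
    · exact h.glue hr (hZ ⟨p, hp⟩ hw.2 ⟨q, hq⟩ fun h' => hw' ⟨hq, h'⟩).1 (a1 p (m1 p hp hw))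
        (a2 q (m2 q hq hw'))
    · exact h.glue hr (hZ ⟨q, hq⟩ hw'.2 ⟨p, hp⟩ fun h' => hw ⟨hp, h'⟩).2 (a2 p (m2 p hp hw))
        (a1 q (m1 q hq hw'))
    · exact b2 p (m2 p hp hw) q (m2 q hq hw')

lemma Datum.Alg.tau0_of_rank (h : d.Alg) (hr : d.Ref) (hl : d.V.rank ≤ 1) : d.Tau0 := by
  intro p q
  by_cases hp : d.y p = 0
  · rw [(hr.U_zero hp q).1, (hr.U_zero hp q).2, neg_zero]
  by_cases hq : d.y q = 0
  · rw [(hr.U_zero hq p).1, (hr.U_zero hq p).2, neg_zero]
  obtain ⟨x, y, hxy⟩ := (rank_le_iff_fac d.V 1).1 hl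
  simp only [dotProduct, Fin.sum_univ_one] at hxy
  obtain ⟨k, hk⟩ := Function.ne_iff.1 hp
  obtain ⟨k', hk'⟩ := Function.ne_iff.1 hq
  replace hk : d.V k p ≠ 0 := hk
  replace hk' : d.V k' q ≠ 0 := hk'
  have hkq : d.V k q ≠ 0 := by
    rw [hxy] at hk hk' ⊢
    exact mul_ne_zero (left_ne_zero_of_mul hk) (right_ne_zero_of_mul hk')
  have hc : d.colP p = d.colP q := by
    have h1 : d.colP p ≠ d.colK k := fun e => hk (h.y_col e)
    have h2 : d.colP q ≠ d.colK k := fun e => hkq (h.y_col e)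
    revert h1 h2
    cases d.colP p <;> cases d.colP q <;> cases d.colK k <;> simp
  rw [h.U_col hc, h.U_col hc.symm, neg_zero]

lemma Datum.Alg.sc (h : d.Alg) (ht : d.Tau0) (hc : NConn d.B) : SC d.B := by
  refine fun X hX => hc X fun p hp q hq => ⟨hX p hp q hq, ?_⟩
  have h1 : d.A p q + d.U q p = 0 := hX p hp q hq
  change d.A q p + d.U p q = 0
  rw [h.skewA.1 q p, ht p q, ← neg_add, h1, neg_zero]

lemma Datum.Alg.vis_ne (h : d.Alg) {a b : P} (hd : d.DevD {a, b}) : d.As a b ≠ d.A a b := by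
  intro e
  refine hd ⟨1, fun p _ k => one_mul _, ?_⟩
  have h0 : ∀ p, d.As p p = d.A p p := fun p => (h.A_col rfl).2.trans (h.A_col rfl).1.symm
  have h1 : d.As b a = d.A b a := by rw [h.skewA.1 b a, h.skewA.2 b a, e]
  rintro p (rfl | rfl) q (rfl | rfl) <;> simp [h0, e, h1]

lemma Datum.Alg.vis_y (h : d.Alg) {a b : P} (hd : d.DevD {a, b}) : d.y a ≠ 0 := by
  classical
  intro hy
  have hne := h.vis_ne hd
  have hz : d.A a b = 0 ↔ d.As a b = 0 := h.fam_pair.zero_iff false true (inr a) (inr b)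
  have h1 : d.A a b ≠ 0 := fun e => hne ((hz.1 e).trans e.symm)
  have h2 : d.As a b ≠ 0 := fun e => h1 (hz.2 e)
  have hab : b ≠ a := fun e => h1 (h.A_col (by rw [e])).1
  have h3 : d.As a b = d.As a b / d.A a b * d.A a b := (div_mul_cancel₀ _ h1).symm
  refine hd ⟨Function.update 1 a (Units.mk0 _ (div_ne_zero h2 h1)), ?_, ?_⟩
  · rintro p (rfl | rfl) k
    · rw [show d.V k p = 0 from congrFun hy k, mul_zero]
    · rw [Function.update_of_ne hab]
      exact one_mul _
  · rintro p (rfl | rfl) q (rfl | rfl)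
    · rw [(h.A_col rfl).1, (h.A_col rfl).2, mul_zero]
    · rw [Function.update_self, Function.update_of_ne hab, Units.val_mk0, Pi.one_apply,
        Units.val_one, mul_one]
      exact h3
    · rw [Function.update_self, Function.update_of_ne hab, Units.val_mk0, Pi.one_apply,
        Units.val_one, one_mul, h.skewA.1 p q, h.skewA.2 p q, mul_neg, ← h3]
    · rw [(h.A_col rfl).1, (h.A_col rfl).2, mul_zero]

/-- What a visible pair looks like. -/
lemma Datum.Alg.vis (h : d.Alg) (hr : d.Ref) {a b : P} (hd : d.DevD {a, b}) :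
    d.y a ≠ 0 ∧ d.y b ≠ 0 ∧ d.Bs a b ≠ d.B a b ∧ d.B a b ≠ 0 ∧ d.B b a ≠ 0 ∧
      d.colP a ≠ d.colP b := by
  have hd' : d.DevD {b, a} := by rwa [Set.pair_comm]
  have key : ∀ {a b : P}, d.DevD {a, b} → d.Bs a b ≠ d.B a b := fun hd e =>
    h.vis_ne hd (add_right_cancel (show d.As _ _ + d.U _ _ = d.A _ _ + d.U _ _ from e))
  have key2 : ∀ {a b : P}, d.DevD {a, b} → d.B a b ≠ 0 := fun hd e =>
    key hd (((h.B_zero hr _ _).2 e).trans e.symm)
  exact ⟨h.vis_y hd, h.vis_y hd', key hd, key2 hd, key2 hd',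
    fun e => h.vis_ne hd ((h.A_col e).2.trans (h.A_col e).1.symm)⟩

lemma Datum.Alg.rooted (h : d.Alg) (hr : d.Ref) (hc : NConn d.B) (hl : 1 ≤ d.V.rank) :
    Rooted (Set.range inl) (d.pair false) := by
  intro X hX hcl
  have hk : ∀ k, inl k ∉ X := fun k hk => Set.disjoint_left.1 hX hk ⟨k, rfl⟩
  have hy : ∀ p, inr p ∈ X → d.y p = 0 := fun p hp =>
    funext fun k => neg_eq_zero.1 (hcl _ hp _ (hk k))
  rcases hc {p | inr p ∈ X} (fun p hp q hq => by
    have h1 : d.A p q = 0 := hcl _ hp _ hq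
    refine ⟨?_, ?_⟩
    · change d.A p q + d.U q p = 0
      rw [h1, (hr.U_zero (hy p hp) q).2, add_zero]
    · change d.A q p + d.U p q = 0
      rw [h.skewA.1 q p, h1, (hr.U_zero (hy p hp) q).1, neg_zero, add_zero]) with e | e
  · refine Set.eq_empty_of_forall_notMem ?_
    rintro (k | p) hu
    · exact hk k hu
    · exact Set.eq_empty_iff_forall_notMem.1 e p hu
  · have h0 : d.V = 0 := by
      ext k p
      exact congrFun (hy p (Set.eq_univ_iff_forall.1 e p)) k
    rw [h0, Matrix.rank_zero] at hl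
    exact absurd hl (by norm_num)

set_option linter.unusedVariables false in
lemma Datum.MID.devD (h : d.Alg) {P0 : Set P} (hm : d.MID P0) : d.DevD Set.univ := by
  classical
  rintro ⟨c, h1, h2⟩
  obtain ⟨Z, M, hp, hM⟩ := hm
  have e : d.pair true = scale (Sum.elim 1 c) (d.pair false) := by
    ext (k | p) (k' | q)
    · change d.D k k' = ((1 : Fˣ) : F) * ((1 : Fˣ) : F) * d.D k k'
      simp
    · change d.V k q = ((1 : Fˣ) : F) * (c q : F) * d.V k q
      rw [Units.val_one, one_mul, h1 q trivial]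
    · change -d.V k' p = (c p : F) * ((1 : Fˣ) : F) * -d.V k' p
      rw [Units.val_one, mul_one, mul_neg, h1 p trivial]
    · exact h2 p trivial q trivial
  have h3 := (hp false).scale (Sum.elim 1 c)
  rw [← e] at h3
  have h4 := (hp true).unique h3
  set c' := (inr '' Z : Set (K ⊕ P)).piecewise (Sum.elim (1 : K → Fˣ) c)⁻¹ (Sum.elim 1 c) with hc'
  have h5 : ∀ o ∈ Set.range (inl : K → K ⊕ P), c' o = 1 := by
    rintro _ ⟨k, rfl⟩
    rw [hc', Set.piecewise_eq_of_notMem _ _ _ (by simp)]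
    rfl
  obtain ⟨O, hO, hdev, -⟩ := hM fun u hu v hv => by
    rw [h4, scale_apply, h5 u hu, h5 v hv, Units.val_one, one_mul, one_mul]
  exact hdev ⟨c', fun o ho => h5 o (hO ho), fun u _ v _ => by rw [h4, scale_apply]⟩

/-- No pivot needed. -/
lemma Datum.DevD.mid {P0 : Set P} (h : d.DevD P0) : d.MID P0 := by
  refine ⟨∅, d.pair, fun b => ?_, fun _ => ⟨_, subset_rfl, Datum.devD_iff.1 h, fun p _ => ⟨1, ?_⟩⟩⟩
  · rw [Set.image_empty]
    exact isPiv_empty _
  · rintro _ ⟨k, rfl⟩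
    exact (one_mul _).symm

end Real

end Pool.Agent.MP_d99b12_co.H25
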