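import Pool.Agent.MP_d99b12_co.H25.Spec
import Pool.Agent.MP_d99b12_co.H25.ChainB

/-! # The hub step and the assembly of the augmentation step (MP_d99b12_co) -/

namespace Pool.Agent.MP_d99b12_co.H25

open Matrix Sum

variable {F : Type} [Field F] [Fintype F]

namespace AUG

/-- Adding one new vertex to the core keeps the embedding injective. -/
lemma emb_inj {K P E : Type} {n : ℕ} {kk : K → E} {pp : Fin n → P → E} {v : E}
    (hi : Function.Injective (emb kk pp)) (hv : v ∉ Set.range (emb kk pp)) :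
    Function.Injective (emb (Sum.elim kk fun _ : Unit => v) pp) := by
  rintro ((a | a) | a) ((b | b) | b) h
  · have := hi (a₁ := inl a) (a₂ := inl b) h
    rw [Sum.inl.inj this]
  · exact absurd ⟨inl a, h⟩ hv
  · exact absurd (hi (a₁ := inl a) (a₂ := inr b) h) Sum.inl_ne_inr
  · exact absurd ⟨inl b, h.symm⟩ hv
  · rfl
  · exact absurd ⟨inr b, h.symm⟩ hv
  · exact absurd (hi (a₁ := inr a) (a₂ := inl b) h) Sum.inr_ne_inl
  · exact absurd ⟨inr a, h⟩ hv
  · have := hi (a₁ := inr a) (a₂ := inr b) h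
    rw [Sum.inr.inj this]

omit [Fintype F] in
lemma nConn_of_sc {P : Type} {B : Matrix P P F} (h : SC B) : NConn B :=
  fun X hX => h X fun p hp q hq => (hX p hp q hq).1

end AUG

omit [Fintype F] in
theorem hub (hh : HOM F) (m : ℕ) : HUB F m := by
  intro K P _ _ n
  obtain ⟨N, hN⟩ := hh (K ⊕ Unit) P (n + 2)
  refine ⟨N, fun P0 hout => ?_⟩
  obtain ⟨d, E, _, col, S, kk, pp, v, ⟨-, hred, hsc, hdev⟩, hfam, hconn, hch, hv, hns⟩ := hout
  have hfam' : Fam col fun i : Fin N => S i.castSucc := hfam.reindex _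
  obtain ⟨d', g, i0, iR, c, -, -, hc1, hcl, href, hch'⟩ :=
    hN E col (fun i => S i.castSucc) (Sum.elim kk fun _ => v) pp hfam' (AUG.emb_inj hch.inj hv)
  set j0 : Fin (n + 2) := ⟨0, by omega⟩ with hj0
  set j1 : Fin (n + 2) := ⟨1, by omega⟩ with hj1
  have h01 : j0 < j1 := by simp [hj0, hj1]
  have h0l : j0.val < (Fin.last (n + 2)).val := by simp [hj0]
  have hg0 : (g j0.castSucc).val < ((g (Fin.last (n + 2))).castSucc).val := by
    have : g j0.castSucc < g (Fin.last (n + 2)) := g.strictMono (Fin.castSucc_lt_last _)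
    exact Fin.lt_def.1 this
  have hg01 : g j0.castSucc < g j1.castSucc := g.strictMono (Fin.castSucc_lt_castSucc_iff.2 h01)
  have hlast : scale (c (Fin.last (n + 2))) (S (g (Fin.last (n + 2))).castSucc) =
      S (g (Fin.last (n + 2))).castSucc := by rw [hcl, scale_one]
  have hA : ∀ p q, d'.A p q = d.A p q := fun p q => by
    have h1 := hch'.pp_left h0l p q
    rw [hlast] at h1
    rw [← h1]
    exact hch.pp_left hg0 p q
  have hU : ∀ p q, d'.U p q = d.U p q := fun p q => by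
    have h1 := hch'.pp_lt (Fin.last (n + 2)) h01 p q
    rw [hlast] at h1
    rw [← h1]
    exact hch.pp_lt _ hg01 p q
  have hV : ∀ k q, d'.V k q = S (g (Fin.last (n + 2))).castSucc
      (Sum.elim (Sum.elim kk fun _ => v) (Sum.elim (pp i0) (pp iR)) k) (pp (g j0.castSucc) q) :=
    fun k q => by
      have h1 := hch'.kk_pp (Fin.last (n + 2)) k j0 q
      rw [hlast] at h1
      exact h1.symm
  have hVK : ∀ k q, d'.V (inl (inl k)) q = d.V k q := fun k q => by
    rw [hV]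
    exact hch.kk_pp _ k _ q
  have hB : d'.B = d.B := by
    ext p q
    simp only [Datum.B, Matrix.add_apply, Matrix.transpose_apply, hA, hU]
  refine ⟨d', RealN.mono (n' := n + 2) ?_ (by omega), href, ?_, ?_, Datum.DevD.mid ?_⟩
  · exact ⟨E, inferInstance, col, _, _, _, (hfam'.reindex g).scale c,
      fun i => (hconn _).scale _, hch'⟩
  · rw [hB]
    exact AUG.nConn_of_sc hsc
  · by_contra hle
    have hle' : d'.V.rank ≤ Fintype.card K := not_lt.1 hle
    have hVe : d'.V = (S (g (Fin.last (n + 2))).castSucc).submatrix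
        (Sum.elim (Sum.elim kk fun _ => v) (Sum.elim (pp i0) (pp iR))) (pp (g j0.castSucc)) := by
      ext k q
      exact hV k q
    rw [hVe, rank_le_iff_rkLE] at hle'
    refine not_rkLE_of_full (kk := kk) (u := v) (hch.full hred _ _) ?_ ?_ ?_ hle'
    · exact fun h => hns _ ((hfam.same _ _).inSpan h)
    · exact fun k => ⟨inl (inl k), rfl⟩
    · exact ⟨inl (inr ()), rfl⟩
  · rintro ⟨e, he1, he2⟩
    have hAs : ∀ p q, d'.As p q = (c j0.castSucc (pp (g j0.castSucc) p) : F) *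
        (c j0.castSucc (pp (g j0.castSucc) q) : F) * d.As p q := fun p q => by
      have h1 := hch'.pp_own j0 p q
      rw [scale_apply, hch.pp_own] at h1
      exact h1.symm
    have hcV : ∀ k q, (c j0.castSucc (pp (g j0.castSucc) q) : F) * d.V k q = d.V k q :=
      fun k q => by
        have h1 := hch'.kk_pp j0.castSucc (inl (inl k)) j0 q
        rw [scale_apply, hc1, hVK] at h1
        have h2 := hch.kk_pp (g j0.castSucc).castSucc k (g j0.castSucc) q
        rw [Units.val_one, one_mul] at h1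
        calc _ = (c j0.castSucc (pp (g j0.castSucc) q) : F) *
              S (g j0.castSucc).castSucc (kk k) (pp (g j0.castSucc) q) := by rw [h2]
          _ = _ := h1
    refine hdev ⟨fun p => e p * (c j0.castSucc (pp (g j0.castSucc) p))⁻¹, fun p hp k => ?_,
      fun p hp q hq => ?_⟩
    · have h1 := he1 p hp (inl (inl k))
      rw [hVK] at h1
      have h2 := hcV k p
      have hne : (c j0.castSucc (pp (g j0.castSucc) p) : F) ≠ 0 := Units.ne_zero _
      rw [Units.val_mul, Units.val_inv_eq_inv_val]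
      field_simp
      rw [h1, h2]
    · have h1 := he2 p hp q hq
      rw [hAs, hA] at h1
      have hp0 : (c j0.castSucc (pp (g j0.castSucc) p) : F) ≠ 0 := Units.ne_zero _
      have hq0 : (c j0.castSucc (pp (g j0.castSucc) q) : F) ≠ 0 := Units.ne_zero _
      rw [Units.val_mul, Units.val_inv_eq_inv_val, Units.val_mul, Units.val_inv_eq_inv_val]
      field_simp
      linear_combination h1

namespace AUG

section Tree

variable {K P E : Type} [Fintype K] [Fintype E] {m p0 κ T : ℕ} {P0 : Set P} {col : E → Bool}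
  {S : Fin T → Matrix E E F} {kk : K → E} {X : Fin T → E → K → F} {Q0 : Set E}
  {e : Fin T → P ⊕ ℕ → E} {len : Fin T → ℕ} {pf : P → E}

/-- The vertex `u` sees the first path vertex of piece `s`. -/
def Hit (S : Fin T → Matrix E E F) (kk : K → E) (X : Fin T → E → K → F)
    (e : Fin T → P ⊕ ℕ → E) (u : E) (s : Fin T) : Prop :=
  ∀ i, nat (S i) kk (X i) u (e s (inr 0)) ≠ 0

omit [Fintype F] in
/-- The parent function of the tree of pieces. -/
lemma exists_par (h : Grown m p0 κ P0 col S kk X Q0 e len pf) :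
    ∃ par : Fin T → Option (Fin T), (∀ s, par s = none → ∃ u ∈ Q0, Hit S kk X e u s) ∧
      ∀ s t, par s = some t → t < s ∧ (∃ x ∈ vl P (len t), Hit S kk X e (e t x) s) ∧
        ∀ t', t' < t → ∀ x ∈ vl P (len t'), ¬Hit S kk X e (e t' x) s := by
  classical
  have key : ∀ s : Fin T, ∃ o : Option (Fin T), (o = none → ∃ u ∈ Q0, Hit S kk X e u s) ∧
      ∀ t, o = some t → t < s ∧ (∃ x ∈ vl P (len t), Hit S kk X e (e t x) s) ∧
        ∀ t', t' < t → ∀ x ∈ vl P (len t'), ¬Hit S kk X e (e t' x) s := by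
    intro s
    obtain ⟨u, hu, hit⟩ := (h.piece s).hit
    rcases hu with hu | ⟨t, ht, x, hx, rfl⟩
    · exact ⟨none, fun _ => ⟨u, hu, hit⟩, fun t ht => by cases ht⟩
    · have hne : ({t : Fin T | ∃ x ∈ vl P (len t), Hit S kk X e (e t x) s} : Set (Fin T)).Nonempty :=
        ⟨t, x, hx, hit⟩
      obtain ⟨t0, ht0, hmin⟩ := wellFounded_lt.has_min _ hne
      refine ⟨some t0, fun h0 => absurd h0 (Option.some_ne_none _), fun t1 h1 => ?_⟩
      obtain rfl : t0 = t1 := Option.some.inj h1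
      refine ⟨?_, ht0, fun t' ht' x' hx' hh => hmin t' ⟨x', hx', hh⟩ ht'⟩
      have h2 : ¬t < t0 := hmin t ⟨x, hx, hit⟩
      exact lt_of_le_of_lt (not_lt.1 h2) (Fin.lt_def.2 ht)
  choose par h1 h2 using key
  exact ⟨par, h1, h2⟩

omit [Fintype F] in
/-- Not seen in some member means not seen in every member. -/
lemma zero_of_not_hit (h : Grown m p0 κ P0 col S kk X Q0 e len pf) {t s : Fin T} {x : P ⊕ ℕ}
    (hx : x ∈ vl P (len t)) (hn : ¬Hit S kk X e (e t x) s) (i : Fin T) :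
    nat (S i) kk (X i) (e t x) (e s (inr 0)) = 0 := by
  unfold Hit at hn
  push Not at hn
  obtain ⟨i0, hi0⟩ := hn
  have hu : e t x ∈ QS Q0 e len T := Or.inr ⟨t, t.isLt, x, hx, rfl⟩
  exact ((h.fam.same i0 i).nat_zero (h.full i0) (h.al i0 _ hu) (h.al i _ hu) _).1 hi0

end Tree

omit [Fintype F] in
/-- Many pieces: a vertex that sees many of them, or a long induced branch. -/
lemma star_or_path (P : Type) [Fintype P] (p0 κ n1 L : ℕ) : ∃ T, ∀ (K E : Type) [Fintype K]
    [Fintype E] (m : ℕ) (P0 : Set P) (col : E → Bool) (S : Fin T → Matrix E E F) (kk : K → E)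
    (X : Fin T → E → K → F) (Q0 : Set E) (e : Fin T → P ⊕ ℕ → E) (len : Fin T → ℕ) (pf : P → E),
    Grown m p0 κ P0 col S kk X Q0 e len pf →
    (∃ (u : E) (g : Fin n1 ↪o Fin T), ∀ j, u ∈ QS Q0 e len (g j).val ∧
      ∀ i, nat (S i) kk (X i) u (e (g j) (inr 0)) ≠ 0) ∨
    ∃ g : Fin L ↪o Fin T, (∀ j j' : Fin L, j.val + 1 = j'.val → ∃ x ∈ vl P (len (g j)),
      ∀ i, nat (S i) kk (X i) (e (g j) x) (e (g j') (inr 0)) ≠ 0) ∧
      ∀ j j' : Fin L, j.val + 1 < j'.val → ∀ x ∈ vl P (len (g j)),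
        ∀ i, nat (S i) kk (X i) (e (g j) x) (e (g j') (inr 0)) = 0 := by
  obtain ⟨b, hb⟩ := pigeon (κ + (Fintype.card P + p0)) (n1 + 1)
  obtain ⟨T, hT⟩ := tree_dich b L
  refine ⟨T, fun K E _ _ m P0 col S kk X Q0 e len pf h => ?_⟩
  obtain ⟨par, hp0, hp1⟩ := exists_par h
  rcases hT par (fun s t hst => (hp1 s t hst).1) with ⟨c, g, hg⟩ | ⟨g, hg⟩
  · left
    cases c with
    | none =>
      choose u hu1 hu2 using fun i => hp0 (g i) (hg i)
      obtain ⟨g', hg'⟩ := hb Q0 (by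
        rw [Nat.card_coe_set_eq]
        exact h.card.trans (Nat.le_add_right _ _)) fun i => ⟨u i, hu1 i⟩
      refine ⟨u (g' (Fin.last n1)), (Fin.castSuccOrderEmb.trans g').trans g, fun j =>
        ⟨Or.inl (hu1 _), ?_⟩⟩
      have h1 : u (g' (Fin.last n1)) = u (g' j.castSucc) :=
        congrArg Subtype.val (hg' (Fin.last n1) j.castSucc)
      rw [h1]
      exact hu2 _
    | some t =>
      have key : ∀ i, ∃ y : P ⊕ Fin p0, Sum.map id Fin.val y ∈ vl P (len t) ∧
          Hit S kk X e (e t (Sum.map id Fin.val y)) (g i) := by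
        intro i
        obtain ⟨x, hx, hit⟩ := (hp1 _ _ (hg i)).2.1
        rcases x with p | r
        · exact ⟨inl p, hx, hit⟩
        · exact ⟨inr ⟨r, lt_of_lt_of_le (hx r rfl) (h.len_le t)⟩, hx, hit⟩
      choose y hy1 hy2 using key
      obtain ⟨g', hg'⟩ := hb (P ⊕ Fin p0) (by simp) y
      refine ⟨e t (Sum.map id Fin.val (y (g' (Fin.last n1)))),
        (Fin.castSuccOrderEmb.trans g').trans g, fun j => ⟨Or.inr ⟨t, ?_, _, hy1 _, rfl⟩, ?_⟩⟩
      · exact Fin.lt_def.1 (hp1 _ _ (hg _)).1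
      · rw [hg' (Fin.last n1) j.castSucc]
        exact hy2 _
  · right
    refine ⟨g, fun j j' hj => (hp1 _ _ (hg j j' hj)).2.1, fun j j' hj x hx i => ?_⟩
    have hlt : j'.val - 1 < L := by omega
    have h1 := hp1 _ _ (hg ⟨j'.val - 1, hlt⟩ j' (by simp only; omega))
    refine zero_of_not_hit h hx (h1.2.2 (g j) (g.strictMono ?_) x hx) i
    rw [Fin.lt_def]
    simp only
    omega

/-- The outcome with `n` petals in a fixed shape. -/
def Sh (F : Type) [Field F] (m l : ℕ) {P : Type} (P0 : Set P) (K' P' : Type) [Fintype K']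
    [Fintype P'] (ι : P → P') (n : ℕ) : Prop :=
  ∃ d : Datum F K' P', RealN m n d ∧ d.AugOut l (ι '' P0)

omit [Fintype F] in
lemma Sh.mono {m l : ℕ} {P : Type} {P0 : Set P} {K' P' : Type} [Fintype K'] [Fintype P']
    {ι : P → P'} {n n' : ℕ} (hn : n ≤ n') (h : Sh F m l P0 K' P' ι n') : Sh F m l P0 K' P' ι n := by
  obtain ⟨d, h1, h2⟩ := h
  exact ⟨d, h1.mono hn, h2⟩

lemma Sh.real {m l : ℕ} {P : Type} {P0 : Set P} {K' P' : Type} [Fintype K'] [Fintype P']
    {ι : P → P'} (h : ∀ n, Sh F m l P0 K' P' ι n) :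
    ∃ (K' P' : Type) (_ : Fintype K') (_ : Fintype P') (d' : Datum F K' P') (ι : P → P'),
      Real m d' ∧ d'.AugOut l (ι '' P0) := by
  obtain ⟨d, h1, h2⟩ := real_of_forall (fun d : Datum F K' P' => d.AugOut l (ι '' P0)) h
  exact ⟨K', P', inferInstance, inferInstance, d, ι, h1, h2⟩

/-- The three shapes. -/
def Out (F : Type) [Field F] (m : ℕ) (K : Type) {P : Type} [Fintype K] [Fintype P] (P0 : Set P)
    (p0 l0 : ℕ) : Unit ⊕ Fin (p0 + 1) ⊕ Fin (p0 + 1) × Fin (l0 + 1) → ℕ → Prop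
  | .inl _ => Sh F m (Fintype.card K) P0 ((K ⊕ Unit) ⊕ P ⊕ P) P id
  | .inr (.inl p) => Sh F m (Fintype.card K) P0
      ((K ⊕ Unit ⊕ P) ⊕ (P ⊕ Fin p.val) ⊕ (P ⊕ Fin p.val)) (P ⊕ Fin p.val) inl
  | .inr (.inr x) => Sh F m (Fintype.card K) P0
      ((K ⊕ P ⊕ P ⊕ Bool) ⊕ ((P ⊕ Fin x.1.val) ⊕ Fin x.2.val) ⊕ ((P ⊕ Fin x.1.val) ⊕ Fin x.2.val))
      ((P ⊕ Fin x.1.val) ⊕ Fin x.2.val) fun q => inl (inl q)

end AUG

theorem aug {m : ℕ} (hg : GROW F m) (hh : HUB F m) (hs : STAR F m) (hp : PATH F m) :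
    AUG F m := by
  intro K P _ _ d P0 hK hreal hin
  obtain ⟨p0, κ, hG⟩ := hg K P hK
  obtain ⟨l0, hP⟩ := hp K P p0
  have key : ∀ n, ∃ i, AUG.Out F m K P0 p0 l0 i n := by
    intro n
    obtain ⟨n0, hH⟩ := hh K P n
    obtain ⟨n1, hS⟩ := hs K P p0 n
    obtain ⟨L, hL⟩ := hP n
    obtain ⟨T, hT⟩ := AUG.star_or_path (F := F) P p0 κ n1 L
    obtain ⟨N, hN⟩ := hG T n0
    rcases hN d P0 (hreal N) hin with hub | ⟨E, _, col, S, kk, X, Q0, e, len, pf, hgr⟩
    · obtain ⟨d', h1, h2⟩ := hH P0 hub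
      exact ⟨.inl (), d', h1, by rwa [Set.image_id]⟩
    · rcases hT K E m P0 col S kk X Q0 e len pf hgr with ⟨u, g, hu⟩ | ⟨g, h1, h2⟩
      · obtain ⟨p, hp, d', h3, h4⟩ := hS κ T P0 E col S kk X Q0 e len pf hgr u g hu
        exact ⟨.inr (.inl ⟨p, Nat.lt_succ_of_le hp⟩), d', h3, h4⟩
      · obtain ⟨p, hp, l, hl, d', h3, h4⟩ := hL κ T P0 E col S kk X Q0 e len pf hgr g h1 h2
        exact ⟨.inr (.inr (⟨p, Nat.lt_succ_of_le hp⟩, ⟨l, Nat.lt_succ_of_le hl⟩)), d', h3, h4⟩
  obtain ⟨i, hi⟩ := finite_antitone (AUG.Out F m K P0 p0 l0) (by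
    rintro (i | i | i) n n' hn h
    · exact AUG.Sh.mono hn h
    · exact AUG.Sh.mono hn h
    · exact AUG.Sh.mono hn h) key
  rcases i with i | i | i
  · exact AUG.Sh.real hi
  · exact AUG.Sh.real hi
  · exact AUG.Sh.real hi

end Pool.Agent.MP_d99b12_co.H25
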