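import Pool.Agent.MP_d99b12_co.H25.Spec3

/-! # Transport of the auxiliary petal: proofs -/

namespace Pool.Agent.MP_d99b12_co.H25

open Matrix Sum

namespace Auxl

variable {F : Type} [Field F] {E E' K W : Type} [Fintype E] [Fintype E'] [Fintype K] [Fintype W]

lemma dep_image {S : Matrix E E F} {g : E' → E} (hg : Function.Injective g) (X : Set E)
    (Y : Set E') : Dep S X (g '' Y) ↔ ∃ φ : E' → F, φ ≠ 0 ∧ (∀ t, t ∉ Y → φ t = 0) ∧
      ∀ x ∈ X, ∑ t, S x (g t) * φ t = 0 := by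
  have key : ∀ u : E → F, (∀ y, y ∉ g '' Y → u y = 0) → ∀ x,
      ∑ t, S x (g t) * u (g t) = (S *ᵥ u) x := fun u hu x =>
    Fintype.sum_of_injective g hg _ (fun v => S x v * u v) (fun v hv => by
      rw [hu v fun k => hv (Set.image_subset_range g Y k), mul_zero]) fun _ => rfl
  constructor
  · rintro ⟨u, h0, h1, h2⟩
    refine ⟨u ∘ g, fun k => h0 (funext fun v => ?_), fun t ht => h1 _ fun k => ht (hg.mem_set_image.1 k),
      fun x hx => (key u h1 x).trans (h2 x hx)⟩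
    by_cases hv : v ∈ g '' Y
    · obtain ⟨t, -, rfl⟩ := hv
      exact congrFun k t
    · exact h1 v hv
  · rintro ⟨φ, h0, h1, h2⟩
    have h3 : ∀ y, y ∉ g '' Y → Function.extend g φ 0 y = 0 := fun y hy => by
      by_cases k : ∃ t, g t = y
      · obtain ⟨t, rfl⟩ := k
        rw [hg.extend_apply, h1 t fun k => hy ⟨t, k, rfl⟩]
      · exact Function.extend_apply' _ _ _ k
    refine ⟨Function.extend g φ 0, fun k => h0 (funext fun t => ?_), h3, fun x hx => ?_⟩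
    · exact (hg.extend_apply φ 0 t).symm.trans (congrFun k (g t))
    · rw [← key _ h3, ← h2 x hx]
      exact Finset.sum_congr rfl fun t _ => by rw [hg.extend_apply]

lemma dep_sub {S : Matrix E E F} {g : E' → E} (hg : Function.Injective g) (X Y : Set E') :
    Dep (S.submatrix g g) X Y ↔ Dep S (g '' X) (g '' Y) := by
  rw [dep_image hg]
  simp only [Set.forall_mem_image]
  rfl

lemma aux_sub {m : ℕ} {c : Bool} {col : E → Bool} {S : Matrix E E F} {g : E' → E}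
    (hg : Function.Injective g) {kk : K → E'} {C : Set E'}
    (h : Aux m c col S (g ∘ kk) (g '' C)) : Aux m c (col ∘ g) (S.submatrix g g) kk C := by
  obtain ⟨h1, h2, o, R, U, h3, h4, h5⟩ := h
  obtain ⟨o, ho, rfl⟩ := h3.oC
  obtain ⟨R, hR, rfl⟩ := Set.subset_image_iff.1 h3.RC
  obtain ⟨U, hU, rfl⟩ := Set.subset_image_iff.1 h4.UC
  refine ⟨fun X hX k => ?_, fun x hx => h2 x (Set.forall_mem_image.2 hx), o, R, U,
    ⟨ho, hR, fun r hr => h3.colR _ ⟨r, hr, rfl⟩, fun r hr => h3.adj _ ⟨r, hr, rfl⟩, ?_, ?_,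
      fun r hr r' hr' e he k => ?_, fun r hr r' hr' r'' hr'' e he k => ?_⟩,
    ⟨hU, fun e he => ?_, ?_⟩, ?_⟩
  · refine (h1 (g '' X) (Set.image_mono hX) ?_).imp Set.image_eq_empty.1 hg.image_injective.eq_iff.1
    rw [← Set.image_sdiff hg]
    rintro _ ⟨u, hu, rfl⟩ _ ⟨v, hv, rfl⟩
    exact k u hu v hv
  · rw [dep_sub hg, ← Set.range_comp]
    exact h3.dep
  · obtain ⟨_, ⟨r, hr, rfl⟩, k⟩ := h3.base
    refine ⟨r, hr, ?_⟩
    rwa [dep_sub hg, ← Set.range_comp, Set.image_sdiff hg, Set.image_singleton]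
  · rw [dep_sub hg, Set.image_insert_eq, ← Set.range_comp, Set.image_pair]
    exact h3.ns2 _ ⟨r, hr, rfl⟩ _ ⟨r', hr', rfl⟩ _ ⟨e, he, rfl⟩ k
  · rw [dep_sub hg, Set.image_insert_eq, Set.image_insert_eq, ← Set.range_comp,
      Set.image_insert_eq, Set.image_pair]
    exact h3.ns3 _ ⟨r, hr, rfl⟩ _ ⟨r', hr', rfl⟩ _ ⟨r'', hr'', rfl⟩ _ ⟨e, he, rfl⟩ k
  · obtain ⟨_, ⟨r, hr, rfl⟩, k⟩ := h4.adj _ ⟨e, he, rfl⟩
    exact ⟨r, hr, k⟩
  · rw [dep_sub hg, ← Set.range_comp]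
    exact h4.ind
  · rw [Set.ncard_image_of_injective _ hg, Set.ncard_image_of_injective _ hg] at h5
    exact h5

omit [Fintype K] in
lemma core_iff (d : Datum F K W) (φ : W → F) :
    (∀ x ∈ Set.range (inl : K → K ⊕ W), ∑ t, d.pair false x (inr t) * φ t = 0) ↔
      ∑ t, φ t • d.y t = 0 := by
  rw [Set.forall_mem_range, funext_iff]
  refine forall_congr' fun k => ?_
  rw [Finset.sum_apply, Finset.sum_congr rfl fun t _ => mul_comm _ _]
  rfl

omit [Fintype K] in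
lemma row_eq {d : Datum F K W} (hA : Skew d.A) (hB : d.B = d.A) {φ : W → F} {e : W}
    (h : ∑ t, φ t * d.B t e = 0) : ∑ t, d.pair false (inr e) (inr t) * φ t = 0 := by
  rw [← neg_eq_zero, ← Finset.sum_neg_distrib] at h
  refine Eq.trans (Finset.sum_congr rfl fun t _ => ?_) h
  change d.A e t * φ t = _
  rw [hA e t, hB]
  ring

end Auxl

open Auxl

variable {F : Type} [Field F]

theorem auxSame (m : ℕ) : AUXSAME F m := by
  rintro E K _ _ c col S T kk C h ⟨h1, h2, o, R, U, h3, h4, h5⟩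
  refine ⟨h1.same h, h.full h2, o, R, U, ⟨h3.oC, h3.RC, h3.colR,
    fun r hr k => h3.adj r hr ((h.zero_iff _ _).2 k), (h _ _).1 h3.dep,
    h3.base.imp fun r k => ⟨k.1, fun k' => k.2 ((h _ _).2 k')⟩,
    fun r hr r' hr' e he k k' => h3.ns2 r hr r' hr' e he (fun k'' => k ((h.zero_iff _ _).1 k''))
      ((h _ _).2 k'),
    fun r hr r' hr' r'' hr'' e he k k' => h3.ns3 r hr r' hr' r'' hr'' e he
      (fun k'' => k ((h.det2 r r' e o).1 k'')) ((h _ _).2 k')⟩,
    ⟨h4.UC, fun e he => (h4.adj e he).imp fun r k => ⟨k.1, fun k' => k.2 ((h.zero_iff _ _).2 k')⟩,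
      fun k => h4.ind ((h _ _).2 k)⟩, h5⟩

theorem auxCongr (m : ℕ) : AUXCONGR F m := by
  rintro E K _ _ c col col' S T kk C hS hT h hc hk ⟨h1, h2, o, R, U, h3, h4, h5⟩
  have hcol : ∀ x, ∀ y ∈ C, T x y = S x y := fun x y hy => by rw [hT x y, hS x y, h y hy x]
  have hd : ∀ {X Y : Set E}, Y ⊆ C → Dep T X Y → Dep S X Y := fun hY k =>
    k.congr fun x _ y hy => (hcol x y (hY hy)).symm
  have hR := h3.RC
  refine ⟨h1.congr fun u hu v _ => h u hu v, fun x hx => h2 x fun b hb => ?_, o, R, U,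
    ⟨h3.oC, hR, fun r hr => (hc r (hR hr)).trans (h3.colR r hr),
      fun r hr => (h r (hR hr) o).trans_ne (h3.adj r hr),
      h3.dep.congr fun x _ y hy => hcol x y (hR hy),
      h3.base.imp fun r k => ⟨k.1, fun k' => k.2 (hd (Set.sdiff_subset.trans hR) k')⟩,
      fun r hr r' hr' e he k k' => h3.ns2 r hr r' hr' e he (h r (hR hr) e ▸ k) (hd ?_ k'),
      fun r hr r' hr' r'' hr'' e he k k' => h3.ns3 r hr r' hr' r'' hr'' e he ?_ (hd ?_ k')⟩,
    ⟨h4.UC, fun e he => (h4.adj e he).imp fun r k => ⟨k.1, (h r (hR k.1) e).trans_ne k.2⟩,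
      fun k => h4.ind (hd h4.UC k)⟩, ?_⟩
  · rw [← hx b hb]
    congr 1
    exact funext fun r => (hcol _ b hb).symm
  · exact Set.insert_subset (hR hr) (Set.singleton_subset_iff.2 (hR hr'))
  · rwa [h r (hR hr), h r (hR hr), h r' (hR hr'), h r' (hR hr')] at k
  · exact Set.insert_subset (hR hr) (Set.insert_subset (hR hr')
      (Set.singleton_subset_iff.2 (hR hr'')))
  · rw [Fintype.card_congr (Equiv.subtypeEquivRight
      (q := fun k => ¬col (kk k) = c) fun k => by rw [hk k])]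
    exact h5

theorem auxSub (m : ℕ) : AUXSUB F m := by
  intro E K W _ _ _ c col S kk f hi h
  refine aux_sub hi ?_
  rw [← Set.range_comp]
  exact h

theorem auxLc (m : ℕ) : AUXLC F m := by
  rintro K W _ _ c d hA hU ⟨h1, h2, o, R, U, h3, h4, h5⟩
  classical
  have hB : d.B = d.A := by rw [Datum.B, hU, transpose_zero, add_zero]
  have hP : ∀ p q, d.pair false (inr p) (inr q) = d.B p q := fun p q => by rw [hB]; rfl
  have hi : Function.Injective (inr : W → K ⊕ W) := inr_injective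
  obtain ⟨o, rfl⟩ := h3.oC
  obtain ⟨R, rfl⟩ := Set.subset_range_iff_exists_image_eq.1 h3.RC
  obtain ⟨U, rfl⟩ := Set.subset_range_iff_exists_image_eq.1 h4.UC
  lift R to Finset W using Set.toFinite R
  lift U to Finset W using Set.toFinite U
  refine ⟨fun x hx => h2 x (Set.forall_mem_range.2 hx), fun X hX => ?_, o, R, U,
    ⟨fun r hr => h3.colR _ ⟨r, hr, rfl⟩, fun r hr => hP r o ▸ h3.adj _ ⟨r, hr, rfl⟩, ?_, ?_,
      fun r hr r' hr' e k φ k1 k2 k3 => by_contra fun k0 => ?_,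
      fun r hr r' hr' r'' hr'' e k φ k1 k2 k3 k4 => by_contra fun k0 => ?_, fun e he => ?_,
      fun u k1 k2 => by_contra fun k0 => h4.ind ((dep_image hi _ _).2
        ⟨u, k0, k1, (core_iff d u).2 k2⟩)⟩, ?_⟩
  · rw [← Set.image_univ] at h1
    refine (h1 (inr '' X) (Set.image_mono (Set.subset_univ X)) ?_).imp Set.image_eq_empty.1
      hi.image_injective.eq_iff.1
    rw [← Set.image_sdiff hi]
    rintro _ ⟨u, hu, rfl⟩ _ ⟨v, hv, rfl⟩
    exact (hP u v).trans (hX u hu v hv.2).1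
  · obtain ⟨φ, k0, k1, k2⟩ := (dep_image hi _ _).1 h3.dep
    exact ⟨φ, k0, k1, (core_iff d φ).1 k2⟩
  · obtain ⟨_, ⟨r, hr, rfl⟩, k⟩ := h3.base
    refine ⟨r, hr, fun φ k1 k2 => by_contra fun k0 => k ?_⟩
    rw [← Set.image_singleton, ← Set.image_sdiff hi]
    refine (dep_image hi _ _).2 ⟨φ, k0, fun t ht => k1 t ?_, (core_iff d φ).2 k2⟩
    exact or_iff_not_imp_right.2 fun k3 k4 => ht ⟨k4, k3⟩
  · refine h3.ns2 _ ⟨r, hr, rfl⟩ _ ⟨r', hr', rfl⟩ _ ⟨e, rfl⟩ ((hP r e).trans_ne k) ?_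
    rw [← Set.image_pair]
    exact (dep_image hi _ _).2 ⟨φ, k0, fun t ht => k1 t (fun k4 => ht (Or.inl k4))
      fun k4 => ht (Or.inr k4), Set.forall_mem_insert.2 ⟨row_eq hA hB k3, (core_iff d φ).2 k2⟩⟩
  · refine h3.ns3 _ ⟨r, hr, rfl⟩ _ ⟨r', hr', rfl⟩ _ ⟨r'', hr'', rfl⟩ _ ⟨e, rfl⟩
      (by simpa only [hP] using k) ?_
    rw [← Set.image_pair, ← Set.image_insert_eq]
    exact (dep_image hi _ _).2 ⟨φ, k0, fun t ht => k1 t (fun k5 => ht (Or.inl k5))
      (fun k5 => ht (Or.inr (Or.inl k5))) fun k5 => ht (Or.inr (Or.inr k5)),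
      Set.forall_mem_insert.2 ⟨row_eq hA hB k3,
        Set.forall_mem_insert.2 ⟨row_eq hA hB k4, (core_iff d φ).2 k2⟩⟩⟩
  · obtain ⟨_, ⟨r, hr, rfl⟩, k⟩ := h4.adj _ ⟨e, he, rfl⟩
    exact ⟨r, hr, hP r e ▸ k⟩
  · rw [Set.ncard_image_of_injective _ hi, Set.ncard_image_of_injective _ hi, Set.ncard_coe_finset,
      Set.ncard_coe_finset] at h5
    exact h5

end Pool.Agent.MP_d99b12_co.H25
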