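import Pool.Agent.MP_d99b12_co.H25.Spec
import Pool.Agent.MP_d99b12_co.H25.ChainB

/-! # A deviant triple two-summed onto a skeleton (MP_d99b12_co, row BGEN) -/

namespace Pool.Agent.MP_d99b12_co.H25

open Matrix Sum

namespace BGEN

variable {F : Type} [Field F] {K P : Type}

lemma big_same (d : Datum F K P) {n : ℕ} (u : Fin n) (p q : P) :
    (d.big fun _ => d.A) (inr (u, p)) (inr (u, q)) = d.A p q := by
  simp [Datum.big]

lemma big_lt (d : Datum F K P) {n : ℕ} {u t : Fin n} (h : u < t) (p q : P) :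
    (d.big fun _ => d.A) (inr (u, p)) (inr (t, q)) = d.U p q := by
  simp [Datum.big, h, h.ne]

lemma big_gt (d : Datum F K P) {n : ℕ} {u t : Fin n} (h : t < u) (p q : P) :
    (d.big fun _ => d.A) (inr (u, p)) (inr (t, q)) = -d.U q p := by
  simp [Datum.big, h.ne', not_lt.2 h.le]

/-- A linear relation between two columns of `V` passes to `U`. -/
lemma ref_col [Fintype K] {d : Datum F K P} (hr : d.Ref) {q e : P} {α β : F}
    (h : ∀ k', d.V k' q * α = d.V k' e * β) (p : P) :
    d.U p q * α = d.U p e * β ∧ d.U q p * α = d.U e p * β := by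
  have key : ∀ x : K → F, x ⬝ᵥ d.y q * α = x ⬝ᵥ d.y e * β := by
    intro x
    simp only [dotProduct, Datum.y, Finset.sum_mul, mul_assoc, h]
  obtain ⟨x, hx⟩ := hr.1 p
  obtain ⟨x', hx'⟩ := hr.2 p
  rw [hx q, hx e, hx' q, hx' e]
  exact ⟨key x, key x'⟩

lemma ref_zero [Fintype K] {d : Datum F K P} (hr : d.Ref) {q : P} (h : ∀ k', d.V k' q = 0)
    (p : P) : d.U p q = 0 ∧ d.U q p = 0 := by
  have := ref_col hr (q := q) (e := q) (α := 1) (β := 0) (fun k' => by simp [h k']) p
  simpa using this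

lemma big_col [Fintype K] {d : Datum F K P} (hr : d.Ref) {q e : P} {α β : F}
    (h : ∀ k', d.V k' q * α = d.V k' e * β) {n : ℕ} {i u : Fin n} (hne : i ≠ u) (p : P) :
    (d.big fun _ => d.A) (inr (i, p)) (inr (u, q)) * α =
      (d.big fun _ => d.A) (inr (i, p)) (inr (u, e)) * β := by
  rcases lt_or_gt_of_ne hne with hl | hl
  · rw [big_lt d hl, big_lt d hl]
    exact (ref_col hr h p).1
  · rw [big_gt d hl, big_gt d hl, neg_mul, neg_mul, (ref_col hr h p).2]

lemma big_row_zero [Fintype K] {d : Datum F K P} (hr : d.Ref) {p : P} (h : ∀ k', d.V k' p = 0)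
    {n : ℕ} {i u : Fin n} (hne : i ≠ u) (q : P) :
    (d.big fun _ => d.A) (inr (i, p)) (inr (u, q)) = 0 := by
  rcases lt_or_gt_of_ne hne with hl | hl
  · rw [big_lt d hl]
    exact (ref_zero hr h q).2
  · rw [big_gt d hl, (ref_zero hr h q).1, neg_zero]

lemma bool_eq_of_ne {x y z : Bool} (h1 : x ≠ z) (h2 : y ≠ z) : x = y := by
  cases x <;> cases y <;> cases z <;> simp_all

/-- The skeleton `e, v 1, …, v ℓ` admits no closed set beyond the triple. -/
lemma sk_core [Fintype K] (d : Datum F K P) (hr : d.Ref) (hsk : Skew d.A)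
    (hA : ∀ p q, d.colP p = d.colP q → d.A p q = 0)
    (hU : ∀ p q, d.colP p = d.colP q → d.U p q = 0)
    (hV : ∀ k p, d.colP p = d.colK k → d.V k p = 0)
    {k : K} {e a b2 : P} {ℓ : ℕ} {v : ℕ → P}
    (hke : d.V k e ≠ 0) (hkb : d.V k b2 ≠ 0) (hae : d.A a e ≠ 0)
    (hb1 : ∀ k', d.V k' b2 * d.V k e = d.V k' e * d.V k b2)
    (hb2 : ∀ j, 1 ≤ j → j ≤ ℓ → d.A (v j) b2 * d.V k e = d.A (v j) e * d.V k b2)
    (hℓ : 1 ≤ ℓ)
    (first : ∃ k0, d.V k0 (v 1) * d.V k e ≠ d.V k0 e * d.V k (v 1))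
    (par : ∀ j, 2 ≤ j → j ≤ ℓ → ∀ k', d.V k' (v j) * d.V k e = d.V k' e * d.V k (v j))
    (edge : ∀ j, 1 ≤ j → j < ℓ →
      d.A (v j) (v (j + 1)) * d.V k e ≠ d.A (v j) e * d.V k (v (j + 1)))
    (last : d.B e (v ℓ) ≠ 0 ∨ d.B (v ℓ) e ≠ 0)
    (cover : ∀ p, p = e ∨ p = a ∨ p = b2 ∨ ∃ j, 1 ≤ j ∧ j ≤ ℓ ∧ p = v j)
    (n : ℕ) (J : Set (Fin n)) (t : Fin n) (X : Set (Fin n × P)) (hJ : ∀ x ∈ X, x.1 ∈ J)
    (hte : (t, e) ∈ X) (hta : (t, a) ∈ X) (htb : (t, b2) ∈ X)
    (H1 : ∀ k', ∀ x ∈ X, d.V k' x.2 * d.V k e = d.V k' e * d.V k x.2)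
    (H2 : ∀ w : Fin n × P, w.1 ∈ J → w ∉ X → ∀ x ∈ X,
      (d.big fun _ => d.A) (.inr w) (.inr x) * d.V k e =
        (d.big fun _ => d.A) (.inr w) (.inr (t, e)) * d.V k x.2) :
    X = {(t, e), (t, a), (t, b2)} := by
  have row0 : ∀ p, d.colP p ≠ d.colP e → d.V k p = 0 := by
    intro p hp
    refine hV k p (bool_eq_of_ne hp ?_)
    intro hc
    exact hke (hV k e hc.symm)
  have F1 : ∀ u, ((u, e) ∈ X ∨ (u, b2) ∈ X) → ∀ i ∈ J, ∀ j, 1 ≤ j → j ≤ ℓ → (i, v j) ∉ X →
      (d.big fun _ => d.A) (inr (i, v j)) (inr (u, e)) =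
        (d.big fun _ => d.A) (inr (i, v j)) (inr (t, e)) := by
    intro u hu i hi j h1 h2 hw
    rcases hu with hu | hu
    · exact mul_right_cancel₀ hke (H2 (i, v j) hi hw (u, e) hu)
    · have e1 := H2 (i, v j) hi hw (u, b2) hu
      have e2 : (d.big fun _ => d.A) (inr (i, v j)) (inr (u, b2)) * d.V k e =
          (d.big fun _ => d.A) (inr (i, v j)) (inr (u, e)) * d.V k b2 := by
        by_cases hiu : i = u
        · subst hiu
          rw [big_same, big_same]
          exact hb2 j h1 h2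
        · exact big_col hr hb1 hiu _
      exact mul_right_cancel₀ hkb (e2.symm.trans e1)
  have hEJ : ∀ u, ((u, e) ∈ X ∨ (u, b2) ∈ X) → u ∈ J := by
    rintro u (hu | hu)
    · exact hJ _ hu
    · exact hJ _ hu
  have F2 : ∀ u, ((u, e) ∈ X ∨ (u, b2) ∈ X) → ∀ j, 1 ≤ j → j ≤ ℓ → (u, v j) ∉ X := by
    intro u hu j h1
    induction j, h1 using Nat.le_induction with
    | base =>
      intro _ hx
      obtain ⟨k0, hk0⟩ := first
      exact hk0 (H1 k0 _ hx)
    | succ j h1 ih =>
      intro h2 hx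
      have hw := ih (by omega)
      have e1 := H2 (u, v j) (hEJ u hu) hw (u, v (j + 1)) hx
      rw [← F1 u hu u (hEJ u hu) j h1 (by omega) hw, big_same, big_same] at e1
      exact edge j h1 (by omega) e1
  have step : ∀ u, u ≠ t → (u, e) ∉ X → ∀ j, 1 ≤ j → j ≤ ℓ → (u, v j) ∈ X →
      j < ℓ ∧ (u, v (j + 1)) ∈ X := by
    intro u hut hue j h1 h2 hx
    have huJ : u ∈ J := hJ _ hx
    by_cases hc : d.colP (v j) = d.colP e
    · have hlt : j < ℓ := by
        rcases h2.lt_or_eq with h | h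
        · exact h
        · exfalso
          subst h
          have z1 : d.B e (v j) = 0 := by
            simp [Datum.B, hA _ _ hc.symm, hU _ _ hc]
          have z2 : d.B (v j) e = 0 := by
            simp [Datum.B, hA _ _ hc, hU _ _ hc.symm]
          rcases last with h | h
          · exact h z1
          · exact h z2
      refine ⟨hlt, ?_⟩
      by_contra hw
      have e0 := edge j h1 hlt
      rw [hA _ _ hc, zero_mul] at e0
      have hne : d.A (v j) (v (j + 1)) ≠ 0 := left_ne_zero_of_mul e0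
      have hrow : d.colP (v (j + 1)) ≠ d.colP e := by
        intro h
        exact hne (hA _ _ (hc.trans h.symm))
      have hun : ∀ k', d.V k' (v (j + 1)) = 0 := by
        intro k'
        have := par (j + 1) (by omega) (by omega) k'
        rw [row0 _ hrow, mul_zero] at this
        exact (mul_eq_zero.1 this).resolve_right hke
      have e1 := H2 (u, v (j + 1)) huJ hw (u, v j) hx
      rw [big_same, big_row_zero hr hun hut, zero_mul] at e1
      have e2 := (mul_eq_zero.1 e1).resolve_right hke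
      rw [hsk, neg_eq_zero] at e2
      exact hne e2
    · have hk0 : d.V k (v j) = 0 := row0 _ hc
      have hout : ∀ p, (u, p) ∉ X → d.A (v j) p = 0 := by
        intro p hp
        have e1 := H2 (u, p) huJ hp (u, v j) hx
        rw [big_same] at e1
        simp only [hk0, mul_zero] at e1
        have e2 := (mul_eq_zero.1 e1).resolve_right hke
        rw [hsk, neg_eq_zero] at e2
        exact e2
      have hje : d.A (v j) e = 0 := hout e hue
      have hlt : j < ℓ := by
        rcases h2.lt_or_eq with h | h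
        · exact h
        · exfalso
          subst h
          have hun : ∀ k', d.V k' (v j) = 0 := by
            intro k'
            have := H1 k' _ hx
            simp only [hk0, mul_zero] at this
            exact (mul_eq_zero.1 this).resolve_right hke
          have hej : d.A e (v j) = 0 := by rw [hsk, hje, neg_zero]
          have z1 : d.B e (v j) = 0 := by
            simp [Datum.B, hej, (ref_zero hr hun e).2]
          have z2 : d.B (v j) e = 0 := by
            simp [Datum.B, hje, (ref_zero hr hun e).1]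
          rcases last with h | h
          · exact h z1
          · exact h z2
      refine ⟨hlt, ?_⟩
      by_contra hw
      have e0 := edge j h1 hlt
      rw [hje, hout _ hw, zero_mul, zero_mul] at e0
      exact e0 rfl
  have F3 : ∀ u, u ≠ t → (u, e) ∉ X → ∀ i j, j + i = ℓ → 1 ≤ j → (u, v j) ∉ X := by
    intro u hut hue i
    induction i with
    | zero =>
      intro j hj h1 hx
      have := (step u hut hue j h1 (by omega) hx).1
      omega
    | succ i ih =>
      intro j hj h1 hx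
      exact ih (j + 1) (by omega) (by omega) (step u hut hue j h1 (by omega) hx).2
  have F4 : ∀ u j, 1 ≤ j → j ≤ ℓ → (u, v j) ∉ X := by
    intro u j h1 h2
    by_cases hue : (u, e) ∈ X
    · exact F2 u (Or.inl hue) j h1 h2
    · refine F3 u ?_ hue (ℓ - j) j (by omega) h1
      rintro rfl
      exact hue hte
  have F5 : ∀ u, ((u, e) ∈ X ∨ (u, b2) ∈ X) → u = t := by
    intro u hu
    by_contra hut
    have e1 := F1 u hu u (hEJ u hu) ℓ hℓ le_rfl (F4 u ℓ hℓ le_rfl)
    have e2 := F1 u hu t (hJ _ hte) ℓ hℓ le_rfl (F4 t ℓ hℓ le_rfl)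
    rw [big_same] at e1 e2
    have hs := hsk e (v ℓ)
    have key : d.A (v ℓ) e = d.U (v ℓ) e ∧ d.A (v ℓ) e = -d.U e (v ℓ) := by
      rcases lt_or_gt_of_ne hut with hl | hl
      · rw [big_lt d hl] at e1
        rw [big_gt d hl] at e2
        exact ⟨e1, e2.symm⟩
      · rw [big_gt d hl] at e1
        rw [big_lt d hl] at e2
        exact ⟨e2.symm, e1⟩
    rcases last with h | h
    · apply h
      simp only [Datum.B, Matrix.add_apply, Matrix.transpose_apply]
      linear_combination hs - key.1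
    · apply h
      simp only [Datum.B, Matrix.add_apply, Matrix.transpose_apply]
      linear_combination key.2
  apply Set.Subset.antisymm
  · rintro ⟨u, p⟩ hx
    simp only [Set.mem_insert_iff, Set.mem_singleton_iff, Prod.mk.injEq]
    rcases cover p with rfl | rfl | rfl | ⟨j, h1, h2, rfl⟩
    · exact Or.inl ⟨F5 u (Or.inl hx), rfl⟩
    · refine Or.inr (Or.inl ⟨?_, rfl⟩)
      by_contra hut
      have hue : (u, e) ∉ X := fun h => hut (F5 u (Or.inl h))
      have e1 := H2 (u, e) (hJ (u, p) hx) hue (u, p) hx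
      have hrow : d.colP p ≠ d.colP e := fun h => hae (hA _ _ h)
      rw [big_same] at e1
      simp only [row0 p hrow, mul_zero] at e1
      have e2 := (mul_eq_zero.1 e1).resolve_right hke
      rw [hsk, neg_eq_zero] at e2
      exact hae e2
    · exact Or.inr (Or.inr ⟨F5 u (Or.inr hx), rfl⟩)
    · exact absurd hx (F4 u j h1 h2)
  · rintro x (rfl | rfl | rfl)
    · exact hte
    · exact hta
    · exact htb

/-- A maximal closed set has an `N`-edge from the base element to the outside. -/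
lemma exists_z [Fintype K] [Fintype P] {d : Datum F K P} (hr : d.Ref) (hsk : Skew d.A)
    (hc : NConn d.B) (hl : 2 ≤ d.V.rank) {k : K} {e : P} (hke : d.V k e ≠ 0) {W : Set (K ⊕ P)}
    (hd : Disjoint W (Set.range inl)) (he : inr e ∈ W)
    (hclo : Clo (d.pair false) (inl k) (inr e) W) :
    ∃ z, inr z ∉ W ∧ (d.B e z ≠ 0 ∨ d.B z e ≠ 0) := by
  have hK : ∀ k', inl k' ∉ W := fun k' h => Set.disjoint_left.1 hd h ⟨k', rfl⟩
  have C1 : ∀ p, inr p ∈ W → ∀ k', d.V k' p * d.V k e = d.V k' e * d.V k p :=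
    fun p hp k' => hclo _ (hK k') _ hp
  have C2 : ∀ p, inr p ∈ W → ∀ q, inr q ∉ W → d.A q p * d.V k e = d.A q e * d.V k p :=
    fun p hp q hq => hclo _ hq _ hp
  by_contra hno
  push Not at hno
  have := hc {p | inr p ∈ W} (by
    intro p hp q hq
    obtain ⟨z1, z2⟩ := hno q hq
    obtain ⟨u1, u2⟩ := ref_col hr (C1 p hp) q
    have a1 := C2 p hp q hq
    have s1 := hsk p q
    have s2 := hsk e q
    simp only [Datum.B, Matrix.add_apply, Matrix.transpose_apply] at z1 z2 ⊢
    constructor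
    · apply mul_right_cancel₀ hke
      linear_combination u1 - a1 + d.V k e * s1 - d.V k p * s2 + d.V k p * z1
    · apply mul_right_cancel₀ hke
      linear_combination u2 + a1 + d.V k p * z2)
  rcases this with h | h
  · exact (Set.ext_iff.1 h e).1 he
  · have : d.V.rank ≤ 1 := by
      rw [rank_le_iff_fac]
      refine ⟨fun i _ => d.V i e, fun j _ => d.V k j / d.V k e, fun i j => ?_⟩
      have := C1 j ((Set.ext_iff.1 h j).2 trivial) i
      simp only [dotProduct, Finset.univ_unique, Finset.sum_singleton]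
      field_simp
      linear_combination this
    omega

lemma tri_of_clo [Fintype K] [Fintype P] {d : Datum F K P} (ha : d.Alg) (hr : d.Ref)
    (hc : NConn d.B) (hl : 2 ≤ d.V.rank) {k : K} {e a b2 : P}
    (huc : UC4 (d.pair false) (d.pair true) (inl k) (inr e) (inr a) (inr b2))
    {X : Set (K ⊕ P)} (hd : Disjoint X (Set.range inl)) (he : inr e ∈ X) (haX : inr a ∈ X)
    (hb : inr b2 ∈ X) (hclo : Clo (d.pair false) (inl k) (inr e) X) :
    ∃ (P0 : Set P) (e' a' b' : P0), (d.resP (Subtype.val : P0 → P)).Tri k e' a' b' := by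
  have hsk : Skew d.A := ha.skewA.1
  have hke : d.V k e ≠ 0 := huc.1
  obtain ⟨W, hXW, hW⟩ := Finite.exists_le_maximal
    (p := fun W : Set (K ⊕ P) => Disjoint W (Set.range inl) ∧
      Clo (d.pair false) (inl k) (inr e) W) (a := X) ⟨hd, hclo⟩
  obtain ⟨hWd, hWc⟩ := hW.prop
  have hK : ∀ k', inl k' ∉ W := fun k' h => Set.disjoint_left.1 hWd h ⟨k', rfl⟩
  obtain ⟨z0, hz0, hlast⟩ := exists_z hr hsk hc hl hke hWd (hXW he) hWc
  rcases exists_sWalk_or_closed (fun w x : K ⊕ P => x ∉ W ∧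
      d.pair false w x * d.pair false (inl k) (inr e) ≠
        d.pair false w (inr e) * d.pair false (inl k) x) (Set.range inl) {inr z0} with
    ⟨ℓ, z, hz⟩ | ⟨Y, hY1, hY2, hY3⟩
  swap
  · exfalso
    have hbig : W ∪ Yᶜ ≤ W := by
      refine hW.le_of_ge ⟨?_, ?_⟩ Set.subset_union_left
      · rw [Set.disjoint_left]
        rintro x (hx | hx) hx'
        · exact Set.disjoint_left.1 hWd hx hx'
        · exact hx (hY1 hx')
      · intro w hw x hx
        have hwW : w ∉ W := fun h => hw (Or.inl h)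
        have hwY : w ∈ Y := by
          by_contra h
          exact hw (Or.inr h)
        by_cases hxW : x ∈ W
        · exact hWc w hwW x hxW
        · by_contra hne
          exact hY3 w hwY x (hx.resolve_left hxW) ⟨hxW, hne⟩
    exact hz0 (hbig (Or.inr fun h => Set.disjoint_left.1 hY2 h rfl))
  have hzl : z ℓ = inr z0 := hz.stop
  have hℓ : 1 ≤ ℓ := by
    rcases Nat.eq_zero_or_pos ℓ with h | h
    · exfalso
      subst h
      obtain ⟨k0, hk0⟩ := hz.start
      rw [hzl] at hk0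
      exact inl_ne_inr hk0
    · exact h
  have hzW : ∀ j, 1 ≤ j → j ≤ ℓ → z j ∉ W := by
    intro j h1 h2
    have := (hz.step (j - 1) (by omega)).1
    rwa [show j - 1 + 1 = j by omega] at this
  let P0 : Set P := {p | p = e ∨ p = a ∨ p = b2 ∨ ∃ j, 1 ≤ j ∧ j ≤ ℓ ∧ z j = inr p}
  have hv : ∀ j, ∃ q : P0, 1 ≤ j → j ≤ ℓ → z j = inr q.1 := by
    intro j
    by_cases h : 1 ≤ j ∧ j ≤ ℓ
    · have hn := hz.notMem_start (i := j) (by omega) h.2
      rcases hj : z j with k' | p
      · exact absurd ⟨k', hj.symm⟩ hn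
      · exact ⟨⟨p, Or.inr (Or.inr (Or.inr ⟨j, h.1, h.2, hj⟩))⟩, fun _ _ => rfl⟩
    · exact ⟨⟨e, Or.inl rfl⟩, fun h1 h2 => absurd ⟨h1, h2⟩ h⟩
  choose v hv using hv
  have hvW : ∀ j, 1 ≤ j → j ≤ ℓ → inr (v j).1 ∉ W := fun j h1 h2 => hv j h1 h2 ▸ hzW j h1 h2
  have cover : ∀ p : P0, p = ⟨e, Or.inl rfl⟩ ∨ p = ⟨a, Or.inr (Or.inl rfl)⟩ ∨
      p = ⟨b2, Or.inr (Or.inr (Or.inl rfl))⟩ ∨ ∃ j, 1 ≤ j ∧ j ≤ ℓ ∧ p = v j := by
    rintro ⟨p, hp⟩
    rcases hp with h | h | h | ⟨j, h1, h2, h⟩
    · exact Or.inl (Subtype.ext h)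
    · exact Or.inr (Or.inl (Subtype.ext h))
    · exact Or.inr (Or.inr (Or.inl (Subtype.ext h)))
    · refine Or.inr (Or.inr (Or.inr ⟨j, h1, h2, Subtype.ext ?_⟩))
      exact inr_injective (h.symm.trans (hv j h1 h2))
  refine ⟨P0, ⟨e, Or.inl rfl⟩, ⟨a, Or.inr (Or.inl rfl)⟩, ⟨b2, Or.inr (Or.inr (Or.inl rfl))⟩,
    huc, ?_, ?_⟩
  · intro w hw x hx
    have hxW : ∃ p : P0, x = inr p ∧ inr p.1 ∈ W := by
      rcases hx with rfl | rfl | rfl
      · exact ⟨_, rfl, hXW he⟩
      · exact ⟨_, rfl, hXW haX⟩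
      · exact ⟨_, rfl, hXW hb⟩
    obtain ⟨p, rfl, hp⟩ := hxW
    rcases w with k' | q
    · exact hWc _ (hK k') _ hp
    · have hq : inr q.1 ∉ W := by
        rcases cover q with rfl | rfl | rfl | ⟨j, h1, h2, rfl⟩
        · exact absurd (Or.inl rfl) hw
        · exact absurd (Or.inr (Or.inl rfl)) hw
        · exact absurd (Or.inr (Or.inr rfl)) hw
        · exact hvW j h1 h2
      exact hWc _ hq _ hp
  · refine sk_core (d.resP (Subtype.val : P0 → P)) (hr.resP _) (fun p q => hsk p.1 q.1)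
      (fun p q h => ha.fam_pair.bip false (inr p.1) (inr q.1) h) (fun p q h => ha.U_col h)
      (fun k' p h => ha.y_col h) (ℓ := ℓ) (v := v) hke huc.2.1 huc.2.2.1
      (fun k' => hWc _ (hK k') _ (hXW hb)) (fun j h1 h2 => hWc _ (hvW j h1 h2) _ (hXW hb)) hℓ
      ?_ ?_ ?_ ?_ cover
    · obtain ⟨k0, hk0⟩ := hz.start
      have := (hz.step 0 (by omega)).2
      rw [← hk0, zero_add, hv 1 le_rfl hℓ] at this
      exact ⟨k0, this⟩
    · intro j h1 h2 k'
      have := hz.chord_start (a := inl k') ⟨k', rfl⟩ h1 h2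
      by_contra hne
      apply this
      rw [hv j (by omega) h2]
      exact ⟨hvW j (by omega) h2, hne⟩
    · intro j h1 h2
      have := (hz.step j h2).2
      rw [hv j h1 h2.le, hv (j + 1) (by omega) (by omega)] at this
      exact this
    · have : (v ℓ).1 = z0 := inr_injective ((hv ℓ hℓ le_rfl).symm.trans hzl)
      rw [← this] at hlast
      exact hlast

end BGEN

variable {F : Type} [Field F] [Fintype F]

theorem bgen {m : ℕ} (hcl : CL F) (hw : WALKP F) (hp : HP F m)
    (hpar : ∀ (K P : Type) [Fintype K] [Fintype P] (d : Datum F K P), Real m d → d.Ref →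
      ParAll (Set.range Sum.inl) d.dsp) : BGEN F m := by
  intro K P _ _ d hreal href hconn hrk hdev
  have halg := hreal.alg
  have hfam := halg.fam_pair
  have hpa := hpar K P d hreal href
  have hdv : DevP (Set.range inl) (d.pair false) (d.pair true) (Set.range inl)ᶜ := by
    have := Datum.devD_iff.1 hdev
    rwa [Set.image_univ, ← Set.compl_range_inl] at this
  rcases hcl (K ⊕ P) d.dsp (Set.range inl) hfam hpa (halg.rooted href hconn (by omega)) hdv with
    h | ⟨b, hb, k, ⟨k', rfl⟩, b1, a0, b2, h1, h2, h3, huc⟩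
  · exact Or.inl h
  by_cases hns : NS (Set.range inl) (b.2 false) (inl k') b1 a0 b2
  · exact Or.inl ((hw (K ⊕ P) b (Set.range inl) (inl k') b1 a0 b2 (hb.fam hfam) (hpa.reach hb)
      ⟨k', rfl⟩ h1 h2 h3 huc hns).of_reach hb)
  right
  obtain ⟨d1, c, hreal1, href1, hrk1, hconn1, -, -, hf, ht⟩ := hp K P d hreal href b hb
  have hin : ∀ x : K ⊕ P, x ∉ Set.range inl → ∃ p, x = inr p := by
    rintro (k0 | p) hx
    · exact absurd ⟨k0, rfl⟩ hx
    · exact ⟨p, rfl⟩
  obtain ⟨e, rfl⟩ := hin b1 h1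
  obtain ⟨a, rfl⟩ := hin a0 h2
  obtain ⟨b', rfl⟩ := hin b2 h3
  have huc1 : UC4 (d1.pair false) (d1.pair true) (inl k') (inr e) (inr a) (inr b') := by
    rw [hf, ht]
    exact huc.scale c
  simp only [NS, not_forall, not_not] at hns
  obtain ⟨X, hX, x1, x2, x3, hclo⟩ := hns
  rw [← hf] at hclo
  obtain ⟨P0, e', a', b'', htri⟩ := BGEN.tri_of_clo hreal1.alg href1 (hconn1 hconn)
    (hrk1 ▸ hrk) huc1 hX x1 x2 x3 hclo
  exact ⟨P0, Fintype.ofFinite _, _, k', e', a', b'', hreal1.resP Subtype.val_injective,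
    href1.resP _, htri⟩

end Pool.Agent.MP_d99b12_co.H25
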