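import Pool.Agent.MP_d99b12_co.H25.Spec
import Pool.Agent.MP_d99b12_co.H25.Comb

/-! # Moving the visible pair (rows `C1PRE`, `C1`) -/

namespace Pool.Agent.MP_d99b12_co.H25

open Matrix

set_option linter.unusedSectionVars false

namespace C1

variable {F : Type} [Field F] {K P : Type} [Fintype K] [Fintype P]

lemma epiv_uv' (S : Matrix P P F) {x y u v : P} (h1 : u ≠ x) (h2 : u ≠ y) (h3 : v ≠ x)
    (h4 : v ≠ y) : epiv S x y u v = S u v - S u x * S y v / S y x - S u y * S x v / S x y := by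
  simp [epiv, h1, h2, h3, h4]

lemma reY_of_ne (y : P → K → F) (B : Matrix P P F) {a b p : P} (h1 : p ≠ a) (h2 : p ≠ b) :
    reY y B a b p = y p - (B p b / B a b) • y a - (B p a / B b a) • y b := by
  simp [reY, h1, h2]

lemma colFlip_ne (col : P → Bool) {a b p : P} (h1 : p ≠ a) (h2 : p ≠ b) :
    colFlip col {a, b} p = col p := by
  simp [colFlip, h1, h2]

variable {s : Sys F K} {col : P → Bool} {y : P → K → F} {B Bs : Matrix P P F}
  {ε : Matrix K K F}

/-- At a vertex whose vector is killed by `δ` the matrix is skew. -/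
lemma skew_of (h : ∀ p q, B p q + B q p = y p ⬝ᵥ s.δ *ᵥ y q) {p : P} (hp : s.δ *ᵥ y p = 0)
    (q : P) : B p q = -B q p := by
  have := h q p
  rw [hp, dotProduct_zero] at this
  linear_combination this

lemma vis_symm (h : Disp s col y B Bs ε) {a b : P} (hv : VisP y B Bs a b) : VisP y B Bs b a := by
  refine ⟨hv.2.1, hv.1, fun e => hv.2.2 ?_⟩
  have h1 := h.compat a b
  have h2 := h.compats a b
  linear_combination h2 - h1 - e

lemma vis_ne (hz : ∀ p q, Bs p q = 0 ↔ B p q = 0) {a b : P} (hv : VisP y B Bs a b) :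
    B a b ≠ 0 := fun e => hv.2.2 (by rw [e, (hz a b).2 e])

/-- Parallel vectors `x - β' v = c (x - β v)` with `x ∈ D0`, `x ≠ 0`, `v ∉ D0`. -/
lemma pin {D0 : Submodule F (K → F)} {x v : K → F} (hx : x ∈ D0) (hx0 : x ≠ 0) (hv : v ∉ D0)
    {β β' c : F} (h : x - β' • v = c • (x - β • v)) : c = 1 ∧ β' = β := by
  have e : (β' - c * β) • v = (1 - c) • x := by
    rw [sub_smul, sub_smul, one_smul, mul_smul]
    have := h
    rw [smul_sub] at this
    linear_combination (exp := 1) -this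
  have h0 : β' - c * β = 0 := by
    by_contra h0
    apply hv
    have : v = (β' - c * β)⁻¹ • ((1 - c) • x) := by rw [← e, smul_smul, inv_mul_cancel₀ h0, one_smul]
    rw [this]
    exact D0.smul_mem _ (D0.smul_mem _ hx)
  rw [h0, zero_smul] at e
  have hc : 1 - c = 0 := (smul_eq_zero.1 e.symm).resolve_right hx0
  have hc' : c = 1 := by linear_combination -hc
  exact ⟨hc', by rw [hc'] at h0; linear_combination h0⟩

lemma notMem_sub {D0 : Submodule F (K → F)} {x v : K → F} (hx : x ∈ D0) (hv : v ∉ D0) {β : F}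
    (hβ : β ≠ 0) : x - β • v ∉ D0 := by
  intro h
  apply hv
  have : v = β⁻¹ • (x - (x - β • v)) := by
    rw [sub_sub_cancel, smul_smul, inv_mul_cancel₀ hβ, one_smul]
  rw [this]
  exact D0.smul_mem _ (D0.sub_mem hx h)

lemma exists_notMem (h : ∀ x : K → F, (∀ p, x ⬝ᵥ y p = 0) → x = 0) {D0 : Submodule F (K → F)}
    (hD : D0 ≠ ⊤) : ∃ z, y z ∉ D0 := by
  classical
  by_contra hc
  push Not at hc
  obtain ⟨f, hf0, hf⟩ := Submodule.exists_le_ker_of_lt_top D0 (lt_top_iff_ne_top.2 hD)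
  have key : ∀ v : K → F, (fun k => f (Pi.single k 1)) ⬝ᵥ v = f v := by
    intro v
    conv_rhs => rw [← Finset.univ_sum_single v, map_sum]
    refine Finset.sum_congr rfl fun k _ => ?_
    have : (Pi.single k (v k) : K → F) = v k • Pi.single k 1 := by
      rw [← Pi.single_smul, smul_eq_mul, mul_one]
    rw [this, map_smul, smul_eq_mul, mul_comm]
  have h0 := h (fun k => f (Pi.single k 1)) fun p => by
    rw [key]; exact hf (hc p)
  apply hf0
  refine LinearMap.ext fun v => ?_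
  rw [← key, h0, zero_dotProduct]; rfl

/-- The conclusion of `C1PRE`. -/
def Out (s : Sys F K) (col : P → Bool) (y : P → K → F) (a b : P) (D0 : Submodule F (K → F)) :
    Prop :=
  ∃ (col' : P → Bool) (y' : P → K → F) (B' Bs' : Matrix P P F) (ε' : Matrix K K F),
    Disp s col' y' B' Bs' ε' ∧
    ((s.δ ≠ 0 ∧ ∃ a' b', VisP y' B' Bs' a' b' ∧ y' b' ∉ D0) ∨
      ∃ a' b' z, ((a' = a ∧ b' = b) ∨ (a' = b ∧ b' = a)) ∧ VisP y' B' Bs' a' b' ∧ y' a = y a ∧
        y' b = y b ∧ col' a = col a ∧ col' b = col b ∧ y' z ∉ D0 ∧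
        (B' a' z ≠ 0 ∨ ∃ w, y' w ∈ D0 ∧ B' w b' ≠ 0 ∧ B' w z ≠ 0 ∧ B' a' z = 0))

lemma Out.trans {col' : P → Bool} {y' : P → K → F} {a b : P} {D0 : Submodule F (K → F)}
    (h : Out s col' y' a b D0) (h1 : y' a = y a) (h2 : y' b = y b) (h3 : col' a = col a)
    (h4 : col' b = col b) : Out s col y a b D0 := by
  obtain ⟨col'', y'', B'', Bs'', ε'', hd, h⟩ := h
  refine ⟨col'', y'', B'', Bs'', ε'', hd, h.imp id ?_⟩
  rintro ⟨a', b', z, e0, e1, e2, e3, e4, e5, e6⟩
  exact ⟨a', b', z, e0, e1, e2.trans h1, e3.trans h2, e4.trans h3, e5.trans h4, e6⟩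

end C1

open C1

variable {F : Type} [Field F] [Fintype F]

lemma C1.main (hz : ZP F) (hr : REB F) {K P : Type} [Fintype K] [Fintype P] (s : Sys F K)
    (a b : P) (D0 : Submodule F (K → F)) (hD : ∀ x ∈ D0, s.δ *ᵥ x = 0) (n : ℕ) :
    ∀ (col : P → Bool) (y : P → K → F) (B Bs : Matrix P P F) (ε : Matrix K K F) (z : ℕ → P),
      Disp s col y B Bs ε → VisP y B Bs a b → y a ∈ D0 → y b ∈ D0 →
      Walk (fun p q => B p q ≠ 0 ∨ B q p ≠ 0) {a, b} {p | y p ∉ D0} n z → Out s col y a b D0 := by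
  induction n using Nat.strong_induction_on with
  | _ n ih =>
  intro col y B Bs ε z0 hd hv ha hb hw0
  obtain ⟨l, z, hln, hw⟩ := hw0.exists_sWalk
  have hzp := hz K P s col y B Bs ε hd
  have hin : ∀ i < l, y (z i) ∈ D0 := fun i hi => not_not.1 (hw.notMem_stop hi)
  have hsk : ∀ p, y p ∈ D0 → ∀ q, B p q = -B q p := fun p hp q => skew_of hd.compat (hD _ hp) q
  have hadj : ∀ i < l, B (z i) (z (i + 1)) ≠ 0 := fun i hi => by
    rcases hw.step i hi with h | h
    · exact h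
    · rw [hsk _ (hin i hi)]; exact neg_ne_zero.2 h
  have hend : y (z l) ∉ D0 := hw.stop
  have hst : z 0 = a ∨ z 0 = b := hw.start
  have hl0 : l ≠ 0 := by
    rintro rfl
    rcases hst with e | e <;> rw [e] at hend <;> contradiction
  by_cases hl1 : l = 1
  · subst hl1
    have h01 := hadj 0 (by omega)
    rcases hst with e | e
    · exact ⟨col, y, B, Bs, ε, hd, Or.inr ⟨a, b, z 1, Or.inl ⟨rfl, rfl⟩, hv, rfl, rfl, rfl, rfl,
        hend, Or.inl (e ▸ h01)⟩⟩
    · exact ⟨col, y, B, Bs, ε, hd, Or.inr ⟨b, a, z 1, Or.inr ⟨rfl, rfl⟩, vis_symm hd hv, rfl, rfl,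
        rfl, rfl, hend, Or.inl (e ▸ h01)⟩⟩
  have hnr : ∀ p ∈ ({a, b} : Set P), ∀ j, 2 ≤ j → j ≤ l → B p (z j) = 0 ∧ B (z j) p = 0 := by
    intro p hp j h2 hj
    have := hw.chord_start hp h2 hj
    push Not at this
    exact this
  by_cases hl2 : l = 2
  · subst hl2
    have h10 : B (z 1) (z 0) ≠ 0 := by
      rw [hsk _ (hin 1 (by omega))]; exact neg_ne_zero.2 (hadj 0 (by omega))
    have h12 := hadj 1 (by omega)
    rcases hst with e | e
    · exact ⟨col, y, B, Bs, ε, hd, Or.inr ⟨b, a, z 2, Or.inr ⟨rfl, rfl⟩, vis_symm hd hv, rfl, rfl,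
        rfl, rfl, hend, Or.inr ⟨z 1, hin 1 (by omega), e ▸ h10, h12,
          (hnr b (by simp) 2 le_rfl le_rfl).1⟩⟩⟩
    · exact ⟨col, y, B, Bs, ε, hd, Or.inr ⟨a, b, z 2, Or.inl ⟨rfl, rfl⟩, hv, rfl, rfl,
        rfl, rfl, hend, Or.inr ⟨z 1, hin 1 (by omega), e ▸ h10, h12,
          (hnr a (by simp) 2 le_rfl le_rfl).1⟩⟩⟩
  obtain ⟨k, rfl⟩ : ∃ k, l = k + 3 := ⟨l - 3, by omega⟩
  set u := z (k + 2) with hu
  set v := z (k + 3) with hv'
  have huv : B u v ≠ 0 := hadj (k + 2) (by omega)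
  have hvu : B v u ≠ 0 := by
    intro e
    apply huv
    rw [hsk u (hin _ (by omega)), e, neg_zero]
  by_cases hvis : s.δ ≠ 0 ∧ VisP y B Bs u v
  · exact ⟨col, y, B, Bs, ε, hd, Or.inl ⟨hvis.1, u, v, hvis.2, hend⟩⟩
  have hadm : s.δ = 0 ∨ ¬VisP y B Bs u v := by tauto
  obtain ⟨c, hc1, -, hd'⟩ := hr K P s col y B Bs ε u v hd huv hvu hadm
  -- facts about the two visible vertices
  have hne : ∀ p ∈ ({a, b} : Set P), p ≠ u ∧ p ≠ v := fun p hp =>
    ⟨fun e => hw.notMem_start (i := k + 2) (by omega) (by omega) (by rw [← hu, ← e]; exact hp),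
      fun e => hw.notMem_start (i := k + 3) (by omega) le_rfl (by rw [← hv', ← e]; exact hp)⟩
  have hy : ∀ p ∈ ({a, b} : Set P), reY y B u v p = y p ∧ reY y Bs u v p = y p := by
    intro p hp
    have e1 := (hnr p hp (k + 2) (by omega) (by omega)).1
    have e2 := (hnr p hp (k + 3) (by omega) le_rfl).1
    rw [← hu] at e1
    rw [← hv'] at e2
    rw [reY_of_ne _ _ (hne p hp).1 (hne p hp).2, reY_of_ne _ _ (hne p hp).1 (hne p hp).2, e1, e2,
      (hzp _ _).2 e1, (hzp _ _).2 e2]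
    simp
  have hcp : ∀ p ∈ ({a, b} : Set P), y p ≠ 0 → c p = 1 := by
    intro p hp h0
    have := hc1 p
    rw [(hy p hp).1, (hy p hp).2] at this
    have e : ((c p : F) - 1) • y p = 0 := by rw [sub_smul, one_smul, ← this, sub_self]
    exact Units.ext (sub_eq_zero.1 ((smul_eq_zero.1 e).resolve_right h0))
  have hA : a ∈ ({a, b} : Set P) := by simp
  have hB : b ∈ ({a, b} : Set P) := by simp
  have hau := (hnr a hA (k + 2) (by omega) (by omega)).1
  have hav := (hnr a hA (k + 3) (by omega) le_rfl).1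
  rw [← hu] at hau
  rw [← hv'] at hav
  have hvis' : VisP (reY y B u v) (epiv B u v) (scale c⁻¹ (epiv Bs u v)) a b := by
    refine ⟨by rw [(hy a hA).1]; exact hv.1, by rw [(hy b hB).1]; exact hv.2.1, ?_⟩
    simp only [scale, of_apply, Pi.inv_apply, hcp a hA hv.1, hcp b hB hv.2.1, inv_one,
      Units.val_one, one_mul]
    rw [epiv_uv' _ (hne a hA).1 (hne a hA).2 (hne b hB).1 (hne b hB).2,
      epiv_uv' _ (hne a hA).1 (hne a hA).2 (hne b hB).1 (hne b hB).2, hau, hav, (hzp _ _).2 hau,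
      (hzp _ _).2 hav]
    simpa using hv.2.2
  have hzne : ∀ i, i ≤ k + 1 → z i ≠ u ∧ z i ≠ v := fun i hi =>
    ⟨fun e => by have := hw.inj (by omega) (by omega) e; omega,
      fun e => by have := hw.inj (by omega) (by omega) e; omega⟩
  have hch : ∀ i j, i + 2 ≤ j → j ≤ k + 3 → B (z i) (z j) = 0 := fun i j h1 h2 => by
    have := hw.chord h1 h2
    push Not at this
    exact this.1
  have hw' : Walk (fun p q => epiv B u v p q ≠ 0 ∨ epiv B u v q p ≠ 0) {a, b}
      {p | reY y B u v p ∉ D0} (k + 1) z := by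
    refine ⟨hw.start, ?_, fun i hi => Or.inl ?_⟩
    · show reY y B u v (z (k + 1)) ∉ D0
      rw [reY_of_ne _ _ (hzne _ le_rfl).1 (hzne _ le_rfl).2, hch (k + 1) (k + 3) le_rfl le_rfl]
      simp only [zero_div, zero_smul, sub_zero]
      exact notMem_sub (hin _ (by omega)) hend (div_ne_zero (hadj (k + 1) (by omega)) hvu)
    · rw [epiv_uv' _ (hzne i (by omega)).1 (hzne i (by omega)).2 (hzne (i + 1) (by omega)).1
        (hzne (i + 1) (by omega)).2, hch i (k + 2) (by omega) (by omega),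
        hch i (k + 3) (by omega) le_rfl]
      simpa using hadj i (by omega)
  exact (ih (k + 1) (by omega) _ _ _ _ _ z hd' hvis' (by rw [(hy a hA).1]; exact ha)
    (by rw [(hy b hB).1]; exact hb) hw').trans (hy a hA).1 (hy b hB).1
    (colFlip_ne _ (hne a hA).1 (hne a hA).2) (colFlip_ne _ (hne b hB).1 (hne b hB).2)

theorem c1pre (hz : ZP F) (hr : REB F) : C1PRE F := by
  intro K P _ _ s col y B Bs ε a b D0 hd hv hD hT ha hb
  rcases exists_sWalk_or_closed (fun p q => B p q ≠ 0 ∨ B q p ≠ 0) {a, b} {p | y p ∉ D0} with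
    ⟨l, z, hw⟩ | ⟨X, hX1, hX2, hX3⟩
  · exact C1.main hz hr s a b D0 hD l col y B Bs ε z hd hv ha hb hw.toWalk
  · exfalso
    obtain ⟨z, hz'⟩ := exists_notMem hd.span hT
    rcases hd.conn X (fun p hp q hq => by
      have := hX3 p hp q hq
      push Not at this
      exact this) with e | e
    · have : a ∈ X := hX1 (by simp)
      rw [e] at this
      exact this
    · exact Set.disjoint_left.1 hX2 (e ▸ Set.mem_univ z) hz'

lemma C1.last (hz : ZP F) (hr : REB F) {K P : Type} [Fintype K] [Fintype P] {s : Sys F K}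
    {col : P → Bool} {y : P → K → F} {B Bs : Matrix P P F} {ε : Matrix K K F} {a b z : P}
    {D0 : Submodule F (K → F)} (hd : Disp s col y B Bs ε) (hv : VisP y B Bs a b)
    (hD : ∀ x ∈ D0, s.δ *ᵥ x = 0) (ha : y a ∈ D0) (hb : y b ∈ D0) (hzD : y z ∉ D0)
    (h : B a z ≠ 0 ∨ ∃ w, y w ∈ D0 ∧ B w b ≠ 0 ∧ B w z ≠ 0 ∧ B a z = 0) :
    ∃ (col' : P → Bool) (y' : P → K → F) (B' Bs' : Matrix P P F) (ε' : Matrix K K F) (a' b' : P),
      Disp s col' y' B' Bs' ε' ∧ VisP y' B' Bs' a' b' ∧ y' b' ∉ D0 ∧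
      (s.δ ≠ 0 ∨ (col' a' = col a ∧ y' a' = y a)) := by
  have hzp := hz K P s col y B Bs ε hd
  have hsk : ∀ p, y p ∈ D0 → ∀ q, B p q = -B q p := fun p hp q => skew_of hd.compat (hD _ hp) q
  have hsks : ∀ p, y p ∈ D0 → ∀ q, Bs p q = -Bs q p := fun p hp q =>
    skew_of hd.compats (hD _ hp) q
  have hab : B a b ≠ 0 := vis_ne hzp hv
  have cab : col a ≠ col b := fun e => hab (hd.bip _ _ e)
  have haz : a ≠ z := fun e => hzD (e ▸ ha)
  have hbz : b ≠ z := fun e => hzD (e ▸ hb)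
  have hz0 : y z ≠ 0 := fun e => hzD (e ▸ D0.zero_mem)
  rcases h with h | ⟨w, hw, hwb, hwz, h⟩
  · refine ⟨col, y, B, Bs, ε, a, z, hd, ?_, hzD, Or.inr ⟨rfl, rfl⟩⟩
    by_contra hn
    have hza : B z a ≠ 0 := fun e => h (by rw [hsk a ha, e, neg_zero])
    obtain ⟨c, hc1, -, -⟩ := hr K P s col y B Bs ε a z hd h hza (Or.inr hn)
    have hba : b ≠ a := fun e => cab (by rw [e])
    have caz : col a ≠ col z := fun e => h (hd.bip _ _ e)
    have cbz : col b = col z := by
      revert cab caz; cases col a <;> cases col b <;> cases col z <;> simp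
    have := hc1 b
    rw [reY_of_ne _ _ hba hbz, reY_of_ne _ _ hba hbz, hd.bip _ _ cbz, hd.bips _ _ cbz] at this
    simp only [zero_div, zero_smul, sub_zero] at this
    have e := (pin hb hv.2.1 hzD this).2
    have e1 : Bs a z = B a z := by
      by_contra e1
      exact hn ⟨hv.1, hz0, e1⟩
    have e2 : Bs z a = B z a := by
      have i1 := hsk a ha z
      have i2 := hsks a ha z
      linear_combination i2 - i1 - e1
    rw [e2, div_left_inj' hza] at e
    apply hv.2.2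
    rw [hsk a ha, hsks a ha, e]
  · have hzw : B z w ≠ 0 := fun e => hwz (by rw [hsk w hw, e, neg_zero])
    by_cases hvis : s.δ ≠ 0 ∧ VisP y B Bs w z
    · exact ⟨col, y, B, Bs, ε, w, z, hd, hvis.2, hzD, Or.inl hvis.1⟩
    have hadm : s.δ = 0 ∨ ¬VisP y B Bs w z := by tauto
    obtain ⟨c, hc1, -, hd'⟩ := hr K P s col y B Bs ε w z hd hwz hzw hadm
    have haw : a ≠ w := fun e => hwz (e ▸ h)
    have cwb : col w ≠ col b := fun e => hwb (hd.bip _ _ e)
    have cwz : col w ≠ col z := fun e => hwz (hd.bip _ _ e)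
    have hbw : b ≠ w := fun e => cwb (by rw [e])
    have caw : col a = col w := by
      revert cab cwb; cases col a <;> cases col b <;> cases col w <;> simp
    have cbz : col b = col z := by
      revert cwb cwz; cases col w <;> cases col b <;> cases col z <;> simp
    have ya : reY y B w z a = y a := by
      rw [reY_of_ne _ _ haw haz, h, hd.bip _ _ caw]; simp
    have yas : reY y Bs w z a = y a := by
      rw [reY_of_ne _ _ haw haz, (hzp _ _).2 h, hd.bips _ _ caw]; simp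
    have yb : reY y B w z b = y b - (B b w / B z w) • y z := by
      rw [reY_of_ne _ _ hbw hbz, hd.bip _ _ cbz]; simp
    have ybs : reY y Bs w z b = y b - (Bs b w / Bs z w) • y z := by
      rw [reY_of_ne _ _ hbw hbz, hd.bips _ _ cbz]; simp
    have hbw' : B b w ≠ 0 := by rw [hsk b hb]; exact neg_ne_zero.2 hwb
    have hout : reY y B w z b ∉ D0 := by
      rw [yb]; exact notMem_sub hb hzD (div_ne_zero hbw' hzw)
    have ca : c a = 1 := by
      have := hc1 a
      rw [ya, yas] at this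
      have e : ((c a : F) - 1) • y a = 0 := by rw [sub_smul, one_smul, ← this, sub_self]
      exact Units.ext (sub_eq_zero.1 ((smul_eq_zero.1 e).resolve_right hv.1))
    have cb : c b = 1 := by
      have := hc1 b
      rw [yb, ybs] at this
      exact Units.ext (pin hb hv.2.1 hzD this).1
    refine ⟨_, _, _, _, _, a, b, hd', ⟨by rw [ya]; exact hv.1, fun e => hout (e ▸ D0.zero_mem), ?_⟩,
      hout, Or.inr ⟨colFlip_ne _ haw haz, ya⟩⟩
    simp only [scale, of_apply, Pi.inv_apply, ca, cb, inv_one, Units.val_one, one_mul]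
    rw [epiv_uv' _ haw haz hbw hbz, epiv_uv' _ haw haz hbw hbz, h, (hzp _ _).2 h, hd.bip _ _ caw,
      hd.bips _ _ caw]
    simpa using hv.2.2

theorem c1 (hz : ZP F) (hr : REB F) (hp : C1PRE F) : C1 F := by
  intro K P _ _ s col y B Bs ε a b D0 hd hv hD hT ha hb
  obtain ⟨col', y', B', Bs', ε', hd', h⟩ := hp K P s col y B Bs ε a b D0 hd hv hD hT ha hb
  rcases h with ⟨h0, a', b', h1, h2⟩ | ⟨a', b', z, hab, hv', ya, yb, ca, cb, hzD, h⟩
  · exact ⟨col', y', B', Bs', ε', a', b', hd', h1, h2, Or.inl h0⟩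
  · rcases hab with ⟨rfl, rfl⟩ | ⟨rfl, rfl⟩
    · obtain ⟨c2, y2, B2, Bs2, ε2, a2, b2, g1, g2, g3, g4⟩ :=
        C1.last hz hr hd' hv' hD (ya ▸ ha) (yb ▸ hb) hzD h
      exact ⟨c2, y2, B2, Bs2, ε2, a2, b2, g1, g2, g3,
        g4.imp id fun g => Or.inl ⟨g.1.trans ca, g.2.trans ya⟩⟩
    · obtain ⟨c2, y2, B2, Bs2, ε2, a2, b2, g1, g2, g3, g4⟩ :=
        C1.last hz hr hd' hv' hD (yb ▸ hb) (ya ▸ ha) hzD h
      exact ⟨c2, y2, B2, Bs2, ε2, a2, b2, g1, g2, g3,
        g4.imp id fun g => Or.inr ⟨g.1.trans cb, g.2.trans yb⟩⟩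

end Pool.Agent.MP_d99b12_co.H25
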