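import Pool.Agent.MP_d99b12_co.H25.Spec
import Pool.Agent.MP_d99b12_co.H25.Piv
import Pool.Agent.MP_d99b12_co.H25.Comb

/-! # Row CL: classification of deviant pairs by harmless pivots -/

namespace Pool.Agent.MP_d99b12_co.H25

open Matrix

namespace CL

variable {F : Type} [Field F] {E : Type} [Fintype E] {O : Set E} {a b : Dsp F E Bool}

/-- The conclusion of the row. -/
def Good (O : Set E) (a : Dsp F E Bool) : Prop :=
  VisR O a ∨ ∃ b, HReach O a b ∧ ∃ k ∈ O, ∃ b1 a0 b2, b1 ∉ O ∧ a0 ∉ O ∧ b2 ∉ O ∧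
    UC4 (b.2 false) (b.2 true) k b1 a0 b2

lemma Good.of_reach (h : Good O b) (hr : HReach O a b) : Good O a := by
  rcases h with h | ⟨c, hc, h⟩
  · exact Or.inl (h.of_reach hr)
  · exact Or.inr ⟨c, hr.trans hc, h⟩

lemma good_uc {k b1 a0 b2 : E} (hk : k ∈ O) (h1 : b1 ∉ O) (h2 : a0 ∉ O) (h3 : b2 ∉ O)
    (h : UC4 (a.2 false) (a.2 true) k b1 a0 b2) : Good O a :=
  Or.inr ⟨a, Relation.ReflTransGen.refl, k, hk, b1, a0, b2, h1, h2, h3, h⟩

lemma uc_tr (ha : Fam a.1 a.2) {k b1 a0 b2 : E} (h : UC4 (a.2 false) (a.2 true) k b1 a0 b2) :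
    UC4 (a.2 false) (a.2 true) b1 k b2 a0 := by
  obtain ⟨h1, h2, h3, h4, h5⟩ := h
  unfold UC4
  rw [ha.skew false b1 k, ha.skew false b1 a0, ha.skew false b2 k, ha.skew false b2 a0,
    ha.skew true b1 k, ha.skew true b1 a0, ha.skew true b2 k, ha.skew true b2 a0]
  refine ⟨neg_ne_zero.2 h1, neg_ne_zero.2 h3, neg_ne_zero.2 h2, neg_ne_zero.2 h4, fun e => h5 ?_⟩
  linear_combination e

omit [Fintype E] in
lemma uc_rows {M M' : Matrix E E F} {k b1 a0 b2 : E} (h : UC4 M M' k b1 a0 b2) :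
    UC4 M M' a0 b1 k b2 := by
  obtain ⟨h1, h2, h3, h4, h5⟩ := h
  exact ⟨h3, h4, h1, h2, fun e => h5 (by linear_combination -e)⟩

omit [Fintype E] in
lemma uc_ne {M M' : Matrix E E F} {k b1 a0 b2 : E} (h : UC4 M M' k b1 a0 b2) :
    a0 ≠ k ∧ b2 ≠ b1 := by
  constructor
  · rintro rfl
    exact h.2.2.2.2 (by ring)
  · rintro rfl
    exact h.2.2.2.2 (by ring)

lemma uc_third (ha : Fam a.1 a.2) {r b1 a0 b2 x : E} (h : UC4 (a.2 false) (a.2 true) r b1 a0 b2)
    (h1 : a.2 false r x ≠ 0) (h2 : a.2 false a0 x ≠ 0) :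
    UC4 (a.2 false) (a.2 true) r b1 a0 x ∨ UC4 (a.2 false) (a.2 true) r b2 a0 x := by
  obtain ⟨g1, g2, g3, g4, g5⟩ := h
  by_contra hc
  push Not at hc
  obtain ⟨c1, c2⟩ := hc
  have h1' : a.2 true r x ≠ 0 := fun e => h1 ((ha.zero_iff _ _ _ _).1 e)
  have h2' : a.2 true a0 x ≠ 0 := fun e => h2 ((ha.zero_iff _ _ _ _).1 e)
  have e1 := not_not.1 fun e => c1 ⟨g1, h1, g3, h2, e⟩
  have e2 := not_not.1 fun e => c2 ⟨g2, h1, g4, h2, e⟩
  refine g5 (mul_left_cancel₀
    (mul_ne_zero (mul_ne_zero h1 h2) (mul_ne_zero h1' h2')) ?_)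
  linear_combination (a.2 true r x * a.2 true a0 b2 * (a.2 false r b2 * a.2 false a0 x)) * e1 -
    (a.2 true r x * a.2 true a0 b1 * (a.2 false r b1 * a.2 false a0 x)) * e2

omit [Fintype E] in
lemma exists_nb {M : Matrix E E F} {z : E} (h : ¬NoNb M O z) : ∃ k ∈ O, M k z ≠ 0 := by
  by_contra hc
  push Not at hc
  exact h hc

lemma ne_of_adj (ha : Fam a.1 a.2) {i : Bool} {u v : E} (h : a.2 i u v ≠ 0) : u ≠ v := by
  rintro rfl
  exact h (ha.diag i u)

lemma adj_all (ha : Fam a.1 a.2) {u v : E} (h : a.2 false u v ≠ 0) (i : Bool) : a.2 i u v ≠ 0 :=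
  fun e => h ((ha.zero_iff _ _ _ _).1 e)

lemma zero_all (ha : Fam a.1 a.2) {u v : E} (h : a.2 false u v = 0) (i : Bool) : a.2 i u v = 0 :=
  (ha.zero_iff _ _ _ _).1 h

lemma adj_symm (ha : Fam a.1 a.2) {i : Bool} {u v : E} (h : a.2 i u v ≠ 0) : a.2 i v u ≠ 0 :=
  fun e => h ((ha.zero_comm _ _ _).1 e)

/-- Two neighbours of one vertex are not adjacent. -/
lemma zero_two (ha : Fam a.1 a.2) {z u v : E} (h1 : a.2 false z u ≠ 0) (h2 : a.2 false z v ≠ 0)
    (i : Bool) : a.2 i u v = 0 := by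
  refine ha.bip i u v ?_
  have c1 := ha.col_ne h1
  have c2 := ha.col_ne h2
  revert c1 c2
  cases a.1 z <;> cases a.1 u <;> cases a.1 v <;> simp

omit [Fintype E] in
lemma ne_of_mem {k z : E} (hk : k ∈ O) (hz : z ∉ O) : k ≠ z := fun e => hz (e ▸ hk)

/-- A 4-cycle with a charged vertex, an uncharged neighbour and an uncharged opposite vertex. -/
lemma lemA (ha : Fam a.1 a.2) {z w z' w' : E} (hz : z ∉ O) (hw : w ∉ O) (hz' : z' ∉ O)
    (hw' : w' ∉ O) (h : UC4 (a.2 false) (a.2 true) z w z' w') (cz : ¬NoNb (a.2 false) O z)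
    (nw : NoNb (a.2 false) O w) (nz' : NoNb (a.2 false) O z') : Good O a := by
  obtain ⟨k, hk, hkz⟩ := exists_nb cz
  have hs := HStep.mk' ha false hz hw h.1 nw
  refine Good.of_reach (good_uc hk hw hw' hz' ?_) (Relation.ReflTransGen.single hs)
  obtain ⟨n1, n2⟩ := uc_ne h
  obtain ⟨g1, g2, g3, g4, g5⟩ := h
  have d1 := ne_of_adj ha g1
  have d2 := ne_of_adj ha g2
  have d3 := ne_of_adj ha g3
  have d4 := ne_of_mem hk hz
  have d5 := ne_of_mem hk hw
  have e1 : ∀ i, epiv (a.2 i) z w k w = -a.2 i k z / a.2 i z w := fun i => by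
    rw [epiv_uy _ d1 d4 d5, ha.skew i w z, div_neg, neg_div]
  have e2 : ∀ i, epiv (a.2 i) z w k z' = -(a.2 i k z * a.2 i z' w) / a.2 i z w := fun i => by
    rw [epiv_uv _ d4 d5 n1 d3, zero_all ha (nz' k hk), zero_all ha (nw k hk), ha.skew i w z,
      ha.skew i w z']
    have := adj_all ha g1 i
    field_simp
    ring
  have e3 : ∀ i, epiv (a.2 i) z w w' w = a.2 i z w' / a.2 i z w := fun i => by
    rw [epiv_uy _ d1 d2.symm n2, ha.skew i w z, ha.skew i w' z, neg_div_neg_eq]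
  have e4 : ∀ i, epiv (a.2 i) z w w' z' =
      (a.2 i z w' * a.2 i z' w - a.2 i z w * a.2 i z' w') / a.2 i z w := fun i => by
    rw [epiv_uv _ d2.symm n2 n1 d3, zero_two ha g2 g1, ha.skew i w z, ha.skew i w z',
      ha.skew i w' z, ha.skew i w' z']
    have := adj_all ha g1 i
    field_simp
    ring
  have hd : a.2 false z w' * a.2 false z' w - a.2 false z w * a.2 false z' w' ≠ 0 := by
    intro e
    have e' : a.2 false z w * a.2 false z' w' = a.2 false z w' * a.2 false z' w := by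
      linear_combination -e
    have e'' := ((ha.same false true).det2 z z' w w').1 e'
    exact g5 (by rw [e', e''])
  have g1' := adj_all ha g1 true
  have hkz' := adj_all ha hkz true
  unfold UC4
  simp only [e1, e2, e3, e4]
  refine ⟨div_ne_zero (neg_ne_zero.2 hkz) g1, div_ne_zero (neg_ne_zero.2 (mul_ne_zero hkz g3)) g1,
    div_ne_zero g2 g1, div_ne_zero hd g1, fun e => g5 ?_⟩
  field_simp at e
  linear_combination -e

omit [Fintype E] in
lemma uc_scaled {M M' N N' : Matrix E E F} {z w z' w' k : E} {α α' : F}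
    (h : UC4 M M' z w z' w') (hα : α ≠ 0) (hα' : α' ≠ 0) (h1 : N k w = α * M z w)
    (h2 : N k w' = α * M z w') (h3 : N' k w = α' * M' z w) (h4 : N' k w' = α' * M' z w')
    (h5 : N z' w = M z' w) (h6 : N z' w' = M z' w') (h7 : N' z' w = M' z' w)
    (h8 : N' z' w' = M' z' w') : UC4 N N' k w z' w' := by
  obtain ⟨g1, g2, g3, g4, g5⟩ := h
  unfold UC4
  rw [h1, h2, h3, h4, h5, h6, h7, h8]
  refine ⟨mul_ne_zero hα g1, mul_ne_zero hα g2, g3, g4, fun e => g5 ?_⟩
  refine mul_left_cancel₀ (mul_ne_zero hα hα') ?_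
  linear_combination e

/-- The statement proved by induction on the distance to `O`. -/
def Q (F : Type) [Field F] (O : Set E) (m : ℕ) : Prop :=
  ∀ (a : Dsp F E Bool) (z w z' w' : E) (p : ℕ → E), Fam a.1 a.2 → z ∉ O → w ∉ O → z' ∉ O →
    w' ∉ O → UC4 (a.2 false) (a.2 true) z w z' w' → NoNb (a.2 false) O w →
    NoNb (a.2 false) O z' → Walk (fun u v => a.2 false u v ≠ 0) {z, w, z', w'} O m p → Good O a

lemma step {m : ℕ} (ih : ∀ m' < m, Q F O m') (ha : Fam a.1 a.2) {z w z' w' : E} {p : ℕ → E}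
    {C : Set E} (hz : z ∉ O) (hw : w ∉ O) (hz' : z' ∉ O) (hw' : w' ∉ O)
    (h : UC4 (a.2 false) (a.2 true) z w z' w') (nz : NoNb (a.2 false) O z)
    (nw : NoNb (a.2 false) O w) (nz' : NoNb (a.2 false) O z') (nw' : NoNb (a.2 false) O w')
    (c1 : z ∈ C) (c2 : w ∈ C) (c3 : z' ∈ C) (c4 : w' ∈ C)
    (hp : SWalk (fun u v => a.2 false u v ≠ 0) C O m p) (h0 : p 0 = z) : Good O a := by
  have m0 : 0 < m := by
    rcases Nat.eq_zero_or_pos m with rfl | hm
    · exact absurd (h0 ▸ hp.stop) hz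
    · exact hm
  have hzy : a.2 false z (p 1) ≠ 0 := h0 ▸ hp.step 0 m0
  have hy : p 1 ∉ O := fun hy => adj_symm ha hzy (nz _ hy)
  have m1 : 2 ≤ m := by
    rcases Nat.lt_or_ge 1 m with hm | hm
    · exact hm
    · obtain rfl : m = 1 := by omega
      exact absurd hp.stop hy
  by_cases hz'y : a.2 false z' (p 1) = 0
  swap
  · have wk : ∀ x : E, Walk (fun u v => a.2 false u v ≠ 0) {z, x, z', p 1} O (m - 1)
        fun i => p (i + 1) := fun x =>
      ⟨by simp, by rw [Nat.sub_add_cancel (by omega)]; exact hp.stop,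
        fun i hi => hp.step (i + 1) (by omega)⟩
    rcases uc_third ha h hzy hz'y with h' | h'
    · exact ih (m - 1) (by omega) a z w z' (p 1) _ ha hz hw hz' hy h' nw nz' (wk w)
    · exact ih (m - 1) (by omega) a z w' z' (p 1) _ ha hz hw' hz' hy h' nw' nz' (wk w')
  have hyz := adj_symm ha hzy
  have hyk : a.2 false (p 1) (p 2) ≠ 0 := hp.step 1 (by omega)
  have hs := HStep.mk' ha false hy hz hyz nz
  have hr : HReach O a _ := Relation.ReflTransGen.single hs
  have ha' := hr.fam ha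
  refine Good.of_reach ?_ hr
  have yC : p 1 ∉ C := hp.notMem_start (by omega) (by omega)
  have kC : p 2 ∉ C := hp.notMem_start (by omega) m1
  have d1 : p 2 ≠ p 1 := (ne_of_adj ha hyk).symm
  have d2 : p 2 ≠ z := fun e => kC (e ▸ c1)
  have d3 : ∀ x ∈ C, x ≠ p 1 := fun x hx e => yC (e ▸ hx)
  have far : ∀ x ∈ C, ∀ j, 2 ≤ j → j ≤ m → a.2 false x (p j) = 0 := fun x hx j h2 hj =>
    not_not.1 (hp.chord_start hx h2 hj)
  have far' : ∀ x ∈ C, ∀ j, 2 ≤ j → j ≤ m → a.2 false (p j) x = 0 := fun x hx j h2 hj =>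
    (ha.zero_comm _ _ _).1 (far x hx j h2 hj)
  have n1 := (uc_ne h).1
  have ek : ∀ i, ∀ x ∈ C, x ≠ z → epiv (a.2 i) (p 1) z (p 2) x =
      -(a.2 i (p 2) (p 1) / a.2 i z (p 1)) * a.2 i z x := fun i x hx hxz => by
    rw [epiv_uv _ d1 d2 (d3 x hx) hxz, zero_all ha (far' x hx 2 le_rfl m1),
      zero_all ha (far' z c1 2 le_rfl m1)]
    ring
  have ez : ∀ i, ∀ x ∈ C, x ≠ z → epiv (a.2 i) (p 1) z z' x = a.2 i z' x := fun i x hx hxz => by
    rw [epiv_uv _ (d3 z' c3) n1 (d3 x hx) hxz, zero_all ha hz'y,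
      zero_two ha (adj_symm ha h.2.2.1) (adj_symm ha h.1)]
    ring
  have hα : ∀ i, -(a.2 i (p 2) (p 1) / a.2 i z (p 1)) ≠ 0 := fun i =>
    neg_ne_zero.2 (div_ne_zero (adj_all ha (adj_symm ha hyk) i) (adj_all ha hzy i))
  have wz := (ne_of_adj ha h.1).symm
  have wz' := (ne_of_adj ha h.2.1).symm
  have hu : UC4 (epiv (a.2 false) (p 1) z) (epiv (a.2 true) (p 1) z) (p 2) w z' w' :=
    uc_scaled h (hα false) (hα true) (ek _ w c2 wz) (ek _ w' c4 wz') (ek _ w c2 wz)
      (ek _ w' c4 wz') (ez _ w c2 wz) (ez _ w' c4 wz') (ez _ w c2 wz) (ez _ w' c4 wz')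
  by_cases hk : p 2 ∈ O
  · exact good_uc hk hw hz' hw' hu
  have m2 : 3 ≤ m := by
    rcases Nat.lt_or_ge 2 m with hm | hm
    · exact hm
    · obtain rfl : m = 2 := by omega
      exact absurd hp.stop hk
  have ny : NoNb (a.2 false) O (p 1) := fun o ho =>
    (ha.zero_comm _ _ _).1 (not_not.1 (hp.chord_stop ho (i := 1) (by omega)))
  have nn : ∀ x ∈ C, x ≠ z → NoNb (a.2 false) O x → NoNb (epiv (a.2 false) (p 1) z) O x :=
    fun x hx hxz nx o ho => by
      rw [epiv_uv _ (ne_of_mem ho hy) (ne_of_mem ho hz) (d3 x hx) hxz, nx o ho, ny o ho, nz o ho]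
      ring
  refine ih (m - 2) (by omega) _ (p 2) w z' w' (fun i => p (i + 2)) ha' hk hw hz' hw' hu
    (nn w c2 wz nw) (nn z' c3 n1 nz') ⟨by simp, ?_, fun i hi => ?_⟩
  · rw [Nat.sub_add_cancel m1]
    exact hp.stop
  · have q1 : ∀ j, 2 ≤ j → j ≤ m → p j ≠ p 1 := fun j h2 hj e => by
      have := hp.inj hj (by omega) e
      omega
    have q2 : ∀ j, 2 ≤ j → j ≤ m → p j ≠ z := fun j h2 hj e =>
      hp.notMem_start (by omega) hj (e ▸ c1)
    have := hp.step (i + 2) (by omega)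
    change epiv (a.2 false) (p 1) z (p (i + 2)) (p (i + 1 + 2)) ≠ 0
    rw [epiv_uv _ (q1 _ (by omega) (by omega)) (q2 _ (by omega) (by omega))
      (q1 _ (by omega) (by omega)) (q2 _ (by omega) (by omega)),
      far z c1 (i + 1 + 2) (by omega) (by omega), far' z c1 (i + 2) (by omega) (by omega)]
    simpa using this

lemma qAll (m : ℕ) : Q F O m := by
  induction m using Nat.strong_induction_on with
  | _ m ih =>
  intro a z w z' w' p ha hz hw hz' hw' h nw nz' hp
  by_cases nz : NoNb (a.2 false) O z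
  swap
  · exact lemA ha hz hw hz' hw' h nz nw nz'
  by_cases nw' : NoNb (a.2 false) O w'
  swap
  · exact lemA ha hw' hz hw hz' (uc_tr ha h.swap) nw' nz nw
  obtain ⟨m', p', hm, hp'⟩ := hp.exists_sWalk
  have ih' : ∀ n < m', Q F O n := fun n hn => ih n (by omega)
  have c1 : z ∈ ({z, w, z', w'} : Set E) := by simp
  have c2 : w ∈ ({z, w, z', w'} : Set E) := by simp
  have c3 : z' ∈ ({z, w, z', w'} : Set E) := by simp
  have c4 : w' ∈ ({z, w, z', w'} : Set E) := by simp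
  rcases hp'.start with h0 | h0 | h0 | h0
  · exact step ih' ha hz hw hz' hw' h nz nw nz' nw' c1 c2 c3 c4 hp' h0
  · exact step ih' ha hw hz hw' hz' (uc_tr ha h) nw nz nw' nz' c2 c1 c4 c3 hp' h0
  · exact step ih' ha hz' hw hz hw' (uc_rows h) nz' nw nz nw' c3 c2 c1 c4 hp' h0
  · exact step ih' ha hw' hz hw hz' (uc_tr ha h.swap) nw' nz nw nz' c4 c1 c2 c3 hp' h0

lemma cyc (ha : Fam a.1 a.2) (hr : Rooted O (a.2 false)) {z w z' w' : E} (hz : z ∉ O)
    (hw : w ∉ O) (hz' : z' ∉ O) (hw' : w' ∉ O) (h : UC4 (a.2 false) (a.2 true) z w z' w')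
    (nw : NoNb (a.2 false) O w) (nz' : NoNb (a.2 false) O z') : Good O a := by
  rcases exists_sWalk_or_closed (fun u v => a.2 false u v ≠ 0) {z, w, z', w'} O with
    ⟨m, p, hp⟩ | ⟨X, h1, h2, h3⟩
  · exact qAll m a z w z' w' p ha hz hw hz' hw' h nw nz' hp.toWalk
  · have := hr X h2 fun u hu v hv => not_not.1 (h3 u hu v hv)
    exact absurd (this ▸ h1 (by simp : z ∈ ({z, w, z', w'} : Set E))) (Set.notMem_empty z)

omit [Fintype E] in
lemma devP_pair {M M' : Matrix E E F} {x y : E} {α β : F} (cx : ¬NoNb M O x) (cy : ¬NoNb M O y)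
    (hx : ∀ o ∈ O, M' o x = α * M o x) (hy : ∀ o ∈ O, M' o y = β * M o y)
    (h : M' x y ≠ α * β * M x y) : DevP O M M' {x, y} := by
  rintro ⟨c, c1, c2⟩
  obtain ⟨o, ho, ho'⟩ := exists_nb cx
  obtain ⟨q, hq, hq'⟩ := exists_nb cy
  have e1 := c2 o (Or.inl ho) x (by simp)
  have e2 := c2 q (Or.inl hq) y (by simp)
  rw [hx o ho, c1 o ho, Units.val_one, one_mul] at e1
  rw [hy q hq, c1 q hq, Units.val_one, one_mul] at e2
  refine h ?_
  rw [mul_right_cancel₀ ho' e1, mul_right_cancel₀ hq' e2]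
  exact c2 x (Or.inr (by simp)) y (by simp)

/-- Two charged columns that are not parallel pin the ratio of the gains at an uncharged row. -/
lemma c0 (ha : Fam a.1 a.2) (hpar : ParAll O a) {r b1 b2 : E} {c1 c2 : F} (hr : r ∉ O)
    (h1 : b1 ∉ O) (h2 : b2 ∉ O) (nr : NoNb (a.2 false) O r) (g1 : a.2 false r b1 ≠ 0)
    (g2 : a.2 false r b2 ≠ 0) (p1 : ∀ o ∈ O, a.2 true o b1 = c1 * a.2 false o b1)
    (p2 : ∀ o ∈ O, a.2 true o b2 = c2 * a.2 false o b2) {o o' : E} (ho : o ∈ O) (ho' : o' ∈ O)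
    (hn : a.2 false o b1 * a.2 false o' b2 ≠ a.2 false o' b1 * a.2 false o b2) :
    c2 * a.2 true r b1 * a.2 false r b2 = c1 * a.2 false r b1 * a.2 true r b2 := by
  have hs := HStep.mk' ha false h2 hr (adj_symm ha g2) nr
  obtain ⟨γ, hγ⟩ := hpar _ (Relation.ReflTransGen.single hs) b1 h1
  have d1 : b1 ≠ b2 := by
    rintro rfl
    exact hn (by ring)
  have d2 := (ne_of_adj ha g1).symm
  have e : ∀ i, ∀ q ∈ O, epiv (a.2 i) b2 r q b1 =
      a.2 i q b1 - a.2 i q b2 * a.2 i r b1 / a.2 i r b2 := fun i q hq => by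
    rw [epiv_uv _ (ne_of_mem hq h2) (ne_of_mem hq hr) d1 d2, zero_all ha (nr q hq)]
    ring
  have g2' := adj_all ha g2 true
  have f : ∀ q ∈ O, (c1 - γ) * (a.2 false r b2 * a.2 true r b2) * a.2 false q b1 =
      (c2 * a.2 true r b1 * a.2 false r b2 - γ * a.2 false r b1 * a.2 true r b2) *
        a.2 false q b2 := fun q hq => by
    have := hγ q hq
    simp only [e _ q hq] at this
    rw [p1 q hq, p2 q hq] at this
    field_simp at this
    linear_combination this
  have f1 := f o ho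
  have f2 := f o' ho'
  have hn' := sub_ne_zero.2 hn
  have k1 : (c1 - γ) * (a.2 false r b2 * a.2 true r b2) = 0 := by
    refine mul_right_cancel₀ hn' ?_
    linear_combination a.2 false o' b2 * f1 - a.2 false o b2 * f2
  have k2 : c2 * a.2 true r b1 * a.2 false r b2 - γ * a.2 false r b1 * a.2 true r b2 = 0 := by
    refine mul_right_cancel₀ hn' ?_
    linear_combination a.2 false o' b1 * f1 - a.2 false o b1 * f2
  have k3 : c1 = γ := sub_eq_zero.1 ((mul_eq_zero.1 k1).resolve_right (mul_ne_zero g2 g2'))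
  rw [k3]
  linear_combination k2

lemma cfg (ha : Fam a.1 a.2) (hpar : ParAll O a) (hr : Rooted O (a.2 false)) {ℓ : ℕ} {u : ℕ → E}
    {c : E → Fˣ} (hl : ℓ ≤ 3) (h : Cfg O Oᶜ (a.2 false) (a.2 true) ℓ u c) : Good O a := by
  have hpos := h.pos
  have hm : ∀ i ≤ ℓ, u i ∉ O := h.mem
  obtain rfl | rfl | rfl : ℓ = 1 ∨ ℓ = 2 ∨ ℓ = 3 := by omega
  · obtain ⟨q0, q1⟩ := h.close.resolve_right (by omega)
    exact Or.inl ⟨a, Relation.ReflTransGen.refl, u 0, u 1, hm 0 (by omega), hm 1 le_rfl,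
      devP_pair q0 q1 (h.eqO 0 (by omega)) (h.eqO 1 le_rfl) h.ne⟩
  · obtain ⟨q0, q2⟩ := h.close.resolve_right (by omega)
    have a01 := h.adj 0 (by omega)
    have a12 := h.adj 1 (by omega)
    have e12 := h.eqP 1 2 (by omega) le_rfl (by omega)
    have hne : a.2 true (u 1) (u 0) ≠ c (u 0) * c (u 1) * a.2 false (u 1) (u 0) := by
      rw [ha.skew true (u 1), ha.skew false (u 1)]
      exact fun e => h.ne (by linear_combination -e)
    obtain ⟨k, hk, hk0⟩ := exists_nb q0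
    by_cases hk2 : a.2 false k (u 2) = 0
    · obtain ⟨o, ho, ho2⟩ := exists_nb q2
      have := c0 ha hpar (hm 1 (by omega)) (hm 0 (by omega)) (hm 2 le_rfl)
        (h.inner 1 le_rfl (by omega)) (adj_symm ha a01) a12 (h.eqO 0 (by omega))
        (h.eqO 2 le_rfl) hk ho (by rw [hk2, mul_zero]; exact mul_ne_zero hk0 ho2)
      rw [e12] at this
      refine absurd (mul_left_cancel₀ (mul_ne_zero (c (u 2)).ne_zero a12) ?_) hne
      linear_combination this
    · refine good_uc hk (hm 0 (by omega)) (hm 1 (by omega)) (hm 2 le_rfl)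
        ⟨hk0, hk2, adj_symm ha a01, a12, fun e => hne ?_⟩
      rw [e12, h.eqO 0 (by omega) k hk, h.eqO 2 le_rfl k hk] at e
      refine mul_left_cancel₀
        (mul_ne_zero (mul_ne_zero (c (u 2)).ne_zero a12) (mul_ne_zero hk0 hk2)) ?_
      linear_combination -e
  · have a01 := h.adj 0 (by omega)
    have a12 := h.adj 1 (by omega)
    have a23 := h.adj 2 (by omega)
    have e12 := h.eqP 1 2 (by omega) (by omega) (by omega)
    have e23 := h.eqP 2 3 (by omega) (by omega) (by omega)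
    have e03 := h.eqP 0 3 (by omega) (by omega) (by omega)
    have e21 : a.2 true (u 2) (u 1) = c (u 1) * c (u 2) * a.2 false (u 2) (u 1) := by
      rw [ha.skew true (u 2), ha.skew false (u 2), e12]
      ring
    have a21 := adj_symm ha a12
    have n1 := h.inner 1 le_rfl (by omega)
    have n2 := h.inner 2 (by omega) (by omega)
    rcases h.close with ⟨q0, q3⟩ | ⟨-, a03⟩
    · have hs := HStep.mk' ha false (hm 1 (by omega)) (hm 2 (by omega)) a12 n2
      have dd : ∀ i ≤ 3, ∀ j ≤ 3, i ≠ j → u i ≠ u j := fun i hi j hj hij e =>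
        hij (h.inj i hi j hj e)
      have eo : ∀ i, ∀ j ≤ 3, j ≠ 1 → j ≠ 2 → ∀ o ∈ O,
          epiv (a.2 i) (u 1) (u 2) o (u j) = a.2 i o (u j) := fun i j hj j1 j2 o ho => by
        rw [epiv_uv _ (ne_of_mem ho (hm 1 (by omega))) (ne_of_mem ho (hm 2 (by omega)))
          (dd j hj 1 (by omega) j1) (dd j hj 2 (by omega) j2), zero_all ha (n1 o ho),
          zero_all ha (n2 o ho)]
        ring
      have e : ∀ i, epiv (a.2 i) (u 1) (u 2) (u 0) (u 3) = a.2 i (u 0) (u 3) -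
          a.2 i (u 0) (u 1) * a.2 i (u 2) (u 3) / a.2 i (u 2) (u 1) := fun i => by
        rw [epiv_uv _ (dd 0 (by omega) 1 (by omega) (by omega))
          (dd 0 (by omega) 2 (by omega) (by omega)) (dd 3 le_rfl 1 (by omega) (by omega))
          (dd 3 le_rfl 2 (by omega) (by omega)),
          zero_all ha (h.chord 0 2 le_rfl (by omega) (by omega))]
        ring
      refine Or.inl ⟨_, Relation.ReflTransGen.single hs, u 0, u 3, hm 0 (by omega), hm 3 le_rfl,
        devP_pair (α := c (u 0)) (β := c (u 3)) (fun hn => q0 fun o ho => ?_)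
          (fun hn => q3 fun o ho => ?_) (fun o ho => ?_) (fun o ho => ?_) fun e' => h.ne ?_⟩
      · rw [← eo false 0 (by omega) (by omega) (by omega) o ho]
        exact hn o ho
      · rw [← eo false 3 (by omega) (by omega) (by omega) o ho]
        exact hn o ho
      · simp only [eo _ 0 (by omega) (by omega) (by omega) o ho]
        exact h.eqO 0 (by omega) o ho
      · simp only [eo _ 3 (by omega) (by omega) (by omega) o ho]
        exact h.eqO 3 le_rfl o ho
      · simp only [e] at e'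
        rw [e03, e23, e21] at e'
        have t1 := (c (u 1)).ne_zero
        have t2 := (c (u 2)).ne_zero
        have t3 := (c (u 3)).ne_zero
        field_simp at e'
        refine mul_left_cancel₀ a23 ?_
        linear_combination -e'
    · refine cyc ha hr (hm 0 (by omega)) (hm 1 (by omega)) (hm 2 (by omega)) (hm 3 le_rfl)
        ⟨a01, a03, a21, a23, fun e => h.ne ?_⟩ n1 n2
      rw [e23, e03, e21] at e
      refine mul_left_cancel₀ (mul_ne_zero (mul_ne_zero (c (u 2)).ne_zero (c (u 3)).ne_zero)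
        (mul_ne_zero a23 (mul_ne_zero a03 a21))) ?_
      linear_combination e

end CL

theorem cl {F : Type} [Field F] [Fintype F] (h : SHR F) : CL F := by
  intro E _ a O ha hpar hr hd
  obtain ⟨b, hb, h'⟩ := h E Bool a false true O Oᶜ ha disjoint_compl_right hd
  have hb' := hb.hReach disjoint_compl_right
  refine CL.Good.of_reach (b := b) ?_ hb'
  rcases h' with ⟨v, hv, x, hx, y, hy, -, -, hne⟩ | ⟨ℓ, u, c, hl, hc⟩
  · obtain ⟨γ, hγ⟩ := hpar b hb' v hv
    rw [hγ x hx, hγ y hy] at hne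
    exact absurd (by ring) hne
  · exact CL.cfg (hb'.fam ha) (hpar.reach hb') (hb'.rooted ha hr) hl hc

end Pool.Agent.MP_d99b12_co.H25
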