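import Pool.Agent.MP_d99b12_co.H25.Spec3

/-! # Short connecting paths -/

namespace Pool.Agent.MP_d99b12_co.H25

open Matrix

variable {F : Type} [Field F]

namespace Connect

variable {E ι : Type} [Fintype E]

omit [Fintype E] in
lemma conn_insert {S : Matrix E E F} {X : Set E} {u v : E} (hS : Skew S) (hc : ConnOn S X)
    (hu : u ∈ X) (h : S u v ≠ 0) : ConnOn S (insert v X) := fun Y hY h0 => by
  rcases hc (Y ∩ X) Set.inter_subset_right (fun x hx y hy =>
    h0 x hx.1 y ⟨Or.inr hy.1, fun e => hy.2 ⟨e, hy.1⟩⟩) with e | e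
  · have k : ∀ x ∈ X, x ∉ Y := fun x hx hy => (e ▸ (⟨hy, hx⟩ : x ∈ Y ∩ X) : x ∈ (∅ : Set E))
    refine Or.inl (Set.eq_empty_of_forall_notMem fun x hx => ?_)
    rcases hY hx with rfl | hx'
    · exact h (by rw [hS, h0 x hx u ⟨Or.inr hu, k u hu⟩, neg_zero])
    · exact k x hx' hx
  · have k : X ⊆ Y := Set.inter_eq_right.1 e
    exact Or.inr (hY.antisymm (Set.insert_subset
      (by_contra fun e => h (h0 u (k hu) v ⟨Or.inl rfl, e⟩)) k))

/-- The edges that end in `C`. -/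
def Ed (S : Matrix E E F) (C : Set E) (u v : E) : Prop := v ∈ C ∧ S u v ≠ 0

omit [Fintype E] in
lemma grow {S : Matrix E E F} {C X B : Set E} {ℓ : ℕ} {z : ℕ → E} (hS : Skew S) (hX : X ⊆ C)
    (hc : ConnOn S X) (h : Walk (Ed S C) X B ℓ z) {j : ℕ} (hj : j ≤ ℓ) :
    ∃ X', X ⊆ X' ∧ X' ⊆ C ∧ z j ∈ X' ∧ ConnOn S X' ∧ X'.ncard ≤ X.ncard + j := by
  induction j with
  | zero => exact ⟨X, subset_rfl, hX, h.start, hc, le_rfl⟩
  | succ j ih =>
    obtain ⟨X', a1, a2, a3, a4, a5⟩ := ih (by omega)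
    have := h.step j hj
    exact ⟨insert (z (j + 1)) X', a1.trans (Set.subset_insert _ _), Set.insert_subset this.1 a2,
      Or.inl rfl, conn_insert hS a4 a3 this.2, (Set.ncard_insert_le _ _).trans (by omega)⟩

lemma short (i0 : ι) {C X B : Set E} (hB : B ⊆ C) (ℓ : ℕ) : ∀ (a : Dsp F E ι) (z : ℕ → E),
    Fam a.1 a.2 → Walk (Ed (a.2 i0) C) X B ℓ z → ∃ b ℓ' z',
      PivIn (Far (a.2 i0) C (X ∪ B)) a b ∧ ℓ' ≤ 4 ∧ Walk (Ed (b.2 i0) C) X B ℓ' z' := by
  induction ℓ using Nat.strong_induction_on with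
  | _ ℓ ih =>
  intro a z₀ ha h₀
  obtain ⟨l, z, hl, h⟩ := h₀.exists_sWalk
  by_cases h4 : l ≤ 4
  · exact ⟨a, l, z, PivIn.refl _ a, h4, h.toWalk⟩
  have mem : ∀ j, 0 < j → j ≤ l → z j ∈ C := fun j a b => by
    obtain ⟨j, rfl⟩ := Nat.exists_eq_add_one_of_ne_zero a.ne'
    exact (h.step j b).1
  have far : ∀ j, 2 ≤ j → j + 2 ≤ l → z j ∈ Far (a.2 i0) C (X ∪ B) := fun j c d => by
    refine ⟨mem j (by omega) (by omega), fun e => e.elim (h.notMem_start (by omega) (by omega))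
      (h.notMem_stop (by omega)), ?_⟩
    rintro r (hr | hr)
    · exact by_contra fun e => h.chord_start hr c (by omega) ⟨mem j (by omega) (by omega), e⟩
    · exact (ha.zero_comm _ _ _).1 (by_contra fun e => h.chord_stop hr d ⟨hB hr, e⟩)
  have ch : ∀ i j, i + 2 ≤ j → j ≤ l → a.2 i0 (z i) (z j) = 0 := fun i j c d =>
    by_contra fun e => h.chord c d ⟨mem j (by omega) d, e⟩
  have ne : ∀ i j, i ≠ j → i ≤ l → j ≤ l → z i ≠ z j := fun i j c d e k => c (h.inj d e k)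
  have e23 := (h.step 2 (by omega)).2
  have hp := PivIn.edge ha (far 2 le_rfl (by omega)) (far 3 (by omega) (by omega)) e23
  obtain ⟨b, ℓ', z', b1, b2, b3⟩ := ih (l - 2) (by omega) _
    (fun t => if t ≤ 1 then z t else z (t + 2)) (hp.fam ha) ⟨h.start, by
      rw [if_neg (by omega), Nat.sub_add_cancel (by omega)]
      exact h.stop, fun t ht => by
      rcases (by omega : t = 0 ∨ t = 1 ∨ 2 ≤ t) with rfl | rfl | k
      · exact ⟨(h.step 0 (by omega)).1, fun e => (h.step 0 (by omega)).2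
          ((hp.far_row ha (Or.inl h.start) i0 (z 1)).symm.trans e)⟩
      · refine ⟨mem 4 (by omega) (by omega), ?_⟩
        change epiv (a.2 i0) (z 2) (z 3) (z 1) (z 4) ≠ 0
        rw [epiv_uv _ (ne 1 2 (by omega) (by omega) (by omega))
          (ne 1 3 (by omega) (by omega) (by omega)) (ne 4 2 (by omega) (by omega) (by omega))
          (ne 4 3 (by omega) (by omega) (by omega)), ch 1 4 (by omega) (by omega),
          ch 1 3 (by omega) (by omega), zero_mul, zero_div, sub_zero, zero_sub, neg_ne_zero]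
        exact div_ne_zero (mul_ne_zero (h.step 1 (by omega)).2 (h.step 3 (by omega)).2)
          fun e => e23 ((ha.zero_comm _ _ _).1 e)
      · rw [if_neg (by omega), if_neg (by omega)]
        refine ⟨mem _ (by omega) (by omega), ?_⟩
        change epiv (a.2 i0) (z 2) (z 3) (z (t + 2)) (z (t + 1 + 2)) ≠ 0
        rw [epiv_uv _ (ne _ 2 (by omega) (by omega) (by omega))
          (ne _ 3 (by omega) (by omega) (by omega)) (ne _ 2 (by omega) (by omega) (by omega))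
          (ne _ 3 (by omega) (by omega) (by omega)), ch 3 (t + 1 + 2) (by omega) (by omega),
          ch 2 (t + 1 + 2) (by omega) (by omega), mul_zero, mul_zero, zero_div, zero_div,
          sub_zero, sub_zero]
        exact (h.step (t + 2) (by omega)).2⟩
  rw [hp.far_eq ha] at b1
  exact ⟨b, ℓ', z', hp.trans b1, b2, b3⟩

lemma main {a : Dsp F E ι} {i0 : ι} {C W0 : Set E} (ha : Fam a.1 a.2) (hC : ConnOn (a.2 i0) C)
    (hW : W0 ⊆ C) (n : ℕ) : ∀ (b : Dsp F E ι) (X : Set E), PivIn (Far (a.2 i0) C W0) a b → X ⊆ C →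
      X.Nonempty → ConnOn (b.2 i0) X → X.ncard ≤ 4 * (X ∩ W0).ncard → (W0 \ X).ncard < n →
      ∃ b W, PivIn (Far (a.2 i0) C W0) a b ∧ W0 ⊆ W ∧ W ⊆ C ∧ W.ncard ≤ 4 * W0.ncard ∧
        ConnOn (b.2 i0) W := by
  induction n with
  | zero => exact fun _ _ _ _ _ _ _ h => absurd h (Nat.not_lt_zero _)
  | succ n ih =>
  intro b X h1 h2 h3 h4 h5 h6
  by_cases k : W0 ⊆ X
  · exact ⟨b, X, h1, k, h2, by rwa [Set.inter_eq_right.2 k] at h5, h4⟩
  have hb := h1.fam ha
  obtain ⟨ℓ, z, hz⟩ | ⟨Y, y1, y2, y3⟩ := exists_sWalk_or_closed (Ed (b.2 i0) C) X (W0 \ X)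
  · obtain ⟨c, ℓ', z', c1, c2, c3⟩ :=
      short i0 (Set.sdiff_subset.trans hW) ℓ b z hb hz.toWalk
    obtain ⟨X', d1, d2, d3, d4, d5⟩ := grow ((c1.fam hb).skew i0) h2
      (h4.congr fun u hu v _ => c1.far_row hb (Or.inl hu) i0 v) c3 le_rfl
    have e1 : (X ∩ W0).ncard < (X' ∩ W0).ncard := Set.ncard_lt_ncard
      ⟨Set.inter_subset_inter_left _ d1, fun e => c3.stop.2 (e ⟨d3, c3.stop.1⟩).1⟩
    have e2 : (W0 \ X').ncard < (W0 \ X).ncard := Set.ncard_lt_ncard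
      ⟨Set.sdiff_subset_sdiff_right d1, fun e => (e c3.stop).2 d3⟩
    refine ih c X' (h1.trans (c1.mono ?_)) d2 (h3.mono d1) d4 (by omega) (by omega)
    rw [← h1.far_eq ha]
    exact far_anti _ _ fun x hx => (em (x ∈ X)).imp_right fun e => ⟨hx, e⟩
  · rcases h1.connOn (far_sub _ _ _) hC (Y ∩ C) Set.inter_subset_right (fun u hu v hv =>
      by_contra fun e => y3 u hu.1 v (fun e' => hv.2 ⟨e', hv.1⟩) ⟨hv.1, e⟩) with e | e
    · obtain ⟨x, hx⟩ := h3
      exact ((e ▸ (⟨y1 hx, h2 hx⟩ : x ∈ Y ∩ C) : x ∈ (∅ : Set E))).elim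
    · obtain ⟨w, w1, w2⟩ := Set.not_subset.1 k
      exact (Set.disjoint_left.1 y2 (Set.inter_eq_right.1 e (hW w1)) ⟨w1, w2⟩).elim

end Connect

theorem connect [Fintype F] : CONNECT F := by
  intro E ι _ a i0 C W0 ha hC hW
  rcases W0.eq_empty_or_nonempty with rfl | ⟨w, hw⟩
  · exact ⟨a, ∅, PivIn.refl _ a, subset_rfl, hW, by simp, fun X hX _ =>
      Or.inl (Set.subset_empty_iff.1 hX)⟩
  · refine Connect.main ha hC hW _ a {w} (PivIn.refl _ a) (Set.singleton_subset_iff.2 (hW hw))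
      (Set.singleton_nonempty w) (fun X hX _ => Set.subset_singleton_iff_eq.1 hX) ?_
      (Nat.lt_succ_self _)
    rw [Set.inter_eq_left.2 (Set.singleton_subset_iff.2 hw)]
    omega

end Pool.Agent.MP_d99b12_co.H25
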