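import Pool.Agent.MP_d99b12_co.H25.Spec4

/-! # Open or closed chains: the dichotomy -/

namespace Pool.Agent.MP_d99b12_co.H25

open Matrix Sum

namespace Dich

variable {F : Type} [Field F] {E K P : Type} [Fintype K] {S : Matrix E E F} {kk : K → E}
  {Q Q' : Set E}

/-- The smallest closed set that contains `Q`. -/
def Om (S : Matrix E E F) (kk : K → E) (Q : Set E) : Set E :=
  {v | ∀ C, Shut S kk C → Q ⊆ C → v ∈ C}

lemma sub_om : Q ⊆ Om S kk Q := fun _ hv _ _ h => h hv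

lemma shut_compl : Shut S kk (Set.range kk)ᶜ := by
  classical
  refine ⟨fun k hk => hk ⟨k, rfl⟩, fun w hw => ?_⟩
  obtain ⟨k, rfl⟩ := not_not.1 hw
  exact ⟨Pi.single k 1, fun b _ => by simp [yv]⟩

lemma shut_om (h : ∀ k, kk k ∉ Q) : Shut S kk (Om S kk Q) := by
  refine ⟨fun k hk => hk _ shut_compl ?_ ⟨k, rfl⟩, fun w hw => ?_⟩
  · rintro _ hv ⟨k, rfl⟩
    exact h k hv
  · unfold Om at hw
    simp only [Set.mem_ofPred_eq, not_forall] at hw
    obtain ⟨C, h1, h2, h3⟩ := hw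
    obtain ⟨x, hx⟩ := h1.span w h3
    exact ⟨x, hx.mono fun v hv => hv C h1 h2⟩

/-- A row outside a closed set that vanishes on a spanning part vanishes on the set. -/
lemma row_zero {C Y : Set E} (hC : Shut S kk C) (hY : Y ⊆ C) (hf : Full S kk Y) {w : E}
    (hw : w ∉ C) (h0 : ∀ b ∈ Y, S w b = 0) : ∀ b ∈ C, S w b = 0 := by
  obtain ⟨x, hx⟩ := hC.span w hw
  obtain rfl : x = 0 := hf x fun b hb => (hx b (hY hb)).symm.trans (h0 b hb)
  exact fun b hb => (hx b hb).trans (zero_dotProduct _)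

/-- Induction along edges inside the smallest closed set. -/
lemma om_ind (hS : Skew S) (h : ∀ k, kk k ∉ Q) {X : Set E} (h1 : X ⊆ Om S kk Q) (h2 : Q ⊆ X)
    (h3 : ∀ u ∈ X, ∀ v ∈ Om S kk Q, S u v ≠ 0 → v ∈ X) : Om S kk Q ⊆ X := by
  have hs := shut_om (S := S) h
  refine fun v hv => hv X ⟨fun k hk => hs.notK k (h1 hk), fun w hw => ?_⟩ h2
  by_cases hΩ : w ∈ Om S kk Q
  · refine ⟨0, fun b hb => ?_⟩
    rw [zero_dotProduct, hS, neg_eq_zero]
    exact by_contra fun k => hw (h3 b hb w hΩ k)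
  · obtain ⟨x, hx⟩ := hs.span w hΩ
    exact ⟨x, hx.mono h1⟩

lemma apart (hS : Skew S) (h : ∀ k, kk k ∉ Q) (h' : ∀ k, kk k ∉ Q') {Y Y' : Set E} (hY : Y ⊆ Q)
    (hY' : Y' ⊆ Q') (hf : Full S kk Y) (hf' : Full S kk Y') (h1 : ∀ v ∈ Q', v ∉ Om S kk Q)
    (h2 : ∀ v ∈ Q, v ∉ Om S kk Q') (h3 : ∀ v ∈ Q', ∀ w ∈ Q, S v w = 0) :
    ∀ v ∈ Om S kk Q', v ∉ Om S kk Q ∧ ∀ w ∈ Om S kk Q, S v w = 0 := by
  have k := om_ind hS h' (X := {v | v ∈ Om S kk Q' ∧ v ∉ Om S kk Q ∧ ∀ w ∈ Om S kk Q, S v w = 0})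
    (fun v hv => hv.1) (fun v hv => ⟨sub_om hv, h1 v hv, row_zero (shut_om h) (hY.trans sub_om) hf
      (h1 v hv) fun b hb => h3 v hv b (hY hb)⟩) fun u hu v hv huv => by
    have k1 : v ∉ Om S kk Q := fun k1 => huv (hu.2.2 v k1)
    refine ⟨hv, k1, row_zero (shut_om h) (hY.trans sub_om) hf k1 fun b hb => ?_⟩
    rw [hS, neg_eq_zero]
    refine row_zero (shut_om h') (hY'.trans sub_om) hf' (h2 b (hY hb)) (fun c hc => ?_) v hv
    rw [hS, h3 c (hY' hc) b (hY hb), neg_zero]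
  exact fun v hv => (k hv).2

lemma opn {m n N : ℕ} {d : Datum F K P} [Fintype E] {col : E → Bool}
    {S : Fin (N + 1) → Matrix E E F} {pp : Fin N → P → E} (hF : Fam col S)
    (hc : ∀ i, Conn m (S i)) (hch : IsChain d col S kk pp) {g : Fin n → Fin N} (hg : StrictMono g)
    (h : (∀ i j l, i < j → j < l → ¬Sep (S (Fin.last N)) kk pp (g i) (g j) (g l)) ∨
      ∀ i j l, i < j → j < l → ¬Sep (S (Fin.last N)) kk pp (g l) (g i) (g j)) : OpenN m n d := by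
  let g' : Fin (n + 1) → Fin (N + 1) := Fin.lastCases (Fin.last N) fun j => (g j).castSucc
  have h1 : g' (Fin.last n) = Fin.last N := Fin.lastCases_last
  refine ⟨E, inferInstance, col, fun i => S (g' i), kk, fun j => pp (g j), hF.reindex _,
    fun i => hc _, hch.sub' hg (fun j => Fin.lastCases_castSucc j) fun j => ?_, ?_⟩
  · rw [h1]
    exact (g j).isLt
  · simp only [h1]
    exact h

end Dich

open Dich

variable {F : Type} [Field F]

theorem dich (m : ℕ) : DICH F m := by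
  intro n1 n2
  obtain ⟨N, hN⟩ := ramsey3 (Prop × Prop) (n1 + 2 * n2)
  refine ⟨N, fun K P _ _ d ⟨E, _, col, S, kk, pp, hF, hc, hch⟩ hU hr _ _ => ?_⟩
  obtain ⟨g, hg⟩ := hN fun i j l =>
    (Sep (S (Fin.last N)) kk pp i j l, Sep (S (Fin.last N)) kk pp l i j)
  have hm : StrictMono fun i => g (Fin.castLE (Nat.le_add_right n1 (2 * n2)) i) :=
    g.strictMono.comp (Fin.strictMono_castLE _)
  by_cases c1 : ∃ i j l, i < j ∧ j < l ∧ ¬Sep (S (Fin.last N)) kk pp (g i) (g j) (g l)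
  · obtain ⟨i, j, l, h1, h2, h3⟩ := c1
    exact Or.inl (opn hF hc hch hm (Or.inl fun i' j' l' h1' h2' k =>
      h3 ((congrArg Prod.fst (hg _ _ _ i j l h1' h2' h1 h2)).mp k)))
  by_cases c2 : ∃ i j l, i < j ∧ j < l ∧ ¬Sep (S (Fin.last N)) kk pp (g l) (g i) (g j)
  · obtain ⟨i, j, l, h1, h2, h3⟩ := c2
    exact Or.inl (opn hF hc hch hm (Or.inr fun i' j' l' h1' h2' k =>
      h3 ((congrArg Prod.snd (hg _ _ _ i j l h1' h2' h1 h2)).mp k)))
  push Not at c1 c2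
  right
  let a : Fin n2 → Fin (n1 + 2 * n2) := fun t => ⟨2 * t, by omega⟩
  let b : Fin n2 → Fin (n1 + 2 * n2) := fun t => ⟨2 * t + 1, by omega⟩
  have hab : ∀ t, a t < b t := fun t => Nat.lt_succ_self _
  let Q : Fin n2 → Set E := fun t => Set.range (pp (g (a t))) ∪ Set.range (pp (g (b t)))
  have hQ : ∀ t k, kk k ∉ Q t := by
    rintro t k (⟨p, hp⟩ | ⟨p, hp⟩) <;> exact hch.kk_ne_pp k _ p hp.symm
  have hmiss : ∀ t i p, i ≠ a t → i ≠ b t → pp (g i) p ∉ Om (S (Fin.last N)) kk (Q t) := by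
    intro t i p h1 h2 hv
    have key : Sep (S (Fin.last N)) kk pp (g i) (g (a t)) (g (b t)) := by
      rcases lt_or_gt_of_ne h1 with h | h
      · exact c1 _ _ _ h (hab t)
      · refine c2 _ _ _ (hab t) (lt_of_le_of_ne (Nat.succ_le_of_lt h) h2.symm)
    obtain ⟨C, k1, k2⟩ := key
    refine (k2 p).2.2 (hv C k1 ?_)
    rintro _ (⟨q, rfl⟩ | ⟨q, rfl⟩)
    exacts [(k2 q).1, (k2 q).2.1]
  have hz : ∀ i j p q, i ≠ j → S (Fin.last N) (pp (g i) p) (pp (g j) q) = 0 := by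
    intro i j p q h
    rcases lt_or_gt_of_ne h with h | h
    · rw [hch.pp_lt _ (g.strictMono h), hU, Matrix.zero_apply]
    · rw [hch.pp_gt _ (g.strictMono h), hU, Matrix.zero_apply, neg_zero]
  have hne : ∀ t t', t ≠ t' → a t ≠ a t' ∧ a t ≠ b t' ∧ b t ≠ a t' ∧ b t ≠ b t' := by
    intro t t' h
    have h' : t.val ≠ t'.val := fun k => h (Fin.ext k)
    simp only [a, b, ne_eq, Fin.mk.injEq]
    omega
  have hout : ∀ t t', t ≠ t' → ∀ v ∈ Q t, v ∉ Om (S (Fin.last N)) kk (Q t') := by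
    rintro t t' h _ (⟨p, rfl⟩ | ⟨p, rfl⟩)
    · exact hmiss t' _ p (hne t t' h).1 (hne t t' h).2.1
    · exact hmiss t' _ p (hne t t' h).2.2.1 (hne t t' h).2.2.2
  refine ⟨E, inferInstance, col, N, S, kk, pp, fun t => g (a t), fun t => g (b t),
    fun t => Om (S (Fin.last N)) kk (Q t), hF, hc, hch,
    g.strictMono.comp fun t t' h => Nat.mul_lt_mul_of_pos_left h two_pos,
    fun t => (g.strictMono (hab t)).ne,
    fun t p => ⟨sub_om (Or.inl ⟨p, rfl⟩), sub_om (Or.inr ⟨p, rfl⟩)⟩, fun t => shut_om (hQ t),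
    fun t t' h => ?_⟩
  have key := apart (hF.skew (Fin.last N)) (hQ t') (hQ t) Set.subset_union_left
    Set.subset_union_left (hch.full hr _ _) (hch.full hr _ _) (hout t t' h) (hout t' t h.symm) (by
      obtain ⟨h1, h2, h3, h4⟩ := hne t t' h
      rintro _ (⟨p, rfl⟩ | ⟨p, rfl⟩) _ (⟨q, rfl⟩ | ⟨q, rfl⟩) <;> apply hz <;> assumption)
  exact ⟨Set.disjoint_left.2 fun v hv => (key v hv).1, fun u hu => (key u hu).2⟩

end Pool.Agent.MP_d99b12_co.H25
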