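import Mathlib

/-!
# Definitions for the structure theory of many inequivalent representations (MP_d99b12_co)

A standard representation `[I | A]` is stored as the skew matrix `S` on the whole ground set,
`S r c = A r c`, `S c r = -A r c`; `col` is the bipartition into rows and columns.
-/

namespace Pool.Agent.MP_d99b12_co.H25

open Matrix

section Basic

variable {F : Type} [Field F] {E : Type}

def Skew (S : Matrix E E F) : Prop := ∀ u v, S u v = -S v u

def Bip (col : E → Bool) (S : Matrix E E F) : Prop := ∀ u v, col u = col v → S u v = 0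

/-- The columns `Y` of `S`, restricted to the rows `X`, are linearly dependent. -/
def Dep [Fintype E] (S : Matrix E E F) (X Y : Set E) : Prop :=
  ∃ u : E → F, u ≠ 0 ∧ (∀ y, y ∉ Y → u y = 0) ∧ ∀ x ∈ X, (S *ᵥ u) x = 0

/-- `S` and `T` represent the same matroid. -/
def Same [Fintype E] (S T : Matrix E E F) : Prop := ∀ X Y, Dep S X Y ↔ Dep T X Y

/-- A family of displayed representations of one matroid. -/
structure Fam [Fintype E] {ι : Type} (col : E → Bool) (S : ι → Matrix E E F) : Prop where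
  skew : ∀ i, Skew (S i)
  bip : ∀ i, Bip col (S i)
  same : ∀ i j, Same (S i) (S j)

def scale (c : E → Fˣ) (S : Matrix E E F) : Matrix E E F :=
  Matrix.of fun u v => (c u : F) * (c v : F) * S u v

/-- The block with rows `X` and columns `Y` has rank at most `l`. -/
def RkLE (S : Matrix E E F) (X Y : Set E) (l : ℕ) : Prop :=
  ∃ x y : E → Fin l → F, ∀ u ∈ X, ∀ w ∈ Y, S u w = x u ⬝ᵥ y w

/-- Tutte connectivity `m + 2` in terms of cut ranks. -/
def Conn (m : ℕ) (S : Matrix E E F) : Prop :=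
  ∀ (X : Set E) (l : ℕ), l ≤ m → RkLE S X Xᶜ l → X.ncard ≤ l ∨ Xᶜ.ncard ≤ l

/-- The column `w` of `S` read on the rows `kk`. -/
def yv {K : Type} (S : Matrix E E F) (kk : K → E) (w : E) : K → F := fun r => S (kk r) w

/-- On the columns `Y`, the row `u` is the combination `x` of the rows `kk`. -/
def Al {K : Type} [Fintype K] (S : Matrix E E F) (kk : K → E) (Y : Set E) (u : E) (x : K → F) :
    Prop := ∀ b ∈ Y, S u b = x ⬝ᵥ yv S kk b

def InSpan {K : Type} [Fintype K] (S : Matrix E E F) (kk : K → E) (Y : Set E) (u : E) : Prop :=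
  ∃ x, Al S kk Y u x

/-- The rows `kk` are independent on the columns `Y`. -/
def Full {K : Type} [Fintype K] (S : Matrix E E F) (kk : K → E) (Y : Set E) : Prop :=
  ∀ x : K → F, (∀ b ∈ Y, x ⬝ᵥ yv S kk b = 0) → x = 0

/-- The entry ` (u, w)` after subtracting the background `X u ⬝ yv w`. -/
def nat {K : Type} [Fintype K] (S : Matrix E E F) (kk : K → E) (X : E → K → F) (u w : E) : F :=
  S u w - X u ⬝ᵥ yv S kk w

open Classical in
/-- `S'` is the principal pivot transform of `S` on `Z`: input and output are swapped on `Z`. -/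
def IsPiv [Fintype E] (S S' : Matrix E E F) (Z : Set E) : Prop :=
  ∀ u w : E → F, w = S *ᵥ u ↔ Z.piecewise u w = S' *ᵥ Z.piecewise w u

open Classical in
noncomputable def colFlip (col : E → Bool) (Z : Set E) : E → Bool :=
  fun e => if e ∈ Z then !col e else col e

open Classical in
/-- The pivot on the pair `{x, y}` (for `S x x = S y y = 0`, `S x y ≠ 0`, `S y x ≠ 0`). -/
noncomputable def epiv (S : Matrix E E F) (x y : E) : Matrix E E F := Matrix.of fun u v =>
  if u = x then (if v = x then 0 else if v = y then (S y x)⁻¹ else -S y v / S y x)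
  else if u = y then (if v = x then (S x y)⁻¹ else if v = y then 0 else -S x v / S x y)
  else if v = x then S u y / S x y
  else if v = y then S u x / S y x
  else S u v - S u x * S y v / S y x - S u y * S x v / S x y

/-- `y` has no neighbour in `O` (it is uncharged). -/
def NoNb (S : Matrix E E F) (O : Set E) (y : E) : Prop := ∀ o ∈ O, S o y = 0

/-- A display of a family: the bipartition and the matrices. -/
abbrev Dsp (F E ι : Type) := (E → Bool) × (ι → Matrix E E F)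

/-- Harmless pivot: on an edge outside `O` with an end that has no neighbour in `O`. -/
def HStep {ι : Type} (O : Set E) (a b : Dsp F E ι) : Prop :=
  ∃ x y, x ∉ O ∧ y ∉ O ∧ (∀ i, a.2 i x y ≠ 0) ∧ (∀ i, NoNb (a.2 i) O y) ∧
    b = (colFlip a.1 {x, y}, fun i => epiv (a.2 i) x y)

/-- Inner pivot: on an edge inside `Y` whose ends have no neighbour in `O`. -/
def IStep {ι : Type} (O Y : Set E) (a b : Dsp F E ι) : Prop :=
  ∃ x y, x ∈ Y ∧ y ∈ Y ∧ (∀ i, a.2 i x y ≠ 0) ∧ (∀ i, NoNb (a.2 i) O x) ∧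
    (∀ i, NoNb (a.2 i) O y) ∧ b = (colFlip a.1 {x, y}, fun i => epiv (a.2 i) x y)

abbrev HReach {ι : Type} (O : Set E) : Dsp F E ι → Dsp F E ι → Prop :=
  Relation.ReflTransGen (HStep O)

abbrev IReach {ι : Type} (O Y : Set E) : Dsp F E ι → Dsp F E ι → Prop :=
  Relation.ReflTransGen (IStep O Y)

/-- No scaling that is `1` on `O` turns `M` into `M'` on ` (O ∪ P0) × P0`. -/
def DevP (O : Set E) (M M' : Matrix E E F) (P0 : Set E) : Prop :=
  ¬∃ c : E → Fˣ, (∀ o ∈ O, c o = 1) ∧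
    ∀ u ∈ O ∪ P0, ∀ v ∈ P0, M' u v = (c u : F) * (c v : F) * M u v

def EquivOn (W : Set E) (M M' : Matrix E E F) : Prop :=
  ∃ c : E → Fˣ, ∀ u ∈ W, ∀ v ∈ W, M' u v = (c u : F) * (c v : F) * M u v

def AgreeOn (W : Set E) (M M' : Matrix E E F) : Prop := ∀ u ∈ W, ∀ v ∈ W, M' u v = M u v

/-- The column `v` on the rows `O` is the same in `M` and `M'` up to a scalar. -/
def Par (O : Set E) (M M' : Matrix E E F) (v : E) : Prop :=
  ∃ c : Fˣ, ∀ o ∈ O, M' o v = (c : F) * M o v

def ParAll (O : Set E) (a : Dsp F E Bool) : Prop :=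
  ∀ b, HReach O a b → ∀ v, v ∉ O → Par O (b.2 false) (b.2 true) v

/-- A visible pair is reachable by harmless pivots. -/
def VisR (O : Set E) (a : Dsp F E Bool) : Prop :=
  ∃ b, HReach O a b ∧ ∃ x y, x ∉ O ∧ y ∉ O ∧ DevP O (b.2 false) (b.2 true) {x, y}

/-- `k, b1, a, b2` is a 4-cycle whose cross ratio differs in `M` and `M'`. -/
def UC4 (M M' : Matrix E E F) (k b1 a b2 : E) : Prop :=
  M k b1 ≠ 0 ∧ M k b2 ≠ 0 ∧ M a b1 ≠ 0 ∧ M a b2 ≠ 0 ∧
    M' k b1 * M' a b2 * (M k b2 * M a b1) ≠ M' k b2 * M' a b1 * (M k b1 * M a b2)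

/-- Everything outside `X` sees `X` as the row `k` does (cut rank one, base entry ` (k, e)`). -/
def Clo (M : Matrix E E F) (k e : E) (X : Set E) : Prop :=
  ∀ w, w ∉ X → ∀ x ∈ X, M w x * M k e = M w e * M k x

/-- No set of cut rank one contains the triple and avoids `O`. -/
def NS (O : Set E) (M : Matrix E E F) (k b1 a b2 : E) : Prop :=
  ∀ X : Set E, Disjoint X O → b1 ∈ X → a ∈ X → b2 ∈ X → ¬Clo M k b1 X

/-- The support graph of `M` is connected on `W`. -/
def ConnOn (M : Matrix E E F) (W : Set E) : Prop :=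
  ∀ X ⊆ W, (∀ u ∈ X, ∀ v ∈ W \ X, M u v = 0) → X = ∅ ∨ X = W

/-- Every vertex outside `O` is joined to `O`. -/
def Rooted (O : Set E) (M : Matrix E E F) : Prop :=
  ∀ X : Set E, Disjoint X O → (∀ u ∈ X, ∀ v, v ∉ X → M u v = 0) → X = ∅

/-- A path `u 0, …, u ℓ` in `Y` that carries all the difference between `M` and `M'` on one edge. -/
structure Cfg (O Y : Set E) (M M' : Matrix E E F) (ℓ : ℕ) (u : ℕ → E) (c : E → Fˣ) : Prop where
  pos : 1 ≤ ℓ
  mem : ∀ i ≤ ℓ, u i ∈ Y
  inj : ∀ i ≤ ℓ, ∀ j ≤ ℓ, u i = u j → i = j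
  adj : ∀ i < ℓ, M (u i) (u (i + 1)) ≠ 0
  chord : ∀ i j, i + 2 ≤ j → j ≤ ℓ → ¬(i = 0 ∧ j = ℓ) → M (u i) (u j) = 0
  inner : ∀ i, 1 ≤ i → i < ℓ → NoNb M O (u i)
  one : ∀ o ∈ O, c o = 1
  eqO : ∀ i ≤ ℓ, ∀ o ∈ O, M' o (u i) = (c (u i) : F) * M o (u i)
  eqP : ∀ i j, i < j → j ≤ ℓ → ¬(i = 0 ∧ j = 1) →
    M' (u i) (u j) = (c (u i) : F) * (c (u j) : F) * M (u i) (u j)
  ne : M' (u 0) (u 1) ≠ (c (u 0) : F) * (c (u 1) : F) * M (u 0) (u 1)
  close : (¬NoNb M O (u 0) ∧ ¬NoNb M O (u ℓ)) ∨ (3 ≤ ℓ ∧ M (u 0) (u ℓ) ≠ 0)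

/-- A vertex of `Y` with two neighbours in `O` and different gains. -/
def Single (O Y : Set E) (M M' : Matrix E E F) : Prop :=
  ∃ v ∈ Y, ∃ a ∈ O, ∃ b ∈ O, M a v ≠ 0 ∧ M b v ≠ 0 ∧ M' a v * M b v ≠ M' b v * M a v

/-- A walk of length `ℓ` from `A` to `B`. -/
structure Walk (R : E → E → Prop) (A B : Set E) (ℓ : ℕ) (z : ℕ → E) : Prop where
  start : z 0 ∈ A
  stop : z ℓ ∈ B
  step : ∀ i < ℓ, R (z i) (z (i + 1))

/-- A shortest walk from `A` to `B`. -/
structure SWalk (R : E → E → Prop) (A B : Set E) (ℓ : ℕ) (z : ℕ → E) : Prop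
    extends Walk R A B ℓ z where
  min : ∀ ℓ' z', Walk R A B ℓ' z' → ℓ ≤ ℓ'

end Basic

/-- A homogeneous chain: core `K`, petal `P`; `D`, `V`, `A`, `U` are the blocks core-core,
core-petal, petal-same petal, petal-later petal; `As` is the deviant diagonal block. -/
structure Datum (F K P : Type) where
  colK : K → Bool
  colP : P → Bool
  D : Matrix K K F
  V : Matrix K P F
  A : Matrix P P F
  U : Matrix P P F
  As : Matrix P P F

section Chain

variable {F : Type} [Field F] {K P : Type}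

def emb {E : Type} {n : ℕ} (kk : K → E) (pp : Fin n → P → E) : K ⊕ Fin n × P → E :=
  Sum.elim kk fun x => pp x.1 x.2

namespace Datum

def y (d : Datum F K P) (p : P) : K → F := fun k => d.V k p

def big (d : Datum F K P) {n : ℕ} (A' : Fin n → Matrix P P F) :
    Matrix (K ⊕ Fin n × P) (K ⊕ Fin n × P) F := Matrix.of fun u v =>
  match u, v with
  | .inl k, .inl k' => d.D k k'
  | .inl k, .inr (_, q) => d.V k q
  | .inr (_, p), .inl k => -d.V k p
  | .inr (i, p), .inr (j, q) => if i = j then A' i p q else if i < j then d.U p q else -d.U q p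

def col (d : Datum F K P) (n : ℕ) : K ⊕ Fin n × P → Bool :=
  Sum.elim d.colK fun x => d.colP x.2

/-- Core and one petal: normal (`false`) and deviant (`true`). -/
def pair (d : Datum F K P) (b : Bool) : Matrix (K ⊕ P) (K ⊕ P) F :=
  Matrix.fromBlocks d.D d.V (-d.Vᵀ) (bif b then d.As else d.A)

def dsp (d : Datum F K P) : Dsp F (K ⊕ P) Bool := (Sum.elim d.colK d.colP, d.pair)

def B (d : Datum F K P) : Matrix P P F := d.A + d.Uᵀ

def Bs (d : Datum F K P) : Matrix P P F := d.As + d.Uᵀ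

/-- `A'` is the list of diagonal blocks of representation number `i`. -/
def Diag (d : Datum F K P) {n : ℕ} (i : Fin (n + 1)) (A' : Fin n → Matrix P P F) : Prop :=
  (∀ j : Fin n, j.val < i.val → A' j = d.A) ∧ ∀ j : Fin n, j.val = i.val → A' j = d.As

/-- The core sees everything that other petals see. -/
def Ref [Fintype K] (d : Datum F K P) : Prop :=
  (∀ p, ∃ x : K → F, ∀ q, d.U p q = x ⬝ᵥ d.y q) ∧ ∀ p, ∃ x : K → F, ∀ q, d.U q p = x ⬝ᵥ d.y q

/-- The rows of `V` are independent: the level is the size of the core. -/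
def Red [Fintype K] (d : Datum F K P) : Prop := ∀ x : K → F, (∀ q, x ⬝ᵥ d.y q = 0) → x = 0

def Tau0 (d : Datum F K P) : Prop := ∀ p q, d.U p q = -d.U q p

def DevD (d : Datum F K P) (P0 : Set P) : Prop :=
  ¬∃ c : P → Fˣ, (∀ p ∈ P0, ∀ k, (c p : F) * d.V k p = d.V k p) ∧
    ∀ p ∈ P0, ∀ q ∈ P0, d.As p q = (c p : F) * (c q : F) * d.A p q

def Vis (d : Datum F K P) : Prop := ∃ a b, d.DevD {a, b}

def resP {P' : Type} (d : Datum F K P) (f : P' → P) : Datum F K P' :=
  ⟨d.colK, d.colP ∘ f, d.D, d.V.submatrix id f, d.A.submatrix f f, d.U.submatrix f f,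
    d.As.submatrix f f⟩

def resK {K' : Type} (d : Datum F K P) (f : K' → K) : Datum F K' P :=
  ⟨d.colK ∘ f, d.colP, d.D.submatrix f f, d.V.submatrix f id, d.A, d.U, d.As⟩

/-- The purely algebraic shadow of realisability. -/
def Alg [Fintype K] [Fintype P] (d : Datum F K P) : Prop :=
  ∀ n, ∃ A' : Fin (n + 1) → Fin n → Matrix P P F,
    (∀ i, d.Diag i (A' i)) ∧ Fam (d.col n) fun i => d.big (A' i)

/-- After one legal pivot inside the petal, either the core blocks differ or the difference is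
seen on `P0`. -/
def MID [Fintype K] [Fintype P] (d : Datum F K P) (P0 : Set P) : Prop :=
  ∃ (Z : Set P) (M : Bool → Matrix (K ⊕ P) (K ⊕ P) F),
    (∀ b, IsPiv (d.pair b) (M b) (Sum.inr '' Z)) ∧
    (AgreeOn (Set.range Sum.inl) (M false) (M true) →
      ∃ O ⊆ Set.range (Sum.inl : K → K ⊕ P), DevP O (M false) (M true) (Sum.inr '' P0) ∧
        ∀ p ∈ P0, Par O (M false) (M true) (Sum.inr p))

/-- A deviant triple `b1, a, b2` two-summed onto a skeleton at `b1`. -/
structure Tri (d : Datum F K P) (k : K) (b1 a b2 : P) : Prop where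
  uc : UC4 (d.pair false) (d.pair true) (.inl k) (.inr b1) (.inr a) (.inr b2)
  clo : Clo (d.pair false) (.inl k) (.inr b1) {.inr b1, .inr a, .inr b2}
  sk : ∀ (n : ℕ) (J : Set (Fin n)) (t : Fin n) (X : Set (Fin n × P)), (∀ x ∈ X, x.1 ∈ J) →
    (t, b1) ∈ X → (t, a) ∈ X → (t, b2) ∈ X →
    (∀ k', ∀ x ∈ X, d.V k' x.2 * d.V k b1 = d.V k' b1 * d.V k x.2) →
    (∀ w : Fin n × P, w.1 ∈ J → w ∉ X → ∀ x ∈ X,
      (d.big fun _ => d.A) (.inr w) (.inr x) * d.V k b1 =
        (d.big fun _ => d.A) (.inr w) (.inr (t, b1)) * d.V k x.2) →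
    X = {(t, b1), (t, a), (t, b2)}

end Datum

/-- No proper part of `P` is split off by `B` in both directions. -/
def NConn (B : Matrix P P F) : Prop :=
  ∀ X : Set P, (∀ p ∈ X, ∀ q, q ∉ X → B p q = 0 ∧ B q p = 0) → X = ∅ ∨ X = Set.univ

/-- The digraph of `B` is strongly connected. -/
def SC (B : Matrix P P F) : Prop :=
  ∀ X : Set P, (∀ p ∈ X, ∀ q, q ∉ X → B p q = 0) → X = ∅ ∨ X = Set.univ

structure IsChain {E : Type} {n : ℕ} (d : Datum F K P) (col : E → Bool)
    (S : Fin (n + 1) → Matrix E E F) (kk : K → E) (pp : Fin n → P → E) : Prop where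
  inj : Function.Injective (emb kk pp)
  colK : ∀ k, col (kk k) = d.colK k
  colP : ∀ i p, col (pp i p) = d.colP p
  sub : ∀ i, ∃ A', d.Diag i A' ∧ (S i).submatrix (emb kk pp) (emb kk pp) = d.big A'

def RealN (m n : ℕ) (d : Datum F K P) : Prop :=
  ∃ (E : Type) (_ : Fintype E) (col : E → Bool) (S : Fin (n + 1) → Matrix E E F) (kk : K → E)
    (pp : Fin n → P → E), Fam col S ∧ (∀ i, Conn m (S i)) ∧ IsChain d col S kk pp

/-- The datum occurs with arbitrarily many petals in ` (m + 2)`-connected matroids. -/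
def Real (m : ℕ) (d : Datum F K P) : Prop := ∀ n, RealN m n d

end Chain

section Aug

variable {F : Type} [Field F] {K P E ι : Type} [Fintype K]

def petals {n : ℕ} (pp : Fin n → P → E) : Set E := {e | ∃ j p, pp j p = e}

/-- The pivot-invariant data of `S` and `S'` on `W` agree up to a scaling of `W`. -/
def DEq (S S' : Matrix E E F) (kk : K → E) (X X' : E → K → F) (W : Set E) : Prop :=
  ∃ c : E → Fˣ, ∀ p ∈ W, X' p = (c p : F) • X p ∧
    (∀ r, nat S' kk X' p (kk r) = (c p : F) * nat S kk X p (kk r)) ∧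
    ∀ q ∈ W, nat S' kk X' p q = (c p : F) * (c q : F) * nat S kk X p q

def Datum.AugIn (d : Datum F K P) (P0 : Set P) : Prop := d.Ref ∧ d.Red ∧ SC d.B ∧ d.DevD P0

def Datum.AugOut [Fintype P] (d : Datum F K P) (l : ℕ) (P0 : Set P) : Prop :=
  d.Ref ∧ NConn d.B ∧ l < d.V.rank ∧ d.MID P0

/-- A chain together with a set `Q ⊇ K` on which its members agree, inside a larger family. -/
structure Stage [Fintype E] (m : ℕ) (d : Datum F K P) {n : ℕ} (col : E → Bool)
    (S : ι → Matrix E E F) (kk : K → E) (pp : Fin n → P → E) (cl : Fin (n + 1) → ι) (Q : Set E)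
    (X : ι → E → K → F) : Prop where
  fam : Fam col S
  conn : ∀ i, Conn m (S i)
  chain : IsChain d col (fun i => S (cl i)) kk pp
  kQ : ∀ k, kk k ∈ Q
  disj : ∀ j p, pp j p ∉ Q
  al : ∀ i, ∀ u ∈ Q, Al (S i) kk (petals pp) u (X i u)
  agree : ∀ i j, AgreeOn Q (S (cl i)) (S (cl j)) ∧ ∀ u ∈ Q, X (cl j) u = X (cl i) u

/-- The labels of a piece: a petal and `len` path vertices. -/
def vl (P : Type) (len : ℕ) : Set (P ⊕ ℕ) := {x | ∀ i, x = .inr i → i < len}

/-- A petal with a blocking path, attached to `Q` only through the first path vertex. -/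
structure Piece (S : ι → Matrix E E F) (kk : K → E) (X : ι → E → K → F) (Q : Set E)
    (e : P ⊕ ℕ → E) (len : ℕ) : Prop where
  pos : 1 ≤ len
  inj : Set.InjOn e (vl P len)
  disj : ∀ x ∈ vl P len, e x ∉ Q
  zero : ∀ i, ∀ u ∈ Q, ∀ x ∈ vl P len, x ≠ .inr 0 → nat (S i) kk (X i) u (e x) = 0
  hit : ∃ u ∈ Q, ∀ i, nat (S i) kk (X i) u (e (.inr 0)) ≠ 0
  reach : ∀ x ∈ vl P len, Relation.ReflTransGen
    (fun a b => a ∈ vl P len ∧ b ∈ vl P len ∧ ∀ i, nat (S i) kk (X i) (e a) (e b) ≠ 0) (.inr 0) x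
  rk : ∃ C : K → P, ∀ i (u : K → F), ∑ k, u k • X i (e (.inl (C k))) = 0 →
    (∀ r, ∑ k, u k * nat (S i) kk (X i) (e (.inl (C k))) (kk r) = 0) → u = 0

/-- Everything grown before stage `s`. -/
def QS {T : ℕ} (Q0 : Set E) (e : Fin T → P ⊕ ℕ → E) (len : Fin T → ℕ) (s : ℕ) : Set E :=
  Q0 ∪ {w | ∃ t : Fin T, t.val < s ∧ ∃ x ∈ vl P (len t), e t x = w}

/-- The result of `T` growth steps; `S s` is the deviant representation of piece `s`. -/
structure Grown [Fintype E] (m p0 κ : ℕ) (P0 : Set P) {T : ℕ} (col : E → Bool)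
    (S : Fin T → Matrix E E F) (kk : K → E) (X : Fin T → E → K → F) (Q0 : Set E)
    (e : Fin T → P ⊕ ℕ → E) (len : Fin T → ℕ) (pf : P → E) : Prop where
  fam : Fam col S
  conn : ∀ i, Conn m (S i)
  kinj : Function.Injective kk
  kQ : ∀ k, kk k ∈ Q0
  card : Q0.ncard ≤ κ
  len_le : ∀ s, len s ≤ p0
  pfinj : Function.Injective pf
  pfQ : ∀ p, pf p ∉ QS Q0 e len T
  piece : ∀ s, Piece S kk X (QS Q0 e len s.val) (e s) (len s)
  al : ∀ i, ∀ u ∈ QS Q0 e len T, Al (S i) kk (Set.range pf) u (X i u)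
  full : ∀ i, Full (S i) kk (Set.range pf)
  agree : ∀ s s', s ≤ s' → ∀ u ∈ QS Q0 e len s.val, X s' u = X s u ∧
    ∀ w ∈ QS Q0 e len s.val, nat (S s') kk (X s') u w = nat (S s) kk (X s) u w
  dev : ∀ s s', s < s' → ¬DEq (S s) (S s') kk (X s) (X s') ((fun p => e s (.inl p)) '' P0)

/-- A chain with a vertex `v` that brings a new direction on every petal. -/
def HubOut (F K : Type) [Field F] [Fintype K] {P : Type} (m n : ℕ) (P0 : Set P) : Prop :=
  ∃ (d : Datum F K P) (E : Type) (_ : Fintype E) (col : E → Bool)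
    (S : Fin (n + 1) → Matrix E E F) (kk : K → E) (pp : Fin n → P → E) (v : E),
    d.AugIn P0 ∧ Fam col S ∧ (∀ i, Conn m (S i)) ∧ IsChain d col S kk pp ∧
    v ∉ Set.range (emb kk pp) ∧ ∀ j, ¬InSpan (S (Fin.last n)) kk (Set.range (pp j)) v

/-- A chordless path of the background-free matrix between `Q` and `Ω`. -/
structure PS (S : Matrix E E F) (kk : K → E) (X : E → K → F) (Q Ω : Set E) (v : ℕ → E)
    (len : ℕ) : Prop where
  inj : ∀ i < len, ∀ j < len, v i = v j → i = j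
  notQ : ∀ j < len, v j ∉ Q
  notO : ∀ j < len, v j ∉ Ω
  left : ∀ u ∈ Q, ∀ j, 1 ≤ j → j < len → nat S kk X u (v j) = 0
  right : ∀ j, j + 1 < len → ∀ w ∈ Ω, nat S kk X (v j) w = 0
  chord : ∀ i j, i + 2 ≤ j → j < len → nat S kk X (v i) (v j) = 0
  link : ∀ j, j + 1 < len → nat S kk X (v j) (v (j + 1)) ≠ 0

/-- State along a path: right sum, left sum, previous value, link times next value. -/
abbrev St (F K : Type) := (K → F) × (K → F) × F × F

/-- The transfer across one path vertex with row vector `x`, column vector `y`, incoming link `t`. -/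
def tr (x y : K → F) (t : F) (σ : St F K) : St F K :=
  (σ.1 - (σ.2.2.2 / t) • y, σ.2.1 + (σ.2.2.2 / t) • x, σ.2.2.2 / t,
    t * σ.2.2.1 + σ.2.1 ⬝ᵥ y - x ⬝ᵥ (σ.1 - (σ.2.2.2 / t) • y))

/-- The transfer across the path vertices `s, …, s + n - 1`. -/
def run (xs ys : ℕ → K → F) (ts : ℕ → F) (s : ℕ) : ℕ → St F K → St F K
  | 0 => id
  | n + 1 => tr (xs (s + n)) (ys (s + n)) (ts (s + n)) ∘ run xs ys ts s n

end Aug

end Pool.Agent.MP_d99b12_co.H25
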