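import Pool.Agent.MP_d99b12_co.H25.Spec3

/-! # The auxiliary petal inside a closed set -/

namespace Pool.Agent.MP_d99b12_co.H25

open Matrix

set_option linter.unusedSectionVars false
set_option linter.unusedVariables false

variable {F : Type} [Field F] {E K ι : Type} [Fintype E] [Fintype K]

namespace EXT

section Rank

variable {S S' T : Matrix E E F} {kk : K → E} {C X X' Y Z : Set E} {col col' : E → Bool} {c : Bool}

lemma rk_union {l l' : ℕ} (h : RkLE S X Y l) (h' : RkLE S X' Y l') : RkLE S (X ∪ X') Y (l + l') := by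
  classical
  obtain ⟨x, y, h⟩ := h
  obtain ⟨x', y', h'⟩ := h'
  refine rkLE_of_fac (K := Fin l ⊕ Fin l')
    (fun u => if u ∈ X then Sum.elim (x u) 0 else Sum.elim 0 (x' u)) (fun w => Sum.elim (y w) (y' w))
    (by simp) fun u hu w hw => ?_
  by_cases h1 : u ∈ X
  · simp [h1, h u h1 w hw, sumElim_dotProduct_sumElim]
  · simp [h1, h' u (hu.resolve_left h1) w hw, sumElim_dotProduct_sumElim]

lemma rk_image {I : Type} [Fintype I] (f : I → E) : RkLE S (Set.range f) Y (Fintype.card I) := by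
  classical
  refine rkLE_of_fac (fun u => if h : u ∈ Set.range f then Pi.single h.choose 1 else 0)
    (yv S f) le_rfl fun u hu w _ => ?_
  rw [dif_pos hu, single_dotProduct, one_mul, yv, hu.choose_spec]

lemma dep_of_rk {l : ℕ} (h : RkLE S X Y l) {R : Set E} (hR : R ⊆ Y) (hc : R.ncard = l + 1) :
    Dep S X R := by
  classical
  have := rkLE_iff_dep.1 h R.toFinset (by simpa using hR) (by rw [← hc, Set.ncard_eq_toFinset_card'])
  simpa using this

/-- Rows of the colour of the columns impose no condition. -/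
lemma dep_col (hb : Bip col S) (h : Dep S X Y) (hY : ∀ y ∈ Y, col y = c)
    (hX : ∀ x ∈ X', x ∈ X ∨ col x = c ∨ ∀ y ∈ Y, S x y = 0) : Dep S X' Y := by
  obtain ⟨u, h0, h1, h2⟩ := h
  refine ⟨u, h0, h1, fun x hx => ?_⟩
  have key : (∀ y ∈ Y, S x y = 0) → (S *ᵥ u) x = 0 := fun e =>
    Finset.sum_eq_zero fun y _ => by
      by_cases hy : y ∈ Y
      · simp [e y hy]
      · simp [h1 y hy]
  rcases hX x hx with e | e | e
  · exact h2 x e
  · exact key fun y hy => hb x y (e.trans (hY y hy).symm)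
  · exact key e

lemma rk_piv (h : IsPiv S S' Z) (hZ : Z ⊆ C) (hY : Y ⊆ C) (hX : Disjoint X C) {l : ℕ}
    (hr : RkLE S ((C \ Y) ∪ X) Y l) : RkLE S' ((C \ Y) ∪ X) Y l := by
  classical
  have hp := h.submatrix (f := (Subtype.val : ↥(C ∪ X) → E)) Subtype.val_injective
    (fun z hz => ⟨⟨z, Or.inl (hZ hz)⟩, rfl⟩)
  have hm : ∀ w : ↥(C ∪ X), w.1 ∉ (C \ Y) ∪ X → w.1 ∈ Y := fun w hw => by
    by_contra e
    rcases w.2 with g | g
    · exact hw (Or.inl ⟨g, e⟩)
    · exact hw (Or.inr g)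
  obtain ⟨x, y, hxy⟩ := hr
  obtain ⟨x', y', h'⟩ := hp.rkLE_cut (X := Subtype.val ⁻¹' ((C \ Y) ∪ X)) (l := l)
    ⟨fun u => x u.1, fun w => y w.1, fun u hu w hw => hxy _ hu _ (hm w hw)⟩
  refine ⟨fun u => if g : u ∈ C ∪ X then x' ⟨u, g⟩ else 0,
    fun w => if g : w ∈ C ∪ X then y' ⟨w, g⟩ else 0, fun u hu w hw => ?_⟩
  have g1 : u ∈ C ∪ X := hu.elim (fun e => Or.inl e.1) Or.inr
  have g2 : w ∈ C ∪ X := Or.inl (hY hw)
  simp only [dif_pos g1, dif_pos g2]
  refine h' ⟨u, g1⟩ hu ⟨w, g2⟩ fun e => ?_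
  rcases e with e | e
  · exact e.2 hw
  · exact Set.disjoint_left.1 hX e (hY hw)

lemma dep_single {r : E} : Dep S X {r} ↔ ∀ x ∈ X, S x r = 0 := by
  classical
  constructor
  · rintro ⟨u, h0, h1, h2⟩ x hx
    have e : u = Pi.single r (u r) := by
      ext t
      by_cases ht : t = r
      · simp [ht]
      · simp [ht, h1 t ht]
    have h3 := h2 x hx
    rw [e] at h3 h0
    simp only [mulVec_single, ne_eq, Pi.single_eq_zero_iff] at h3 h0
    simpa [h0] using h3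
  · intro h
    exact ⟨Pi.single r 1, by simp, fun y hy => by simp [show y ≠ r from hy],
      fun x hx => by simp [h x hx]⟩

lemma mulVec_two {u : E → F} {r r' : E} (hne : r ≠ r') (h : ∀ y, y ∉ ({r, r'} : Set E) → u y = 0)
    (x : E) : (S *ᵥ u) x = S x r * u r + S x r' * u r' := by
  classical
  refine (Finset.sum_subset (Finset.subset_univ {r, r'}) fun y _ hy => ?_).symm.trans ?_
  · simp [h y (by simpa using hy)]
  · rw [Finset.sum_pair hne]

lemma not_dep_two {r r' o e : E} (h : S o r * S e r' ≠ S e r * S o r') : ¬Dep S {o, e} {r, r'} := by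
  rintro ⟨u, h0, h1, h2⟩
  have hne : r ≠ r' := by
    rintro rfl
    exact h (mul_comm _ _)
  have e1 := h2 o (by simp)
  have e2 := h2 e (by simp)
  rw [mulVec_two hne h1] at e1 e2
  have a1 : u r = 0 := (mul_eq_zero.1 (by linear_combination S e r' * e1 - S o r' * e2 :
    (S o r * S e r' - S e r * S o r') * u r = 0)).resolve_left (sub_ne_zero.2 h)
  have a2 : u r' = 0 := (mul_eq_zero.1 (by linear_combination S o r * e2 - S e r * e1 :
    (S o r * S e r' - S e r * S o r') * u r' = 0)).resolve_left (sub_ne_zero.2 h)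
  refine h0 (funext fun t => ?_)
  by_cases ht : t ∈ ({r, r'} : Set E)
  · rcases ht with rfl | rfl <;> assumption
  · exact h1 t ht

/-- A bipartite block is nonsingular if both halves are. -/
lemma not_dep_block (hb : Bip col S) {A B : Set E} (hA : ∀ y ∈ A, col y = c)
    (hB : ∀ y ∈ B, ¬col y = c) (h1 : ¬Dep S B A) (h2 : ¬Dep S A B) : ¬Dep S (A ∪ B) (A ∪ B) := by
  classical
  rintro ⟨u, h0, g1, g2⟩
  have split : ∀ x, (S *ᵥ u) x = (S *ᵥ A.indicator u) x + (S *ᵥ B.indicator u) x := fun x => by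
    rw [← Pi.add_apply, ← mulVec_add]
    congr 2
    ext t
    by_cases a : t ∈ A
    · have : t ∉ B := fun b => hB t b (hA t a)
      simp [a, this]
    · by_cases b : t ∈ B
      · simp [a, b]
      · simp [a, b, g1 t (by simp [a, b])]
  have zA : ∀ x ∈ A, (S *ᵥ A.indicator u) x = 0 := fun x hx => Finset.sum_eq_zero fun y _ => by
    by_cases hy : y ∈ A
    · simp [hb x y ((hA x hx).trans (hA y hy).symm)]
    · simp [hy]
  have zB : ∀ x ∈ B, (S *ᵥ B.indicator u) x = 0 := fun x hx => Finset.sum_eq_zero fun y _ => by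
    by_cases hy : y ∈ B
    · have : col x = col y := by
        have a := hB x hx
        have b := hB y hy
        revert a b
        cases col x <;> cases col y <;> cases c <;> simp
      simp [hb x y this]
    · simp [hy]
  have eA : A.indicator u = 0 := by_contra fun e => h1 ⟨_, e, fun y hy => by simp [hy], fun x hx => by
    have := split x
    rwa [g2 x (Or.inr hx), zB x hx, add_zero, eq_comm] at this⟩
  have eB : B.indicator u = 0 := by_contra fun e => h2 ⟨_, e, fun y hy => by simp [hy], fun x hx => by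
    have := split x
    rwa [g2 x (Or.inl hx), zA x hx, zero_add, eq_comm] at this⟩
  refine h0 (funext fun t => ?_)
  by_cases a : t ∈ A
  · simpa [a] using congrFun eA t
  · by_cases b : t ∈ B
    · simpa [b] using congrFun eB t
    · exact g1 t (by simp [a, b])

lemma fan_congr {o : E} {R W : Set E} (h : Fan c col S kk C o R) (hS : Skew S) (hT : Skew T)
    (hW : W ⊆ C) (ho : o ∈ W) (hR : R ⊆ W) (h1 : ∀ r ∈ R, ∀ v, T r v = S r v)
    (h2 : ∀ r ∈ R, col' r = col r) : Fan c col' T kk W o R := by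
  have key : ∀ {X Y : Set E}, Y ⊆ R → (Dep T X Y ↔ Dep S X Y) := fun hY =>
    ⟨fun d => d.congr fun x _ y hy => by rw [hS x y, hT x y, h1 y (hY hy)],
      fun d => d.congr fun x _ y hy => by rw [hS x y, hT x y, h1 y (hY hy)]⟩
  refine ⟨ho, hR, fun r hr => (h2 r hr).trans (h.colR r hr), fun r hr => by
    rw [h1 r hr]; exact h.adj r hr, (key le_rfl).2 h.dep, ?_, fun r hr r' hr' e he g => ?_,
    fun r hr r' hr' r'' hr'' e he g => ?_⟩
  · obtain ⟨r0, a, b⟩ := h.base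
    exact ⟨r0, a, fun d => b ((key Set.sdiff_subset).1 d)⟩
  · rw [key (by rintro _ (rfl | rfl) <;> assumption)]
    exact h.ns2 r hr r' hr' e (hW he) (by rwa [h1 r hr] at g)
  · rw [key (by rintro _ (rfl | rfl | rfl) <;> assumption)]
    exact h.ns3 r hr r' hr' r'' hr'' e (hW he) (by rwa [h1 r hr, h1 r hr, h1 r' hr', h1 r' hr'] at g)

end Rank

variable {a b : Dsp F E ι} {i0 : ι} {kk : K → E} {C : Set E} {c : Bool} {m : ℕ}

lemma marked_dep (h : Marked c a i0 kk C) (ha : Fam a.1 a.2) (hk : ∀ k, kk k ∉ C) {Z : Set E}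
    (hZ : Z ⊆ C) (hn : ¬Dep (a.2 i0) Z Z) {r : E} (hr : r ∈ C) (hrZ : r ∉ Z) (hc : a.1 r = c) :
    ¬Dep (a.2 i0) (Set.range kk ∪ Z) (insert r Z) := by
  obtain ⟨A', hA⟩ := ha.exists_piv hn
  intro hd
  refine h (colFlip a.1 Z, A') ⟨Z, hZ, rfl, hA⟩ r hr ((colFlip_of_notMem _ hrZ).trans hc) ?_
  have h1 : Dep (A' i0) (Set.range kk) {r} := by
    rw [(hA i0).dep_iff]
    refine hd.mono ?_ ?_
    · rintro x (hx | hx)
      · exact Or.inl hx.1
      · exact Or.inr hx.1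
    · rintro x (rfl | hx)
      · exact Or.inl ⟨rfl, hrZ⟩
      · refine Or.inr ⟨hx, ?_⟩
        rintro ⟨k, rfl⟩
        exact hk k (hZ hx)
  exact funext fun k => dep_single.1 h1 _ ⟨k, rfl⟩

lemma ns2 (h : Marked c a i0 kk C) (ha : Fam a.1 a.2) (hk : ∀ k, kk k ∉ C) {r r' e : E}
    (hr : r ∈ C) (hr' : r' ∈ C) (he : e ∈ C) (c1 : a.1 r = c) (c2 : a.1 r' = c)
    (h0 : a.2 i0 r e ≠ 0) : ¬Dep (a.2 i0) (insert e (Set.range kk)) {r, r'} := by
  intro hd
  by_cases e1 : r' = r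
  · rw [e1, Set.pair_eq_singleton] at hd
    exact h0 ((ha.zero_comm i0 r e).2 (dep_single.1 hd e (Or.inl rfl)))
  have c3 : r' ≠ e := fun g => ha.col_ne h0 (by rw [c1, ← g, c2])
  refine marked_dep h ha hk (Z := {r, e}) (by rintro _ (rfl | rfl) <;> assumption)
    (ha.isPiv_epiv h0).not_dep hr' (by simp [e1, c3]) c2 ?_
  refine (dep_col (c := c) (ha.bip i0) hd (by rintro _ (rfl | rfl) <;> assumption) ?_).mono le_rfl
    (by rintro _ (rfl | rfl) <;> simp)
  rintro x (hx | rfl | rfl)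
  · exact Or.inl (Or.inr hx)
  · exact Or.inr (Or.inl c1)
  · exact Or.inl (Or.inl rfl)

lemma ns3 (h : Marked c a i0 kk C) (ha : Fam a.1 a.2) (hk : ∀ k, kk k ∉ C) {r r' r'' o e : E}
    (hr : r ∈ C) (hr' : r' ∈ C) (hr'' : r'' ∈ C) (ho : o ∈ C) (he : e ∈ C) (c1 : a.1 r = c)
    (c2 : a.1 r' = c) (c3 : a.1 r'' = c) (a1 : a.2 i0 r o ≠ 0)
    (h0 : a.2 i0 r e * a.2 i0 r' o ≠ a.2 i0 r o * a.2 i0 r' e) :
    ¬Dep (a.2 i0) (insert o (insert e (Set.range kk))) {r, r', r''} := by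
  intro hd
  have hs := ha.skew i0
  have co : ¬a.1 o = c := fun g => ha.col_ne a1 (c1.trans g.symm)
  have ce : ¬a.1 e = c := fun g => h0 (by
    rw [ha.bip i0 r e (c1.trans g.symm), ha.bip i0 r' e (c2.trans g.symm), zero_mul, mul_zero])
  have n1 : ¬Dep (a.2 i0) {o, e} {r, r'} := not_dep_two fun g => h0 (by
    rw [hs o r, hs e r', hs e r, hs o r'] at g
    linear_combination -g)
  have n2 : ¬Dep (a.2 i0) {r, r'} {o, e} := not_dep_two fun g => h0 (by linear_combination -g)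
  by_cases e1 : r'' ∈ ({r, r'} : Set E)
  · refine n1 (hd.mono (by rintro _ (rfl | rfl) <;> simp) ?_)
    rintro _ (rfl | rfl | rfl)
    · simp
    · simp
    · exact e1
  refine marked_dep h ha hk (Z := {r, r'} ∪ {o, e})
    (by rintro _ ((rfl | rfl) | (rfl | rfl)) <;> assumption)
    (not_dep_block (c := c) (ha.bip i0) (by rintro _ (rfl | rfl) <;> assumption)
      (by rintro _ (rfl | rfl) <;> assumption) n1 n2) hr'' ?_ c3 ?_
  · rintro (g | g | g)
    · exact e1 g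
    · exact co (g ▸ c3)
    · exact ce (g ▸ c3)
  refine (dep_col (c := c) (ha.bip i0) hd (by rintro _ (rfl | rfl | rfl) <;> assumption) ?_).mono
    le_rfl (by rintro _ (rfl | rfl | rfl) <;> simp)
  rintro x (hx | (rfl | rfl) | (rfl | rfl))
  · exact Or.inl (Or.inr (Or.inr hx))
  · exact Or.inr (Or.inl c1)
  · exact Or.inr (Or.inl c2)
  · exact Or.inl (Or.inl rfl)
  · exact Or.inl (Or.inr (Or.inl rfl))

lemma rk_side (S : Matrix E E F) (kk : K → E) (p : K → Prop) [DecidablePred p] (Y : Set E) :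
    RkLE S (kk '' {k | p k}) Y (Fintype.card {k // p k}) := by
  refine (rk_image (S := S) (Y := Y) fun k : {k // p k} => kk k.1).mono ?_ le_rfl le_rfl
  rintro _ ⟨k, hk, rfl⟩
  exact ⟨⟨k, hk⟩, rfl⟩

variable [Fintype F]

/-- A row that does not see the core. -/
lemma unmarked (hL : LINK F) (ha : Fam a.1 a.2) (ht : TP m (a.2 i0) kk C) {r : E} (hr : r ∈ C)
    (hc : a.1 r = c) (h0 : yv (a.2 i0) kk r = 0) : ∃ b o U, PivIn C a b ∧
      Fan c b.1 (b.2 i0) kk C o {r} ∧ Wide (b.2 i0) kk C {r} U ∧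
      m + 1 ≤ U.ncard + Fintype.card {k // ¬a.1 (kk k) = c} := by
  obtain ⟨o, ho, -, h1⟩ := ht.exists_nb hr h0
  obtain ⟨b, U, A, g1, g2, g3, g4, g5, g6⟩ := hL E ι K a i0 kk C {r} c ha ht.shut.notK
    (by simpa using hr) (by simpa using hc)
  have hb := g1.fam ha
  have f0 : Fan c a.1 (a.2 i0) kk C o {r} := by
    refine ⟨ho, by simpa using hr, by simpa using hc, by simpa using h1,
      dep_single.2 (by rintro _ ⟨k, rfl⟩; exact congrFun h0 k), ⟨r, rfl, fun d => ?_⟩, ?_, ?_⟩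
    · simpa using d.nonempty
    · rintro _ rfl _ rfl e he g d
      rw [Set.pair_eq_singleton] at d
      exact g ((ha.zero_comm i0 _ e).2 (dep_single.1 d e (Or.inl rfl)))
    · rintro _ rfl _ rfl _ rfl e he g
      exact absurd (mul_comm _ _) g
  have f1 : Fan c b.1 (b.2 i0) kk C o {r} := fan_congr f0 (ha.skew i0) (hb.skew i0) le_rfl ho f0.RC
    (fun r hr v => g1.far_row ha hr i0 v) fun r hr => g1.far_col hr
  refine ⟨b, o, U, g1.mono (far_sub _ _ _), f1, g2, ?_⟩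
  by_contra hlt
  refine (g1.tp ha (far_sub _ _ _) ht).fc (hb.skew i0) g4 ?_
    ((rk_union g6 (rk_side (b.2 i0) kk (fun k => ¬a.1 (kk k) = c) A)).mono ?_ le_rfl (by omega))
  · refine (dep_col (c := c) (hb.bip i0) f1.dep f1.colR ?_).mono le_rfl g3
    rintro x (hx | hx)
    · refine Or.inr (Or.inr ?_)
      rintro _ rfl
      rw [hb.zero_comm, g1.far_row ha rfl]
      exact by_contra fun e => hx.2 (g5 _ rfl x hx.1 e)
    · exact Or.inl hx
  · rintro x (hx | ⟨k, rfl⟩)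
    · exact Or.inl (Or.inl hx)
    · by_cases e : a.1 (kk k) = c
      · exact Or.inl (Or.inr ⟨k, e, rfl⟩)
      · exact Or.inr ⟨k, e, rfl⟩

/-- All rows see the core in every display. -/
lemma marked (hL : LINK F) (ha : Fam a.1 a.2) (ht : TP m (a.2 i0) kk C) (hM : Marked c a i0 kk C)
    {o : E} (ho : o ∈ C) (hc : ¬a.1 o = c)
    (hd : Fintype.card {k // ¬a.1 (kk k) = c} < {r | r ∈ C ∧ a.2 i0 o r ≠ 0}.ncard) :
    ∃ b R U, PivIn C a b ∧ Fan c b.1 (b.2 i0) kk C o R ∧ Wide (b.2 i0) kk C R U ∧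
      m + 2 ≤ U.ncard + R.ncard := by
  have hk := ht.shut.notK
  have two : ∀ x y : Bool, ¬x = c → x ≠ y → y = c := by cases c <;> decide
  have two' : ∀ x : Bool, x = !c ↔ ¬x = c := by cases c <;> decide
  obtain ⟨b1, U1, B, g1, g2, g3, g4, g5, g6⟩ := hL E ι K a i0 kk C {o} (!c) ha hk
    (by simpa using ho) (by simpa [two'] using hc)
  have hb1 := g1.fam ha
  have p1 := g1.mono (far_sub _ _ _)
  have ro : ∀ v, b1.2 i0 o v = a.2 i0 o v := g1.far_row ha rfl i0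
  have co : ¬b1.1 o = c := by rwa [g1.far_col rfl]
  have ck : ∀ k, b1.1 (kk k) = a.1 (kk k) := fun k => p1.col (hk k)
  have nb : ∀ r, b1.2 i0 o r ≠ 0 → b1.1 r = c := fun r h => two _ _ co (hb1.col_ne h)
  have hU : ∀ r ∈ U1, b1.2 i0 o r ≠ 0 := fun r hr => by simpa using g2.adj r hr
  have side : ∀ {Y : Set E}, (∀ y ∈ Y, b1.1 y = c) → ∀ {X : Set E},
      kk '' {k | ¬a.1 (kk k) = c} ⊆ X → Dep (b1.2 i0) X Y → Dep (b1.2 i0) (Set.range kk) Y := by
    intro Y hY X hX d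
    refine dep_col (hb1.bip i0) d hY ?_
    rintro _ ⟨k, rfl⟩
    by_cases e : a.1 (kk k) = c
    · exact Or.inr (Or.inl ((ck k).trans e))
    · exact Or.inl (hX ⟨k, e, rfl⟩)
  have hcard : U1.ncard ≤ Fintype.card {k // ¬a.1 (kk k) = c} := by
    by_contra hlt
    obtain ⟨Y, y1, y2⟩ := Set.exists_subset_card_eq (s := U1) (not_le.1 hlt)
    exact g2.ind ((side (fun y hy => nb y (hU y (y1 hy))) le_rfl
      (dep_of_rk (rk_side (b1.2 i0) kk (fun k => ¬a.1 (kk k) = c) U1) y1 y2)).mono le_rfl y1)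
  obtain ⟨r0, ⟨r1, r2⟩, r3⟩ := Set.exists_mem_notMem_of_ncard_lt_ncard (hcard.trans_lt hd)
  have hR : ∀ r ∈ insert r0 U1, r ∈ C ∧ b1.2 i0 o r ≠ 0 := by
    rintro r (rfl | hr)
    · exact ⟨r1, by rwa [ro]⟩
    · exact ⟨g2.UC hr, hU r hr⟩
  have cR : ∀ r ∈ insert r0 U1, b1.1 r = c := fun r hr => nb r (hR r hr).2
  have RB : insert r0 U1 ⊆ B := fun r hr => g5 o rfl r (hR r hr).1 (by rw [← ro]; exact (hR r hr).2)
  have nR : (insert r0 U1).ncard = U1.ncard + 1 := Set.ncard_insert_of_notMem r3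
  simp only [two'] at g6
  have d1 := dep_of_rk g6 RB nR
  have aR : ∀ r ∈ insert r0 U1, b1.2 i0 r o ≠ 0 := fun r hr e =>
    (hR r hr).2 ((hb1.zero_comm i0 r o).1 e)
  have M1 : Marked c b1 i0 kk C := fun b hb => hM b (p1.trans hb)
  have f0 : Fan c b1.1 (b1.2 i0) kk C o (insert r0 U1) :=
    ⟨ho, fun r hr => (hR r hr).1, cR, aR, side cR Set.subset_union_right d1,
      ⟨r0, Or.inl rfl, fun d => g2.ind (d.mono le_rfl fun x hx => hx.1.resolve_left hx.2)⟩,
      fun r hr r' hr' e he => ns2 M1 hb1 hk (hR r hr).1 (hR r' hr').1 he (cR r hr) (cR r' hr'),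
      fun r hr r' hr' r'' hr'' e he => ns3 M1 hb1 hk (hR r hr).1 (hR r' hr').1 (hR r'' hr'').1 ho he
        (cR r hr) (cR r' hr') (cR r'' hr'') (aR r hr)⟩
  obtain ⟨b, U, A, k1, k2, k3, k4, k5, k6⟩ := hL E ι K b1 i0 kk C (insert r0 U1) c hb1 hk f0.RC cR
  have hb := k1.fam hb1
  have p2 := k1.mono (far_sub _ _ _)
  have f1 : Fan c b.1 (b.2 i0) kk C o (insert r0 U1) := fan_congr f0 (hb1.skew i0) (hb.skew i0)
    le_rfl ho f0.RC (fun r hr v => k1.far_row hb1 hr i0 v) fun r hr => k1.far_col hr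
  refine ⟨b, _, U, p1.trans p2, f1, k2, ?_⟩
  by_contra hlt
  have g7 : RkLE (b.2 i0) ((C \ B) ∪ kk '' {k | ¬a.1 (kk k) = c}) B U1.ncard := by
    obtain ⟨Z, z1, -, z3⟩ := p2
    refine rk_piv (z3 i0) z1 g4 (Set.disjoint_left.2 ?_) g6
    rintro _ ⟨k, -, rfl⟩
    exact hk k
  have d2 : Dep (b.2 i0) ((C \ B) ∪ kk '' {k | ¬a.1 (kk k) = c}) (insert r0 U1) :=
    d1.congr fun x _ y hy => by rw [hb.skew i0 x y, hb1.skew i0 x y, k1.far_row hb1 hy]
  refine ((p1.trans p2).tp ha le_rfl ht).fc (hb.skew i0) (X := A ∩ B)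
    (Set.inter_subset_left.trans k4) ?_ ((rk_union (k6.mono le_rfl Set.inter_subset_left le_rfl)
      (g7.mono le_rfl Set.inter_subset_right le_rfl)).mono ?_ le_rfl (by omega))
  · refine (dep_col (c := c) (hb.bip i0) d2 f1.colR ?_).mono le_rfl (Set.subset_inter k3 RB)
    rintro x (hx | ⟨k, rfl⟩)
    · by_cases e : x ∈ B
      · refine Or.inr (Or.inr fun y hy => ?_)
        rw [hb.zero_comm, k1.far_row hb1 hy]
        exact by_contra fun g => hx.2 ⟨k5 y hy x hx.1 g, e⟩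
      · exact Or.inl (Or.inl ⟨hx.1, e⟩)
    · by_cases e : a.1 (kk k) = c
      · exact Or.inr (Or.inl (((p1.trans p2).col (hk k)).trans e))
      · exact Or.inl (Or.inr ⟨k, e, rfl⟩)
  · rintro x (hx | ⟨k, rfl⟩)
    · by_cases e : x ∈ A
      · exact Or.inr (Or.inl ⟨hx.1, fun g => hx.2 ⟨e, g⟩⟩)
      · exact Or.inl (Or.inl ⟨hx.1, e⟩)
    · by_cases e : a.1 (kk k) = c
      · exact Or.inl (Or.inr ⟨k, (ck k).trans e, rfl⟩)
      · exact Or.inr (Or.inr ⟨k, e, rfl⟩)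

/-- Cutting a true petal down to bounded size. -/
lemma cut (hC : CONNECT F) (ha : Fam a.1 a.2) (ht : TP m (a.2 i0) kk C) {o : E} {R U : Set E}
    (hf : Fan c a.1 (a.2 i0) kk C o R) (hw : Wide (a.2 i0) kk C R U)
    (hn : m + 2 ≤ U.ncard + R.ncard ∨
      (R.ncard = 1 ∧ m + 1 ≤ U.ncard + Fintype.card {k // ¬a.1 (kk k) = c})) :
    ∃ b W, PivIn C a b ∧ W ⊆ C ∧ W.ncard ≤ 4 * (3 * Fintype.card K + 2) ∧
      Aux m c b.1 (b.2 i0) kk W := by
  obtain ⟨G, hG⟩ := exists_cols (fun w : C => yv (a.2 i0) kk w.1)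
    fun x hx => ht.full x fun w hw => hx ⟨w, hw⟩
  set W0 : Set E := insert o (R ∪ U ∪ Set.range fun k => (G k).1) with hW0
  have sR : R ⊆ W0 := fun x hx => Or.inr (Or.inl (Or.inl hx))
  have sU : U ⊆ W0 := fun x hx => Or.inr (Or.inl (Or.inr hx))
  have sG : ∀ k, (G k).1 ∈ W0 := fun k => Or.inr (Or.inr ⟨k, rfl⟩)
  obtain ⟨b, W, g1, g2, g3, g4, g5⟩ := hC E ι a i0 C W0 ha ht.con (by
    rintro x (rfl | (hx | hx) | ⟨k, rfl⟩)
    · exact hf.oC
    · exact hf.RC hx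
    · exact hw.UC hx
    · exact (G k).2)
  have hb := g1.fam ha
  have p1 := g1.mono (far_sub _ _ _)
  have colm : ∀ w ∈ W0, ∀ x, b.2 i0 x w = a.2 i0 x w := fun w hw x => by
    rw [hb.skew i0 x w, ha.skew i0 x w, g1.far_row ha hw]
  refine ⟨b, W, p1, g3, g4.trans (Nat.mul_le_mul_left _ ?_), g5, fun x hx => ?_, o, R, U,
    fan_congr hf (ha.skew i0) (hb.skew i0) g3 (g2 (Or.inl rfl)) (sR.trans g2)
      (fun r hr v => g1.far_row ha (sR hr) i0 v) fun r hr => g1.far_col (sR hr),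
    ⟨sU.trans g2, fun e he => ?_, fun d => hw.ind (d.congr fun x _ y hy => (colm y (sU hy) x).symm)⟩,
    ?_⟩
  · have a1 : U.ncard ≤ Fintype.card K := not_lt.1 fun e => hw.ind (dep_of_card e)
    obtain ⟨r0, r1, r2⟩ := hf.base
    have a2 : (R \ {r0}).ncard ≤ Fintype.card K := not_lt.1 fun e => r2 (dep_of_card e)
    have a3 := Set.ncard_sdiff_singleton_add_one r1
    have a4 : (Set.range fun k => (G k).1).ncard ≤ Fintype.card K := by
      rw [← Set.image_univ]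
      exact (Set.ncard_image_le (Set.toFinite _)).trans (by simp)
    have a5 := Set.ncard_insert_le o (R ∪ U ∪ Set.range fun k => (G k).1)
    have a6 := Set.ncard_union_le (R ∪ U) (Set.range fun k => (G k).1)
    have a7 := Set.ncard_union_le R U
    rw [hW0]
    omega
  · have li : LinearIndependent F fun k => yv (a.2 i0) kk (G k).1 :=
      Fintype.linearIndependent_iff.2 fun u hu k => congrFun (hG u hu) k
    have sp := li.span_eq_top_of_card_eq_finrank' (by simp)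
    have z : ∀ v ∈ Submodule.span F (Set.range fun k => yv (a.2 i0) kk (G k).1), x ⬝ᵥ v = 0 := by
      intro v hv
      induction hv using Submodule.span_induction with
      | mem v hv =>
        obtain ⟨k, rfl⟩ := hv
        rw [← hx _ (g2 (sG k))]
        congr 1
        exact funext fun r => (colm _ (sG k) _).symm
      | zero => simp
      | add _ _ _ _ h1 h2 => rw [dotProduct_add, h1, h2, add_zero]
      | smul _ _ _ h1 => rw [dotProduct_smul, h1, smul_zero]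
    classical
    ext r
    simpa using z (Pi.single r 1) (sp ▸ Submodule.mem_top)
  · obtain ⟨r, r1, r2⟩ := hw.adj e he
    exact ⟨r, r1, by rwa [g1.far_row ha (sR r1)]⟩
  · simpa only [p1.col (ht.shut.notK _)] using hn

lemma petal (hL : LINK F) (hC : CONNECT F) (ha : Fam a.1 a.2) (ht : TP m (a.2 i0) kk C) {o : E}
    (ho : o ∈ C) (hc : ¬a.1 o = c)
    (hd : Fintype.card {k // ¬a.1 (kk k) = c} < {r | r ∈ C ∧ a.2 i0 o r ≠ 0}.ncard) :
    ∃ b W, PivIn C a b ∧ W ⊆ C ∧ W.ncard ≤ 4 * (3 * Fintype.card K + 2) ∧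
      Aux m c b.1 (b.2 i0) kk W := by
  by_cases hM : Marked c a i0 kk C
  · obtain ⟨b, R, U, g1, g2, g3, g4⟩ := marked hL ha ht hM ho hc hd
    obtain ⟨b', W, k1, k2⟩ := cut hC (g1.fam ha) (g1.tp ha le_rfl ht) g2 g3 (Or.inl g4)
    exact ⟨b', W, g1.trans k1, k2⟩
  · unfold Marked at hM
    push Not at hM
    obtain ⟨b0, p0, r, r1, r2, r3⟩ := hM
    obtain ⟨b, o', U, g1, g2, g3, g4⟩ := unmarked hL (p0.fam ha) (p0.tp ha le_rfl ht) r1 r2 r3
    obtain ⟨b', W, k1, k2⟩ := cut hC ((p0.trans g1).fam ha) ((p0.trans g1).tp ha le_rfl ht) g2 g3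
      (Or.inr ⟨Set.ncard_singleton r, by simpa only [g1.col (ht.shut.notK _)] using g4⟩)
    exact ⟨b', W, (p0.trans g1).trans k1, k2⟩

end EXT

open EXT in
theorem ext [Fintype F] (hL : LINK F) (hC : CONNECT F) (m : ℕ) : EXT F m := by
  classical
  intro E ι K _ _ a i0 kk Ω C1 C2 c e1 e2 ha hc hi hb hs s1 s2 c1 c2 f1 f2 m1 m2 hne hy k1 k2 hm
  have one : ∀ (C0 : Set E) (e : E), C0 ⊆ Ω → ConnOn (a.2 i0) C0 → Full (a.2 i0) kk C0 → e ∈ C0 →
      ¬a.1 e = c → Fintype.card {k // ¬a.1 (kk k) = c} < {r | r ∈ Ω ∧ a.2 i0 e r ≠ 0}.ncard →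
      ∃ b W, PivIn Ω a b ∧ W ⊆ Ω ∧ W.ncard ≤ 4 * (3 * Fintype.card K + 2) ∧
        Aux m c b.1 (b.2 i0) kk W := by
    intro C0 e g1 g2 g3 g4 g5 g6
    obtain ⟨C, h1, h2, h3, h4, h5⟩ := hs.comp (ha.skew i0) g1 g2 ⟨e, g4⟩
    obtain ⟨b, W, j1, j2, j3⟩ := petal hL hC ha ⟨hc, hi, hb, h4, g3.mono h1, h3⟩ (h1 g4) g5
      (g6.trans_le (Set.ncard_le_ncard (fun r hr => ⟨h5 e (h1 g4) r hr.1 hr.2, hr.2⟩)))
    exact ⟨b, W, j1.mono h2, j2.trans h2, j3⟩
  set N1 := {r | r ∈ Ω ∧ a.2 i0 e1 r ≠ 0} with hN1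
  set N2 := {r | r ∈ Ω ∧ a.2 i0 e2 r ≠ 0} with hN2
  have key := hs.fc_card (ha.skew i0) hc hi hb (X := insert e1 (insert e2 (N1 ∪ N2))) (by
    rintro x (rfl | rfl | hx | hx)
    · exact s1 m1
    · exact s2 m2
    · exact hx.1
    · exact hx.1) ⟨Pi.single e1 1 - Pi.single e2 1, fun e => by simpa [hne] using congrFun e e1,
      fun y hy => by
        have a1 : y ≠ e1 := fun e => hy (Or.inl e)
        have a2 : y ≠ e2 := fun e => hy (Or.inr (Or.inl e))
        simp [a1, a2], by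
      rintro x (hx | ⟨k, rfl⟩)
      · have a1 : a.2 i0 e1 x = 0 := by_contra fun e => hx.2 (Or.inr (Or.inr (Or.inl ⟨hx.1, e⟩)))
        have a2 : a.2 i0 e2 x = 0 := by_contra fun e => hx.2 (Or.inr (Or.inr (Or.inr ⟨hx.1, e⟩)))
        simp [mulVec_sub, (ha.zero_comm i0 e1 x).1 a1, (ha.zero_comm i0 e2 x).1 a2]
      · have := congrFun hy k
        simp only [yv] at this
        simp [mulVec_sub, this]⟩
  have a1 := Set.ncard_insert_le e1 (insert e2 (N1 ∪ N2))
  have a2 := Set.ncard_insert_le e2 (N1 ∪ N2)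
  have a3 := Set.ncard_union_le N1 N2
  by_cases h : Fintype.card {k // ¬a.1 (kk k) = c} < N1.ncard
  · exact one C1 e1 s1 c1 f1 m1 k1 h
  · exact one C2 e2 s2 c2 f2 m2 k2 (by rw [← hN2]; omega)

end Pool.Agent.MP_d99b12_co.H25
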