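import Pool.Agent.MP_d99b12_co.H25.Spec4
import Pool.Agent.MP_d99b12_co.H25.AUXL

/-! # One pivot makes the block between different petals vanish -/

namespace Pool.Agent.MP_d99b12_co.H25

open Matrix Sum

namespace FLAT

variable {F : Type} [Field F] {E K P : Type} [Fintype K]

open Classical in
/-- A column after a pivot inside the core. -/
lemma col [Fintype E] {S S' : Matrix E E F} {g : K → E} (hg : Function.Injective g) {Z : Set K}
    (h : IsPiv S S' (g '' Z)) {v : E} (hv : v ∉ g '' Z) {t : K → F} (h0 : ∀ z, z ∉ Z → t z = 0)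
    (h1 : ∀ z ∈ Z, S (g z) v + ∑ k, S (g z) (g k) * t k = 0) :
    (∀ z ∈ Z, S' (g z) v = t z) ∧ ∀ w, w ∉ g '' Z → S' w v = S w v + ∑ k, S w (g k) * t k := by
  set u : E → F := Pi.single v 1 + Function.extend g t 0 with hu
  have hS : ∀ w, (S *ᵥ u) w = S w v + ∑ k, S w (g k) * t k := fun w => by
    rw [mulVec_add, Pi.add_apply, mulVec_single_one]
    exact congrArg _ (Fintype.sum_of_injective g hg _ (fun e => S w e * Function.extend g t 0 e)
      (fun e he => by rw [Function.extend_apply' _ _ _ he, Pi.zero_apply, mul_zero])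
      fun k => by rw [hg.extend_apply]).symm
  have hne : ∀ z ∈ Z, g z ≠ v := fun z hz e => hv ⟨z, hz, e⟩
  have e1 : (g '' Z).piecewise (S *ᵥ u) u = Pi.single v 1 := by
    ext w
    by_cases hw : w ∈ g '' Z
    · rw [Set.piecewise_eq_of_mem _ _ _ hw]
      obtain ⟨z, hz, rfl⟩ := hw
      rw [hS, h1 z hz, Pi.single_eq_of_ne (hne z hz)]
    · rw [Set.piecewise_eq_of_notMem _ _ _ hw, hu, Pi.add_apply, add_eq_left]
      by_cases k : ∃ z, g z = w
      · obtain ⟨z, rfl⟩ := k
        rw [hg.extend_apply, h0 z fun k => hw ⟨z, k, rfl⟩]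
      · exact Function.extend_apply' _ _ _ k
  have e := (h u _).1 rfl
  rw [e1, mulVec_single_one] at e
  refine ⟨fun z hz => ?_, fun w hw => ?_⟩
  · have := congrFun e (g z)
    rw [Set.piecewise_eq_of_mem _ _ _ (Set.mem_image_of_mem g hz), hu, Pi.add_apply, hg.extend_apply,
      Pi.single_eq_of_ne (hne z hz), zero_add] at this
    exact this.symm
  · have := congrFun e w
    rw [Set.piecewise_eq_of_notMem _ _ _ hw, hS] at this
    exact this.symm

lemma exists_t [Fintype P] {d : Datum F K P} (ha : d.Alg) (hr : d.Ref) (hR : d.Red)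
    (ht : d.Tau0) : ∃ Z : Set (K ⊕ P), ¬Dep (d.pair false) Z Z ∧ ∀ q, ∃ t : K ⊕ P → F,
      (∀ z, z ∉ Z → t z = 0) ∧
      (∀ z ∈ Z, fromRows d.V d.U z q + ∑ k, d.pair false z k * t k = 0) ∧
      ∀ p, ∑ k, -fromRows d.V d.U k p * t k = d.U q p := by
  classical
  obtain ⟨T, hT, -, hsp, hli⟩ := exists_linearIndepOn_extension (linearIndepOn_empty F d.y)
    (Set.empty_subset {q | d.colP q = false})
  have hτ : ∀ q, d.colP q = false → ∃ τ : P → F, (∀ g, g ∉ T → τ g = 0) ∧
      ∀ x : K → F, x ⬝ᵥ d.y q = ∑ g, x ⬝ᵥ d.y g * τ g := fun q hq => by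
    obtain ⟨l, h1, h2⟩ := (Finsupp.mem_span_image_iff_linearCombination F).1 (hsp ⟨q, hq, rfl⟩)
    refine ⟨l, (Finsupp.mem_supported' F l).1 h1, fun x => ?_⟩
    rw [← h2, Finsupp.linearCombination_apply, Finsupp.sum_fintype _ _ (by simp), dotProduct_sum]
    exact Finset.sum_congr rfl fun g _ => by rw [dotProduct_smul, smul_eq_mul, mul_comm]
  have hz : ∀ (x : K → F) (c : Bool) (q : P), (∀ k, d.colK k ≠ c → x k = 0) → d.colP q = c →
      x ⬝ᵥ d.y q = 0 := fun x c q hx hq => Finset.sum_eq_zero fun k _ => by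
    by_cases hk : d.colK k = c
    · exact mul_eq_zero_of_right _ (ha.y_col (hq.trans hk.symm))
    · exact mul_eq_zero_of_left (hx k hk) _
  have hA : ∀ u : P → F, (∀ g, g ∉ T → u g = 0) → ∀ g ∈ T, ∑ g', d.A g g' * u g' = 0 :=
    fun u hu g hg => Finset.sum_eq_zero fun g' _ => by
      by_cases k : g' ∈ T
      · exact mul_eq_zero_of_left (ha.A_col ((hT hg).trans (hT k).symm)).1 _
      · exact mul_eq_zero_of_right _ (hu g' k)
  have e1 : ∀ (u : K ⊕ P → F) (k : K), ∑ z, d.pair false (inl k) z * u z =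
      ∑ k', d.D k k' * u (inl k') + ∑ g, d.V k g * u (inr g) := fun u k => Fintype.sum_sum_type _
  have e2 : ∀ (u : K ⊕ P → F) (p : P), ∑ z, d.pair false (inr p) z * u z =
      -((u ∘ inl) ⬝ᵥ d.y p) + ∑ g, d.A p g * u (inr g) := fun u p => by
    rw [Fintype.sum_sum_type, dotProduct, ← Finset.sum_neg_distrib]
    exact congrArg (· + _) (Finset.sum_congr rfl fun k _ => (neg_mul _ _).trans
      (congrArg _ (mul_comm _ _)))
  refine ⟨{z | Sum.elim (d.colK · = true) (· ∈ T) z}, ?_, fun q => ?_⟩
  · rintro ⟨u, h0, h1, h2⟩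
    have hg : ∀ g ∈ T, (u ∘ inl) ⬝ᵥ d.y g = 0 := fun g hg => by
      have := (e2 u g).symm.trans (h2 (inr g) hg)
      rwa [hA _ (fun g => h1 (inr g)) g hg, add_zero, neg_eq_zero] at this
    have hx : u ∘ inl = 0 := hR _ fun q => by
      cases hq : d.colP q
      · obtain ⟨τ, h3, h4⟩ := hτ q hq
        rw [h4]
        refine Finset.sum_eq_zero fun g _ => ?_
        by_cases k : g ∈ T
        · rw [hg g k, zero_mul]
        · rw [h3 g k, mul_zero]
      · exact hz _ true q (fun k => h1 (inl k)) hq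
    have hy := linearIndepOn_iff.1 hli (Finsupp.equivFunOnFinite.symm (u ∘ inr))
      ((Finsupp.mem_supported' F _).2 fun g => h1 (inr g)) (funext fun k => by
        rw [Finsupp.linearCombination_apply, Finsupp.sum_fintype _ _ (by simp), Finset.sum_apply]
        cases hk : d.colK k
        · refine Finset.sum_eq_zero fun g _ => ?_
          by_cases k' : g ∈ T
          · exact mul_eq_zero_of_right _ (ha.y_col ((hT k').trans hk.symm))
          · exact mul_eq_zero_of_left (h1 (inr g) k') _
        · have := (e1 u k).symm.trans (h2 (inl k) hk)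
          rw [Finset.sum_eq_zero fun k' _ => mul_eq_zero_of_right _
            (show u (inl k') = 0 from congrFun hx k'), zero_add] at this
          exact (Finset.sum_congr rfl fun g _ => mul_comm _ _).trans this)
    refine h0 (funext ?_)
    rintro (k | g)
    · exact congrFun hx k
    · exact DFunLike.congr_fun hy g
  · cases hq : d.colP q
    · obtain ⟨τ, h3, h4⟩ := hτ q hq
      refine ⟨Sum.elim 0 (-τ), ?_, ?_, fun p => ?_⟩
      · rintro (k | g) hz
        · rfl
        · exact neg_eq_zero.2 (h3 g hz)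
      · rintro (k | g) hz
        · have := h4 (Pi.single k 1)
          simp only [single_dotProduct, one_mul, Datum.y] at this
          simp [e1, this]
        · rw [e2, hA (fun g => Sum.elim 0 (-τ) (inr g)) (fun g hg => neg_eq_zero.2 (h3 g hg)) g hz]
          simpa using ha.U_col ((hT hz).trans hq.symm)
      · obtain ⟨x, hx⟩ := hr.2 p
        simp [Fintype.sum_sum_type, hx, h4 x]
    · obtain ⟨x, hx⟩ := hr.2 q
      let x' : K → F := fun k => if d.colK k = true then x k else 0
      have h3 : ∀ k, d.colK k ≠ true → x' k = 0 := fun k hk => if_neg hk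
      have h4 : ∀ g, d.U g q = x' ⬝ᵥ d.y g := fun g => by
        cases hg : d.colP g
        · rw [hx, ← sub_eq_zero, ← sub_dotProduct]
          exact hz _ false g (fun k hk => sub_eq_zero.2 (if_pos (by simpa using hk)).symm) hg
        · rw [hz _ true g h3 hg, ha.U_col (hg.trans hq.symm)]
      refine ⟨Sum.elim x' 0, ?_, ?_, fun p => ?_⟩
      · rintro (k | g) hz
        · exact h3 k hz
        · rfl
      · rintro (k | g) hz
        · have : ∑ k', d.D k k' * x' k' = 0 := Finset.sum_eq_zero fun k' _ => by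
            by_cases hk : d.colK k' = true
            · exact mul_eq_zero_of_left
                (ha.fam_pair.bip false (inl k) (inl k') (Eq.trans hz hk.symm)) _
            · exact mul_eq_zero_of_right _ (h3 k' hk)
          simpa [e1, this] using ha.y_col (hq.trans (Eq.symm hz))
        · simp [e2, h4]
      · rw [ht q p, h4]
        simp [Fintype.sum_sum_type, dotProduct, Datum.y, mul_comm]

end FLAT

variable {F : Type} [Field F]

theorem flat' (m : ℕ) (K P : Type) [Fintype K] [Fintype P] (d : Datum F K P) (hd : Real m d)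
    (hr : d.Ref) (hR : d.Red) (hC : NConn d.B) (ht : d.Tau0) (hV : d.Vis) :
    ∃ (K' : Type) (_ : Fintype K') (d' : Datum F K' P),
      Real m d' ∧ d'.U = 0 ∧ d'.Red ∧ NConn d'.B ∧ d'.Vis ∧ Fintype.card K ≤ Fintype.card K' := by
  classical
  obtain ⟨Z, hZ, hT⟩ := FLAT.exists_t hd.alg hr hR ht
  choose t h0 h1 h2 using hT
  obtain ⟨D', hD⟩ := exists_isPiv hZ
  let d1 : Datum F (K ⊕ P) P := ⟨colFlip (Sum.elim d.colK d.colP) Z, d.colP, D',
    of fun z q => if z ∈ Z then t q z else
      fromRows d.V d.U z q + ∑ k, d.pair false z k * t q k, d.B, 0, d.Bs⟩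
  have hreal : Real m d1 := fun n => by
    obtain ⟨E, _, col, S, kk, pp, hF, hc, hch⟩ := hd (n + 1)
    have hg := hch.elim_inj 0
    set g := Sum.elim kk (pp 0) with hgd
    have hM : ∀ i : Fin (n + 1), d.pair false = (S i.succ).submatrix g g := fun i =>
      hch.pair_false (Nat.succ_pos _)
    have hF1 := hF.reindex Fin.succ
    obtain ⟨S', hS⟩ := hF1.exists_piv (i0 := 0) (Z := g '' Z) fun h =>
      hZ (by rw [hM 0]; exact (Auxl.dep_sub hg Z Z).2 h)
    have hne : ∀ (j : Fin n) p z, g z ≠ pp j.succ p := by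
      rintro j p (k | q) e
      · exact hch.kk_ne_pp _ _ _ e
      · exact Fin.succ_ne_zero j (hch.pp_inj e).1.symm
    have hout : ∀ (j : Fin n) p, pp j.succ p ∉ g '' Z := fun j p ⟨z, _, e⟩ => hne j p z e
    have hrow : ∀ i z (j : Fin n) q, S i (g z) (pp j.succ q) = fromRows d.V d.U z q := by
      rintro i (k | p) j q
      · exact hch.kk_pp _ _ _ _
      · exact hch.pp_lt _ (Fin.succ_pos j) _ _
    have hMe : ∀ (i : Fin (n + 1)) z k, S i.succ (g z) (g k) = d.pair false z k := fun i z k => by
      rw [hM i]; rfl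
    have key := fun i (j : Fin n) q => FLAT.col hg (hS i) (hout j q) (h0 q) fun z hz => by
      simp only [hMe, hrow]
      exact h1 q z hz
    have hpp : ∀ i (j j' : Fin n) p q, S' i (pp j.succ p) (pp j'.succ q) =
        S i.succ (pp j.succ p) (pp j'.succ q) + d.U q p := fun i j j' p q => by
      rw [(key i j' q).2 _ (hout j p), ← h2 q p]
      simp only [hF.skew _ (pp j.succ p) (g _), hrow]
    refine ⟨E, _, colFlip col (g '' Z), S', g, fun j => pp j.succ, hF1.piv hS,
      fun i => (hS i).conn (hc _), IsChain.of_entries ?_ (fun z => ?_) (fun j p => ?_)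
      (hF1.piv hS).skew (fun i z k => ?_) (fun i z j q => ?_) (fun i j j' hj p q => ?_)
      (fun i j hj p q => ?_) fun j p q => ?_⟩
    · rintro (z | ⟨j, p⟩) (z' | ⟨j', q⟩) e
      · rw [hg e]
      · exact absurd e (hne _ _ _)
      · exact absurd e.symm (hne _ _ _)
      · obtain ⟨e1, e2⟩ : j.succ = j'.succ ∧ p = q := hch.pp_inj e
        rw [Fin.succ_injective _ e1, e2]
    · have : col (g z) = Sum.elim d.colK d.colP z := by
        rcases z with k | p
        · exact hch.colK k
        · exact hch.colP 0 p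
      change _ = colFlip _ Z z
      by_cases hz : z ∈ Z
      · rw [colFlip_of_mem _ hz, colFlip_of_mem _ (Set.mem_image_of_mem g hz), this]
      · rw [colFlip_of_notMem _ hz, colFlip_of_notMem _ (mt hg.mem_set_image.1 hz), this]
    · rw [colFlip_of_notMem _ (hout j p)]
      exact hch.colP _ p
    · have := (hS i).submatrix hg (Set.image_subset_range _ _)
      rw [← hM, Set.preimage_image_eq _ hg] at this
      exact congrFun (congrFun (this.unique hD) z) k
    · change _ = ite _ _ _
      split_ifs with hz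
      · exact (key i j q).1 z hz
      · rw [(key i j q).2 _ (mt hg.mem_set_image.1 hz)]
        simp only [hMe, hrow]
    · rw [hpp, hch.pp_lt _ (Fin.succ_lt_succ_iff.2 hj), ht p q]
      exact neg_add_cancel _
    · rw [hpp, hch.pp_left (Nat.succ_lt_succ hj)]
      rfl
    · rw [hpp, Fin.succ_castSucc, hch.pp_own]
      rfl
  have hl : ∀ k, ∃ l : K ⊕ P → F, ∀ q, d.V k q = l ⬝ᵥ d1.y q := fun k => by
    refine ⟨(if inl k ∈ Z then 0 else Pi.single (inl k) 1) -
      fun z => if z ∈ Z then d.pair false (inl k) z else 0, fun q => ?_⟩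
    have e : (fun z => if z ∈ Z then d.pair false (inl k) z else 0) ⬝ᵥ d1.y q =
        ∑ z, d.pair false (inl k) z * t q z := Finset.sum_congr rfl fun z _ => by
      change ite _ _ _ * ite _ _ _ = _
      split_ifs with hz
      · rfl
      · rw [h0 q z hz, zero_mul, mul_zero]
    rw [sub_dotProduct, e]
    split_ifs with hz
    · rw [zero_dotProduct, zero_sub]
      exact eq_neg_of_add_eq_zero_left (h1 q _ hz)
    · rw [single_dotProduct, one_mul]
      change _ = ite _ _ _ - _
      rw [if_neg hz, add_sub_cancel_right]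
      rfl
  choose l hl using hl
  obtain ⟨R, -, r1, r2, r3⟩ := Datum.Ref.exists_red (d := d1)
    ⟨fun _ => ⟨0, fun _ => (zero_dotProduct _).symm⟩, fun _ => ⟨0, fun _ => (zero_dotProduct _).symm⟩⟩
  obtain ⟨a, b, hab⟩ := hV
  obtain ⟨v1, v2, v3, -⟩ := hd.alg.vis hr hab
  have hy : ∀ p, d.y p ≠ 0 → d1.y p ≠ 0 := fun p hp e => hp (funext fun k => by
    rw [Datum.y, hl, e, dotProduct_zero, Pi.zero_apply])
  refine ⟨R, inferInstance, d1.resK Subtype.val, hreal.resK Subtype.val_injective, rfl, r1, ?_,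
    ⟨a, b, r3 _ ?_⟩, ?_⟩
  · change NConn (d.B + 0ᵀ)
    rwa [transpose_zero, add_zero]
  · rintro ⟨c, c1, c2⟩
    have := c2 a (by simp) b (by simp)
    rw [d1.eq_one_of_y (c1 a (by simp)) (hy a v1), d1.eq_one_of_y (c1 b (by simp)) (hy b v2),
      one_mul, one_mul] at this
    exact v3 this
  · rw [Fintype.card_coe, r2, ← hR.rank, show d.V = of l * d1.V from Matrix.ext hl]
    exact rank_mul_le_right _ _

theorem flat (m : ℕ) : FLAT F m := flat' m

end Pool.Agent.MP_d99b12_co.H25
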