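import Pool.Agent.MP_d99b12_co.H25.Spec
import Pool.Agent.MP_d99b12_co.H25.ChainB

/-! # Iterating the growth step -/

namespace Pool.Agent.MP_d99b12_co.H25

open Matrix Sum

variable {F : Type} [Field F]

namespace Grow

variable {E K P ι : Type} [Fintype K]

/-- Everything grown before stage `s`, with pieces indexed by natural numbers. -/
def QN (Q0 : Set E) (e : ℕ → P ⊕ ℕ → E) (len : ℕ → ℕ) (s : ℕ) : Set E :=
  Q0 ∪ {w | ∃ t, t < s ∧ ∃ x ∈ vl P (len t), e t x = w}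

lemma QN_zero (Q0 : Set E) (e : ℕ → P ⊕ ℕ → E) (len : ℕ → ℕ) : QN Q0 e len 0 = Q0 := by
  ext w
  simp [QN]

lemma QN_succ (Q0 : Set E) (e : ℕ → P ⊕ ℕ → E) (len : ℕ → ℕ) (s : ℕ) :
    QN Q0 e len (s + 1) = QN Q0 e len s ∪ e s '' vl P (len s) := by
  ext w
  constructor
  · rintro (h | ⟨t, ht, x, hx, rfl⟩)
    · exact Or.inl (Or.inl h)
    · rcases Nat.lt_succ_iff_lt_or_eq.1 ht with ht | rfl
      · exact Or.inl (Or.inr ⟨t, ht, x, hx, rfl⟩)
      · exact Or.inr ⟨x, hx, rfl⟩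
  · rintro ((h | ⟨t, ht, x, hx, rfl⟩) | ⟨x, hx, rfl⟩)
    · exact Or.inl h
    · exact Or.inr ⟨t, Nat.lt_succ_of_lt ht, x, hx, rfl⟩
    · exact Or.inr ⟨s, Nat.lt_succ_self s, x, hx, rfl⟩

lemma QN_mono (Q0 : Set E) (e : ℕ → P ⊕ ℕ → E) (len : ℕ → ℕ) {s s' : ℕ} (h : s ≤ s') :
    QN Q0 e len s ⊆ QN Q0 e len s' := by
  rintro w (hw | ⟨t, ht, x, hx, rfl⟩)
  · exact Or.inl hw
  · exact Or.inr ⟨t, lt_of_lt_of_le ht h, x, hx, rfl⟩

lemma sub_QN (Q0 : Set E) (e : ℕ → P ⊕ ℕ → E) (len : ℕ → ℕ) (s : ℕ) : Q0 ⊆ QN Q0 e len s :=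
  Set.subset_union_left

lemma mem_QN (Q0 : Set E) (e : ℕ → P ⊕ ℕ → E) (len : ℕ → ℕ) {s t : ℕ} (h : s < t) {x : P ⊕ ℕ}
    (hx : x ∈ vl P (len s)) : e s x ∈ QN Q0 e len t := Or.inr ⟨s, h, x, hx, rfl⟩

lemma QN_congr (Q0 : Set E) {e e' : ℕ → P ⊕ ℕ → E} {len len' : ℕ → ℕ} {s : ℕ}
    (h1 : ∀ t < s, e' t = e t) (h2 : ∀ t < s, len' t = len t) :
    QN Q0 e' len' s = QN Q0 e len s := by
  ext w
  constructor
  · rintro (hw | ⟨t, ht, x, hx, rfl⟩)
    · exact Or.inl hw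
    · exact Or.inr ⟨t, ht, x, h2 t ht ▸ hx, by rw [h1 t ht]⟩
  · rintro (hw | ⟨t, ht, x, hx, rfl⟩)
    · exact Or.inl hw
    · exact Or.inr ⟨t, ht, x, (h2 t ht).symm ▸ hx, by rw [h1 t ht]⟩

lemma QS_eq (Q0 : Set E) (e : ℕ → P ⊕ ℕ → E) (len : ℕ → ℕ) {T s : ℕ} (h : s ≤ T) :
    QS Q0 (fun t : Fin T => e t.val) (fun t : Fin T => len t.val) s = QN Q0 e len s := by
  ext w
  constructor
  · rintro (hw | ⟨t, ht, x, hx, rfl⟩)
    · exact Or.inl hw
    · exact Or.inr ⟨t.val, ht, x, hx, rfl⟩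
  · rintro (hw | ⟨t, ht, x, hx, rfl⟩)
    · exact Or.inl hw
    · exact Or.inr ⟨⟨t, lt_of_lt_of_le ht h⟩, ht, x, hx, rfl⟩

lemma inl_mem_vl (len : ℕ) (p : P) : (inl p : P ⊕ ℕ) ∈ vl P len := fun _ h => by cases h

lemma inr_mem_vl {len i : ℕ} (h : i < len) : (inr i : P ⊕ ℕ) ∈ vl P len := fun _ h' => by
  cases h'
  exact h

lemma vl_eq (len : ℕ) : vl P len = Set.range inl ∪ inr '' Set.Iio len := by
  ext x
  rcases x with p | i
  · simp [inl_mem_vl]
  · simp [vl]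

lemma ncard_vl [Fintype P] (e : P ⊕ ℕ → E) (len : ℕ) :
    (e '' vl P len).ncard ≤ Fintype.card P + len := by
  have h1 : (Set.range (inl : P → P ⊕ ℕ)).ncard = Fintype.card P := by
    rw [Set.ncard_range_of_injective inl_injective, Nat.card_eq_fintype_card]
  have h2 : ((inr : ℕ → P ⊕ ℕ) '' Set.Iio len).ncard = len := by
    rw [Set.ncard_image_of_injective _ inr_injective, ← Finset.coe_range, Set.ncard_coe_finset,
      Finset.card_range]
  have hf : (vl P len).Finite := by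
    rw [vl_eq]
    exact (Set.finite_range _).union ((Set.finite_Iio _).image _)
  calc (e '' vl P len).ncard ≤ (vl P len).ncard := Set.ncard_image_le hf
    _ ≤ _ := by
      rw [vl_eq]
      exact (Set.ncard_union_le _ _).trans (by rw [h1, h2])

lemma ncard_QN [Fintype P] (Q0 : Set E) (e : ℕ → P ⊕ ℕ → E) (len : ℕ → ℕ) {p0 : ℕ} (s : ℕ)
    (h : ∀ t < s, len t ≤ p0) : (QN Q0 e len s).ncard ≤ Q0.ncard + s * (Fintype.card P + p0) := by
  induction s with
  | zero => simp [QN_zero]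
  | succ s ih =>
    rw [QN_succ]
    have h1 := ih fun t ht => h t (Nat.lt_succ_of_lt ht)
    have h2 := ncard_vl (e s) (len s)
    have h3 := h s (Nat.lt_succ_self s)
    have h4 := Set.ncard_union_le (QN Q0 e len s) (e s '' vl P (len s))
    rw [Nat.succ_mul]
    omega

/-- The background data of ` (S', X')` and ` (S, X)` are the same on `Q`. -/
def Ag (kk : K → E) (Q : Set E) (S S' : Matrix E E F) (X X' : E → K → F) : Prop :=
  ∀ u ∈ Q, X' u = X u ∧ ∀ w ∈ Q, nat S' kk X' u w = nat S kk X u w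

section Ag

variable {kk : K → E} {Q Q' W : Set E} {S S' S'' R R' : Matrix E E F} {X X' X'' Y Y' : E → K → F}

lemma Ag.refl : Ag kk Q S S X X := fun _ _ => ⟨rfl, fun _ _ => rfl⟩

lemma Ag.symm (h : Ag kk Q S S' X X') : Ag kk Q S' S X' X :=
  fun u hu => ⟨(h u hu).1.symm, fun w hw => ((h u hu).2 w hw).symm⟩

lemma Ag.trans (h : Ag kk Q S S' X X') (h' : Ag kk Q S' S'' X' X'') : Ag kk Q S S'' X X'' :=
  fun u hu => ⟨(h' u hu).1.trans (h u hu).1, fun w hw => ((h' u hu).2 w hw).trans ((h u hu).2 w hw)⟩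

lemma Ag.mono (h : Ag kk Q S S' X X') (hQ : Q' ⊆ Q) : Ag kk Q' S S' X X' :=
  fun u hu => ⟨(h u (hQ hu)).1, fun w hw => (h u (hQ hu)).2 w (hQ hw)⟩

lemma Ag.of_agree (hk : ∀ k, kk k ∈ Q) (h : AgreeOn Q S S') (hX : ∀ u ∈ Q, X' u = X u) :
    Ag kk Q S S' X X' := by
  intro u hu
  refine ⟨hX u hu, fun w hw => ?_⟩
  have : yv S' kk w = yv S kk w := funext fun r => h _ (hk r) _ hw
  simp only [nat, hX u hu, this, h u hu w hw]

lemma Ag.dEq (hk : ∀ k, kk k ∈ Q) (hW : W ⊆ Q) (h1 : Ag kk Q S R X Y) (h2 : Ag kk Q S' R' X' Y')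
    (h : DEq R R' kk Y Y' W) : DEq S S' kk X X' W := by
  obtain ⟨c, hc⟩ := h
  refine ⟨c, fun p hp => ?_⟩
  obtain ⟨a1, a2, a3⟩ := hc p hp
  have hp' := hW hp
  refine ⟨?_, fun r => ?_, fun q hq => ?_⟩
  · rw [← (h1 p hp').1, ← (h2 p hp').1]
    exact a1
  · rw [← (h1 p hp').2 _ (hk r), ← (h2 p hp').2 _ (hk r)]
    exact a2 r
  · rw [← (h1 p hp').2 _ (hW hq), ← (h2 p hp').2 _ (hW hq)]
    exact a3 q hq

end Ag

/-- A piece only depends on the background data on a set that contains it. -/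
lemma piece_pers {ι' : Type} {S : ι → Matrix E E F} {S' : ι' → Matrix E E F} {kk : K → E}
    {X : ι → E → K → F} {X' : ι' → E → K → F} {Q Q' : Set E} {e : P ⊕ ℕ → E} {len : ℕ}
    (h : Piece S kk X Q e len) (g : ι' → ι) (hk : ∀ k, kk k ∈ Q') (hQ : Q ⊆ Q')
    (he : ∀ x ∈ vl P len, e x ∈ Q') (ha : ∀ i, Ag kk Q' (S (g i)) (S' i) (X (g i)) (X' i)) :
    Piece S' kk X' Q e len := by
  have h0 : (inr 0 : P ⊕ ℕ) ∈ vl P len := inr_mem_vl h.pos
  refine ⟨h.pos, h.inj, h.disj, fun i u hu x hx hx0 => ?_, ?_, fun x hx => ?_, ?_⟩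
  · rw [(ha i u (hQ hu)).2 _ (he x hx)]
    exact h.zero _ u hu x hx hx0
  · obtain ⟨u, hu, h1⟩ := h.hit
    refine ⟨u, hu, fun i => ?_⟩
    rw [(ha i u (hQ hu)).2 _ (he _ h0)]
    exact h1 _
  · refine Relation.ReflTransGen.mono ?_ _ _ (h.reach x hx)
    rintro a b ⟨ha', hb', hab⟩
    refine ⟨ha', hb', fun i => ?_⟩
    rw [(ha i _ (he a ha')).2 _ (he b hb')]
    exact hab _
  · obtain ⟨C, hC⟩ := h.rk
    refine ⟨C, fun i u h1 h2 => hC (g i) u ?_ fun r => ?_⟩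
    · rw [← h1]
      exact Finset.sum_congr rfl fun k _ => by rw [(ha i _ (he _ (inl_mem_vl len (C k)))).1]
    · rw [← h2 r]
      exact Finset.sum_congr rfl fun k _ => by
        rw [(ha i _ (he _ (inl_mem_vl len (C k)))).2 _ (hk r)]

/-- The state after `t` growth steps, with `n` petals left. -/
structure Inv [Fintype E] (m p0 : ℕ) (P0 : Set P) (kk : K → E) (Q0 : Set E) (t : ℕ) {n : ℕ}
    (d : Datum F K P) (col : E → Bool) (S : ι → Matrix E E F) (pp : Fin n → P → E)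
    (cl : Fin (n + 1) → ι) (X : ι → E → K → F) (e : ℕ → P ⊕ ℕ → E) (len : ℕ → ℕ) (dv : ℕ → ι) :
    Prop where
  aug : d.AugIn P0
  stage : Stage m d col S kk pp cl (QN Q0 e len t) X
  len_le : ∀ s < t, len s ≤ p0
  piece : ∀ s < t, Piece S kk X (QN Q0 e len s) (e s) (len s)
  ag1 : ∀ s s', s ≤ s' → s' < t →
    Ag kk (QN Q0 e len s) (S (dv s)) (S (dv s')) (X (dv s)) (X (dv s'))
  ag2 : ∀ s < t, ∀ j, Ag kk (QN Q0 e len s) (S (dv s)) (S (cl j)) (X (dv s)) (X (cl j))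
  dev1 : ∀ s s', s < s' → s' < t →
    ¬DEq (S (dv s)) (S (dv s')) kk (X (dv s)) (X (dv s')) ((fun p => e s (inl p)) '' P0)
  dev2 : ∀ s < t, ∀ j,
    ¬DEq (S (dv s)) (S (cl j)) kk (X (dv s)) (X (cl j)) ((fun p => e s (inl p)) '' P0)

/-- One more piece. -/
lemma Inv.succ [Fintype E] {m p0 : ℕ} {P0 : Set P} {kk : K → E} {Q0 : Set E} {t N n : ℕ}
    {d d' : Datum F K P} {col col' : E → Bool} {S S' : ι → Matrix E E F} {pp : Fin N → P → E}
    {cl : Fin (N + 1) → ι} {X X' : ι → E → K → F} {e : ℕ → P ⊕ ℕ → E} {len : ℕ → ℕ} {dv : ℕ → ι}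
    (h : Inv m p0 P0 kk Q0 t d col S pp cl X e len dv) (hk : ∀ k, kk k ∈ Q0)
    {g : Fin n → Fin N} {g' : Fin (n + 1) → Fin (N + 1)} {e1 : P ⊕ ℕ → E} {l1 : ℕ}
    {d1 : Fin (N + 1)} (ha : d'.AugIn P0) (hl : l1 ≤ p0)
    (hs : Stage m d' col' S' kk (fun j => pp (g j)) (fun j => cl (g' j))
      (QN Q0 e len t ∪ e1 '' vl P l1) X')
    (hp : Piece S' kk X' (QN Q0 e len t) e1 l1)
    (hag : ∀ i, Ag kk (QN Q0 e len t) (S i) (S' i) (X i) (X' i))
    (hd : ∀ j, ¬DEq (S' (cl d1)) (S' (cl (g' j))) kk (X' (cl d1)) (X' (cl (g' j)))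
      ((fun p => e1 (inl p)) '' P0)) :
    Inv m p0 P0 kk Q0 (t + 1) d' col' S' (fun j => pp (g j)) (fun j => cl (g' j)) X'
      (Function.update e t e1) (Function.update len t l1) (Function.update dv t (cl d1)) := by
  have hQ : ∀ s ≤ t, QN Q0 (Function.update e t e1) (Function.update len t l1) s = QN Q0 e len s :=
    fun s hs => QN_congr Q0 (fun u hu => Function.update_of_ne (by omega) _ _)
      fun u hu => Function.update_of_ne (by omega) _ _
  have hkt : ∀ k, kk k ∈ QN Q0 e len t := fun k => sub_QN Q0 e len t (hk k)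
  have hW : ∀ s < t, (fun p => e s (inl p)) '' P0 ⊆ QN Q0 e len t := by
    rintro s hs _ ⟨p, -, rfl⟩
    exact mem_QN Q0 e len hs (inl_mem_vl _ p)
  have hcl : ∀ i j, Ag kk (QN Q0 e len t) (S (cl i)) (S (cl j)) (X (cl i)) (X (cl j)) :=
    fun i j => Ag.of_agree hkt (h.stage.agree i j).1 (h.stage.agree i j).2
  have hmove : ∀ s ≤ t, ∀ i i', Ag kk (QN Q0 e len s) (S i) (S i') (X i) (X i') →
      Ag kk (QN Q0 e len s) (S' i) (S' i') (X' i) (X' i') := fun s hs i i' h1 =>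
    (((hag i).mono (QN_mono Q0 e len hs)).symm.trans h1).trans
      ((hag i').mono (QN_mono Q0 e len hs))
  have hdev : ∀ s < t, ∀ i i', ¬DEq (S i) (S i') kk (X i) (X i') ((fun p => e s (inl p)) '' P0) →
      ¬DEq (S' i) (S' i') kk (X' i) (X' i') ((fun p => e s (inl p)) '' P0) :=
    fun s hs i i' h1 h2 => h1 (Ag.dEq hkt (hW s hs) (hag i) (hag i') h2)
  refine ⟨ha, ?_, fun s hs => ?_, fun s hs => ?_, fun s s' h1 h2 => ?_, fun s hs j => ?_,
    fun s s' h1 h2 => ?_, fun s hs j => ?_⟩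
  · rw [QN_succ, hQ t le_rfl, Function.update_self, Function.update_self]
    exact hs
  · rcases Nat.lt_succ_iff_lt_or_eq.1 hs with hs | rfl
    · rw [Function.update_of_ne hs.ne]
      exact h.len_le s hs
    · rwa [Function.update_self]
  · rw [hQ s (by omega)]
    rcases Nat.lt_succ_iff_lt_or_eq.1 hs with hs | rfl
    · rw [Function.update_of_ne hs.ne, Function.update_of_ne hs.ne]
      exact piece_pers (h.piece s hs) id hkt (QN_mono Q0 e len hs.le)
        (fun x hx => mem_QN Q0 e len hs hx) hag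
    · rwa [Function.update_self, Function.update_self]
  · rw [hQ s (by omega)]
    rcases Nat.lt_succ_iff_lt_or_eq.1 h2 with h2 | rfl
    · rw [Function.update_of_ne h2.ne, Function.update_of_ne (by omega : s ≠ t)]
      exact hmove s (by omega) _ _ (h.ag1 s s' h1 h2)
    · rcases h1.lt_or_eq with h1 | rfl
      · rw [Function.update_self, Function.update_of_ne h1.ne]
        exact hmove s h1.le _ _ (h.ag2 s h1 d1)
      · exact Ag.refl
  · rw [hQ s (by omega)]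
    rcases Nat.lt_succ_iff_lt_or_eq.1 hs with hs | rfl
    · rw [Function.update_of_ne hs.ne]
      exact hmove s hs.le _ _ (h.ag2 s hs _)
    · rw [Function.update_self]
      exact hmove s le_rfl _ _ (hcl _ _)
  · rw [Function.update_of_ne (by omega : s ≠ t), Function.update_of_ne (by omega : s ≠ t)]
    rcases Nat.lt_succ_iff_lt_or_eq.1 h2 with h2 | rfl
    · rw [Function.update_of_ne h2.ne]
      exact hdev s (by omega) _ _ (h.dev1 s s' h1 h2)
    · rw [Function.update_self]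
      exact hdev s h1 _ _ (h.dev2 s h1 d1)
  · rcases Nat.lt_succ_iff_lt_or_eq.1 hs with hs | rfl
    · rw [Function.update_of_ne hs.ne, Function.update_of_ne hs.ne]
      exact hdev s hs _ _ (h.dev2 s hs _)
    · rw [Function.update_self, Function.update_self]
      exact hd j

/-- The final state gives the grown structure. -/
lemma Inv.grown [Fintype E] {m p0 κ : ℕ} {P0 : Set P} {kk : K → E} {Q0 : Set E} {T : ℕ}
    {d : Datum F K P} {col : E → Bool} {S : ι → Matrix E E F} {pp : Fin 1 → P → E}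
    {cl : Fin (1 + 1) → ι} {X : ι → E → K → F} {e : ℕ → P ⊕ ℕ → E} {len : ℕ → ℕ} {dv : ℕ → ι}
    (h : Inv m p0 P0 kk Q0 T d col S pp cl X e len dv) (hk : ∀ k, kk k ∈ Q0)
    (hc : Q0.ncard ≤ κ) :
    Grown m p0 κ P0 col (fun s : Fin T => S (dv s.val)) kk (fun s : Fin T => X (dv s.val)) Q0
      (fun s : Fin T => e s.val) (fun s : Fin T => len s.val) (pp 0) := by
  refine ⟨h.stage.fam.reindex _, fun i => h.stage.conn _, h.stage.chain.kk_inj, hk, hc,
    fun s => h.len_le _ s.isLt, fun p q hpq => (h.stage.chain.pp_inj hpq).2, fun p => ?_,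
    fun s => ?_, fun i u hu => ?_, fun i => ?_, fun s s' hs => ?_, fun s s' hs => ?_⟩
  · rw [QS_eq Q0 e len le_rfl]
    exact h.stage.disj 0 p
  · rw [QS_eq Q0 e len s.isLt.le]
    exact piece_pers (Q' := Set.univ) (h.piece _ s.isLt) (fun s : Fin T => dv s.val)
      (fun _ => trivial) (Set.subset_univ _) (fun _ _ => trivial) fun _ => Ag.refl
  · rw [QS_eq Q0 e len le_rfl] at hu
    refine (h.stage.al _ u hu).mono ?_
    rintro _ ⟨p, rfl⟩
    exact ⟨0, p, rfl⟩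
  · exact (h.stage.fam.same (cl 0) _).full (h.stage.chain.full h.aug.2.1 0 0)
  · rw [QS_eq Q0 e len s.isLt.le]
    exact h.ag1 _ _ hs s'.isLt
  · exact h.dev1 _ _ hs s'.isLt

/-- The core and the first petal give the first stage. -/
lemma stage_zero [Fintype E] [Fintype P] {m N : ℕ} {d : Datum F K P} {P0 : Set P}
    {col : E → Bool} {S : Fin (N + 1 + 1) → Matrix E E F} {kk : K → E} {pp : Fin (N + 1) → P → E}
    (hF : Fam col S) (hC : ∀ i, Conn m (S i)) (h : IsChain d col S kk pp) (ha : d.AugIn P0) :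
    ∃ (Q0 : Set E) (X : Fin (N + 1 + 1) → E → K → F),
      Stage m d col S kk (fun j : Fin N => pp j.succ) (fun j : Fin (N + 1) => j.succ) Q0 X ∧
      Fintype.card K < Q0.ncard ∧ Q0.ncard ≤ Fintype.card K + Fintype.card P := by
  classical
  have hP : 0 < Fintype.card P := by
    rw [Fintype.card_pos_iff]
    by_contra hP
    exact ha.2.2.2 ⟨1, fun p _ => absurd ⟨p⟩ hP, fun p _ => absurd ⟨p⟩ hP⟩
  have hcard : (Set.range (Sum.elim kk (pp 0))).ncard = Fintype.card K + Fintype.card P := by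
    rw [Set.ncard_range_of_injective (h.elim_inj 0), Nat.card_eq_fintype_card, Fintype.card_sum]
  have hX : ∀ u : E, ∃ x : K → F, u ∈ Set.range (Sum.elim kk (pp 0)) →
      ∀ i, Al (S i) kk (petals fun j : Fin N => pp j.succ) u x := by
    intro u
    by_cases hu : u ∈ Set.range (Sum.elim kk (pp 0))
    · obtain ⟨k | p, rfl⟩ := hu
      · refine ⟨Pi.single k 1, fun _ i b _ => ?_⟩
        simp [yv]
      · obtain ⟨x, hx⟩ := ha.1.1 p
        refine ⟨x, fun _ i => ?_⟩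
        rintro _ ⟨j, q, rfl⟩
        rw [h.yv_pp, ← hx q]
        exact h.pp_lt i (Fin.succ_pos j) p q
    · exact ⟨0, fun h' => absurd h' hu⟩
  choose X hX using hX
  refine ⟨Set.range (Sum.elim kk (pp 0)), fun _ => X, ⟨hF, hC, ?_, fun k => ⟨inl k, rfl⟩, ?_,
    fun i u hu => hX u hu i, fun i j => ⟨?_, fun _ _ => rfl⟩⟩, by omega, hcard.le⟩
  · refine h.sub' (g := Fin.succ) (g' := Fin.succ) Fin.strictMono_succ
      (fun j => Fin.succ_castSucc j) fun j => ?_
    simp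
  · rintro j p ⟨k | q, hk⟩
    · exact h.kk_ne_pp k _ p hk
    · exact (Fin.succ_ne_zero j) (h.pp_inj hk).1.symm
  · rintro _ ⟨k | p, rfl⟩ _ ⟨k' | q, rfl⟩
    · exact (h.kk_kk _ k k').trans (h.kk_kk _ k k').symm
    · exact (h.kk_pp _ k 0 q).trans (h.kk_pp _ k 0 q).symm
    · exact (h.pp_kk _ k' 0 p).trans (h.pp_kk _ k' 0 p).symm
    · exact (h.pp_left (i := j.succ) (j := 0) (by simp) p q).trans
        (h.pp_left (i := i.succ) (j := 0) (by simp) p q).symm

end Grow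

open Grow in
theorem grow [Fintype F] {m : ℕ} (h : STEP F m) : GROW F m := by
  intro K P _ _ hK
  obtain ⟨p0, hp0⟩ := h K P hK
  refine ⟨p0, Fintype.card K + Fintype.card P, fun T n0 => ?_⟩
  have key : ∀ t n, ∃ N, ∀ (E ι : Type) [Fintype E] (d : Datum F K P) (P0 : Set P)
      (col : E → Bool) (S : ι → Matrix E E F) (kk : K → E) (pp : Fin N → P → E)
      (cl : Fin (N + 1) → ι) (Q0 : Set E) (X : ι → E → K → F),
      Stage m d col S kk pp cl Q0 X → d.AugIn P0 → Fintype.card K < Q0.ncard →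
      Q0.ncard ≤ Fintype.card K + Fintype.card P →
      HubOut F K m n0 P0 ∨ ∃ (d' : Datum F K P) (col' : E → Bool) (S' : ι → Matrix E E F)
        (pp' : Fin n → P → E) (cl' : Fin (n + 1) → ι) (X' : ι → E → K → F)
        (e : ℕ → P ⊕ ℕ → E) (len : ℕ → ℕ) (dv : ℕ → ι),
        Inv m p0 P0 kk Q0 t d' col' S' pp' cl' X' e len dv := by
    intro t
    induction t with
    | zero =>
      intro n
      refine ⟨n, fun E ι _ d P0 col S kk pp cl Q0 X hs ha h1 _ => Or.inr ?_⟩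
      obtain ⟨u, -⟩ : Q0.Nonempty := Set.nonempty_of_ncard_ne_zero (by omega)
      refine ⟨d, col, S, pp, cl, X, fun _ _ => u, fun _ => 0, fun _ => cl 0, ha, ?_,
        fun s hs => absurd hs (Nat.not_lt_zero s), fun s hs => absurd hs (Nat.not_lt_zero s),
        fun s s' _ hs => absurd hs (Nat.not_lt_zero s'),
        fun s hs => absurd hs (Nat.not_lt_zero s),
        fun s s' _ hs => absurd hs (Nat.not_lt_zero s'),
        fun s hs => absurd hs (Nat.not_lt_zero s)⟩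
      rwa [QN_zero]
    | succ t ih =>
      intro n
      obtain ⟨N1, hN1⟩ := hp0 (Fintype.card K + Fintype.card P + t * (Fintype.card P + p0)) n n0
      obtain ⟨N, hN⟩ := ih N1
      refine ⟨N, fun E ι _ d P0 col S kk pp cl Q0 X hs ha h1 h2 => ?_⟩
      rcases hN E ι d P0 col S kk pp cl Q0 X hs ha h1 h2 with hh |
        ⟨d', col', S', pp', cl', X', e, len, dv, hi⟩
      · exact Or.inl hh
      · have hlow : Fintype.card K < (QN Q0 e len t).ncard :=
          lt_of_lt_of_le h1 (Set.ncard_le_ncard (sub_QN Q0 e len t) (Set.toFinite _))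
        have hup := ncard_QN Q0 e len t hi.len_le
        rcases hN1 E ι d' P0 col' S' kk pp' cl' _ X' hi.stage hi.aug hlow (by omega) with hh |
          ⟨d2, col2, S2, g, g', X2, e1, l1, d1, b1, b2, b3, b4, b5, b6⟩
        · exact Or.inl hh
        · exact Or.inr ⟨d2, col2, S2, _, _, X2, _, _, _, hi.succ hs.kQ b1 b2 b3 b4 b5 b6⟩
  obtain ⟨N, hN⟩ := key T 1
  refine ⟨N + 1, fun d P0 hR ha => ?_⟩
  obtain ⟨E, _, col, S, kk, pp, hF, hC, hch⟩ := hR
  obtain ⟨Q0, X, hs, h1, h2⟩ := stage_zero hF hC hch ha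
  rcases hN E _ d P0 col S kk _ _ Q0 X hs ha h1 h2 with hh |
    ⟨d', col', S', pp', cl', X', e, len, dv, hi⟩
  · exact Or.inl hh
  · exact Or.inr ⟨E, inferInstance, col', _, kk, _, Q0, _, _, _, hi.grown hs.kQ h2⟩

end Pool.Agent.MP_d99b12_co.H25
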