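import Pool.Agent.MP_d99b12_co.H25.Spec
import Pool.Agent.MP_d99b12_co.H25.ChainB

/-! # Homogeneous chains from Ramsey's theorem -/

namespace Pool.Agent.MP_d99b12_co.H25

open Matrix Sum

namespace HOM

variable {F : Type} [Field F] {E K P I : Type}

/-- A triple of indices: `some false`, `none`, `some true`. -/
def tri (i j k : I) : Option Bool → I
  | some false => i
  | none => j
  | some true => k

def em (kk : K → E) (Q : I → P → E) (i j k : I) : K ⊕ Option Bool × P → E :=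
  Sum.elim kk fun x => Q (tri i j k x.1) x.2

/-- The colour of a triple. -/
def clr (col : E → Bool) (T : I → Matrix E E F) (kk : K → E) (Q : I → P → E) (i j k : I) :
    (K ⊕ Option Bool × P → Bool) ×
      (Option Bool → K ⊕ Option Bool × P → K ⊕ Option Bool × P → F) :=
  (fun x => col (em kk Q i j k x), fun r x y => T (tri i j k r) (em kk Q i j k x) (em kk Q i j k y))

def core (kk : K → E) (Q : I → P → E) (i0 iR : I) : K ⊕ P ⊕ P → E :=
  Sum.elim kk (Sum.elim (Q i0) (Q iR))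

variable [LinearOrder I] [Fintype E]

/-- A homogeneous family with marked indices. -/
structure Hm (col : E → Bool) (T : I → Matrix E E F) (kk : K → E) (Q : I → P → E)
    (i0 l1 l2 s iR hs : I) : Prop where
  fam : Fam col T
  hom : ∀ i j k i' j' k', i < j → j < k → i' < j' → j' < k' →
    clr col T kk Q i j k = clr col T kk Q i' j' k'
  h1 : i0 < l1
  h2 : l1 < l2
  h3 : l2 < s
  h4 : s < iR
  h5 : iR < hs

variable {col : E → Bool} {T : I → Matrix E E F} {kk : K → E} {Q : I → P → E}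
  {i0 l1 l2 s iR hs : I}

theorem Hm.ent (h : Hm col T kk Q i0 l1 l2 s iR hs) {i j k i' j' k' : I} (a1 : i < j) (a2 : j < k)
    (a3 : i' < j') (a4 : j' < k') (r : Option Bool) (x y : K ⊕ Option Bool × P) :
    T (tri i j k r) (em kk Q i j k x) (em kk Q i j k y) =
      T (tri i' j' k' r) (em kk Q i' j' k' x) (em kk Q i' j' k' y) :=
  congrFun (congrFun (congrFun (congrArg Prod.snd (h.hom i j k i' j' k' a1 a2 a3 a4)) r) x) y

theorem Hm.col_eq (h : Hm col T kk Q i0 l1 l2 s iR hs) {a : I} (a1 : i0 < a) (a2 : a < iR) (p : P) :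
    col (Q a p) = col (Q l2 p) :=
  congrFun (congrArg Prod.fst (h.hom i0 a iR i0 l2 iR a1 a2 (h.h1.trans h.h2) (h.h3.trans h.h4)))
    (inr (none, p))

/-- positions of the core in the triple ` (i0, r, iR)` -/
def pos : K ⊕ P ⊕ P → K ⊕ Option Bool × P :=
  Sum.elim inl (Sum.elim (fun p => inr (some false, p)) fun p => inr (some true, p))

omit [LinearOrder I] [Fintype E] in
theorem em_pos (r : I) (k : K ⊕ P ⊕ P) : em kk Q i0 r iR (pos k) = core kk Q i0 iR k := by
  rcases k with k | p | p <;> rfl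

theorem Hm.blockD (h : Hm col T kk Q i0 l1 l2 s iR hs) {r : I} (a1 : i0 < r) (a2 : r < iR)
    (k k' : K ⊕ P ⊕ P) : T r (core kk Q i0 iR k) (core kk Q i0 iR k') =
      T s (core kk Q i0 iR k) (core kk Q i0 iR k') := by
  have := h.ent a1 a2 (h.h1.trans (h.h2.trans h.h3)) h.h4 none (pos k) (pos k')
  rwa [em_pos, em_pos, em_pos, em_pos] at this

theorem Hm.blockV (h : Hm col T kk Q i0 l1 l2 s iR hs) {r a : I} (a1 : i0 < a) (a2 : a < r)
    (a3 : r < iR) (k : K ⊕ P ⊕ P) (q : P) :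
    T r (core kk Q i0 iR k) (Q a q) = T s (core kk Q i0 iR k) (Q l2 q) := by
  rcases k with k | p | p
  · exact h.ent a1 a2 (h.h1.trans h.h2) h.h3 (some true) (inl k) (inr (none, q))
  · exact h.ent a1 a2 (h.h1.trans h.h2) h.h3 (some true) (inr (some false, p)) (inr (none, q))
  · exact h.ent a2 a3 h.h3 h.h4 none (inr (some true, p)) (inr (some false, q))

theorem Hm.blockU (h : Hm col T kk Q i0 l1 l2 s iR hs) {r a b : I} (a1 : a < b) (a2 : b < r)
    (p q : P) : T r (Q a p) (Q b q) = T s (Q l1 p) (Q l2 q) :=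
  h.ent a1 a2 h.h2 h.h3 (some true) (inr (some false, p)) (inr (none, q))

theorem Hm.blockA (h : Hm col T kk Q i0 l1 l2 s iR hs) {r a : I} (a1 : i0 < a) (a2 : a < r)
    (p q : P) : T r (Q a p) (Q a q) = T s (Q l2 p) (Q l2 q) :=
  h.ent a1 a2 (h.h1.trans h.h2) h.h3 (some true) (inr (none, p)) (inr (none, q))

theorem Hm.blockO (h : Hm col T kk Q i0 l1 l2 s iR hs) {r r' : I} (a1 : i0 < r) (a2 : r < iR)
    (a3 : i0 < r') (a4 : r' < iR) (p q : P) : T r (Q r p) (Q r q) = T r' (Q r' p) (Q r' q) :=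
  h.ent a1 a2 a3 a4 none (inr (none, p)) (inr (none, q))

/-- rows of left petals, read on the core and on the petal `l1` -/
theorem Hm.row_left (h : Hm col T kk Q i0 l1 l2 s iR hs) {r a : I} (a1 : l1 < a) (a2 : a < r)
    (a3 : r < iR) (p : P) (w : (K ⊕ P ⊕ P) ⊕ P) :
    T r (Q a p) (Sum.elim (core kk Q i0 iR) (Q l1) w) =
      T s (Q l2 p) (Sum.elim (core kk Q i0 iR) (Q l1) w) := by
  rw [h.fam.skew r, h.fam.skew s, neg_inj]
  rcases w with k | q
  · exact h.blockV (h.h1.trans a1) a2 a3 k p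
  · exact h.blockU a1 a2 q p

theorem Hm.row_own (h : Hm col T kk Q i0 l1 l2 s iR hs) {r r' : I} (a1 : l1 < r) (a2 : r < iR)
    (a3 : l1 < r') (a4 : r' < iR) (p : P) (w : (K ⊕ P ⊕ P) ⊕ P) :
    T r (Q r p) (Sum.elim (core kk Q i0 iR) (Q l1) w) =
      T r' (Q r' p) (Sum.elim (core kk Q i0 iR) (Q l1) w) := by
  rcases w with k | q
  · have := h.ent (h.h1.trans a1) a2 (h.h1.trans a3) a4 none (inr (none, p)) (pos k)
    rwa [em_pos, em_pos] at this
  · exact h.ent a1 a2 a3 a4 none (inr (none, p)) (inr (some false, q))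

theorem Hm.row_right (h : Hm col T kk Q i0 l1 l2 s iR hs) {r a r' a' : I} (a1 : l1 < r)
    (a2 : r < a) (a3 : a < iR) (a4 : l1 < r') (a5 : r' < a') (a6 : a' < iR) (p : P)
    (w : (K ⊕ P ⊕ P) ⊕ P) : T r (Q a p) (Sum.elim (core kk Q i0 iR) (Q l1) w) =
      T r' (Q a' p) (Sum.elim (core kk Q i0 iR) (Q l1) w) := by
  rcases w with (k | q | q) | q
  · exact h.ent a1 a2 a4 a5 none (inr (some true, p)) (inl k)
  · exact h.ent (h.h1.trans a1) a2 (h.h1.trans a4) a5 none (inr (some true, p))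
      (inr (some false, q))
  · exact h.ent a2 a3 a5 a6 (some false) (inr (none, p)) (inr (some true, q))
  · exact h.ent a1 a2 a4 a5 none (inr (some true, p)) (inr (some false, q))

/-- every row of a petal is parallel to the reference row -/
theorem Hm.norm (h : Hm col T kk Q i0 l1 l2 s iR hs) {r a : I} (a1 : l2 < r) (a2 : r < iR)
    (a3 : l1 < a) (a4 : a < s) (p : P) : ∃ c : Fˣ, ∀ w : (K ⊕ P ⊕ P) ⊕ P,
      T r (Q a p) (Sum.elim (core kk Q i0 iR) (Q l1) w) =
        c * T s (Q l2 p) (Sum.elim (core kk Q i0 iR) (Q l1) w) := by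
  obtain ⟨c, hc⟩ := (h.fam.same s r).par_row
    (Y := Set.range (Sum.elim (core kk Q i0 iR) (Q l1))) (u := Q a p) (v := Q l2 p) one_ne_zero
    (by rintro _ ⟨w, rfl⟩; rw [one_mul]; exact h.row_left a3 a4 h.h4 p w)
  refine ⟨c, fun w => ?_⟩
  rw [hc _ ⟨w, rfl⟩, h.row_left h.h2 a1 a2 p w]

/-- the datum read from the last representation -/
def dat (col : E → Bool) (T : I → Matrix E E F) (kk : K → E) (Q : I → P → E)
    (i0 l1 l2 s iR : I) (As : Matrix P P F) : Datum F (K ⊕ P ⊕ P) P where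
  colK := fun k => col (core kk Q i0 iR k)
  colP := fun p => col (Q l2 p)
  D := Matrix.of fun k k' => T s (core kk Q i0 iR k) (core kk Q i0 iR k')
  V := Matrix.of fun k q => T s (core kk Q i0 iR k) (Q l2 q)
  A := Matrix.of fun p q => T s (Q l2 p) (Q l2 q)
  U := Matrix.of fun p q => T s (Q l1 p) (Q l2 q)
  As := As

variable [Fintype K] [Fintype P]

theorem Hm.ref2 (h : Hm col T kk Q i0 l1 l2 s iR hs) (p : P) : ∃ x : K ⊕ P ⊕ P → F,
    ∀ q, T s (Q l1 q) (Q l2 p) = x ⬝ᵥ fun k => T s (core kk Q i0 iR k) (Q l2 q) := by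
  classical
  have h6 : l1 < iR := h.h2.trans (h.h3.trans h.h4)
  obtain ⟨c, hc⟩ := (h.fam.same hs s).par_row (Y := Set.range (Q l1)) (u := Q l2 p) (v := Q iR p)
    one_ne_zero (by
      rintro _ ⟨q, rfl⟩
      rw [one_mul, h.fam.skew hs, h.fam.skew hs (Q iR p), h.blockU h6 h.h5,
        h.blockU h.h2 (h.h3.trans (h.h4.trans h.h5))])
  refine ⟨Pi.single (inr (inr p)) (-(c : F)), fun q => ?_⟩
  rw [single_dotProduct, h.fam.skew s, hc _ ⟨q, rfl⟩,
    ← h.blockV h.h1 (h.h2.trans h.h3) h.h4 (inr (inr p)) q, neg_mul]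
  rfl

theorem Hm.ref (h : Hm col T kk Q i0 l1 l2 s iR hs) (As : Matrix P P F) :
    (dat col T kk Q i0 l1 l2 s iR As).Ref := by
  classical
  refine ⟨fun p => ⟨Pi.single (inr (inl p)) 1, fun q => ?_⟩, h.ref2⟩
  rw [single_dotProduct, one_mul]
  exact (h.blockU (h.h1.trans h.h2) h.h3 p q).symm

/-- the block between two petals after normalisation -/
theorem Hm.cross (h : Hm col T kk Q i0 l1 l2 s iR hs) {r a b : I} (a1 : l2 < r) (a2 : r < iR)
    (a3 : l1 < a) (a4 : a < b) (a5 : b < s) {p q : P} {c c' : F}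
    (hc : ∀ w : (K ⊕ P ⊕ P) ⊕ P, T r (Q a p) (Sum.elim (core kk Q i0 iR) (Q l1) w) =
      c * T s (Q l2 p) (Sum.elim (core kk Q i0 iR) (Q l1) w))
    (hc' : ∀ w : (K ⊕ P ⊕ P) ⊕ P, T r (Q b q) (Sum.elim (core kk Q i0 iR) (Q l1) w) =
      c' * T s (Q l2 q) (Sum.elim (core kk Q i0 iR) (Q l1) w)) :
    T r (Q a p) (Q b q) = c * c' * T s (Q l1 p) (Q l2 q) := by
  obtain ⟨x0, hx0⟩ := h.ref2 q
  have y1 : ∀ {r a : I}, i0 < a → a < r → r < iR → ∀ w, yv (T r) (core kk Q i0 iR) (Q a w) =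
      fun k => T s (core kk Q i0 iR k) (Q l2 w) := fun b1 b2 b3 w =>
    funext fun k => h.blockV b1 b2 b3 k w
  have h1 : InSpan (T s) (core kk Q i0 iR) (insert (Q a p) (Set.range (Q l1))) (Q b q) := by
    refine ⟨-x0, ?_⟩
    rintro _ (rfl | ⟨w, rfl⟩)
    · rw [y1 (h.h1.trans a3) (a4.trans a5) h.h4, neg_dotProduct, ← hx0, h.fam.skew s,
        h.blockU a4 a5]
    · rw [y1 h.h1 (h.h2.trans h.h3) h.h4, neg_dotProduct, ← hx0, h.fam.skew s,
        h.blockU (a3.trans a4) a5]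
  obtain ⟨x, hx⟩ := (h.fam.same s r).inSpan h1
  have h2 := hx _ (Set.mem_insert_of_mem _ ⟨p, rfl⟩)
  have h3 := hx _ (Set.mem_insert _ _)
  have h4 : yv (T r) (core kk Q i0 iR) (Q a p) =
      c • fun k => T s (core kk Q i0 iR k) (Q l2 p) := by
    funext k
    have := hc (inl k)
    simp only [Sum.elim_inl] at this
    simp only [yv, Pi.smul_apply, smul_eq_mul]
    rw [h.fam.skew r, this, h.fam.skew s (core kk Q i0 iR k)]
    ring
  have h5 := hc' (inr p)
  simp only [Sum.elim_inr] at h5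
  rw [y1 h.h1 (h.h2.trans a1) a2] at h2
  rw [h4, dotProduct_smul, ← h2, h5, smul_eq_mul] at h3
  rw [h.fam.skew r, h3, h.fam.skew s (Q l1 p)]
  ring

/-- the normalising factor of the petal `a` in the representation `r` -/
def wt {J : Type} [LinearOrder J] (s : J) (ce cg : P → Fˣ) (r a : J) (p : P) : Fˣ :=
  if a < s then (if a = r then ce p else if r < a then cg p else 1) else 1

omit [Fintype K] [Fintype P] in
theorem Hm.exists_wt (h : Hm col T kk Q i0 l1 l2 s iR hs) {e1 e2 : I} (b1 : l2 < e1)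
    (b2 : e1 < e2) (b3 : e2 < s) : ∃ ce cg : P → Fˣ, ∀ r a, l2 < r → r < iR → l1 < a → a < s →
      ∀ p (w : (K ⊕ P ⊕ P) ⊕ P), T r (Q a p) (Sum.elim (core kk Q i0 iR) (Q l1) w) =
        wt s ce cg r a p * T s (Q l2 p) (Sum.elim (core kk Q i0 iR) (Q l1) w) := by
  have b4 : e1 < iR := b2.trans (b3.trans h.h4)
  have b5 : l1 < e1 := h.h2.trans b1
  choose ce hce using h.norm b1 b4 b5 (b2.trans b3)
  choose cg hcg using h.norm b1 b4 (b5.trans b2) b3
  refine ⟨ce, cg, fun r a a1 a2 a3 a4 p w => ?_⟩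
  unfold wt
  rw [if_pos a4]
  split_ifs with c1 c2
  · subst c1
    rw [h.row_own a3 a2 b5 b4, hce]
  · rw [h.row_right (h.h2.trans a1) c2 (a4.trans h.h4) b5 b2 (b3.trans h.h4), hcg]
  · rw [h.row_left a3 (lt_of_le_of_ne (not_lt.1 c2) c1) a2, Units.val_one, one_mul]

end HOM

open HOM in
theorem hom {F : Type} [Field F] [Fintype F] : HOM F := by
  classical
  intro K P _ _ n
  obtain ⟨N, hN⟩ := ramsey3 ((K ⊕ Option Bool × P → Bool) ×
    (Option Bool → K ⊕ Option Bool × P → K ⊕ Option Bool × P → F)) (n + 8)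
  refine ⟨N, fun E _ col S kk pp hf hi => ?_⟩
  obtain ⟨G, hG⟩ := hN (clr col S kk pp)
  let i0 : Fin (n + 8) := ⟨0, by omega⟩
  let l1 : Fin (n + 8) := ⟨1, by omega⟩
  let l2 : Fin (n + 8) := ⟨2, by omega⟩
  let e1 : Fin (n + 8) := ⟨3, by omega⟩
  let e2 : Fin (n + 8) := ⟨4, by omega⟩
  let s : Fin (n + 8) := ⟨n + 5, by omega⟩
  let iR : Fin (n + 8) := ⟨n + 6, by omega⟩
  let hs : Fin (n + 8) := ⟨n + 7, by omega⟩
  let g0 : Fin (n + 1) ↪o Fin (n + 8) := OrderEmbedding.ofStrictMono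
    (fun i => ⟨i.val + 5, by omega⟩) fun i j hij => by
      simp only [Fin.lt_def] at hij ⊢; omega
  have hg : ∀ i, (g0 i).val = i.val + 5 := fun _ => rfl
  have hlast : g0 (Fin.last n) = s := rfl
  have H : Hm col (fun i => S (G i)) kk (fun i => pp (G i)) i0 l1 l2 s iR hs := by
    refine ⟨hf.reindex G, fun i j k i' j' k' a1 a2 a3 a4 => ?_, ?_, ?_, ?_, ?_, ?_⟩
    · have e : ∀ i j k, clr col (fun i => S (G i)) kk (fun i => pp (G i)) i j k =
          clr col S kk pp (G i) (G j) (G k) := by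
        intro i j k
        have e1 : ∀ r, G (tri i j k r) = tri (G i) (G j) (G k) r := by
          rintro (_ | _ | _) <;> rfl
        have e2 : em kk (fun i => pp (G i)) i j k = em kk pp (G i) (G j) (G k) := by
          funext x
          rcases x with x | x
          · rfl
          · exact congrArg (fun z => pp z x.2) (e1 x.1)
        simp only [clr, e1, e2]
      rw [e, e]
      exact hG i j k i' j' k' a1 a2 a3 a4
    all_goals simp only [Fin.lt_def, i0, l1, l2, s, iR, hs]; omega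
  obtain ⟨ce, cg, hw⟩ := H.exists_wt (e1 := e1) (e2 := e2) (by simp [Fin.lt_def, l2, e1])
    (by simp [Fin.lt_def, e2, e1]) (by simp [Fin.lt_def, e2, s])
  have g1 : ∀ i, l2 < g0 i := fun i => by rw [Fin.lt_def, hg]; simp [l2]
  have g2 : ∀ i, g0 i < iR := fun i => by rw [Fin.lt_def, hg]; have := i.2; simp only [iR]; omega
  have g3 : ∀ j : Fin n, g0 j.castSucc < s := fun j => by
    rw [Fin.lt_def, hg]; have := j.2; simp only [s, Fin.val_castSucc]; omega
  have g4 : ∀ i, l1 < g0 i := fun i => H.h2.trans (g1 i)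
  have g5 : ∀ i, i0 < g0 i := fun i => H.h1.trans (g4 i)
  let c : Fin (n + 1) → E → Fˣ := fun i => Function.extend (emb kk pp)
    (Sum.elim 1 fun x => (wt (G s) ce cg (G (g0 i)) x.1 x.2)⁻¹) 1
  have c1 : ∀ i k, c i (kk k) = 1 := fun i k => hi.extend_apply _ _ (inl k)
  have c2 : ∀ i a p, c i (pp (G a) p) = (wt s ce cg (g0 i) a p)⁻¹ := by
    intro i a p
    refine (hi.extend_apply _ _ (inr (G a, p))).trans ?_
    simp only [Sum.elim_inr, wt, G.lt_iff_lt, G.eq_iff_eq]
  have c3 : ∀ i k, c i (core kk (fun i => pp (G i)) i0 iR k) = 1 := by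
    rintro i (k | p | p)
    · exact c1 i k
    · refine (c2 i i0 p).trans ?_
      unfold wt
      rw [if_neg (g5 i).ne, if_neg (not_lt_of_gt (g5 i)), ite_self, inv_one]
    · refine (c2 i iR p).trans ?_
      unfold wt
      rw [if_neg (not_lt_of_gt H.h4), inv_one]
  refine ⟨dat col (fun i => S (G i)) kk (fun i => pp (G i)) i0 l1 l2 s iR
    (Matrix.of fun p q => ((ce p)⁻¹ : Fˣ) * ((ce q)⁻¹ : Fˣ) * S (G e1) (pp (G e1) p) (pp (G e1) q)),
    g0.trans G, G i0, G iR, c, fun i => G.strictMono (g5 i), fun i => G.strictMono (g2 i), c3, ?_,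
    H.ref _, ?_⟩
  · funext e
    by_cases he : ∃ x, emb kk pp x = e
    · obtain ⟨x, rfl⟩ := he
      refine (hi.extend_apply _ _ x).trans ?_
      rcases x with k | ⟨a, p⟩
      · rfl
      · simp only [Sum.elim_inr, wt, hlast, Pi.one_apply, inv_eq_one]
        split_ifs with d1 d2 d3
        · exact absurd d1 (d2 ▸ lt_irrefl _)
        · exact absurd d1 (not_lt_of_gt d3)
        · rfl
        · rfl
    · exact Function.extend_apply' _ _ _ he
  refine IsChain.of_entries ?_ (fun _ => rfl) (fun j p => H.col_eq (g5 _) (g2 _) p)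
    (fun i => (hf.scale fun _ => c i).skew _) (fun i k k' => ?_) (fun i k j q => ?_)
    (fun i j j' hj p q => ?_) (fun i j hj p q => ?_) fun j p q => ?_
  · let φ : (K ⊕ P ⊕ P) ⊕ Fin n × P → K ⊕ Fin N × P :=
      Sum.elim (Sum.elim inl (Sum.elim (fun p => inr (G i0, p)) fun p => inr (G iR, p)))
        fun x => inr (G (g0 x.1.castSucc), x.2)
    have hφ : Function.Injective φ := by
      have n1 : i0 ≠ iR := (H.h1.trans (H.h2.trans (H.h3.trans H.h4))).ne
      have n2 : ∀ i, i0 ≠ g0 i := fun i => (g5 i).ne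
      have n3 : ∀ i, iR ≠ g0 i := fun i => (g2 i).ne'
      rintro ((k | p | p) | ⟨j, p⟩) ((k' | p' | p') | ⟨j', p'⟩) e <;>
        simp_all [φ, n1.symm, fun i => (n2 i).symm, fun i => (n3 i).symm]
    intro x y hxy
    refine hi.comp hφ (a₁ := x) (a₂ := y) (Eq.trans ?_ (hxy.trans ?_))
    · rcases x with (k | p | p) | x <;> rfl
    · rcases y with (k | p | p) | y <;> rfl
  · change (c i (core kk (fun i => pp (G i)) i0 iR k) : F) *
      (c i (core kk (fun i => pp (G i)) i0 iR k') : F) * _ = _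
    rw [c3, c3, Units.val_one, one_mul, one_mul]
    exact H.blockD (g5 i) (g2 i) k k'
  · change (c i (core kk (fun i => pp (G i)) i0 iR k) : F) * (c i (pp (G (g0 j.castSucc)) q) : F) *
      S (G (g0 i)) (core kk (fun i => pp (G i)) i0 iR k) (pp (G (g0 j.castSucc)) q) =
      S (G s) (core kk (fun i => pp (G i)) i0 iR k) (pp (G l2) q)
    have := hw _ _ (g1 i) (g2 i) (g4 j.castSucc) (g3 j) q (inl k)
    simp only [Sum.elim_inl] at this
    rw [c3, c2, hf.skew, this, hf.skew (G s) (core kk (fun i => pp (G i)) i0 iR k)]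
    simp
  · change (c i (pp (G (g0 j.castSucc)) p) : F) * (c i (pp (G (g0 j'.castSucc)) q) : F) *
      S (G (g0 i)) (pp (G (g0 j.castSucc)) p) (pp (G (g0 j'.castSucc)) q) =
      S (G s) (pp (G l1) p) (pp (G l2) q)
    have := H.cross (g1 i) (g2 i) (g4 j.castSucc)
      (g0.strictMono (Fin.castSucc_lt_castSucc_iff.2 hj)) (g3 j')
      (hw _ _ (g1 i) (g2 i) (g4 j.castSucc) (g3 j) p)
      (hw _ _ (g1 i) (g2 i) (g4 j'.castSucc) (g3 j') q)
    rw [c2, c2, this]
    simp only [Units.val_inv_eq_inv_val]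
    field_simp
  · change (c i (pp (G (g0 j.castSucc)) p) : F) * (c i (pp (G (g0 j.castSucc)) q) : F) *
      S (G (g0 i)) (pp (G (g0 j.castSucc)) p) (pp (G (g0 j.castSucc)) q) =
      S (G s) (pp (G l2) p) (pp (G l2) q)
    have hl : g0 j.castSucc < g0 i := g0.strictMono hj
    have e : ∀ p, wt s ce cg (g0 i) (g0 j.castSucc) p = 1 := fun p => by
      unfold wt
      rw [if_neg hl.ne, if_neg (not_lt_of_gt hl), ite_self]
    rw [c2, c2, e, e, inv_one, Units.val_one, one_mul, one_mul]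
    exact H.blockA (g5 _) hl p q
  · change (c j.castSucc (pp (G (g0 j.castSucc)) p) : F) *
      (c j.castSucc (pp (G (g0 j.castSucc)) q) : F) *
      S (G (g0 j.castSucc)) (pp (G (g0 j.castSucc)) p) (pp (G (g0 j.castSucc)) q) =
      ((ce p)⁻¹ : Fˣ) * ((ce q)⁻¹ : Fˣ) * S (G e1) (pp (G e1) p) (pp (G e1) q)
    have e : ∀ p, wt s ce cg (g0 j.castSucc) (g0 j.castSucc) p = ce p := fun p => by
      unfold wt
      rw [if_pos (g3 j), if_pos rfl]
    rw [c2, c2, e, e]
    exact congrArg _ (H.blockO (g5 _) (g2 _) (by simp [Fin.lt_def, i0, e1])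
      (by simp [Fin.lt_def, iR, e1]) p q)

end Pool.Agent.MP_d99b12_co.H25
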