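import Pool.Agent.MP_d99b12_co.H25.Spec
import Pool.Agent.MP_d99b12_co.H25.ChainB

/-! # Harmless pivots of the pair are realised by chains -/

namespace Pool.Agent.MP_d99b12_co.H25

open Matrix Sum

namespace HP

variable {F : Type} [Field F] {E K P I ι : Type}

open Classical in
/-- How a pivot on the edge `x, y` of a petal with diagonal block `A` acts on outside rows that
do not see `y`. -/
noncomputable def T (A : Matrix P P F) (x y : P) : Matrix P P F := Matrix.of fun v q =>
  if v = x then 0 else if v = y then (if q = x then (A y x)⁻¹ else 0)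
  else (if q = v then 1 else 0) - (if q = x then A y v / A y x else 0)

section T

variable [Fintype P] (A : Matrix P P F) {x y v : P}

lemma T_mul_x (M : Matrix P I F) (a : I) : (T A x y * M) x a = 0 := by
  simp [T, Matrix.mul_apply]

lemma T_mul_y (h : x ≠ y) (M : Matrix P I F) (a : I) : (T A x y * M) y a = M x a / A y x := by
  classical
  simp [T, Matrix.mul_apply, h.symm, div_eq_inv_mul]

lemma T_mul_v (h1 : v ≠ x) (h2 : v ≠ y) (M : Matrix P I F) (a : I) :
    (T A x y * M) v a = M v a - M x a * A y v / A y x := by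
  classical
  simp only [T, Matrix.mul_apply, Matrix.of_apply, if_neg h1, if_neg h2, sub_mul,
    Finset.sum_sub_distrib, ite_mul, one_mul, zero_mul, Finset.sum_ite_eq', Finset.mem_univ,
    if_true]
  ring

lemma mul_T_eq (M : Matrix I P F) (a : I) (v : P) :
    (M * (T A x y)ᵀ) a v = (T A x y * Mᵀ) v a := by
  simp only [Matrix.mul_apply, Matrix.transpose_apply, mul_comm]

lemma mul_T_x (M : Matrix I P F) (a : I) : (M * (T A x y)ᵀ) a x = 0 := by
  rw [mul_T_eq, T_mul_x]

lemma mul_T_y (h : x ≠ y) (M : Matrix I P F) (a : I) :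
    (M * (T A x y)ᵀ) a y = M a x / A y x := by
  rw [mul_T_eq, T_mul_y _ h]; rfl

lemma mul_T_v (h1 : v ≠ x) (h2 : v ≠ y) (M : Matrix I P F) (a : I) :
    (M * (T A x y)ᵀ) a v = M a v - M a x * A y v / A y x := by
  rw [mul_T_eq, T_mul_v _ h1 h2]; rfl

end T

section One

variable {S : Matrix E E F} {f : P → E} {x y : P}

lemma epiv_out (hs : Skew S) {a b u v : E} (h1 : u ≠ a) (h2 : u ≠ b) (h3 : v ≠ a) (h4 : v ≠ b)
    (hu : S u b = 0) (hv : S v b = 0) : epiv S a b u v = S u v := by
  rw [epiv_uv S h1 h2 h3 h4, hu, hs b v, hv]; simp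

lemma epiv_sub (hf : Function.Injective f) (hxy : x ≠ y) :
    (epiv S (f x) (f y)).submatrix f f = epiv (S.submatrix f f) x y := by
  ext u v
  have e : ∀ a b, f a = f b ↔ a = b := fun a b => hf.eq_iff
  by_cases h1 : u = x <;> by_cases h2 : u = y <;> by_cases h3 : v = x <;> by_cases h4 : v = y <;>
    simp [epiv, e, h1, h2, h3, h4, hxy.symm]

lemma epiv_cross [Fintype P] (hf : Function.Injective f) (hxy : x ≠ y) {g : I → E}
    (hg : ∀ a p, g a ≠ f p) (h0 : ∀ a, S (g a) (f y) = 0) :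
    (epiv S (f x) (f y)).submatrix g f = S.submatrix g f * (T (S.submatrix f f) x y)ᵀ := by
  ext a v
  have hxy' : f x ≠ f y := fun e => hxy (hf e)
  by_cases h1 : v = x
  · subst h1
    rw [mul_T_x, Matrix.submatrix_apply, epiv_ux S (hg a _) (hg a _), h0, zero_div]
  by_cases h2 : v = y
  · subst h2
    rw [mul_T_y _ hxy, Matrix.submatrix_apply, epiv_uy S hxy' (hg a _) (hg a _)]; rfl
  rw [mul_T_v _ h1 h2, Matrix.submatrix_apply,
    epiv_uv S (hg a _) (hg a _) (fun e => h1 (hf e)) (fun e => h2 (hf e)), h0]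
  simp

lemma sub_skew (hs : Skew S) {J : Type} (g : I → E) (g' : J → E) :
    S.submatrix g g' = -(S.submatrix g' g)ᵀ := by
  ext a b
  simp only [Matrix.submatrix_apply, Matrix.neg_apply, Matrix.transpose_apply]
  exact hs _ _

end One

section All

variable [Fintype E] [Fintype P] {n m : ℕ}

open Classical in
/-- The transformation of petal `j` once the petals in `J` have been pivoted. -/
noncomputable def TJ (S : Matrix E E F) (pp : Fin n → P → E) (x y : P) (J : Finset (Fin n))
    (j : Fin n) : Matrix P P F :=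
  if j ∈ J then T (S.submatrix (pp j) (pp j)) x y else 1

/-- The family `S'` comes from `S` by pivoting the edges `x, y` of the petals in `J`. -/
structure Done (m : ℕ) (col : E → Bool) (S : ι → Matrix E E F) (kk : K → E) (pp : Fin n → P → E)
    (x y : P) (J : Finset (Fin n)) (col' : E → Bool) (S' : ι → Matrix E E F) : Prop where
  fam : Fam col' S'
  conn : ∀ i, Conn m (S' i)
  colK : ∀ k, col' (kk k) = col (kk k)
  colIn : ∀ j ∈ J, ∀ p, col' (pp j p) = colFlip (col ∘ pp j) {x, y} p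
  colOut : ∀ j, j ∉ J → ∀ p, col' (pp j p) = col (pp j p)
  kk_kk : ∀ i, (S' i).submatrix kk kk = (S i).submatrix kk kk
  kk_pp : ∀ i j, (S' i).submatrix kk (pp j) =
    (S i).submatrix kk (pp j) * (TJ (S i) pp x y J j)ᵀ
  pp_pp : ∀ i j j', j ≠ j' → (S' i).submatrix (pp j) (pp j') =
    TJ (S i) pp x y J j * (S i).submatrix (pp j) (pp j') * (TJ (S i) pp x y J j')ᵀ
  ownIn : ∀ i, ∀ j ∈ J, (S' i).submatrix (pp j) (pp j) =
    epiv ((S i).submatrix (pp j) (pp j)) x y
  ownOut : ∀ i j, j ∉ J → (S' i).submatrix (pp j) (pp j) = (S i).submatrix (pp j) (pp j)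

lemma pivot_all {col : E → Bool} {S : ι → Matrix E E F} {kk : K → E} {pp : Fin n → P → E}
    {x y : P} (hf : Fam col S) (hc : ∀ i, Conn m (S i)) (hkp : ∀ k j p, kk k ≠ pp j p)
    (hpp : ∀ j j' p q, pp j p = pp j' q → j = j' ∧ p = q) (hxy : x ≠ y)
    (h1 : ∀ i j, S i (pp j x) (pp j y) ≠ 0) (h2 : ∀ i k j, S i (kk k) (pp j y) = 0)
    (h3 : ∀ i j j' p, j ≠ j' → S i (pp j p) (pp j' y) = 0) (J : Finset (Fin n)) :
    ∃ col' S', Done m col S kk pp x y J col' S' := by
  classical
  induction J using Finset.induction_on with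
  | empty =>
    refine ⟨col, S, hf, hc, fun _ => rfl, by simp, fun _ _ _ => rfl, fun _ => rfl, ?_, ?_,
      by simp, fun _ _ _ => rfl⟩
    · intro i j; simp [TJ]
    · intro i j j' _; simp [TJ]
  | insert t J ht ih =>
    obtain ⟨col', S', h⟩ := ih
    have hinj : ∀ j, Function.Injective (pp j) := fun j p q e => (hpp _ _ _ _ e).2
    have hne : ∀ {j j'}, j ≠ j' → ∀ p q, pp j p ≠ pp j' q := fun hj p q e => hj (hpp _ _ _ _ e).1
    have own : ∀ i, (S' i).submatrix (pp t) (pp t) = (S i).submatrix (pp t) (pp t) :=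
      fun i => h.ownOut i t ht
    have e1 : ∀ i, S' i (pp t x) (pp t y) ≠ 0 := fun i => by
      have := congrFun (congrFun (own i) x) y
      simp only [Matrix.submatrix_apply] at this
      rw [this]; exact h1 i t
    have Tt : ∀ i, TJ (S i) pp x y J t = 1 := fun i => by simp [TJ, ht]
    have Tt' : ∀ i, TJ (S i) pp x y (insert t J) t = T ((S i).submatrix (pp t) (pp t)) x y :=
      fun i => by simp [TJ]
    have Tj : ∀ i j, j ≠ t → TJ (S i) pp x y (insert t J) j = TJ (S i) pp x y J j :=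
      fun i j hj => by simp [TJ, hj]
    have e2 : ∀ i k, S' i (kk k) (pp t y) = 0 := fun i k => by
      have := congrFun (congrFun (h.kk_pp i t) k) y
      rw [Tt, Matrix.transpose_one, Matrix.mul_one] at this
      simp only [Matrix.submatrix_apply] at this
      rw [this]; exact h2 i k t
    have e3 : ∀ i j p, j ≠ t → S' i (pp j p) (pp t y) = 0 := fun i j p hj => by
      have := congrFun (congrFun (h.pp_pp i j t hj) p) y
      rw [Tt, Matrix.transpose_one, Matrix.mul_one] at this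
      simp only [Matrix.submatrix_apply, Matrix.mul_apply, h3 i j t _ hj, mul_zero,
        Finset.sum_const_zero] at this
      exact this
    have hf' := h.fam.epiv e1
    have cross : ∀ i j, j ≠ t → (epiv (S' i) (pp t x) (pp t y)).submatrix (pp j) (pp t) =
        TJ (S i) pp x y (insert t J) j * (S i).submatrix (pp j) (pp t) *
          (TJ (S i) pp x y (insert t J) t)ᵀ := fun i j hj => by
      rw [epiv_cross (hinj t) hxy (hne hj) (fun p => e3 i j p hj), h.pp_pp i j t hj, own, Tt, Tt',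
        Tj i j hj, Matrix.transpose_one, Matrix.mul_one]
    refine ⟨_, _, hf', fun i => ?_, fun k => ?_, fun j hj p => ?_, fun j hj p => ?_, fun i => ?_,
      fun i j => ?_, fun i j j' hj => ?_, fun i j hj => ?_, fun i j hj => ?_⟩
    · exact (epiv_isPiv (h.fam.diag i _) (h.fam.diag i _) (e1 i)
        (fun e => e1 i ((h.fam.zero_comm i _ _).1 e))).conn (h.conn i)
    · rw [colFlip_of_notMem _ (by simp [hkp]), h.colK]
    · by_cases hjt : j = t
      · subst hjt
        by_cases hp : p ∈ ({x, y} : Set P)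
        · rw [colFlip_of_mem _ hp, colFlip_of_mem, h.colOut j ht]
          · rfl
          · rcases hp with rfl | rfl <;> simp
        · rw [colFlip_of_notMem _ hp, colFlip_of_notMem, h.colOut j ht]
          · rfl
          · rintro (e | e)
            · exact hp (Or.inl (hinj j e))
            · exact hp (Or.inr (hinj j e))
      · rw [colFlip_of_notMem _ (by simp [hne hjt]), h.colIn j (by simpa [hjt] using hj)]
    · have hjt : j ≠ t := fun e => hj (by simp [e])
      rw [colFlip_of_notMem _ (by simp [hne hjt]), h.colOut j fun e => hj (by simp [e])]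
    · rw [← h.kk_kk]
      ext k k'
      exact epiv_out (h.fam.skew i) (hkp _ _ _) (hkp _ _ _) (hkp _ _ _) (hkp _ _ _) (e2 i k)
        (e2 i k')
    · by_cases hjt : j = t
      · subst hjt
        rw [epiv_cross (hinj j) hxy (fun k p => hkp k j p) (e2 i), h.kk_pp, own, Tt, Tt',
          Matrix.transpose_one, Matrix.mul_one]
      · rw [Tj i j hjt, ← h.kk_pp]
        ext k p
        exact epiv_out (h.fam.skew i) (hkp _ _ _) (hkp _ _ _) (hne hjt _ _) (hne hjt _ _) (e2 i k)
          (e3 i j p hjt)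
    · by_cases hjt : j = t
      · subst hjt
        rw [sub_skew (hf'.skew i), cross i j' hj.symm, sub_skew (hf.skew i) (pp j) (pp j')]
        simp only [Matrix.transpose_mul, Matrix.transpose_transpose, Matrix.mul_neg,
          Matrix.neg_mul, Matrix.mul_assoc]
      by_cases hjt' : j' = t
      · subst hjt'
        exact cross i j hj
      rw [Tj i j hjt, Tj i j' hjt', ← h.pp_pp i j j' hj]
      ext p q
      exact epiv_out (h.fam.skew i) (hne hjt _ _) (hne hjt _ _) (hne hjt' _ _) (hne hjt' _ _)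
        (e3 i j p hjt) (e3 i j' q hjt')
    · by_cases hjt : j = t
      · subst hjt
        rw [epiv_sub (hinj j) hxy, own]
      · rw [← h.ownIn i j (by simpa [hjt] using hj)]
        ext p q
        exact epiv_out (h.fam.skew i) (hne hjt _ _) (hne hjt _ _) (hne hjt _ _) (hne hjt _ _)
          (e3 i j p hjt) (e3 i j q hjt)
    · have hjt : j ≠ t := fun e => hj (by simp [e])
      rw [← h.ownOut i j fun e => hj (by simp [e])]
      ext p q
      exact epiv_out (h.fam.skew i) (hne hjt _ _) (hne hjt _ _) (hne hjt _ _) (hne hjt _ _)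
        (e3 i j p hjt) (e3 i j q hjt)

end All

section Step

variable [Fintype K] [Fintype P] {d : Datum F K P} {x y : P}

/-- After the pivot the columns of a petal with diagonal block `A'` are parallel to those of a
normal petal. -/
def Good (d : Datum F K P) (x y : P) (A' : Matrix P P F) : Prop :=
  ∀ v, ∃ c : Fˣ, ∀ k, (d.V * (T A' x y)ᵀ) k v = c * (d.V * (T d.A x y)ᵀ) k v

/-- The defining property of the normalising factor. -/
def IsFac (d : Datum F K P) (x y : P) (A' : Matrix P P F) (v : P) (c : Fˣ) : Prop :=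
  (∀ k, (d.V * (T A' x y)ᵀ) k v = c * (d.V * (T d.A x y)ᵀ) k v) ∧
    ((∀ k, (d.V * (T d.A x y)ᵀ) k v = 0) → c = 1)

open Classical in
noncomputable def fac (d : Datum F K P) (x y : P) (A' : Matrix P P F) (v : P) : Fˣ :=
  if h : ∃ c, IsFac d x y A' v c then h.choose else 1

lemma Good.isFac {A' : Matrix P P F} (h : Good d x y A') (v : P) :
    IsFac d x y A' v (fac d x y A' v) := by
  have : ∃ c, IsFac d x y A' v c := by
    obtain ⟨c, hc⟩ := h v
    by_cases h0 : ∀ k, (d.V * (T d.A x y)ᵀ) k v = 0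
    · exact ⟨1, fun k => by rw [hc, h0]; simp, fun _ => rfl⟩
    · exact ⟨c, hc, fun h1 => absurd h1 h0⟩
  rw [fac, dif_pos this]
  exact this.choose_spec

lemma fac_A (v : P) : fac d x y d.A v = 1 := by
  have hg : Good d x y d.A := fun v => ⟨1, fun k => by simp⟩
  obtain ⟨h1, h2⟩ := hg.isFac v
  by_cases h0 : ∀ k, (d.V * (T d.A x y)ᵀ) k v = 0
  · exact h2 h0
  · obtain ⟨k, hk⟩ := not_forall.1 h0
    have h3 := h1 k
    apply Units.ext
    rw [Units.val_one]
    exact (mul_right_cancel₀ hk (by rw [← h3, one_mul])).symm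

omit [Fintype P] in
lemma Ref.fac1 (hr : d.Ref) : ∃ X : Matrix P K F, d.U = X * d.V := by
  choose X hX using hr.1
  exact ⟨Matrix.of X, by ext p q; rw [hX]; rfl⟩

omit [Fintype P] in
lemma Ref.fac2 (hr : d.Ref) : ∃ X : Matrix K P F, d.U = d.Vᵀ * X := by
  choose X hX using hr.2
  refine ⟨(Matrix.of X)ᵀ, ?_⟩
  ext q p
  rw [hX, dotProduct_comm]; rfl

lemma U_good (hr : d.Ref) {A1 A2 : Matrix P P F} (h1 : Good d x y A1) (h2 : Good d x y A2)
    (p q : P) : (T A1 x y * d.U * (T A2 x y)ᵀ) p q =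
      fac d x y A1 p * fac d x y A2 q * (T d.A x y * d.U * (T d.A x y)ᵀ) p q := by
  obtain ⟨X, hX⟩ := Ref.fac1 hr
  obtain ⟨Y, hY⟩ := Ref.fac2 hr
  have a1 : ∀ (R : Matrix P P F) p q, (R * d.U * (T A2 x y)ᵀ) p q =
      fac d x y A2 q * (R * d.U * (T d.A x y)ᵀ) p q := by
    intro R p q
    rw [hX, ← Matrix.mul_assoc, Matrix.mul_assoc (R * X), Matrix.mul_assoc (R * X),
      Matrix.mul_apply, Matrix.mul_apply, Finset.mul_sum]
    refine Finset.sum_congr rfl fun k _ => ?_
    rw [(h2.isFac q).1]; ring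
  have a2 : ∀ (R : Matrix P P F) p q, (T A1 x y * d.U * R) p q =
      fac d x y A1 p * (T d.A x y * d.U * R) p q := by
    intro R p q
    have e : ∀ A', T A' x y * d.U * R = (d.V * (T A' x y)ᵀ)ᵀ * (Y * R) := fun A' => by
      rw [hY, Matrix.transpose_mul, Matrix.transpose_transpose]
      simp only [Matrix.mul_assoc]
    rw [e, e, Matrix.mul_apply, Matrix.mul_apply, Finset.mul_sum]
    refine Finset.sum_congr rfl fun k _ => ?_
    rw [Matrix.transpose_apply, Matrix.transpose_apply, (h1.isFac p).1]; ring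
  rw [a1, a2]; ring

/-- The datum after the pivot. -/
noncomputable def stepD (d : Datum F K P) (x y : P) : Datum F K P :=
  ⟨d.colK, colFlip d.colP {x, y}, d.D, d.V * (T d.A x y)ᵀ, epiv d.A x y,
    T d.A x y * d.U * (T d.A x y)ᵀ, scale (fac d x y d.As)⁻¹ (epiv d.As x y)⟩

lemma stepD_ref (hr : d.Ref) : (stepD d x y).Ref := by
  obtain ⟨X, hX⟩ := Ref.fac1 hr
  obtain ⟨Y, hY⟩ := Ref.fac2 hr
  refine ⟨fun p => ⟨(T d.A x y * X) p, fun q => ?_⟩,
    fun p => ⟨fun k => (Y * (T d.A x y)ᵀ) k p, fun q => ?_⟩⟩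
  · have : (stepD d x y).U = (T d.A x y * X) * (stepD d x y).V := by
      simp only [stepD]
      rw [hX]; simp only [Matrix.mul_assoc]
    rw [this]; rfl
  · have : (stepD d x y).U = (stepD d x y).Vᵀ * (Y * (T d.A x y)ᵀ) := by
      simp only [stepD]
      rw [hY, Matrix.transpose_mul, Matrix.transpose_transpose]; simp only [Matrix.mul_assoc]
    rw [this, dotProduct_comm]; rfl

omit [Fintype P] in
lemma U_col_y (hr : d.Ref) (hy : ∀ k, d.V k y = 0) (p : P) : d.U p y = 0 := by
  obtain ⟨X, hX⟩ := Ref.fac1 hr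
  simp [hX, Matrix.mul_apply, hy]

omit [Fintype P] in
lemma U_row_y (hr : d.Ref) (hy : ∀ k, d.V k y = 0) (p : P) : d.U y p = 0 := by
  obtain ⟨X, hX⟩ := Ref.fac2 hr
  simp [hX, Matrix.mul_apply, hy]

lemma stepD_B (ha : d.Alg) (hr : d.Ref) (hxy : d.A x y ≠ 0) (hy : ∀ k, d.V k y = 0) :
    (stepD d x y).B = epiv d.B x y := by
  have hs := ha.skewA.1
  have u1 := U_col_y hr hy
  have u2 := U_row_y hr hy
  have uxx : d.U x x = 0 := ha.U_col rfl
  have hne : x ≠ y := by
    rintro rfl
    exact hxy (ha.fam_pair.diag false (inr x))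
  have hyx : d.A y x = -d.A x y := hs y x
  ext u v
  have hB : ∀ a b, d.B a b = d.A a b + d.U b a := fun a b => rfl
  have e : (stepD d x y).B u v = epiv d.A x y u v + (T d.A x y * d.U * (T d.A x y)ᵀ) v u := rfl
  rw [e]
  by_cases h1 : u = x
  · subst h1
    rw [mul_T_x, add_zero]
    by_cases h3 : v = u
    · subst h3; rw [epiv_xx, epiv_xx]
    by_cases h4 : v = y
    · subst h4; rw [epiv_xy _ hne, epiv_xy _ hne, hB, u1, add_zero]
    rw [epiv_xv _ h3 h4, epiv_xv _ h3 h4, hB, hB, u1, u1, add_zero, add_zero]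
  by_cases h2 : u = y
  · subst h2
    rw [mul_T_y _ hne]
    by_cases h3 : v = x
    · subst h3; rw [T_mul_x, epiv_yx _ hne, epiv_yx _ hne, hB, u2]; simp
    by_cases h4 : v = u
    · subst h4; rw [T_mul_y _ hne, epiv_yy _ hne, epiv_yy _ hne, uxx]; simp
    rw [T_mul_v _ h3 h4, epiv_yv _ hne h3 h4, epiv_yv _ hne h3 h4, hB, hB, u2, uxx, hyx, add_zero]
    ring
  rw [mul_T_v _ h1 h2]
  by_cases h3 : v = x
  · subst h3
    rw [T_mul_x, T_mul_x, epiv_ux _ h1 h2, epiv_ux _ h1 h2, hB, hB, u2, u2]; simp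
  by_cases h4 : v = y
  · subst h4
    rw [T_mul_y _ hne, T_mul_y _ hne, epiv_uy _ hne h1 h2, epiv_uy _ hne h1 h2, hB, hB, u1, uxx]
    simp [add_div]
  rw [T_mul_v _ h3 h4, T_mul_v _ h3 h4, epiv_uv _ h1 h2 h3 h4, epiv_uv _ h1 h2 h3 h4]
  simp only [hB, u1, u2, uxx, add_zero]
  rw [hyx, hs y u]
  ring

lemma stepD_nconn (ha : d.Alg) (hr : d.Ref) (hxy : d.A x y ≠ 0) (hy : ∀ k, d.V k y = 0)
    (h : NConn d.B) : NConn (stepD d x y).B := by
  have hB : ∀ a b, d.B a b = d.A a b + d.U b a := fun a b => rfl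
  have hd : ∀ a, d.B a a = 0 := fun a => by
    have : d.A a a = 0 := ha.fam_pair.diag false (inr a)
    rw [hB, this, ha.U_col rfl, add_zero]
  rw [stepD_B ha hr hxy hy]
  refine NConn.epiv _ h (hd x) (hd y) ?_ ?_
  · rwa [hB, U_row_y hr hy, add_zero]
  · rw [hB, U_col_y hr hy, add_zero, ha.skewA.1 y x]
    exact neg_ne_zero.2 hxy

lemma ne_of_edge (ha : d.Alg) (hxy : d.A x y ≠ 0) : x ≠ y := by
  rintro rfl
  exact hxy (ha.fam_pair.diag false (inr x))

section Chain

variable [Fintype E] {n m : ℕ} {col col' : E → Bool} {S S' : Fin (n + 1) → Matrix E E F}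
  {kk : K → E} {pp : Fin n → P → E}

omit [Fintype K] [Fintype P] [Fintype E] in
lemma blk_left (h : IsChain d col S kk pp) {i : Fin (n + 1)} {j : Fin n} (hj : j.val < i.val) :
    (S i).submatrix (pp j) (pp j) = d.A := by
  ext p q; exact h.pp_left hj p q

omit [Fintype K] [Fintype P] [Fintype E] in
lemma blk_own (h : IsChain d col S kk pp) (j : Fin n) :
    (S j.castSucc).submatrix (pp j) (pp j) = d.As := by
  ext p q; exact h.pp_own j p q

lemma exists_done (hf : Fam col S) (hc : ∀ i, Conn m (S i)) (h : IsChain d col S kk pp)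
    (hr : d.Ref) (hne : x ≠ y) (hxy : d.A x y ≠ 0) (hy : ∀ k, d.V k y = 0) :
    ∃ col' S', Done m col S kk pp x y Finset.univ col' S' := by
  refine pivot_all hf hc h.kk_ne_pp (fun _ _ _ _ e => h.pp_inj e) hne (fun i j e => hxy ?_)
    (fun i k j => by rw [h.kk_pp, hy]) (fun i j j' p hj => ?_) _
  · rw [← h.pp_left (i := Fin.last n) j.isLt]
    exact (hf.zero_iff _ _ _ _).1 e
  · rcases lt_or_gt_of_ne hj with hj | hj
    · rw [h.pp_lt i hj, U_col_y hr hy]
    · rw [h.pp_gt i hj, U_row_y hr hy, neg_zero]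

omit [Fintype K] in
lemma Done.col_eq (hD : Done m col S kk pp x y Finset.univ col' S') (h : IsChain d col S kk pp)
    (i j k v) :
    S' i (kk k) (pp j v) = (d.V * (T ((S i).submatrix (pp j) (pp j)) x y)ᵀ) k v := by
  have e : (S i).submatrix kk (pp j) = d.V := by ext k q; exact h.kk_pp i k j q
  have := congrFun (congrFun (hD.kk_pp i j) k) v
  rw [e] at this
  simpa [TJ] using this

omit [Fintype K] in
lemma Done.good (hD : Done m col S kk pp x y Finset.univ col' S') (h : IsChain d col S kk pp)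
    {i : Fin (n + 1)} (hi : 0 < i.val) (j : Fin n) :
    Good d x y ((S i).submatrix (pp j) (pp j)) := by
  intro v
  let j0 : Fin n := ⟨0, j.pos⟩
  obtain ⟨c, hc⟩ := (hD.fam.same (Fin.last n) i).par_col (hD.fam.skew _) (hD.fam.skew _)
    (Y := Set.range kk) (u := pp j v) (v := pp j0 v) one_ne_zero (by
      rintro _ ⟨k, rfl⟩
      rw [hD.col_eq h, hD.col_eq h, blk_left h (i := Fin.last n) j.isLt,
        blk_left h (i := Fin.last n) j0.isLt, one_mul])
  refine ⟨c, fun k => ?_⟩
  have := hc _ ⟨k, rfl⟩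
  rwa [hD.col_eq h, hD.col_eq h, blk_left h (i := i) (j := j0) hi] at this

end Chain

lemma good_As {m : ℕ} (hd : Real m d) (hr : d.Ref) (hxy : d.A x y ≠ 0) (hy : ∀ k, d.V k y = 0) :
    Good d x y d.As := by
  obtain ⟨E, _, col, S, kk, pp, hf, hc, h⟩ := hd 2
  obtain ⟨col', S', hD⟩ := exists_done hf hc h hr (ne_of_edge hd.alg hxy) hxy hy
  rw [← blk_own h 1]
  exact hD.good h (by simp) 1

lemma stepD_real {m : ℕ} (hd : Real m d) (hr : d.Ref) (hxy : d.A x y ≠ 0)
    (hy : ∀ k, d.V k y = 0) : Real m (stepD d x y) := by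
  intro n
  obtain ⟨E, _, col, S, kk, pp, hf, hc, h⟩ := hd (n + 1)
  obtain ⟨col', S', hD⟩ := exists_done hf hc h hr (ne_of_edge hd.alg hxy) hxy hy
  let φ : Fin (n + 2) → Fin (n + 1) → P → Fˣ := fun i j p =>
    fac d x y ((S i).submatrix (pp j) (pp j)) p
  let c : Fin (n + 2) → E → Fˣ := fun i =>
    Function.extend (emb kk pp) (Sum.elim 1 fun z => (φ i z.1 z.2)⁻¹) 1
  have cK : ∀ i k, c i (kk k) = 1 := fun i k => h.inj.extend_apply _ _ (inl k)
  have cP : ∀ i j p, c i (pp j p) = (φ i j p)⁻¹ := fun i j p => h.inj.extend_apply _ _ (inr (j, p))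
  have hg : ∀ (i : Fin (n + 1)) j, Good d x y ((S i.succ).submatrix (pp j) (pp j)) :=
    fun i j => hD.good h (by simp) j
  have hF : Fam col' fun i : Fin (n + 1) => scale (c i.succ) (S' i.succ) :=
    (hD.fam.scale c).reindex Fin.succ
  refine ⟨E, inferInstance, col', fun i => scale (c i.succ) (S' i.succ), kk, fun j => pp j.succ,
    hF, fun i => (hD.conn _).scale _, IsChain.of_entries ?_ (fun k => ?_) (fun j p => ?_) hF.skew
      (fun i k k' => ?_) (fun i k j q => ?_) (fun i j j' hj p q => ?_) (fun i j hj p q => ?_)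
      (fun j p q => ?_)⟩
  · rintro (k | ⟨j, p⟩) (k' | ⟨j', p'⟩) e
    · rw [h.kk_inj e]
    · exact absurd e (h.kk_ne_pp _ _ _)
    · exact absurd e.symm (h.kk_ne_pp _ _ _)
    · obtain ⟨e1, e2⟩ := h.pp_inj e
      obtain rfl : j = j' := Fin.succ_injective _ e1
      obtain rfl : p = p' := e2
      rfl
  · rw [hD.colK, h.colK]; rfl
  · rw [hD.colIn _ (Finset.mem_univ _), show col ∘ pp j.succ = d.colP from funext (h.colP _)]
    rfl
  · have := congrFun (congrFun (hD.kk_kk i.succ) k) k'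
    simp only [Matrix.submatrix_apply] at this
    rw [scale_apply, cK, cK, this, h.kk_kk]
    simp [stepD]
  · rw [scale_apply, cK, cP, hD.col_eq h, ((hg i _).isFac q).1]
    simp [stepD, φ]
  · have hj' : j.succ < j'.succ := Fin.succ_lt_succ_iff.2 hj
    have e : (S i.succ).submatrix (pp j.succ) (pp j'.succ) = d.U := by
      ext p q; exact h.pp_lt _ hj' p q
    have := congrFun (congrFun (hD.pp_pp i.succ _ _ hj'.ne) p) q
    simp only [TJ, Finset.mem_univ, if_true] at this
    rw [e, U_good hr (hg i _) (hg i _), Matrix.submatrix_apply] at this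
    rw [scale_apply, cP, cP, this]
    simp only [stepD, φ, Units.val_inv_eq_inv_val]
    field_simp
  · have e : (S i.succ).submatrix (pp j.succ) (pp j.succ) = d.A := blk_left h (by simpa using hj)
    have := congrFun (congrFun (hD.ownIn i.succ j.succ (Finset.mem_univ _)) p) q
    rw [e, Matrix.submatrix_apply] at this
    rw [scale_apply, cP, cP, this]
    simp [stepD, φ, e, fac_A]
  · have e : (S j.castSucc.succ).submatrix (pp j.succ) (pp j.succ) = d.As := by
      rw [Fin.succ_castSucc]; exact blk_own h _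
    have := congrFun (congrFun (hD.ownIn j.castSucc.succ j.succ (Finset.mem_univ _)) p) q
    rw [e, Matrix.submatrix_apply] at this
    rw [scale_apply, cP, cP, this]
    simp only [φ, e]
    rfl

lemma epiv_pair (ha : d.Alg) (hne : x ≠ y) (hy : ∀ k, d.V k y = 0) (b : Bool)
    (hb : d.pair b (inr x) (inr y) ≠ 0) :
    epiv (d.pair b) (inr x) (inr y) = Matrix.fromBlocks d.D
      (d.V * (T (bif b then d.As else d.A) x y)ᵀ) (-(d.V * (T (bif b then d.As else d.A) x y)ᵀ)ᵀ)
      (epiv (bif b then d.As else d.A) x y) := by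
  have hs : Skew (d.pair b) := ha.fam_pair.skew b
  have hp := epiv_isPiv (ha.fam_pair.diag b (inr x)) (ha.fam_pair.diag b (inr y)) hb
    (fun e => hb ((ha.fam_pair.zero_comm b _ _).1 e))
  have hs' : Skew (epiv (d.pair b) (inr x) (inr y)) := hp.skew hs
  have c := epiv_cross (S := d.pair b) (f := inr) (g := inl) Sum.inr_injective hne
    (fun _ _ => Sum.inl_ne_inr) hy
  ext (k | p) (k' | q)
  · exact epiv_out hs Sum.inl_ne_inr Sum.inl_ne_inr Sum.inl_ne_inr Sum.inl_ne_inr (hy k) (hy k')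
  · exact congrFun (congrFun c k) q
  · rw [hs']
    exact congrArg Neg.neg (congrFun (congrFun c k') p)
  · exact congrFun (congrFun (epiv_sub (S := d.pair b) Sum.inr_injective hne) p) q

omit [Fintype K] in
lemma stepD_col : (stepD d x y).dsp.1 = colFlip d.dsp.1 {inr x, inr y} := by
  funext e
  rcases e with k | p
  · rw [colFlip_of_notMem _ (by simp)]; rfl
  · by_cases hp : p ∈ ({x, y} : Set P)
    · rw [colFlip_of_mem _ (by simpa using hp)]
      exact colFlip_of_mem _ hp
    · rw [colFlip_of_notMem _ (by simpa using hp)]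
      exact colFlip_of_notMem _ hp

lemma stepD_true (ha : d.Alg) (hne : x ≠ y) (hy : ∀ k, d.V k y = 0)
    (hb : d.pair true (inr x) (inr y) ≠ 0) (hg : Good d x y d.As) :
    (stepD d x y).pair true =
      scale (Sum.elim 1 (fac d x y d.As)⁻¹) (epiv (d.pair true) (inr x) (inr y)) := by
  rw [epiv_pair ha hne hy true hb]
  ext (k | p) (k' | q)
  · simp [Datum.pair, stepD]
  · simp [Datum.pair, stepD, (hg.isFac q).1]
  · simp [Datum.pair, stepD, -Matrix.transpose_mul, (hg.isFac p).1]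
  · rfl

end Step

lemma rank_eq [Fintype K] [Fintype P] {M M' : Matrix (K ⊕ P) (K ⊕ P) F} {Z : Set (K ⊕ P)}
    (h : IsPiv M M' Z) : (M'.submatrix inl inr).rank = (M.submatrix inl inr).rank := by
  have key : ∀ {M M' : Matrix (K ⊕ P) (K ⊕ P) F}, IsPiv M M' Z →
      (M'.submatrix inl inr).rank ≤ (M.submatrix inl inr).rank := by
    intro M M' h
    rw [rank_le_iff_rkLE, ← Set.compl_range_inl]
    apply h.rkLE_cut
    rw [Set.compl_range_inl, ← rank_le_iff_rkLE]
  exact le_antisymm (key h) (key h.symm)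

lemma epiv_scale [Fintype E] {S : Matrix E E F} {x y : E} (hx : S x x = 0) (hy : S y y = 0)
    (h1 : S x y ≠ 0) (h2 : S y x ≠ 0) (c : E → Fˣ) :
    ∃ c' : E → Fˣ, (∀ e, e ≠ x → e ≠ y → c' e = c e) ∧
      epiv (scale c S) x y = scale c' (epiv S x y) :=
  ⟨_, fun e e1 e2 => by simp [Set.piecewise, e1, e2],
    (epiv_isPiv (by simp [hx]) (by simp [hy]) (by simp [h1]) (by simp [h2])).unique
      ((epiv_isPiv hx hy h1 h2).scale c)⟩

end HP

variable {F : Type} [Field F] [Fintype F]

theorem hp (m : ℕ) : HP F m := by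
  intro K P _ _ d hd hr b hb
  have hf0 := hd.alg.fam_pair
  suffices h : ∃ (d' : Datum F K P) (c : K ⊕ P → Fˣ), Real m d' ∧ d'.Ref ∧
      (NConn d.B → NConn d'.B) ∧ (∀ k, c (inl k) = 1) ∧ d'.dsp.1 = b.1 ∧
      d'.pair false = b.2 false ∧ d'.pair true = scale c (b.2 true) by
    obtain ⟨d', c, h1, h2, h3, h4, h5, h6, h7⟩ := h
    obtain ⟨Z, -, -, hZ⟩ := hb.exists_piv hf0
    have := HP.rank_eq (hZ false)
    rw [← h6] at this
    exact ⟨d', c, h1, h2, this, h3, h4, h5, h6, h7⟩
  induction hb with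
  | refl => exact ⟨d, 1, hd, hr, id, fun _ => rfl, rfl, rfl, (scale_one _).symm⟩
  | @tail b b' hb hs ih =>
    obtain ⟨d', c, h1, h2, h3, h4, h5, h6, h7⟩ := ih
    have hf := HReach.fam hb hf0
    obtain ⟨x, y, hx, hy, hxy, hn, rfl⟩ := hs
    rcases x with k | x
    · exact absurd ⟨k, rfl⟩ hx
    rcases y with k | y
    · exact absurd ⟨k, rfl⟩ hy
    have a1 : d'.pair false (inr x) (inr y) ≠ 0 := by rw [h6]; exact hxy false
    have a2 : d'.pair true (inr x) (inr y) ≠ 0 := by rw [h7]; simpa using hxy true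
    have a3 : ∀ k, d'.V k y = 0 := fun k => by
      have := hn false (inl k) ⟨k, rfl⟩
      rwa [← h6] at this
    have hne := HP.ne_of_edge h1.alg a1
    obtain ⟨c', hc1, hc2⟩ := HP.epiv_scale (hf.diag true _) (hf.diag true _) (hxy true)
      (fun e => hxy true ((hf.zero_comm _ _ _).1 e)) c
    refine ⟨HP.stepD d' x y, Sum.elim (1 : K → Fˣ) (HP.fac d' x y d'.As)⁻¹ * c',
      HP.stepD_real h1 h2 a1 a3, HP.stepD_ref h2, fun h => HP.stepD_nconn h1.alg h2 a1 a3 (h3 h), fun k => ?_, ?_, ?_, ?_⟩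
    · rw [Pi.mul_apply, hc1 _ Sum.inl_ne_inr Sum.inl_ne_inr, h4]; simp
    · rw [HP.stepD_col, h5]
    · change _ = epiv (b.2 false) (inr x) (inr y)
      rw [← h6, HP.epiv_pair h1.alg hne a3 false a1]; rfl
    · change _ = scale _ (epiv (b.2 true) (inr x) (inr y))
      rw [HP.stepD_true h1.alg hne a3 a2 (HP.good_As h1 h2 a1 a3), h7, hc2, scale_scale]

theorem HP.parAll {m : ℕ} (h : HP F m) {K P : Type} [Fintype K] [Fintype P] {d : Datum F K P}
    (hd : Real m d) (hr : d.Ref) : ParAll (Set.range inl) d.dsp := by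
  intro b hb v hv
  obtain ⟨d', c, -, -, -, -, h4, -, h6, h7⟩ := h K P d hd hr b hb
  rcases v with k | p
  · exact absurd ⟨k, rfl⟩ hv
  refine ⟨(c (inr p))⁻¹, ?_⟩
  rintro _ ⟨k, rfl⟩
  have e : d'.pair false (inl k) (inr p) = d'.pair true (inl k) (inr p) := rfl
  rw [← h6, e, h7, scale_apply, h4]
  simp

theorem HP.vis {m : ℕ} (h : HP F m) {K P : Type} [Fintype K] [Fintype P] {d : Datum F K P}
    (hd : Real m d) (hr : d.Ref) (hv : VisR (Set.range inl) d.dsp) :
    ∃ d' : Datum F K P, Real m d' ∧ d'.Ref ∧ d'.V.rank = d.V.rank ∧ (NConn d.B → NConn d'.B) ∧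
      d'.Vis := by
  obtain ⟨b, hb, x, y, hx, hy, hdev⟩ := hv
  obtain ⟨d', c, h1, h2, h3, h3', h4, -, h6, h7⟩ := h K P d hd hr b hb
  rcases x with k | x
  · exact absurd ⟨k, rfl⟩ hx
  rcases y with k | y
  · exact absurd ⟨k, rfl⟩ hy
  refine ⟨d', h1, h2, h3, h3', x, y, Datum.devD_iff.2 ?_⟩
  rw [h6, h7, devP_scale_iff (by rintro _ ⟨k, rfl⟩; exact h4 k), Set.image_pair]
  exact hdev

end Pool.Agent.MP_d99b12_co.H25
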