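import Pool.Agent.MP_d99b12_co.H25.Spec

/-! # The commutative end game over fields with `p ^ 2` and with `8` elements -/

namespace Pool.Agent.MP_d99b12_co.H25

open Matrix Module
open scoped Pointwise

namespace KILL

variable {F : Type} [Field F] {I J : Type} [Fintype I] [Fintype J]

/-- The vectors orthogonal to `X`. -/
def perp (X : Set (J → F)) : Submodule F (J → F) where
  carrier := {w | ∀ ξ ∈ X, ξ ⬝ᵥ w = 0}
  add_mem' ha hb ξ h := by rw [dotProduct_add, ha ξ h, hb ξ h, add_zero]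
  zero_mem' _ _ := dotProduct_zero _
  smul_mem' c _ ha ξ h := by rw [dotProduct_smul, ha ξ h, smul_zero]

lemma mem_perp {X : Set (J → F)} {w : J → F} : w ∈ perp X ↔ ∀ ξ ∈ X, ξ ⬝ᵥ w = 0 := Iff.rfl

lemma dot_span {f v : I → F} {Y : Set (I → F)} (h : ∀ y ∈ Y, f ⬝ᵥ y = 0)
    (hv : v ∈ Submodule.span F Y) : f ⬝ᵥ v = 0 :=
  (Submodule.span_le (p := perp {f})).2 (fun y hy _ hξ => hξ ▸ h y hy) hv f rfl

omit [Fintype I] in
lemma outer (y : I → F) (ξ w : J → F) : vecMulVec y ξ *ᵥ w = (ξ ⬝ᵥ w) • y := by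
  ext i
  simp [mulVec, vecMulVec, dotProduct, Finset.mul_sum, mul_comm, mul_left_comm]

lemma exists_vec (S : Submodule F (I → F)) {v : I → F} (hv : v ∉ S) :
    ∃ f : I → F, f ⬝ᵥ v = 1 ∧ ∀ x ∈ S, f ⬝ᵥ x = 0 := by
  classical
  obtain ⟨φ, h1, h2⟩ := LinearMap.exists_extend_of_notMem (0 : S →ₗ[F] F) hv 1
  have e : ∀ x, (dotProductEquiv F I).symm φ ⬝ᵥ x = φ x := fun x =>
    congrArg (fun g : Dual F (I → F) => g x) ((dotProductEquiv F I).apply_symm_apply φ)
  exact ⟨_, (e v).trans h2, fun x hx => (e x).trans (by simpa using congr($h1 ⟨x, hx⟩))⟩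

/-- A singular small window misses a hyperplane. -/
lemma exists_kill {M : Matrix I J F} {D : Submodule F (I → F)} {S : Submodule F (J → F)}
    (hd : finrank F S + finrank F D ≤ Fintype.card I) {w : J → F} (h0 : w ≠ 0) (hw : w ∈ S)
    (hM : M *ᵥ w ∈ D) : ∃ f : I → F, f ≠ 0 ∧ (∀ y ∈ D, f ⬝ᵥ y = 0) ∧ ∀ x ∈ S, f ⬝ᵥ M *ᵥ x = 0 := by
  let φ : (S × D) →ₗ[F] (I → F) := (M.mulVecLin.comp S.subtype).coprod D.subtype
  have hk : 0 < finrank F (LinearMap.ker φ) := by
    refine (finrank_pos_iff_exists_ne_zero (R := F) (M := LinearMap.ker φ)).2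
      ⟨⟨(⟨w, hw⟩, -⟨_, hM⟩), by simp [φ]⟩, fun h => h0 ?_⟩
    exact congrArg (fun z : LinearMap.ker φ => (z.1.1 : J → F)) h
  have h1 := φ.finrank_range_add_finrank_ker
  rw [finrank_prod] at h1
  have h2 : LinearMap.range φ ≠ ⊤ := fun h => by
    rw [h, finrank_top, finrank_fintype_fun_eq_card] at h1
    omega
  obtain ⟨v, -, hv⟩ := SetLike.exists_of_lt h2.lt_top
  obtain ⟨f, hf, hf'⟩ := exists_vec _ hv
  exact ⟨f, fun h => by simp [h] at hf, fun y hy => hf' _ ⟨(0, ⟨y, hy⟩), by simp [φ]⟩,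
    fun x hx => hf' _ ⟨(⟨x, hx⟩, 0), by simp [φ]⟩⟩

/-- No small window is singular. -/
lemma window {A : Anem F I J} (hA : A.Ax) {Y : Set (I → F)} {X : Set (J → F)} (hY : Y ⊆ A.𝒴)
    (hX : X ⊆ A.𝒳) (hd : finrank F (perp X) + finrank F (Submodule.span F Y) ≤ Fintype.card I)
    {h : Matrix I J F} (hh : h ∈ A.H) : ¬Sing (A.D + h) Y X := by
  induction hn : finrank F ↥(perp X ⊓ (Submodule.span F Y).comap (A.D + h).mulVecLin)
    using Nat.strong_induction_on generalizing h with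
  | _ n ih =>
  intro hs
  obtain ⟨w0, h0, hw0, hM0⟩ := id hs
  obtain ⟨f, hf, hfD, hfS⟩ := exists_kill hd h0 hw0 hM0
  obtain ⟨y, -, ξ, -, γ, ε, hfy, hξ, hH, -, hγ, ok, ok'⟩ := hA.move f hf w0 h0
  have key : ∀ x ∈ perp X, (A.D + (h + vecMulVec y ξ)) *ᵥ x ∈ Submodule.span F Y → ξ ⬝ᵥ x = 0 := by
    intro x hx hx'
    have := hfD _ hx'
    rw [← add_assoc, add_mulVec, dotProduct_add, hfS x hx, outer, dotProduct_smul, zero_add] at this
    exact (mul_eq_zero.1 this).resolve_right hfy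
  have ns : ¬Sing (A.D + (h + vecMulVec y ξ)) Y X := by
    refine ih _ (hn ▸ Submodule.finrank_lt_finrank_of_lt (lt_of_le_of_ne ?_ fun e => ?_))
      (add_mem hh hH) rfl
    · rintro x ⟨hx, hx'⟩
      have := key x hx hx'
      refine ⟨hx, ?_⟩
      change _ *ᵥ x ∈ Submodule.span F Y at hx' ⊢
      rwa [← add_assoc, add_mulVec, outer, this, zero_smul, add_zero] at hx'
    · have : w0 ∈ perp X ⊓ (Submodule.span F Y).comap (A.D + h).mulVecLin := ⟨hw0, hM0⟩
      rw [← e] at this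
      exact hξ (key w0 hw0 this.2)
  rw [ok Y hY X hX _ (add_mem hh hH)] at ns
  obtain ⟨w, hw, hwX, hwY⟩ := (ok Y hY X hX h hh).1 hs
  obtain ⟨w', hw', hwX', hwY'⟩ := (ok' Y hY X hX h hh).1 hs
  have e : ∀ x, (A.D + (h + vecMulVec y ξ) + ε) *ᵥ x = (A.D + h + ε) *ᵥ x + (ξ ⬝ᵥ x) • y := by
    intro x
    rw [← outer, ← add_mulVec]; congr 1; abel
  rw [← add_assoc, add_mulVec, smul_mulVec, outer] at hwY'
  have a1 : ξ ⬝ᵥ w ≠ 0 := fun z => ns ⟨w, hw, hwX, by rwa [e, z, zero_smul, add_zero]⟩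
  have a2 : ξ ⬝ᵥ w' ≠ 0 := fun z => ns ⟨w', hw', hwX', by
    rw [z, zero_smul, smul_zero, add_zero] at hwY'
    rwa [e, z, zero_smul, add_zero]⟩
  refine ns ⟨(ξ ⬝ᵥ w) • w' - ((2 - γ) * ξ ⬝ᵥ w') • w, fun z => ?_,
    (perp X).sub_mem ((perp X).smul_mem _ hwX') ((perp X).smul_mem _ hwX), ?_⟩
  · have := congrArg (ξ ⬝ᵥ ·) z
    simp only [dotProduct_sub, dotProduct_smul, smul_eq_mul, dotProduct_zero] at this
    exact mul_ne_zero (mul_ne_zero a1 a2) (sub_ne_zero.2 hγ) (by linear_combination this)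
  · convert Submodule.sub_mem _ (Submodule.smul_mem _ (ξ ⬝ᵥ w) hwY')
      (Submodule.smul_mem _ ((2 - γ) * ξ ⬝ᵥ w') hwY) using 1
    rw [mulVec_sub, mulVec_smul, mulVec_smul, e, e]
    module

/-- Independent vectors `u` of `𝒴`, completed by `Y`, with the dual vectors `f`. -/
structure Frame (𝒴 : Set (I → F)) {T : Type} [Fintype T] [DecidableEq T] (u f : T → I → F)
    (Y : Set (I → F)) : Prop where
  mem : ∀ t, u t ∈ 𝒴
  sub : Y ⊆ 𝒴
  dual : ∀ s t, f s ⬝ᵥ u t = if s = t then 1 else 0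
  kill : ∀ s, ∀ y ∈ Y, f s ⬝ᵥ y = 0
  span : ∀ v, v - ∑ t, (f t ⬝ᵥ v) • u t ∈ Submodule.span F Y

variable {T : Type} [Fintype T] [DecidableEq T]

lemma exists_frame {𝒴 : Set (I → F)} (hs : Submodule.span F 𝒴 = ⊤) {u : T → I → F}
    (hu : LinearIndependent F u) (hm : ∀ t, u t ∈ 𝒴) : ∃ f Y, Frame 𝒴 u f Y := by
  obtain ⟨b, hb, hub, hsp, hli⟩ := exists_linearIndepOn_id_extension hu.linearIndepOn_id
    (Set.range_subset_iff.2 hm)
  choose f h1 h2 using fun t => exists_vec _ (hli.notMem_span (hub ⟨t, rfl⟩))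
  have h3 : ∀ t, ∀ y ∈ b, y ≠ u t → f t ⬝ᵥ y = 0 := fun t y hy hne =>
    h2 t y (Submodule.subset_span ⟨y, ⟨hy, hne⟩, rfl⟩)
  have hd : ∀ s t, f s ⬝ᵥ u t = if s = t then 1 else 0 := fun s t => by
    split_ifs with h
    · exact h ▸ h1 s
    · exact h3 s _ (hub ⟨t, rfl⟩) fun e => h (hu.injective e).symm
  have hk : ∀ s, ∀ y ∈ b \ Set.range u, f s ⬝ᵥ y = 0 := fun s y hy =>
    h3 s y hy.1 fun e => hy.2 ⟨s, e.symm⟩
  refine ⟨f, b \ Set.range u, hm, Set.sdiff_subset.trans hb, hd, hk, fun v => ?_⟩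
  have hv : v ∈ Submodule.span F b := Submodule.span_le.2 hsp (hs ▸ Submodule.mem_top)
  induction hv using Submodule.span_induction with
  | mem y hy =>
    by_cases h : y ∈ Set.range u
    · obtain ⟨t, rfl⟩ := h
      simp [hd]
    · simpa [hk _ y ⟨hy, h⟩] using Submodule.subset_span (R := F) (s := b \ Set.range u) ⟨hy, h⟩
  | zero => simp
  | add x y _ _ hx hy =>
    convert Submodule.add_mem _ hx hy using 1
    simp only [dotProduct_add, add_smul, Finset.sum_add_distrib]; abel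
  | smul c x _ hx =>
    convert Submodule.smul_mem _ c hx using 1
    simp only [dotProduct_smul, smul_eq_mul, mul_smul, smul_sub, Finset.smul_sum]

lemma rank_span {g u : T → I → F} (hd : ∀ s t, g s ⬝ᵥ u t = if s = t then 1 else 0)
    {Y : Set (I → F)} (hk : ∀ s, ∀ y ∈ Y, g s ⬝ᵥ y = 0) :
    Fintype.card T + finrank F (Submodule.span F Y) ≤ Fintype.card I := by
  have h1 := (Matrix.of g).mulVecLin.finrank_range_add_finrank_ker
  have h2 : LinearMap.range (Matrix.of g).mulVecLin = ⊤ := LinearMap.range_eq_top.2 fun c =>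
    ⟨∑ t, c t • u t, funext fun s => by
      change g s ⬝ᵥ ∑ t, c t • u t = c s
      simp [dotProduct_sum, hd]⟩
  have h3 : Submodule.span F Y ≤ LinearMap.ker (Matrix.of g).mulVecLin :=
    Submodule.span_le.2 fun y hy => funext fun s => hk s y hy
  have := Submodule.finrank_mono h3
  rw [h2, finrank_top, finrank_fintype_fun_eq_card, finrank_fintype_fun_eq_card] at h1
  omega

lemma Frame.rank_perp {𝒳 X : Set (J → F)} {ξ w : T → J → F} (G : Frame 𝒳 ξ w X) (P : Finset T) :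
    finrank F (perp (X ∪ ξ '' (↑P)ᶜ)) ≤ P.card := by
  let φ := (Matrix.of fun t : P => ξ t).mulVecLin.comp (perp (X ∪ ξ '' (↑P)ᶜ)).subtype
  have : Function.Injective φ := (injective_iff_map_eq_zero φ).2 fun v hv => Subtype.ext (by
    have h1 : ∀ t, ξ t ⬝ᵥ v.1 = 0 := fun t => by
      by_cases h : t ∈ P
      · exact congrFun hv ⟨t, h⟩
      · exact v.2 _ (Or.inr ⟨t, h, rfl⟩)
    by_contra h
    obtain ⟨x, hx, -⟩ := exists_vec ⊥ (v := v.1) h
    have := dot_span (f := v.1) (fun y hy => dotProduct_comm y _ ▸ v.2 y (Or.inl hy)) (G.span x)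
    rw [dotProduct_comm, sub_dotProduct, sum_dotProduct] at this
    simp [h1, hx] at this)
  simpa using LinearMap.finrank_le_finrank_of_injective this

lemma Frame.mem_perp {𝒳 X : Set (J → F)} {ξ w : T → J → F} (G : Frame 𝒳 ξ w X) {P : Finset T}
    {j : T} (hj : j ∈ P) : w j ∈ perp (X ∪ ξ '' (↑P)ᶜ) := by
  rintro x (hx | ⟨t, ht, rfl⟩)
  · rw [dotProduct_comm, G.kill j x hx]
  · rw [dotProduct_comm, G.dual, if_neg]
    rintro rfl; exact ht hj

lemma Frame.subset {𝒳 X : Set (J → F)} {ξ w : T → J → F} (G : Frame 𝒳 ξ w X) (P : Set T) :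
    X ∪ ξ '' P ⊆ 𝒳 := Set.union_subset G.sub (by rintro _ ⟨t, -, rfl⟩; exact G.mem t)

lemma Frame.mono {𝒳 𝒳' X : Set (J → F)} {ξ w : T → J → F} (G : Frame 𝒳 ξ w X) (h : 𝒳 ⊆ 𝒳') :
    Frame 𝒳' ξ w X := ⟨fun t => h (G.mem t), G.sub.trans h, G.dual, G.kill, G.span⟩

/-- `S` is a subtree with root `r`. -/
def Sub {n : ℕ} (par : Fin n → Fin n) (S : Finset (Fin n)) (r : Fin n) : Prop :=
  r ∈ S ∧ ∀ i ∈ S, i ≠ r → 0 < i.val ∧ par i ∈ S

lemma sub_one {n : ℕ} (par : Fin n → Fin n) (r : Fin n) : Sub par {r} r :=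
  ⟨Finset.mem_singleton_self r, fun _ hi h => absurd (Finset.mem_singleton.1 hi) h⟩

lemma sub_two {n : ℕ} (par : Fin n → Fin n) {i : Fin n} (hi : 0 < i.val) :
    Sub par {i, par i} (par i) :=
  ⟨by simp, fun k hk h => by
    obtain rfl : k = i := by simpa [h] using hk
    exact ⟨hi, by simp⟩⟩

/-- The windows of size one. -/
lemma win1 {A : Anem F I J} (hA : A.Ax) {n : ℕ} {u f : Fin n → I → F} {Y : Set (I → F)}
    (G : Frame A.𝒴 u f Y) {par : Fin n → Fin n}
    (hpar : ∀ i, 0 < i.val → par i < i ∧ u i - u (par i) ∈ A.𝒴) {ξ w : T → J → F}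
    {X : Set (J → F)} (G' : Frame A.𝒳 ξ w X) {S : Finset (Fin n)} {r : Fin n} (hS : Sub par S r)
    (j : T) {ε h : Matrix I J F} (hε : A.Ok ε) (hh : h ∈ A.H) :
    (∑ i ∈ S, f i) ⬝ᵥ (A.D + h + ε) *ᵥ w j ≠ 0 := by
  intro h0
  set Y0 := (Y ∪ u '' (↑S)ᶜ) ∪ (fun i => u i - u (par i)) '' {i | i ∈ S ∧ i ≠ r}
  have hY : Y0 ⊆ A.𝒴 := Set.union_subset (G.subset _) (by
    rintro _ ⟨i, hi, rfl⟩; exact (hpar i (hS.2 i hi.1 hi.2).1).2)
  have hg : ∀ t, (∑ i ∈ S, f i) ⬝ᵥ u t = if t ∈ S then 1 else 0 := fun t => by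
    simp [sum_dotProduct, G.dual]
  have r1 := rank_span (T := Unit) (g := fun _ => ∑ i ∈ S, f i) (u := fun _ => u r) (Y := Y0)
    (fun _ _ => by simp [hg, hS.1]) (by
      rintro _ y ((hy | ⟨t, ht, rfl⟩) | ⟨t, ht, rfl⟩)
      · simp [sum_dotProduct, G.kill _ y hy]
      · exact (hg t).trans (if_neg ht)
      · simp [dotProduct_sub, hg, ht.1, (hS.2 t ht.1 ht.2).2])
  have r2 := G'.rank_perp {j}
  rw [Fintype.card_unit] at r1
  rw [Finset.card_singleton] at r2
  refine window hA hY (G'.subset _) ((Nat.add_le_add_right r2 _).trans r1) hh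
    ((hε _ hY _ (G'.subset _) h hh).2 ⟨w j, fun z => ?_,
      G'.mem_perp (Finset.mem_singleton_self j), ?_⟩)
  · simpa [z] using G'.dual j j
  have h1 : ∀ t ∈ S, u t - u r ∈ Submodule.span F Y0 := fun t => by
    induction t using WellFoundedLT.induction with
    | ind t ih =>
    intro ht
    by_cases e : t = r
    · simp [e]
    · rw [← sub_add_sub_cancel _ (u (par t))]
      exact add_mem (Submodule.subset_span (Or.inr ⟨t, ⟨ht, e⟩, rfl⟩))
        (ih _ (hpar t (hS.2 t ht e).1).1 (hS.2 t ht e).2)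
  set v := (A.D + h + ε) *ᵥ w j
  have h2 : ∑ t, (f t ⬝ᵥ v) • (u t - if t ∈ S then u r else 0) ∈ Submodule.span F Y0 :=
    sum_mem fun t _ => Submodule.smul_mem _ _ (by
      split_ifs with ht
      · exact h1 t ht
      · rw [sub_zero]; exact Submodule.subset_span (Or.inl (Or.inr ⟨t, ht, rfl⟩)))
  convert add_mem (Submodule.span_mono (s := Y) (t := Y0) (fun y hy => Or.inl (Or.inl hy))
    (G.span v)) h2 using 1
  rw [sum_dotProduct] at h0
  simp [smul_sub, ← Finset.sum_smul, h0]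

/-- Subtree sums that avoid zero in `ZMod p` bound the size of the tree. -/
lemma tree_bound {p n : ℕ} [hp : Fact p.Prime] {par : Fin n → Fin n}
    (hpar : ∀ i, 0 < i.val → par i < i) (L : Finset (Fin n)) (hL : ∀ i ∈ L, 0 < i.val → par i ∈ L)
    (V : Fin n → Finset (ZMod p)) (hne : ∀ i, (V i).Nonempty)
    (h : ∀ S ⊆ L, ∀ r, Sub par S r → ∀ t : Fin n → ZMod p, (∀ i ∈ S, t i ∈ V i) →
      ∑ i ∈ S, t i ≠ 0) : ∑ i ∈ L, (V i).card < p := by
  classical
  induction L using Finset.induction_on_max generalizing V with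
  | empty => simpa using hp.out.pos
  | insert a s hs ih =>
  have ha : a ∉ s := fun h => lt_irrefl _ (hs a h)
  have lt : ∀ W : Finset (ZMod p), 0 ∉ W → W.card < p := fun W hW => by
    simpa using Finset.card_lt_univ_of_notMem hW
  have z : 0 ∉ V a := fun h0 =>
    h {a} (by simp) a (sub_one par a) (fun _ => 0) (by simpa using h0) (by simp)
  rcases s.eq_empty_or_nonempty with rfl | ⟨x, hx⟩
  · simpa using lt _ z
  have a0 : 0 < a.val := lt_of_le_of_lt (Nat.zero_le _) (hs x hx)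
  have hq : par a ∈ s :=
    (Finset.mem_insert.1 (hL a (Finset.mem_insert_self _ _) a0)).resolve_left (hpar a a0).ne
  set W := V (par a) + insert 0 (V a)
  have key : ∀ S ⊆ s, ∀ r, Sub par S r → ∀ t : Fin n → ZMod p,
      (∀ i ∈ S, t i ∈ Function.update V (par a) W i) → ∑ i ∈ S, t i ≠ 0 := by
    intro S hS r hr t ht
    have old : ∀ i ∈ S, i ≠ par a → t i ∈ V i := fun i hi e => by simpa [e] using ht i hi
    have sub := hS.trans (Finset.subset_insert a s)
    by_cases hm : par a ∈ S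
    swap
    · exact h S sub r hr t fun i hi => old i hi fun e => hm (e ▸ hi)
    obtain ⟨b, hb, c, hc, e⟩ := Finset.mem_add.1 (by simpa using ht _ hm : t (par a) ∈ W)
    rcases Finset.mem_insert.1 hc with rfl | hc
    · refine h S sub r hr t fun i hi => ?_
      by_cases e' : i = par a
      · rw [e', ← e, add_zero]; exact hb
      · exact old i hi e'
    have haS : a ∉ S := fun h => ha (hS h)
    have := h (insert a S) (Finset.insert_subset_insert a hS) r
      ⟨Finset.mem_insert_of_mem hr.1, fun i hi e' => by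
        rcases Finset.mem_insert.1 hi with rfl | hi
        · exact ⟨a0, Finset.mem_insert_of_mem hm⟩
        · exact ⟨(hr.2 i hi e').1, Finset.mem_insert_of_mem (hr.2 i hi e').2⟩⟩
      (Function.update (Function.update t (par a) b) a c) (fun i hi => by
        rcases Finset.mem_insert.1 hi with rfl | hi
        · simpa using hc
        · rw [Function.update_of_ne (ne_of_mem_of_not_mem hi haS)]
          by_cases e' : i = par a
          · simpa [e'] using hb
          · simpa [e'] using old i hi e')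
    rwa [Finset.sum_insert haS, Function.update_self, Finset.sum_update_of_notMem haS,
      Finset.sum_update_of_mem hm, ← add_assoc, add_comm c, e, Finset.sdiff_singleton_eq_erase,
      Finset.add_sum_erase _ _ hm] at this
  have w0 : 0 ∉ W := fun h0 => key {par a} (by simpa using hq) _ (sub_one par _) (fun _ => 0)
    (by simpa using h0) (by simp)
  have cd : _ ≤ W.card :=
    ZMod.cauchy_davenport hp.out (hne (par a)) (Finset.insert_nonempty 0 (V a))
  have := ih (fun i hi h0 => (Finset.mem_insert.1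
    (hL i (Finset.mem_insert_of_mem hi) h0)).resolve_left ((hpar i h0).trans (hs i hi)).ne)
    (Function.update V (par a) W) (fun i => by
      by_cases e : i = par a
      · rw [e, Function.update_self]
        exact (hne _).add (Finset.insert_nonempty 0 (V a))
      · simpa [e] using hne i) key
  have e : ∑ i ∈ s.erase (par a), (Function.update V (par a) W i).card =
      ∑ i ∈ s.erase (par a), (V i).card :=
    Finset.sum_congr rfl fun i hi => by rw [Function.update_of_ne (Finset.ne_of_mem_erase hi)]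
  rw [← Finset.add_sum_erase _ _ hq, Function.update_self, e] at this
  rw [Finset.sum_insert ha, ← Finset.add_sum_erase _ _ hq]
  rw [Finset.card_insert_of_notMem z] at cd
  have := lt W w0
  omega

omit [Fintype I] in
lemma ok_zero (A : Anem F I J) : A.Ok 0 := fun _ _ _ _ _ _ => by rw [add_zero]

lemma Frame.ev {𝒴 Y : Set (I → F)} {𝒳 X : Set (J → F)} {T' : Type} [Fintype T'] [DecidableEq T']
    {u f : T' → I → F} {ξ w : T → J → F} (G : Frame 𝒴 u f Y) (G' : Frame 𝒳 ξ w X)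
    (S : Finset T') (i : T') (j : T) (c : F) :
    (∑ s ∈ S, f s) ⬝ᵥ (c • vecMulVec (u i) (ξ j)) *ᵥ w j = if i ∈ S then c else 0 := by
  simp [smul_mulVec, outer, sum_dotProduct, dotProduct_comm (ξ j), G.dual, G'.dual]

section Sq
variable [Fintype F] {p : ℕ} [hp : Fact p.Prime] (hF : Fintype.card F = p ^ 2)
include hF

lemma card_zm {a : F} (h0 : a ≠ 0) : Nat.card (AddSubgroup.zmultiples a) = p := by
  have := charP_of_card_eq_prime_pow hF
  rw [Nat.card_zmultiples]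
  exact addOrderOf_eq_prime (by simp) h0

/-- A proper subgroup is a line over the prime field. -/
lemma line {Λ : AddSubgroup F} (hΛ : Λ ≠ ⊤) {a b : F} (ha : a ∈ Λ) (hb : b ∈ Λ) (h0 : a ≠ 0) :
    ∃ k : ℤ, k • a = b := by
  have h1 := Λ.card_addSubgroup_dvd_card
  have h2 : Nat.card Λ ≠ Nat.card F := fun e => hΛ (Λ.eq_top_of_card_eq e)
  rw [Nat.card_eq_fintype_card (α := F), hF] at h1 h2
  obtain ⟨k, hk, e⟩ := (Nat.dvd_prime_pow hp.out).1 h1
  have h3 : k ≤ 1 := by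
    by_contra h
    exact h2 (e.trans (by rw [show k = 2 by omega]))
  rw [← AddSubgroup.eq_of_le_of_card_ge (AddSubgroup.zmultiples_le_of_mem ha) (by
    rw [card_zm hF h0, e]
    exact (Nat.pow_le_pow_right hp.out.pos h3).trans_eq (pow_one p))] at hb
  exact hb

lemma exists_theta : ∃ θ : F, ∀ x : F, ∃ k l : ℤ, (k : F) + l * θ = x := by
  have h1 : AddSubgroup.zmultiples (1 : F) ≠ ⊤ := fun e => by
    have := card_zm hF (one_ne_zero (α := F))
    rw [e, AddSubgroup.card_top, Nat.card_eq_fintype_card, hF] at this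
    have := hp.out.two_le
    nlinarith
  obtain ⟨θ, -, hθ⟩ := SetLike.exists_of_lt h1.lt_top
  have h2 : AddSubgroup.zmultiples (1 : F) ⊔ AddSubgroup.zmultiples θ = ⊤ := by
    by_contra e
    exact hθ (line hF e (AddSubgroup.mem_sup_left (AddSubgroup.mem_zmultiples 1))
      (AddSubgroup.mem_sup_right (AddSubgroup.mem_zmultiples θ)) one_ne_zero)
  refine ⟨θ, fun x => ?_⟩
  obtain ⟨_, ⟨k, rfl⟩, _, ⟨l, rfl⟩, e⟩ := AddSubgroup.mem_sup.1 (h2 ▸ AddSubgroup.mem_top x)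
  exact ⟨k, l, by simpa using e⟩

lemma exists_quot {e : F} (h0 : e ≠ 0) : ∃ π : F →+ ZMod p, ∀ x, π x = 0 → ∃ k : ℤ, k • e = x := by
  have h1 := AddSubgroup.card_eq_card_quotient_mul_card_addSubgroup (AddSubgroup.zmultiples e)
  rw [card_zm hF h0, Nat.card_eq_fintype_card, hF, sq] at h1
  let φ := addEquivOfPrimeCardEq (Nat.eq_of_mul_eq_mul_right hp.out.pos h1).symm (Nat.card_zmod p)
  exact ⟨φ.toAddMonoidHom.comp (QuotientAddGroup.mk' _), fun x hx =>
    (QuotientAddGroup.eq_zero_iff x).1 (φ.map_eq_zero_iff.1 hx)⟩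

variable {A : Anem F I J} (hA : A.Ax) {n : ℕ} {u f : Fin n → I → F} {Y : Set (I → F)}
  (G : Frame A.𝒴 u f Y) {ξ w : T → J → F} {X : Set (J → F)} (G' : Frame A.𝒳 ξ w X)
include hA G G'

section
variable {par : Fin n → Fin n} (hpar : ∀ i, 0 < i.val → par i < i ∧ u i - u (par i) ∈ A.𝒴)
include hpar

lemma unif (hn : 0 < n) (j : T) (hc : ∀ i, ∃ c : F, c ≠ 0 ∧ c • vecMulVec (u i) (ξ j) ∈ A.H) :
    ∃ e : F, e ≠ 0 ∧ ∀ i, e • vecMulVec (u i) (ξ j) ∈ A.H := by
  obtain ⟨e, he, h0⟩ := hc ⟨0, hn⟩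
  refine ⟨e, he, fun i => ?_⟩
  induction i using WellFoundedLT.induction with
  | ind i ih =>
  rcases Nat.eq_zero_or_pos i.val with hi | hi
  · exact (Fin.ext hi : i = ⟨0, hn⟩) ▸ h0
  obtain ⟨c, hc0, hc1⟩ := hc i
  let φ : Matrix I J F →+ F := AddMonoidHom.mk' (fun h => (∑ s ∈ {i, par i}, f s) ⬝ᵥ h *ᵥ w j)
    fun _ _ => by rw [add_mulVec, dotProduct_add]
  obtain ⟨k, hk⟩ := line hF (Λ := A.H.map φ) (a := c) (b := e) (fun z => by
    obtain ⟨h, hh, e⟩ : -φ A.D ∈ A.H.map φ := z ▸ AddSubgroup.mem_top _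
    refine win1 hA G hpar G' (sub_two par hi) j (ok_zero A) hh ?_
    change φ _ = 0
    rw [add_zero, map_add, e, add_neg_cancel])
    ⟨_, hc1, (G.ev G' _ _ _ _).trans (by simp)⟩
    ⟨_, ih _ (hpar i hi).1, (G.ev G' _ _ _ _).trans (by simp)⟩ hc0
  rw [← hk, smul_assoc]
  exact zsmul_mem hc1 k

lemma lt_p (j : T) {e : F} (he : e ≠ 0) (hc : ∀ i, e • vecMulVec (u i) (ξ j) ∈ A.H) : n < p := by
  obtain ⟨π, hπ⟩ := exists_quot hF he
  simpa using tree_bound (fun i hi => (hpar i hi).1) Finset.univ (fun _ _ _ => Finset.mem_univ _)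
    (fun i => {π (f i ⬝ᵥ A.D *ᵥ w j)}) (fun _ => Finset.singleton_nonempty _)
    fun S _ r hr t ht h0 => by
      rw [Finset.sum_congr rfl fun i hi => Finset.mem_singleton.1 (ht i hi), ← map_sum,
        ← sum_dotProduct] at h0
      obtain ⟨k, hk⟩ := hπ _ h0
      refine win1 hA G hpar G' hr j (ok_zero A) (neg_mem (zsmul_mem (hc r) k)) ?_
      rw [add_zero, add_mulVec, dotProduct_add, ← hk, ← smul_assoc, ← neg_smul, G.ev G',
        if_pos hr.1, add_neg_cancel]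

end

/-- A window with two rows can be made singular. -/
lemma two (hn : 2 ≤ n) {j j' : T} (hj : j ≠ j') {e e' : F} (he : e ≠ 0) (he' : e' ≠ 0)
    (hc : ∀ i, e • vecMulVec (u i) (ξ j) ∈ A.H) (hc' : ∀ i, e' • vecMulVec (u i) (ξ j') ∈ A.H) :
    False := by
  obtain ⟨θ, hθ⟩ := exists_theta hF
  set x := e⁻¹ • w j + (θ * e'⁻¹) • w j' with hx
  choose k l hkl using fun s => hθ (-(f s ⬝ᵥ A.D *ᵥ x))
  have x1 : ξ j ⬝ᵥ x = e⁻¹ := by simp [hx, dotProduct_comm (ξ j), G'.dual, hj.symm]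
  have x2 : ξ j' ⬝ᵥ x = θ * e'⁻¹ := by simp [hx, dotProduct_comm (ξ j'), G'.dual, hj]
  have r1 := rank_span G.dual G.kill
  have r2 := G'.rank_perp {j, j'}
  rw [Fintype.card_fin] at r1
  rw [Finset.card_pair hj] at r2
  refine window hA G.sub (G'.subset _) ((Nat.add_le_add_right (r2.trans hn) _).trans r1)
    (sum_mem fun s (_ : s ∈ Finset.univ) =>
      add_mem (zsmul_mem (hc s) (k s)) (zsmul_mem (hc' s) (l s)))
    ⟨x, fun z => inv_ne_zero he (by rw [← x1, z, dotProduct_zero]),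
      add_mem ((perp _).smul_mem _ (G'.mem_perp (by simp)))
        ((perp _).smul_mem _ (G'.mem_perp (by simp))), ?_⟩
  set v := (A.D + ∑ s, (k s • e • vecMulVec (u s) (ξ j) + l s • e' • vecMulVec (u s) (ξ j'))) *ᵥ x
    with hv
  have key : ∀ t, f t ⬝ᵥ v = 0 := fun t => by
    simp only [hv, add_mulVec, sum_mulVec, smul_mulVec, outer, x1, x2, dotProduct_add,
      dotProduct_sum, dotProduct_smul, G.dual, smul_eq_mul, smul_ite, mul_ite, mul_one, mul_zero,
      smul_zero, Finset.sum_add_distrib, Finset.sum_ite_eq, Finset.mem_univ, if_true]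
    rw [mul_inv_cancel₀ he, mul_left_comm e', mul_inv_cancel₀ he', zsmul_eq_mul, zsmul_eq_mul]
    linear_combination hkl t
  simpa [key] using G.span v

end Sq

/-- Four elements that are independent over the field with two elements. -/
lemma sixteen [Fintype F] [CharP F 2] {a b δ : F} (a1 : a ≠ 0) (a2 : a + 1 ≠ 0) (a3 : a + δ ≠ 0)
    (a4 : a + δ + 1 ≠ 0) (b1 : b ≠ 0) (b2 : b + 1 ≠ 0) (b3 : b + δ ≠ 0) (b4 : b + δ + 1 ≠ 0)
    (c1 : a + b ≠ 0) (c2 : a + b + 1 ≠ 0) (c3 : a + b + δ ≠ 0) (c4 : a + b + δ + 1 ≠ 0)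
    (d1 : δ ≠ 0) (d2 : δ + 1 ≠ 0) : 16 ≤ Fintype.card F := by
  let φ : (Fin 4 → ZMod 2) →+ F := AddMonoidHom.mk'
    (fun x => ∑ i, ZMod.castHom (dvd_refl 2) F (x i) * ![a, b, δ, 1] i) fun x y => by
      simp only [Pi.add_apply, map_add, add_mul, Finset.sum_add_distrib]
  have inj : Function.Injective φ := (injective_iff_map_eq_zero φ).2 fun x hx => by
    have c : ∀ t : ZMod 2, t = 0 ∨ t = 1 := by decide
    change ∑ i, ZMod.castHom (dvd_refl 2) F (x i) * ![a, b, δ, 1] i = 0 at hx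
    rw [Fin.sum_univ_four] at hx
    rcases c (x 0) with x0 | x0 <;> rcases c (x 1) with x1 | x1 <;> rcases c (x 2) with x2 | x2 <;>
      rcases c (x 3) with x3 | x3 <;> simp only [x0, x1, x2, x3, map_zero, map_one] at hx <;>
      first
        | (simp [*] at hx; done)
        | (funext i; fin_cases i <;> assumption)
  simpa using Fintype.card_le_of_injective φ inj

end KILL

open KILL

variable {F : Type} [Field F] [Fintype F]

theorem kill2 : KILL2 F := by
  intro p hp hF I J _ _ A hA h1 h2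
  have := Fact.mk hp
  obtain ⟨u, par, X1, hu, hm, hpar, hX, hsp, hc⟩ := hA.tree
  obtain ⟨f, Y, G⟩ := exists_frame hA.spanY hu hm
  obtain ⟨ξ, hξ, -, hli⟩ := Submodule.exists_fun_fin_finrank_span_eq F X1
  obtain ⟨w, X, G'⟩ := exists_frame hA.spanX hli fun t => hX (hξ t)
  have e : finrank F (Submodule.span F X1) = Fintype.card J := by
    rw [hsp, finrank_top, finrank_fintype_fun_eq_card]
  choose c h0 hc using fun j => unif hF hA G G' hpar (by omega) j fun i => hc i _ (hξ j)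
  have := lt_p hF hA G G' hpar ⟨0, by omega⟩ (h0 _) (hc _)
  by_contra h
  exact two hF hA G G' (by omega) (j := ⟨0, by omega⟩) (j' := ⟨1, by omega⟩) (by simp) (h0 _)
    (h0 _) (hc _) (hc _)

theorem kill8 : KILL8 F := by
  intro hF I J _ _ A hA _
  have : CharP F 2 := charP_of_card_eq_prime_pow (f := 3) hF
  by_contra h
  obtain ⟨u1, u2, ξ, γ, ε, hu, m1, m2, m3, mξ, hξ, h1, h2, g0, g1, ok, ok1, ok2⟩ :=
    hA.star (by omega)
  obtain ⟨f, Y, G⟩ := exists_frame hA.spanY (LinearIndependent.pair_symm_iff.1 hu)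
    (Fin.forall_fin_two.2 ⟨m2, m1⟩)
  obtain ⟨w, X, G'⟩ := exists_frame (u := fun _ : Unit => ξ) hA.spanX
    (linearIndependent_unique_iff.2 hξ) fun _ => mξ
  have W := fun S r (hS : Sub (fun _ => 0) S r) ε h =>
    win1 hA G (par := fun _ => 0) (Fin.forall_fin_two.2 ⟨by simp, fun _ => ⟨by simp, m3⟩⟩) G' hS ()
      (ε := ε) (h := h)
  have E := fun S i c => G.ev G' S i () c
  have key : ∀ S r i, Sub (fun _ => 0) S r → i ∈ S → ∀ c, vecMulVec (![u2, u1] i) ξ ∈ A.H →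
      A.Ok (ε + c • vecMulVec (![u2, u1] i) ξ) → ∀ a, a = (∑ s ∈ S, f s) ⬝ᵥ (A.D + ε) *ᵥ w () →
      a + c ≠ 0 ∧ a + c + 1 ≠ 0 := by
    rintro S r i hS hi c hH hc a rfl
    have a1 := W S r hS _ 0 hc (zero_mem _)
    have a2 := W S r hS _ _ hc hH
    have e1 := E S i c
    have e2 := E S i 1
    rw [if_pos hi] at e1 e2
    rw [one_smul] at e2
    rw [add_zero, ← add_assoc, add_mulVec, dotProduct_add, e1] at a1
    rw [add_right_comm, ← add_assoc, add_mulVec, add_mulVec, dotProduct_add, dotProduct_add, e1,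
      e2] at a2
    exact ⟨a1, a2⟩
  have z : ∀ M : Matrix I J F, A.Ok (ε + (0 : F) • M) := fun M => by rwa [zero_smul, add_zero]
  set a := f 0 ⬝ᵥ (A.D + ε) *ᵥ w () with ha
  set b := f 1 ⬝ᵥ (A.D + ε) *ᵥ w () with hb
  have s2 : Sub (fun _ => (0 : Fin 2)) {1, 0} 0 := sub_two (fun _ => 0) Nat.one_pos
  have e2 : a + b = (∑ s ∈ {1, 0}, f s) ⬝ᵥ (A.D + ε) *ᵥ w () := by
    rw [Finset.sum_pair one_ne_zero, add_dotProduct, add_comm]
  have ka := fun c hc => key {0} 0 0 (sub_one _ _) (by simp) c h2 hc a (by simp [ha])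
  have kb := fun c hc => key {1} 1 1 (sub_one _ _) (by simp) c h1 hc b (by simp [hb])
  have kc := fun c hc => key {1, 0} 0 0 s2 (by simp) c h2 hc _ e2
  obtain ⟨a1, a2⟩ := ka 0 (z _)
  obtain ⟨a3, a4⟩ := ka _ ok2
  obtain ⟨b1, b2⟩ := kb 0 (z _)
  obtain ⟨b3, b4⟩ := kb _ ok1
  obtain ⟨c1, c2⟩ := kc 0 (z _)
  obtain ⟨c3, c4⟩ := kc _ ok2
  rw [add_zero] at a1 a2 b1 b2 c1 c2
  have := sixteen a1 a2 a3 a4 b1 b2 b3 b4 c1 c2 c3 c4 (sub_ne_zero.2 g1) (by rwa [sub_add_cancel])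
  omega

end Pool.Agent.MP_d99b12_co.H25
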