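import Pool.Agent.MP_d99b12_co.H25.Spec
import Pool.Agent.MP_d99b12_co.H30.Main

/-! # From matroids to displayed matrices, and transport to all fields of the same size -/

namespace Pool.Agent.MP_d99b12_co.H25

open Matrix Module

namespace MAT

open H30 (lc lc_apply On sp Ind rk)

section std

variable {F V ι : Type} [Field F] [AddCommGroup V] [Module F V] [Fintype ι]

/-- `A e` is the coordinate vector of `v e` in the base `B`. -/
structure Std (v : ι → V) (B : Set ι) (A : ι → ι → F) : Prop where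
  ind : Ind v (⊥ : Submodule F V) B
  on : ∀ e, On B (A e)
  eq : ∀ e, lc v (A e) = v e

open Classical in
/-- The skew matrix of a standard representation. -/
noncomputable def mx (B : Set ι) (A : ι → ι → F) : Matrix ι ι F := Matrix.of fun u w =>
  if u ∈ B then (if w ∈ B then 0 else A w u) else (if w ∈ B then -A u w else 0)

variable {v : ι → V} {B : Set ι} {A : ι → ι → F}

omit [Fintype ι] in
lemma mx_BB {u w : ι} (hu : u ∈ B) (hw : w ∈ B) : mx B A u w = 0 := by simp [mx, hu, hw]

omit [Fintype ι] in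
lemma mx_BN {u w : ι} (hu : u ∈ B) (hw : w ∉ B) : mx B A u w = A w u := by simp [mx, hu, hw]

omit [Fintype ι] in
lemma mx_NB {u w : ι} (hu : u ∉ B) (hw : w ∈ B) : mx B A u w = -A u w := by simp [mx, hu, hw]

omit [Fintype ι] in
lemma mx_NN {u w : ι} (hu : u ∉ B) (hw : w ∉ B) : mx B A u w = 0 := by simp [mx, hu, hw]

omit [Fintype ι] in
lemma mx_skew : Skew (mx B A) := by
  intro u w
  by_cases hu : u ∈ B <;> by_cases hw : w ∈ B
  · rw [mx_BB hu hw, mx_BB hw hu, neg_zero]
  · rw [mx_BN hu hw, mx_NB hw hu, neg_neg]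
  · rw [mx_NB hu hw, mx_BN hw hu]
  · rw [mx_NN hu hw, mx_NN hw hu, neg_zero]

open Classical in
omit [Fintype ι] in
lemma mx_bip : Bip (fun e => decide (e ∈ B)) (mx B A) := by
  intro u w h
  have h' : u ∈ B ↔ w ∈ B := by simpa using h
  by_cases hu : u ∈ B
  · exact mx_BB hu (h'.1 hu)
  · exact mx_NN hu fun hw => hu (h'.2 hw)

lemma mv_apply (S : Matrix ι ι F) (z : ι → F) (x : ι) : (S *ᵥ z) x = ∑ w, S x w * z w := rfl

lemma mv_congr {z z' : ι → F} (h : ∀ w, w ∉ B → z w = z' w) {b : ι} (hb : b ∈ B) :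
    (mx B A *ᵥ z) b = (mx B A *ᵥ z') b := by
  rw [mv_apply, mv_apply]
  refine Finset.sum_congr rfl fun w _ => ?_
  by_cases hw : w ∈ B
  · rw [mx_BB hb hw, zero_mul, zero_mul]
  · rw [h w hw]

open Classical in
lemma Std.single (h : Std v B A) {b : ι} (hb : b ∈ B) : A b = Pi.single b 1 := by
  have := h.ind (A b - Pi.single b 1) ((h.on b).sub (H30.on_single hb 1))
    (by rw [map_sub, h.eq, H30.lc_single, one_smul, sub_self]; exact zero_mem _)
  exact sub_eq_zero.1 this

/-- The coordinates of `lc v z`. -/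
noncomputable def co (B : Set ι) (A : ι → ι → F) (z : ι → F) : ι → F :=
  B.indicator (z + mx B A *ᵥ z)

lemma Std.lc_co (h : Std v B A) (z : ι → F) : lc v (co B A z) = lc v z := by
  classical
  have e : co B A z = ∑ e, z e • A e := by
    funext b
    rw [Finset.sum_apply]
    by_cases hb : b ∈ B
    · rw [co, Set.indicator_of_mem hb, Pi.add_apply, mv_apply]
      have : z b = ∑ e, if e = b then z e else 0 := by simp
      rw [this, ← Finset.sum_add_distrib]
      refine Finset.sum_congr rfl fun e _ => ?_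
      by_cases he : e ∈ B
      · rw [mx_BB hb he, h.single he, Pi.smul_apply, Pi.single_apply]
        by_cases hbe : e = b
        · simp [hbe]
        · simp [hbe, Ne.symm hbe]
      · rw [mx_BN hb he, if_neg fun (hbe : e = b) => he (hbe ▸ hb)]
        simp [mul_comm]
    · rw [co, Set.indicator_of_notMem hb]
      exact (Finset.sum_eq_zero fun e _ => by simp [h.on e b hb]).symm
  rw [e, map_sum, lc_apply]
  exact Finset.sum_congr rfl fun e _ => by rw [map_smul, h.eq]

lemma Std.cyc (h : Std v B A) {z : ι → F} :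
    lc v z = 0 ↔ ∀ b ∈ B, z b + (mx B A *ᵥ z) b = 0 := by
  rw [← h.lc_co]
  constructor
  · intro h0 b hb
    have := congrFun (h.ind _ (H30.on_indicator _ _) h0) b
    rwa [Set.indicator_of_mem hb] at this
  · intro h0
    have : co B A z = 0 := by
      funext b
      by_cases hb : b ∈ B
      · rw [co, Set.indicator_of_mem hb]
        exact h0 b hb
      · rw [co, Set.indicator_of_notMem hb]
        rfl
    rw [this, map_zero]

lemma skew_dot {S : Matrix ι ι F} (hS : Skew S) (u z : ι → F) :
    u ⬝ᵥ (S *ᵥ z) = -(z ⬝ᵥ (S *ᵥ u)) := by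
  simp only [dotProduct, mv_apply, Finset.mul_sum, ← Finset.sum_neg_distrib]
  rw [Finset.sum_comm]
  refine Finset.sum_congr rfl fun x _ => Finset.sum_congr rfl fun y _ => ?_
  rw [hS y x]
  ring

lemma Std.dep_iff (h : Std v B A) (X Y : Set ι) : Dep (mx B A) X Y ↔
    ¬Ind v (⊥ : Submodule F V) ((Y \ B) ∪ (B \ X)) ∨
      ¬∀ b ∈ B, v b ∈ sp F v ((B \ Y) ∪ (X \ B)) := by
  classical
  constructor
  · rintro ⟨u, hu0, huY, huX⟩
    by_cases hN : ∀ w, w ∉ B → u w = 0
    · right
      intro hb
      obtain ⟨b, hb0⟩ := Function.ne_iff.1 hu0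
      have hbB : b ∈ B := by
        by_contra h'
        exact hb0 (hN b h')
      obtain ⟨c, hc, he⟩ := H30.mem_sp.1 (hb b hbB)
      have h1 := h.cyc.1 (show lc v (c - Pi.single b 1) = 0 by
        rw [map_sub, he, H30.lc_single, one_smul, sub_self])
      have h2 : u ⬝ᵥ ((c - Pi.single b 1) + mx B A *ᵥ (c - Pi.single b 1)) = 0 := by
        refine Finset.sum_eq_zero fun w _ => ?_
        by_cases hw : w ∈ B
        · rw [Pi.add_apply, h1 w hw, mul_zero]
        · rw [hN w hw, zero_mul]
      have h3 : u ⬝ᵥ c = 0 := by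
        refine Finset.sum_eq_zero fun w _ => ?_
        by_cases hw : w ∈ (B \ Y) ∪ (X \ B)
        · rcases hw with hw | hw
          · rw [huY w hw.2, zero_mul]
          · rw [hN w hw.2, zero_mul]
        · rw [hc w hw, mul_zero]
      have h4 : (c - Pi.single b 1) ⬝ᵥ (mx B A *ᵥ u) = 0 := by
        refine Finset.sum_eq_zero fun w _ => ?_
        by_cases hw : w ∈ B
        · rw [mv_congr (z' := 0) hN hw, mulVec_zero, Pi.zero_apply, mul_zero]
        · by_cases hX : w ∈ X
          · rw [huX w hX, mul_zero]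
          · have : c w = 0 := hc w (by rintro (h' | h') <;> [exact hw h'.1; exact hX h'.1])
            rw [Pi.sub_apply, this, Pi.single_eq_of_ne fun (e : w = b) => hw (e ▸ hbB), sub_self,
              zero_mul]
      rw [dotProduct_add, skew_dot mx_skew, h4, dotProduct_sub, h3, dotProduct_single] at h2
      exact hb0 (by simpa using h2)
    · left
      intro hi
      let z : ι → F := fun w => if w ∈ B then -(mx B A *ᵥ u) w else u w
      have hz : ∀ w, w ∉ B → z w = u w := fun w hw => if_neg hw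
      have := hi z (fun w hw => ?_) (h.cyc.2 fun b hb => ?_)
      · exact hN fun w hw => (hz w hw).symm.trans (congrFun this w)
      · by_cases hB : w ∈ B
        · have hX : w ∈ X := by
            by_contra h'
            exact hw (Or.inr ⟨hB, h'⟩)
          simp only [z, if_pos hB, huX w hX, neg_zero]
        · rw [hz w hB]
          exact huY w fun h' => hw (Or.inl ⟨h', hB⟩)
      · rw [mv_congr hz hb]
        simp only [z, if_pos hb, neg_add_cancel]
  · rintro (hi | hb)
    · unfold Ind at hi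
      push Not at hi
      obtain ⟨c, hc, hm, h0⟩ := hi
      have hu : ∀ w, w ∉ B → Bᶜ.indicator c w = c w := fun w hw => Set.indicator_of_mem hw _
      have hu' : ∀ w ∈ B, Bᶜ.indicator c w = 0 := fun w hw =>
        Set.indicator_of_notMem (not_not.2 hw) _
      refine ⟨Bᶜ.indicator c, fun h1 => h0 (h.ind c (fun w hw => ?_) hm), fun y hy => ?_,
        fun x hx => ?_⟩
      · rw [← hu w hw, h1]
        rfl
      · by_cases hB : y ∈ B
        · exact hu' y hB
        · rw [hu y hB]
          exact hc y (by rintro (h' | h') <;> [exact hy h'.1; exact hB h'.1])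
      · by_cases hB : x ∈ B
        · have h1 := h.cyc.1 hm x hB
          rw [hc x (by rintro (h' | h') <;> [exact h'.2 hB; exact h'.2 hx]), zero_add] at h1
          rw [mv_congr hu hB, h1]
        · rw [mv_apply]
          refine Finset.sum_eq_zero fun w _ => ?_
          by_cases hw : w ∈ B
          · rw [hu' w hw, mul_zero]
          · rw [mx_NN hB hw, zero_mul]
    · push Not at hb
      obtain ⟨b, hbB, hb⟩ := hb
      obtain ⟨f, hf, hk⟩ := Submodule.exists_le_ker_of_notMem hb
      have hT : ∀ e ∈ (B \ Y) ∪ (X \ B), f (v e) = 0 := fun e he => hk (H30.mem_sp_of_mem v he)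
      refine ⟨B.indicator fun e => f (v e), fun h1 => hf ?_, fun y hy => ?_, fun x hx => ?_⟩
      · have := congrFun h1 b
        rwa [Set.indicator_of_mem hbB] at this
      · by_cases hB : y ∈ B
        · rw [Set.indicator_of_mem hB]
          exact hT y (Or.inl ⟨hB, hy⟩)
        · exact Set.indicator_of_notMem hB _
      · by_cases hB : x ∈ B
        · rw [mv_congr (z' := 0) (fun w hw => Set.indicator_of_notMem hw _) hB, mulVec_zero]
          rfl
        · have h1 := hT x (Or.inr ⟨hx, hB⟩)
          rw [← h.eq x, lc_apply, map_sum] at h1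
          rw [mv_apply, ← neg_eq_zero, ← Finset.sum_neg_distrib, ← h1]
          refine Finset.sum_congr rfl fun w _ => ?_
          by_cases hw : w ∈ B
          · rw [mx_NB hB hw, Set.indicator_of_mem hw, map_smul, smul_eq_mul]
            ring
          · rw [mx_NN hB hw, h.on x w hw]
            simp

lemma Std.rk_le [FiniteDimensional F V] (h : Std v B A) {X : Set ι} {l : ℕ}
    (hl : RkLE (mx B A) X Xᶜ l) : rk F v X + rk F v Xᶜ ≤ rk F v Set.univ + l := by
  classical
  obtain ⟨x, y, hxy⟩ := hl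
  let P : Matrix ι (Fin l) F := Matrix.of fun u k => if u ∈ X ∧ u ∉ B then x u k else 0
  let Q : Matrix (Fin l) ι F := Matrix.of fun k w => if w ∉ X ∧ w ∉ B then y w k else 0
  have hPQ : P * Q = 0 := by
    ext u w
    rw [Matrix.mul_apply, Matrix.zero_apply]
    by_cases hu : u ∈ X ∧ u ∉ B
    · by_cases hw : w ∉ X ∧ w ∉ B
      · have := hxy u hu.1 w hw.1
        rw [mx_NN hu.2 hw.2] at this
        simp only [P, Q, Matrix.of_apply, if_pos hu, if_pos hw]
        exact this.symm
      · simp only [Q, Matrix.of_apply, if_neg hw, mul_zero, Finset.sum_const_zero]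
    · simp only [P, Matrix.of_apply, if_neg hu, zero_mul, Finset.sum_const_zero]
  have h1 := Matrix.rank_add_rank_le_card_of_mul_eq_zero hPQ
  rw [Fintype.card_fin, ← Matrix.rank_transpose P] at h1
  let P' : Matrix ι (Fin l) F := Matrix.of fun u k => if u ∈ X ∧ u ∈ B then x u k else 0
  let Q' : Matrix ι (Fin l) F := Matrix.of fun w k => if w ∉ X ∧ w ∈ B then -y w k else 0
  have h2 : sp F v X ⊓ sp F v Xᶜ ≤
      (LinearMap.range Q.mulVecLin).map ((lc v).comp P'.mulVecLin) ⊔
        (LinearMap.range Pᵀ.mulVecLin).map ((lc v).comp Q'.mulVecLin) := by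
    rintro t ⟨ht, ht'⟩
    obtain ⟨c, hc, rfl⟩ := H30.mem_sp.1 ht
    obtain ⟨d, hd, he⟩ := H30.mem_sp.1 ht'
    have h3 := h.cyc.1 (show lc v (c - d) = 0 by rw [map_sub, he, sub_self])
    have h4 : co B A c = P' *ᵥ (Q *ᵥ d) + Q' *ᵥ (Pᵀ *ᵥ c) := by
      funext b
      rw [Pi.add_apply, mulVec_mulVec, mulVec_mulVec, mv_apply, mv_apply]
      by_cases hb : b ∈ B
      · rw [co, Set.indicator_of_mem hb, Pi.add_apply]
        by_cases hX : b ∈ X
        · have h5 := h3 b hb
          rw [mulVec_sub, Pi.sub_apply, Pi.sub_apply, hd b (not_not.2 hX)] at h5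
          have h6 : c b + (mx B A *ᵥ c) b = (mx B A *ᵥ d) b := by linear_combination h5
          have h7 : ∀ w, (Q' * Pᵀ) b w = 0 := fun w => by
            simp [Matrix.mul_apply, Q', hX]
          simp only [h7, zero_mul, Finset.sum_const_zero, add_zero]
          rw [h6, mv_apply]
          refine Finset.sum_congr rfl fun w _ => ?_
          by_cases hw : w ∈ X
          · rw [hd w (not_not.2 hw), mul_zero, mul_zero]
          · congr 1
            by_cases hwB : w ∈ B
            · rw [mx_BB hb hwB]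
              simp [Matrix.mul_apply, Q, hwB]
            · rw [hxy b hX w hw]
              simp [Matrix.mul_apply, P', Q, hX, hb, hw, hwB, dotProduct]
        · have h7 : ∀ w, (P' * Q) b w = 0 := fun w => by
            simp [Matrix.mul_apply, P', hX]
          simp only [h7, zero_mul, Finset.sum_const_zero, zero_add]
          rw [hc b hX, zero_add, mv_apply]
          refine Finset.sum_congr rfl fun w _ => ?_
          by_cases hw : w ∈ X
          · congr 1
            by_cases hwB : w ∈ B
            · rw [mx_BB hb hwB]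
              simp [Matrix.mul_apply, P, hwB]
            · rw [mx_skew b w, hxy w hw b hX]
              simp [Matrix.mul_apply, P, Q', hX, hb, hw, hwB, dotProduct, mul_comm]
          · rw [hc w hw, mul_zero, mul_zero]
      · rw [co, Set.indicator_of_notMem hb]
        simp [Matrix.mul_apply, P', Q', hb]
    rw [← h.lc_co, h4, map_add]
    exact Submodule.add_mem_sup ⟨_, ⟨d, rfl⟩, rfl⟩ ⟨_, ⟨c, rfl⟩, rfl⟩
  have h3 := Submodule.finrank_mono h2
  have h4 := Submodule.finrank_add_le_finrank_add_finrank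
    ((LinearMap.range Q.mulVecLin).map ((lc v).comp P'.mulVecLin))
    ((LinearMap.range Pᵀ.mulVecLin).map ((lc v).comp Q'.mulVecLin))
  have h5 := Submodule.finrank_map_le ((lc v).comp P'.mulVecLin) (LinearMap.range Q.mulVecLin)
  have h6 := Submodule.finrank_map_le ((lc v).comp Q'.mulVecLin) (LinearMap.range Pᵀ.mulVecLin)
  have h7 := Submodule.finrank_sup_add_finrank_inf_eq (sp F v X) (sp F v Xᶜ)
  rw [← H30.sp_union, Set.union_compl_self] at h7
  unfold Matrix.rank at h1
  unfold rk
  omega

open Classical in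
lemma Std.scale {v' : ι → V} {A' : ι → ι → F} (h : Std v B A) (h' : Std v' B A') {c : ι → Fˣ}
    (hc : ∀ u w, mx B A' u w = (c u : F) * (c w : F) * mx B A u w) (z : ι → F) :
    lc v' z = 0 ↔ lc v (fun e => z e * ((if e ∈ B then (c e)⁻¹ else c e : Fˣ) : F)) = 0 := by
  rw [h.cyc, h'.cyc]
  refine forall₂_congr fun b hb => ?_
  have e : z b + (mx B A' *ᵥ z) b = (c b : F) *
      (z b * ((if b ∈ B then (c b)⁻¹ else c b : Fˣ) : F) +
        (mx B A *ᵥ fun e => z e * ((if e ∈ B then (c e)⁻¹ else c e : Fˣ) : F)) b) := by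
    rw [if_pos hb, mul_add, mul_left_comm, Units.mul_inv, mul_one, mv_apply, mv_apply,
      Finset.mul_sum]
    congr 1
    refine Finset.sum_congr rfl fun w _ => ?_
    rw [hc]
    by_cases hw : w ∈ B
    · rw [mx_BB hb hw]
      ring
    · rw [if_neg hw]
      ring
  rw [e, mul_eq_zero, or_iff_right (c b).ne_zero]

lemma abstract [FiniteDimensional F V] {m N : ℕ}
    (H : ∀ (col : ι → Bool) (S : Fin N → Matrix ι ι F), Fam col S → (∀ i, Conn m (S i)) →
      ∃ i j, i ≠ j ∧ EquivOn Set.univ (S i) (S j)) (hN : 1 ≤ N) (w : Fin N → ι → V)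
    (hI : ∀ i j I, Ind (w i) (⊥ : Submodule F V) I → Ind (w j) (⊥ : Submodule F V) I)
    (hr : ∀ i j S, rk F (w i) S = rk F (w j) S)
    (hc : ∀ i, ∀ j < m + 2, ∀ X : Set ι, j ≤ X.ncard → j ≤ Xᶜ.ncard →
      rk F (w i) Set.univ + j ≤ rk F (w i) X + rk F (w i) Xᶜ) :
    ∃ i j, i ≠ j ∧ ∃ c : ι → Fˣ, ∀ z : ι → F,
      lc (w j) z = 0 ↔ lc (w i) (fun e => z e * (c e : F)) = 0 := by
  classical
  have hm : ∀ i j S b, w i b ∈ sp F (w i) S → w j b ∈ sp F (w j) S := fun i j S b h => by
    rw [H30.mem_iff_rk] at h ⊢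
    rw [← hr i j, ← hr i j, h]
  obtain ⟨B, -, -, hB, hs⟩ := (H30.ind_empty (w ⟨0, hN⟩) (⊥ : Submodule F V)).extend Set.univ
  rw [bot_sup_eq] at hs
  have hA : ∀ i e, ∃ a : ι → F, On B a ∧ lc (w i) a = w i e := fun i e =>
    H30.mem_sp.1 (hm _ i B e (hs (H30.mem_sp_of_mem _ (Set.mem_univ e))))
  choose A hA1 hA2 using hA
  have st : ∀ i, Std (w i) B (A i) := fun i => ⟨hI _ i B hB, hA1 i, hA2 i⟩
  obtain ⟨i, j, hij, c, h⟩ := H (fun e => decide (e ∈ B)) (fun i => mx B (A i))
    ⟨fun _ => mx_skew, fun _ => mx_bip, fun i j X Y => by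
      rw [(st i).dep_iff, (st j).dep_iff]
      exact or_congr (not_congr ⟨hI i j _, hI j i _⟩) (not_congr
        ⟨fun h b hb => hm i j _ b (h b hb), fun h b hb => hm j i _ b (h b hb)⟩)⟩
    (fun i X l hl hX => by
      by_contra hn
      push Not at hn
      have h1 := hc i (l + 1) (by omega) X hn.1 hn.2
      have h2 := (st i).rk_le hX
      omega)
  exact ⟨i, j, hij, _, (st i).scale (st j) fun u w => h u trivial w trivial⟩

end std

section transport

variable {F F' E : Type} [Field F] [Field F'] (ψ : F ≃+* F')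

lemma map_map (S : Matrix E E F) : (S.map ψ).map ψ.symm = S := by
  ext u w
  simp

lemma dep_map [Fintype E] {S : Matrix E E F} {X Y : Set E} (h : Dep S X Y) :
    Dep (S.map ψ) X Y := by
  obtain ⟨u, h0, hY, hX⟩ := h
  refine ⟨fun e => ψ (u e), fun h => h0 (funext fun e => ?_), fun y hy => ?_, fun x hx => ?_⟩
  · simpa using congrFun h e
  · simp [hY y hy]
  · have := congrArg ψ (hX x hx)
    rw [mv_apply, map_sum, map_zero] at this
    rw [mv_apply, ← this]
    exact Finset.sum_congr rfl fun w _ => by simp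

lemma dep_map_iff [Fintype E] {S : Matrix E E F} {X Y : Set E} :
    Dep (S.map ψ) X Y ↔ Dep S X Y :=
  ⟨fun h => map_map ψ S ▸ dep_map ψ.symm h, dep_map ψ⟩

lemma rkLE_map {S : Matrix E E F} {X Y : Set E} {l : ℕ} (h : RkLE S X Y l) :
    RkLE (S.map ψ) X Y l := by
  obtain ⟨x, y, h⟩ := h
  refine ⟨fun u k => ψ (x u k), fun u k => ψ (y u k), fun u hu w hw => ?_⟩
  simp [h u hu w hw, dotProduct, map_sum]

lemma equivOn_map {S T : Matrix E E F} {W : Set E} (h : EquivOn W S T) :
    EquivOn W (S.map ψ) (T.map ψ) := by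
  obtain ⟨c, h⟩ := h
  refine ⟨fun e => Units.map (ψ : F →* F') (c e), fun u hu w hw => ?_⟩
  simp [h u hu w hw]

include ψ in
lemma main_map {m N : ℕ} (H : ∀ (E : Type) [Fintype E] (col : E → Bool)
    (S : Fin N → Matrix E E F'), Fam col S → (∀ i, Conn m (S i)) →
      ∃ i j, i ≠ j ∧ EquivOn Set.univ (S i) (S j)) (E : Type) [Fintype E] (col : E → Bool)
    (S : Fin (N + 1) → Matrix E E F) (hS : Fam col S) (hc : ∀ i, Conn m (S i)) :
    ∃ i j, i ≠ j ∧ EquivOn Set.univ (S i) (S j) := by
  obtain ⟨i, j, hij, h⟩ := H E col (fun i => (S i.castSucc).map ψ)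
    ⟨fun i u w => by rw [Matrix.map_apply, Matrix.map_apply, hS.skew _ u w, map_neg],
      fun i u w h => by rw [Matrix.map_apply, hS.bip _ u w h, map_zero],
      fun i j X Y => by rw [dep_map_iff, dep_map_iff]; exact hS.same _ _ X Y⟩
    fun i X l hl h => hc _ X l hl (map_map ψ (S i.castSucc) ▸ rkLE_map ψ.symm h)
  have := equivOn_map ψ.symm h
  rw [map_map, map_map] at this
  exact ⟨_, _, fun e => hij (Fin.castSucc_injective _ e), this⟩

end transport

end MAT

theorem mat {F : Type} [Field F] [Fintype F] (m : ℕ) : MAT F m := by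
  classical
  intro N H hN α _ M hM n v hv
  have := Fintype.ofFinite α
  have hsp : ∀ i (X : Set M.E), H30.rk F (fun e : M.E => v i e) X =
      H30.rk F (v i) (Subtype.val '' X) := fun i X => by
    unfold H30.rk H30.sp
    rw [Set.image_image]
  have hsub : ∀ X : Set M.E, Subtype.val '' X ⊆ M.E := fun X => Subtype.coe_image_subset _ X
  have hrk : ∀ i (X : Set M.E), M.eRk (Subtype.val '' X) =
      (H30.rk F (fun e : M.E => v i e) X : ℕ) := fun i X => by
    rw [hsp, H30.eRk_eq (hv i) (hsub X)]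
  obtain ⟨i, j, hij, c, h⟩ := MAT.abstract (H M.E) hN (fun i (e : M.E) => v i e)
    (fun i j I hI => by
      rw [H30.ind_iff] at hI ⊢
      have h1 := LinearIndepOn.image_of_comp (Subtype.val : M.E → α) (v i) hI
      exact ((hv j _ (hsub I)).1 ((hv i _ (hsub I)).2 h1)).comp_of_image
        Subtype.val_injective.injOn)
    (fun i j S => by exact_mod_cast (hrk i S).symm.trans (hrk j S))
    (fun i j hj X h1 h2 => by
      have e : M.E \ Subtype.val '' X = Subtype.val '' Xᶜ := by
        ext a
        constructor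
        · rintro ⟨ha, hn⟩
          exact ⟨⟨a, ha⟩, fun h => hn ⟨_, h, rfl⟩, rfl⟩
        · rintro ⟨a, ha, rfl⟩
          exact ⟨a.2, fun h => ha ((Subtype.val_injective.mem_set_image).1 h)⟩
      have := hM j hj _ (hsub X) (by rwa [Set.ncard_image_of_injective _ Subtype.val_injective])
        (by rwa [e, Set.ncard_image_of_injective _ Subtype.val_injective])
      have e2 := hrk i Set.univ
      rw [Subtype.coe_image_univ, M.eRk_ground] at e2
      rw [e, e2, hrk i, hrk i] at this
      exact_mod_cast this)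
  obtain ⟨φ, c', σ, h'⟩ : H30.Equivalent Set.univ (fun e : M.E => v i e) fun e : M.E => v j e :=
    H30.equivalent_iff.2 ⟨c, RingEquiv.refl F, fun z _ => h z⟩
  refine ⟨i, j, hij, φ, fun a => if ha : a ∈ M.E then c' ⟨a, ha⟩ else 1, σ, fun e he => ?_⟩
  simp only [dif_pos he]
  exact h' ⟨e, he⟩ trivial

/-- The matroid form for all fields with as many elements as `F₀`. -/
theorem final_of_card {F₀ : Type} [Field F₀] [Fintype F₀] {m : ℕ} (h : MAIN F₀ m) :
    ∃ h : ℕ, ∀ (F : Type) [Field F] [Fintype F], Fintype.card F = Fintype.card F₀ →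
      ∀ (α : Type) [Finite α] (M : Matroid α), H30.TutteConnected M (m + 2) →
      ∀ (n : ℕ) (v : Fin (h + 1) → α → Fin n → F), (∀ i, H30.Rep M (v i)) →
        ∃ i j, i ≠ j ∧ H30.Equivalent M.E (v i) (v j) := by
  obtain ⟨N, H⟩ := h
  exact ⟨N, fun F _ _ hF => mat m (N + 1)
    (MAT.main_map (FiniteField.ringEquivOfCardEq hF) H) (by omega)⟩

theorem final_of_main {p k m : ℕ} [Fact p.Prime] (hk : k ≠ 0) (h : MAIN (GaloisField p k) m) :
    ∃ h : ℕ, ∀ (F : Type) [Field F] [Fintype F], Fintype.card F = p ^ k →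
      ∀ (α : Type) [Finite α] (M : Matroid α), H30.TutteConnected M (m + 2) →
      ∀ (n : ℕ) (v : Fin (h + 1) → α → Fin n → F), (∀ i, H30.Rep M (v i)) →
        ∃ i j, i ≠ j ∧ H30.Equivalent M.E (v i) (v j) := by
  have := Fintype.ofFinite (GaloisField p k)
  have hc : Fintype.card (GaloisField p k) = p ^ k := by
    rw [← Nat.card_eq_fintype_card, GaloisField.card p k hk]
  obtain ⟨N, H⟩ := final_of_card h
  exact ⟨N, fun F _ _ hF => H F (hF.trans hc.symm)⟩

end Pool.Agent.MP_d99b12_co.H25
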