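import Pool.Agent.MP_d99b12_co.H25.Spec
import Pool.Agent.MP_d99b12_co.H25.Piv
import Pool.Agent.MP_d99b12_co.H25.Comb

/-! # Shortening a blocking walk to a deviant triple -/

namespace Pool.Agent.MP_d99b12_co.H25

open Matrix

namespace WALK

variable {F : Type} [Field F] {E ι : Type}

/-- The row `u` does not see `w` as the row `k` does (base column `e`). -/
def Edge (M : Matrix E E F) (k e u w : E) : Prop := M u w * M k e ≠ M u e * M k w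

/-- The row `u` has no edge to the triple. -/
def Tame (M : Matrix E E F) (k b1 a b2 u : E) : Prop :=
  M u a = 0 ∧ M u b1 * M k b2 = M u b2 * M k b1

lemma Tame.swap {M : Matrix E E F} {k b1 a b2 u : E} (h : Tame M k b1 a b2 u) :
    Tame M k b2 a b1 u := ⟨h.1, h.2.symm⟩

lemma edge_swap {M : Matrix E E F} {k b1 b2 u w : E} (h2 : M k b2 ≠ 0)
    (hu : M u b1 * M k b2 = M u b2 * M k b1) (h : Edge M k b1 u w) : Edge M k b2 u w := by
  intro e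
  apply h
  apply mul_right_cancel₀ h2
  linear_combination M k b1 * e - M k w * hu

lemma uc_swap {M M' : Matrix E E F} {k b1 a b2 : E} (h : UC4 M M' k b1 a b2) :
    UC4 M M' k b2 a b1 := by
  obtain ⟨h1, h2, h3, h4, h5⟩ := h
  exact ⟨h2, h1, h4, h3, fun e => h5 e.symm⟩

/-- The map `s ↦ (1 - s) / (r - s)` is injective for `r ≠ 1`. -/
lemma moebius {k1 k2 a1 a2 z1 z2 k1' k2' a1' a2' z1' z2' : F} (h1 : k1 ≠ 0) (h2 : k2 ≠ 0)
    (h3 : a2 ≠ 0) (h4 : z2 ≠ 0) (h1' : k1' ≠ 0) (h2' : k2' ≠ 0) (h3' : a2' ≠ 0) (h4' : z2' ≠ 0)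
    (huc : k1' * a2' * (k2 * a1) ≠ k2' * a1' * (k1 * a2)) (hed : z1 * k2 ≠ z2 * k1)
    (hcr : k1' * z2' * (k2 * z1) = k2' * z1' * (k1 * z2))
    (e : (k1' - k2' * a1' / a2') * (z2' / a2') * (k2 / a2 * (z1 - z2 * a1 / a2)) =
      k2' / a2' * (z1' - z2' * a1' / a2') * ((k1 - k2 * a1 / a2) * (z2 / a2))) : False := by
  obtain ⟨s, rfl⟩ : ∃ s, a1 = s * a2 * k1 / k2 := ⟨a1 * k2 / (a2 * k1), by field_simp⟩
  obtain ⟨s', rfl⟩ : ∃ s', a1' = s' * a2' * k1' / k2' := ⟨a1' * k2' / (a2' * k1'), by field_simp⟩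
  obtain ⟨r, rfl⟩ : ∃ r, z1 = r * z2 * k1 / k2 := ⟨z1 * k2 / (z2 * k1), by field_simp⟩
  obtain ⟨r', rfl⟩ : ∃ r', z1' = r' * z2' * k1' / k2' := ⟨z1' * k2' / (z2' * k1'), by field_simp⟩
  have hr : r = r' := by
    field_simp at hcr
    linear_combination hcr
  subst hr
  have hs : s ≠ s' := by
    rintro rfl
    apply huc
    field_simp
  have hr1 : r ≠ 1 := by
    rintro rfl
    apply hed
    field_simp
  field_simp at e
  have : (s - s') * (1 - r) = 0 := by linear_combination -e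
  rcases mul_eq_zero.1 this with h | h
  · exact hs (sub_eq_zero.1 h)
  · exact hr1 (sub_eq_zero.1 h).symm

variable [Fintype E]

structure Hyp (d : Dsp F E ι) (i1 i2 : ι) (O : Set E) (k b1 a b2 : E) : Prop where
  fam : Fam d.1 d.2
  hk : k ∈ O
  h1 : b1 ∉ O
  ha : a ∉ O
  h2 : b2 ∉ O
  uc : UC4 (d.2 i1) (d.2 i2) k b1 a b2
  tame : ∀ o ∈ O, Tame (d.2 i1) k b1 a b2 o

/-- One step: a new display and a new triple that is reached one step earlier. -/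
def Out (d : Dsp F E ι) (i1 i2 : ι) (O : Set E) (k b1 a b2 z : E) : Prop :=
  ∃ (d' : Dsp F E ι) (b1' a' b2' : E), HReach O d d' ∧ Hyp d' i1 i2 O k b1' a' b2' ∧
    (∀ i, ∃ κ : Fˣ, ∀ w ∈ O, d'.2 i w b1' = κ * d.2 i w b1) ∧
    ∀ u, u ≠ b1 → u ≠ a → u ≠ b2 → Tame (d.2 i1) k b1 a b2 u →
      (∀ w, w ≠ b1 → w ≠ a → w ≠ b2 → Tame (d.2 i1) k b1 a b2 w → ¬Edge (d.2 i1) k b1 u z →
        Edge (d.2 i1) k b1 u w → Edge (d'.2 i1) k b1' u w) ∧
      (Edge (d.2 i1) k b1 u z → ∃ t ∈ ({b1', a', b2'} : Set E), Edge (d'.2 i1) k b1' u t)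

variable {d : Dsp F E ι} {i1 i2 : ι} {O : Set E} {k b1 a b2 z : E}

lemma tame_all (hf : Fam d.1 d.2) {u : E} (h : Tame (d.2 i1) k b1 a b2 u) (i : ι) :
    Tame (d.2 i) k b1 a b2 u :=
  ⟨(hf.zero_iff i1 i u a).1 h.1, ((hf.same i1 i).det2 u k b1 b2).1 h.2⟩

lemma edge_all (hf : Fam d.1 d.2) {e u w : E} (h : Edge (d.2 i1) k e u w) (i : ι) :
    Edge (d.2 i) k e u w := fun e' => h (((hf.same i1 i).det2 u k w e).2 e')

lemma ne_all (hf : Fam d.1 d.2) {u w : E} (h : d.2 i1 u w ≠ 0) (i : ι) : d.2 i u w ≠ 0 :=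
  fun e => h ((hf.zero_iff i1 i u w).2 e)

lemma zero_all (hf : Fam d.1 d.2) {u w : E} (h : d.2 i1 u w = 0) (i : ι) : d.2 i u w = 0 :=
  (hf.zero_iff i1 i u w).1 h

namespace Hyp

variable (h : Hyp d i1 i2 O k b1 a b2)
include h

lemma swap : Hyp d i1 i2 O k b2 a b1 :=
  ⟨h.fam, h.hk, h.h2, h.ha, h.h1, uc_swap h.uc, fun o ho => (h.tame o ho).swap⟩

lemma k1 (i : ι) : d.2 i k b1 ≠ 0 := ne_all h.fam h.uc.1 i
lemma k2 (i : ι) : d.2 i k b2 ≠ 0 := ne_all h.fam h.uc.2.1 i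
lemma a1 (i : ι) : d.2 i a b1 ≠ 0 := ne_all h.fam h.uc.2.2.1 i
lemma a2 (i : ι) : d.2 i a b2 ≠ 0 := ne_all h.fam h.uc.2.2.2.1 i
lemma oa (i : ι) {o : E} (ho : o ∈ O) : d.2 i o a = 0 := zero_all h.fam (h.tame o ho).1 i
lemma ka (i : ι) : d.2 i k a = 0 := h.oa i h.hk

/-- The cross ratio is not one. -/
lemma cr (i : ι) : d.2 i k b1 * d.2 i a b2 ≠ d.2 i k b2 * d.2 i a b1 := by
  intro e
  have e1 := ((h.fam.same i i1).det2 k a b1 b2).1 e
  have e2 := ((h.fam.same i i2).det2 k a b1 b2).1 e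
  apply h.uc.2.2.2.2
  rw [e1, e2]

lemma a_ne1 : a ≠ b1 := fun e => h.a1 i1 (by rw [e]; exact h.fam.diag i1 b1)
lemma a_ne2 : a ≠ b2 := fun e => h.a2 i1 (by rw [e]; exact h.fam.diag i1 b2)
lemma b_ne : b1 ≠ b2 := fun e => h.cr i1 (by rw [e])

lemma par (i : ι) : ∃ κ : Fˣ, ∀ w ∈ O, d.2 i w b2 = κ * d.2 i w b1 := by
  refine ⟨Units.mk0 (d.2 i k b2 / d.2 i k b1) (div_ne_zero (h.k2 i) (h.k1 i)), fun w hw => ?_⟩
  have := (tame_all h.fam (h.tame w hw) i).2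
  have h1 := h.k1 i
  simp only [Units.val_mk0]
  field_simp
  linear_combination -this

lemma col12 : d.1 b1 = d.1 b2 := by
  have e1 := h.fam.col_ne (h.k1 i1)
  have e2 := h.fam.col_ne (h.k2 i1)
  revert e1 e2
  cases d.1 k <;> cases d.1 b1 <;> cases d.1 b2 <;> simp

lemma colka : d.1 k = d.1 a := by
  have e1 := h.fam.col_ne (h.k1 i1)
  have e2 := h.fam.col_ne (h.a1 i1)
  revert e1 e2
  cases d.1 k <;> cases d.1 b1 <;> cases d.1 a <;> simp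

lemma out_swap (ho : Out d i1 i2 O k b2 a b1 z) : Out d i1 i2 O k b1 a b2 z := by
  obtain ⟨d', b1', a', b2', hr, hh, hκ, he⟩ := ho
  refine ⟨d', b1', a', b2', hr, hh, fun i => ?_, fun u u1 ua u2 hu => ?_⟩
  · obtain ⟨κ, hκ⟩ := hκ i
    obtain ⟨κ', hκ'⟩ := h.par i
    refine ⟨κ * κ', fun w hw => ?_⟩
    rw [hκ w hw, hκ' w hw, Units.val_mul, mul_assoc]
  · obtain ⟨he1, he2⟩ := he u u2 ua u1 hu.swap
    refine ⟨fun w w1 wa w2 hw hz e => ?_, fun e => ?_⟩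
    · exact he1 w w2 wa w1 hw.swap (fun e' => hz (edge_swap (h.k1 i1) hu.2.symm e'))
        (edge_swap (h.k2 i1) hu.2 e)
    · exact he2 (edge_swap (h.k2 i1) hu.2 e)

/-- A column `z` that replaces `b2`, no pivot. -/
lemma out_col1 (hz : z ∉ O) (hO : ∀ o ∈ O, ¬Edge (d.2 i1) k b1 o z)
    (hu : UC4 (d.2 i1) (d.2 i2) k b1 a z) : Out d i1 i2 O k b1 a b2 z := by
  refine ⟨d, b1, a, z, Relation.ReflTransGen.refl,
    ⟨h.fam, h.hk, h.h1, h.ha, hz, hu, fun o ho => ⟨(h.tame o ho).1, ?_⟩⟩,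
    fun i => ⟨1, fun w _ => by simp⟩, fun u _ _ _ _ => ⟨fun w _ _ _ _ _ e => e, fun e => ?_⟩⟩
  · exact (not_not.1 (hO o ho)).symm
  · exact ⟨z, by simp, e⟩

/-- A row `z` that replaces `a`, no pivot. -/
lemma out_row1 (hz : z ∉ O) (hO : NoNb (d.2 i1) O z)
    (hu : UC4 (d.2 i1) (d.2 i2) k b1 z b2) : Out d i1 i2 O k b1 a b2 z :=
  ⟨d, b1, z, b2, Relation.ReflTransGen.refl,
    ⟨h.fam, h.hk, h.h1, hz, h.h2, hu, fun o ho => ⟨hO o ho, (h.tame o ho).2⟩⟩,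
    fun i => ⟨1, fun w _ => by simp⟩,
    fun u _ _ _ _ => ⟨fun w _ _ _ _ _ e => e, fun e => ⟨z, by simp, e⟩⟩⟩

/-- An uncharged column `z` next to `a`: pivot on the pair `a, z`. -/
lemma out_col2 (hz : z ∉ O) (z1 : z ≠ b1) (z2 : z ≠ b2) (hO : NoNb (d.2 i1) O z)
    (hza : d.2 i1 z a ≠ 0) : Out d i1 i2 O k b1 a b2 z := by
  have hf := h.fam
  have haz : d.2 i1 a z ≠ 0 := fun e => hza ((hf.zero_comm i1 a z).1 e)
  have az : a ≠ z := fun e => haz (by rw [e]; exact hf.diag i1 z)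
  have hs := HStep.mk' hf i1 h.ha hz haz hO
  have hf' : Fam (colFlip d.1 {a, z}) fun i => epiv (d.2 i) a z := hf.epiv (ne_all hf haz)
  have oa : ∀ o ∈ O, o ≠ a := fun o ho e => h.ha (e ▸ ho)
  have oz : ∀ o ∈ O, o ≠ z := fun o ho e => hz (e ▸ ho)
  -- entries
  have E1 : ∀ i u v, u ≠ a → u ≠ z → v ≠ a → v ≠ z → d.2 i u a = 0 →
      epiv (d.2 i) a z u v = d.2 i u v - d.2 i u z * d.2 i a v / d.2 i a z := by
    intro i u v h1 h2 h3 h4 h5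
    rw [epiv_uv _ h1 h2 h3 h4, h5]
    simp
  have E2 : ∀ i, ∀ o ∈ O, ∀ v, v ≠ a → v ≠ z → epiv (d.2 i) a z o v = d.2 i o v := by
    intro i o ho v h3 h4
    rw [E1 i o v (oa o ho) (oz o ho) h3 h4 (h.oa i ho), zero_all hf (hO o ho) i]
    simp
  have E3 : ∀ i v, v ≠ a → v ≠ z → epiv (d.2 i) a z z v = -d.2 i a v / d.2 i a z :=
    fun i v h3 h4 => epiv_yv _ az h3 h4
  have b1a := h.a_ne1.symm
  have b2a := h.a_ne2.symm
  have b1z := z1.symm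
  have b2z := z2.symm
  refine ⟨(colFlip d.1 {a, z}, fun i => epiv (d.2 i) a z), b1, z, b2,
    Relation.ReflTransGen.single hs, ⟨hf', h.hk, h.h1, hz, h.h2, ?_, fun o ho => ⟨?_, ?_⟩⟩,
    fun i => ⟨1, fun w hw => ?_⟩, fun u u1 ua u2 hu => ⟨fun w w1 wa w2 hw hn e => ?_, fun e => ?_⟩⟩
  · have p1 := ne_all hf haz i1
    have p2 := ne_all hf haz i2
    refine ⟨?_, ?_, ?_, ?_, ?_⟩
    · show epiv (d.2 i1) a z k b1 ≠ 0
      rw [E2 i1 k h.hk b1 b1a b1z]; exact h.k1 i1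
    · show epiv (d.2 i1) a z k b2 ≠ 0
      rw [E2 i1 k h.hk b2 b2a b2z]; exact h.k2 i1
    · show epiv (d.2 i1) a z z b1 ≠ 0
      rw [E3 i1 b1 b1a b1z]; exact div_ne_zero (neg_ne_zero.2 (h.a1 i1)) p1
    · show epiv (d.2 i1) a z z b2 ≠ 0
      rw [E3 i1 b2 b2a b2z]; exact div_ne_zero (neg_ne_zero.2 (h.a2 i1)) p1
    · show epiv (d.2 i2) a z k b1 * epiv (d.2 i2) a z z b2 *
          (epiv (d.2 i1) a z k b2 * epiv (d.2 i1) a z z b1) ≠
        epiv (d.2 i2) a z k b2 * epiv (d.2 i2) a z z b1 *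
          (epiv (d.2 i1) a z k b1 * epiv (d.2 i1) a z z b2)
      rw [E2 i1 k h.hk b1 b1a b1z, E2 i1 k h.hk b2 b2a b2z, E2 i2 k h.hk b1 b1a b1z,
        E2 i2 k h.hk b2 b2a b2z, E3 i1 b1 b1a b1z, E3 i1 b2 b2a b2z, E3 i2 b1 b1a b1z,
        E3 i2 b2 b2a b2z]
      intro e
      apply h.uc.2.2.2.2
      field_simp at e
      linear_combination e
  · show epiv (d.2 i1) a z o z = 0
    rw [epiv_uy _ az (oa o ho) (oz o ho), h.oa i1 ho, zero_div]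
  · show epiv (d.2 i1) a z o b1 * epiv (d.2 i1) a z k b2 =
      epiv (d.2 i1) a z o b2 * epiv (d.2 i1) a z k b1
    rw [E2 i1 k h.hk b1 b1a b1z, E2 i1 k h.hk b2 b2a b2z, E2 i1 o ho b1 b1a b1z,
      E2 i1 o ho b2 b2a b2z]
    exact (h.tame o ho).2
  · show epiv (d.2 i) a z w b1 = _
    rw [E2 i w hw b1 b1a b1z]; simp
  · have uz : u ≠ z := fun e' => hza (e' ▸ hu.1)
    have wz : w ≠ z := fun e' => hza (e' ▸ hw.1)
    have huz : d.2 i1 u z = 0 := by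
      have := not_not.1 hn
      rw [hO k h.hk, mul_zero] at this
      exact (mul_eq_zero.1 this).resolve_right (h.k1 i1)
    show epiv (d.2 i1) a z u w * epiv (d.2 i1) a z k b1 ≠
      epiv (d.2 i1) a z u b1 * epiv (d.2 i1) a z k w
    rw [E2 i1 k h.hk b1 b1a b1z, E2 i1 k h.hk w wa wz, E1 i1 u w ua uz wa wz hu.1,
      E1 i1 u b1 ua uz b1a b1z hu.1, huz]
    simpa [Edge] using e
  · have uz : u ≠ z := fun e' => hza (e' ▸ hu.1)
    have huz : d.2 i1 u z ≠ 0 := by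
      intro e'
      apply e
      rw [hO k h.hk, e', mul_zero, zero_mul]
    refine ⟨b2, by simp, ?_⟩
    show epiv (d.2 i1) a z u b2 * epiv (d.2 i1) a z k b1 ≠
      epiv (d.2 i1) a z u b1 * epiv (d.2 i1) a z k b2
    rw [E2 i1 k h.hk b1 b1a b1z, E2 i1 k h.hk b2 b2a b2z, E1 i1 u b2 ua uz b2a b2z hu.1,
      E1 i1 u b1 ua uz b1a b1z hu.1]
    intro e'
    apply h.cr i1
    apply mul_left_cancel₀ huz
    have h2 := hu.2
    field_simp at e'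
    linear_combination -e' - d.2 i1 a z * h2

/-- An uncharged row `z` next to `b2` with the same cross ratio in both members: pivot on the
pair `b2, a`. -/
lemma out_row2 (hz : z ∉ O) (za : z ≠ a) (z2 : z ≠ b2) (hO : NoNb (d.2 i1) O z)
    (hza : d.2 i1 z a = 0) (hz2 : d.2 i1 z b2 ≠ 0)
    (hed : d.2 i1 z b1 * d.2 i1 k b2 ≠ d.2 i1 z b2 * d.2 i1 k b1)
    (hcr : d.2 i2 k b1 * d.2 i2 z b2 * (d.2 i1 k b2 * d.2 i1 z b1) =
      d.2 i2 k b2 * d.2 i2 z b1 * (d.2 i1 k b1 * d.2 i1 z b2)) :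
    Out d i1 i2 O k b1 a b2 z := by
  have hf := h.fam
  have h2a : d.2 i1 b2 a ≠ 0 := fun e => h.a2 i1 ((hf.zero_comm i1 b2 a).1 e)
  have b2a : b2 ≠ a := h.a_ne2.symm
  have b1a : b1 ≠ a := h.a_ne1.symm
  have b12 : b1 ≠ b2 := h.b_ne
  have hs := HStep.mk' hf i1 h.h2 h.ha h2a (fun o ho => h.oa i1 ho)
  have hf' : Fam (colFlip d.1 {b2, a}) fun i => epiv (d.2 i) b2 a := hf.epiv (ne_all hf h2a)
  have oa : ∀ o ∈ O, o ≠ a := fun o ho e => h.ha (e ▸ ho)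
  have o2 : ∀ o ∈ O, o ≠ b2 := fun o ho e => h.h2 (e ▸ ho)
  have k2 := o2 k h.hk
  have ka := oa k h.hk
  have E1 : ∀ i u v, u ≠ b2 → u ≠ a → v ≠ b2 → v ≠ a → d.2 i u a = 0 →
      epiv (d.2 i) b2 a u v = d.2 i u v - d.2 i u b2 * d.2 i a v / d.2 i a b2 := by
    intro i u v h1 h2 h3 h4 h5
    rw [epiv_uv _ h1 h2 h3 h4, h5]
    simp
  have E2 : ∀ i u v, u ≠ b2 → u ≠ a → v ≠ b2 → v ≠ a → d.2 i u a = 0 → d.2 i v a = 0 →
      epiv (d.2 i) b2 a u v = d.2 i u v := by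
    intro i u v h1 h2 h3 h4 h5 h6
    rw [E1 i u v h1 h2 h3 h4 h5, (hf.zero_comm i v a).1 h6]
    simp
  have E3 : ∀ i u, u ≠ b2 → u ≠ a → epiv (d.2 i) b2 a u a = d.2 i u b2 / d.2 i a b2 :=
    fun i u h1 h2 => epiv_uy _ b2a h1 h2
  -- the factor on the column `b1`
  have hκ : ∀ i, (1 : F) - d.2 i k b2 * d.2 i a b1 / (d.2 i k b1 * d.2 i a b2) ≠ 0 := by
    intro i e
    apply h.cr i
    have p1 := h.k1 i
    have p2 := h.a2 i
    field_simp at e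
    linear_combination e
  have E4 : ∀ i u, u ≠ b2 → u ≠ a → Tame (d.2 i1) k b1 a b2 u → epiv (d.2 i) b2 a u b1 =
      (1 - d.2 i k b2 * d.2 i a b1 / (d.2 i k b1 * d.2 i a b2)) * d.2 i u b1 := by
    intro i u h1 h2 hu
    have hu' := tame_all hf hu i
    rw [E1 i u b1 h1 h2 b12 b1a hu'.1]
    have p1 := h.k1 i
    have p2 := h.a2 i
    have p3 := hu'.2
    field_simp
    linear_combination d.2 i a b1 * p3
  have tk := h.tame k h.hk
  have E5 : ∀ u w, u ≠ b2 → u ≠ a → w ≠ b2 → w ≠ a → Tame (d.2 i1) k b1 a b2 u →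
      d.2 i1 w a = 0 → Edge (d.2 i1) k b1 u w → Edge (epiv (d.2 i1) b2 a) k b1 u w := by
    intro u w h1 h2 h3 h4 hu hw e e'
    rw [E2 i1 u w h1 h2 h3 h4 hu.1 hw, E2 i1 k w k2 ka h3 h4 tk.1 hw, E4 i1 u h1 h2 hu,
      E4 i1 k k2 ka tk] at e'
    apply e
    apply mul_left_cancel₀ (hκ i1)
    linear_combination e'
  have hza' := zero_all hf hza
  have hrs : ∀ i, d.2 i z b1 * d.2 i a b2 ≠ d.2 i z b2 * d.2 i a b1 := by
    intro i e
    have e1 := ((hf.same i i1).det2 z a b1 b2).1 e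
    have e2 := ((hf.same i i2).det2 z a b1 b2).1 e
    apply h.uc.2.2.2.2
    have p1 := hz2
    have p2 := ne_all hf hz2 i2
    apply mul_left_cancel₀ p1
    apply mul_left_cancel₀ p2
    linear_combination d.2 i1 a b2 * d.2 i2 a b2 * hcr
      - d.2 i2 k b1 * d.2 i2 z b2 * d.2 i1 k b2 * d.2 i2 a b2 * e1
      + d.2 i2 k b2 * d.2 i1 k b1 * d.2 i1 z b2 * d.2 i1 a b2 * e2
  refine ⟨(colFlip d.1 {b2, a}, fun i => epiv (d.2 i) b2 a), b1, z, a,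
    Relation.ReflTransGen.single hs, ⟨hf', h.hk, h.h1, hz, h.ha, ?_, fun o ho => ⟨?_, ?_⟩⟩,
    fun i => ⟨Units.mk0 _ (hκ i), fun w hw => ?_⟩,
    fun u u1 ua u2 hu => ⟨fun w w1 wa w2 hw _ e => ?_, fun e => ?_⟩⟩
  · refine ⟨?_, ?_, ?_, ?_, ?_⟩
    · show epiv (d.2 i1) b2 a k b1 ≠ 0
      rw [E4 i1 k k2 ka tk]; exact mul_ne_zero (hκ i1) (h.k1 i1)
    · show epiv (d.2 i1) b2 a k a ≠ 0
      rw [E3 i1 k k2 ka]; exact div_ne_zero (h.k2 i1) (h.a2 i1)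
    · show epiv (d.2 i1) b2 a z b1 ≠ 0
      rw [E1 i1 z b1 z2 za b12 b1a hza]
      intro e
      apply hrs i1
      have p2 := h.a2 i1
      field_simp at e
      linear_combination e
    · show epiv (d.2 i1) b2 a z a ≠ 0
      rw [E3 i1 z z2 za]; exact div_ne_zero hz2 (h.a2 i1)
    · show epiv (d.2 i2) b2 a k b1 * epiv (d.2 i2) b2 a z a *
          (epiv (d.2 i1) b2 a k a * epiv (d.2 i1) b2 a z b1) ≠
        epiv (d.2 i2) b2 a k a * epiv (d.2 i2) b2 a z b1 *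
          (epiv (d.2 i1) b2 a k b1 * epiv (d.2 i1) b2 a z a)
      rw [E1 i1 k b1 k2 ka b12 b1a (h.ka i1), E1 i2 k b1 k2 ka b12 b1a (h.ka i2),
        E1 i1 z b1 z2 za b12 b1a (hza' i1), E1 i2 z b1 z2 za b12 b1a (hza' i2),
        E3 i1 k k2 ka, E3 i2 k k2 ka, E3 i1 z z2 za, E3 i2 z z2 za]
      intro e
      exact moebius (h.k1 i1) (h.k2 i1) (h.a2 i1) hz2 (h.k1 i2) (h.k2 i2) (h.a2 i2)
        (ne_all hf hz2 i2) h.uc.2.2.2.2 hed hcr e
  · show epiv (d.2 i1) b2 a o z = 0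
    rw [E2 i1 o z (o2 o ho) (oa o ho) z2 za (h.oa i1 ho) hza]
    exact hO o ho
  · show epiv (d.2 i1) b2 a o b1 * epiv (d.2 i1) b2 a k a =
      epiv (d.2 i1) b2 a o a * epiv (d.2 i1) b2 a k b1
    rw [E4 i1 o (o2 o ho) (oa o ho) (h.tame o ho), E4 i1 k k2 ka tk, E3 i1 k k2 ka,
      E3 i1 o (o2 o ho) (oa o ho)]
    have p3 := (h.tame o ho).2
    linear_combination (1 - d.2 i1 k b2 * d.2 i1 a b1 / (d.2 i1 k b1 * d.2 i1 a b2)) /
      d.2 i1 a b2 * p3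
  · exact E4 i w (o2 w hw) (oa w hw) (h.tame w hw)
  · exact E5 u w u2 ua w2 wa hu hw.1 e
  · exact ⟨z, by simp, E5 u z u2 ua z2 za hu hza e⟩

/-- The step. -/
lemma out (hz : z ∉ O) (z1 : z ≠ b1) (za : z ≠ a) (z2 : z ≠ b2)
    (hO : ∀ o ∈ O, ¬Edge (d.2 i1) k b1 o z) (hn : ¬Tame (d.2 i1) k b1 a b2 z) :
    Out d i1 i2 O k b1 a b2 z := by
  have hf := h.fam
  have nb : d.2 i1 k z = 0 → NoNb (d.2 i1) O z := by
    intro hkz o ho
    have := not_not.1 (hO o ho)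
    rw [hkz, mul_zero] at this
    exact (mul_eq_zero.1 this).resolve_right (h.k1 i1)
  by_cases hza : d.2 i1 z a = 0
  · have hed : d.2 i1 z b1 * d.2 i1 k b2 ≠ d.2 i1 z b2 * d.2 i1 k b1 := fun e => hn ⟨hza, e⟩
    have hor : d.2 i1 z b1 ≠ 0 ∨ d.2 i1 z b2 ≠ 0 := by
      by_contra hc
      push Not at hc
      apply hed
      rw [hc.1, hc.2, zero_mul, zero_mul]
    have hkz : d.2 i1 k z = 0 := by
      apply hf.bip i1
      have e1 := hf.col_ne (h.k1 i1)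
      have e2 := h.col12
      rcases hor with h' | h'
      · have e3 := hf.col_ne h'
        revert e1 e3
        cases d.1 k <;> cases d.1 b1 <;> cases d.1 z <;> simp
      · have e3 := hf.col_ne h'
        rw [← e2] at e3
        revert e1 e3
        cases d.1 k <;> cases d.1 b1 <;> cases d.1 z <;> simp
    by_cases hu : UC4 (d.2 i1) (d.2 i2) k b1 z b2
    · exact h.out_row1 hz (nb hkz) hu
    have hcr : d.2 i2 k b1 * d.2 i2 z b2 * (d.2 i1 k b2 * d.2 i1 z b1) =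
        d.2 i2 k b2 * d.2 i2 z b1 * (d.2 i1 k b1 * d.2 i1 z b2) := by
      by_cases e1 : d.2 i1 z b1 = 0
      · rw [e1, zero_all hf e1 i2]; ring
      by_cases e2 : d.2 i1 z b2 = 0
      · rw [e2, zero_all hf e2 i2]; ring
      by_contra hc
      exact hu ⟨h.k1 i1, h.k2 i1, e1, e2, hc⟩
    rcases hor with h' | h'
    · exact h.out_swap (h.swap.out_row2 hz za z1 (nb hkz) hza h' hed.symm hcr.symm)
    · exact h.out_row2 hz za z2 (nb hkz) hza h' hed hcr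
  · by_cases hkz : d.2 i1 k z = 0
    · exact h.out_col2 hz z1 z2 (nb hkz) hza
    have haz : d.2 i1 a z ≠ 0 := fun e => hza ((hf.zero_comm i1 a z).1 e)
    by_cases hu : UC4 (d.2 i1) (d.2 i2) k b1 a z
    · exact h.out_col1 hz hO hu
    refine h.out_swap (h.swap.out_col1 hz
      (fun o ho e => hO o ho (edge_swap (h.k1 i1) (h.tame o ho).2.symm e))
      ⟨h.k2 i1, hkz, h.a2 i1, haz, fun e2 => ?_⟩)
    apply hu
    refine ⟨h.k1 i1, hkz, h.a1 i1, haz, fun e1 => ?_⟩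
    apply h.uc.2.2.2.2
    have p1 := ne_all hf haz i2
    have p2 := ne_all hf hkz i2
    apply mul_left_cancel₀ (mul_ne_zero (mul_ne_zero p1 p2) (mul_ne_zero hkz haz))
    linear_combination
      d.2 i2 k z * d.2 i2 a b2 * d.2 i1 k b2 * d.2 i1 a z * e1 -
        d.2 i2 k z * d.2 i2 a b1 * d.2 i1 k b1 * d.2 i1 a z * e2

lemma tame_of {u : E} (hu : ∀ t ∈ ({b1, a, b2} : Set E), ¬Edge (d.2 i1) k b1 u t) :
    Tame (d.2 i1) k b1 a b2 u := by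
  refine ⟨?_, (not_not.1 (hu b2 (by simp))).symm⟩
  have := not_not.1 (hu a (by simp))
  rw [h.ka i1, mul_zero] at this
  exact (mul_eq_zero.1 this).resolve_right (h.k1 i1)

lemma not_edge {u : E} (hu : Tame (d.2 i1) k b1 a b2 u) :
    ∀ t ∈ ({b1, a, b2} : Set E), ¬Edge (d.2 i1) k b1 u t := by
  intro t ht e
  apply e
  rcases ht with rfl | rfl | rfl
  · rfl
  · rw [hu.1, h.ka i1, mul_zero, zero_mul]
  · exact hu.2.symm

end Hyp

/-- The conclusion. -/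
def Fin2 (d : Dsp F E ι) (i1 i2 : ι) (O : Set E) (k b1 : E) : Prop :=
  ∃ (b : Dsp F E ι) (b1' a' b2' v o : E), HReach O d b ∧ Hyp b i1 i2 O k b1' a' b2' ∧ v ∉ O ∧
    v ≠ b1' ∧ v ≠ a' ∧ v ≠ b2' ∧ (∀ i, ∃ κ : Fˣ, ∀ w ∈ O, b.2 i w b1' = κ * d.2 i w b1) ∧
    o ∈ O ∧ Edge (b.2 i1) k b1' o v ∧ ¬Tame (b.2 i1) k b1' a' b2' v

lemma main (ℓ : ℕ) : ∀ (d : Dsp F E ι) (b1 a b2 : E) (z : ℕ → E), Hyp d i1 i2 O k b1 a b2 →
    Walk (Edge (d.2 i1) k b1) O {b1, a, b2} ℓ z → Fin2 d i1 i2 O k b1 := by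
  induction ℓ using Nat.strong_induction_on with
  | _ ℓ ih =>
  intro d b1 a b2 z0 h hw0
  obtain ⟨n, z, hn, hw⟩ := hw0.exists_sWalk
  have hT : ∀ t ∈ ({b1, a, b2} : Set E), t ∉ O := by
    intro t ht
    rcases ht with rfl | rfl | rfl
    exacts [h.h1, h.ha, h.h2]
  have out3 : ∀ i < n, z i ≠ b1 ∧ z i ≠ a ∧ z i ≠ b2 := by
    intro i hi
    have := hw.notMem_stop hi
    simpa [not_or] using this
  have n0 : n ≠ 0 := by
    rintro rfl
    exact hT _ hw.stop hw.start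
  have n1 : n ≠ 1 := by
    rintro rfl
    exact h.not_edge (h.tame _ hw.start) _ hw.stop (hw.step 0 (by norm_num))
  obtain ⟨p, rfl⟩ : ∃ p, n = p + 2 := ⟨n - 2, by omega⟩
  have hnt : ¬Tame (d.2 i1) k b1 a b2 (z (p + 1)) :=
    fun ht => h.not_edge ht _ hw.stop (hw.step (p + 1) (by omega))
  have hzO : z (p + 1) ∉ O := hw.notMem_start (by omega) (by omega)
  obtain ⟨z1, za, z2⟩ := out3 (p + 1) (by omega)
  rcases Nat.eq_zero_or_pos p with rfl | hp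
  · exact ⟨d, b1, a, b2, z 1, z 0, Relation.ReflTransGen.refl, h, hzO, z1, za, z2,
      fun i => ⟨1, fun w _ => by simp⟩, hw.start, hw.step 0 (by norm_num), hnt⟩
  have tm : ∀ i ≤ p, Tame (d.2 i1) k b1 a b2 (z i) :=
    fun i hi => h.tame_of fun t ht => hw.chord_stop ht (by omega)
  obtain ⟨d', b1', a', b2', hr, h', hκ, he⟩ := h.out hzO z1 za z2
    (fun o ho => hw.chord_start ho (by omega) (by omega)) hnt
  obtain ⟨p1, pa, p2⟩ := out3 p (by omega)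
  obtain ⟨t, ht, het⟩ := (he (z p) p1 pa p2 (tm p le_rfl)).2 (hw.step p (by omega))
  have hw' : Walk (Edge (d'.2 i1) k b1') O {b1', a', b2'} (p + 1)
      (fun i => if i ≤ p then z i else t) := by
    refine ⟨by simpa using hw.start, by simpa using ht, fun i hi => ?_⟩
    rcases Nat.lt_or_ge i p with hip | hip
    · have e1 : i ≤ p := hip.le
      have e2 : i + 1 ≤ p := hip
      simp only [e1, e2, if_true]
      obtain ⟨u1, ua, u2⟩ := out3 i (by omega)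
      obtain ⟨w1, wa, w2⟩ := out3 (i + 1) (by omega)
      exact (he (z i) u1 ua u2 (tm i e1)).1 (z (i + 1)) w1 wa w2 (tm _ e2)
        (hw.chord (by omega) (by omega)) (hw.step i (by omega))
    · have e : i = p := by omega
      subst e
      simpa using het
  obtain ⟨b, c1, c, c2, v, o, hr', hh, hv, v1, va, v2, hκ', ho, hed, hnt'⟩ :=
    ih (p + 1) (by omega) d' b1' a' b2' _ h' hw'
  refine ⟨b, c1, c, c2, v, o, hr.trans hr', hh, hv, v1, va, v2, fun i => ?_, ho, hed, hnt'⟩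
  obtain ⟨κ, hκ⟩ := hκ i
  obtain ⟨κ', hκ'⟩ := hκ' i
  refine ⟨κ' * κ, fun w hw => ?_⟩
  rw [hκ' w hw, hκ w hw, Units.val_mul, mul_assoc]

end WALK

open WALK in
theorem walk {F : Type} [Field F] [Fintype F] : WALK F := by
  intro E ι _ d i1 i2 O k b1 a b2 hf hk h1 ha h2 hu hn hp hNS
  have h : Hyp d i1 i2 O k b1 a b2 := ⟨hf, hk, h1, ha, h2, hu, fun o ho => ⟨hn o ho, hp o ho⟩⟩
  rcases exists_sWalk_or_closed (Edge (d.2 i1) k b1) O {b1, a, b2} with ⟨ℓ, z, hw⟩ | ⟨X, hX, hd, hc⟩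
  · obtain ⟨b, c1, c, c2, v, o, hr, hh, hv, v1, va, v2, hκ, ho, hed, hnt⟩ :=
      main ℓ d b1 a b2 z h hw.toWalk
    refine ⟨b, c1, c, c2, v, o, hr, hh.h1, hh.ha, hh.h2, hv, v1, va, v2, hh.uc,
      fun i o' ho' => hh.oa i ho', fun i => ?_, ho, fun i => edge_all hh.fam hed i, fun i => ?_⟩
    · obtain ⟨κ, hκ⟩ := hκ i
      obtain ⟨κ', hκ'⟩ := hh.par i
      refine ⟨κ, κ' * κ, fun w hw => ⟨hκ w hw, ?_⟩⟩
      rw [hκ' w hw, hκ w hw, Units.val_mul, mul_assoc]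
    · by_contra hc
      push Not at hc
      exact hnt (tame_all (i1 := i) hh.fam hc i1)
  · exfalso
    have hT : ∀ t ∈ ({b1, a, b2} : Set E), t ∈ Xᶜ := fun t ht hx => Set.disjoint_left.1 hd hx ht
    refine hNS Xᶜ (Set.disjoint_left.2 fun x hx ho => hx (hX ho)) (hT _ (by simp)) (hT _ (by simp))
      (hT _ (by simp)) fun w hw x hx => ?_
    exact not_not.1 (hc w (not_not.1 hw) x hx)

end Pool.Agent.MP_d99b12_co.H25
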