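import Pool.Agent.MP_d99b12_co.H25.CL
import Pool.Agent.MP_d99b12_co.H25.WALK

/-! # Row MIDW: invariance of the block on `O` without a visible pair; rows MID1 and WALKP -/

namespace Pool.Agent.MP_d99b12_co.H25

open Matrix

namespace MIDW

variable {F : Type} [Field F] {E : Type} [Fintype E] {O : Set E} {a : Dsp F E Bool}

omit [Fintype E] in
/-- Without a visible pair the gain of an edge between charged vertices is pinned. -/
lemma pin (hv : ¬VisR O a) {x y : E} {α β : F} (hx : x ∉ O) (hy : y ∉ O)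
    (cx : ¬NoNb (a.2 false) O x) (cy : ¬NoNb (a.2 false) O y)
    (px : ∀ o ∈ O, a.2 true o x = α * a.2 false o x)
    (py : ∀ o ∈ O, a.2 true o y = β * a.2 false o y) :
    a.2 true x y = α * β * a.2 false x y := by
  by_contra h
  exact hv ⟨a, Relation.ReflTransGen.refl, x, y, hx, hy, CL.devP_pair cx cy px py h⟩

omit [Fintype E] in
lemma charged {M : Matrix E E F} {o x : E} (ho : o ∈ O) (h : M o x ≠ 0) : ¬NoNb M O x :=
  fun hn => h (hn o ho)

/-- All vertices of the pivot set are charged: the two matrices are equivalent on `O ∪ Z`. -/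
lemma inv_base (ha : Fam a.1 a.2) (hpar : ParAll O a) (hv : ¬VisR O a)
    (hag : AgreeOn O (a.2 false) (a.2 true)) {Z : Set E} {M : Bool → Matrix E E F}
    (hd : Disjoint Z O) (hp : ∀ b, IsPiv (a.2 b) (M b) Z) (hc : ∀ z ∈ Z, ¬NoNb (a.2 false) O z) :
    AgreeOn O (M false) (M true) := by
  classical
  have hex : ∀ v, ∃ c : Fˣ, (v ∈ O → c = 1) ∧
      (v ∉ O → ∀ o ∈ O, a.2 true o v = (c : F) * a.2 false o v) := by
    intro v
    by_cases h : v ∈ O
    · exact ⟨1, fun _ => rfl, fun h' => absurd h h'⟩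
    · obtain ⟨c, hc⟩ := hpar a Relation.ReflTransGen.refl v h
      exact ⟨c, fun h' => absurd h' h, fun _ => hc⟩
  choose c c1 c2 using hex
  have hZ : ∀ z ∈ Z, z ∉ O := fun z hz => Set.disjoint_left.1 hd hz
  have hs : ∀ u ∈ O ∪ Z, ∀ v ∈ O ∪ Z, a.2 true u v = scale c (a.2 false) u v := by
    rintro u (hu | hu) v (hv' | hv') <;> rw [scale_apply]
    · rw [c1 u hu, c1 v hv', hag u hu v hv']
      simp
    · rw [c1 u hu, c2 v (hZ v hv') u hu]
      simp
    · rw [c1 v hv', ha.skew true u v, ha.skew false u v, c2 u (hZ u hu) v hv']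
      simp
    · exact pin hv (hZ u hu) (hZ v hv') (hc u hu) (hc v hv') (c2 u (hZ u hu)) (c2 v (hZ v hv'))
  intro u hu v hv'
  have := ((hp false).scale c).agree_rect (hp true) Set.subset_union_right Set.subset_union_right
    hs u (Or.inl hu) v (Or.inl hv')
  rw [this, scale_apply, Set.piecewise_eq_of_notMem _ _ _ (fun h => hZ u h hu),
    Set.piecewise_eq_of_notMem _ _ _ (fun h => hZ v h hv'), c1 u hu, c1 v hv']
  simp

/-- Without a visible pair, every common pivot outside `O` keeps the blocks on `O` equal. -/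
lemma inv (n : ℕ) : ∀ (a : Dsp F E Bool) (Z : Set E) (M : Bool → Matrix E E F), Z.ncard ≤ n →
    Fam a.1 a.2 → ParAll O a → ¬VisR O a → AgreeOn O (a.2 false) (a.2 true) → Disjoint Z O →
    (∀ b, IsPiv (a.2 b) (M b) Z) → AgreeOn O (M false) (M true) := by
  classical
  induction n with
  | zero =>
    intro a Z M hn ha hpar hv hag hd hp
    have hZ : Z = ∅ := (Set.ncard_eq_zero (Set.toFinite Z)).1 (Nat.le_zero.1 hn)
    exact inv_base ha hpar hv hag hd hp fun z hz => absurd (hZ ▸ hz) (Set.notMem_empty z)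
  | succ n ih =>
    intro a Z M hn ha hpar hv hag hd hp
    by_cases hc : ∀ z ∈ Z, ¬NoNb (a.2 false) O z
    · exact inv_base ha hpar hv hag hd hp hc
    push Not at hc
    obtain ⟨y, hy, ny⟩ := hc
    have hx : ∃ x ∈ Z, a.2 false x y ≠ 0 := by
      by_contra h
      push Not at h
      refine (hp false).not_dep ⟨Pi.single y 1, ?_, fun w hw => ?_, fun x hx => ?_⟩
      · intro e
        simpa using congrFun e y
      · exact Pi.single_eq_of_ne (fun e : w = y => hw (e ▸ hy)) 1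
      · simpa using h x hx
    obtain ⟨x, hx, hxy⟩ := hx
    have hZ : ∀ z ∈ Z, z ∉ O := fun z hz => Set.disjoint_left.1 hd hz
    have hr : HReach O a _ :=
      Relation.ReflTransGen.single (HStep.mk' ha false (hZ x hx) (hZ y hy) hxy ny)
    have hsub : symmDiff ({x, y} : Set E) Z ⊆ Z \ {y} := by
      rintro w (⟨h1, h2⟩ | ⟨h1, h2⟩)
      · rcases h1 with rfl | rfl
        · exact absurd hx h2
        · exact absurd hy h2
      · exact ⟨h1, fun e => h2 (Or.inr e)⟩
    refine ih _ (symmDiff {x, y} Z) M ?_ (hr.fam ha) (hpar.reach hr) (fun h => hv (h.of_reach hr))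
      ((hr.agree ha false).symm.trans (hag.trans (hr.agree ha true)))
      (hd.mono_left fun w hw => (hsub hw).1) fun b => ?_
    · have h1 := Set.ncard_le_ncard hsub (Set.toFinite _)
      have h2 := Set.ncard_sdiff_singleton_lt_of_mem hy (Set.toFinite Z)
      omega
    · exact (epiv_isPiv (ha.diag b x) (ha.diag b y) (CL.adj_all ha hxy b)
        (CL.adj_symm ha (CL.adj_all ha hxy b))).symm.comp (hp b)

/-- A pair with consistent gains is not deviant. -/
lemma not_devP (ha : Fam a.1 a.2) {x y : E} {α β : Fˣ} (hx : x ∉ O) (hy : y ∉ O)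
    (px : ∀ o ∈ O, a.2 true o x = α * a.2 false o x)
    (py : ∀ o ∈ O, a.2 true o y = β * a.2 false o y)
    (h : a.2 true x y = α * β * a.2 false x y) : ¬DevP O (a.2 false) (a.2 true) {x, y} := by
  classical
  refine not_not.2 ⟨fun w => if w = x then α else if w = y then β else 1, fun o ho => ?_, ?_⟩
  · simp [CL.ne_of_mem ho hx, CL.ne_of_mem ho hy]
  · rintro u (hu | rfl | rfl) v (rfl | rfl)
    · simp [CL.ne_of_mem hu hx, CL.ne_of_mem hu hy, px u hu]
    · by_cases e : v = x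
      · subst e
        simp [CL.ne_of_mem hu hx, px u hu]
      · simp [CL.ne_of_mem hu hx, CL.ne_of_mem hu hy, py u hu, e]
    · simp [ha.diag]
    · by_cases e : v = u
      · subst e
        simp [ha.diag]
      · simp [e, h]
    · by_cases e : u = v
      · subst e
        simp [ha.diag]
      · rw [ha.skew true u v, ha.skew false u v, h]
        simp only [e, if_true, if_false]
        ring
    · simp [ha.diag]

/-- A deviant pair with parallel columns is an edge with two charged ends. -/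
lemma dev_pair (ha : Fam a.1 a.2) {x y : E} {α β : Fˣ} (hx : x ∉ O) (hy : y ∉ O)
    (px : ∀ o ∈ O, a.2 true o x = α * a.2 false o x)
    (py : ∀ o ∈ O, a.2 true o y = β * a.2 false o y)
    (h : DevP O (a.2 false) (a.2 true) {x, y}) :
    a.2 false x y ≠ 0 ∧ ¬NoNb (a.2 false) O x ∧ ¬NoNb (a.2 false) O y ∧
      a.2 true x y ≠ α * β * a.2 false x y := by
  have hne : a.2 true x y ≠ α * β * a.2 false x y := fun e => not_devP ha hx hy px py e h
  have hxy : a.2 false x y ≠ 0 := fun e => hne (by rw [e, CL.zero_all ha e, mul_zero])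
  have hxy' := CL.adj_all ha hxy true
  refine ⟨hxy, fun n => ?_, fun n => ?_, hne⟩
  · refine not_devP ha (α := Units.mk0 _ hxy' * (β * Units.mk0 _ hxy)⁻¹) hx hy
      (fun o ho => by rw [n o ho, CL.zero_all ha (n o ho), mul_zero]) py ?_ h
    simp only [Units.val_mul, Units.val_inv_eq_inv_val, Units.val_mk0]
    have := β.ne_zero
    field_simp
  · refine not_devP ha (β := Units.mk0 _ hxy' * (α * Units.mk0 _ hxy)⁻¹) hx hy px
      (fun o ho => by rw [n o ho, CL.zero_all ha (n o ho), mul_zero]) ?_ h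
    simp only [Units.val_mul, Units.val_inv_eq_inv_val, Units.val_mk0]
    have := α.ne_zero
    field_simp

lemma minor_ne (ha : Fam a.1 a.2) {k b1 r b2 : E} (uc : UC4 (a.2 false) (a.2 true) k b1 r b2) :
    a.2 false k b1 * a.2 false r b2 ≠ a.2 false k b2 * a.2 false r b1 := by
  intro e
  have e' := ((ha.same false true).det2 k r b1 b2).1 e
  exact uc.2.2.2.2 (by rw [e, e'])

/-- A charged row that is not proportional to `k` on the two columns. -/
lemma rowcase (ha : Fam a.1 a.2) (hpar : ParAll O a) (hv : ¬VisR O a) {k b1 r b2 v : E}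
    (hk : k ∈ O) (h1 : b1 ∉ O) (hr : r ∉ O) (h2 : b2 ∉ O) (h3 : v ∉ O) (vr : v ≠ r) (v2 : v ≠ b2)
    (uc : UC4 (a.2 false) (a.2 true) k b1 r b2) (nr : NoNb (a.2 false) O r)
    (cv : ¬NoNb (a.2 false) O v) (hvr : a.2 false v r = 0)
    (hed : a.2 false v b1 * a.2 false k b2 ≠ a.2 false v b2 * a.2 false k b1)
    (g : a.2 false v b2 ≠ 0) : False := by
  have hm := minor_ne ha uc
  obtain ⟨-, n2⟩ := CL.uc_ne uc
  obtain ⟨g1, g2, g3, g4, g5⟩ := uc
  obtain ⟨d1, p1⟩ := hpar a Relation.ReflTransGen.refl b1 h1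
  obtain ⟨d2, p2⟩ := hpar a Relation.ReflTransGen.refl b2 h2
  obtain ⟨γ, p3⟩ := hpar a Relation.ReflTransGen.refl v h3
  have q1 := pin hv h3 h1 cv (charged hk g1) p3 p1
  have q2 := pin hv h3 h2 cv (charged hk g2) p3 p2
  have hs := Relation.ReflTransGen.single (HStep.mk' ha false h2 hr (CL.adj_symm ha g4) nr)
  have d3 := (CL.ne_of_adj ha g3).symm
  have d4 := (CL.ne_of_adj ha g4).symm
  have e1 : ∀ i u, u ≠ b2 → u ≠ r → a.2 false u r = 0 → epiv (a.2 i) b2 r u b1 =
      a.2 i u b1 - a.2 i u b2 * a.2 i r b1 / a.2 i r b2 := fun i u u1 u2 u3 => by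
    rw [epiv_uv _ u1 u2 n2.symm d3, CL.zero_all ha u3]
    ring
  have e2 : ∀ i u, u ≠ b2 → u ≠ r → epiv (a.2 i) b2 r u r = a.2 i u b2 / a.2 i r b2 :=
    fun i u u1 u2 => epiv_uy _ d4 u1 u2
  have k2 := CL.ne_of_mem hk h2
  have kr := CL.ne_of_mem hk hr
  obtain ⟨o, ho, hov⟩ := CL.exists_nb cv
  have e3 : epiv (a.2 false) b2 r o v = a.2 false o v := by
    rw [epiv_uv _ (CL.ne_of_mem ho h2) (CL.ne_of_mem ho hr) v2 vr, nr o ho,
      (ha.zero_comm false v r).1 hvr]
    ring
  obtain ⟨f1, s1⟩ := hpar _ hs b1 h1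
  obtain ⟨f2, s2⟩ := hpar _ hs r hr
  obtain ⟨f3, s3⟩ := hpar _ hs v h3
  have hv' := fun h => hv (VisR.of_reach h hs)
  have cv' : ¬NoNb (epiv (a.2 false) b2 r) O v := charged ho (e3 ▸ hov)
  have c1' : ¬NoNb (epiv (a.2 false) b2 r) O b1 := by
    refine charged hk ?_
    rw [e1 false k k2 kr (nr k hk)]
    intro e
    apply hm
    field_simp at e
    linear_combination e
  have cr' : ¬NoNb (epiv (a.2 false) b2 r) O r := by
    refine charged hk ?_
    rw [e2 false k k2 kr]
    exact div_ne_zero g2 g4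
  have t1 := pin hv' h3 h1 cv' c1' s3 s1
  have t2 := pin hv' h3 hr cv' cr' s3 s2
  have t3 := s1 k hk
  have t4 := s2 k hk
  simp only [e1 _ v v2 vr hvr, e1 _ k k2 kr (nr k hk), e2 _ v v2 vr, e2 _ k k2 kr] at t1 t2 t3 t4
  refine WALK.moebius (z1' := a.2 true v b1) g1 g2 g4 g (CL.adj_all ha g1 true) (CL.adj_all ha g2 true)
    (CL.adj_all ha g4 true) (CL.adj_all ha g true) g5 hed ?_ ?_
  · rw [q1, q2, p1 k hk, p2 k hk]
    ring
  · rw [t1, t2, t3, t4]
    ring

/-- A third column at the uncharged row whose charge is not parallel to the other two. -/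
lemma colcase (ha : Fam a.1 a.2) (hpar : ParAll O a) {k b1 r b2 v o : E}
    (hk : k ∈ O) (ho : o ∈ O) (h1 : b1 ∉ O) (hr : r ∉ O) (h2 : b2 ∉ O) (h3 : v ∉ O)
    (uc : UC4 (a.2 false) (a.2 true) k b1 r b2) (nr : NoNb (a.2 false) O r)
    (g : a.2 false r v ≠ 0)
    (n1 : a.2 false o v * a.2 false k b1 ≠ a.2 false k v * a.2 false o b1)
    (n2 : a.2 false o v * a.2 false k b2 ≠ a.2 false k v * a.2 false o b2) : False := by
  obtain ⟨g1, g2, g3, g4, g5⟩ := uc
  obtain ⟨d1, p1⟩ := hpar a Relation.ReflTransGen.refl b1 h1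
  obtain ⟨d2, p2⟩ := hpar a Relation.ReflTransGen.refl b2 h2
  obtain ⟨γ, p3⟩ := hpar a Relation.ReflTransGen.refl v h3
  have q1 := CL.c0 ha hpar hr h3 h1 nr g g3 p3 p1 ho hk n1
  have q2 := CL.c0 ha hpar hr h3 h2 nr g g4 p3 p2 ho hk n2
  refine g5 (mul_left_cancel₀ (CL.adj_all ha g true) ?_)
  rw [p1 k hk, p2 k hk]
  linear_combination (a.2 false k b1 * a.2 false k b2 * a.2 true r b2) * q1 -
    (a.2 false k b1 * a.2 false k b2 * a.2 true r b1) * q2

end MIDW

theorem mid1 {F : Type} [Field F] [Fintype F] : MID1 F := by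
  intro E _ a O Z O' M x y ha hpar hag hd hp hx hy hO h
  by_contra hv
  have hM : Fam (colFlip a.1 Z, M).1 (colFlip a.1 Z, M).2 := ha.piv hp
  have h0 := MIDW.inv _ a Z M le_rfl ha hpar hv hag hd hp
  obtain ⟨hdev, ⟨α, px⟩, ⟨β, py⟩⟩ := h h0
  obtain ⟨hxy, cx, cy, hne⟩ :=
    MIDW.dev_pair hM (fun e => hx (hO e)) (fun e => hy (hO e)) px py hdev
  obtain ⟨o, ho, hox⟩ := CL.exists_nb cx
  obtain ⟨q, hq, hqy⟩ := CL.exists_nb cy
  have hd' : Disjoint (symmDiff Z ({x, y} : Set E)) O := by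
    refine Set.disjoint_left.2 ?_
    rintro w (⟨h1, -⟩ | ⟨rfl | rfl, -⟩)
    · exact Set.disjoint_left.1 hd h1
    · exact hx
    · exact hy
  have h1 := MIDW.inv _ a _ (fun b => epiv (M b) x y) le_rfl ha hpar hv hag hd' (fun b =>
    (hp b).comp (epiv_isPiv (hM.diag b x) (hM.diag b y) (CL.adj_all hM hxy b)
      (CL.adj_symm hM (CL.adj_all hM hxy b)))) o (hO ho) q (hO hq)
  have e : ∀ b, epiv (M b) x y o q = M b o q - M b o x * M b q y / M b x y := fun b => by
    have z : M b o y = 0 := CL.zero_two hM (CL.adj_symm hM hox) hxy b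
    rw [epiv_uv _ (CL.ne_of_mem (hO ho) hx) (CL.ne_of_mem (hO ho) hy) (CL.ne_of_mem (hO hq) hx)
      (CL.ne_of_mem (hO hq) hy), z, (ha.piv hp).skew b y q, (ha.piv hp).skew b y x]
    simp only [mul_neg, neg_div_neg_eq, zero_mul, zero_div, sub_zero]
  have hxy' : M true x y ≠ 0 := CL.adj_all hM hxy true
  simp only [e] at h1
  rw [h0 o (hO ho) q (hO hq), px o ho, py q hq] at h1
  simp only at hxy hne hox hqy
  refine hne (mul_right_cancel₀ (mul_ne_zero hox hqy) ?_)
  field_simp at h1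
  linear_combination h1

theorem walkp {F : Type} [Field F] [Fintype F] (h : WALK F) : WALKP F := by
  intro E _ a O k b1 a0 b2 ha hpar hk h1 h0 h2 uc ns
  by_contra hv
  obtain ⟨c1, p1⟩ := hpar a Relation.ReflTransGen.refl b1 h1
  obtain ⟨c2, p2⟩ := hpar a Relation.ReflTransGen.refl b2 h2
  by_cases n0 : NoNb (a.2 false) O a0
  swap
  · obtain ⟨α, p0⟩ := hpar a Relation.ReflTransGen.refl a0 h0
    refine uc.2.2.2.2 ?_
    rw [MIDW.pin hv h0 h1 n0 (MIDW.charged hk uc.1) p0 p1,
      MIDW.pin hv h0 h2 n0 (MIDW.charged hk uc.2.1) p0 p2, p1 k hk, p2 k hk]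
    ring
  by_cases hp : ∀ o ∈ O, a.2 false o b1 * a.2 false k b2 = a.2 false o b2 * a.2 false k b1
  swap
  · push Not at hp
    obtain ⟨o, ho, hn⟩ := hp
    have q := CL.c0 ha hpar h0 h1 h2 n0 uc.2.2.1 uc.2.2.2.1 p1 p2 ho hk
      (fun e => hn (by linear_combination e))
    refine uc.2.2.2.2 ?_
    rw [p1 k hk, p2 k hk]
    linear_combination -(a.2 false k b1 * a.2 false k b2) * q
  obtain ⟨b, b1', r, b2', v, o, hr, g1, g0, g2, g3, v1, v0, v2, uc', nr, hκ, ho, hed, hor⟩ :=
    h E Bool a false true O k b1 a0 b2 ha hk h1 h0 h2 uc n0 hp ns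
  have hb := hr.fam ha
  have hpar' := hpar.reach hr
  have hv' : ¬VisR O b := fun e => hv (e.of_reach hr)
  have hed := hed false
  by_cases hvr : b.2 false v r = 0
  · have hm := (hor false).resolve_left (not_not.2 hvr)
    have hkv : b.2 false k v = 0 := by
      by_cases z : b.2 false v b2' = 0
      · have z' : b.2 false v b1' ≠ 0 := fun e => hm (by rw [e, z, zero_mul, zero_mul])
        exact CL.zero_two hb (CL.adj_symm hb uc'.1) (CL.adj_symm hb z') false
      · exact CL.zero_two hb (CL.adj_symm hb uc'.2.1) (CL.adj_symm hb z) false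
    have cv : ¬NoNb (b.2 false) O v :=
      MIDW.charged ho fun e => hed (by rw [e, hkv, zero_mul, mul_zero])
    by_cases z : b.2 false v b2' = 0
    · have z' : b.2 false v b1' ≠ 0 := fun e => hm (by rw [e, z, zero_mul, zero_mul])
      exact MIDW.rowcase hb hpar' hv' hk g2 g0 g1 g3 v0 v1 (WALK.uc_swap uc') (nr false) cv hvr
        hm.symm z'
    · exact MIDW.rowcase hb hpar' hv' hk g1 g0 g2 g3 v0 v2 uc' (nr false) cv hvr hm z
  · obtain ⟨κ1, κ2, hκ⟩ := hκ false
    refine MIDW.colcase hb hpar' hk ho g1 g0 g2 g3 uc' (nr false) (CL.adj_symm hb hvr)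
      (fun e => hed (by linear_combination e)) fun e => hed ?_
    rw [(hκ k hk).2, (hκ o ho).2] at e
    rw [(hκ k hk).1, (hκ o ho).1]
    refine mul_left_cancel₀ κ2.ne_zero ?_
    linear_combination (κ1 : F) * e

end Pool.Agent.MP_d99b12_co.H25
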