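import Pool.Agent.MP_d99b12_co.H25.Spec
import Pool.Agent.MP_d99b12_co.H25.ChainB

/-! # The order of play: from the first chain to a visible pair of level above `m` -/

namespace Pool.Agent.MP_d99b12_co.H25

open Matrix Sum

variable {F : Type} [Field F] [Fintype F] {m : ℕ}

namespace PLAY

variable {K P : Type} [Fintype K] [Fintype P] {d : Datum F K P}

lemma inr_notMem {K P : Type} (p : P) : (inr p : K ⊕ P) ∉ Set.range inl := by simp

lemma exists_inr {K P : Type} {v : K ⊕ P} (h : v ∉ Set.range inl) : ∃ p, v = inr p := by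
  rcases v with k | p
  · exact absurd ⟨k, rfl⟩ h
  · exact ⟨p, rfl⟩

lemma parAll (hp : HP F m) (h : Real m d) (hr : d.Ref) : ParAll (Set.range inl) d.dsp := by
  intro b hb v hv
  obtain ⟨d', c, -, -, -, -, hc, -, h0, h1⟩ := hp K P d h hr b hb
  obtain ⟨p, rfl⟩ := exists_inr hv
  refine ⟨(c (inr p))⁻¹, ?_⟩
  rintro _ ⟨k, rfl⟩
  have h2 : d'.pair false (inl k) (inr p) = d'.pair true (inl k) (inr p) := rfl
  rw [← h0, h2, h1, scale_apply, hc]
  simp

lemma vis (hp : HP F m) (h : Real m d) (hr : d.Ref) (hv : VisR (Set.range inl) d.dsp) :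
    ∃ d' : Datum F K P, Real m d' ∧ d'.Ref ∧ d'.V.rank = d.V.rank ∧ (NConn d.B → NConn d'.B) ∧
      d'.Vis := by
  obtain ⟨b, hb, x, y, hx, hy, hd⟩ := hv
  obtain ⟨d', c, h1, h2, h3, h4, hc, -, h5, h6⟩ := hp K P d h hr b hb
  obtain ⟨p, rfl⟩ := exists_inr hx
  obtain ⟨q, rfl⟩ := exists_inr hy
  refine ⟨d', h1, h2, h3, h4, p, q, ?_⟩
  rw [Datum.devD_iff, h5, h6, Set.image_pair, devP_scale_iff]
  · exact hd
  · rintro _ ⟨k, rfl⟩
    exact hc k

/-- Reduce the core and augment. -/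
lemma aug (ha : AUG F m) (h : Real m d) (hr : d.Ref) (hs : SC d.B) {P0 : Set P} (hd : d.DevD P0)
    (hm : d.V.rank ≤ m) : ∃ (K' P' : Type) (_ : Fintype K') (_ : Fintype P') (d' : Datum F K' P')
      (ι : P → P'), Real m d' ∧ d'.AugOut d.V.rank (ι '' P0) := by
  obtain ⟨R, h1, h2, h3, h4⟩ := hr.exists_red
  have h5 : Fintype.card R = d.V.rank := by rw [Fintype.card_coe, h3]
  rw [← h5]
  exact ha R P _ P0 (h5.trans_le hm) (h.resK Subtype.val_injective) ⟨h1, h2, hs, h4 P0 hd⟩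

/-- A connected deviant datum of level at least `l`. -/
def Lev (F : Type) [Field F] (m l : ℕ) : Prop := ∃ (K P : Type) (_ : Fintype K) (_ : Fintype P)
  (d : Datum F K P), Real m d ∧ d.Ref ∧ NConn d.B ∧ l ≤ d.V.rank ∧ d.DevD Set.univ

/-- A connected datum of level at least `l` with a visible pair. -/
def VLev (F : Type) [Field F] (m l : ℕ) : Prop := ∃ (K P : Type) (_ : Fintype K) (_ : Fintype P)
  (d : Datum F K P), Real m d ∧ d.Ref ∧ NConn d.B ∧ l ≤ d.V.rank ∧ d.Vis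

lemma lev_succ (ha : AUG F m) (hm : 1 ≤ m) {l : ℕ} (hl : l ≤ 1) (h : Lev F m l) :
    Lev F m (l + 1) := by
  obtain ⟨K, P, _, _, d, h1, h2, h3, h4, h5⟩ := h
  by_cases h6 : l + 1 ≤ d.V.rank
  · exact ⟨K, P, _, _, d, h1, h2, h3, h6, h5⟩
  obtain ⟨K', P', _, _, d', ι, g1, g2, g3, g4, g5⟩ := aug ha h1 h2
    (h1.alg.sc (h1.alg.tau0_of_rank h2 (by omega)) h3) h5 (by omega)
  exact ⟨K', P', _, _, d', g1, g2, g3, by omega, g5.devD g1.alg⟩

/-- Augmentation keeps a visible pair. -/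
lemma vstep (hp : HP F m) (h1 : MID1 F) (ha : AUG F m) (h : Real m d) (hr : d.Ref) (hs : SC d.B)
    (hv : d.Vis) (hm : d.V.rank ≤ m) : VLev F m (d.V.rank + 1) := by
  obtain ⟨a, b, hd⟩ := hv
  obtain ⟨K', P', _, _, d', ι, g1, g2, g3, g4, Z, M, g5, g6⟩ := aug ha h hr hs hd hm
  have g7 : ∃ O ⊆ Set.range (inl : K' → K' ⊕ P'), AgreeOn (Set.range inl) (M false) (M true) →
      DevP O (M false) (M true) {inr (ι a), inr (ι b)} ∧ Par O (M false) (M true) (inr (ι a)) ∧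
        Par O (M false) (M true) (inr (ι b)) := by
    by_cases hA : AgreeOn (Set.range inl) (M false) (M true)
    · obtain ⟨O, o1, o2, o3⟩ := g6 hA
      rw [Set.image_pair, Set.image_pair] at o2
      exact ⟨O, o1, fun _ => ⟨o2, o3 _ ⟨a, by simp, rfl⟩, o3 _ ⟨b, by simp, rfl⟩⟩⟩
    · exact ⟨∅, Set.empty_subset _, fun h => absurd h hA⟩
  obtain ⟨O, o1, o2⟩ := g7
  have g8 := h1 _ d'.dsp (Set.range inl) (inr '' Z) O M _ _ g1.alg.fam_pair (parAll hp g1 g2)
    (by rintro _ ⟨k, rfl⟩ _ ⟨k', rfl⟩; rfl)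
    (Set.disjoint_left.2 (by rintro _ ⟨p, -, rfl⟩; exact inr_notMem p)) g5 (inr_notMem _)
    (inr_notMem _) o1 o2
  obtain ⟨d'', e1, e2, e3, e4, e5⟩ := vis hp g1 g2 g8
  exact ⟨K', P', _, _, d'', e1, e2, e4 g3, by omega, e5⟩

/-- The visible pair alone is a petal of level two. -/
lemma vlev_three (hp : HP F m) (h1 : MID1 F) (ha : AUG F m) (hm : 2 ≤ m) (h : Real m d)
    (hr : d.Ref) (hv : d.Vis) : VLev F m 3 := by
  classical
  obtain ⟨a, b, hd⟩ := hv
  obtain ⟨ya, yb, -, hab, hba, hc⟩ := h.alg.vis hr hd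
  have hu : ∀ x : ({a, b} : Set P), x = ⟨a, by simp⟩ ∨ x = ⟨b, by simp⟩ := by
    rintro ⟨x, rfl | rfl⟩
    · exact Or.inl rfl
    · exact Or.inr rfl
  have hs : SC (d.resP (Subtype.val : ({a, b} : Set P) → P)).B := by
    intro X hX
    have h2 : ⟨a, by simp⟩ ∈ X ↔ ⟨b, by simp⟩ ∈ X :=
      ⟨fun h3 => by_contra fun h4 => hab (hX _ h3 _ h4),
        fun h3 => by_contra fun h4 => hba (hX _ h3 _ h4)⟩
    by_cases h3 : ⟨a, by simp⟩ ∈ X
    · refine Or.inr (Set.eq_univ_of_forall fun x => ?_)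
      rcases hu x with rfl | rfl
      · exact h3
      · exact h2.1 h3
    · refine Or.inl (Set.eq_empty_of_forall_notMem fun x hx => ?_)
      rcases hu x with rfl | rfl
      · exact h3 hx
      · exact h3 (h2.2 hx)
  have hle : (d.resP (Subtype.val : ({a, b} : Set P) → P)).V.rank ≤ 2 := by
    refine (rank_le_card_width _).trans ?_
    rw [← Set.toFinset_card, Set.toFinset_insert, Set.toFinset_singleton]
    exact Finset.card_le_two
  have hge : ¬(d.resP (Subtype.val : ({a, b} : Set P) → P)).V.rank ≤ 1 := by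
    rw [rank_le_iff_fac]
    rintro ⟨x, y, hxy⟩
    obtain ⟨k, hk⟩ := Function.ne_iff.1 ya
    obtain ⟨k', hk'⟩ := Function.ne_iff.1 yb
    have e1 : d.V k a = x k 0 * y ⟨a, by simp⟩ 0 :=
      (hxy k ⟨a, by simp⟩).trans (Fin.sum_univ_one _)
    have e2 : d.V k' b = x k' 0 * y ⟨b, by simp⟩ 0 :=
      (hxy k' ⟨b, by simp⟩).trans (Fin.sum_univ_one _)
    have e3 : d.V k b = x k 0 * y ⟨b, by simp⟩ 0 :=
      (hxy k ⟨b, by simp⟩).trans (Fin.sum_univ_one _)
    have e4 : d.colP a ≠ d.colK k := fun e => hk (h.alg.y_col e)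
    have e5 : d.V k b = 0 := h.alg.y_col (by
      revert hc e4
      cases d.colP a <;> cases d.colP b <;> cases d.colK k <;> simp)
    rcases mul_eq_zero.1 (e3.symm.trans e5) with e | e
    · exact hk (e1.trans (by rw [e, zero_mul]; rfl))
    · exact hk' (e2.trans (by rw [e, mul_zero]; rfl))
  have h2 := vstep hp h1 ha (h.resP (f := (Subtype.val : ({a, b} : Set P) → P))
    Subtype.val_injective) (hr.resP _) hs ⟨⟨a, by simp⟩, ⟨b, by simp⟩, by
      convert hd.resP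
      exact Set.eq_univ_of_forall hu⟩ (by omega)
  rwa [show (d.resP (Subtype.val : ({a, b} : Set P) → P)).V.rank = 2 by omega] at h2

/-- From level three on the algebra applies. -/
lemma alg (h1 : A1 F) (hA : ALGR F m) (h : Real m d) (hr : d.Ref) (hc : NConn d.B) (hv : d.Vis)
    (h3 : 3 ≤ d.V.rank) : d.Tau0 ∧ d.V.rank ≤ m := by
  obtain ⟨R, g1, g2, g3, g4⟩ := hr.exists_red
  have g5 : Fintype.card R = d.V.rank := by rw [Fintype.card_coe, g3]
  have g6 := h.resK (f := (Subtype.val : R → K)) Subtype.val_injective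
  have g7 : (d.resK (Subtype.val : R → K)).Vis := hv.imp fun _ h => h.imp fun _ h => g4 _ h
  have g8 := h1 R P _ g6.alg g1 g2 hc g7 (g5 ▸ h3)
  exact ⟨g8, g5 ▸ hA R P _ g6 g1 g2 hc g8 g7⟩

end PLAY

theorem play (hi : INIT F m) (hp : HP F m) (hb : BGEN F m) (hc : ROUNDC F m) (hw : WALKP F)
    (h1 : MID1 F) (ha : AUG F m) (hA1 : A1 F) : PLAY F m := by
  intro hm hA
  by_contra hM
  have l0 : PLAY.Lev F m 0 := by
    obtain ⟨K, P, _, _, d, g1, g2, g3⟩ := hi hM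
    obtain ⟨X, g4, g5⟩ := g1.alg.exists_comp g2 g3
    exact ⟨K, X, _, inferInstance, _, g1.resP Subtype.val_injective, g2.resP _, g4, Nat.zero_le _, g5⟩
  obtain ⟨K, P, _, _, d, g1, g2, g3, g4, g5⟩ :=
    PLAY.lev_succ ha (by omega) le_rfl (PLAY.lev_succ ha (by omega) zero_le_one l0)
  have l3 : PLAY.VLev F m 3 := by
    rcases hb K P d g1 g2 g3 g4 g5 with h | ⟨P', _, d', k, b1, a, b2, e1, e2, e3⟩
    · obtain ⟨d', e1, e2, -, -, e3⟩ := PLAY.vis hp g1 g2 h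
      exact PLAY.vlev_three hp h1 ha hm e1 e2 e3
    · obtain ⟨K', P', _, _, d', k, b1, a, b2, e1, e2, e3, e4⟩ :=
        hc (by omega) K P' d' k b1 a b2 e1 e2 e3
      obtain ⟨d'', f1, f2, -, -, f3⟩ := PLAY.vis hp e1 e2 (hw _ d'.dsp (Set.range inl) _ _ _ _
        e1.alg.fam_pair (PLAY.parAll hp e1 e2) ⟨k, rfl⟩ (PLAY.inr_notMem _) (PLAY.inr_notMem _)
        (PLAY.inr_notMem _) e3 e4)
      exact PLAY.vlev_three hp h1 ha hm f1 f2 f3
  have key : ∀ l, 3 ≤ l → PLAY.VLev F m l := by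
    intro l hl
    induction l, hl using Nat.le_induction with
    | base => exact l3
    | succ l hl ih =>
      obtain ⟨K, P, _, _, d, e1, e2, e3, e4, e5⟩ := ih
      obtain ⟨f1, f2⟩ := PLAY.alg hA1 hA e1 e2 e3 e5 (hl.trans e4)
      obtain ⟨K', P', _, _, d', f3, f4, f5, f6, f7⟩ :=
        PLAY.vstep hp h1 ha e1 e2 (e1.alg.sc f1 e3) e5 f2
      exact ⟨K', P', _, _, d', f3, f4, f5, by omega, f7⟩
  obtain ⟨K, P, _, _, d, e1, e2, e3, e4, e5⟩ := key (m + 1) (by omega)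
  have := (PLAY.alg hA1 hA e1 e2 e3 e5 (by omega)).2
  omega

end Pool.Agent.MP_d99b12_co.H25
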