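import Pool.Agent.MP_d99b12_co.H25.Spec

/-! # Exchanges on an invertible edge (rows SREB, ZP, REB) -/

set_option linter.unusedSectionVars false

namespace Pool.Agent.MP_d99b12_co.H25

open Matrix

namespace REB

variable {F : Type} [Field F] {K P : Type}

section Acts

theorem act_ext {f g : Act F K} (h1 : ∀ ω r r', (ω, r, r') ∈ f.rel ↔ (ω, r, r') ∈ g.rel)
    (h2 : f.hid ↔ g.hid) : f = g := by
  obtain ⟨f1, f2⟩ := f
  obtain ⟨g1, g2⟩ := g
  have e1 : f1 = g1 := Submodule.ext fun x => h1 x.1 x.2.1 x.2.2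
  have e2 : f2 = g2 := propext h2
  rw [e1, e2]

lemma mem_comp {f g : Act F K} {ω r r'' : K → F} :
    (ω, r, r'') ∈ (f.comp g).rel ↔ ∃ r', (ω, r, r') ∈ g.rel ∧ (ω, r', r'') ∈ f.rel := Iff.rfl

lemma hid_comp {f g : Act F K} : (f.comp g).hid ↔
    f.hid ∨ g.hid ∨ ∃ r', r' ≠ 0 ∧ (0, 0, r') ∈ g.rel ∧ (0, r', 0) ∈ f.rel := Iff.rfl

lemma mem_add {W : Submodule F (K → F)} {ω r r' : K → F} :
    (ω, r, r') ∈ (Act.add W).rel ↔ r' - r ∈ W := Iff.rfl

lemma zero_mem_rel (f : Act F K) : ((0 : K → F), (0 : K → F), (0 : K → F)) ∈ f.rel :=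
  f.rel.zero_mem

lemma comp_assoc (f g h : Act F K) : (f.comp g).comp h = f.comp (g.comp h) := by
  refine act_ext (fun ω r r' => ?_) ?_
  · simp only [mem_comp]
    constructor
    · rintro ⟨r1, h1, r2, h2, h3⟩
      exact ⟨r2, ⟨r1, h1, h2⟩, h3⟩
    · rintro ⟨r2, ⟨r1, h1, h2⟩, h3⟩
      exact ⟨r1, h1, r2, h2, h3⟩
  · simp only [hid_comp, mem_comp]
    constructor
    · rintro ((h1 | h1 | ⟨r2, h0, h1, h2⟩) | h1 | ⟨r1, h0, h1, r2, h2, h3⟩)
      · exact Or.inl h1
      · exact Or.inr (Or.inl (Or.inl h1))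
      · exact Or.inr (Or.inr ⟨r2, h0, ⟨0, zero_mem_rel h, h1⟩, h2⟩)
      · exact Or.inr (Or.inl (Or.inr (Or.inl h1)))
      · by_cases e : r2 = 0
        · subst e
          exact Or.inr (Or.inl (Or.inr (Or.inr ⟨r1, h0, h1, h2⟩)))
        · exact Or.inr (Or.inr ⟨r2, e, ⟨r1, h1, h2⟩, h3⟩)
    · rintro (h1 | (h1 | h1 | ⟨r1, h0, h1, h2⟩) | ⟨r2, h0, ⟨r1, h1, h2⟩, h3⟩)
      · exact Or.inl (Or.inl h1)
      · exact Or.inl (Or.inr (Or.inl h1))
      · exact Or.inr (Or.inl h1)
      · exact Or.inr (Or.inr ⟨r1, h0, h1, 0, h2, zero_mem_rel f⟩)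
      · by_cases e : r1 = 0
        · subst e
          exact Or.inl (Or.inr (Or.inr ⟨r2, h0, h2, h3⟩))
        · exact Or.inr (Or.inr ⟨r1, e, h1, r2, h2, h3⟩)

/-- The relation is the graph of `T` and has no internal solution. -/
structure IsFn (f : Act F K) (T : (K → F) → (K → F) → K → F) : Prop where
  rel : ∀ ω r r', (ω, r, r') ∈ f.rel ↔ r' = T ω r
  hid : ¬f.hid

lemma IsFn.zero {f : Act F K} {T : (K → F) → (K → F) → K → F} (h : IsFn f T) : T 0 0 = 0 :=
  ((h.rel 0 0 0).1 (zero_mem_rel f)).symm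

lemma IsFn.comp {f g : Act F K} {T S : (K → F) → (K → F) → K → F} (hf : IsFn f T)
    (hg : IsFn g S) : IsFn (f.comp g) fun ω r => T ω (S ω r) where
  rel ω r r' := by simp only [mem_comp, hf.rel, hg.rel, exists_eq_left]
  hid := by
    rintro (h | h | ⟨r', h0, h1, -⟩)
    · exact hf.hid h
    · exact hg.hid h
    · exact h0 (((hg.rel _ _ _).1 h1).trans hg.zero)

lemma IsFn.eq {f g : Act F K} {T S : (K → F) → (K → F) → K → F} (hf : IsFn f T)
    (hg : IsFn g S) (h : ∀ ω r, T ω r = S ω r) : f = g :=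
  act_ext (fun ω r r' => by rw [hf.rel, hg.rel, h]) (iff_of_false hf.hid hg.hid)

lemma isFn_one : IsFn (Act.one : Act F K) fun _ r => r :=
  ⟨fun _ _ _ => mem_add.trans (by rw [Submodule.mem_bot, sub_eq_zero]), id⟩

lemma one_comp (f : Act F K) : Act.one.comp f = f := by
  refine act_ext (fun ω r r' => ?_) ?_
  · simp only [mem_comp, isFn_one.rel, exists_eq_right']
  · simp only [hid_comp, isFn_one.rel]
    constructor
    · rintro (h | h | ⟨r', h0, -, h1⟩)
      · exact absurd h isFn_one.hid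
      · exact h
      · exact absurd h1.symm h0
    · exact fun h => Or.inr (Or.inl h)

variable [Fintype K]

/-- The map described by `Act.tf`. -/
def tfun (δ Φ : Matrix K K F) (ω r : K → F) : K → F := r + Φ *ᵥ (ω + δ *ᵥ r)

lemma isFn_tf (δ Φ : Matrix K K F) : IsFn (Act.tf δ Φ) (tfun δ Φ) := ⟨fun _ _ _ => Iff.rfl, id⟩

lemma isFn_shift (ε : Matrix K K F) : IsFn (Act.shift ε) fun ω r => r + ε *ᵥ ω :=
  ⟨fun ω r r' => ((isFn_tf 0 ε).rel ω r r').trans (by simp [tfun]), id⟩

lemma isFn_tfInv {δ Φ : Matrix K K F} {T : (K → F) → (K → F) → K → F}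
    (h1 : ∀ ω r, tfun δ Φ ω (T ω r) = r) (h2 : ∀ ω r, T ω (tfun δ Φ ω r) = r) :
    IsFn (Act.tfInv δ Φ) T where
  rel ω r r' := by
    change r = tfun δ Φ ω r' ↔ _
    constructor
    · rintro rfl
      exact (h2 ω r').symm
    · rintro rfl
      exact (h1 ω r).symm
  hid := id

/-- The inverse of an invertible transfer is a power of it. -/
lemma inv_mem [Fintype F] (s : Sys F K) {f g : Act F K} {T S : (K → F) → (K → F) → K → F}
    (hf : IsFn f T) (hg : IsFn g S) (h2 : ∀ ω r, S ω (T ω r) = r) (hm : f ∈ s.𝒜) : g ∈ s.𝒜 := by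
  classical
  have hp : ∀ n : ℕ, ∃ g' ∈ s.𝒜, IsFn g' fun ω r => (T ω)^[n] r := by
    intro n
    induction n with
    | zero => exact ⟨_, s.one_mem, isFn_one⟩
    | succ n ih =>
      obtain ⟨g', h1, h3⟩ := ih
      exact ⟨_, s.comp_mem _ h1 _ hm, h3.comp hf⟩
  let τ : (K → F) × (K → F) → (K → F) × (K → F) := fun x => (x.1, T x.1 x.2)
  have hτ : Function.Injective τ := by
    rintro ⟨ω, r⟩ ⟨ω', r'⟩ e
    obtain ⟨e1, e2⟩ := Prod.ext_iff.1 e
    dsimp only [τ] at e1 e2
    subst e1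
    rw [← h2 ω r, e2, h2]
  let e : Equiv.Perm ((K → F) × (K → F)) :=
    Equiv.ofBijective τ (Finite.injective_iff_bijective.1 hτ)
  have hit : ∀ (n : ℕ) ω r, (e ^ n) (ω, r) = (ω, (T ω)^[n] r) := by
    intro n
    induction n with
    | zero => intro ω r; rfl
    | succ n ih =>
      intro ω r
      rw [pow_succ, Equiv.Perm.mul_apply, Function.iterate_succ_apply, ← ih]
      rfl
  obtain ⟨n, hn⟩ : ∃ n, orderOf e = n + 1 := Nat.exists_eq_succ_of_ne_zero (orderOf_pos e).ne'
  obtain ⟨g', h1, h3⟩ := hp n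
  have : g = g' := hg.eq h3 fun ω r => by
    have h4 := hit (n + 1) ω r
    rw [← hn, pow_orderOf_eq_one, hn, Function.iterate_succ_apply'] at h4
    have h5 : r = T ω ((T ω)^[n] r) := (Prod.ext_iff.1 h4).2
    conv_lhs => rw [h5, h2]
  exact this ▸ h1

lemma cfg_univ (D Ub : Matrix K K F) (a : Act F K) : cfg D Ub Set.univ ∅ a ↔ a.hid := by
  refine ⟨?_, Or.inl⟩
  rintro (h | ⟨ω, r, h0, -, h1, h2⟩)
  · exact h
  · have e1 : ω + Ubᵀ *ᵥ r = 0 := funext fun k => h1 k (Set.notMem_empty k)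
    have e2 : r = 0 := funext fun k => by simpa [e1] using h2 k (Set.mem_univ k)
    have e3 : ω = 0 := by simpa [e2] using e1
    exact absurd h0 (by simp [e2, e3])

lemma shift_hid (ε : Matrix K K F) (L : Act F K) : ((Act.shift ε).comp L).hid ↔ L.hid := by
  simp only [hid_comp, (isFn_shift ε).rel]
  constructor
  · rintro (h | h | ⟨r', h0, -, h1⟩)
    · exact absurd h (isFn_shift ε).hid
    · exact h
    · exact absurd (by simpa using h1.symm) h0
  · exact fun h => Or.inr (Or.inl h)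

lemma shift_rel (ε : Matrix K K F) (L : Act F K) (r r' : K → F) :
    (0, r, r') ∈ ((Act.shift ε).comp L).rel ↔ (0, r, r') ∈ L.rel := by
  simp [mem_comp, (isFn_shift ε).rel]

variable [Fintype P] {δ : Matrix K K F} {y : P → K → F} {B : Matrix P P F} {X Y : Set P}

lemma mem_letter {ω r r' : K → F} : (ω, r, r') ∈ (Act.letter δ y B X Y).rel ↔
    ∃ u : P → F, (∀ q, q ∉ Y → u q = 0) ∧
      (∀ p ∈ X, (B *ᵥ u) p + y p ⬝ᵥ (ω + δ *ᵥ r) = 0) ∧ r' = r + ∑ q, u q • y q := Iff.rfl

lemma hid_letter : (Act.letter δ y B X Y).hid ↔ ∃ u : P → F, u ≠ 0 ∧ (∀ q, q ∉ Y → u q = 0) ∧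
    (∀ p ∈ X, (B *ᵥ u) p = 0) ∧ ∑ q, u q • y q = 0 := Iff.rfl

/-- Behind `add ⊤` only the matrix is seen. -/
lemma top_hid {L : Act F K} (h1 : L.hid ↔ (Act.letter δ y B X Y).hid)
    (h2 : ∀ r', (0, 0, r') ∈ L.rel ↔ (0, 0, r') ∈ (Act.letter δ y B X Y).rel) :
    ((Act.add ⊤).comp L).hid ↔ Dep B X Y := by
  simp only [hid_comp, h1, h2, hid_letter, mem_letter, mem_add, Submodule.mem_top, and_true]
  constructor
  · rintro (h | ⟨u, h0, h3, h4, -⟩ | ⟨r', h0, u, h3, h4, h5⟩)
    · exact absurd h id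
    · exact ⟨u, h0, h3, h4⟩
    · refine ⟨u, ?_, h3, by simpa using h4⟩
      rintro rfl
      exact h0 (by simpa using h5)
  · rintro ⟨u, h0, h3, h4⟩
    by_cases e : ∑ q, u q • y q = 0
    · exact Or.inr (Or.inl ⟨u, h0, h3, h4, e⟩)
    · exact Or.inr (Or.inr ⟨_, e, u, h3, by simpa using h4, (zero_add _).symm⟩)

lemma sum_single_supp {M : Type} [AddCommMonoid M] {f : P → M} {q : P}
    (h : ∀ q', q' ≠ q → f q' = 0) : ∑ q', f q' = f q :=
  Finset.sum_eq_single q (fun q' _ e => h q' e) fun e => absurd (Finset.mem_univ q) e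

omit [Fintype K] in
lemma dep_single (B : Matrix P P F) (p q : P) : Dep B {p} {q} ↔ B p q = 0 := by
  classical
  constructor
  · rintro ⟨u, h0, h1, h2⟩
    have e := h2 p rfl
    have e' : (B *ᵥ u) p = B p q * u q :=
      sum_single_supp (f := fun q' => B p q' * u q') fun q' h => by rw [h1 q' h, mul_zero]
    rw [e'] at e
    refine (mul_eq_zero.1 e).resolve_right fun e0 => h0 (funext fun q' => ?_)
    by_cases h : q' = q
    · rw [h, e0]; rfl
    · exact h1 q' h
  · intro h
    refine ⟨Pi.single q 1, fun e => by simpa using congrFun e q,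
      fun q' hq => Pi.single_eq_of_ne hq _, ?_⟩
    rintro _ rfl
    simp [h]

lemma hid_single (p : P) : (Act.letter δ y B ∅ {p}).hid ↔ y p = 0 := by
  classical
  rw [hid_letter]
  constructor
  · rintro ⟨u, h0, h1, -, h2⟩
    rw [sum_single_supp (q := p) fun q' h => by rw [h1 q' h, zero_smul]] at h2
    refine (smul_eq_zero.1 h2).resolve_left fun e0 => h0 (funext fun q' => ?_)
    by_cases h : q' = p
    · rw [h, e0]; rfl
    · exact h1 q' h
  · intro h
    refine ⟨Pi.single p 1, fun e => by simpa using congrFun e p,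
      fun q' hq => Pi.single_eq_of_ne hq _, fun _ hp => absurd hp (Set.notMem_empty _), ?_⟩
    rw [sum_single_supp (q := p) fun q' h => by rw [Pi.single_eq_of_ne h, zero_smul], h,
      smul_zero]

lemma rel_single (p : P) (ω r r' : K → F) :
    (ω, r, r') ∈ (Act.letter δ y B ∅ {p}).rel ↔ ∃ t : F, r' = r + t • y p := by
  classical
  rw [mem_letter]
  constructor
  · rintro ⟨u, h1, -, h2⟩
    rw [sum_single_supp (q := p) fun q' h => by rw [h1 q' h, zero_smul]] at h2
    exact ⟨_, h2⟩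
  · rintro ⟨t, h⟩
    refine ⟨Pi.single p t, fun q' hq => Pi.single_eq_of_ne hq _,
      fun _ hp => absurd hp (Set.notMem_empty _), ?_⟩
    rw [sum_single_supp (q := p) fun q' h => by rw [Pi.single_eq_of_ne h, zero_smul],
      Pi.single_eq_same, h]

/-- Scaling the vertices does not change a letter. -/
lemma letter_scale (c : P → Fˣ) {y' : P → K → F} (hy : ∀ p, y' p = (c p : F) • y p) :
    Act.letter δ y' B X Y = Act.letter δ y (scale c⁻¹ B) X Y := by
  have hB : ∀ (u : P → F) p, (scale c⁻¹ B *ᵥ fun q => (c q : F) * u q) p =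
      (c p : F)⁻¹ * (B *ᵥ u) p := by
    intro u p
    simp only [mulVec, dotProduct, scale, of_apply, Finset.mul_sum, Pi.inv_apply,
      Units.val_inv_eq_inv_val]
    refine Finset.sum_congr rfl fun q _ => ?_
    field_simp
  have hS : ∀ u : P → F, ∑ q, ((c q : F) * u q) • y q = ∑ q, u q • y' q := fun u =>
    Finset.sum_congr rfl fun q _ => by rw [hy, smul_smul, mul_comm]
  have hE : ∀ (u : P → F) (E : K → F) p, (scale c⁻¹ B *ᵥ fun q => (c q : F) * u q) p + y p ⬝ᵥ E = 0 ↔
      (B *ᵥ u) p + y' p ⬝ᵥ E = 0 := by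
    intro u E p
    rw [hB, hy, smul_dotProduct, smul_eq_mul]
    have hc := (c p).ne_zero
    constructor
    · intro h
      have : (B *ᵥ u) p + (c p : F) * y p ⬝ᵥ E =
          (c p : F) * ((c p : F)⁻¹ * (B *ᵥ u) p + y p ⬝ᵥ E) := by field_simp
      rw [this, h, mul_zero]
    · intro h
      have : (c p : F)⁻¹ * (B *ᵥ u) p + y p ⬝ᵥ E =
          (c p : F)⁻¹ * ((B *ᵥ u) p + (c p : F) * y p ⬝ᵥ E) := by field_simp
      rw [this, h, mul_zero]
  have hsur : ∀ v : P → F, ∃ u : P → F, v = fun q => (c q : F) * u q := fun v =>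
    ⟨fun q => (c q : F)⁻¹ * v q, funext fun q => by field_simp⟩
  have hz : ∀ (u : P → F) q, (c q : F) * u q = 0 ↔ u q = 0 := fun u q => by simp
  refine act_ext (fun ω r r' => ?_) ?_
  · simp only [mem_letter]
    constructor
    · rintro ⟨u, h1, h2, h3⟩
      exact ⟨fun q => (c q : F) * u q, fun q hq => (hz u q).2 (h1 q hq),
        fun p hp => (hE u _ p).2 (h2 p hp), by rw [hS, h3]⟩
    · rintro ⟨v, h1, h2, h3⟩
      obtain ⟨u, rfl⟩ := hsur v
      exact ⟨u, fun q hq => (hz u q).1 (h1 q hq), fun p hp => (hE u _ p).1 (h2 p hp),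
        by rw [← hS, h3]⟩
  · simp only [hid_letter]
    constructor
    · rintro ⟨u, h0, h1, h2, h3⟩
      refine ⟨fun q => (c q : F) * u q, fun e => h0 (funext fun q => (hz u q).1 (congrFun e q)),
        fun q hq => (hz u q).2 (h1 q hq), fun p hp => by rw [hB, h2 p hp, mul_zero],
        by rw [hS, h3]⟩
    · rintro ⟨v, h0, h1, h2, h3⟩
      obtain ⟨u, rfl⟩ := hsur v
      refine ⟨u, fun e => h0 (funext fun q => (hz u q).2 (congrFun e q)),
        fun q hq => (hz u q).1 (h1 q hq), fun p hp => ?_, by rw [← hS, h3]⟩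
      simpa using (hE u 0 p).1 (by simpa using h2 p hp)

end Acts

section Entries

variable (S : Matrix P P F) (y : P → K → F) {a b u v : P}

lemma e_aa : epiv S a b a a = 0 := by simp [epiv]
lemma e_bb (h : a ≠ b) : epiv S a b b b = 0 := by simp [epiv, h.symm]
lemma e_ab (h : a ≠ b) : epiv S a b a b = (S b a)⁻¹ := by simp [epiv, h.symm]
lemma e_ba (h : a ≠ b) : epiv S a b b a = (S a b)⁻¹ := by simp [epiv, h.symm]
lemma e_av (h1 : v ≠ a) (h2 : v ≠ b) : epiv S a b a v = -S b v / S b a := by simp [epiv, h1, h2]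
lemma e_bv (h : a ≠ b) (h1 : v ≠ a) (h2 : v ≠ b) : epiv S a b b v = -S a v / S a b := by
  simp [epiv, h.symm, h1, h2]
lemma e_ua (h1 : u ≠ a) (h2 : u ≠ b) : epiv S a b u a = S u b / S a b := by simp [epiv, h1, h2]
lemma e_ub (h : a ≠ b) (h1 : u ≠ a) (h2 : u ≠ b) : epiv S a b u b = S u a / S b a := by
  simp [epiv, h.symm, h1, h2]
lemma e_uv (h1 : u ≠ a) (h2 : u ≠ b) (h3 : v ≠ a) (h4 : v ≠ b) :
    epiv S a b u v = S u v - S u a * S b v / S b a - S u b * S a v / S a b := by
  simp [epiv, h1, h2, h3, h4]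

lemma reY_a : reY y S a b a = -(S b a)⁻¹ • y b := by simp [reY]
lemma reY_b (h : a ≠ b) : reY y S a b b = -(S a b)⁻¹ • y a := by simp [reY, h.symm]
lemma reY_u (h1 : u ≠ a) (h2 : u ≠ b) :
    reY y S a b u = y u - (S u b / S a b) • y a - (S u a / S b a) • y b := by simp [reY, h1, h2]

lemma three (a b u : P) : u = a ∨ u = b ∨ (u ≠ a ∧ u ≠ b) := by tauto

lemma flip_a (col : P → Bool) : colFlip col {a, b} a = !col a := by simp [colFlip]
lemma flip_b (col : P → Bool) : colFlip col {a, b} b = !col b := by simp [colFlip]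
lemma flip_u (col : P → Bool) (h1 : u ≠ a) (h2 : u ≠ b) : colFlip col {a, b} u = col u := by
  simp [colFlip, h1, h2]

lemma sum_split [Fintype P] {M : Type} [AddCommGroup M] {f g : P → M} (hab : a ≠ b)
    (h : ∀ q, q ≠ a → q ≠ b → f q = g q) :
    ∑ q, f q = ∑ q, g q + (f a - g a) + (f b - g b) := by
  have := Fintype.sum_eq_add (f := fun q => f q - g q) a b hab
    fun q hq => by rw [h q hq.1 hq.2, sub_self]
  rw [Finset.sum_sub_distrib] at this
  rw [add_assoc, ← this]
  abel

variable {S}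

lemma bip_epiv {col : P → Bool} (hb : Bip col S) (hab : S a b ≠ 0) :
    Bip (colFlip col {a, b}) (epiv S a b) := by
  have hc : col a ≠ col b := fun e => hab (hb a b e)
  have hne : a ≠ b := fun e => hc (e ▸ rfl)
  intro u v h
  rcases three a b u with rfl | rfl | ⟨h1, h2⟩
  · rcases three u b v with rfl | rfl | ⟨h3, h4⟩
    · exact e_aa S
    · rw [flip_a, flip_b] at h
      exact absurd (Bool.not_inj h) hc
    · rw [flip_a, flip_u col h3 h4] at h
      rw [e_av S h3 h4, hb b v (by revert h hc; cases col u <;> cases col b <;> cases col v <;> simp)]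
      simp
  · rcases three a u v with rfl | rfl | ⟨h3, h4⟩
    · rw [flip_a, flip_b] at h
      exact absurd (Bool.not_inj h).symm hc
    · exact e_bb S hne
    · rw [flip_b, flip_u col h3 h4] at h
      rw [e_bv S hne h3 h4,
        hb a v (by revert h hc; cases col u <;> cases col a <;> cases col v <;> simp)]
      simp
  · rcases three a b v with rfl | rfl | ⟨h3, h4⟩
    · rw [flip_a, flip_u col h1 h2] at h
      rw [e_ua S h1 h2, hb u b (by revert h hc; cases col u <;> cases col b <;> cases col v <;> simp)]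
      simp
    · rw [flip_b, flip_u col h1 h2] at h
      rw [e_ub S hne h1 h2,
        hb u a (by revert h hc; cases col u <;> cases col a <;> cases col v <;> simp)]
      simp
    · rw [flip_u col h1 h2, flip_u col h3 h4] at h
      rw [e_uv S h1 h2 h3 h4, hb u v h]
      by_cases e : col u = col a
      · rw [hb u a e, hb a v (e.symm.trans h)]
        simp
      · have e' : col u = col b := by
          revert e hc; cases col u <;> cases col a <;> cases col b <;> simp
        rw [hb u b e', hb b v (e'.symm.trans h)]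
        simp

lemma nconn_epiv (h : NConn S) (hne : a ≠ b) (h1 : S a b ≠ 0) (h2 : S b a ≠ 0) :
    NConn (epiv S a b) := by
  have key : ∀ X : Set P, a ∈ X → (∀ p ∈ X, ∀ q, q ∉ X → epiv S a b p q = 0 ∧ epiv S a b q p = 0) →
      X = ∅ ∨ X = Set.univ := by
    intro X ha hX
    have hb : b ∈ X := by
      by_contra hb
      exact inv_ne_zero h2 (e_ab S hne ▸ (hX a ha b hb).1)
    refine h X fun p hp q hq => ?_
    have q1 : q ≠ a := fun e => hq (e ▸ ha)
    have q2 : q ≠ b := fun e => hq (e ▸ hb)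
    have z1 : S b q = 0 := by simpa [e_av S q1 q2, h2] using (hX a ha q hq).1
    have z2 : S q b = 0 := by simpa [e_ua S q1 q2, h1] using (hX a ha q hq).2
    have z3 : S a q = 0 := by simpa [e_bv S hne q1 q2, h1] using (hX b hb q hq).1
    have z4 : S q a = 0 := by simpa [e_ub S hne q1 q2, h2] using (hX b hb q hq).2
    rcases three a b p with rfl | rfl | ⟨p1, p2⟩
    · exact ⟨z3, z4⟩
    · exact ⟨z1, z2⟩
    · exact ⟨by simpa [e_uv S p1 p2 q1 q2, z1, z3] using (hX p hp q hq).1,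
        by simpa [e_uv S q1 q2 p1 p2, z2, z4] using (hX p hp q hq).2⟩
  intro X hX
  by_cases ha : a ∈ X
  · exact key X ha hX
  · rcases key Xᶜ ha (fun p hp q hq => (hX q (not_not.1 hq) p hp).symm) with e | e
    · exact Or.inr (Set.compl_empty_iff.1 e)
    · exact Or.inl (Set.compl_univ_iff.1 e)

end Entries

section Exchange

variable [Fintype K]

/-- The hypotheses of an exchange. -/
structure Ex (δ : Matrix K K F) (y : P → K → F) (B : Matrix P P F) (a b : P) : Prop where
  ne : a ≠ b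
  aa : B a a = 0
  bb : B b b = 0
  ab : B a b ≠ 0
  ba : B b a ≠ 0
  compat : ∀ p q, B p q + B q p = y p ⬝ᵥ δ *ᵥ y q

variable {δ : Matrix K K F} {y : P → K → F} {B : Matrix P P F} {a b : P}

lemma rePhi_mulVec (x : K → F) : rePhi y B a b *ᵥ x =
    -((y a ⬝ᵥ x / B a b) • y b) - (y b ⬝ᵥ x / B b a) • y a := by
  ext k
  simp only [rePhi, mulVec, dotProduct, Matrix.sub_apply, Matrix.smul_apply, vecMulVec_apply,
    smul_eq_mul,
    Pi.sub_apply, Pi.neg_apply, Pi.smul_apply, Finset.sum_div, Finset.sum_mul,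
    ← Finset.sum_neg_distrib, ← Finset.sum_sub_distrib]
  exact Finset.sum_congr rfl fun j _ => by ring

lemma Ex.transpose (h : Ex δ y B a b) : Ex δ y Bᵀ a b :=
  ⟨h.ne, h.aa, h.bb, h.ba, h.ab, fun p q => (add_comm _ _).trans (h.compat p q)⟩

lemma Ex.inv (h : Ex δ y B a b) (ω r : K → F) :
    tfun δ (rePhi y B a b) ω (tfun δ (rePhi y Bᵀ a b) ω r) = r := by
  have h1 := h.ab
  have h2 := h.ba
  unfold tfun
  rw [mulVec_add δ r, ← add_assoc ω]
  generalize ω + δ *ᵥ r = x
  simp only [rePhi_mulVec, transpose_apply, mulVec_sub, mulVec_neg, mulVec_smul, dotProduct_add,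
    dotProduct_sub, dotProduct_neg, dotProduct_smul, ← h.compat, h.aa, h.bb, smul_eq_mul]
  ext k
  simp only [Pi.add_apply, Pi.sub_apply, Pi.neg_apply, Pi.smul_apply, smul_eq_mul]
  field_simp
  ring

lemma Ex.isFn_inv (h : Ex δ y B a b) :
    IsFn (Act.tfInv δ (rePhi y B a b)) (tfun δ (rePhi y Bᵀ a b)) :=
  isFn_tfInv h.inv h.transpose.inv

lemma Ex.compat_re (h : Ex δ y B a b) (p q : P) :
    epiv B a b p q + epiv B a b q p = reY y B a b p ⬝ᵥ δ *ᵥ reY y B a b q := by
  have h1 := h.ab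
  have h2 := h.ba
  have hne := h.ne
  rcases three a b p with rfl | rfl | ⟨p1, p2⟩
  · rcases three p b q with rfl | rfl | ⟨q1, q2⟩
    · simp [e_aa, reY_a, mulVec_smul, mulVec_neg, ← h.compat, h.bb]
    · simp only [e_ab B hne, e_ba B hne, reY_a, reY_b B y hne, mulVec_smul, smul_dotProduct,
        dotProduct_smul, ← h.compat, smul_eq_mul]
      field_simp
      ring
    · simp only [e_av B q1 q2, e_ua B q1 q2, reY_a, reY_u B y q1 q2, mulVec_smul, mulVec_sub,
        smul_dotProduct, dotProduct_smul, dotProduct_sub, ← h.compat, h.bb, smul_eq_mul]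
      field_simp
      ring
  · rcases three a p q with rfl | rfl | ⟨q1, q2⟩
    · simp only [e_ab B hne, e_ba B hne, reY_a, reY_b B y hne, mulVec_smul, smul_dotProduct,
        dotProduct_smul, ← h.compat, smul_eq_mul]
      field_simp
      ring
    · simp [e_bb B hne, reY_b B y hne, mulVec_smul, mulVec_neg, ← h.compat, h.aa]
    · simp only [e_bv B hne q1 q2, e_ub B hne q1 q2, reY_b B y hne, reY_u B y q1 q2, mulVec_smul,
        mulVec_sub, smul_dotProduct, dotProduct_smul, dotProduct_sub, ← h.compat, h.aa,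
        smul_eq_mul]
      field_simp
      ring
  · rcases three a b q with rfl | rfl | ⟨q1, q2⟩
    · simp only [e_av B p1 p2, e_ua B p1 p2, reY_a, reY_u B y p1 p2, mulVec_smul,
        smul_dotProduct, dotProduct_smul, sub_dotProduct, ← h.compat, h.bb, smul_eq_mul]
      field_simp
      ring
    · simp only [e_bv B hne p1 p2, e_ub B hne p1 p2, reY_b B y hne, reY_u B y p1 p2, mulVec_smul,
        smul_dotProduct, dotProduct_smul, sub_dotProduct, ← h.compat, h.aa, smul_eq_mul]
      field_simp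
      ring
    · simp only [e_uv B p1 p2 q1 q2, e_uv B q1 q2 p1 p2, reY_u B y p1 p2, reY_u B y q1 q2,
        mulVec_smul, mulVec_sub, smul_dotProduct, dotProduct_smul, dotProduct_sub, sub_dotProduct,
        ← h.compat, h.aa, h.bb, smul_eq_mul]
      field_simp
      ring

variable [Fintype P]

/-- `v` arises from `u` by writing the outputs at `a` and `b` in place of the inputs. -/
structure Hat (y : P → K → F) (B : Matrix P P F) (a b : P) (E : K → F) (u v : P → F) : Prop where
  ha : v a = (B *ᵥ u) a + y a ⬝ᵥ E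
  hb : v b = (B *ᵥ u) b + y b ⬝ᵥ E
  off : ∀ q, q ≠ a → q ≠ b → v q = u q

variable {E : K → F} {u v : P → F}

lemma exists_hat (a b : P) (E : K → F) (u : P → F) : ∃ v, Hat y B a b E u v := by
  classical
  exact ⟨fun q => if q = a ∨ q = b then (B *ᵥ u) q + y q ⬝ᵥ E else u q, by simp, by simp,
    fun q h1 h2 => by simp [h1, h2]⟩

lemma Ex.exists_unhat (h : Ex δ y B a b) (E : K → F) (v : P → F) : ∃ u, Hat y B a b E u v := by
  classical
  have h1 := h.ab
  have h2 := h.ba
  have hne := h.ne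
  let u : P → F := fun q =>
    if q = a then (v b + B b a * v a - (B *ᵥ v) b - y b ⬝ᵥ E) / B b a
    else if q = b then (v a + B a b * v b - (B *ᵥ v) a - y a ⬝ᵥ E) / B a b else v q
  have ua : u a = (v b + B b a * v a - (B *ᵥ v) b - y b ⬝ᵥ E) / B b a := by simp [u]
  have ub : u b = (v a + B a b * v b - (B *ᵥ v) a - y a ⬝ᵥ E) / B a b := by simp [u, hne.symm]
  have uo : ∀ q, q ≠ a → q ≠ b → u q = v q := fun q q1 q2 => by simp [u, q1, q2]
  have hs : ∀ p, (B *ᵥ u) p =
      (B *ᵥ v) p + (B p a * u a - B p a * v a) + (B p b * u b - B p b * v b) := fun p =>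
    sum_split (f := fun q => B p q * u q) (g := fun q => B p q * v q) hne
      fun q q1 q2 => by rw [uo q q1 q2]
  refine ⟨u, ?_, ?_, fun q q1 q2 => (uo q q1 q2).symm⟩
  · rw [hs, h.aa, ub]
    field_simp
    ring
  · rw [hs, h.bb, ua]
    field_simp
    ring

lemma Ex.row_a (h : Ex δ y B a b) (hv : Hat y B a b E u v) :
    (epiv B a b *ᵥ v) a + reY y B a b a ⬝ᵥ E = u a := by
  have h2 := h.ba
  have hs : (epiv B a b *ᵥ v) a = ∑ q, -B b q / B b a * u q + _ + _ :=
    sum_split (f := fun q => epiv B a b a q * v q) (g := fun q => -B b q / B b a * u q) h.ne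
      fun q q1 q2 => by rw [e_av B q1 q2, hv.off q q1 q2]
  have hg : ∑ q, -B b q / B b a * u q = -(B *ᵥ u) b / B b a := by
    simp only [mulVec, dotProduct, ← Finset.sum_neg_distrib, Finset.sum_div]
    exact Finset.sum_congr rfl fun q _ => by ring
  rw [hs, hg, e_aa, e_ab B h.ne, hv.hb, h.bb, reY_a, smul_dotProduct, smul_eq_mul]
  field_simp
  ring

lemma Ex.row_b (h : Ex δ y B a b) (hv : Hat y B a b E u v) :
    (epiv B a b *ᵥ v) b + reY y B a b b ⬝ᵥ E = u b := by
  have h1 := h.ab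
  have hs : (epiv B a b *ᵥ v) b = ∑ q, -B a q / B a b * u q + _ + _ :=
    sum_split (f := fun q => epiv B a b b q * v q) (g := fun q => -B a q / B a b * u q) h.ne
      fun q q1 q2 => by rw [e_bv B h.ne q1 q2, hv.off q q1 q2]
  have hg : ∑ q, -B a q / B a b * u q = -(B *ᵥ u) a / B a b := by
    simp only [mulVec, dotProduct, ← Finset.sum_neg_distrib, Finset.sum_div]
    exact Finset.sum_congr rfl fun q _ => by ring
  rw [hs, hg, e_bb B h.ne, e_ba B h.ne, hv.ha, h.aa, reY_b B y h.ne, smul_dotProduct, smul_eq_mul]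
  field_simp
  ring

lemma Ex.row_p (h : Ex δ y B a b) (hv : Hat y B a b E u v) {p : P} (p1 : p ≠ a) (p2 : p ≠ b) :
    (epiv B a b *ᵥ v) p + reY y B a b p ⬝ᵥ E = (B *ᵥ u) p + y p ⬝ᵥ E := by
  have h1 := h.ab
  have h2 := h.ba
  have hs : (epiv B a b *ᵥ v) p =
      ∑ q, (B p q - B p a * B b q / B b a - B p b * B a q / B a b) * u q + _ + _ :=
    sum_split (f := fun q => epiv B a b p q * v q)
      (g := fun q => (B p q - B p a * B b q / B b a - B p b * B a q / B a b) * u q) h.ne
      fun q q1 q2 => by rw [e_uv B p1 p2 q1 q2, hv.off q q1 q2]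
  have hg : ∑ q, (B p q - B p a * B b q / B b a - B p b * B a q / B a b) * u q =
      (B *ᵥ u) p - B p a * (B *ᵥ u) b / B b a - B p b * (B *ᵥ u) a / B a b := by
    simp only [mulVec, dotProduct, Finset.mul_sum, Finset.sum_div, ← Finset.sum_sub_distrib]
    exact Finset.sum_congr rfl fun q _ => by ring
  rw [hs, hg, e_ua B p1 p2, e_ub B h.ne p1 p2, hv.ha, hv.hb, h.aa, h.bb, reY_u B y p1 p2,
    sub_dotProduct, sub_dotProduct, smul_dotProduct, smul_dotProduct, smul_eq_mul, smul_eq_mul]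
  field_simp
  ring

lemma Ex.sum_hat (h : Ex δ y B a b) (hv : Hat y B a b E u v) :
    ∑ q, v q • reY y B a b q =
      ∑ q, u q • y q + rePhi y Bᵀ a b *ᵥ (E + δ *ᵥ ∑ q, u q • y q) := by
  have h1 := h.ab
  have h2 := h.ba
  have hs : ∑ q, v q • reY y B a b q =
      ∑ q, u q • (y q - (B q b / B a b) • y a - (B q a / B b a) • y b) + _ + _ :=
    sum_split (f := fun q => v q • reY y B a b q)
      (g := fun q => u q • (y q - (B q b / B a b) • y a - (B q a / B b a) • y b)) h.ne
      fun q q1 q2 => by rw [reY_u B y q1 q2, hv.off q q1 q2]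
  have hc : ∀ p, y p ⬝ᵥ δ *ᵥ ∑ q, u q • y q = (B *ᵥ u) p + ∑ q, u q * B q p := by
    intro p
    simp only [mulVec_sum, dotProduct_sum, mulVec_smul, dotProduct_smul, ← h.compat, smul_eq_mul]
    simp only [mulVec, dotProduct, ← Finset.sum_add_distrib]
    exact Finset.sum_congr rfl fun q _ => by ring
  have hg : ∑ q, u q • (y q - (B q b / B a b) • y a - (B q a / B b a) • y b) =
      ∑ q, u q • y q - ((∑ q, u q * B q b) / B a b) • y a - ((∑ q, u q * B q a) / B b a) • y b := by
    simp only [smul_sub, smul_smul, Finset.sum_sub_distrib, Finset.sum_div, Finset.sum_smul,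
      mul_div_assoc]
  rw [hs, hg, rePhi_mulVec, dotProduct_add, dotProduct_add, hc, hc, hv.ha, hv.hb, h.aa, h.bb, reY_a,
    reY_b B y h.ne]
  ext k
  simp only [Pi.add_apply, Pi.sub_apply, Pi.neg_apply, Pi.smul_apply, smul_eq_mul, transpose_apply]
  field_simp
  ring

/-- The index sets on the other side of the exchange. -/
def sw (a b : P) (X Y : Set P) : Set P := X \ {a, b} ∪ {a, b} \ Y

lemma Ex.cond (h : Ex δ y B a b) (hv : Hat y B a b E u v) (X Y : Set P) :
    ((∀ q, q ∉ Y → v q = 0) ∧ ∀ p ∈ X, (epiv B a b *ᵥ v) p + reY y B a b p ⬝ᵥ E = 0) ↔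
      (∀ q, q ∉ sw a b Y X → u q = 0) ∧ ∀ p ∈ sw a b X Y, (B *ᵥ u) p + y p ⬝ᵥ E = 0 := by
  have ma : ∀ X Y : Set P, a ∈ sw a b X Y ↔ a ∉ Y := fun X Y => by simp [sw]
  have mb : ∀ X Y : Set P, b ∈ sw a b X Y ↔ b ∉ Y := fun X Y => by simp [sw]
  have mo : ∀ (X Y : Set P) q, q ≠ a → q ≠ b → (q ∈ sw a b X Y ↔ q ∈ X) :=
    fun X Y q q1 q2 => by simp [sw, q1, q2]
  constructor
  · rintro ⟨g1, g2⟩
    refine ⟨fun q hq => ?_, fun p hp => ?_⟩
    · rcases three a b q with rfl | rfl | ⟨q1, q2⟩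
      · rw [← h.row_a hv]
        exact g2 _ (by simpa [ma] using hq)
      · rw [← h.row_b hv]
        exact g2 _ (by simpa [mb] using hq)
      · rw [← hv.off q q1 q2]
        exact g1 q (by rwa [mo _ _ q q1 q2] at hq)
    · rcases three a b p with rfl | rfl | ⟨q1, q2⟩
      · rw [← hv.ha]
        exact g1 _ ((ma _ _).1 hp)
      · rw [← hv.hb]
        exact g1 _ ((mb _ _).1 hp)
      · rw [← h.row_p hv q1 q2]
        exact g2 p ((mo _ _ p q1 q2).1 hp)
  · rintro ⟨g1, g2⟩
    refine ⟨fun q hq => ?_, fun p hp => ?_⟩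
    · rcases three a b q with rfl | rfl | ⟨q1, q2⟩
      · rw [hv.ha]
        exact g2 _ ((ma _ _).2 hq)
      · rw [hv.hb]
        exact g2 _ ((mb _ _).2 hq)
      · rw [hv.off q q1 q2]
        exact g1 q (by rwa [mo _ _ q q1 q2])
    · rcases three a b p with rfl | rfl | ⟨q1, q2⟩
      · rw [h.row_a hv]
        exact g1 _ (by simpa [ma] using hp)
      · rw [h.row_b hv]
        exact g1 _ (by simpa [mb] using hp)
      · rw [h.row_p hv q1 q2]
        exact g2 p ((mo _ _ p q1 q2).2 hp)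

lemma Ex.zero_iff (h : Ex δ y B a b) (hv : Hat y B a b 0 u v) : v = 0 ↔ u = 0 := by
  constructor
  · rintro rfl
    funext q
    rcases three a b q with rfl | rfl | ⟨q1, q2⟩
    · simpa using (h.row_a hv).symm
    · simpa using (h.row_b hv).symm
    · exact (hv.off q q1 q2).symm
  · rintro rfl
    funext q
    rcases three a b q with rfl | rfl | ⟨q1, q2⟩
    · simpa using hv.ha
    · simpa using hv.hb
    · exact hv.off q q1 q2

/-- The key identity. -/
lemma Ex.letter_re (h : Ex δ y B a b) (X Y : Set P) :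
    Act.letter δ (reY y B a b) (epiv B a b) X Y =
      (Act.tfInv δ (rePhi y B a b)).comp (Act.letter δ y B (sw a b X Y) (sw a b Y X)) := by
  have hsum : ∀ {ω r : K → F} {u v : P → F}, Hat y B a b (ω + δ *ᵥ r) u v →
      r + ∑ q, v q • reY y B a b q = tfun δ (rePhi y Bᵀ a b) ω (r + ∑ q, u q • y q) := by
    intro ω r u v hv
    rw [h.sum_hat hv, tfun, mulVec_add δ, add_assoc, add_assoc]
  have hz : ∀ {u v : P → F}, Hat y B a b 0 u v →
      (∑ q, v q • reY y B a b q = 0 ↔ ∑ q, u q • y q = 0) := by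
    intro u v hv
    have e := hsum (ω := 0) (r := 0) (by simpa using hv)
    rw [zero_add, zero_add] at e
    constructor
    · intro e0
      have := h.inv 0 (∑ q, u q • y q)
      rw [← e, e0] at this
      rw [← this]
      simp [tfun]
    · intro e0
      rw [e, e0]
      simp [tfun]
  refine act_ext (fun ω r r'' => ?_) ?_
  · simp only [mem_comp, h.isFn_inv.rel, mem_letter]
    constructor
    · rintro ⟨v, g1, g2, g3⟩
      obtain ⟨u, hv⟩ := h.exists_unhat (ω + δ *ᵥ r) v
      obtain ⟨g4, g5⟩ := (h.cond hv X Y).1 ⟨g1, g2⟩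
      exact ⟨_, ⟨u, g4, g5, rfl⟩, by rw [g3, hsum hv]⟩
    · rintro ⟨_, ⟨u, g4, g5, rfl⟩, g3⟩
      obtain ⟨v, hv⟩ := exists_hat (y := y) (B := B) a b (ω + δ *ᵥ r) u
      obtain ⟨g1, g2⟩ := (h.cond hv X Y).2 ⟨g4, g5⟩
      exact ⟨v, g1, g2, by rw [g3, hsum hv]⟩
  · rw [hid_comp, hid_letter, hid_letter]
    constructor
    · rintro ⟨v, g0, g1, g2, g3⟩
      obtain ⟨u, hv⟩ := h.exists_unhat 0 v
      obtain ⟨g4, g5⟩ := (h.cond hv X Y).1 ⟨g1, by simpa using g2⟩
      exact Or.inr (Or.inl ⟨u, fun e => g0 ((h.zero_iff hv).2 e), g4, by simpa using g5,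
        (hz hv).1 g3⟩)
    · rintro (g | ⟨u, g0, g4, g5, g3⟩ | ⟨r', g0, -, g⟩)
      · exact absurd g id
      · obtain ⟨v, hv⟩ := exists_hat (y := y) (B := B) a b 0 u
        obtain ⟨g1, g2⟩ := (h.cond hv X Y).2 ⟨g4, by simpa using g5⟩
        exact ⟨v, fun e => g0 ((h.zero_iff hv).1 e), g1, by simpa using g2, (hz hv).2 g3⟩
      · have g' : r' = tfun δ (rePhi y B a b) 0 0 := g
        exact absurd (by simpa [tfun] using g') g0

omit [Fintype P] in
lemma Ex.tf_comp_tfInv (h : Ex δ y B a b) :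
    (Act.tf δ (rePhi y B a b)).comp (Act.tfInv δ (rePhi y B a b)) = Act.one :=
  ((isFn_tf _ _).comp h.isFn_inv).eq isFn_one h.inv

lemma Ex.letter_re' (h : Ex δ y B a b) (X Y : Set P) :
    Act.letter δ y B (sw a b X Y) (sw a b Y X) =
      (Act.tf δ (rePhi y B a b)).comp (Act.letter δ (reY y B a b) (epiv B a b) X Y) := by
  rw [h.letter_re, ← comp_assoc, h.tf_comp_tfInv, one_comp]

lemma letter_empty : Act.letter δ y B ∅ ∅ = Act.one := by
  refine IsFn.eq (T := fun _ r => r) ⟨fun ω r r' => ?_, ?_⟩ isFn_one fun _ _ => rfl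
  · rw [mem_letter]
    constructor
    · rintro ⟨u, g1, -, g2⟩
      have : u = 0 := funext fun q => g1 q (Set.notMem_empty q)
      simpa [this] using g2
    · rintro rfl
      exact ⟨0, fun _ _ => rfl, fun _ hp => absurd hp (Set.notMem_empty _), by simp⟩
  · rintro ⟨u, g0, g1, -⟩
    exact g0 (funext fun q => g1 q (Set.notMem_empty q))

lemma Ex.letter_ab (h : Ex δ y B a b) :
    Act.letter δ y B {a, b} {a, b} = Act.tf δ (rePhi y B a b) := by
  have e : sw a b ∅ ∅ = ({a, b} : Set P) := by simp [sw]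
  have := h.letter_re' ∅ ∅
  rw [e, letter_empty] at this
  rw [this]
  exact ((isFn_tf _ _).comp isFn_one).eq (isFn_tf _ _) fun _ _ => rfl

omit [Fintype P] in
lemma ex_of_bip {col : P → Bool} (hb : Bip col B)
    (hc : ∀ p q, B p q + B q p = y p ⬝ᵥ δ *ᵥ y q) (h1 : B a b ≠ 0) (h2 : B b a ≠ 0) :
    Ex δ y B a b :=
  ⟨fun e => h1 (hb a b (e ▸ rfl)), hb a a rfl, hb b b rfl, h1, h2, hc⟩

omit [Fintype K] [Fintype P] in
lemma ycol_re {col : P → Bool} {colK : K → Bool} (hy : ∀ p k, col p = colK k → y p k = 0)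
    (hb : Bip col B) (h1 : B a b ≠ 0) (p : P) (k : K) (h : colFlip col {a, b} p = colK k) :
    reY y B a b p k = 0 := by
  have hc : col a ≠ col b := fun e => h1 (hb a b e)
  have hne : a ≠ b := fun e => hc (e ▸ rfl)
  rcases three a b p with rfl | rfl | ⟨p1, p2⟩
  · rw [flip_a] at h
    rw [reY_a, Pi.smul_apply,
      hy b k (by revert h hc; cases col p <;> cases col b <;> cases colK k <;> simp), smul_zero]
  · rw [flip_b] at h
    rw [reY_b B y hne, Pi.smul_apply,
      hy a k (by revert h hc; cases col p <;> cases col a <;> cases colK k <;> simp), smul_zero]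
  · rw [flip_u col p1 p2] at h
    rw [reY_u B y p1 p2]
    simp only [Pi.sub_apply, Pi.smul_apply, smul_eq_mul, hy p k h]
    by_cases e : col p = col a
    · simp [hb p a e, hy a k (e.symm.trans h)]
    · have e' : col p = col b := by
        revert e hc; cases col p <;> cases col a <;> cases col b <;> simp
      simp [hb p b e', hy b k (e'.symm.trans h)]

omit [Fintype K] [Fintype P] in
lemma bip_rePhi {col : P → Bool} {colK : K → Bool} (hy : ∀ p k, col p = colK k → y p k = 0)
    (hc : col a ≠ col b) : Bip colK (rePhi y B a b) := by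
  intro k k' h
  by_cases e : col a = colK k
  · simp [rePhi, vecMulVec_apply, hy a k e, hy a k' (e.trans h)]
  · have e' : col b = colK k := by
      revert e hc; cases col a <;> cases col b <;> cases colK k <;> simp
    simp [rePhi, vecMulVec_apply, hy b k e', hy b k' (e'.trans h)]

end Exchange

end REB

open REB

variable {F : Type} [Field F] [Fintype F]

theorem sreb : SREB F := by
  intro K P _ _ s col y B a b h h1 h2
  have hx := ex_of_bip h.bip h.compat h1 h2
  have m1 : Act.tf s.δ (rePhi y B a b) ∈ s.𝒜 := hx.letter_ab ▸ h.mem _ _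
  have m2 : Act.tfInv s.δ (rePhi y B a b) ∈ s.𝒜 :=
    inv_mem s (isFn_tf _ _) hx.isFn_inv hx.transpose.inv m1
  refine ⟨⟨ycol_re h.ycol h.bip h1, bip_epiv h.bip h1, hx.compat_re, fun X Y => ?_, fun x hx' => ?_,
    nconn_epiv h.conn hx.ne h1 h2⟩, m1, m2⟩
  · rw [hx.letter_re]
    exact s.comp_mem _ m2 _ (h.mem _ _)
  · have ea : x ⬝ᵥ y a = 0 := by simpa [reY_b B y hx.ne, h1] using hx' b
    have eb : x ⬝ᵥ y b = 0 := by simpa [reY_a, h2] using hx' a
    refine h.span x fun p => ?_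
    rcases three a b p with rfl | rfl | ⟨p1, p2⟩
    · exact ea
    · exact eb
    · simpa [reY_u B y p1 p2, ea, eb] using hx' p

theorem zp : ZP F := by
  intro K P _ _ s col y B Bs ε h p q
  have := h.good0 {p} {q} _ s.all_mem Set.univ ∅
  rw [cfg_univ, cfg_univ, top_hid Iff.rfl fun _ => Iff.rfl,
    top_hid (shift_hid _ _) fun _ => shift_rel _ _ _ _, dep_single, dep_single] at this
  exact this.symm

theorem reb : REB F := by
  intro K P _ _ s col y B Bs ε a b h h1 h2 hv
  have h1' : Bs a b ≠ 0 := fun e => h1 ((zp K P s col y B Bs ε h a b).1 e)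
  have h2' : Bs b a ≠ 0 := fun e => h2 ((zp K P s col y B Bs ε h b a).1 e)
  have hx := ex_of_bip h.bip h.compat h1 h2
  have hx' := ex_of_bip h.bips h.compats h1' h2'
  have hc : col a ≠ col b := fun e => h1 (h.bip a b e)
  obtain ⟨hS, -, m2⟩ := sreb K P s col y B a b h.toSDisp h1 h2
  have hcase : s.δ = 0 ∨ (ε = 0 ∧ rePhi y Bs a b = rePhi y B a b) := by
    rcases h.adm with e | e
    · exact Or.inl e
    rcases hv with e' | e'
    · exact Or.inl e'
    refine Or.inr ⟨e, ?_⟩
    by_cases ya : y a = 0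
    · simp [rePhi, ya]
    by_cases yb : y b = 0
    · simp [rePhi, yb]
    have e1 : Bs a b = B a b := by
      by_contra e1
      exact e' ⟨ya, yb, e1⟩
    have e2 : Bs b a = B b a := by
      have := (h.compats a b).trans (h.compat a b).symm
      rw [e1] at this
      exact add_left_cancel this
    rw [rePhi, rePhi, e1, e2]
  have hT : ((Act.tfInv s.δ (rePhi y B a b)).comp (Act.shift ε)).comp
      (Act.tf s.δ (rePhi y Bs a b)) = Act.shift (ε + rePhi y Bs a b - rePhi y B a b) := by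
    refine ((hx.isFn_inv.comp (isFn_shift ε)).comp (isFn_tf _ _)).eq (isFn_shift _) fun ω r => ?_
    rcases hcase with e | ⟨e, e'⟩
    · have := hx.transpose.inv ω (r + (ε + rePhi y Bs a b - rePhi y B a b) *ᵥ ω)
      rw [← this]
      congr 1
      simp only [tfun, e, zero_mulVec, add_zero, sub_mulVec, add_mulVec, transpose_transpose]
      abel
    · rw [e, e']
      simpa using hx.transpose.inv ω r
  have hL : ∀ X Y, (Act.tfInv s.δ (rePhi y B a b)).comp
      ((Act.shift ε).comp (Act.letter s.δ y Bs (sw a b X Y) (sw a b Y X))) =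
      (Act.shift (ε + rePhi y Bs a b - rePhi y B a b)).comp
        (Act.letter s.δ (reY y Bs a b) (epiv Bs a b) X Y) := fun X Y => by
    rw [hx'.letter_re', ← hT, comp_assoc, comp_assoc]
  have g0 : ∀ X Y, ∀ al ∈ s.𝒜, ∀ XK YK,
      cfg s.D s.Ub XK YK (al.comp (Act.letter s.δ (reY y B a b) (epiv B a b) X Y)) ↔
        cfg s.D s.Ub XK YK (al.comp ((Act.shift (ε + rePhi y Bs a b - rePhi y B a b)).comp
          (Act.letter s.δ (reY y Bs a b) (epiv Bs a b) X Y))) := by
    intro X Y al hal XK YK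
    rw [hx.letter_re, ← hL, ← comp_assoc, h.good0 _ _ _ (s.comp_mem _ hal _ m2), comp_assoc]
  have hpar : ∀ p, ∃ c : Fˣ, reY y Bs a b p = (c : F) • reY y B a b p ∧
      (reY y B a b p = 0 → c = 1) := by
    intro p
    have z := g0 ∅ {p} _ s.one_mem Set.univ ∅
    rw [cfg_univ, cfg_univ, one_comp, one_comp, shift_hid, hid_single, hid_single] at z
    by_cases e : reY y B a b p = 0
    · exact ⟨1, by rw [e, z.1 e, smul_zero], fun _ => rfl⟩
    have z' := g0 ∅ {p} _ (hS.mem ∅ {p}) Set.univ ∅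
    rw [cfg_univ, cfg_univ, hid_comp, hid_comp (g := Act.comp _ _), shift_hid, hid_single,
      hid_single] at z'
    simp only [shift_rel, rel_single] at z'
    rcases z'.1 (Or.inr (Or.inr ⟨_, e, ⟨1, by simp⟩, -1, by simp⟩)) with
      g | g | ⟨r', g1, ⟨t, g2⟩, t', g3⟩
    · exact absurd g e
    · exact absurd (z.2 g) e
    · rw [zero_add] at g2
      have t0 : t ≠ 0 := by
        rintro rfl
        exact g1 (by simpa using g2)
      have t0' : t' ≠ 0 := by
        rintro rfl
        exact g1 (by simpa using g3.symm)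
      refine ⟨Units.mk0 (-t' / t) (div_ne_zero (neg_ne_zero.2 t0') t0), ?_, fun e' => absurd e' e⟩
      have g4 : t • reY y Bs a b p = -t' • reY y B a b p := by
        rw [← g2, neg_smul, eq_neg_iff_add_eq_zero, ← g3]
      rw [Units.val_mk0, div_eq_inv_mul, mul_smul, ← g4, inv_smul_smul₀ t0]
  choose c hc1 hc2 using hpar
  refine ⟨c, hc1, hc2, hS, ?_, fun p q => ?_, ?_, ?_, fun X Y al hal XK YK => ?_,
    fun ar har => ?_⟩
  · intro u v e
    simp [scale, bip_epiv h.bips h1' u v e]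
  · have := hx'.compat_re p q
    rw [hc1, hc1, mulVec_smul, smul_dotProduct, dotProduct_smul, smul_eq_mul, smul_eq_mul] at this
    simp only [scale, of_apply, Pi.inv_apply, Units.val_inv_eq_inv_val]
    have c1 := (c p).ne_zero
    have c2 := (c q).ne_zero
    field_simp
    linear_combination this
  · intro k k' e
    simp [h.bipe k k' e, bip_rePhi (B := B) h.ycol hc k k' e, bip_rePhi (B := Bs) h.ycol hc k k' e]
  · rcases hcase with e | ⟨e, e'⟩
    · exact Or.inl e
    · exact Or.inr (by simp [e, e'])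
  · rw [← letter_scale c hc1]
    exact g0 X Y al hal XK YK
  · obtain ⟨box, hbox⟩ := h.goodR ar har
    refine ⟨box, fun X Y al hal XK YK => ?_⟩
    rw [← letter_scale c hc1, hx.letter_re, ← hL, comp_assoc, ← comp_assoc al,
      hbox _ _ _ (s.comp_mem _ hal _ m2), comp_assoc al, ← comp_assoc (Act.tfInv _ _)]

end Pool.Agent.MP_d99b12_co.H25
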