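import Pool.Agent.MP_d99b12_co.H25.ROUNDCc

/-! # ROUNDC: the end of the construction and the final theorem -/

namespace Pool.Agent.MP_d99b12_co.H25

open Matrix Sum

namespace ROUNDC

variable {F : Type} [Field F] {K P : Type}
variable {d : Datum F K P} {k : K} {b1 a b2 : P} {m : ℕ} {E ι : Type} [Fintype E] {σ : ι}
  {N T n : ℕ}

/-- A closed set that contains `β` of flower `t` does not split the triple of another flower. -/
lemma nosplit (hg : Gd d k b1 a b2) (f : Frame d b1 a b2 m E ι σ N) {t u : Fin N} (hu : u ≠ t)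
    {X : Set E} {q : P} (hq : f.S σ (f.e (inr (u, a))) (f.e (inr (u, q))) ≠ 0)
    (hclo : ∀ p, f.e (inr (u, p)) ∉ X → ∀ x ∈ X,
      f.S σ (f.e (inr (u, p))) x * f.S σ (f.e (inl k)) (f.e (inr (t, b1))) =
        f.S σ (f.e (inr (u, p))) (f.e (inr (t, b1))) * f.S σ (f.e (inl k)) x) :
    f.e (inr (u, a)) ∈ X ↔ f.e (inr (u, q)) ∈ X := by
  have hk := f.kb1 hg σ t
  constructor
  · intro ha
    by_contra hb
    have := hclo q hb _ ha
    rw [(f.tame_e hg (not_inT_inl u k)).1, mul_zero] at this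
    exact hq ((f.fam.zero_comm σ _ _).1 ((mul_eq_zero.1 this).resolve_right hk))
  · intro hb
    by_contra ha
    have := hclo a ha _ hb
    rw [(f.fam.zero_comm σ _ _).1 (f.tame_e hg (not_inT_of_ne hu.symm b1)).1, zero_mul] at this
    exact hq ((mul_eq_zero.1 this).resolve_right hk)

/-- A closed set inside some flowers meets the flowers only in its triple. -/
lemma only_triple (hg : Gd d k b1 a b2) (ht : d.Tri k b1 a b2) (f : Frame d b1 a b2 m E ι σ N)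
    {t : Fin N} (J : Set (Fin N)) {X : Set E} (hJ : ∀ u p, f.e (inr (u, p)) ∈ X → u ∈ J)
    (hK : ∀ k', f.e (inl k') ∉ X)
    (h1 : f.e (inr (t, b1)) ∈ X) (h0 : f.e (inr (t, a)) ∈ X) (h2 : f.e (inr (t, b2)) ∈ X)
    (hclo : ∀ w, (∀ u p, w = inr (u, p) → u ∈ J) → f.e w ∉ X → ∀ x ∈ X,
      f.S σ (f.e w) x * f.S σ (f.e (inl k)) (f.e (inr (t, b1))) =
        f.S σ (f.e w) (f.e (inr (t, b1))) * f.S σ (f.e (inl k)) x) :
    ∀ x, f.e x ∈ X → InT b1 a b2 t x := by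
  have hT : ∀ x, InT b1 a b2 t x → f.e x ∈ X := by
    rintro x (rfl | rfl | rfl) <;> assumption
  have hsplit : ∀ u ∈ J, ∀ x y, InT b1 a b2 u x → InT b1 a b2 u y → f.e x ∈ X → f.e y ∈ X := by
    intro u hu x y hx hy hxX
    by_cases hut : u = t
    · exact hT y (hut ▸ hy)
    · have hc : ∀ p, f.e (inr (u, p)) ∉ X → ∀ x ∈ X, _ := fun p =>
        hclo (inr (u, p)) fun u' p' e => by
          simp only [inr.injEq, Prod.mk.injEq] at e
          exact e.1 ▸ hu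
      have i1 := nosplit hg f hut (f.adj1 u) hc
      have i2 := nosplit hg f hut (f.adj2 u) hc
      rcases hx with rfl | rfl | rfl <;> rcases hy with rfl | rfl | rfl <;> tauto
  have key : ∀ w, (∀ u p, w = inr (u, p) → u ∈ J) → f.e w ∉ X → ∀ x : Fin N × P,
      f.e (inr x) ∈ X → BG d N w (inr x) * d.V k b1 = BG d N w (inr (t, b1)) * d.V k x.2 := by
    rintro w hw hwX ⟨u, p⟩ hx
    have e1 := f.ref w (inr (u, p)) fun u' h h' => hwX
      (hsplit u' (h'.eq ▸ hJ u p hx) _ _ h' h hx)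
    have e2 := f.ref_out (u := t) (x := w) (fun h => hwX (hT w h)) (Or.inl rfl)
    have e3 := hclo w hw hwX _ hx
    rw [← e1, ← e2, ← f.ref_inl k t b1, ← f.ref_inl k u p]
    linear_combination (f.c w : F) * f.c (inl k) * f.c (inr (u, p)) * f.c (inr (t, b1)) * e3
  have hsk := ht.sk N J t {x | f.e (inr x) ∈ X} (fun x hx => hJ x.1 x.2 hx) h1 h0 h2
    (fun k' x hx => key (inl k') (by simp) (hK k') x hx)
    (fun w hw hwX x hx => key (inr w) (by rintro u p ⟨⟩; exact hw) hwX x hx)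
  rintro (k' | x) hx
  · exact absurd hx (hK k')
  · have : x ∈ ({(t, b1), (t, a), (t, b2)} : Set (Fin N × P)) := hsk ▸ hx
    simpa [InT] using this

/-- A vertex of a closed set is tame for a triple outside the set. -/
lemma tame_of_mem (hg : Gd d k b1 a b2) (f : Frame d b1 a b2 m E ι σ N) {t u : Fin N} (hu : u ≠ t)
    {v : E} (hclo : ∀ x, InT b1 a b2 u x →
      f.S σ (f.e x) v * f.S σ (f.e (inl k)) (f.e (inr (t, b1))) =
        f.S σ (f.e x) (f.e (inr (t, b1))) * f.S σ (f.e (inl k)) v) : f.Tm k u v := by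
  have hk := f.kb1 hg σ t
  obtain ⟨t0, t1⟩ := f.tame_e hg (not_inT_of_ne hu.symm b1)
  have e0 := hclo _ (Or.inr (Or.inl rfl))
  have e1 := hclo _ (Or.inl rfl)
  have e2 := hclo _ (Or.inr (Or.inr rfl))
  have sk := f.fam.skew σ
  constructor
  · rw [(f.fam.zero_comm σ _ _).1 t0, zero_mul] at e0
    exact (f.fam.zero_comm σ _ _).1 ((mul_eq_zero.1 e0).resolve_right hk)
  · rw [sk (f.e (inr (u, b1))) v, sk (f.e (inr (u, b1)))] at e1
    rw [sk (f.e (inr (u, b2))) v, sk (f.e (inr (u, b2)))] at e2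
    refine mul_right_cancel₀ hk ?_
    linear_combination (-f.S σ (f.e (inl k)) (f.e (inr (u, b2)))) * e1 +
      f.S σ (f.e (inl k)) (f.e (inr (u, b1))) * e2 + f.S σ (f.e (inl k)) v * t1

/-- The elements of piece `s`. -/
def Sta.pc (st : Sta d k b1 a b2 m E ι σ N T n) (s : ℕ) : P ⊕ P ⊕ Unit → E :=
  Sum.elim (fun p => st.f.e (inr (st.own s, p)))
    (Sum.elim (fun p => st.f.e (inr (st.cmp s, p))) fun _ => st.v s)

lemma Sta.pc_inj (st : Sta d k b1 a b2 m E ι σ N T n) {s s' : ℕ} (hs : s < T) (hs' : s' < T)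
    {x y : P ⊕ P ⊕ Unit} (h : st.pc s x = st.pc s' y) : s = s' ∧ x = y := by
  rcases x with p | p | x <;> rcases y with q | q | y <;>
    simp only [Sta.pc, Sum.elim_inl, Sum.elim_inr, st.f.einj.eq_iff, inr.injEq,
      Prod.mk.injEq] at h
  · exact ⟨st.oo s hs s' hs' h.1, by rw [h.2]⟩
  · exact absurd h.1 (st.oc s hs s' hs')
  · exact absurd h.symm (st.vnot s' hs' _)
  · exact absurd h.1.symm (st.oc s' hs' s hs)
  · exact ⟨st.cc s hs s' hs' h.1, by rw [h.2]⟩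
  · exact absurd h.symm (st.vnot s' hs' _)
  · exact absurd h (st.vnot s hs _)
  · exact absurd h (st.vnot s hs _)
  · exact ⟨st.vinj s hs s' hs' h, rfl⟩

lemma Sta.pc_ne (st : Sta d k b1 a b2 m E ι σ N T n) {s : ℕ} (hs : s < T) (x : P ⊕ P ⊕ Unit)
    (k' : K) : st.pc s x ≠ st.f.e (inl k') := by
  rcases x with p | p | x
  · simp [Sta.pc, st.f.einj.eq_iff]
  · simp [Sta.pc, st.f.einj.eq_iff]
  · exact st.vnot s hs _

lemma Sta.pc_lab (st : Sta d k b1 a b2 m E ι σ N T n) {s : ℕ} (hs : s < T) {x : P ⊕ P ⊕ Unit}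
    {u : Fin N} {p : P} (h : st.pc s x = st.f.e (inr (u, p))) : u = st.own s ∨ u = st.cmp s := by
  rcases x with q | q | x
  · exact Or.inl (by simpa [Sta.pc, st.f.einj.eq_iff] using congrArg Prod.fst (inr.inj (st.f.einj h)).symm)
  · exact Or.inr (by simpa [Sta.pc, st.f.einj.eq_iff] using congrArg Prod.fst (inr.inj (st.f.einj h)).symm)
  · exact absurd h (st.vnot s hs _)

/-- No closed set inside two pieces contains the triple of the later piece. -/
lemma Sta.ns (hg : Gd d k b1 a b2) (ht : d.Tri k b1 a b2) (st : Sta d k b1 a b2 m E ι σ N T n)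
    {s0 h t : ℕ} (htT : t < T) (hh : h < t) (hs0 : s0 < t) (hne : s0 ≠ h)
    (hφ : st.φ t = s0 ∨ st.φ t = h ∨ st.φ t = t) {X : Set E}
    (hX : ∀ x ∈ X, (∃ y, st.pc h y = x) ∨ ∃ y, st.pc t y = x)
    (h1 : st.f.e (inr (st.own t, b1)) ∈ X) (h0 : st.f.e (inr (st.own t, a)) ∈ X)
    (h2 : st.f.e (inr (st.own t, b2)) ∈ X)
    (hclo : ∀ w, ((∃ k', st.f.e (inl k') = w) ∨ ∃ s, (s = s0 ∨ s = h ∨ s = t) ∧ ∃ y, st.pc s y = w) →
      w ∉ X → ∀ x ∈ X, st.f.S σ w x * st.f.S σ (st.f.e (inl k)) (st.f.e (inr (st.own t, b1))) =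
        st.f.S σ w (st.f.e (inr (st.own t, b1))) * st.f.S σ (st.f.e (inl k)) x) : False := by
  have hhT := hh.trans htT
  have hsT := hs0.trans htT
  have hK : ∀ k', st.f.e (inl k') ∉ X := fun k' hk => by
    rcases hX _ hk with ⟨y, hy⟩ | ⟨y, hy⟩
    · exact st.pc_ne hhT y k' hy
    · exact st.pc_ne htT y k' hy
  have honly := only_triple hg ht st.f {u | ∃ s, (s = h ∨ s = t) ∧ (u = st.own s ∨ u = st.cmp s)}
    (fun u p hx => by
      rcases hX _ hx with ⟨y, hy⟩ | ⟨y, hy⟩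
      · exact ⟨h, Or.inl rfl, st.pc_lab hhT hy⟩
      · exact ⟨t, Or.inr rfl, st.pc_lab htT hy⟩) hK h1 h0 h2
    (fun w hw => hclo _ (by
      rcases w with k' | ⟨u, p⟩
      · exact Or.inl ⟨k', rfl⟩
      · obtain ⟨s, hs, rfl | rfl⟩ := hw u p rfl
        · exact Or.inr ⟨s, Or.inr hs, inl p, rfl⟩
        · exact Or.inr ⟨s, Or.inr hs, inr (inl p), rfl⟩))
  have hvt : st.v t ∈ X := by
    by_contra hv
    have hc := hclo _ (Or.inr ⟨t, Or.inr (Or.inr rfl), inr (inr ()), rfl⟩) hv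
    have e0 := hc _ h0
    rw [(st.f.tame_e hg (not_inT_inl _ k)).1, mul_zero] at e0
    exact st.wild t htT ⟨(mul_eq_zero.1 e0).resolve_right (st.f.kb1 hg σ _), (hc _ h2).symm⟩
  have hot : st.own h ≠ st.own t := fun e => hh.ne (st.oo h hhT t htT e)
  have hvh : st.v h ∉ X := fun hv => by
    refine st.wild h hhT (tame_of_mem hg st.f hot fun x hx => hclo _ (Or.inr ⟨h, Or.inr (Or.inl rfl), ?_⟩)
      (fun hxX => hot (hx.uniq (honly x hxX))) _ hv)
    rcases hx with rfl | rfl | rfl <;> exact ⟨inl _, rfl⟩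
  have hvs : st.v s0 ∉ X := fun hv => by
    rcases hX _ hv with ⟨y, hy⟩ | ⟨y, hy⟩
    · exact hne (st.pc_inj hhT hsT (y := inr (inr ())) hy).1.symm
    · exact hs0.ne (st.pc_inj htT hsT (y := inr (inr ())) hy).1.symm
  refine st.edge t htT (hclo _ ?_ ?_ _ hvt)
  · rcases st.oloc t htT with ⟨k', e⟩ | ⟨p, e⟩ | ⟨p, e⟩ | e
    · exact Or.inl ⟨k', e.symm⟩
    · exact Or.inr ⟨_, hφ, inl p, e.symm⟩
    · exact Or.inr ⟨_, hφ, inr (inl p), e.symm⟩
    · exact Or.inr ⟨_, hφ, inr (inr ()), e.symm⟩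
  · intro ho
    rcases st.oloc t htT with ⟨k', e⟩ | ⟨p, e⟩ | ⟨p, e⟩ | e
    · exact hK k' (e ▸ ho)
    · exact st.onot t htT _ (honly _ (e ▸ ho)) e
    · exact st.onot t htT _ (honly _ (e ▸ ho)) e
    · rcases hφ with e' | e' | e' <;> rw [e'] at e
      · exact hvs (e ▸ ho)
      · exact hvh (e ▸ ho)
      · exact st.one t htT e

variable [Fintype K] [Fintype P]

/-- The second shape of the result. -/
def Out2 (F : Type) [Field F] {K P : Type} [Fintype K] [Fintype P] (k : K) (b1 a b2 : P)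
    (m n : ℕ) : Prop :=
  ∃ d' : Datum F ((K ⊕ (P ⊕ P ⊕ Unit)) ⊕ ((P ⊕ P ⊕ Unit) ⊕ (P ⊕ P ⊕ Unit)) ⊕
      ((P ⊕ P ⊕ Unit) ⊕ (P ⊕ P ⊕ Unit))) ((P ⊕ P ⊕ Unit) ⊕ (P ⊕ P ⊕ Unit)),
    RealN m n d' ∧ Good (inl (inl k)) (inr (inl b1)) (inr (inl a)) (inr (inl b2)) d'

lemma finish (hh : HOM F) (hg : Gd d k b1 a b2) (ht : d.Tri k b1 a b2) (m n : ℕ) :
    ∃ T, ∀ (E ι : Type) [Fintype E] (σ : ι) (N : ℕ), Sta d k b1 a b2 m E ι σ N T 0 →
      Out2 F k b1 a b2 m n := by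
  obtain ⟨n1, h1⟩ := fin hh m (K ⊕ (P ⊕ P ⊕ Unit)) ((P ⊕ P ⊕ Unit) ⊕ (P ⊕ P ⊕ Unit)) (inl k)
    (inr (inl b1)) (inr (inl a)) (inr (inl b2)) n
  obtain ⟨T, hT⟩ := pair_dich n1
  refine ⟨T, fun E ι _ σ N st => ?_⟩
  obtain ⟨s0, g, h, hhg, hinj, hne, hs0, hφ⟩ :=
    hT (fun t => ⟨st.φ t, (st.φle t t.2).trans_lt t.2⟩) fun t => st.φle t t.2
  refine h1 E st.f.col (fun i => st.f.S (st.dev (g i)))
    (Sum.elim (fun k' => st.f.e (inl k')) (st.pc s0))
    (fun j => Sum.elim (st.pc (h j)) (st.pc (g j))) (st.f.S σ) (st.f.fam.reindex _)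
    (fun i => st.f.conn _) ?_ (fun i => st.f.fam.same _ _)
    (fun i j hij => (st.f.uc_iff hg _ _ _).2 (st.uc1 _ (g i).2 _ (g.strictMono hij))) ?_
  · have q : ∀ {s s' : Fin T} {x y}, st.pc s x = st.pc s' y → s = s' ∧ x = y := fun e =>
      ⟨Fin.ext (st.pc_inj (Fin.is_lt _) (Fin.is_lt _) e).1,
        (st.pc_inj (Fin.is_lt _) (Fin.is_lt _) e).2⟩
    have q' : ∀ {s : Fin T} {x k'}, st.pc s x ≠ st.f.e (inl k') := st.pc_ne (Fin.is_lt _) _ _
    rintro ((x | x) | ⟨i, x | x⟩) ((y | y) | ⟨j, y | y⟩) hxy <;>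
      simp only [emb, Sum.elim_inl, Sum.elim_inr] at hxy
    · rw [inl.inj (st.f.einj hxy)]
    · exact absurd hxy.symm q'
    · exact absurd hxy.symm q'
    · exact absurd hxy.symm q'
    · exact absurd hxy q'
    · rw [(q hxy).2]
    · exact absurd (q hxy).1 (hs0 j).1
    · exact absurd (q hxy).1 (hs0 j).2.ne
    · exact absurd hxy q'
    · exact absurd (q hxy).1.symm (hs0 i).1
    · rw [hinj (q hxy).1, (q hxy).2]
    · exact absurd (q hxy).1 (hne i j)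
    · exact absurd hxy q'
    · exact absurd (q hxy).1.symm (hs0 i).2.ne
    · exact absurd (q hxy).1.symm (hne j i)
    · rw [g.injective (q hxy).1, (q hxy).2]
  · intro j X hX x1 x0 x2 hclo
    refine st.ns hg ht (g j).2 (hhg j) (hs0 j).2 (fun e => (hs0 j).1 (Fin.ext e)) ?_ ?_ x1 x0 x2 ?_
    · rcases hφ j with e | e | e
      · exact Or.inl (congrArg Fin.val e)
      · exact Or.inr (Or.inl (congrArg Fin.val e))
      · exact Or.inr (Or.inr (congrArg Fin.val e))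
    · intro x hx
      obtain ⟨y | y, rfl⟩ := hX hx
      · exact Or.inl ⟨y, rfl⟩
      · exact Or.inr ⟨y, rfl⟩
    · intro w hw
      refine hclo w ?_
      rcases hw with ⟨k', rfl⟩ | ⟨s, rfl | rfl | rfl, y, rfl⟩
      · exact Or.inl ⟨inl k', rfl⟩
      · exact Or.inl ⟨inr y, rfl⟩
      · exact Or.inr ⟨inl y, rfl⟩
      · exact Or.inr ⟨inr y, rfl⟩

lemma grow [Fintype F] (hw : WALK F) (hh : HOM F) (hm : 1 ≤ m) (hR : Real m d)
    (hg : Gd d k b1 a b2) (ht : d.Tri k b1 a b2) (n1 t : ℕ) : ∀ n, Out1 F k b1 a b2 m n1 ∨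
      ∃ (E ι : Type) (_ : Fintype E) (σ : ι) (N : ℕ), Nonempty (Sta d k b1 a b2 m E ι σ N t n) := by
  induction t with
  | zero => exact fun n => Or.inr (init hg ht.uc (hR (n + 1)))
  | succ t ih =>
    intro n
    obtain ⟨n0, h0⟩ := step hw hh hm hg n n1
    rcases ih n0 with h | ⟨E, ι, _, σ, N, ⟨st⟩⟩
    · exact Or.inl h
    · exact (h0 E ι σ N t st).imp_right fun h => ⟨E, ι, inferInstance, σ, N, h⟩

end ROUNDC

variable {F : Type} [Field F] [Fintype F]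

open ROUNDC in
theorem roundc (hw : WALK F) (hh : HOM F) (m : ℕ) : ROUNDC F m := by
  intro hm K P _ _ d k b1 a b2 hR hr ht
  have hg := gd_of_tri hR hr ht
  by_cases h1 : ∀ n, Out1 F k b1 a b2 m n
  · obtain ⟨d', hd, h⟩ := real_of_forall _ h1
    exact ⟨_, _, inferInstance, inferInstance, d', _, _, _, _, hd, h⟩
  · obtain ⟨n1, hn1⟩ := not_forall.1 h1
    have h2 : ∀ n, Out2 F k b1 a b2 m n := by
      intro n
      obtain ⟨T, hT⟩ := finish hh hg ht m n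
      obtain ⟨E, ι, _, σ, N, ⟨st⟩⟩ := (grow hw hh hm hR hg ht n1 T 0).resolve_left hn1
      exact hT E ι σ N st
    obtain ⟨d', hd, h⟩ := real_of_forall _ h2
    exact ⟨_, _, inferInstance, inferInstance, d', _, _, _, _, hd, h⟩

end Pool.Agent.MP_d99b12_co.H25
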