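import Pool.Agent.MP_d99b12_co.H25.Spec
import Pool.Agent.MP_d99b12_co.H25.Piv

/-! # Every deviant pair has a short witness after inner pivots -/

namespace Pool.Agent.MP_d99b12_co.H25

open Matrix

namespace SHR

variable {F : Type} [Field F] {E : Type}

/-- Walks of length `n` for a relation. -/
def Nw {α : Type} (R : α → α → Prop) : ℕ → α → α → Prop
  | 0, p, q => p = q
  | n + 1, p, q => ∃ r, Nw R n p r ∧ R r q

section Nw

variable {α : Type} {R : α → α → Prop} {m n : ℕ} {p q r : α}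

lemma Nw.one (h : R p q) : Nw R 1 p q := ⟨p, rfl, h⟩

lemma Nw.trans (h : Nw R m p q) (h' : Nw R n q r) : Nw R (m + n) p r := by
  induction n generalizing r with
  | zero => exact (show q = r from h') ▸ h
  | succ n ih =>
    obtain ⟨s, h1, h2⟩ := h'
    exact ⟨s, ih h1, h2⟩

lemma Nw.symm (hR : ∀ a b, R a b → R b a) (h : Nw R n p q) : Nw R n q p := by
  induction n generalizing q with
  | zero => exact Eq.symm h
  | succ n ih =>
    obtain ⟨s, h1, h2⟩ := h
    rw [add_comm]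
    exact (Nw.one (hR _ _ h2)).trans (ih h1)

lemma Nw.map {f : α → α} (hf : ∀ a b, R a b → R (f a) (f b)) (h : Nw R n p q) :
    Nw R n (f p) (f q) := by
  induction n generalizing q with
  | zero => exact congrArg f h
  | succ n ih =>
    obtain ⟨s, h1, h2⟩ := h
    exact ⟨f s, ih h1, hf _ _ h2⟩

lemma Nw.of_fun {z : ℕ → α} (hz : ∀ i < n, R (z i) (z (i + 1))) (i k : ℕ) (h : i + k ≤ n) :
    Nw R k (z i) (z (i + k)) := by
  induction k with
  | zero => rfl
  | succ k ih => exact ⟨_, ih (by omega), hz (i + k) (by omega)⟩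

lemma Nw.seg {z : ℕ → α} (hz : ∀ i < n, R (z i) (z (i + 1))) {i j : ℕ} (hij : i ≤ j) (h : j ≤ n) :
    Nw R (j - i) (z i) (z j) := by
  have := Nw.of_fun hz i (j - i) (by omega)
  rwa [show i + (j - i) = j by omega] at this

lemma Nw.to_fun (h : Nw R n p q) :
    ∃ z : ℕ → α, z 0 = p ∧ z n = q ∧ ∀ i < n, R (z i) (z (i + 1)) := by
  induction n generalizing q with
  | zero => exact ⟨fun _ => p, rfl, h, fun i hi => absurd hi (by omega)⟩
  | succ n ih =>
    obtain ⟨s, h1, h2⟩ := h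
    obtain ⟨z, a, b, c⟩ := ih h1
    refine ⟨fun i => if i ≤ n then z i else q, by simp [a], by simp, fun i hi => ?_⟩
    by_cases e : i = n
    · subst e
      simpa [b] using h2
    · simpa [show i ≤ n by omega, show i + 1 ≤ n by omega] using c i (by omega)

end Nw

/-- The lifted graph: an edge inside `Y` with consistent scalars. -/
def LE (Y : Set E) (M M' : Matrix E E F) (p q : E × Fˣ) : Prop :=
  p.1 ∈ Y ∧ q.1 ∈ Y ∧ M p.1 q.1 ≠ 0 ∧ M' p.1 q.1 = (p.2 : F) * (q.2 : F) * M p.1 q.1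

/-- The standing facts on a pair of matrices. -/
structure Pr (col : E → Bool) (O Y : Set E) (M M' : Matrix E E F) (γ : E → Fˣ) : Prop where
  sk : Skew M
  sk' : Skew M'
  bip : Bip col M
  zero : ∀ u v, M' u v = 0 ↔ M u v = 0
  disj : Disjoint O Y
  gam : ∀ v ∈ Y, ∀ o ∈ O, M' o v = (γ v : F) * M o v

/-- A bad closed walk. -/
def BC (Y : Set E) (M M' : Matrix E E F) (n : ℕ) : Prop :=
  ∃ u x x', Nw (LE Y M M') n (u, x) (u, x') ∧ x ≠ x'

/-- A bad ear. -/
def BE (O Y : Set E) (M M' : Matrix E E F) (γ : E → Fˣ) (n : ℕ) : Prop :=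
  ∃ u x v, Nw (LE Y M M') n (u, x) (v, γ v) ∧ ¬NoNb M O u ∧ ¬NoNb M O v ∧ x ≠ γ u

namespace Pr

variable {col : E → Bool} {O Y : Set E} {M M' : Matrix E E F} {γ : E → Fˣ}
  (h : Pr col O Y M M' γ)

include h

lemma symm (p q : E × Fˣ) (e : LE Y M M' p q) : LE Y M M' q p :=
  ⟨e.2.1, e.1, by rw [h.sk]; exact neg_ne_zero.2 e.2.2.1, by
    rw [h.sk', h.sk q.1, e.2.2.2]; ring⟩

lemma lift {u v : E} (hu : u ∈ Y) (hv : v ∈ Y) (e : M u v ≠ 0) (x : Fˣ) :
    ∃ y, LE Y M M' (u, x) (v, y) :=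
  ⟨Units.mk0 (M' u v / M u v) (div_ne_zero (fun e' => e ((h.zero u v).1 e')) e) / x, hu, hv, e, by
    simp only [Units.val_div_eq_div_val, Units.val_mk0]
    field_simp⟩

lemma col_ne {u v : E} (e : M u v ≠ 0) : col u ≠ col v := fun e' => e (h.bip u v e')

/-- Rescaling of a walk: the scalar at the end can be prescribed. -/
lemma resc {n : ℕ} {u v : E} {x y : Fˣ} (e : Nw (LE Y M M') n (u, x) (v, y)) (y' : Fˣ) :
    Nw (LE Y M M') n (u, if col u = col v then y' / y * x else (y' / y)⁻¹ * x) (v, y') := by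
  have := e.map (f := fun p => (p.1, if col p.1 = col v then y' / y * p.2 else (y' / y)⁻¹ * p.2))
    fun a b e => ⟨e.1, e.2.1, e.2.2.1, by
      have h1 := h.col_ne e.2.2.1
      rw [e.2.2.2]
      by_cases h2 : col a.1 = col v
      · have h3 : ¬col b.1 = col v := fun h3 => h1 (h2.trans h3.symm)
        simp only [h2, h3, if_true, if_false, Units.val_mul, Units.val_inv_eq_inv_val]
        field_simp
      · have h3 : col b.1 = col v := by
          revert h1 h2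
          cases col a.1 <;> cases col b.1 <;> cases col v <;> simp
        simp only [h2, h3, if_true, if_false, Units.val_mul, Units.val_inv_eq_inv_val]
        field_simp⟩
  simpa using this

lemma eqO {v : E} (hv : NoNb M O v) (c : F) : ∀ o ∈ O, M' o v = c * M o v := fun o ho => by
  rw [(h.zero o v).2 (hv o ho), hv o ho, mul_zero]

lemma exists_bad (hd : DevP O M M' Y) : ∃ n, BC Y M M' n ∨ BE O Y M M' γ n := by
  classical
  by_contra hn
  simp only [not_exists, not_or] at hn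
  have hρ : ∀ S : Set E, ∃ r, S.Nonempty → r ∈ S ∧ ((∃ p ∈ S, ¬NoNb M O p) → ¬NoNb M O r) := by
    intro S
    by_cases h1 : ∃ p ∈ S, ¬NoNb M O p
    · obtain ⟨p, h2, h3⟩ := h1
      exact ⟨p, fun _ => ⟨h2, fun _ => h3⟩⟩
    · obtain ⟨e, he⟩ := hd.nonempty
      by_cases h2 : S.Nonempty
      · exact ⟨h2.some, fun _ => ⟨h2.some_mem, fun h3 => absurd h3 h1⟩⟩
      · exact ⟨e, fun h3 => absurd h3 h2⟩
  choose ρ hρ using hρ
  let S : E → Set E := fun v => {w | ∃ k x y, Nw (LE Y M M') k (v, x) (w, y)}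
  have hS : ∀ v, v ∈ S v := fun v => ⟨0, 1, 1, rfl⟩
  have hc : ∀ v, ∃ x k, Nw (LE Y M M') k (v, x) (ρ (S v), γ (ρ (S v))) := fun v => by
    obtain ⟨k, x, y, e⟩ := (hρ (S v) ⟨v, hS v⟩).1
    exact ⟨_, k, h.resc e _⟩
  choose c k hc using hc
  have sub : ∀ u v, u ∈ Y → v ∈ Y → M u v ≠ 0 → S v ⊆ S u := by
    rintro u v hu hv e w ⟨j, x, y, e'⟩
    obtain ⟨x', e1⟩ := h.lift hv hu (by rw [h.sk]; exact neg_ne_zero.2 e) x
    exact ⟨_, x', y, (Nw.one (h.symm _ _ e1)).trans e'⟩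
  refine hd ⟨fun v => if v ∈ O then 1 else c v, fun o ho => if_pos ho, fun u hu v hv => ?_⟩
  have hvO : v ∉ O := fun e => Set.disjoint_left.1 h.disj e hv
  by_cases huO : u ∈ O
  · simp only [huO, hvO, if_true, if_false, Units.val_one, one_mul]
    by_cases h1 : NoNb M O v
    · exact h.eqO h1 _ u huO
    · have h2 : c v = γ v := by
        by_contra h2
        exact (hn _).2 ⟨v, c v, _, hc v, h1, (hρ (S v) ⟨v, hS v⟩).2 ⟨v, hS v, h1⟩, h2⟩
      rw [h2, h.gam v hv u huO]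
  · have huY : u ∈ Y := hu.resolve_left huO
    simp only [huO, hvO, if_false]
    by_cases e : M u v = 0
    · rw [(h.zero u v).2 e, e, mul_zero]
    · obtain ⟨y, e1⟩ := h.lift huY hv e (c u)
      have e2 : S u = S v :=
        (sub v u hv huY (by rw [h.sk]; exact neg_ne_zero.2 e)).antisymm (sub u v huY hv e)
      have e3 := hc u
      rw [e2] at e3
      have e4 : y = c v := by
        by_contra e4
        exact (hn _).1 ⟨v, y, c v,
          ((Nw.one (h.symm _ _ e1)).trans e3).trans ((hc v).symm h.symm), e4⟩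
      rw [← e4]
      exact e1.2.2.2

/-- A shortest bad walk is a configuration. -/
lemma cfg {n ℓ : ℕ} {z : ℕ → E × Fˣ} (hz : ∀ i < n, LE Y M M' (z i) (z (i + 1))) (h1 : 1 ≤ ℓ)
    (hℓ : ℓ ≤ n) (hn : n ≤ ℓ + 1) (hs : ∀ k < n, ¬Nw (LE Y M M') k (z 0) (z n))
    (hC : ∀ k ≤ ℓ, ¬BC Y M M' k) (hin : ∀ i, 1 ≤ i → i < ℓ → NoNb M O (z i).1) (c0 : Fˣ)
    (h0 : c0 ≠ (z 0).2) (hO : ∀ o ∈ O, M' o (z 0).1 = c0 * M o (z 0).1)
    (hO' : ∀ o ∈ O, M' o (z ℓ).1 = (z ℓ).2 * M o (z ℓ).1)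
    (hP : ℓ ≠ 1 → M' (z 0).1 (z ℓ).1 = c0 * (z ℓ).2 * M (z 0).1 (z ℓ).1)
    (hcl : (¬NoNb M O (z 0).1 ∧ ¬NoNb M O (z ℓ).1) ∨ (3 ≤ ℓ ∧ M (z 0).1 (z ℓ).1 ≠ 0)) :
    ∃ c, Cfg O Y M M' ℓ (fun i => (z i).1) c := by
  have mem : ∀ i ≤ ℓ, (z i).1 ∈ Y := fun i hi => by
    rcases Nat.eq_zero_or_pos i with rfl | hp
    · exact (hz 0 (by omega)).1
    · obtain ⟨j, rfl⟩ : ∃ j, i = j + 1 := ⟨i - 1, by omega⟩
      exact (hz j (by omega)).2.1
  have inj' : ∀ i j, i < j → j ≤ ℓ → (z i).1 ≠ (z j).1 := fun i j hij hj e => by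
    have e1 := Nw.seg hz hij.le (hj.trans hℓ)
    have e2 : z i = z j := Prod.ext e (by
      by_contra e2
      exact hC (j - i) (by omega) ⟨(z i).1, (z i).2, (z j).2,
        (show ((z i).1, (z j).2) = z j from Prod.ext e rfl) ▸ e1, e2⟩)
    have e3 := Nw.seg hz (Nat.zero_le i) (by omega)
    rw [e2] at e3
    exact hs _ (by omega) (e3.trans (Nw.seg hz (hj.trans hℓ) le_rfl))
  have inj : ∀ i ≤ ℓ, ∀ j ≤ ℓ, (z i).1 = (z j).1 → i = j := fun i hi j hj e => by
    rcases lt_trichotomy i j with a | a | a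
    exacts [absurd e (inj' i j a hj), a, absurd e.symm (inj' j i a hi)]
  have chord : ∀ i j, i + 2 ≤ j → j ≤ ℓ → ¬(i = 0 ∧ j = ℓ) → M (z i).1 (z j).1 = 0 := by
    intro i j hij hj hne
    by_contra e
    obtain ⟨y, e1⟩ := h.lift (mem j hj) (mem i (by omega))
      (by rw [h.sk]; exact neg_ne_zero.2 e) (z j).2
    have e2 : (z i).2 = y := by
      by_contra e2
      exact hC (j - i + 1) (by omega) ⟨(z i).1, (z i).2, y,
        (Nw.seg hz (by omega : i ≤ j) (hj.trans hℓ)).trans (Nw.one e1), e2⟩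
    rw [← e2] at e1
    exact hs _ (by omega) (((Nw.seg hz (Nat.zero_le i) (by omega)).trans
      (Nw.one (h.symm _ _ e1))).trans (Nw.seg hz (hj.trans hℓ) le_rfl))
  have hinj : Function.Injective fun i : Fin (ℓ + 1) => (z i).1 := fun i j e =>
    Fin.ext (inj i (by omega) j (by omega) e)
  obtain ⟨c, c1, c2⟩ : ∃ c : E → Fˣ, (∀ o ∈ O, c o = 1) ∧
      ∀ i ≤ ℓ, c (z i).1 = if i = 0 then c0 else (z i).2 :=
    ⟨Function.extend (fun i : Fin (ℓ + 1) => (z i).1) (fun i => if i.1 = 0 then c0 else (z i).2) 1,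
      fun o ho => Function.extend_apply' _ _ _ fun ⟨i, hi⟩ =>
        Set.disjoint_left.1 h.disj ho (hi ▸ mem i (by omega)),
      fun i hi => hinj.extend_apply _ _ ⟨i, by omega⟩⟩
  refine ⟨c, h1, mem, inj, fun i hi => (hz i (by omega)).2.2.1, chord, hin, c1, fun i hi => ?_,
    fun i j hij hj hne => ?_, ?_, hcl⟩
  · rw [c2 i hi]
    split_ifs with e
    · subst e
      exact hO
    · rcases eq_or_lt_of_le hi with rfl | hl
      exacts [hO', h.eqO (hin i (by omega) hl) _]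
  · rw [c2 i (by omega), c2 j hj, if_neg (by omega : j ≠ 0)]
    by_cases e : i = 0 ∧ j = ℓ
    · obtain ⟨rfl, rfl⟩ := e
      exact hP (by omega)
    · by_cases e1 : j = i + 1
      · subst e1
        rw [if_neg (by omega)]
        exact (hz i (by omega)).2.2.2
      · have := chord i j (by omega) hj e
        rw [(h.zero _ _).2 this, this, mul_zero]
  · rw [c2 0 (by omega), c2 1 h1, if_pos rfl, if_neg (by omega), (hz 0 (by omega)).2.2.2]
    exact fun e => h0 (Units.ext (mul_right_cancel₀ (z 1).2.ne_zero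
      (mul_right_cancel₀ (hz 0 (by omega)).2.2.1 e)).symm)

omit h in
/-- Inner vertices of a shortest bad ear have no neighbour in `O`. -/
lemma inner {n : ℕ} {z : ℕ → E × Fˣ} (hz : ∀ i < n, LE Y M M' (z i) (z (i + 1)))
    (hE : ∀ k < n, ¬BE O Y M M' γ k) (h0 : ¬NoNb M O (z 0).1) (h1 : ¬NoNb M O (z n).1)
    (h2 : (z 0).2 ≠ γ (z 0).1) (h3 : (z n).2 = γ (z n).1) (i : ℕ) (hi : 1 ≤ i) (hi' : i < n) :
    NoNb M O (z i).1 := by
  by_contra e
  by_cases e1 : (z i).2 = γ (z i).1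
  · exact hE (i - 0) (by omega) ⟨(z 0).1, (z 0).2, (z i).1,
      e1 ▸ Nw.seg hz (Nat.zero_le i) hi'.le, h0, e, h2⟩
  · exact hE (n - i) (by omega) ⟨(z i).1, (z i).2, (z n).1,
      h3 ▸ Nw.seg hz hi'.le le_rfl, e, h1, e1⟩

lemma cyc {n : ℕ} (hC : ∀ k < n, ¬BC Y M M' k) (hE : ∀ k < n, ¬BE O Y M M' γ k)
    (hb : BC Y M M' n) : ∃ ℓ u c, Cfg O Y M M' ℓ u c := by
  obtain ⟨z, hz, e0, e1, e2, e3⟩ : ∃ z : ℕ → E × Fˣ, (∀ i < n, LE Y M M' (z i) (z (i + 1))) ∧
      (z 0).1 = (z n).1 ∧ (z 0).2 ≠ (z n).2 ∧ (∀ i, 1 ≤ i → i < n → NoNb M O (z i).1) ∧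
      ∀ o ∈ O, M' o (z 0).1 = (z n).2 * M o (z 0).1 := by
    obtain ⟨u, x, x', hw, hx⟩ := hb
    obtain ⟨z, a, b, hz⟩ := hw.to_fun
    by_cases hch : ∀ i < n, NoNb M O (z i).1
    · have hn : 0 < n := Nat.pos_of_ne_zero fun e => hx (by
        subst e
        exact congrArg Prod.snd (a.symm.trans b))
      exact ⟨z, hz, by rw [a, b], by rwa [a, b], fun i _ hi => hch i hi, h.eqO (hch 0 hn) _⟩
    · simp only [not_forall] at hch
      obtain ⟨i, hi, hc⟩ := hch
      have w1 : Nw (LE Y M M') (n - i) ((z i).1, (z i).2) (u, x') := b ▸ Nw.seg hz hi.le le_rfl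
      have w2 : Nw (LE Y M M') (i - 0) ((z i).1, (z i).2) (u, x) :=
        a ▸ (Nw.seg hz (Nat.zero_le i) hi.le).symm h.symm
      have w3 := h.resc (w1.trans ((h.resc w2 x').symm h.symm)) (γ (z i).1)
      rw [if_pos rfl, show n - i + (i - 0) = n by omega] at w3
      obtain ⟨z', a', b', hz'⟩ := w3.to_fun
      have hne : (z' 0).2 ≠ γ (z i).1 := by
        rw [a']
        intro e
        rw [div_mul_eq_mul_div, div_eq_iff_eq_mul, mul_right_inj] at e
        split_ifs at e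
        · exact hx (div_eq_one.1 (right_eq_mul.1 e)).symm
        · exact hx (div_eq_one.1 (inv_eq_one.1 (right_eq_mul.1 e))).symm
      refine ⟨z', hz', by rw [a', b'], by rwa [b'], inner hz' hE (by rwa [a']) (by rwa [b'])
        (by rwa [show (z' 0).1 = (z i).1 by rw [a']]) (by rw [b']), ?_⟩
      rw [a', b']
      exact h.gam _ (hz i hi).1
  have h4 : 4 ≤ n := by
    by_contra h4
    obtain rfl | rfl | rfl | rfl : n = 0 ∨ n = 1 ∨ n = 2 ∨ n = 3 := by omega
    · exact e1 rfl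
    · exact h.col_ne (hz 0 (by omega)).2.2.1 (congrArg col e0)
    · have a := (hz 0 (by omega)).2.2.2
      have b := (h.symm _ _ (hz 1 (by omega))).2.2.2
      rw [← e0, a] at b
      exact e1 (Units.ext (mul_right_cancel₀ (z 1).2.ne_zero
        (mul_right_cancel₀ (hz 0 (by omega)).2.2.1 b)))
    · have a := h.col_ne (hz 0 (by omega)).2.2.1
      have b := h.col_ne (hz 1 (by omega)).2.2.1
      have c := h.col_ne (hz 2 (by omega)).2.2.1
      rw [← e0] at c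
      revert a b c
      cases col (z 0).1 <;> cases col (z 1).1 <;> cases col (z 2).1 <;> simp
  obtain ⟨ℓ, rfl⟩ : ∃ ℓ, n = ℓ + 1 := ⟨n - 1, by omega⟩
  have e4 := h.symm _ _ (hz ℓ (by omega))
  obtain ⟨c, hc⟩ := h.cfg (ℓ := ℓ) hz (by omega) (by omega) le_rfl
    (fun k hk hw => hC k hk ⟨(z 0).1, (z 0).2, (z (ℓ + 1)).2,
      (show ((z 0).1, (z (ℓ + 1)).2) = z (ℓ + 1) from Prod.ext e0 rfl) ▸ hw, e1⟩)
    (fun k hk => hC k (by omega)) (fun i a b => e2 i a (by omega)) _ e1.symm e3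
    (h.eqO (e2 ℓ (by omega) (by omega)) _) (fun _ => e0 ▸ e4.2.2.2)
    (Or.inr ⟨by omega, e0 ▸ e4.2.2.1⟩)
  exact ⟨ℓ, _, c, hc⟩

lemma ear {n : ℕ} (hC : ∀ k ≤ n, ¬BC Y M M' k) (hE : ∀ k < n, ¬BE O Y M M' γ k)
    (hb : BE O Y M M' γ n) : ∃ ℓ u c, Cfg O Y M M' ℓ u c := by
  obtain ⟨u, x, v, hw, hu, hv, hx⟩ := hb
  obtain ⟨z, a, b, hz⟩ := hw.to_fun
  have hn : 1 ≤ n := Nat.pos_of_ne_zero fun e => hx (by
    subst e
    obtain ⟨rfl, e2⟩ := Prod.ext_iff.1 (a.symm.trans b)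
    exact e2)
  have uY : u ∈ Y := by simpa [a] using (hz 0 hn).1
  have vY : v ∈ Y := by
    have := (hz (n - 1) (by omega)).2.1
    rwa [show n - 1 + 1 = n by omega, b] at this
  obtain ⟨c, hc⟩ := h.cfg (ℓ := n) hz hn le_rfl (by omega)
    (fun k hk hw => hE k hk ⟨u, x, v, by rwa [a, b] at hw, hu, hv, hx⟩) hC
    (inner hz hE (by rwa [a]) (by rwa [b]) (by rwa [a]) (by rw [b])) (γ u) (by rw [a]; exact hx.symm)
    (by rw [a]; exact h.gam u uY) (by rw [b]; exact h.gam v vY) (fun h1 => by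
      rw [a, b]
      by_cases e : M u v = 0
      · rw [(h.zero u v).2 e, e, mul_zero]
      · obtain ⟨y, e1⟩ := h.lift vY uY (by rw [h.sk]; exact neg_ne_zero.2 e) (γ v)
        have e2 : y = γ u := by
          by_contra e2
          exact hE 1 (by omega) ⟨u, y, v, Nw.one (h.symm _ _ e1), hu, hv, e2⟩
        exact e2 ▸ (h.symm _ _ e1).2.2.2)
    (Or.inl ⟨by rwa [a], by rwa [b]⟩)
  exact ⟨n, _, c, hc⟩

lemma exists_cfg (hd : DevP O M M' Y) : ∃ ℓ u c, Cfg O Y M M' ℓ u c := by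
  classical
  have hb := h.exists_bad hd
  have h1 := fun k (hk : k < Nat.find hb) => not_or.1 (Nat.find_min hb hk)
  by_cases h2 : BC Y M M' (Nat.find hb)
  · exact h.cyc (fun k hk => (h1 k hk).1) (fun k hk => (h1 k hk).2) h2
  · refine h.ear (fun k hk => ?_) (fun k hk => (h1 k hk).2) ((Nat.find_spec hb).resolve_left h2)
    rcases eq_or_lt_of_le hk with rfl | hk
    exacts [h2, (h1 k hk).1]

end Pr

/-- A pivot on the third edge shortens a long configuration. -/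
lemma shrink {col : E → Bool} {O Y : Set E} {M M' : Matrix E E F} (hs : Skew M) (hs' : Skew M')
    (hb : Bip col M) (hz : ∀ u v, M' u v = 0 ↔ M u v = 0) (hd : Disjoint O Y) {ℓ : ℕ} {u : ℕ → E}
    {c : E → Fˣ} (h : Cfg O Y M M' (ℓ + 2) u c) (hl : 2 ≤ ℓ) :
    Cfg O Y (epiv M (u 2) (u 3)) (epiv M' (u 2) (u 3)) ℓ
      (fun i => u (if i ≤ 1 then i else i + 2)) c := by
  obtain ⟨f, hf⟩ : ∃ f : ℕ → ℕ, ∀ i, f i = if i ≤ 1 then i else i + 2 := ⟨_, fun _ => rfl⟩
  have f1 : ∀ i, i ≤ 1 → f i = i := fun i hi => by rw [hf, if_pos hi]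
  have f2 : ∀ i, 2 ≤ i → f i = i + 2 := fun i hi => by rw [hf, if_neg (by omega)]
  have f3 : ∀ i, (i ≤ 1 ∧ f i = i) ∨ (2 ≤ i ∧ f i = i + 2) := fun i => by
    by_cases e : i ≤ 1
    exacts [Or.inl ⟨e, f1 i e⟩, Or.inr ⟨by omega, f2 i (by omega)⟩]
  simp only [← hf]
  have n2 : ∀ i ≤ ℓ, u (f i) ≠ u 2 := fun i hi e => by
    have := f3 i
    have := h.inj _ (by omega) _ (by omega) e
    omega
  have n3 : ∀ i ≤ ℓ, u (f i) ≠ u 3 := fun i hi e => by
    have := f3 i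
    have := h.inj _ (by omega) _ (by omega) e
    omega
  have sym : ∀ {N : Matrix E E F}, Skew N → ∀ p q, N p q = 0 → N q p = 0 := fun hN p q e => by
    rw [hN, e, neg_zero]
  have a23 := h.adj 2 (by omega)
  have a32 : M (u 3) (u 2) ≠ 0 := fun e => a23 (sym hs _ _ e)
  have row : ∀ N : Matrix E E F, (∀ p q, M p q = 0 → N p q = 0) → ∀ o ∈ O, ∀ i ≤ ℓ,
      epiv N (u 2) (u 3) o (u (f i)) = N o (u (f i)) := fun N hN o ho i hi => by
    have o2 : o ≠ u 2 := fun e => Set.disjoint_left.1 hd ho (e ▸ h.mem 2 (by omega))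
    have o3 : o ≠ u 3 := fun e => Set.disjoint_left.1 hd ho (e ▸ h.mem 3 (by omega))
    rw [epiv_uv N o2 o3 (n2 i hi) (n3 i hi),
      hN _ _ (h.inner 2 (by omega) (by omega) o ho), hN _ _ (h.inner 3 (by omega) (by omega) o ho)]
    simp
  have ent : ∀ N : Matrix E E F, (∀ p q, M p q = 0 → N p q = 0) → ∀ i j, i < j → j ≤ ℓ →
      ¬(i = 1 ∧ j = 2) → epiv N (u 2) (u 3) (u (f i)) (u (f j)) = N (u (f i)) (u (f j)) := by
    intro N hN i j hij hj hne
    have e1 : N (u (f i)) (u 2) * N (u 3) (u (f j)) = 0 := by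
      rcases f3 i with ⟨a, b⟩ | ⟨a, b⟩
      · by_cases e : i = 0
        · rw [b, e, hN _ _ (h.chord 0 2 (by omega) (by omega) (by omega)), zero_mul]
        · rw [f2 j (by omega), hN _ _ (h.chord 3 (j + 2) (by omega) (by omega) (by omega)),
            mul_zero]
      · rw [b, hN _ _ (sym hs _ _ (h.chord 2 (i + 2) (by omega) (by omega) (by omega))), zero_mul]
    have e2 : N (u (f i)) (u 3) * N (u 2) (u (f j)) = 0 := by
      rcases f3 i with ⟨a, b⟩ | ⟨a, b⟩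
      · rw [b, hN _ _ (h.chord i 3 (by omega) (by omega) (by omega)), zero_mul]
      · rw [f2 j (by omega), hN _ _ (h.chord 2 (j + 2) (by omega) (by omega) (by omega)), mul_zero]
    rw [epiv_uv N (n2 i (by omega)) (n3 i (by omega)) (n2 j hj) (n3 j hj), e1, e2]
    simp
  have e14 : ∀ N : Matrix E E F, (∀ p q, M p q = 0 → N p q = 0) →
      epiv N (u 2) (u 3) (u (f 1)) (u (f 2)) = -(N (u 1) (u 2) * N (u 3) (u 4) / N (u 3) (u 2)) := by
    intro N hN
    rw [epiv_uv N (n2 1 (by omega)) (n3 1 (by omega)) (n2 2 hl) (n3 2 hl), f1 1 le_rfl, f2 2 le_rfl,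
      hN _ _ (h.chord 1 4 (by omega) (by omega) (by omega)),
      hN _ _ (h.chord 1 3 (by omega) (by omega) (by omega))]
    simp
  have i1 : ∀ p q, M p q = 0 → M p q = 0 := fun _ _ e => e
  have i2 : ∀ p q, M p q = 0 → M' p q = 0 := fun p q => (hz p q).2
  have nb : ∀ i ≤ ℓ, NoNb (epiv M (u 2) (u 3)) O (u (f i)) ↔ NoNb M O (u (f i)) := fun i hi =>
    forall₂_congr fun o ho => by rw [row M i1 o ho i hi]
  refine ⟨by omega, fun i hi => h.mem _ (by have := f3 i; omega), fun i hi j hj e => ?_,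
    fun i hi => ?_, fun i j hij hj hne => ?_, fun i h1 hi => ?_, h.one, fun i hi o ho => ?_,
    fun i j hij hj hne => ?_, ?_, ?_⟩
  · have := f3 i
    have := f3 j
    have := h.inj _ (by omega) _ (by omega) e
    omega
  · by_cases e : i = 1
    · subst e
      rw [e14 M i1]
      exact neg_ne_zero.2 (div_ne_zero (mul_ne_zero (h.adj 1 (by omega)) (h.adj 3 (by omega))) a32)
    · rw [ent M i1 i (i + 1) (by omega) hi (by omega),
        show f (i + 1) = f i + 1 by have := f3 i; have := f3 (i + 1); omega]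
      exact h.adj _ (by have := f3 i; omega)
  · have := f3 i
    have := f3 j
    rw [ent M i1 i j (by omega) hj (by omega)]
    exact h.chord _ _ (by omega) (by omega) (by omega)
  · have := f3 i
    exact (nb i hi.le).2 (h.inner _ (by omega) (by omega))
  · rw [row M i1 o ho i hi, row M' i2 o ho i hi]
    exact h.eqO _ (by have := f3 i; omega) o ho
  · by_cases e : i = 1 ∧ j = 2
    · obtain ⟨rfl, rfl⟩ := e
      rw [e14 M i1, e14 M' i2, f1 1 le_rfl, f2 2 le_rfl, hs' (u 3) (u 2), hs (u 3) (u 2),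
        h.eqP 1 2 (by omega) (by omega) (by omega), h.eqP 3 4 (by omega) (by omega) (by omega),
        h.eqP 2 3 (by omega) (by omega) (by omega)]
      field_simp
    · have := f3 i
      have := f3 j
      rw [ent M i1 i j hij hj e, ent M' i2 i j hij hj e]
      exact h.eqP _ _ (by omega) (by omega) (by omega)
  · rw [ent M i1 0 1 (by omega) (by omega) (by omega), ent M' i2 0 1 (by omega) (by omega) (by omega),
      f1 0 (by omega), f1 1 le_rfl]
    exact h.ne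
  · rw [nb 0 (by omega), nb ℓ le_rfl, ent M i1 0 ℓ (by omega) le_rfl (by omega), f1 0 (by omega),
      f2 ℓ hl]
    refine h.close.imp id fun e => ⟨?_, e.2⟩
    by_contra h3
    obtain rfl : ℓ = 2 := by omega
    have cn : ∀ p q, M p q ≠ 0 → col p ≠ col q := fun p q e e' => e (hb p q e')
    have a := cn _ _ (h.adj 0 (by omega))
    have b := cn _ _ (h.adj 1 (by omega))
    have d := cn _ _ a23
    have g := cn _ _ (h.adj 3 (by omega))
    have k := cn _ _ e.2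
    revert a b d g k
    cases col (u 0) <;> cases col (u 1) <;> cases col (u 2) <;> cases col (u 3) <;>
      cases col (u 4) <;> simp

lemma short [Fintype E] {ι : Type} (i1 i2 : ι) {O Y : Set E} (hd : Disjoint O Y) (ℓ : ℕ) :
    ∀ (a : Dsp F E ι) (u : ℕ → E) (c : E → Fˣ), Fam a.1 a.2 → Cfg O Y (a.2 i1) (a.2 i2) ℓ u c →
    ∃ b, IReach O Y a b ∧ ∃ ℓ u c, ℓ ≤ 3 ∧ Cfg O Y (b.2 i1) (b.2 i2) ℓ u c := by
  induction ℓ using Nat.strong_induction_on with
  | _ ℓ ih =>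
    intro a u c ha h
    by_cases hl : ℓ ≤ 3
    · exact ⟨a, Relation.ReflTransGen.refl, ℓ, u, c, hl, h⟩
    obtain ⟨k, rfl⟩ : ∃ k, ℓ = k + 2 := ⟨ℓ - 2, by omega⟩
    have a23 := h.adj 2 (by omega)
    obtain ⟨b, h1, h2⟩ := ih k (by omega)
      (colFlip a.1 {u 2, u 3}, fun i => epiv (a.2 i) (u 2) (u 3)) _ c
      (ha.epiv fun i e => a23 ((ha.zero_iff i i1 _ _).1 e))
      (shrink (ha.skew i1) (ha.skew i2) (ha.bip i1) (ha.zero_iff i2 i1) hd h (by omega))
    exact ⟨b, Relation.ReflTransGen.head (IStep.mk' ha i1 (h.mem 2 (by omega)) (h.mem 3 (by omega))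
      a23 (h.inner 2 (by omega) (by omega)) (h.inner 3 (by omega) (by omega))) h1, h2⟩

end SHR

theorem shr {F : Type} [Field F] [Fintype F] : SHR F := by
  intro E ι _ a i1 i2 O Y ha hd hD
  by_cases hS : Single O Y (a.2 i1) (a.2 i2)
  · exact ⟨a, Relation.ReflTransGen.refl, Or.inl hS⟩
  have hγ : ∀ v, ∃ γ : Fˣ, v ∈ Y → ∀ o ∈ O, a.2 i2 o v = (γ : F) * a.2 i1 o v := fun v => by
    by_cases h : NoNb (a.2 i1) O v
    · exact ⟨1, fun _ o ho => by rw [(ha.zero_iff i2 i1 o v).2 (h o ho), h o ho, mul_zero]⟩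
    · simp only [NoNb, not_forall] at h
      obtain ⟨p, hp, h⟩ := h
      refine ⟨Units.mk0 (a.2 i2 p v / a.2 i1 p v)
        (div_ne_zero (fun e => h ((ha.zero_iff i2 i1 p v).1 e)) h), fun hv o ho => ?_⟩
      by_cases e : a.2 i1 o v = 0
      · rw [(ha.zero_iff i2 i1 o v).2 e, e, mul_zero]
      · have : a.2 i2 o v * a.2 i1 p v = a.2 i2 p v * a.2 i1 o v := by
          by_contra e'
          exact hS ⟨v, hv, o, ho, p, hp, e, h, e'⟩
        rw [Units.val_mk0, div_mul_eq_mul_div, ← this, mul_div_cancel_right₀ _ h]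
  choose γ hγ using hγ
  obtain ⟨ℓ, u, c, h⟩ := SHR.Pr.exists_cfg (col := a.1) (γ := γ)
    ⟨ha.skew i1, ha.skew i2, ha.bip i1, ha.zero_iff i2 i1, hd, hγ⟩ hD
  obtain ⟨b, h1, h2⟩ := SHR.short i1 i2 hd ℓ a u c ha h
  exact ⟨b, h1, Or.inr h2⟩

end Pool.Agent.MP_d99b12_co.H25
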