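import Pool.Agent.MP_d99b12_co.H25.Spec
import Pool.Agent.MP_d99b12_co.H25.Piv

/-! # Row START: many inequivalent representations differ on small sets -/

namespace Pool.Agent.MP_d99b12_co.H25

open Matrix

variable {F : Type} [Field F]

namespace START

section Small

variable {E : Type} {M M' : Matrix E E F}

lemma connOn_subsingleton {W : Set E} (h : W.Subsingleton) : ConnOn M W := by
  intro X hX _
  rcases X.eq_empty_or_nonempty with h0 | ⟨x, hx⟩
  · exact Or.inl h0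
  · exact Or.inr (Set.Subset.antisymm hX fun w hw => by rwa [h hw (hX hx)])

lemma connOn_attach (hs : Skew M) {T W : Set E} (h : ConnOn M W)
    (hT : ∀ t ∈ T, ∃ w ∈ W, M t w ≠ 0) : ConnOn M (T ∪ W) := by
  intro X hX hc
  have h1 : X ∩ W = ∅ ∨ X ∩ W = W := by
    refine h (X ∩ W) Set.inter_subset_right fun u hu v hv => ?_
    exact hc u hu.1 v ⟨Or.inr hv.1, fun hvX => hv.2 ⟨hvX, hv.1⟩⟩
  rcases h1 with h1 | h1
  · left
    rw [Set.eq_empty_iff_forall_notMem]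
    intro x hx
    have hxW : ∀ w ∈ W, w ∉ X := fun w hw hwX => by
      have : w ∈ X ∩ W := ⟨hwX, hw⟩
      rw [h1] at this
      exact this
    rcases hX hx with hxT | hxW'
    · obtain ⟨w, hw, hne⟩ := hT x hxT
      exact hne (hc x hx w ⟨Or.inr hw, hxW w hw⟩)
    · exact hxW x hxW' hx
  · right
    have hWX : W ⊆ X := fun w hw => by
      rw [← h1] at hw
      exact hw.1
    refine Set.Subset.antisymm hX fun v hv => ?_
    rcases hv with hv | hv
    · by_contra hvX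
      obtain ⟨w, hw, hne⟩ := hT v hv
      have := hc w (hWX hw) v ⟨Or.inl hv, hvX⟩
      rw [hs v w, this, neg_zero] at hne
      exact hne rfl
    · exact hWX hv

lemma connOn_path (hs : Skew M) (u : ℕ → E) (ℓ : ℕ) (h : ∀ i < ℓ, M (u i) (u (i + 1)) ≠ 0) :
    ConnOn M (u '' Set.Iic ℓ) := by
  induction ℓ with
  | zero =>
    refine connOn_subsingleton ?_
    rintro _ ⟨i, hi, rfl⟩ _ ⟨j, hj, rfl⟩
    rw [Nat.le_zero.1 hi, Nat.le_zero.1 hj]
  | succ ℓ ih =>
    have e : u '' Set.Iic (ℓ + 1) = {u (ℓ + 1)} ∪ u '' Set.Iic ℓ := by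
      ext x
      constructor
      · rintro ⟨i, hi, rfl⟩
        rcases Nat.lt_or_ge ℓ i with h1 | h1
        · left
          have : i = ℓ + 1 := le_antisymm hi h1
          rw [this]
          rfl
        · exact Or.inr ⟨i, h1, rfl⟩
      · rintro (hx | ⟨i, hi, rfl⟩)
        · exact ⟨ℓ + 1, Set.mem_Iic.2 le_rfl, hx.symm⟩
        · exact ⟨i, Nat.le_succ_of_le hi, rfl⟩
    rw [e]
    refine connOn_attach hs (ih fun i hi => h i (Nat.lt_succ_of_lt hi)) ?_
    rintro t rfl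
    refine ⟨u ℓ, ⟨ℓ, Set.mem_Iic.2 le_rfl, rfl⟩, ?_⟩
    rw [hs, neg_ne_zero]
    exact h ℓ (Nat.lt_succ_self ℓ)

lemma ConnOn.congr {W : Set E} (h : ConnOn M W)
    (hz : ∀ u ∈ W, ∀ v ∈ W, M' u v = 0 → M u v = 0) : ConnOn M' W :=
  fun X hX hc => h X hX fun u hu v hv => hz u (hX hu) v hv.1 (hc u hu v hv)

/-- A small witness of deviance. -/
def Small (O Y : Set E) (M M' : Matrix E E F) : Prop :=
  ∃ T P1 : Finset E, ↑T ⊆ O ∧ ↑P1 ⊆ Y ∧ T.card ≤ 2 ∧ P1.card ≤ 4 ∧ DevP ↑T M M' ↑P1 ∧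
    ConnOn M (↑T ∪ ↑P1) ∧ ∀ p ∈ P1, NoNb M O p ∨ ∃ t ∈ T, M t p ≠ 0

lemma small_single (hs : Skew M) {O Y : Set E} (h : Single O Y M M') : Small O Y M M' := by
  classical
  obtain ⟨v, hv, a, ha, b, hb, h1, h2, h3⟩ := h
  refine ⟨{a, b}, {v}, ?_, ?_, Finset.card_le_two, by simp, ?_, ?_, ?_⟩
  · intro x hx
    simp only [Finset.coe_insert, Finset.coe_singleton, Set.mem_insert_iff,
      Set.mem_singleton_iff] at hx
    rcases hx with rfl | rfl <;> assumption
  · simpa using hv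
  · rintro ⟨c, hc1, hc2⟩
    have ea := hc2 a (by simp) v (by simp)
    have eb := hc2 b (by simp) v (by simp)
    rw [hc1 a (by simp)] at ea
    rw [hc1 b (by simp)] at eb
    apply h3
    rw [ea, eb]
    simp only [Units.val_one]
    ring
  · refine connOn_attach hs (connOn_subsingleton (by simp)) ?_
    intro t ht
    simp only [Finset.coe_insert, Finset.coe_singleton, Set.mem_insert_iff,
      Set.mem_singleton_iff] at ht
    refine ⟨v, by simp, ?_⟩
    rcases ht with rfl | rfl <;> assumption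
  · intro p hp
    rw [Finset.mem_singleton.1 hp]
    exact Or.inr ⟨a, by simp, h1⟩

lemma exists_nb (M : Matrix E E F) (O : Set E) (v : E) : ∃ T : Finset E, ↑T ⊆ O ∧ T.card ≤ 1 ∧
    (∀ t ∈ T, M t v ≠ 0) ∧ (¬NoNb M O v → ∃ t ∈ T, M t v ≠ 0) := by
  by_cases h : NoNb M O v
  · exact ⟨∅, by simp, by simp, by simp, fun h' => absurd h h'⟩
  · have h' : ∃ o ∈ O, M o v ≠ 0 := by
      by_contra hh
      push Not at hh
      exact h hh
    obtain ⟨o, ho, hne⟩ := h'
    exact ⟨{o}, by simpa using ho, by simp, by simpa using hne, fun _ => ⟨o, by simp, hne⟩⟩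

lemma cfg_dev {O Y : Set E} {ℓ : ℕ} {u : ℕ → E} {c : E → Fˣ} (h : Cfg O Y M M' ℓ u c)
    (hℓ : ℓ ≤ 3) {T P1 : Set E} (hT : T ⊆ O) (hP : ∀ i ≤ ℓ, u i ∈ P1)
    (h0 : ¬NoNb M O (u 0) → ∃ t ∈ T, M t (u 0) ≠ 0)
    (h1 : ¬NoNb M O (u ℓ) → ∃ t ∈ T, M t (u ℓ) ≠ 0) : DevP T M M' P1 := by
  rintro ⟨c', hc1, hc2⟩
  have edge : ∀ i j, i < j → j ≤ ℓ → ¬(i = 0 ∧ j = 1) → M (u i) (u j) ≠ 0 →
      (c' (u i) : F) * c' (u j) = c (u i) * c (u j) := by
    intro i j hij hj hn hne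
    have e1 := hc2 (u i) (Or.inr (hP i (by omega))) (u j) (hP j hj)
    rw [h.eqP i j hij hj hn] at e1
    exact (mul_right_cancel₀ hne e1).symm
  have root : ∀ i ≤ ℓ, (∃ t ∈ T, M t (u i) ≠ 0) → (c' (u i) : F) = c (u i) := by
    rintro i hi ⟨t, ht, hne⟩
    have e1 := hc2 t (Or.inl ht) (u i) (hP i hi)
    rw [h.eqO i hi t (hT ht), hc1 t ht, Units.val_one, one_mul] at e1
    exact (mul_right_cancel₀ hne e1).symm
  have fin : (c' (u 0) : F) * c' (u 1) ≠ c (u 0) * c (u 1) := by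
    intro e
    apply h.ne
    rw [← e]
    exact hc2 (u 0) (Or.inr (hP 0 (Nat.zero_le _))) (u 1) (hP 1 h.pos)
  rcases h.close with ⟨a0, a1⟩ | ⟨h3, hne⟩
  · have back : ∀ k, k < ℓ → (c' (u (ℓ - k)) : F) = c (u (ℓ - k)) := by
      intro k
      induction k with
      | zero => intro _; exact root ℓ le_rfl (h1 a1)
      | succ k ih =>
        intro hk
        have ih' := ih (by omega)
        have e0 : ℓ - k = ℓ - (k + 1) + 1 := by omega
        rw [e0] at ih'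
        have e1 := edge (ℓ - (k + 1)) (ℓ - (k + 1) + 1) (by omega) (by omega) (by omega)
          (h.adj _ (by omega))
        rw [ih'] at e1
        exact mul_right_cancel₀ (Units.ne_zero _) e1
    have b1 := back (ℓ - 1) (by have := h.pos; omega)
    have e0 : ℓ - (ℓ - 1) = 1 := by have := h.pos; omega
    rw [e0] at b1
    apply fin
    rw [b1, root 0 (Nat.zero_le _) (h0 a0)]
  · have e3 : ℓ = 3 := le_antisymm hℓ h3
    subst e3
    have e12 := edge 1 2 (by omega) (by omega) (by omega) (h.adj 1 (by omega))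
    have e23 := edge 2 3 (by omega) (by omega) (by omega) (h.adj 2 (by omega))
    have e03 := edge 0 3 (by omega) (by omega) (by omega) hne
    apply fin
    have hz : (c' (u 2) : F) * c' (u 3) ≠ 0 := mul_ne_zero (Units.ne_zero _) (Units.ne_zero _)
    apply mul_right_cancel₀ hz
    calc (c' (u 0) : F) * c' (u 1) * (c' (u 2) * c' (u 3))
        = (c' (u 0) * c' (u 3)) * (c' (u 1) * c' (u 2)) := by ring
      _ = (c (u 0) * c (u 3)) * (c (u 1) * c (u 2)) := by rw [e03, e12]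
      _ = c (u 0) * c (u 1) * (c (u 2) * c (u 3)) := by ring
      _ = c (u 0) * c (u 1) * (c' (u 2) * c' (u 3)) := by rw [e23]

lemma small_cfg (hs : Skew M) {O Y : Set E} {ℓ : ℕ} {u : ℕ → E} {c : E → Fˣ}
    (h : Cfg O Y M M' ℓ u c) (hℓ : ℓ ≤ 3) : Small O Y M M' := by
  classical
  obtain ⟨T0, a1, a2, a3, a4⟩ := exists_nb M O (u 0)
  obtain ⟨T1, b1, b2, b3, b4⟩ := exists_nb M O (u ℓ)
  have eP : (↑((Finset.range (ℓ + 1)).image u) : Set E) = u '' Set.Iic ℓ := by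
    ext x
    simp
  have hTO : (↑(T0 ∪ T1) : Set E) ⊆ O := by
    rw [Finset.coe_union]
    exact Set.union_subset a1 b1
  have g0 : ¬NoNb M O (u 0) → ∃ t ∈ T0 ∪ T1, M t (u 0) ≠ 0 := fun hn => by
    obtain ⟨t, ht, hne⟩ := a4 hn
    exact ⟨t, Finset.mem_union_left _ ht, hne⟩
  have g1 : ¬NoNb M O (u ℓ) → ∃ t ∈ T0 ∪ T1, M t (u ℓ) ≠ 0 := fun hn => by
    obtain ⟨t, ht, hne⟩ := b4 hn
    exact ⟨t, Finset.mem_union_right _ ht, hne⟩
  refine ⟨T0 ∪ T1, (Finset.range (ℓ + 1)).image u, hTO, ?_, ?_, ?_, ?_, ?_, ?_⟩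
  · rw [eP]
    rintro _ ⟨i, hi, rfl⟩
    exact h.mem i hi
  · exact (Finset.card_union_le _ _).trans (by omega)
  · exact Finset.card_image_le.trans (by rw [Finset.card_range]; omega)
  · refine cfg_dev h hℓ hTO (fun i hi => ?_) g0 g1
    rw [eP]
    exact ⟨i, hi, rfl⟩
  · rw [eP]
    refine connOn_attach hs (connOn_path hs u ℓ h.adj) fun t ht => ?_
    rcases Finset.mem_union.1 (Finset.mem_coe.1 ht) with ht | ht
    · exact ⟨u 0, ⟨0, Nat.zero_le _, rfl⟩, a3 t ht⟩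
    · exact ⟨u ℓ, ⟨ℓ, Set.mem_Iic.2 le_rfl, rfl⟩, b3 t ht⟩
  · intro p hp
    obtain ⟨i, hi, rfl⟩ := Finset.mem_image.1 hp
    have hi' : i ≤ ℓ := Nat.lt_succ_iff.1 (Finset.mem_range.1 hi)
    by_cases hn : NoNb M O (u i)
    · exact Or.inl hn
    · right
      by_cases i0 : i = 0
      · subst i0
        exact g0 hn
      · by_cases i1 : i = ℓ
        · subst i1
          exact g1 hn
        · exact absurd (h.inner i (by omega) (by omega)) hn

end Small

section Reach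

variable {E ι : Type}

/-- Vertices outside `X` all of whose contact with `X` is witnessed in `T`. -/
def YT (M : Matrix E E F) (X T : Set E) : Set E :=
  {v | v ∉ X ∧ (NoNb M X v ∨ ∃ t ∈ T, M t v ≠ 0)}

lemma YT_congr {M M' : Matrix E E F} {X T : Set E} (hT : T ⊆ X)
    (h : ∀ o ∈ X, ∀ v, M o v = 0 ↔ M' o v = 0) : YT M X T = YT M' X T := by
  ext v
  simp only [YT, NoNb, Set.mem_ofPred_eq]
  refine and_congr_right fun _ => or_congr ?_ ?_
  · exact forall₂_congr fun o ho => h o ho v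
  · exact exists_congr fun t => and_congr_right fun ht => not_congr (h t (hT ht) v)

lemma YT_subset {M : Matrix E E F} {X T : Set E} : YT M X T ⊆ Xᶜ := fun _ hv => hv.1

lemma YT_empty_subset {M : Matrix E E F} {X T : Set E} : YT M X ∅ ⊆ YT M X T := by
  rintro v ⟨h1, h2 | ⟨t, ht, _⟩⟩
  · exact ⟨h1, Or.inl h2⟩
  · exact absurd ht (Set.notMem_empty t)

lemma compl_subset_YT {M : Matrix E E F} {X : Set E} : Xᶜ ⊆ YT M X X := by
  intro v hv
  refine ⟨hv, ?_⟩
  by_cases hn : NoNb M X v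
  · exact Or.inl hn
  · right
    by_contra hh
    push Not at hh
    exact hn hh

lemma disj_YT {M : Matrix E E F} {X T T' : Set E} (hT : T' ⊆ X) : Disjoint T' (YT M X T) :=
  Set.disjoint_left.2 fun _ hv hv' => hv'.1 (hT hv)

lemma iReach_mono {O Y Y' : Set E} {a b : Dsp F E ι} (h : IReach O Y a b) (hY : Y ⊆ Y') :
    IReach O Y' a b := by
  induction h with
  | refl => exact Relation.ReflTransGen.refl
  | tail _ hs ih =>
    obtain ⟨x, y, hx, hy, h'⟩ := hs
    exact ih.tail ⟨x, y, hY hx, hY hy, h'⟩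

variable [Fintype E] {a b : Dsp F E ι}

lemma iReach_fam {O Y : Set E} (h : IReach O Y a b) (ha : Fam a.1 a.2) : Fam b.1 b.2 := by
  obtain ⟨Z, _, h1, h2⟩ := h.exists_piv ha
  rw [h1]
  exact ha.piv h2

/-- Inner pivots relative to a colour do not touch `X`. -/
lemma core (ha : Fam a.1 a.2) (i0 : ι) {X T O Y : Set E} (hT : T ⊆ X) (hO : T ⊆ O)
    (hY : Y ⊆ YT (a.2 i0) X T) (h : IReach O Y a b) : IReach X (YT (a.2 i0) X ∅) a b := by
  induction h with
  | refl => exact Relation.ReflTransGen.refl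
  | @tail b c _ hs ih =>
    obtain ⟨x, y, hx, hy, h1, h2, h3, h4⟩ := hs
    have hb := iReach_fam ih ha
    have row : ∀ o ∈ X, ∀ v, b.2 i0 o v = a.2 i0 o v := fun o ho v =>
      ih.row ha (disj_YT le_rfl) i0 ho v
    have key : ∀ z ∈ Y, NoNb (b.2 i0) O z → z ∈ YT (a.2 i0) X ∅ ∧ NoNb (b.2 i0) X z := by
      intro z hz hn
      obtain ⟨k1, k2 | ⟨t, ht, k2⟩⟩ := hY hz
      · exact ⟨⟨k1, Or.inl k2⟩, fun o ho => (row o ho z).trans (k2 o ho)⟩
      · exact absurd ((row t (hT ht) z).symm.trans (hn t (hO ht))) k2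
    obtain ⟨kx, kx'⟩ := key x hx (h2 i0)
    obtain ⟨ky, ky'⟩ := key y hy (h3 i0)
    refine ih.tail ⟨x, y, kx, ky, h1, fun i => (hb.same i0 i).noNb kx',
      fun i => (hb.same i0 i).noNb ky', h4⟩

lemma lift (ha : Fam a.1 a.2) (i0 : ι) {X T O Y : Set E} (hT : T ⊆ X) (hO : T ⊆ O)
    (hY : Y ⊆ YT (a.2 i0) X T) (h : IReach O Y a b) : IReach X Xᶜ a b :=
  iReach_mono (core ha i0 hT hO hY h) YT_subset

/-- The pair `i, j` has colour `T`. -/
def Col (a : Dsp F E ι) (X T : Set E) (i j : ι) : Prop :=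
  DevP T (a.2 i) (a.2 j) (YT (a.2 i) X T)

lemma col_iff (ha : Fam a.1 a.2) {X T : Set E} (hT : T ⊆ X) (h : IReach X Xᶜ a b) (i j : ι) :
    Col a X T i j ↔ Col b X T i j := by
  obtain ⟨Z, hZ, _, hp⟩ := (core ha i le_rfl le_rfl compl_subset_YT h).exists_piv ha
  have e : YT (a.2 i) X T = YT (b.2 i) X T :=
    YT_congr hT fun o ho v => by rw [h.row ha disjoint_compl_right i ho v]
  unfold Col
  rw [← e]
  refine (hp i).devP_iff (hp j) (hZ.trans YT_empty_subset) ?_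
  exact Set.disjoint_left.2 fun z hz hzT => (hZ hz).1 (hT hzT)

lemma agree_reach (ha : Fam a.1 a.2) {O Y : Set E} (hd : Disjoint O Y) (h : IReach O Y a b)
    {i j : ι} (hij : AgreeOn O (a.2 i) (a.2 j)) : AgreeOn O (b.2 i) (b.2 j) := by
  intro u hu v hv
  rw [h.row ha hd i hu v, h.row ha hd j hu v]
  exact hij u hu v hv

lemma equiv_reach (ha : Fam a.1 a.2) {O Y : Set E} (h : IReach O Y a b) (i j : ι) :
    EquivOn Set.univ (a.2 i) (a.2 j) ↔ EquivOn Set.univ (b.2 i) (b.2 j) := by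
  obtain ⟨Z, _, _, hp⟩ := h.exists_piv ha
  exact (hp i).equivOn_iff (hp j) (Set.subset_univ _)

end Reach

section Round

variable [Fintype F]

omit [Fintype F] in
lemma shr_small (hS : SHR F) {E ι : Type} [Fintype E] {a : Dsp F E ι} (ha : Fam a.1 a.2)
    {i1 i2 : ι} {O Y : Set E} (hd : Disjoint O Y) (h : DevP O (a.2 i1) (a.2 i2) Y) :
    ∃ b, IReach O Y a b ∧ Small O Y (b.2 i1) (b.2 i2) := by
  obtain ⟨b, hb, h'⟩ := hS E ι a i1 i2 O Y ha hd h
  have hs : Skew (b.2 i1) := (iReach_fam hb ha).skew i1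
  refine ⟨b, hb, ?_⟩
  rcases h' with h' | ⟨ℓ, u, c, hℓ, h'⟩
  · exact small_single hs h'
  · exact small_cfg hs h' hℓ

lemma blocks {E ι : Type} (S : ι → Matrix E E F) (X : Finset E) (C : Finset ι) {κ n : ℕ}
    (hX : X.card ≤ κ) (hC : (Fintype.card F ^ κ) ^ κ * n ≤ C.card) :
    ∃ C' ⊆ C, n ≤ C'.card ∧ ∀ i ∈ C', ∀ j ∈ C', AgreeOn ↑X (S i) (S j) := by
  classical
  let f : ι → X → X → F := fun i u v => S i u v
  have hq : 1 ≤ Fintype.card F := Fintype.card_pos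
  have hcard : (Finset.univ : Finset (X → X → F)).card ≤ (Fintype.card F ^ κ) ^ κ := by
    rw [Finset.card_univ, Fintype.card_fun, Fintype.card_fun, Fintype.card_coe]
    exact (Nat.pow_le_pow_left (Nat.pow_le_pow_right hq hX) _).trans
      (Nat.pow_le_pow_right (Nat.pos_of_ne_zero (by positivity)) hX)
  obtain ⟨β, -, hβ⟩ := Finset.exists_le_card_fiber_of_mul_le_card_of_maps_to (s := C)
    (t := Finset.univ) (f := f) (n := n) (fun _ _ => Finset.mem_univ _) Finset.univ_nonempty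
    ((Nat.mul_le_mul_right n hcard).trans hC)
  refine ⟨_, Finset.filter_subset _ _, hβ, fun i hi j hj u hu v hv => ?_⟩
  have e : f j = f i := (Finset.mem_filter.1 hj).2.trans (Finset.mem_filter.1 hi).2.symm
  exact congrFun (congrFun e ⟨u, hu⟩) ⟨v, hv⟩

/-- The result of one round. -/
def Out {E ι : Type} (a : Dsp F E ι) (X : Finset E) (C : Finset ι) (n : ℕ) : Prop :=
  ∃ b, IReach ↑X (↑X)ᶜ a b ∧ ∃ (X' W : Finset E) (d : ι) (C' : Finset ι), X ⊆ X' ∧
    X'.card ≤ X.card + 8 ∧ W ⊆ X' ∧ W.card ≤ 10 ∧ d ∈ C ∧ C' ⊆ C ∧ n ≤ C'.card ∧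
    (∀ i ∈ C', ∀ j ∈ C', AgreeOn ↑X' (b.2 i) (b.2 j)) ∧ ∀ i ∈ C', ¬EquivOn ↑W (b.2 i) (b.2 d)

omit [Fintype F] in
lemma Out.of_reach {E ι : Type} {a b : Dsp F E ι} {X : Finset E} {C C1 : Finset ι} {n : ℕ}
    (h : Out b X C1 n) (hab : IReach ↑X (↑X)ᶜ a b) (hC : C1 ⊆ C) : Out a X C n := by
  obtain ⟨c, hc, X', W, d, C', h1, h2, h3, h4, h5, h6, h7⟩ := h
  exact ⟨c, hab.trans hc, X', W, d, C', h1, h2, h3, h4, hC h5, h6.trans hC, h7⟩

lemma finish {E ι : Type} {a : Dsp F E ι} {X X' W : Finset E} {C : Finset ι} {κ n : ℕ}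
    (hX : X.card ≤ κ) (hC : (Fintype.card F ^ (κ + 8)) ^ (κ + 8) * n ≤ C.card) (h1 : X ⊆ X')
    (h2 : X'.card ≤ X.card + 8) (h3 : W ⊆ X') (h4 : W.card ≤ 10) {i1 i2 : ι} (hi1 : i1 ∈ C)
    (hi2 : i2 ∈ C) (hne : ¬EquivOn ↑W (a.2 i1) (a.2 i2)) : Out a X C n := by
  obtain ⟨C', hC', hn, hag⟩ := blocks a.2 X' C (κ := κ + 8) (by omega) hC
  by_cases hA : ∀ i ∈ C', ¬EquivOn ↑W (a.2 i) (a.2 i1)
  · exact ⟨a, Relation.ReflTransGen.refl, X', W, i1, C', h1, h2, h3, h4, hi1, hC', hn, hag, hA⟩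
  · refine ⟨a, Relation.ReflTransGen.refl, X', W, i2, C', h1, h2, h3, h4, hi2, hC', hn, hag, ?_⟩
    intro j hj hB
    push Not at hA
    obtain ⟨i, hi, hA⟩ := hA
    have hij : EquivOn ↑W (a.2 i) (a.2 j) :=
      ((hag i hi j hj).mono (Finset.coe_subset.2 h3)).equivOn
    exact hne ((hA.symm.trans hij).trans hB)

/-- One round, by induction on the number of colours in use. -/
lemma round (hS : SHR F) (κ n c : ℕ) : ∃ N, ∀ (E ι : Type) [Fintype E] (a : Dsp F E ι)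
    (X : Finset E) (C : Finset ι) (CC : Finset (Finset E)), Fam a.1 a.2 → X.card ≤ κ →
    N ≤ C.card → CC.card ≤ c → (∀ T ∈ CC, T ⊆ X ∧ T.card ≤ 2) →
    (∀ i ∈ C, ∀ j ∈ C, AgreeOn ↑X (a.2 i) (a.2 j)) →
    (∀ i ∈ C, ∀ j ∈ C, i ≠ j → ∃ T ∈ CC, Col a ↑X ↑T i j) → Out a X C n := by
  classical
  induction c with
  | zero =>
    refine ⟨2, fun E ι _ a X C CC _ _ hC hc _ _ hcol => ?_⟩
    obtain ⟨i, hi, j, hj, hij⟩ := Finset.one_lt_card.1 hC
    obtain ⟨T, hT, _⟩ := hcol i hi j hj hij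
    rw [Finset.card_eq_zero.1 (Nat.le_zero.1 hc)] at hT
    exact absurd hT (Finset.notMem_empty T)
  | succ c ih =>
    obtain ⟨N1, ih⟩ := ih
    refine ⟨(Fintype.card F ^ (κ + 8)) ^ (κ + 8) * n + (Fintype.card F ^ (κ + 4)) ^ (κ + 4) * N1
      + N1, fun E ι _ a X C CC ha hX hC hc hCC hag hcol => ?_⟩
    -- dropping a colour
    have drop : ∀ (b : Dsp F E ι) (C1 : Finset ι) (T : Finset E), IReach ↑X (↑X)ᶜ a b → C1 ⊆ C →
        N1 ≤ C1.card → T ∈ CC → (∀ i ∈ C1, ∀ j ∈ C1, ¬Col b ↑X ↑T i j) → Out a X C n := by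
      intro b C1 T hab hC1 hN hT hno
      refine Out.of_reach (ih E ι b X C1 (CC.erase T) (iReach_fam hab ha) hX hN ?_ ?_ ?_ ?_) hab hC1
      · rw [Finset.card_erase_of_mem hT]
        omega
      · exact fun T' hT' => hCC T' (Finset.mem_of_mem_erase hT')
      · exact fun i hi j hj =>
          agree_reach ha disjoint_compl_right hab (hag i (hC1 hi) j (hC1 hj))
      · intro i hi j hj hij
        obtain ⟨T', hT', h'⟩ := hcol i (hC1 hi) j (hC1 hj) hij
        have h'' := (col_iff ha (Finset.coe_subset.2 (hCC T' hT').1) hab i j).1 h'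
        refine ⟨T', Finset.mem_erase.2 ⟨?_, hT'⟩, h''⟩
        rintro rfl
        exact hno i hi j hj h''
    rcases CC.eq_empty_or_nonempty with h0 | ⟨T, hT⟩
    · exact ih E ι a X C CC ha hX (by omega) (by rw [h0]; simp) hCC hag hcol
    have hTX : (↑T : Set E) ⊆ ↑X := Finset.coe_subset.2 (hCC T hT).1
    by_cases hno : ∀ i ∈ C, ∀ j ∈ C, ¬Col a ↑X ↑T i j
    · exact drop a C T Relation.ReflTransGen.refl le_rfl (by omega) hT hno
    push Not at hno
    obtain ⟨i1, hi1, i2, hi2, hπ⟩ := hno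
    obtain ⟨b, hr, T1, P1, t1, p1, -, p2, hdev, hcon, -⟩ := shr_small hS ha (disj_YT hTX) hπ
    have hab : IReach ↑X (↑X)ᶜ a b := lift ha i1 hTX le_rfl le_rfl hr
    have hb := iReach_fam hab ha
    have hagb : ∀ i ∈ C, ∀ j ∈ C, AgreeOn ↑X (b.2 i) (b.2 j) := fun i hi j hj =>
      agree_reach ha disjoint_compl_right hab (hag i hi j hj)
    have hT1 : T1 ⊆ T := Finset.coe_subset.1 t1
    have hcU : (X ∪ P1).card ≤ X.card + 4 := (Finset.card_union_le _ _).trans (by omega)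
    by_cases hsm : T1.card ≤ 1
    · have hne := hdev.not_equivOn (hb.bip i1) (hb.skew i1)
        ((hagb i1 hi1 i2 hi2).mono (t1.trans hTX))
        (connOn_subsingleton (Finset.card_le_one_iff_subsingleton.1 hsm))
      refine Out.of_reach (finish (X' := X ∪ P1) (W := T1 ∪ P1) hX (by omega)
        Finset.subset_union_left (by omega)
        (Finset.union_subset_union (hT1.trans (hCC T hT).1) le_rfl)
        ((Finset.card_union_le _ _).trans (by omega)) hi1 hi2 ?_) hab le_rfl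
      rwa [Finset.coe_union]
    have eT : T1 = T := Finset.eq_of_subset_of_card_le hT1 (by have := (hCC T hT).2; omega)
    subst eT
    obtain ⟨C1, hC1, hN, hag1⟩ := blocks b.2 (X ∪ P1) C (κ := κ + 4) (n := N1) (by omega) (by omega)
    by_cases hno : ∀ i ∈ C1, ∀ j ∈ C1, ¬Col b ↑X ↑T1 i j
    · exact drop b C1 T1 hab hC1 hN hT hno
    push Not at hno
    obtain ⟨j1, hj1, j2, hj2, hπ2⟩ := hno
    have hagO : AgreeOn (↑T1 ∪ ↑P1) (b.2 j1) (b.2 j2) := by
      refine (hag1 j1 hj1 j2 hj2).mono ?_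
      rw [Finset.coe_union]
      exact Set.union_subset_union_left _ hTX
    have hsh := DevP.shift (hb.skew j1) (hb.skew j2) hπ2 hagO
    have hd2 : Disjoint (↑T1 ∪ ↑P1 : Set E) (YT (b.2 j1) ↑X ↑T1 \ ↑P1) := by
      refine Set.disjoint_left.2 ?_
      rintro v (hv | hv) hv'
      · exact hv'.1.1 (hTX hv)
      · exact hv'.2 hv
    obtain ⟨b2, hr2, T2, P2, t2, -, -, p4, hdev2, -, -⟩ := shr_small hS hb hd2 hsh
    have hbb : IReach ↑X (↑X)ᶜ b b2 :=
      lift hb j1 hTX Set.subset_union_left Set.sdiff_subset hr2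
    have hb2 := iReach_fam hbb hb
    have hcon2 : ConnOn (b2.2 j1) (↑T1 ∪ ↑P1) := by
      refine ConnOn.congr hcon fun u hu v _ hz => ?_
      rw [hr2.row hb hd2 j1 hu v] at hz
      exact (hb.zero_iff j1 i1 u v).1 hz
    have hne := (hdev2.mono t2 le_rfl).not_equivOn (hb2.bip j1) (hb2.skew j1)
      (agree_reach hb hd2 hr2 hagO) hcon2
    refine Out.of_reach (finish (X' := X ∪ P1 ∪ P2) (W := T1 ∪ P1 ∪ P2) hX (by omega)
      (Finset.subset_union_left.trans Finset.subset_union_left)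
      ((Finset.card_union_le _ _).trans (by omega))
      (Finset.union_subset_union (Finset.union_subset_union (hCC T1 hT).1 le_rfl) le_rfl) ?_
      (hC1 hj1) (hC1 hj2) ?_) (hab.trans hbb) le_rfl
    · have h1 := Finset.card_union_le (T1 ∪ P1) P2
      have h2 := Finset.card_union_le T1 P1
      have h3 := (hCC T1 hT).2
      omega
    · rwa [Finset.coe_union, Finset.coe_union]

omit [Fintype F] in
/-- Every inequivalent pair that agrees on `X` has a colour. -/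
lemma exists_col (hS : SHR F) {E ι : Type} [Fintype E] {a : Dsp F E ι} (ha : Fam a.1 a.2)
    {X : Finset E} {i j : ι} (hag : AgreeOn ↑X (a.2 i) (a.2 j))
    (hne : ¬EquivOn Set.univ (a.2 i) (a.2 j)) :
    ∃ T : Finset E, T ⊆ X ∧ T.card ≤ 2 ∧ Col a ↑X ↑T i j := by
  have hdev : DevP ↑X (a.2 i) (a.2 j) (↑X)ᶜ := by
    by_contra hh
    have := equivOn_of_not_devP (ha.skew i) (ha.skew j) hag hh
    rw [Set.union_compl_self] at this
    exact hne this
  obtain ⟨b, hr, T, P1, t1, p1, t2, -, hd, -, hp⟩ := shr_small hS ha disjoint_compl_right hdev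
  refine ⟨T, Finset.coe_subset.1 t1, t2, (col_iff ha t1 hr i j).2 ?_⟩
  exact hd.mono le_rfl fun p hp' => ⟨p1 hp', hp p hp'⟩

lemma iter (hS : SHR F) (m n : ℕ) : ∀ κ, ∃ N, ∀ (E ι : Type) [Fintype E] (a : Dsp F E ι)
    (X : Finset E) (C : Finset ι), Fam a.1 a.2 → (∀ i, Conn m (a.2 i)) → X.card ≤ κ →
    N ≤ C.card → (∀ i ∈ C, ∀ j ∈ C, AgreeOn ↑X (a.2 i) (a.2 j)) →
    (∀ i ∈ C, ∀ j ∈ C, i ≠ j → ¬EquivOn Set.univ (a.2 i) (a.2 j)) →
    ∃ (b : Dsp F E ι) (d : Fin n → ι) (W : Fin n → Finset E), Fam b.1 b.2 ∧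
      (∀ i, Conn m (b.2 i)) ∧ (∀ i, AgreeOn ↑X (a.2 i) (b.2 i)) ∧ (∀ i, d i ∈ C) ∧
      (∀ i, (W i).card ≤ 10) ∧ ∀ i j, i < j → ¬EquivOn ↑(W i) (b.2 (d j)) (b.2 (d i)) := by
  classical
  induction n with
  | zero =>
    intro κ
    exact ⟨0, fun E ι _ a X C ha hc _ _ _ _ => ⟨a, Fin.elim0, Fin.elim0, ha, hc,
      fun i => AgreeOn.refl _ _, fun i => i.elim0, fun i => i.elim0, fun i => i.elim0⟩⟩
  | succ n ih =>
    intro κ
    obtain ⟨N1, ih⟩ := ih (κ + 8)
    obtain ⟨N, hN⟩ := round hS κ N1 (2 ^ κ)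
    refine ⟨N, fun E ι _ a X C ha hc hX hC hag hne => ?_⟩
    obtain ⟨b, hab, X', W0, d0, C', h1, h2, h3, h4, h5, h6, h7, h8, h9⟩ :=
      hN E ι a X C (X.powerset.filter fun T => T.card ≤ 2) ha hX hC
        ((Finset.card_filter_le _ _).trans (by
          rw [Finset.card_powerset]
          exact Nat.pow_le_pow_right (by norm_num) hX))
        (fun T hT => ⟨Finset.mem_powerset.1 (Finset.mem_filter.1 hT).1, (Finset.mem_filter.1 hT).2⟩)
        hag (fun i hi j hj hij => by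
          obtain ⟨T, t1, t2, t3⟩ := exists_col hS ha (hag i hi j hj) (hne i hi j hj hij)
          exact ⟨T, Finset.mem_filter.2 ⟨Finset.mem_powerset.2 t1, t2⟩, t3⟩)
    have hH := hab.hReach disjoint_compl_right
    obtain ⟨b', d, W, k1, k2, k3, k4, k5, k6⟩ := ih E ι b X' C' (iReach_fam hab ha)
      (fun i => hH.conn ha (hc i)) (by omega) h7 h8
      (fun i hi j hj hij he => hne i (h6 hi) j (h6 hj) hij ((equiv_reach ha hab i j).2 he))
    refine ⟨b', Fin.cons d0 d, Fin.cons W0 W, k1, k2,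
      fun i => (hH.agree ha i).trans ((k3 i).mono (Finset.coe_subset.2 h1)), ?_, ?_, ?_⟩
    · intro i
      refine Fin.cases ?_ (fun i => ?_) i
      · simpa using h5
      · simpa using h6 (k4 i)
    · intro i
      refine Fin.cases ?_ (fun i => ?_) i
      · simpa using h4
      · simpa using k5 i
    · intro i j
      refine Fin.cases ?_ (fun j => ?_) j
      · intro hij
        exact absurd hij (Fin.not_lt_zero i)
      · refine Fin.cases ?_ (fun i => ?_) i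
        · intro _ he
          simp only [Fin.cons_zero, Fin.cons_succ] at he
          have hW : (↑W0 : Set E) ⊆ ↑X' := Finset.coe_subset.2 h3
          exact h9 (d j) (k4 j) ((((k3 (d j)).mono hW).equivOn.trans he).trans
            ((k3 d0).mono hW).symm.equivOn)
        · intro hij
          simpa only [Fin.cons_succ] using k6 i j (Fin.succ_lt_succ_iff.1 hij)

end Round

end START

theorem start [Fintype F] (h : SHR F) (m : ℕ) : START F m := by
  intro n
  obtain ⟨N, hN⟩ := START.iter h m n 0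
  refine ⟨N, fun E _ col S hf hc hne => ?_⟩
  obtain ⟨b, d, W, k1, k2, -, -, k5, k6⟩ := hN E (Fin N) (col, S) ∅ Finset.univ hf hc (by simp)
    (by simp) (fun i _ j _ u hu => by simp at hu) (fun i _ j _ hij => hne i j hij)
  exact ⟨b.1, fun i => b.2 (d i), W, k1.reindex d, fun i => k2 (d i), k5, k6⟩

end Pool.Agent.MP_d99b12_co.H25
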