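import Pool.Agent.MP_d99b12_co.H25.STEP3

/-! # One growth step -/

namespace Pool.Agent.MP_d99b12_co.H25

open Matrix Sum

namespace STEP

variable {F : Type} [Field F] {E K P ι : Type} [Fintype K]

/-- The datum after a change of the background. -/
def nd (d : Datum F K P) (D Ψ2 Ψ3 : Matrix K K F) : Datum F K P where
  colK := d.colK
  colP := d.colP
  D := D
  V := Matrix.of fun k q => d.V k q + (Ψ2 *ᵥ d.y q) k
  A := Matrix.of fun p q => d.A p q + d.y p ⬝ᵥ Ψ3 *ᵥ d.y q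
  U := Matrix.of fun p q => d.U p q + d.y p ⬝ᵥ Ψ3 *ᵥ d.y q
  As := Matrix.of fun p q => d.As p q + d.y p ⬝ᵥ Ψ3 *ᵥ d.y q

lemma nd_augIn {d : Datum F K P} {P0 : Set P} (h : d.AugIn P0) (D Ψ2 Ψ3 : Matrix K K F)
    (hr : (nd d D Ψ2 Ψ3).Red) (hs : ∀ p q, d.y p ⬝ᵥ Ψ3 *ᵥ d.y q = -(d.y q ⬝ᵥ Ψ3 *ᵥ d.y p)) :
    (nd d D Ψ2 Ψ3).AugIn P0 := by
  classical
  obtain ⟨hRef, -, hSC, hDev⟩ := h
  have hy : ∀ q, (nd d D Ψ2 Ψ3).y q = (1 + Ψ2) *ᵥ d.y q := fun q => by
    rw [add_mulVec, one_mulVec]; rfl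
  have hu : IsUnit (1 + Ψ2) := by
    rw [← Matrix.vecMul_injective_iff_isUnit]
    intro x x' e
    rw [← sub_eq_zero]
    refine hr _ fun q => ?_
    have e' : x ᵥ* (1 + Ψ2) = x' ᵥ* (1 + Ψ2) := e
    rw [hy, dotProduct_mulVec, sub_vecMul, e', sub_self, zero_dotProduct]
  have hx : ∀ x : K → F, ∃ x' : K → F, ∀ q, x ⬝ᵥ d.y q = x' ⬝ᵥ (nd d D Ψ2 Ψ3).y q := by
    intro x
    obtain ⟨x', e⟩ := Matrix.vecMul_surjective_iff_isUnit.2 hu x
    have e' : x' ᵥ* (1 + Ψ2) = x := e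
    exact ⟨x', fun q => by rw [hy, dotProduct_mulVec, e']⟩
  refine ⟨⟨fun p => ?_, fun p => ?_⟩, hr, ?_, ?_⟩
  · obtain ⟨x, e⟩ := hRef.1 p
    obtain ⟨x', e'⟩ := hx (x + d.y p ᵥ* Ψ3)
    refine ⟨x', fun q => ?_⟩
    rw [← e', add_dotProduct, ← e, ← dotProduct_mulVec]; rfl
  · obtain ⟨x, e⟩ := hRef.2 p
    obtain ⟨x', e'⟩ := hx (x + Ψ3 *ᵥ d.y p)
    refine ⟨x', fun q => ?_⟩
    rw [← e', add_dotProduct, ← e, dotProduct_comm]; rfl
  · have : (nd d D Ψ2 Ψ3).B = d.B := by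
      ext p q
      simp only [Datum.B, nd, Matrix.add_apply, Matrix.transpose_apply, Matrix.of_apply]
      rw [hs p q]; ring
    rwa [this]
  · rintro ⟨c, h1, h2⟩
    have hc : ∀ p ∈ P0, (c p : F) • d.y p = d.y p := by
      intro p hp
      apply Matrix.mulVec_injective_iff_isUnit.2 hu
      show (1 + Ψ2) *ᵥ _ = (1 + Ψ2) *ᵥ _
      rw [mulVec_smul, ← hy]
      exact funext fun k => h1 p hp k
    refine hDev ⟨c, fun p hp k => congrFun (hc p hp) k, fun p hp q hq => ?_⟩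
    have e := h2 p hp q hq
    simp only [nd, Matrix.of_apply] at e
    have b : d.y p ⬝ᵥ Ψ3 *ᵥ d.y q = (c p : F) * (c q : F) * (d.y p ⬝ᵥ Ψ3 *ᵥ d.y q) := by
      conv_lhs => rw [← hc p hp, ← hc q hq, smul_dotProduct, mulVec_smul, dotProduct_smul,
        smul_eq_mul, smul_eq_mul]
      ring
    linear_combination e - b

lemma enum [Finite E] {W : Set E} {M : ℕ} (h : W.ncard ≤ M) (h0 : W.Nonempty) :
    ∃ f : Fin M → E, W ⊆ Set.range f := by
  classical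
  have := Fintype.ofFinite W
  have : Nonempty W := h0.to_subtype
  obtain ⟨e⟩ : Nonempty (W ↪ Fin M) := Function.Embedding.nonempty_of_card_le (by
    rw [Fintype.card_fin, ← Nat.card_eq_fintype_card]; exact h)
  exact ⟨fun a => (Function.invFun e a : W), fun w hw =>
    ⟨e ⟨w, hw⟩, by simp only [Function.leftInverse_invFun e.injective ⟨w, hw⟩]⟩⟩

lemma card_le [Finite E] [Fintype P] (Q : Set E) (f : P → E) (v : ℕ → E) (len : ℕ) :
    (Q ∪ Sum.elim f v '' vl P len).ncard ≤ Q.ncard + Fintype.card P + len := by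
  have hsub : Q ∪ Sum.elim f v '' vl P len ⊆
      (Q ∪ Set.range f) ∪ Set.range fun t : Fin len => v t := by
    rintro u (hu | ⟨q | t, hx, rfl⟩)
    · exact Or.inl (Or.inl hu)
    · exact Or.inl (Or.inr ⟨q, rfl⟩)
    · exact Or.inr ⟨⟨t, hx t rfl⟩, rfl⟩
  have a : (Set.range f).ncard ≤ Fintype.card P := by
    rw [← Set.image_univ]
    exact (Set.ncard_image_le (Set.toFinite _)).trans (by simp)
  have b : (Set.range fun t : Fin len => v t).ncard ≤ len := by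
    rw [← Set.image_univ]
    exact (Set.ncard_image_le (Set.toFinite _)).trans (by simp)
  have c := Set.ncard_le_ncard hsub (Set.toFinite _)
  have d := Set.ncard_union_le (Q ∪ Set.range f) (Set.range fun t : Fin len => v t)
  have e := Set.ncard_union_le Q (Set.range f)
  omega

variable [Fintype E] {m N : ℕ} {d : Datum F K P} {col col' : E → Bool} {S T : ι → Matrix E E F}
  {kk : K → E} {pp : Fin N → P → E} {cl : Fin (N + 1) → ι} {Q : Set E} {X X1 : ι → E → K → F}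

/-- The class of representations that look alike on the enlarged set. -/
lemma finish (hs : Stage m d col S kk pp cl Q X) {P0 : Set P} (hA : d.AugIn P0) {n n3 : ℕ}
    {j : Fin N} {g : Fin n3 → Fin N} (hg : StrictMono g) (hj : ∀ t, g t ≠ j) {v : ℕ → E} {len : ℕ}
    (hp : Post m P0 col col' S T kk X X1 Q (petals fun t => pp (g t)) (pp j) v len
      (cl j.castSucc) (cl (Fin.last N))) {h : Fin (n + 1) → Fin n3} (hh : StrictMono h)
    {Ψ2 Ψ3 : Matrix K K F}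
    (h2 : ∀ t r, ∀ w ∈ petals fun t => pp (g t), T (cl (g (h t)).castSucc) (kk r) w =
      S (cl (g (h t)).castSucc) (kk r) w + (Ψ2 *ᵥ yv (S (cl (g (h t)).castSucc)) kk w) r)
    (h3 : ∀ t, ∀ u ∈ petals fun t => pp (g t), ∀ w ∈ petals fun t => pp (g t),
      T (cl (g (h t)).castSucc) u w = S (cl (g (h t)).castSucc) u w +
        yv (S (cl (g (h t)).castSucc)) kk u ⬝ᵥ Ψ3 *ᵥ yv (S (cl (g (h t)).castSucc)) kk w)
    (ha : ∀ t t', AgreeOn (Q ∪ Sum.elim (pp j) v '' vl P len) (T (cl (g (h t)).castSucc))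
      (T (cl (g (h t')).castSucc)) ∧ ∀ u ∈ Q ∪ Sum.elim (pp j) v '' vl P len,
        X1 (cl (g (h t')).castSucc) u = X1 (cl (g (h t)).castSucc) u) :
    ∃ (d' : Datum F K P) (dv : Fin (N + 1)), d'.AugIn P0 ∧
      Stage m d' col' T kk (fun t : Fin n => pp (g (h t.castSucc)))
        (fun t => cl (g (h t)).castSucc) (Q ∪ Sum.elim (pp j) v '' vl P len) X1 ∧
      ∀ t, ¬DEq (T (cl dv)) (T (cl (g (h t)).castSucc)) kk (X1 (cl dv))
        (X1 (cl (g (h t)).castSucc)) ((fun q => pp j q) '' P0) := by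
  classical
  set Y := petals fun t => pp (g t) with hY
  set W := Q ∪ Sum.elim (pp j) v '' vl P len with hW
  have hkW : ∀ r, kk r ∈ W := fun r => Or.inl (hs.kQ r)
  have hjW : ∀ q, pp j q ∈ W := fun q => Or.inr ⟨inl q, fun i e => (by cases e), rfl⟩
  have hm : ∀ t q, pp (g t) q ∈ Y := fun t q => ⟨t, q, rfl⟩
  let D : Matrix K K F := Matrix.of fun k k' => T (cl (g (h 0)).castSucc) (kk k) (kk k')
  have hV : ∀ t k s q, T (cl (g (h t)).castSucc) (kk k) (pp (g s) q) = (nd d D Ψ2 Ψ3).V k q := by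
    intro t k s q
    rw [h2 t k _ (hm s q), hs.chain.yv_pp (g (h t)).castSucc, hs.chain.kk_pp (g (h t)).castSucc]
    rfl
  have hU : ∀ t s s' p q, T (cl (g (h t)).castSucc) (pp (g s) p) (pp (g s') q) =
      S (cl (g (h t)).castSucc) (pp (g s) p) (pp (g s') q) + d.y p ⬝ᵥ Ψ3 *ᵥ d.y q := by
    intro t s s' p q
    rw [h3 t _ (hm s p) _ (hm s' q), hs.chain.yv_pp (g (h t)).castSucc,
      hs.chain.yv_pp (g (h t)).castSucc]
  have hred : (nd d D Ψ2 Ψ3).Red := by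
    intro x hx
    refine hp.full (cl (g (h 0)).castSucc) _ (range_sub (fun t => pp (g t)) (h 0))
      (full hs hA.2.1 _ _) x ?_
    rintro _ ⟨q, rfl⟩
    have : yv (T (cl (g (h 0)).castSucc)) kk (pp (g (h 0)) q) = (nd d D Ψ2 Ψ3).y q :=
      funext fun k => hV 0 k (h 0) q
    rw [this]; exact hx q
  have hsk : ∀ p q, d.y p ⬝ᵥ Ψ3 *ᵥ d.y q = -(d.y q ⬝ᵥ Ψ3 *ᵥ d.y p) := by
    intro p q
    have a := hU 0 (h 0) (h 0) p q
    have b := hU 0 (h 0) (h 0) q p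
    have c := hp.fam.skew (cl (g (h 0)).castSucc) (pp (g (h 0)) p) (pp (g (h 0)) q)
    have e := hs.fam.skew (cl (g (h 0)).castSucc) (pp (g (h 0)) p) (pp (g (h 0)) q)
    linear_combination c - e - a - b
  have hmono : StrictMono fun t : Fin n => g (h t.castSucc) :=
    hg.comp (hh.comp Fin.strictMono_castSucc)
  have hsub : IsChain d col (fun t => S (cl (g (h t)).castSucc)) kk
      fun t : Fin n => pp (g (h t.castSucc)) :=
    hs.chain.sub' (g' := fun t => (g (h t)).castSucc) hmono (fun _ => rfl)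
      fun t => hg (hh (Fin.castSucc_lt_last t))
  have hst : Stage m (nd d D Ψ2 Ψ3) col' T kk (fun t : Fin n => pp (g (h t.castSucc)))
      (fun t => cl (g (h t)).castSucc) W X1 := by
    refine ⟨hp.fam, hp.conn, ?_, hkW, ?_, fun i u hu => (hp.al i u hu).mono ?_, ha⟩
    · refine IsChain.of_entries hsub.inj (fun k => (hp.colQ _ (hs.kQ k)).trans (hs.chain.colK k))
        (fun t p => (hp.colY _ (hm _ p)).trans (hs.chain.colP _ p)) (fun t => hp.fam.skew _)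
        (fun t k k' => (ha 0 t).1 _ (hkW k) _ (hkW k')) (fun t k s q => hV t k _ q) ?_ ?_ ?_
      · intro t s s' hlt p q
        rw [hU, hsub.pp_lt t hlt p q]; rfl
      · intro t s hlt p q
        rw [hU, hsub.pp_left hlt p q]; rfl
      · intro s p q
        rw [hU, hsub.pp_own s p q]; rfl
    · rintro t p (hu | ⟨q | s, hx, e⟩)
      · exact hs.disj _ p hu
      · exact hj _ (hs.chain.pp_inj e).1.symm
      · exact hp.notY s (hx s rfl) (by
          have e' : v s = pp (g (h t.castSucc)) p := e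
          rw [e']; exact hm _ p)
    · rintro _ ⟨t, p, rfl⟩; exact hm _ p
  have hcls : ∀ t t', DEq (T (cl (g (h t)).castSucc)) (T (cl (g (h t')).castSucc)) kk
      (X1 (cl (g (h t)).castSucc)) (X1 (cl (g (h t')).castSucc)) ((fun q => pp j q) '' P0) := by
    intro t t'
    obtain ⟨a, b⟩ := ha t t'
    refine DEq.of_eq ?_ ?_ ?_
    · rintro _ ⟨p, -, rfl⟩; exact b _ (hjW p)
    · rintro _ ⟨p, -, rfl⟩ r
      exact nat_congr' (b _ (hjW p)) (a _ (hjW p) _ (hkW r)) fun r' => a _ (hkW r') _ (hkW r)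
    · rintro _ ⟨p, -, rfl⟩ _ ⟨q, -, rfl⟩
      exact nat_congr' (b _ (hjW p)) (a _ (hjW p) _ (hjW q)) fun r' => a _ (hkW r') _ (hjW q)
  by_cases hc : DEq (T (cl (Fin.last N))) (T (cl (g (h 0)).castSucc)) kk (X1 (cl (Fin.last N)))
      (X1 (cl (g (h 0)).castSucc)) ((fun q => pp j q) '' P0)
  · exact ⟨_, j.castSucc, nd_augIn hA D Ψ2 Ψ3 hred hsk, hst, fun t e =>
      hp.dev ((hc.trans (hcls 0 t)).trans e.symm)⟩
  · exact ⟨_, Fin.last N, nd_augIn hA D Ψ2 Ψ3 hred hsk, hst, fun t e => hc (e.trans (hcls t 0))⟩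

end STEP

open STEP in
theorem step {F : Type} [Field F] [Fintype F] (h : SHRINK F) (m : ℕ) : STEP F m := by
  classical
  intro K P _ _ hK
  obtain ⟨p0, hsh⟩ := h K
  refine ⟨p0, fun κ n n0 => ?_⟩
  obtain ⟨N3, hN3⟩ := pigeon (Nat.card (Matrix K K F × Matrix K K F ×
    (Fin (κ + Fintype.card P + p0) → Fin (κ + Fintype.card P + p0) → F) ×
    (Fin (κ + Fintype.card P + p0) → K → F))) (n + 1)
  obtain ⟨N2, hN2⟩ := pigeon_or (N3 + 1) (N3 + 1)
  obtain ⟨N1, hN1⟩ := pigeon (Nat.card (K → F)) (N2 + 1)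
  obtain ⟨N0, hN0⟩ := pigeon_or n0 N1
  refine ⟨N0 + Fintype.card K + 1, ?_⟩
  intro E ι _ d P0 col S kk pp cl Q X hs hA hQ hκ
  obtain ⟨q0, -⟩ : P0.Nonempty := by
    by_contra h0
    rw [Set.not_nonempty_iff_eq_empty] at h0
    exact hA.2.2.2 ⟨1, by simp [h0], by simp [h0]⟩
  obtain ⟨X0, v, p, u0, hp, hX0, hps, hu0, hit, hns⟩ :=
    exists_path hs hA.2.1 hK hQ (by omega) q0
  let em : Fin N0 ↪o Fin (N0 + Fintype.card K + 1) := Fin.castLEOrderEmb (by omega)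
  rcases hN0 fun t => ¬InSpan (S (cl (Fin.last _))) kk (Set.range (pp (em t))) (v (p - 1)) with
    ⟨g, hg⟩ | ⟨g1, hg1⟩
  · exact Or.inl (hub hs hA (g.trans em) (hps.notQ _ (by omega)) (hps.notO _ (by omega)) hg)
  right
  choose x hx using fun t => not_not.1 (hg1 t)
  obtain ⟨g2, hg2⟩ := hN1 (K → F) le_rfl x
  let G : Fin (N2 + 1) ↪o Fin (N0 + Fintype.card K + 1) := (g2.trans g1).trans em
  have hG : ∀ t, Al (S (cl (Fin.last _))) kk (Set.range (pp (G t))) (v (p - 1)) (x (g2 0)) :=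
    fun t => hg2 t 0 ▸ hx (g2 t)
  obtain ⟨j, hj⟩ : ∃ j, ¬Al (S (cl (Fin.last _))) kk (Set.range (pp j)) (v (p - 1)) (x (g2 0)) := by
    by_contra hc
    push Not at hc
    refine hns ⟨x (g2 0), ?_⟩
    rintro _ ⟨j, q, rfl⟩
    exact hc j _ ⟨q, rfl⟩
  have hGj : ∀ t, G t ≠ j := fun t e => hj (e ▸ hG t)
  obtain ⟨g3, side⟩ : ∃ g3 : Fin (N3 + 1) ↪o Fin N2,
      (∀ t, j < G (g3 t).castSucc) ∨ ∀ t, G (g3 t).castSucc < j := by
    rcases hN2 fun t => j < G t.castSucc with ⟨g3, e⟩ | ⟨g3, e⟩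
    · exact ⟨g3, Or.inl e⟩
    · exact ⟨g3, Or.inr fun t => lt_of_le_of_ne (not_lt.1 (e t)) (hGj _)⟩
  let g : Fin (N3 + 1) → Fin (N0 + Fintype.card K + 1) := fun t => G (g3 t).castSucc
  have hg : StrictMono g := G.strictMono.comp (Fin.strictMono_castSucc.comp g3.strictMono)
  obtain ⟨col', T, X1, v', len, hlen, hpost⟩ := post (g := g) (p0 := p0) hs hA side hp hX0 hps hu0 hit
    (xs := x (g2 0)) (by rintro _ ⟨t, q, rfl⟩; exact hG _ _ ⟨q, rfl⟩) hj
    fun X' Ω hd hP => hsh E ι col S _ _ kk X' Q Ω v p hs.fam hd hs.kQ hp hP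
  choose Ψ2 Ψ3 hΨ2 hΨ3 using hpost.psi
  obtain ⟨f, hf⟩ := enum (W := Q ∪ Sum.elim (pp j) v' '' vl P len)
    (M := κ + Fintype.card P + p0) ((card_le Q (pp j) v' len).trans (by omega)) ⟨u0, Or.inl hu0⟩
  obtain ⟨h0, hh0⟩ := hN3 _ le_rfl fun t => (Ψ2 (cl (g t.castSucc).castSucc),
    Ψ3 (cl (g t.castSucc).castSucc), fun a b => T (cl (g t.castSucc).castSucc) (f a) (f b),
    fun a => X1 (cl (g t.castSucc).castSucc) (f a))
  simp only [Prod.mk.injEq] at hh0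
  obtain ⟨d', dv, a, b, c⟩ := finish hs hA hg (fun t => hGj _) hpost
    (h := fun t => (h0 t).castSucc) (Fin.strictMono_castSucc.comp h0.strictMono)
    (Ψ2 := Ψ2 (cl (g (h0 0).castSucc).castSucc)) (Ψ3 := Ψ3 (cl (g (h0 0).castSucc).castSucc))
    (fun t => by rw [(hh0 0 t).1]; exact hΨ2 _) (fun t => by rw [(hh0 0 t).2.1]; exact hΨ3 _)
    fun t t' => ⟨fun u hu w hw => by
      obtain ⟨a, rfl⟩ := hf hu
      obtain ⟨b, rfl⟩ := hf hw
      exact congrFun (congrFun (hh0 t' t).2.2.1 a) b, fun u hu => by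
      obtain ⟨a, rfl⟩ := hf hu
      exact congrFun (hh0 t' t).2.2.2 a⟩
  exact ⟨d', col', T, fun t => g (h0 t.castSucc).castSucc, fun t => (g (h0 t).castSucc).castSucc,
    X1, Sum.elim (pp j) v', len, dv, a, hlen, b, hpost.piece, hpost.keep, c⟩

end Pool.Agent.MP_d99b12_co.H25
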