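import Pool.Agent.MP_d99b12_co.H25.Spec
import Pool.Agent.MP_d99b12_co.H25.Comb

/-! # The state machine of a homogeneous chain (step SYS) -/

namespace Pool.Agent.MP_d99b12_co.H25

open Matrix Sum

namespace Sys56

variable {F : Type} [Field F] {K P : Type}

/-! ## Relations form a monoid -/

lemma act_ext {f g : Act F K} (h1 : ∀ x, x ∈ f.rel ↔ x ∈ g.rel) (h2 : f.hid ↔ g.hid) : f = g := by
  obtain ⟨r1, p1⟩ := f
  obtain ⟨r2, p2⟩ := g
  have e1 : r1 = r2 := Submodule.ext h1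
  have e2 : p1 = p2 := propext h2
  subst e1 e2
  rfl

lemma mem_comp {f g : Act F K} {ω r r2 : K → F} :
    (ω, r, r2) ∈ (f.comp g).rel ↔ ∃ r', (ω, r, r') ∈ g.rel ∧ (ω, r', r2) ∈ f.rel := Iff.rfl

lemma hid_comp {f g : Act F K} : (f.comp g).hid ↔
    f.hid ∨ g.hid ∨ ∃ r', r' ≠ 0 ∧ ((0 : K → F), (0 : K → F), r') ∈ g.rel ∧
      ((0 : K → F), r', (0 : K → F)) ∈ f.rel := Iff.rfl

lemma mem_add {W : Submodule F (K → F)} {ω r r2 : K → F} :
    (ω, r, r2) ∈ (Act.add W).rel ↔ r2 - r ∈ W := Iff.rfl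

lemma mem_one {ω r r2 : K → F} : (ω, r, r2) ∈ (Act.one : Act F K).rel ↔ r2 = r := by
  rw [Act.one, mem_add, Submodule.mem_bot, sub_eq_zero]

lemma not_hid_one : ¬(Act.one : Act F K).hid := fun h => h

lemma one_comp (f : Act F K) : Act.one.comp f = f := by
  refine act_ext ?_ ?_
  · rintro ⟨ω, r, r2⟩
    rw [mem_comp]
    constructor
    · rintro ⟨r', h1, h2⟩
      rw [mem_one.1 h2]
      exact h1
    · exact fun h => ⟨r2, h, mem_one.2 rfl⟩
  · rw [hid_comp]
    constructor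
    · rintro (h | h | ⟨r', h0, -, h2⟩)
      · exact (not_hid_one h).elim
      · exact h
      · exact (h0 (mem_one.1 h2).symm).elim
    · exact fun h => Or.inr (Or.inl h)

lemma comp_one (f : Act F K) : f.comp Act.one = f := by
  refine act_ext ?_ ?_
  · rintro ⟨ω, r, r2⟩
    rw [mem_comp]
    constructor
    · rintro ⟨r', h1, h2⟩
      rw [← mem_one.1 h1]
      exact h2
    · exact fun h => ⟨r, mem_one.2 rfl, h⟩
  · rw [hid_comp]
    constructor
    · rintro (h | h | ⟨r', h0, h1, -⟩)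
      · exact h
      · exact (not_hid_one h).elim
      · exact (h0 (mem_one.1 h1)).elim
    · exact fun h => Or.inl h

lemma comp_assoc (f g h : Act F K) : (f.comp g).comp h = f.comp (g.comp h) := by
  refine act_ext ?_ ?_
  · rintro ⟨ω, r, r2⟩
    simp only [mem_comp]
    constructor
    · rintro ⟨a, h1, b, h2, h3⟩
      exact ⟨b, ⟨a, h1, h2⟩, h3⟩
    · rintro ⟨b, ⟨a, h1, h2⟩, h3⟩
      exact ⟨a, h1, b, h2, h3⟩
  · simp only [hid_comp, mem_comp]
    constructor
    · rintro ((h1 | h1 | ⟨b, hb, h1, h2⟩) | h1 | ⟨a, ha, h1, b, h2, h3⟩)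
      · exact Or.inl h1
      · exact Or.inr (Or.inl (Or.inl h1))
      · exact Or.inr (Or.inr ⟨b, hb, ⟨0, h.rel.zero_mem, h1⟩, h2⟩)
      · exact Or.inr (Or.inl (Or.inr (Or.inl h1)))
      · by_cases hb : b = 0
        · subst hb
          exact Or.inr (Or.inl (Or.inr (Or.inr ⟨a, ha, h1, h2⟩)))
        · exact Or.inr (Or.inr ⟨b, hb, ⟨a, h1, h2⟩, h3⟩)
    · rintro (h1 | (h1 | h1 | ⟨a, ha, h1, h2⟩) | ⟨b, hb, ⟨a, h1, h2⟩, h3⟩)
      · exact Or.inl (Or.inl h1)
      · exact Or.inl (Or.inr (Or.inl h1))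
      · exact Or.inr (Or.inl h1)
      · exact Or.inr (Or.inr ⟨a, ha, h1, 0, h2, f.rel.zero_mem⟩)
      · by_cases ha : a = 0
        · subst ha
          exact Or.inl (Or.inr (Or.inr ⟨b, hb, h2, h3⟩))
        · exact Or.inr (Or.inr ⟨a, ha, h1, b, h2, h3⟩)

/-- The product of a word; the first factor acts last. -/
def prod (l : List (Act F K)) : Act F K := l.foldr Act.comp Act.one

lemma prod_nil : prod ([] : List (Act F K)) = Act.one := rfl

lemma prod_cons (a : Act F K) (l : List (Act F K)) : prod (a :: l) = a.comp (prod l) := rfl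

lemma prod_append (l l' : List (Act F K)) : prod (l ++ l') = (prod l).comp (prod l') := by
  induction l with
  | nil => rw [List.nil_append, prod_nil, one_comp]
  | cons a l ih => rw [List.cons_append, prod_cons, prod_cons, ih, comp_assoc]

variable [Fintype K]

lemma shift_zero : (Act.shift 0 : Act F K) = Act.one := by
  refine act_ext ?_ Iff.rfl
  rintro ⟨ω, r, r2⟩
  rw [mem_one]
  change r2 = r + (0 : Matrix K K F) *ᵥ (ω + (0 : Matrix K K F) *ᵥ r) ↔ _
  simp

variable [Fintype P]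

/-- The output of a petal. -/
def out (y : P → K → F) (u : P → F) : K → F := ∑ q, u q • y q

omit [Fintype K] in
lemma out_zero (y : P → K → F) : out y (0 : P → F) = 0 := by simp [out]

/-- The equations of one petal. -/
def LSol (δ : Matrix K K F) (y : P → K → F) (B : Matrix P P F) (X Y : Set P) (ω r : K → F)
    (u : P → F) : Prop :=
  (∀ q, q ∉ Y → u q = 0) ∧ ∀ p ∈ X, (B *ᵥ u) p + y p ⬝ᵥ (ω + δ *ᵥ r) = 0

lemma mem_letter {δ : Matrix K K F} {y : P → K → F} {B : Matrix P P F} {X Y : Set P}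
    {ω r r2 : K → F} : (ω, r, r2) ∈ (Act.letter δ y B X Y).rel ↔
      ∃ u, LSol δ y B X Y ω r u ∧ r2 = r + out y u :=
  ⟨fun ⟨u, h1, h2, h3⟩ => ⟨u, ⟨h1, h2⟩, h3⟩, fun ⟨u, h, h3⟩ => ⟨u, h.1, h.2, h3⟩⟩

lemma hid_letter {δ : Matrix K K F} {y : P → K → F} {B : Matrix P P F} {X Y : Set P} :
    (Act.letter δ y B X Y).hid ↔ ∃ u, u ≠ 0 ∧ LSol δ y B X Y 0 0 u ∧ out y u = 0 := by
  constructor
  · rintro ⟨u, h0, h1, h2, h3⟩
    exact ⟨u, h0, ⟨h1, fun p hp => by simpa using h2 p hp⟩, h3⟩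
  · rintro ⟨u, h0, ⟨h1, h2⟩, h3⟩
    exact ⟨u, h0, h1, fun p hp => by simpa using h2 p hp, h3⟩

lemma lsol_zero (δ : Matrix K K F) (y : P → K → F) (B : Matrix P P F) (X Y : Set P) :
    LSol δ y B X Y 0 0 0 := ⟨fun _ _ => rfl, fun p _ => by simp⟩

lemma letter_empty (δ : Matrix K K F) (y : P → K → F) (B : Matrix P P F) :
    Act.letter δ y B ∅ ∅ = Act.one := by
  refine act_ext ?_ ?_
  · rintro ⟨ω, r, r2⟩
    rw [mem_letter, mem_one]
    constructor
    · rintro ⟨u, ⟨h1, -⟩, h3⟩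
      have : u = 0 := funext fun q => h1 q (Set.notMem_empty q)
      rw [h3, this, out_zero, add_zero]
    · intro h
      exact ⟨0, ⟨fun _ _ => rfl, fun p hp => hp.elim⟩, by rw [h, out_zero, add_zero]⟩
  · rw [hid_letter]
    constructor
    · rintro ⟨u, h0, ⟨h1, -⟩, -⟩
      exact (h0 (funext fun q => h1 q (Set.notMem_empty q))).elim
    · exact fun h => (not_hid_one h).elim

omit [Fintype P] in
lemma span_top (y : P → K → F) (h : ∀ x : K → F, (∀ q, x ⬝ᵥ y q = 0) → x = 0) :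
    Submodule.span F (Set.range y) = ⊤ := by
  classical
  by_contra hne
  obtain ⟨f, hf0, hf⟩ := Submodule.exists_le_ker_of_lt_top _ (lt_top_iff_ne_top.2 hne)
  have hx : (fun k => f (Pi.single k 1)) = 0 := by
    refine h _ fun q => ?_
    have h1 : f (y q) = 0 := hf (Submodule.subset_span ⟨q, rfl⟩)
    rw [LinearMap.pi_apply_eq_sum_univ f (y q)] at h1
    rw [← h1, dotProduct]
    refine Finset.sum_congr rfl fun k _ => ?_
    rw [smul_eq_mul, mul_comm]
    congr 2
    funext j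
    simp [Pi.single_apply, eq_comm]
  refine hf0 (LinearMap.ext fun v => ?_)
  rw [LinearMap.pi_apply_eq_sum_univ f v, LinearMap.zero_apply]
  refine Finset.sum_eq_zero fun k _ => ?_
  have h2 : f (Pi.single k 1) = 0 := congrFun hx k
  have h3 : (fun j => if k = j then (1 : F) else 0) = Pi.single k 1 := by
    funext j
    simp [Pi.single_apply, eq_comm]
  rw [h3, h2, smul_zero]

lemma exists_out (y : P → K → F) (h : ∀ x : K → F, (∀ q, x ⬝ᵥ y q = 0) → x = 0) (v : K → F) :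
    ∃ u, out y u = v := by
  have : v ∈ Submodule.span F (Set.range y) := by rw [span_top y h]; trivial
  exact (Submodule.mem_span_range_iff_exists_fun F).1 this

/-- A letter without equations on a basis adds an arbitrary vector. -/
lemma letter_all (δ : Matrix K K F) (y : P → K → F) (B : Matrix P P F)
    (h : ∀ x : K → F, (∀ q, x ⬝ᵥ y q = 0) → x = 0) :
    ∃ Y, Act.letter δ y B ∅ Y = Act.add ⊤ := by
  classical
  obtain ⟨b, -, -, hsp, hli⟩ := exists_linearIndepOn_extension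
    (linearIndepOn_empty F y) (Set.empty_subset (Set.univ : Set P))
  have htop : Submodule.span F (y '' b) = ⊤ := by
    rw [eq_top_iff, ← span_top y h, Submodule.span_le, ← Set.image_univ]
    exact hsp
  refine ⟨b, act_ext ?_ ?_⟩
  · rintro ⟨ω, r, r2⟩
    rw [mem_letter, mem_add]
    refine ⟨fun _ => trivial, fun _ => ?_⟩
    have h1 : r2 - r ∈ Submodule.span F (y '' (b.toFinset : Set P)) := by
      rw [Set.coe_toFinset, htop]; trivial
    obtain ⟨c, hc⟩ := (Submodule.mem_span_image_finset_iff_exists_fun' F).1 h1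
    refine ⟨fun q => if q ∈ b then c q else 0, ⟨fun q hq => if_neg hq, fun p hp => hp.elim⟩, ?_⟩
    have h2 : out y (fun q => if q ∈ b then c q else 0) = r2 - r := by
      rw [← hc, out, ← Finset.sum_subset (Finset.subset_univ b.toFinset)]
      · exact Finset.sum_congr rfl fun q hq => by rw [if_pos (Set.mem_toFinset.1 hq)]
      · intro q _ hq
        rw [if_neg fun hb => hq (Set.mem_toFinset.2 hb), zero_smul]
    rw [h2]; abel
  · rw [hid_letter]
    refine ⟨?_, fun h => h.elim⟩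
    rintro ⟨u, h0, ⟨h1, -⟩, h3⟩
    refine h0 (funext fun q => ?_)
    by_cases hq : q ∈ b
    · refine linearIndepOn_iff'.1 hli b.toFinset u (by simp) ?_ q (Set.mem_toFinset.2 hq)
      rw [← h3, out]
      refine Finset.sum_subset (Finset.subset_univ _) fun q _ hq => ?_
      rw [h1 q fun hb => hq (Set.mem_toFinset.2 hb), zero_smul]
    · exact h1 q hq

/-! ## Words of letters -/

/-- The word of `n` petals. -/
def word (δ : Matrix K K F) (y : P → K → F) {n : ℕ} (B : Fin n → Matrix P P F)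
    (Z : Fin n → Set P × Set P) : Act F K :=
  prod (List.ofFn fun j => Act.letter δ y (B j) (Z j).1 (Z j).2)

/-- The sum of the outputs to the right of petal `j`. -/
def rgt (y : P → K → F) {n : ℕ} (u : Fin n → P → F) (j : Fin n) : K → F :=
  ∑ j', if j < j' then out y (u j') else 0

/-- The equations of all petals. -/
def Sol (δ : Matrix K K F) (y : P → K → F) {n : ℕ} (B : Fin n → Matrix P P F)
    (Z : Fin n → Set P × Set P) (ω r : K → F) (u : Fin n → P → F) : Prop :=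
  ∀ j, LSol δ y (B j) (Z j).1 (Z j).2 ω (r + rgt y u j) (u j)

variable {δ : Matrix K K F} {y : P → K → F}

lemma word_zero (B : Fin 0 → Matrix P P F) (Z : Fin 0 → Set P × Set P) :
    word δ y B Z = Act.one := by
  rw [word, List.ofFn_zero, prod_nil]

lemma word_succ {n : ℕ} (B : Fin (n + 1) → Matrix P P F) (Z : Fin (n + 1) → Set P × Set P) :
    word δ y B Z = (Act.letter δ y (B 0) (Z 0).1 (Z 0).2).comp
      (word δ y (fun j => B j.succ) fun j => Z j.succ) := by
  rw [word, List.ofFn_succ, prod_cons, word]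

omit [Fintype K] in
lemma rgt_zero {n : ℕ} (u : Fin (n + 1) → P → F) : rgt y u 0 = ∑ j : Fin n, out y (u j.succ) := by
  simp [rgt, Fin.sum_univ_succ]

omit [Fintype K] in
lemma rgt_succ {n : ℕ} (u : Fin (n + 1) → P → F) (j : Fin n) :
    rgt y u j.succ = rgt y (fun j => u j.succ) j := by
  simp [rgt, Fin.sum_univ_succ]

lemma sol_succ {n : ℕ} {B : Fin (n + 1) → Matrix P P F} {Z : Fin (n + 1) → Set P × Set P}
    {ω r : K → F} {u : Fin (n + 1) → P → F} : Sol δ y B Z ω r u ↔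
      LSol δ y (B 0) (Z 0).1 (Z 0).2 ω (r + ∑ j : Fin n, out y (u j.succ)) (u 0) ∧
        Sol δ y (fun j => B j.succ) (fun j => Z j.succ) ω r fun j => u j.succ := by
  simp only [Sol, Fin.forall_fin_succ, rgt_zero, rgt_succ]

lemma mem_word {n : ℕ} (B : Fin n → Matrix P P F) (Z : Fin n → Set P × Set P) (ω r r2 : K → F) :
    (ω, r, r2) ∈ (word δ y B Z).rel ↔ ∃ u, Sol δ y B Z ω r u ∧ r2 = r + ∑ j, out y (u j) := by
  induction n generalizing r2 with
  | zero =>
    rw [word_zero, mem_one]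
    exact ⟨fun h => ⟨Fin.elim0, fun j => j.elim0, by simp [h]⟩, fun ⟨u, _, h⟩ => by simpa using h⟩
  | succ n ih =>
    rw [word_succ, mem_comp]
    constructor
    · rintro ⟨r', h1, h2⟩
      obtain ⟨u, hu, rfl⟩ := (ih _ _ _).1 h1
      obtain ⟨v, hv, rfl⟩ := mem_letter.1 h2
      refine ⟨Fin.cons v u, sol_succ.2 ⟨?_, ?_⟩, ?_⟩
      · simpa using hv
      · simpa using hu
      · simp only [Fin.sum_univ_succ, Fin.cons_zero, Fin.cons_succ]; abel
    · rintro ⟨u, hu, rfl⟩
      obtain ⟨h1, h2⟩ := sol_succ.1 hu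
      refine ⟨_, (ih _ _ _).2 ⟨_, h2, rfl⟩, mem_letter.2 ⟨u 0, h1, ?_⟩⟩
      rw [Fin.sum_univ_succ]; abel

lemma sol_zero {n : ℕ} (B : Fin n → Matrix P P F) (Z : Fin n → Set P × Set P) :
    Sol δ y B Z 0 0 0 := by
  intro j
  have : rgt y (0 : Fin n → P → F) j = 0 := by simp [rgt, out_zero]
  rw [this, add_zero]
  exact lsol_zero _ _ _ _ _

lemma hid_word {n : ℕ} (B : Fin n → Matrix P P F) (Z : Fin n → Set P × Set P) :
    (word δ y B Z).hid ↔ ∃ u, u ≠ 0 ∧ Sol δ y B Z 0 0 u ∧ ∑ j, out y (u j) = 0 := by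
  induction n with
  | zero =>
    rw [word_zero]
    exact ⟨fun h => (not_hid_one h).elim, fun ⟨u, h0, _⟩ => (h0 (Subsingleton.elim _ _)).elim⟩
  | succ n ih =>
    rw [word_succ, hid_comp, hid_letter, ih]
    constructor
    · rintro (⟨v, h0, hv, ho⟩ | ⟨u, h0, hu, ho⟩ | ⟨r', h0, h1, h2⟩)
      · refine ⟨Fin.cons v 0, fun h => h0 (by simpa using congrFun h 0), sol_succ.2 ⟨?_, ?_⟩, ?_⟩
        · simpa [out_zero] using hv
        · simp only [Fin.cons_succ]
          exact sol_zero _ _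
        · simp [Fin.sum_univ_succ, ho, out_zero]
      · refine ⟨Fin.cons 0 u, fun h => h0 (funext fun j => by simpa using congrFun h j.succ),
          sol_succ.2 ⟨?_, ?_⟩, ?_⟩
        · simpa [ho] using lsol_zero _ _ _ _ _
        · simpa using hu
        · simp [Fin.sum_univ_succ, ho, out_zero]
      · obtain ⟨u, hu, rfl⟩ := (mem_word _ _ _ _ _).1 h1
        obtain ⟨v, hv, ho⟩ := mem_letter.1 h2
        refine ⟨Fin.cons v u, fun h => h0 ?_, sol_succ.2 ⟨?_, ?_⟩, ?_⟩
        · have : u = 0 := funext fun j => by simpa using congrFun h j.succ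
          simp [this, out_zero]
        · simpa using hv
        · simpa using hu
        · simp only [Fin.sum_univ_succ, Fin.cons_zero, Fin.cons_succ]
          rw [zero_add] at ho
          rw [add_comm, ← ho]
    · rintro ⟨u, h0, hu, ho⟩
      obtain ⟨h1, h2⟩ := sol_succ.1 hu
      rw [Fin.sum_univ_succ] at ho
      by_cases hr : ∑ j : Fin n, out y (u j.succ) = 0
      · rw [hr, add_zero] at h1 ho
        by_cases hu0 : u 0 = 0
        · refine Or.inr (Or.inl ⟨_, fun h => h0 (funext fun j => ?_), h2, hr⟩)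
          refine Fin.cases hu0 (fun j => congrFun h j) j
        · exact Or.inl ⟨u 0, hu0, h1, ho⟩
      · refine Or.inr (Or.inr ⟨_, hr, (mem_word _ _ _ _ _).2 ⟨_, h2, (zero_add _).symm⟩,
          mem_letter.2 ⟨u 0, by simpa using h1, ?_⟩⟩)
        rw [add_comm, ho]

lemma word_append {n m : ℕ} (B : Fin n → Matrix P P F) (Z : Fin n → Set P × Set P)
    (B' : Fin m → Matrix P P F) (Z' : Fin m → Set P × Set P) :
    word δ y (Fin.append B B') (Fin.append Z Z') = (word δ y B Z).comp (word δ y B' Z') := by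
  rw [word, word, word, ← prod_append, ← List.ofFn_fin_append]
  congr 2
  funext j
  refine Fin.addCases (fun j => ?_) (fun j => ?_) j <;> simp

lemma word_cons {n : ℕ} (b : Matrix P P F) (z : Set P × Set P) (B : Fin n → Matrix P P F)
    (Z : Fin n → Set P × Set P) :
    word δ y (Fin.cons b B) (Fin.cons z Z) = (Act.letter δ y b z.1 z.2).comp (word δ y B Z) := by
  rw [word_succ]
  simp only [Fin.cons_zero, Fin.cons_succ]

lemma word_empty {n : ℕ} (B : Fin n → Matrix P P F) :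
    word δ y B (fun _ => (∅, ∅)) = Act.one := by
  induction n with
  | zero => exact word_zero _ _
  | succ n ih => rw [word_succ, ih, letter_empty, one_comp]

/-! ## The dependence of the big matrix -/

lemma dot_out (x : K → F) (M : Matrix K K F) (u : P → F) :
    x ⬝ᵥ M *ᵥ out y u = ∑ q, (x ⬝ᵥ M *ᵥ y q) * u q := by
  rw [out, mulVec_sum, dotProduct_sum]
  exact Finset.sum_congr rfl fun q _ => by rw [mulVec_smul, dotProduct_smul, smul_eq_mul, mul_comm]

section Big

variable {d : Datum F K P} {Ub : Matrix K K F} {n : ℕ}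

lemma big_inl (A' : Fin n → Matrix P P F) (u : K ⊕ Fin n × P → F) (k : K) :
    (d.big A' *ᵥ u) (inl k) =
      (d.D *ᵥ fun k => u (inl k)) k + (∑ j, out d.y fun q => u (inr (j, q))) k := by
  simp only [mulVec, dotProduct, Fintype.sum_sum_type, Fintype.sum_prod_type, Datum.big, of_apply,
    out, Finset.sum_apply, Pi.smul_apply, smul_eq_mul, Datum.y]
  congr 1
  exact Finset.sum_congr rfl fun j _ => Finset.sum_congr rfl fun q _ => mul_comm _ _

lemma big_inr (hU : ∀ p q, d.U p q = d.y p ⬝ᵥ Ub *ᵥ d.y q) (A' : Fin n → Matrix P P F)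
    (u : K ⊕ Fin n × P → F) (i : Fin n) (p : P) :
    (d.big A' *ᵥ u) (inr (i, p)) = ((A' i + d.Uᵀ) *ᵥ fun q => u (inr (i, q))) p +
      d.y p ⬝ᵥ ((-(fun k => u (inl k)) - Ubᵀ *ᵥ ∑ j, out d.y fun q => u (inr (j, q))) +
        (Ub + Ubᵀ) *ᵥ rgt d.y (fun j q => u (inr (j, q))) i) := by
  have ha : ∀ j, d.y p ⬝ᵥ Ub *ᵥ out d.y (fun q => u (inr (j, q))) =
      ∑ q, d.U p q * u (inr (j, q)) := fun j => by
    rw [dot_out]
    exact Finset.sum_congr rfl fun q _ => by rw [hU]
  have hb : ∀ j, d.y p ⬝ᵥ Ubᵀ *ᵥ out d.y (fun q => u (inr (j, q))) =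
      ∑ q, d.U q p * u (inr (j, q)) := fun j => by
    rw [dot_out]
    refine Finset.sum_congr rfl fun q _ => ?_
    rw [hU, mulVec_transpose, dotProduct_comm, ← dotProduct_mulVec]
  have h1 : (d.big A' *ᵥ u) (inr (i, p)) = -(d.y p ⬝ᵥ fun k => u (inl k)) +
      ∑ j, ∑ q, (if i = j then A' i p q else if i < j then d.U p q else -d.U q p) *
        u (inr (j, q)) := by
    simp only [mulVec, dotProduct, Fintype.sum_sum_type, Fintype.sum_prod_type, Datum.big, of_apply,
      Datum.y, neg_mul, Finset.sum_neg_distrib]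
  have h2 : ∀ j, ∑ q, (if i = j then A' i p q else if i < j then d.U p q else -d.U q p) *
        u (inr (j, q)) =
      (if i = j then ((A' i + d.Uᵀ) *ᵥ fun q => u (inr (i, q))) p else 0) -
        d.y p ⬝ᵥ Ubᵀ *ᵥ out d.y (fun q => u (inr (j, q))) +
        d.y p ⬝ᵥ (Ub + Ubᵀ) *ᵥ (if i < j then out d.y (fun q => u (inr (j, q))) else 0) := by
    intro j
    rw [hb]
    by_cases hij : i = j
    · subst hij
      simp [mulVec, dotProduct, add_mul, Finset.sum_add_distrib]
    · by_cases hlt : i < j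
      · simp only [if_neg hij, if_pos hlt]
        rw [add_mulVec, dotProduct_add, ha, hb]
        ring
      · simp [if_neg hij, if_neg hlt]
  rw [h1, Finset.sum_congr rfl fun j _ => h2 j, Finset.sum_add_distrib, Finset.sum_sub_distrib,
    Finset.sum_ite_eq, if_pos (Finset.mem_univ _), rgt, mulVec_sum, mulVec_sum, dotProduct_add,
    dotProduct_sub, dotProduct_neg, dotProduct_sum, dotProduct_sum]
  ring

/-- The pattern on the big ground set. -/
def pat (XK : Set K) (X : Fin n → Set P) : Set (K ⊕ Fin n × P) :=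
  {e | Sum.elim (fun k => k ∈ XK) (fun x => x.2 ∈ X x.1) e}

lemma dep_iff (hU : ∀ p q, d.U p q = d.y p ⬝ᵥ Ub *ᵥ d.y q) (A' : Fin n → Matrix P P F)
    (XK YK : Set K) (Z : Fin n → Set P × Set P) :
    Dep (d.big A') (pat XK fun j => (Z j).1) (pat YK fun j => (Z j).2) ↔
      cfg d.D Ub XK YK (word (Ub + Ubᵀ) d.y (fun j => A' j + d.Uᵀ) Z) := by
  have key : ∀ (u : K ⊕ Fin n × P → F) (ω r : K → F),
      r = ∑ j, out d.y (fun q => u (inr (j, q))) → (fun k => u (inl k)) = -(ω + Ubᵀ *ᵥ r) →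
      (((∀ e, e ∉ pat YK (fun j => (Z j).2) → u e = 0) ∧
        ∀ e ∈ pat XK (fun j => (Z j).1), (d.big A' *ᵥ u) e = 0) ↔
      Sol (Ub + Ubᵀ) d.y (fun j => A' j + d.Uᵀ) Z ω 0 (fun j q => u (inr (j, q))) ∧
        (∀ k, k ∉ YK → (ω + Ubᵀ *ᵥ r) k = 0) ∧ ∀ k ∈ XK, (r - d.D *ᵥ (ω + Ubᵀ *ᵥ r)) k = 0) := by
    intro u ω r hr hω
    have e1 : ∀ k, u (inl k) = -(ω + Ubᵀ *ᵥ r) k := fun k => congrFun hω k
    have e2 : ∀ k, (d.big A' *ᵥ u) (inl k) = (r - d.D *ᵥ (ω + Ubᵀ *ᵥ r)) k := fun k => by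
      rw [big_inl, ← hr, hω, mulVec_neg, Pi.neg_apply, Pi.sub_apply]; ring
    have e3 : ∀ i p, (d.big A' *ᵥ u) (inr (i, p)) =
        ((A' i + d.Uᵀ) *ᵥ fun q => u (inr (i, q))) p +
          d.y p ⬝ᵥ (ω + (Ub + Ubᵀ) *ᵥ (0 + rgt d.y (fun j q => u (inr (j, q))) i)) := fun i p => by
      rw [big_inr hU, ← hr, hω, zero_add]
      congr 3
      abel
    constructor
    · rintro ⟨h1, h2⟩
      refine ⟨fun j => ⟨fun q hq => h1 (inr (j, q)) hq, fun p hp => ?_⟩, fun k hk => ?_,
        fun k hk => ?_⟩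
      · rw [← e3]; exact h2 (inr (j, p)) hp
      · have := h1 (inl k) hk
        rwa [e1, neg_eq_zero] at this
      · rw [← e2]; exact h2 (inl k) hk
    · rintro ⟨h1, h2, h3⟩
      constructor
      · rintro (k | ⟨j, q⟩) he
        · rw [e1, h2 k he, neg_zero]
        · exact (h1 j).1 q he
      · rintro (k | ⟨j, p⟩) he
        · rw [e2]; exact h3 k he
        · rw [e3]; exact (h1 j).2 p he
  constructor
  · rintro ⟨u, h0, h12⟩
    obtain ⟨r, hr⟩ : ∃ r, r = ∑ j, out d.y (fun q => u (inr (j, q))) := ⟨_, rfl⟩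
    obtain ⟨ω, hω⟩ : ∃ ω, (fun k => u (inl k)) = -(ω + Ubᵀ *ᵥ r) :=
      ⟨-(fun k => u (inl k)) - Ubᵀ *ᵥ r, by abel⟩
    obtain ⟨h1, h2, h3⟩ := (key u ω r hr hω).1 h12
    by_cases hz : ω ≠ 0 ∨ r ≠ 0
    · exact Or.inr ⟨ω, r, hz, (mem_word _ _ _ _ _).2 ⟨_, h1, by rw [zero_add, hr]⟩, h2, h3⟩
    · push Not at hz
      obtain ⟨rfl, rfl⟩ := hz
      refine Or.inl ((hid_word _ _).2 ⟨_, fun h => h0 (funext ?_), h1, hr.symm⟩)
      rintro (k | ⟨j, q⟩)
      · simpa using congrFun hω k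
      · exact congrFun (congrFun h j) q
  · rintro (h | ⟨ω, r, hz, h1, h2, h3⟩)
    · obtain ⟨u, h0, h1, h2⟩ := (hid_word _ _).1 h
      refine ⟨Sum.elim 0 fun x => u x.1 x.2, fun h => h0 (funext fun j => funext fun q =>
        congrFun h (inr (j, q))), (key _ 0 0 h2.symm ?_).2 ⟨h1, by simp, by simp⟩⟩
      funext k
      simp
    · obtain ⟨u, hu, hr⟩ := (mem_word _ _ _ _ _).1 h1
      rw [zero_add] at hr
      refine ⟨Sum.elim (-(ω + Ubᵀ *ᵥ r)) fun x => u x.1 x.2, fun h => ?_,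
        (key _ ω r hr rfl).2 ⟨hu, h2, h3⟩⟩
      have hu0 : u = 0 := funext fun j => funext fun q => congrFun h (inr (j, q))
      have hr0 : r = 0 := by simp [hr, hu0, out_zero]
      have hω0 : ω = 0 := funext fun k => by simpa [hr0] using congrFun h (inl k)
      exact hz.elim (fun h => h hω0) fun h => h hr0

end Big

/-! ## Consequences of the algebraic hypothesis -/

section Alg

variable {d : Datum F K P}

lemma alg_D (h : d.Alg) : Bip d.colK d.D := fun k k' hc => by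
  obtain ⟨A', -, hf⟩ := h 0
  exact hf.bip 0 (inl k) (inl k') hc

lemma alg_y (h : d.Alg) (p : P) (k : K) (hc : d.colP p = d.colK k) : d.y p k = 0 := by
  obtain ⟨A', -, hf⟩ := h 1
  exact hf.bip 0 (inl k) (inr (0, p)) hc.symm

lemma alg_U (h : d.Alg) : Bip d.colP d.U := fun p q hc => by
  obtain ⟨A', -, hf⟩ := h 2
  simpa [Datum.big] using hf.bip 0 (inr (0, p)) (inr (1, q)) hc

lemma alg_A (h : d.Alg) : Skew d.A ∧ Bip d.colP d.A := by
  obtain ⟨A', hd, hf⟩ := h 1
  have e : A' 1 0 = d.A := (hd 1).1 0 (by simp)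
  refine ⟨fun p q => ?_, fun p q hc => ?_⟩
  · simpa [Datum.big, e] using hf.skew 1 (inr (0, p)) (inr (0, q))
  · simpa [Datum.big, e] using hf.bip 1 (inr (0, p)) (inr (0, q)) hc

lemma alg_As (h : d.Alg) : Skew d.As ∧ Bip d.colP d.As := by
  obtain ⟨A', hd, hf⟩ := h 1
  have e : A' 0 0 = d.As := (hd 0).2 0 (by simp)
  refine ⟨fun p q => ?_, fun p q hc => ?_⟩
  · simpa [Datum.big, e] using hf.skew 0 (inr (0, p)) (inr (0, q))
  · simpa [Datum.big, e] using hf.bip 0 (inr (0, p)) (inr (0, q)) hc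

lemma exists_Ub0 (hr : d.Ref) (hd : d.Red) :
    ∃ Ub : Matrix K K F, ∀ p q, d.U p q = d.y p ⬝ᵥ Ub *ᵥ d.y q := by
  classical
  choose x hx using hr.1
  choose z hz using hr.2
  choose c hc using fun k : K => exists_out d.y hd (Pi.single k 1)
  refine ⟨Matrix.of fun k' k => (∑ q, c k q • z q) k', fun p q => ?_⟩
  have h1 : ∀ k, x p k = d.y p ⬝ᵥ ∑ q, c k q • z q := fun k => by
    have e : x p k = x p ⬝ᵥ out d.y (c k) := by rw [hc]; simp
    rw [e, out, dotProduct_sum, dotProduct_sum]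
    refine Finset.sum_congr rfl fun q _ => ?_
    rw [dotProduct_smul, dotProduct_smul, ← hx, hz, dotProduct_comm]
  rw [hx, dotProduct_mulVec]
  congr 1
  funext k
  rw [h1]
  rfl

lemma exists_Ub (h : d.Alg) (hr : d.Ref) (hd : d.Red) :
    ∃ Ub : Matrix K K F, Bip d.colK Ub ∧ ∀ p q, d.U p q = d.y p ⬝ᵥ Ub *ᵥ d.y q := by
  obtain ⟨U0, hU⟩ := exists_Ub0 hr hd
  refine ⟨Matrix.of fun k k' => if d.colK k = d.colK k' then 0 else U0 k k',
    fun k k' hc => if_pos hc, fun p q => ?_⟩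
  by_cases hc : d.colP p = d.colP q
  · rw [alg_U h p q hc]
    refine (Finset.sum_eq_zero fun k _ => ?_).symm
    by_cases hk : d.colP p = d.colK k
    · rw [alg_y h p k hk, zero_mul]
    · refine mul_eq_zero_of_right _ (Finset.sum_eq_zero fun k' _ => ?_)
      by_cases hk' : d.colP q = d.colK k'
      · rw [alg_y h q k' hk', mul_zero]
      · have : d.colK k = d.colK k' := by
          rw [hc] at hk
          revert hk hk'
          cases d.colP q <;> cases d.colK k <;> cases d.colK k' <;> simp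
        simp [this]
  · rw [hU]
    refine Finset.sum_congr rfl fun k _ => ?_
    by_cases hk : d.colP p = d.colK k
    · rw [alg_y h p k hk, zero_mul, zero_mul]
    · congr 1
      refine Finset.sum_congr rfl fun k' _ => ?_
      by_cases hk' : d.colP q = d.colK k'
      · rw [alg_y h q k' hk', mul_zero, mul_zero]
      · have : ¬d.colK k = d.colK k' := by
          revert hc hk hk'
          cases d.colP p <;> cases d.colP q <;> cases d.colK k <;> cases d.colK k' <;> simp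
        simp [this]

variable {Ub : Matrix K K F}

omit [Fintype P] in
lemma dot_delta (hU : ∀ p q, d.U p q = d.y p ⬝ᵥ Ub *ᵥ d.y q) (p q : P) :
    d.y p ⬝ᵥ (Ub + Ubᵀ) *ᵥ d.y q = d.U p q + d.U q p := by
  rw [add_mulVec, dotProduct_add, hU, hU q p, mulVec_transpose, dotProduct_comm _ (_ ᵥ* _),
    ← dotProduct_mulVec]

omit [Fintype P] in
lemma delta_iff (hd : d.Red) (hU : ∀ p q, d.U p q = d.y p ⬝ᵥ Ub *ᵥ d.y q) :
    Ub + Ubᵀ = 0 ↔ d.Tau0 := by
  constructor
  · intro h p q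
    have := dot_delta hU p q
    rw [h, zero_mulVec, dotProduct_zero] at this
    exact eq_neg_of_add_eq_zero_left this.symm
  · intro h
    have h1 : ∀ q, (Ub + Ubᵀ) *ᵥ d.y q = 0 := fun q => hd _ fun p => by
      rw [dotProduct_comm, dot_delta hU, h p q, neg_add_cancel]
    ext k k'
    exact congrFun (hd ((Ub + Ubᵀ) k) fun q => congrFun (h1 q) k) k'

/-- Comparison of the last representation with the one that is deviant in position `n`. -/
lemma step (h : d.Alg) (hU : ∀ p q, d.U p q = d.y p ⬝ᵥ Ub *ᵥ d.y q) (n m : ℕ) :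
    ∃ bx : Fin m → Matrix P P F, ∀ (Zl : Fin n → Set P × Set P) (X Y : Set P)
      (Zr : Fin m → Set P × Set P) (XK YK : Set K),
      cfg d.D Ub XK YK ((word (Ub + Ubᵀ) d.y (fun _ => d.B) Zl).comp
        ((Act.letter (Ub + Ubᵀ) d.y d.B X Y).comp (word (Ub + Ubᵀ) d.y (fun _ => d.B) Zr))) ↔
      cfg d.D Ub XK YK ((word (Ub + Ubᵀ) d.y (fun _ => d.B) Zl).comp
        ((Act.letter (Ub + Ubᵀ) d.y d.Bs X Y).comp (word (Ub + Ubᵀ) d.y bx Zr))) := by
  obtain ⟨A', hd, hf⟩ := h (n + (m + 1))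
  let i : Fin (n + (m + 1) + 1) := ⟨n, by omega⟩
  refine ⟨fun j => A' i (Fin.natAdd n j.succ) + d.Uᵀ, fun Zl X Y Zr XK YK => ?_⟩
  have e1 : (fun j => A' (Fin.last _) j + d.Uᵀ) =
      Fin.append (fun _ : Fin n => d.B) (Fin.cons d.B fun _ : Fin m => d.B) := by
    funext j
    rw [(hd (Fin.last _)).1 j j.isLt]
    refine Fin.addCases (fun j => ?_) (fun j => ?_) j
    · rw [Fin.append_left]; rfl
    · rw [Fin.append_right]
      exact Fin.cases rfl (fun j => rfl) j
  have e2 : (fun j => A' i j + d.Uᵀ) = Fin.append (fun _ : Fin n => d.B)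
      (Fin.cons d.Bs fun j : Fin m => A' i (Fin.natAdd n j.succ) + d.Uᵀ) := by
    funext j
    refine Fin.addCases (fun j => ?_) (fun j => ?_) j
    · rw [Fin.append_left, (hd i).1 _ (by simp [i])]; rfl
    · rw [Fin.append_right]
      refine Fin.cases ?_ (fun j => rfl) j
      rw [(hd i).2 _ (by simp [i])]; rfl
  have h1 := dep_iff hU (A' (Fin.last _)) XK YK (Fin.append Zl (Fin.cons (X, Y) Zr))
  have h2 := dep_iff hU (A' i) XK YK (Fin.append Zl (Fin.cons (X, Y) Zr))
  rw [e1, word_append, word_cons] at h1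
  rw [e2, word_append, word_cons] at h2
  exact h1.symm.trans ((hf.same (Fin.last _) i _ _).trans h2)

/-- Padding the left word with empty letters. -/
lemma pad (B : Matrix P P F) {n n' : ℕ} (hn : n ≤ n') (Z : Fin n → Set P × Set P) :
    ∃ Z' : Fin n' → Set P × Set P, word δ y (fun _ => B) Z' = word δ y (fun _ => B) Z := by
  obtain ⟨k, rfl⟩ := Nat.exists_eq_add_of_le hn
  refine ⟨Fin.append Z fun _ : Fin k => (∅, ∅), ?_⟩
  have e : (fun _ : Fin (n + k) => B) = Fin.append (fun _ : Fin n => B) fun _ : Fin k => B := by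
    funext j
    refine Fin.addCases (fun j => ?_) (fun j => ?_) j <;> simp
  rw [e, word_append, word_empty, comp_one]

lemma main [Finite F] (h : d.Alg) (hU : ∀ p q, d.U p q = d.y p ⬝ᵥ Ub *ᵥ d.y q) (m : ℕ) :
    ∃ bx : Fin m → Matrix P P F, ∀ (n : ℕ) (Zl : Fin n → Set P × Set P) (X Y : Set P)
      (Zr : Fin m → Set P × Set P) (XK YK : Set K),
      cfg d.D Ub XK YK ((word (Ub + Ubᵀ) d.y (fun _ => d.B) Zl).comp
        ((Act.letter (Ub + Ubᵀ) d.y d.B X Y).comp (word (Ub + Ubᵀ) d.y (fun _ => d.B) Zr))) ↔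
      cfg d.D Ub XK YK ((word (Ub + Ubᵀ) d.y (fun _ => d.B) Zl).comp
        ((Act.letter (Ub + Ubᵀ) d.y d.Bs X Y).comp (word (Ub + Ubᵀ) d.y bx Zr))) := by
  refine finite_antitone _ (fun bx n n' hn H Zl X Y Zr XK YK => ?_) fun n => step h hU n m
  obtain ⟨Z', hZ⟩ := pad (δ := Ub + Ubᵀ) (y := d.y) d.B hn Zl
  rw [← hZ]
  exact H Z' X Y Zr XK YK

end Alg

/-- The relations realised by words of normal petals. -/
def words (δ : Matrix K K F) (y : P → K → F) (B : Matrix P P F) : Set (Act F K) :=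
  {a | ∃ (n : ℕ) (Z : Fin n → Set P × Set P), a = word δ y (fun _ => B) Z}

lemma one_mem_words (B : Matrix P P F) : Act.one ∈ words δ y B :=
  ⟨0, Fin.elim0, (word_zero _ _).symm⟩

lemma comp_mem_words {B : Matrix P P F} {f g : Act F K} (hf : f ∈ words δ y B)
    (hg : g ∈ words δ y B) : f.comp g ∈ words δ y B := by
  obtain ⟨n, Z, rfl⟩ := hf
  obtain ⟨k, Z', rfl⟩ := hg
  refine ⟨n + k, Fin.append Z Z', ?_⟩
  rw [← word_append]
  congr 1
  funext j
  refine Fin.addCases (fun j => ?_) (fun j => ?_) j <;> simp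

lemma letter_mem_words (B : Matrix P P F) (X Y : Set P) : Act.letter δ y B X Y ∈ words δ y B :=
  ⟨1, fun _ => (X, Y), by rw [word_succ, word_zero, comp_one]⟩

end Sys56

open Sys56 in
theorem sys {F : Type} [Field F] [Fintype F] : SYS F := by
  intro K P _ _ d h hr hd hc
  obtain ⟨Ub, hb, hU⟩ := exists_Ub h hr hd
  have hall : Act.add ⊤ ∈ words (Ub + Ubᵀ) d.y d.B := by
    obtain ⟨Y, hY⟩ := letter_all (Ub + Ubᵀ) d.y d.B hd
    rw [← hY]
    exact letter_mem_words _ _ _
  refine ⟨⟨d.colK, d.D, Ub, words (Ub + Ubᵀ) d.y d.B, alg_D h, hb, one_mem_words _,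
    fun f hf g hg => comp_mem_words hf hg, hall⟩, ?_, delta_iff hd hU⟩
  refine ⟨⟨alg_y h, fun p q hpq => ?_, fun p q => ?_, letter_mem_words _, hd, hc⟩,
    fun p q hpq => ?_, fun p q => ?_, fun _ _ _ => rfl, Or.inr rfl, ?_, ?_⟩
  · simp [Datum.B, (alg_A h).2 p q hpq, alg_U h q p hpq.symm]
  · refine Eq.trans ?_ (dot_delta hU p q).symm
    simp only [Datum.B, Matrix.add_apply, transpose_apply]
    rw [(alg_A h).1 p q]; ring
  · simp [Datum.Bs, (alg_As h).2 p q hpq, alg_U h q p hpq.symm]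
  · refine Eq.trans ?_ (dot_delta hU p q).symm
    simp only [Datum.Bs, Matrix.add_apply, transpose_apply]
    rw [(alg_As h).1 p q]; ring
  · rintro X Y al ⟨n, Zl, rfl⟩ XK YK
    obtain ⟨bx, H⟩ := main h hU 0
    have := H n Zl X Y Fin.elim0 XK YK
    rw [word_zero, word_zero, Sys56.comp_one, Sys56.comp_one] at this
    rw [shift_zero, one_comp]
    exact this
  · rintro ar ⟨m, Zr, rfl⟩
    obtain ⟨bx, H⟩ := main h hU m
    refine ⟨word (Ub + Ubᵀ) d.y bx Zr, ?_⟩
    rintro X Y al ⟨n, Zl, rfl⟩ XK YK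
    rw [shift_zero, one_comp]
    exact H n Zl X Y Zr XK YK

end Pool.Agent.MP_d99b12_co.H25
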