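import Pool.Agent.MP_d99b12_co.H25.Spec

/-! Row ZT: the zero test. -/

namespace Pool.Agent.MP_d99b12_co.H25

open Matrix

variable {F : Type} [Field F]

namespace ZT

variable {K P : Type}

/-- `v` vanishes on the coordinates of colour `c`. -/
def On (colK : K → Bool) (c : Bool) (v : K → F) : Prop := ∀ k, c = colK k → v k = 0

/-- `v` vanishes on the coordinates of the other colour. -/
def Off (colK : K → Bool) (c : Bool) (v : K → F) : Prop := ∀ k, c ≠ colK k → v k = 0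

variable {colK : K → Bool} {c : Bool}

theorem On.add {u v : K → F} (hu : On colK c u) (hv : On colK c v) : On colK c (u + v) :=
  fun k hk => by rw [Pi.add_apply, hu k hk, hv k hk, add_zero]

theorem On.smul {v : K → F} (t : F) (hv : On colK c v) : On colK c (t • v) :=
  fun k hk => by rw [Pi.smul_apply, hv k hk, smul_zero]

theorem Off.add {u v : K → F} (hu : Off colK c u) (hv : Off colK c v) : Off colK c (u + v) :=
  fun k hk => by rw [Pi.add_apply, hu k hk, hv k hk, add_zero]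

theorem Off.smul {v : K → F} (t : F) (hv : Off colK c v) : Off colK c (t • v) :=
  fun k hk => by rw [Pi.smul_apply, hv k hk, smul_zero]

variable [Fintype K]

theorem On.mul {M : Matrix K K F} (hM : Bip colK M) {v : K → F} (hv : On colK c v) :
    Off colK c (M *ᵥ v) := by
  intro k hk
  refine Finset.sum_eq_zero fun j _ => ?_
  by_cases h : colK k = colK j
  · show M k j * v j = 0
    rw [hM k j h, zero_mul]
  · show M k j * v j = 0
    rw [hv j (by revert hk h; cases c <;> cases colK k <;> cases colK j <;> simp), mul_zero]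

theorem Off.mul {M : Matrix K K F} (hM : Bip colK M) {v : K → F} (hv : Off colK c v) :
    On colK c (M *ᵥ v) := by
  intro k hk
  refine Finset.sum_eq_zero fun j _ => ?_
  by_cases h : colK k = colK j
  · show M k j * v j = 0
    rw [hM k j h, zero_mul]
  · show M k j * v j = 0
    rw [hv j (hk ▸ h), mul_zero]

theorem dot_off_on {u v : K → F} (hu : Off colK c u) (hv : On colK c v) : u ⬝ᵥ v = 0 := by
  refine Finset.sum_eq_zero fun k _ => ?_
  by_cases h : c = colK k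
  · rw [hv k h, mul_zero]
  · rw [hu k h, zero_mul]

theorem bipT (s : Sys F K) : Bip s.colK s.Ubᵀ := fun u v h => s.bipU v u h.symm

theorem bipδ (s : Sys F K) : Bip s.colK s.δ := fun u v h => by
  rw [Sys.δ, Matrix.add_apply, s.bipU u v h, bipT s u v h, add_zero]

/-- The core condition for the pattern given by one colour. -/
theorem cfg_iff (s : Sys F K) (c : Bool) (a : Act F K) :
    cfg s.D s.Ub {k | c ≠ s.colK k} {k | c ≠ s.colK k} a ↔
      a.hid ∨ ∃ ω r : K → F, (ω ≠ 0 ∨ r ≠ 0) ∧ (ω, 0, r) ∈ a.rel ∧ On s.colK c ω ∧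
        Off s.colK c r := by
  refine or_congr Iff.rfl (exists_congr fun ω => exists_congr fun r =>
    and_congr Iff.rfl (and_congr Iff.rfl ⟨fun h => ?_, fun h => ?_⟩))
  · have h1 : On s.colK c (ω + s.Ubᵀ *ᵥ r) := fun k hk => h.1 k (not_not.2 hk)
    have h2 : Off s.colK c r := fun k hk => by
      have h3 := h.2 k hk
      rwa [Pi.sub_apply, h1.mul s.bipD k hk, sub_zero] at h3
    refine ⟨fun k hk => ?_, h2⟩
    have h3 := h1 k hk
    rwa [Pi.add_apply, h2.mul (bipT s) k hk, add_zero] at h3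
  · have h1 : On s.colK c (ω + s.Ubᵀ *ᵥ r) := h.1.add (h.2.mul (bipT s))
    refine ⟨fun k hk => h1 k (not_not.1 hk), fun k hk => ?_⟩
    rw [Pi.sub_apply, h1.mul s.bipD k hk, h.2 k hk, sub_zero]

omit [Fintype K] in
theorem mem_comp {f g : Act F K} {ω r r' : K → F} :
    (ω, r, r') ∈ (f.comp g).rel ↔ ∃ r₁, (ω, r, r₁) ∈ g.rel ∧ (ω, r₁, r') ∈ f.rel := Iff.rfl

omit [Fintype K] in
theorem hid_comp {f g : Act F K} : (f.comp g).hid ↔
    f.hid ∨ g.hid ∨ ∃ r', r' ≠ 0 ∧ (0, 0, r') ∈ g.rel ∧ (0, r', 0) ∈ f.rel := Iff.rfl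

theorem mem_test {δ : Matrix K K F} {ξ ω r r' : K → F} :
    (ω, r, r') ∈ (Act.test δ ξ).rel ↔ r' = r ∧ ξ ⬝ᵥ (ω + δ *ᵥ r) = 0 := Iff.rfl

theorem mem_tfInv {δ Φ : Matrix K K F} {ω r r' : K → F} :
    (ω, r, r') ∈ (Act.tfInv δ Φ).rel ↔ r = r' + Φ *ᵥ (ω + δ *ᵥ r') := Iff.rfl

theorem mem_shift {ω r r' : K → F} :
    (ω, r, r') ∈ (Act.shift (0 : Matrix K K F)).rel ↔ r' = r := by
  show r' = r + (0 : Matrix K K F) *ᵥ _ ↔ _
  rw [zero_mulVec, add_zero]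

variable [Fintype P] {δ : Matrix K K F} {y : P → K → F} {B : Matrix P P F}

theorem mem_letter {X Y : Set P} {ω r r' : K → F} :
    (ω, r, r') ∈ (Act.letter δ y B X Y).rel ↔ ∃ u : P → F, (∀ q, q ∉ Y → u q = 0) ∧
      (∀ p ∈ X, (B *ᵥ u) p + y p ⬝ᵥ (ω + δ *ᵥ r) = 0) ∧ r' = r + ∑ q, u q • y q := Iff.rfl

theorem mem_rows {X : Set P} {ω r r' : K → F} :
    (ω, r, r') ∈ (Act.letter δ y B X ∅).rel ↔
      r' = r ∧ ∀ p ∈ X, y p ⬝ᵥ (ω + δ *ᵥ r) = 0 := by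
  rw [mem_letter]
  constructor
  · rintro ⟨u, h1, h2, h3⟩
    obtain rfl : u = 0 := funext fun q => h1 q (Set.notMem_empty q)
    exact ⟨by simpa using h3, fun p hp => by simpa using h2 p hp⟩
  · rintro ⟨h1, h2⟩
    exact ⟨0, fun _ _ => rfl, fun p hp => by simpa using h2 p hp, by simpa using h1⟩

theorem not_hid_rows {X : Set P} : ¬(Act.letter δ y B X ∅).hid := by
  rintro ⟨u, h0, h1, -⟩
  exact h0 (funext fun q => h1 q (Set.notMem_empty q))

theorem sum_pair {M : Type} [AddCommMonoid M] {a b : P} (hab : a ≠ b) (f : P → M)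
    (hf : ∀ q, q ∉ ({a, b} : Set P) → f q = 0) : ∑ q, f q = f a + f b :=
  Finset.sum_eq_add_of_mem a b (Finset.mem_univ _) (Finset.mem_univ _) hab fun q _ hq =>
    hf q (by simp [hq.1, hq.2])

theorem mem_pair {a b : P} (hab : a ≠ b) (ha : B a a = 0) (hb : B b b = 0) {ω r r' : K → F} :
    (ω, r, r') ∈ (Act.letter δ y B {a, b} {a, b}).rel ↔ ∃ ua ub : F,
      B a b * ub + y a ⬝ᵥ (ω + δ *ᵥ r) = 0 ∧ B b a * ua + y b ⬝ᵥ (ω + δ *ᵥ r) = 0 ∧
        r' = r + (ua • y a + ub • y b) := by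
  classical
  have key : ∀ u : P → F, (∀ q, q ∉ ({a, b} : Set P) → u q = 0) →
      (B *ᵥ u) a = B a b * u b ∧ (B *ᵥ u) b = B b a * u a ∧
        ∑ q, u q • y q = u a • y a + u b • y b := by
    intro u hu
    refine ⟨?_, ?_, sum_pair hab _ fun q hq => by rw [hu q hq, zero_smul]⟩
    · refine (sum_pair hab (fun q => B a q * u q) fun q hq => by rw [hu q hq, mul_zero]).trans ?_
      rw [ha, zero_mul, zero_add]
    · refine (sum_pair hab (fun q => B b q * u q) fun q hq => by rw [hu q hq, mul_zero]).trans ?_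
      rw [hb, zero_mul, add_zero]
  rw [mem_letter]
  constructor
  · rintro ⟨u, h1, h2, h3⟩
    obtain ⟨k1, k2, k3⟩ := key u h1
    exact ⟨u a, u b, k1 ▸ h2 a (by simp), k2 ▸ h2 b (by simp), k3 ▸ h3⟩
  · rintro ⟨ua, ub, h1, h2, h3⟩
    have hu : ∀ q, q ∉ ({a, b} : Set P) →
        (fun q => if q = a then ua else if q = b then ub else 0) q = 0 := by
      intro q hq
      simp only [Set.mem_insert_iff, Set.mem_singleton_iff, not_or] at hq
      simp [hq.1, hq.2]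
    obtain ⟨k1, k2, k3⟩ := key _ hu
    refine ⟨_, hu, ?_, ?_⟩
    · rintro p (rfl | rfl)
      · rw [k1]; simpa [hab.symm] using h1
      · rw [k2]; simpa using h2
    · rw [k3]; simpa [hab.symm] using h3

theorem not_hid_pair {a b : P} (hab : a ≠ b) (ha : B a a = 0) (hb : B b b = 0)
    (h1 : B a b ≠ 0) (h2 : B b a ≠ 0) : ¬(Act.letter δ y B {a, b} {a, b}).hid := by
  rintro ⟨u, h0, hu, h3, -⟩
  have k1 : (B *ᵥ u) a = B a b * u b := by
    refine (sum_pair hab (fun q => B a q * u q) fun q hq => by rw [hu q hq, mul_zero]).trans ?_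
    rw [ha, zero_mul, zero_add]
  have k2 : (B *ᵥ u) b = B b a * u a := by
    refine (sum_pair hab (fun q => B b q * u q) fun q hq => by rw [hu q hq, mul_zero]).trans ?_
    rw [hb, zero_mul, add_zero]
  have e1 := (mul_eq_zero.1 (k1 ▸ h3 a (by simp))).resolve_left h1
  have e2 := (mul_eq_zero.1 (k2 ▸ h3 b (by simp))).resolve_left h2
  refine h0 (funext fun q => ?_)
  by_cases hq : q ∈ ({a, b} : Set P)
  · rcases hq with rfl | rfl
    · exact e2
    · exact e1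
  · exact hu q hq

omit [Fintype P] in
theorem phi_mul (a b : P) (E : K → F) : rePhi y B a b *ᵥ E =
    (-(B b a)⁻¹ * (y b ⬝ᵥ E)) • y a + (-(B a b)⁻¹ * (y a ⬝ᵥ E)) • y b := by
  ext k
  simp only [rePhi, sub_mulVec, smul_mulVec, Pi.sub_apply, Pi.add_apply, Pi.smul_apply,
    vecMulVec_mulVec, smul_eq_mul, op_smul_eq_smul]
  ring

omit [Fintype P] in
/-- A vector killed by `ξ` and not by `η`. -/
theorem exists_sep {ξ η : K → F} (hξ : On colK c ξ) (hη : On colK c η) (h0 : η ≠ 0)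
    (h : ξ ∉ Submodule.span F {η}) : ∃ ω, On colK c ω ∧ ξ ⬝ᵥ ω = 0 ∧ η ⬝ᵥ ω ≠ 0 := by
  classical
  have hξ0 : ξ ≠ 0 := fun e => h (e ▸ Submodule.zero_mem _)
  obtain ⟨i, hi⟩ := Function.ne_iff.1 hξ0
  have hi' : ξ i ≠ 0 := hi
  by_contra hn
  have h1 : ∀ j, η j * ξ i = η i * ξ j := by
    intro j
    by_cases hj : c = colK j
    · rw [hξ j hj, hη j hj, zero_mul, mul_zero]
    by_contra hne
    refine hn ⟨Pi.single j (ξ i) - Pi.single i (ξ j), fun k hk => ?_, ?_, ?_⟩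
    · have e1 : k ≠ j := fun e => hj (e ▸ hk)
      have e2 : k ≠ i := fun e => hi' (hξ i (e ▸ hk))
      simp [e1, e2]
    · rw [dotProduct_sub, dotProduct_single, dotProduct_single]
      ring
    · rw [dotProduct_sub, dotProduct_single, dotProduct_single]
      exact sub_ne_zero.2 hne
  have h2 : η i ≠ 0 := by
    intro e
    refine h0 (funext fun j => ?_)
    have := h1 j
    rw [e, zero_mul] at this
    exact (mul_eq_zero.1 this).resolve_right hi'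
  refine h (Submodule.mem_span_singleton.2 ⟨ξ i / η i, funext fun j => ?_⟩)
  rw [Pi.smul_apply, smul_eq_mul, div_mul_eq_mul_div, div_eq_iff h2]
  linear_combination h1 j

/-- A set of rows that cuts the kernel of `ξ` down to a line not killed by `η`. -/
theorem exists_rows
    (hs : ∀ x : K → F, (∀ p, x ⬝ᵥ y p = 0) → x = 0) {ξ η : K → F}
    (h : ∃ ω, On colK c ω ∧ ξ ⬝ᵥ ω = 0 ∧ η ⬝ᵥ ω ≠ 0) :
    ∃ J : Set P, (∃ ω, On colK c ω ∧ ξ ⬝ᵥ ω = 0 ∧ η ⬝ᵥ ω ≠ 0 ∧ ∀ p ∈ J, y p ⬝ᵥ ω = 0) ∧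
      ∀ ω, On colK c ω → ξ ⬝ᵥ ω = 0 → (∀ p ∈ J, y p ⬝ᵥ ω = 0) → η ⬝ᵥ ω = 0 → ω = 0 := by
  obtain ⟨ω₀, a1, a2, a3⟩ := h
  obtain ⟨J, ⟨ω, b1, b2, b3, b4⟩, hmax⟩ := (Set.toFinite
    {J : Set P | ∃ ω, On colK c ω ∧ ξ ⬝ᵥ ω = 0 ∧ η ⬝ᵥ ω ≠ 0 ∧ ∀ p ∈ J, y p ⬝ᵥ ω = 0}).exists_maximal
    ⟨∅, ω₀, a1, a2, a3, fun p hp => absurd hp (Set.notMem_empty p)⟩
  refine ⟨J, ⟨ω, b1, b2, b3, b4⟩, fun ω' c1 c2 c3 c4 => hs ω' fun p => ?_⟩
  by_contra hp
  rw [dotProduct_comm] at hp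
  have h1 : insert p J ≤ J := by
    refine hmax ⟨ω + (-(y p ⬝ᵥ ω) / (y p ⬝ᵥ ω')) • ω', b1.add (c1.smul _), ?_, ?_, ?_⟩
      (Set.subset_insert p J)
    · rw [dotProduct_add, dotProduct_smul, b2, c2, smul_zero, add_zero]
    · rwa [dotProduct_add, dotProduct_smul, c4, smul_zero, add_zero]
    · rintro q (rfl | hq)
      · rw [dotProduct_add, dotProduct_smul, smul_eq_mul, div_mul_cancel₀ _ hp, add_neg_cancel]
      · rw [dotProduct_add, dotProduct_smul, b4 q hq, c3 q hq, smul_zero, add_zero]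
  exact hp (c3 p (h1 (Set.mem_insert p J)))

end ZT

open ZT in
theorem zt [Fintype F] (hS : SREB F) (hZ : ZP F) : ZT F := by
  intro K P _ _ s col y B Bs a b ξ hd hv hξ hon hne
  by_contra hn
  obtain ⟨ya0, -, hvis⟩ := hv
  have zp := hZ K P s col y B Bs 0 hd
  have hab : B a b ≠ 0 := fun e => hvis (by rw [e, (zp a b).2 e])
  have hab' : Bs a b ≠ 0 := fun e => hab ((zp a b).1 e)
  have hba : B b a ≠ 0 := fun e => hvis (by
    have h1 := hd.compat a b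
    have h2 := hd.compats a b
    rw [(zp b a).2 e] at h2
    rw [e] at h1
    linear_combination h2 - h1)
  have hba' : Bs b a ≠ 0 := fun e => hba ((zp b a).1 e)
  have hcol : col a ≠ col b := fun e => hab (hd.bip a b e)
  have hne' : a ≠ b := fun e => hcol (e ▸ rfl)
  have hya : On s.colK (col a) (y a) := hd.ycol a
  have hyb : Off s.colK (col a) (y b) := fun k hk => hd.ycol b k
    (by revert hk hcol; cases col a <;> cases col b <;> cases s.colK k <;> simp)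
  obtain ⟨J, ⟨ω₀, w1, w2, w3, w4⟩, hJ⟩ := exists_rows (c := col a) hd.span
    (exists_sep (c := col a) hon hya ya0 hn)
  have hω₀ : ω₀ ≠ 0 := fun e => w3 (by rw [e, dotProduct_zero])
  obtain ⟨box, hbox⟩ := hd.goodR _ (s.comp_mem _ hξ _ (hd.mem J ∅))
  have hinv := (hS K P s col y B a b hd.toSDisp hab hba).2.2
  have har : ∀ ω r r' : K → F, (ω, r, r') ∈ ((Act.test s.δ ξ).comp (Act.letter s.δ y B J ∅)).rel ↔
      r' = r ∧ ξ ⬝ᵥ (ω + s.δ *ᵥ r) = 0 ∧ ∀ p ∈ J, y p ⬝ᵥ (ω + s.δ *ᵥ r) = 0 := by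
    intro ω r r'
    rw [mem_comp]
    constructor
    · rintro ⟨r₁, h1, h2⟩
      obtain ⟨rfl, h3⟩ := mem_rows.1 h1
      exact ⟨h2.1, h2.2, h3⟩
    · rintro ⟨h1, h2, h3⟩
      exact ⟨r, mem_rows.2 ⟨rfl, h3⟩, h1, h2⟩
  have har0 : (ω₀, 0, 0) ∈ ((Act.test s.δ ξ).comp (Act.letter s.δ y B J ∅)).rel :=
    (har _ _ _).2 ⟨rfl, by simpa using w2, fun p hp => by simpa using w4 p hp⟩
  have hmid : ∀ ω r r' : K → F, (ω, r, r') ∈
      (((Act.shift (0 : Matrix K K F)).comp (Act.letter s.δ y Bs ∅ ∅)).comp box).rel ↔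
      (ω, r, r') ∈ box.rel := by
    intro ω r r'
    constructor
    · rintro ⟨r₁, h1, r₂, h2, h3⟩
      obtain ⟨h4, -⟩ := mem_rows.1 h2
      have h5 : r' = r₂ := mem_shift.1 h3
      rw [h5, h4]
      exact h1
    · intro h
      exact ⟨r', h, r', mem_rows.2 ⟨rfl, fun p hp => absurd hp (Set.notMem_empty p)⟩,
        mem_shift.2 rfl⟩
  -- second test
  have T2 : ¬cfg s.D s.Ub {k | col a ≠ s.colK k} {k | col a ≠ s.colK k}
      ((Act.letter s.δ y B {a} ∅).comp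
        (((Act.shift 0).comp (Act.letter s.δ y Bs ∅ ∅)).comp box)) := by
    rw [← hbox ∅ ∅ _ (hd.mem {a} ∅), cfg_iff]
    rintro ((h | (h | (h | h | ⟨r, h0, -, h⟩) | ⟨r, h0, -, h⟩) | ⟨r, h0, -, h⟩) |
      ⟨ω, r, h0, ⟨r₁, ⟨r₂, h1, h2⟩, h3⟩, h4, -⟩)
    · exact not_hid_rows h
    · exact not_hid_rows h
    · exact h
    · exact not_hid_rows h
    · exact h0 (mem_test.1 h).1.symm
    · exact h0 (mem_rows.1 h).1.symm
    · exact h0 (mem_rows.1 h).1.symm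
    · dsimp only at h1 h2 h3
      obtain ⟨rfl, k1, k2⟩ := (har _ _ _).1 h1
      obtain ⟨rfl, -⟩ := mem_rows.1 h2
      obtain ⟨rfl, k3⟩ := mem_rows.1 h3
      simp only [mulVec_zero, add_zero] at k1 k2 k3
      exact h0.elim (fun h => h (hJ ω h4 k1 k2 (k3 a rfl))) fun h => h rfl
  rw [cfg_iff, not_or] at T2
  have hbh : ¬box.hid := fun h => T2.1 (Or.inr (Or.inl (Or.inr (Or.inl h))))
  have hV : ∀ ω r : K → F, (ω, 0, r) ∈ box.rel → On s.colK (col a) ω → Off s.colK (col a) r →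
      y a ⬝ᵥ (ω + s.δ *ᵥ r) = 0 → ω = 0 ∧ r = 0 := by
    intro ω r h1 h2 h3 h4
    by_contra h0
    exact T2.2 ⟨ω, r, not_and_or.1 h0,
      ⟨r, (hmid _ _ _).2 h1, mem_rows.2 ⟨rfl, fun p hp => hp ▸ h4⟩⟩, h2, h3⟩
  -- first test
  have T1 := (hbox ∅ ∅ _ hξ {k | col a ≠ s.colK k} {k | col a ≠ s.colK k}).1
    ((cfg_iff s _ _).2 (Or.inr ⟨ω₀, 0, Or.inl hω₀, ⟨0, ⟨0, har0,
      mem_rows.2 ⟨rfl, fun p hp => absurd hp (Set.notMem_empty p)⟩⟩,
      mem_test.2 ⟨rfl, by simpa using w2⟩⟩, w1, fun _ _ => rfl⟩))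
  rw [cfg_iff] at T1
  have hVξ : ∀ ω r : K → F, (ω, 0, r) ∈ box.rel → On s.colK (col a) ω → Off s.colK (col a) r →
      ξ ⬝ᵥ (ω + s.δ *ᵥ r) = 0 := by
    rcases T1 with (h | ((h | h | ⟨r, h0, -, h⟩) | h | ⟨r, h0, -, r₁, h, h'⟩) | ⟨r, h0, -, h⟩) |
      ⟨ω₁, r₁, h0, ⟨r₂, h1, h2⟩, h3, h4⟩
    · exact h.elim
    · exact h.elim
    · exact (not_hid_rows h).elim
    · exact (h0 (mem_shift.1 h).symm).elim
    · exact (hbh h).elim
    · exact (h0 ((mem_rows.1 h).1.symm.trans (mem_shift.1 h').symm)).elim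
    · exact (h0 (mem_test.1 h).1.symm).elim
    · dsimp only at h1 h2
      obtain ⟨rfl, k1⟩ := mem_test.1 h2
      have k2 := (hmid _ _ _).1 h1
      have k3 : y a ⬝ᵥ (ω₁ + s.δ *ᵥ r₁) ≠ 0 := fun e =>
        h0.elim (fun h => h (hV _ _ k2 h3 h4 e).1) fun h => h (hV _ _ k2 h3 h4 e).2
      intro ω r g1 g2 g3
      set t := -(y a ⬝ᵥ (ω + s.δ *ᵥ r)) / (y a ⬝ᵥ (ω₁ + s.δ *ᵥ r₁)) with ht
      have g4 : (ω + t • ω₁, 0, r + t • r₁) ∈ box.rel := by
        have := box.rel.add_mem g1 (box.rel.smul_mem t k2)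
        simpa using this
      have e : ω + t • ω₁ + s.δ *ᵥ (r + t • r₁) = ω + s.δ *ᵥ r + t • (ω₁ + s.δ *ᵥ r₁) := by
        rw [mulVec_add, mulVec_smul, smul_add]
        abel
      obtain ⟨g5, g6⟩ := hV _ _ g4 (g2.add (h3.smul t)) (g3.add (h4.smul t)) (by
        rw [e, dotProduct_add, dotProduct_smul, smul_eq_mul, ht, div_mul_cancel₀ _ k3,
          add_neg_cancel])
      rw [g5, g6, mulVec_zero, add_zero] at e
      have := congrArg (fun v => ξ ⬝ᵥ v) e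
      simp only [dotProduct_zero] at this
      rw [dotProduct_add, dotProduct_smul, k1, smul_zero, add_zero] at this
      exact this.symm
  -- a solution of the third test vanishes
  have key : ∀ ω r₁ r₂ r₃ : K → F, (ω, 0, r₁) ∈ box.rel →
      (ω, r₁, r₂) ∈ (Act.letter s.δ y Bs {a, b} {a, b}).rel →
      (ω, r₂, r₃) ∈ (Act.tfInv s.δ (rePhi y B a b)).rel → ξ ⬝ᵥ (ω + s.δ *ᵥ r₃) = 0 →
      On s.colK (col a) ω → Off s.colK (col a) r₃ → ω = 0 ∧ r₁ = 0 ∧ r₂ = 0 ∧ r₃ = 0 := by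
    intro ω r₁ r₂ r₃ h1 h2 h3 h4 h5 h6
    obtain ⟨ua, ub, e1, e2, e3⟩ := (mem_pair hne' (hd.bips a a rfl) (hd.bips b b rfl)).1 h2
    rw [mem_tfInv, phi_mul, dot_off_on hyb (h5.add (h6.mul (bipδ s))), mul_zero, zero_smul,
      zero_add] at h3
    set μ := -(B a b)⁻¹ * (y a ⬝ᵥ (ω + s.δ *ᵥ r₃)) with hμ
    have e4 : r₁ = r₃ + (μ - ub) • y b + (-ua) • y a := by
      have : r₁ = r₂ - (ua • y a + ub • y b) := by rw [e3]; abel
      rw [this, h3, sub_smul, neg_smul]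
      abel
    have h7 : Off s.colK (col a) (r₃ + (μ - ub) • y b) := h6.add (hyb.smul _)
    have hua : ua = 0 := by
      rw [e4, mulVec_add, ← add_assoc, dotProduct_add,
        dot_off_on hyb (h5.add (h7.mul (bipδ s))), mulVec_smul, dotProduct_smul,
        ← hd.compats b a, smul_eq_mul] at e2
      have : Bs a b * ua = 0 := by linear_combination -e2
      exact (mul_eq_zero.1 this).resolve_left hab'
    rw [hua, neg_zero, zero_smul, add_zero] at e4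
    have h8 := hVξ ω r₁ h1 h5 (e4 ▸ h7)
    have hm : μ - ub = 0 := by
      rw [e4, mulVec_add, ← add_assoc, dotProduct_add, h4, zero_add, mulVec_smul,
        dotProduct_smul, smul_eq_mul] at h8
      exact (mul_eq_zero.1 h8).resolve_right hne
    rw [hm, zero_smul, add_zero] at e4
    subst e4
    have h9 : y a ⬝ᵥ (ω + s.δ *ᵥ r₁) = 0 := by
      have e5 : ub = μ := (sub_eq_zero.1 hm).symm
      rw [e5, hμ] at e1
      have : (B a b - Bs a b) * (y a ⬝ᵥ (ω + s.δ *ᵥ r₁)) = 0 := by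
        have e6 := mul_inv_cancel₀ hab
        linear_combination B a b * e1 + Bs a b * (y a ⬝ᵥ (ω + s.δ *ᵥ r₁)) * e6
      exact (mul_eq_zero.1 this).resolve_left (sub_ne_zero.2 hvis.symm)
    obtain ⟨g1, g2⟩ := hV ω r₁ h1 h5 h6 h9
    refine ⟨g1, g2, ?_, g2⟩
    rw [h3, hμ, h9, mul_zero, zero_smul, add_zero, g2]
  -- third test
  have T3 := (hbox {a, b} {a, b} _ (s.comp_mem _ hξ _ hinv) {k | col a ≠ s.colK k}
    {k | col a ≠ s.colK k}).1
    ((cfg_iff s _ _).2 (Or.inr ⟨ω₀, 0, Or.inl hω₀, ⟨rePhi y B a b *ᵥ (ω₀ + s.δ *ᵥ 0), ⟨0, har0,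
      (mem_pair hne' (hd.bip a a rfl) (hd.bip b b rfl)).2
        ⟨-(B b a)⁻¹ * (y b ⬝ᵥ (ω₀ + s.δ *ᵥ 0)), -(B a b)⁻¹ * (y a ⬝ᵥ (ω₀ + s.δ *ᵥ 0)),
          by field_simp; ring, by field_simp; ring, by rw [phi_mul, zero_add]⟩⟩,
      0, mem_tfInv.2 (zero_add _).symm, mem_test.2 ⟨rfl, by simpa using w2⟩⟩, w1,
      fun _ _ => rfl⟩))
  rw [cfg_iff] at T3
  rcases T3 with ((h | h | ⟨r, h0, -, h⟩) |
      ((h | h | ⟨r, h0, -, h⟩) | h | ⟨r, h0, h, r₁, h', h''⟩) |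
      ⟨r, h0, ⟨r₁, h1, r₂, h2, h3⟩, r₃, h4, h5⟩) |
    ⟨ω, r, h0, ⟨r₂, ⟨r₁, h1, r₂', h2, h3⟩, r₃, h4, h5⟩, h6, h7⟩
  · exact h
  · exact h
  · exact h0 (mem_test.1 h).1.symm
  · exact h
  · exact not_hid_pair hne' (hd.bips a a rfl) (hd.bips b b rfl) hab' hba' h
  · exact h0 (mem_shift.1 h).symm
  · exact hbh h
  · dsimp only at h' h''
    obtain rfl : 0 = r₁ := mem_shift.1 h''
    exact h0 (key 0 r 0 0 h h' (Submodule.zero_mem _) (by simp) (fun _ _ => rfl)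
      fun _ _ => rfl).2.1
  · dsimp only at h1 h2 h3 h4 h5
    obtain rfl : r = r₂ := mem_shift.1 h3
    obtain ⟨rfl, h6⟩ := mem_test.1 h5
    exact h0 (key 0 r₁ r 0 h1 h2 h4 h6 (fun _ _ => rfl) fun _ _ => rfl).2.2.1
  · dsimp only at h1 h2 h3 h4 h5
    obtain rfl : r₂ = r₂' := mem_shift.1 h3
    obtain ⟨rfl, h8⟩ := mem_test.1 h5
    obtain ⟨g1, -, -, g2⟩ := key ω r₁ r₂ r h1 h2 h4 h8 h6 h7
    exact h0.elim (fun h => h g1) fun h => h g2

end Pool.Agent.MP_d99b12_co.H25
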