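import Pool.Agent.MP_d99b12_co.H25.PATH
import Pool.Agent.MP_d99b12_co.H25.PLAY
import Pool.Agent.MP_d99b12_co.H25.MAT
import Pool.Agent.MP_d99b12_co.H25.AUG
import Pool.Agent.MP_d99b12_co.H25.GROW
import Pool.Agent.MP_d99b12_co.H25.STEP
import Pool.Agent.MP_d99b12_co.H25.ROUNDC
import Pool.Agent.MP_d99b12_co.H25.MIDW
import Pool.Agent.MP_d99b12_co.H25.BGEN
import Pool.Agent.MP_d99b12_co.H25.CL
import Pool.Agent.MP_d99b12_co.H25.HP
import Pool.Agent.MP_d99b12_co.H25.HOM
import Pool.Agent.MP_d99b12_co.H25.INIT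
import Pool.Agent.MP_d99b12_co.H25.START
import Pool.Agent.MP_d99b12_co.H25.SHR
import Pool.Agent.MP_d99b12_co.H25.WALK
import Pool.Agent.MP_d99b12_co.H25.A1S
import Pool.Agent.MP_d99b12_co.H25.ZT
import Pool.Agent.MP_d99b12_co.H25.C1
import Pool.Agent.MP_d99b12_co.H25.REB
import Pool.Agent.MP_d99b12_co.H25.SYS
import Pool.Agent.MP_d99b12_co.H25.ANEM
import Pool.Agent.MP_d99b12_co.H25.KILL

/-! # Assembly -/

namespace Pool.Agent.MP_d99b12_co.H25

variable {F : Type} [Field F] [Fintype F]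

/-- The structure theorem: the problem at connectivity `m + 2` reduces to the algebraic bound. -/
theorem main_of_algr {m : ℕ} (hm : 2 ≤ m) (h : ALGR F m) : MAIN F m :=
  play (init (start shr m) hom) (hp m)
    (bgen (cl shr) (walkp walk) (hp m) fun _ _ _ _ _ hd hr => (hp m).parAll hd hr)
    (roundc walk hom m) (walkp walk) mid1
    (aug (grow (step (shrink idl) m)) (hub hom m) (star hom m) (path idl hom m))
    (a1 sys (a1s sreb zp (c1 zp reb (c1pre zp reb)) (zt sreb zp))) hm h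

theorem main_of_alg {m : ℕ} (hm : 2 ≤ m) (h : ALG F m) : MAIN F m :=
  main_of_algr hm fun K P _ _ d hd => h K P d hd.alg

theorem anem' : ANEM F := anem sreb zp reb (c1pre zp reb) (c1 zp reb (c1pre zp reb))

theorem main_sq {p : ℕ} (hp : p.Prime) (hq : Fintype.card F = p ^ 2) : MAIN F p :=
  main_of_alg hp.two_le (alg2 sys anem' kill2 hp hq)

theorem main_eight (hq : Fintype.card F = 8) : MAIN F 2 :=
  main_of_alg le_rfl (alg8 sys anem' kill8 hq)

theorem final (p : ℕ) (hp : p.Prime) (k : ℕ) (h : (k = 2 ∧ p ≠ 2) ∨ (p = 2 ∧ k = 3)) :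
    ∃ h : ℕ, ∀ (F : Type) [Field F] [Fintype F], Fintype.card F = p ^ k →
      ∀ (α : Type) [Finite α] (M : Matroid α),
      H30.TutteConnected M ((if p = 2 then k - 1 else (k - 1) * (p - 1) + 1) + 2) →
      ∀ (n : ℕ) (v : Fin (h + 1) → α → Fin n → F), (∀ i, H30.Rep M (v i)) →
      ∃ i j, i ≠ j ∧ H30.Equivalent M.E (v i) (v j) := by
  have := Fact.mk hp
  have hk : k ≠ 0 := by omega
  let _ := Fintype.ofFinite (GaloisField p k)
  have hc : Fintype.card (GaloisField p k) = p ^ k := by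
    rw [← Nat.card_eq_fintype_card, GaloisField.card p k hk]
  rcases h with ⟨rfl, h2⟩ | ⟨rfl, rfl⟩
  · have e : (if p = 2 then 2 - 1 else (2 - 1) * (p - 1) + 1) = p := by
      have := hp.two_le
      rw [if_neg h2]; omega
    rw [e]
    exact final_of_main hk (main_sq hp hc)
  · exact final_of_main (m := 2) hk (main_eight hc)

end Pool.Agent.MP_d99b12_co.H25
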