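import Pool.Agent.MP_d99b12_co.H25.Spec
import Pool.Agent.MP_d99b12_co.H25.Piv

/-! # Row IDS: segments with trivial transfer can be pivoted away; paths can be shortened -/

namespace Pool.Agent.MP_d99b12_co.H25

open Matrix

variable {F : Type} [Field F]

section Run

variable {K : Type} [Fintype K]

lemma tr_injective (x y : K → F) {t : F} (ht : t ≠ 0) : Function.Injective (tr x y t) := by
  rintro ⟨r, l, a, b⟩ ⟨r', l', a', b'⟩ h
  simp only [tr, Prod.mk.injEq] at h
  obtain ⟨h1, h2, h3, h4⟩ := h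
  have hb : b = b' := (div_left_inj' ht).1 h3
  subst hb
  have hr : r = r' := sub_left_injective h1
  have hl : l = l' := add_right_cancel h2
  subst hr hl
  have ha : t * a = t * a' := add_right_cancel (sub_left_injective h4)
  rw [mul_left_cancel₀ ht ha]

lemma tr_zero (x y : K → F) (t : F) : tr x y t 0 = 0 := by
  simp [tr]

variable (xs ys : ℕ → K → F) (ts : ℕ → F)

lemma run_zero_len (s : ℕ) : run xs ys ts s 0 = id := rfl

lemma run_succ (s n : ℕ) : run xs ys ts s (n + 1) =
    tr (xs (s + n)) (ys (s + n)) (ts (s + n)) ∘ run xs ys ts s n := rfl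

lemma run_add (s a b : ℕ) :
    run xs ys ts s (a + b) = run xs ys ts (s + a) b ∘ run xs ys ts s a := by
  induction b with
  | zero => rfl
  | succ b ih =>
    rw [← add_assoc, run_succ, run_succ, ih, add_assoc]
    rfl

lemma run_zero (s n : ℕ) : run xs ys ts s n 0 = 0 := by
  induction n with
  | zero => rfl
  | succ n ih => rw [run_succ, Function.comp_apply, ih, tr_zero]

variable {xs ys ts}

lemma run_injective {s n : ℕ} (h : ∀ i < n, ts (s + i) ≠ 0) :
    Function.Injective (run xs ys ts s n) := by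
  induction n with
  | zero => exact Function.injective_id
  | succ n ih =>
    rw [run_succ]
    exact (tr_injective _ _ (h n n.lt_succ_self)).comp
      (ih fun i hi => h i (hi.trans n.lt_succ_self))

lemma run_eq_id [Finite F] {s a b : ℕ} (h : ∀ i < a, ts (s + i) ≠ 0)
    (he : run xs ys ts s (a + b) = run xs ys ts s a) : run xs ys ts (s + a) b = id := by
  have hs := Finite.injective_iff_surjective.1 (run_injective (xs := xs) (ys := ys) h)
  funext σ
  obtain ⟨τ, rfl⟩ := hs σ
  rw [run_add] at he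
  exact congrFun he τ

lemma run_congr {xs' ys' : ℕ → K → F} {ts' : ℕ → F} {s s' n : ℕ}
    (h : ∀ i < n, xs (s + i) = xs' (s' + i) ∧ ys (s + i) = ys' (s' + i) ∧
      ts (s + i) = ts' (s' + i)) : run xs ys ts s n = run xs' ys' ts' s' n := by
  induction n with
  | zero => rfl
  | succ n ih =>
    obtain ⟨h1, h2, h3⟩ := h n n.lt_succ_self
    rw [run_succ, run_succ, h1, h2, h3, ih fun i hi => h i (hi.trans n.lt_succ_self)]

end Run

namespace IDS

variable {E K : Type} [Fintype E] [Fintype K]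

/-- The state in front of the vertex number `j` of the segment. -/
def st (xs ys : ℕ → K → F) (ts : ℕ → F) (s n : ℕ) (u : ℕ → F) (Lx Rx : K → F) (a0 bn : F)
    (j : ℕ) : St F K :=
  (∑ i ∈ Finset.Ico j n, u i • ys (s + i) + Rx, Lx + ∑ i ∈ Finset.range j, u i • xs (s + i),
    if j = 0 then a0 else u (j - 1), if j = n then bn else ts (s + j) * u j)

lemma sum_seg {z : ℕ → E} {s n : ℕ} (hinj : ∀ i < n, ∀ j < n, z (s + i) = z (s + j) → i = j)
    {V : E → F} (hV : ∀ e, e ∉ {e | ∃ i < n, z (s + i) = e} → V e = 0) (f : E → F) :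
    ∑ e, f e * V e = ∑ i ∈ Finset.range n, f (z (s + i)) * V (z (s + i)) := by
  classical
  rw [← Finset.sum_image (s := Finset.range n) (g := fun i => z (s + i))
    (f := fun e => f e * V e) fun i hi j hj h =>
      hinj i (Finset.mem_range.1 hi) j (Finset.mem_range.1 hj) h]
  refine (Finset.sum_subset (Finset.subset_univ _) fun e _ he => ?_).symm
  rw [hV e, mul_zero]
  rintro ⟨i, hi, rfl⟩
  exact he (Finset.mem_image.2 ⟨i, Finset.mem_range.2 hi, rfl⟩)

omit [Fintype E] in
lemma row_sum {S : Matrix E E F} {x y : E → K → F} {z : ℕ → E} {t : ℕ → F} {s n : ℕ}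
    (hS : Skew S) (hd : ∀ u, S u u = 0)
    (h : ∀ i j, i < j → j < n → S (z (s + i)) (z (s + j)) =
      x (z (s + i)) ⬝ᵥ y (z (s + j)) + if j = i + 1 then t (s + j) else 0)
    (u : ℕ → F) {j : ℕ} (hj : j < n) :
    ∑ i ∈ Finset.range n, S (z (s + j)) (z (s + i)) * u i =
      -((∑ i ∈ Finset.range j, u i • x (z (s + i))) ⬝ᵥ y (z (s + j))) -
        (if j = 0 then 0 else t (s + j) * u (j - 1)) +
        x (z (s + j)) ⬝ᵥ (∑ i ∈ Finset.Ico (j + 1) n, u i • y (z (s + i))) +
        if j + 1 = n then 0 else t (s + (j + 1)) * u (j + 1) := by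
  rw [← Finset.sum_range_add_sum_Ico _ (Nat.succ_le_of_lt hj), Finset.sum_range_succ, hd,
    zero_mul, add_zero]
  have e1 : ∑ i ∈ Finset.range j, S (z (s + j)) (z (s + i)) * u i =
      -((∑ i ∈ Finset.range j, u i • x (z (s + i))) ⬝ᵥ y (z (s + j))) -
        (if j = 0 then 0 else t (s + j) * u (j - 1)) := by
    have e3 : (if j = 0 then 0 else t (s + j) * u (j - 1)) =
        ∑ i ∈ Finset.range j, if i = j - 1 then t (s + j) * u i else 0 := by
      rw [Finset.sum_ite_eq']
      by_cases h0 : j = 0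
      · simp [h0]
      · rw [if_neg h0, if_pos (Finset.mem_range.2 (by omega))]
    rw [e3, sum_dotProduct, ← Finset.sum_neg_distrib, ← Finset.sum_sub_distrib]
    refine Finset.sum_congr rfl fun i hi => ?_
    have hi' := Finset.mem_range.1 hi
    rw [hS, h i j hi' hj, smul_dotProduct, smul_eq_mul]
    by_cases hij : j = i + 1
    · rw [if_pos hij, if_pos (by omega)]
      ring
    · rw [if_neg hij, if_neg (by omega)]
      ring
  have e2 : ∑ i ∈ Finset.Ico (j + 1) n, S (z (s + j)) (z (s + i)) * u i =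
      x (z (s + j)) ⬝ᵥ (∑ i ∈ Finset.Ico (j + 1) n, u i • y (z (s + i))) +
        if j + 1 = n then 0 else t (s + (j + 1)) * u (j + 1) := by
    have e3 : (if j + 1 = n then 0 else t (s + (j + 1)) * u (j + 1)) =
        ∑ i ∈ Finset.Ico (j + 1) n, if i = j + 1 then t (s + i) * u i else 0 := by
      rw [Finset.sum_ite_eq']
      by_cases h0 : j + 1 = n
      · rw [if_pos h0, if_neg (by rw [Finset.mem_Ico]; omega)]
      · rw [if_neg h0, if_pos (Finset.mem_Ico.2 ⟨le_rfl, by omega⟩)]
    rw [e3, dotProduct_sum, ← Finset.sum_add_distrib]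
    refine Finset.sum_congr rfl fun i hi => ?_
    have hi' := Finset.mem_Ico.1 hi
    rw [h j i hi'.1 hi'.2, dotProduct_smul, smul_eq_mul]
    split_ifs <;> ring
  rw [e1, e2, add_assoc]

lemma st_run {xs ys : ℕ → K → F} {ts : ℕ → F} {s n : ℕ} {u : ℕ → F} {Lx Rx : K → F} {a0 bn : F}
    (ht : ∀ i < n, ts (s + i) ≠ 0)
    (h : ∀ j < n, -((∑ i ∈ Finset.range j, u i • xs (s + i)) ⬝ᵥ ys (s + j)) -
        (if j = 0 then 0 else ts (s + j) * u (j - 1)) +
        xs (s + j) ⬝ᵥ (∑ i ∈ Finset.Ico (j + 1) n, u i • ys (s + i)) +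
        (if j + 1 = n then 0 else ts (s + (j + 1)) * u (j + 1)) +
        (-(Lx ⬝ᵥ ys (s + j) + if j = 0 then ts s * a0 else 0) +
          (xs (s + j) ⬝ᵥ Rx + if j + 1 = n then bn else 0)) = 0) :
    ∀ j ≤ n, run xs ys ts s j (st xs ys ts s n u Lx Rx a0 bn 0) =
      st xs ys ts s n u Lx Rx a0 bn j := by
  intro j
  induction j with
  | zero => exact fun _ => rfl
  | succ j ih =>
    intro hj
    have hj' : j < n := hj
    rw [run_succ, Function.comp_apply, ih hj'.le]
    have e1 : ts (s + j) * u j / ts (s + j) = u j := mul_div_cancel_left₀ _ (ht j hj')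
    have e2 : ∑ i ∈ Finset.Ico j n, u i • ys (s + i) + Rx - u j • ys (s + j) =
        ∑ i ∈ Finset.Ico (j + 1) n, u i • ys (s + i) + Rx := by
      rw [Finset.sum_eq_sum_Ico_succ_bot hj']
      abel
    have e3 := h j hj'
    simp only [tr, st, if_neg hj'.ne, e1, e2, Finset.sum_range_succ, add_assoc,
      if_neg (Nat.succ_ne_zero j), Nat.add_sub_cancel, Prod.mk.injEq, true_and]
    rw [add_dotProduct, dotProduct_add]
    by_cases h0 : j = 0
    · subst h0
      simp only [if_true, add_zero] at e3 ⊢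
      split_ifs at e3 ⊢ <;> linear_combination -e3
    · simp only [if_neg h0] at e3 ⊢
      split_ifs at e3 ⊢ <;> linear_combination -e3

/-- What the identity transfer says about a solution on the segment. -/
lemma core {S : Matrix E E F} {x y : E → K → F} {z : ℕ → E} {t : ℕ → F} {s n : ℕ}
    (hS : Skew S) (hd : ∀ u, S u u = 0) (hn : 1 ≤ n)
    (hinj : ∀ i < n, ∀ j < n, z (s + i) = z (s + j) → i = j) (ht : ∀ i < n, t (s + i) ≠ 0)
    (h : ∀ i j, i < j → j < n → S (z (s + i)) (z (s + j)) =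
      x (z (s + i)) ⬝ᵥ y (z (s + j)) + if j = i + 1 then t (s + j) else 0)
    (hid : run (fun j => x (z j)) (fun j => y (z j)) t s n = id) {V : E → F}
    (hV : ∀ e, e ∉ {e | ∃ i < n, z (s + i) = e} → V e = 0) (Lx Rx : K → F) (a0 bn : F)
    (heq : ∀ j < n, (S *ᵥ V) (z (s + j)) +
      (-(Lx ⬝ᵥ y (z (s + j)) + if j = 0 then t s * a0 else 0) +
        (x (z (s + j)) ⬝ᵥ Rx + if j + 1 = n then bn else 0)) = 0) :
    (∀ (p : K → F) (c : F), ∑ i ∈ Finset.range n,
      (p ⬝ᵥ y (z (s + i)) + if i = 0 then t s * c else 0) * V (z (s + i)) = c * bn) ∧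
    (∀ (p : K → F) (c : F), ∑ i ∈ Finset.range n,
      (x (z (s + i)) ⬝ᵥ p + if i + 1 = n then c else 0) * V (z (s + i)) = c * a0) ∧
    (Lx = 0 → Rx = 0 → a0 = 0 → bn = 0 → V = 0) := by
  have hr := st_run (xs := fun j => x (z j)) (ys := fun j => y (z j)) (ts := t) (s := s) (n := n)
    (u := fun i => V (z (s + i))) (Lx := Lx) (Rx := Rx) (a0 := a0) (bn := bn) ht fun j hj => by
      have := heq j hj
      rwa [mulVec, dotProduct, sum_seg hinj hV, row_sum hS hd h (fun i => V (z (s + i))) hj] at this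
  have h0 := hr n le_rfl
  rw [hid] at h0
  have hn0 : n ≠ 0 := by omega
  simp only [st, id, Prod.mk.injEq, Finset.Ico_self, Finset.sum_empty, Finset.range_zero, if_true,
    if_neg hn0, if_neg hn0.symm, add_zero, zero_add, add_eq_right, left_eq_add,
    ← Finset.range_eq_Ico] at h0
  obtain ⟨h1, h2, h3, h4⟩ := h0
  refine ⟨fun p c => ?_, fun p c => ?_, fun e1 e2 e3 e4 => ?_⟩
  · have e1 : ∀ i, (p ⬝ᵥ y (z (s + i)) + if i = 0 then t s * c else 0) * V (z (s + i)) =
        p ⬝ᵥ (V (z (s + i)) • y (z (s + i))) + if i = 0 then c * (t s * V (z (s + i))) else 0 := by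
      intro i
      rw [dotProduct_smul, smul_eq_mul]
      split_ifs <;> ring
    simp only [e1]
    rw [Finset.sum_add_distrib, ← dotProduct_sum, h1, dotProduct_zero, zero_add,
      Finset.sum_ite_eq', if_pos (Finset.mem_range.2 (by omega)), add_zero, h4]
  · have e1 : ∀ i, (x (z (s + i)) ⬝ᵥ p + if i + 1 = n then c else 0) * V (z (s + i)) =
        (V (z (s + i)) • x (z (s + i))) ⬝ᵥ p + if i = n - 1 then c * V (z (s + i)) else 0 := by
      intro i
      rw [smul_dotProduct, smul_eq_mul]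
      by_cases hi : i + 1 = n
      · rw [if_pos hi, if_pos (by omega)]
        ring
      · rw [if_neg hi, if_neg (by omega)]
        ring
    simp only [e1]
    rw [Finset.sum_add_distrib, ← sum_dotProduct, h2, zero_dotProduct, zero_add,
      Finset.sum_ite_eq', if_pos (Finset.mem_range.2 (by omega)), h3]
  · subst e1 e2 e3 e4
    have hz : st (fun j => x (z j)) (fun j => y (z j)) t s n (fun i => V (z (s + i))) 0 0 0 0 0 =
        0 := by
      simp only [st, ← Finset.range_eq_Ico, h1, if_neg hn0.symm, add_zero, h4, Finset.range_zero,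
        Finset.sum_empty, if_true]
      rfl
    funext e
    by_cases he : e ∈ {e | ∃ i < n, z (s + i) = e}
    · obtain ⟨i, hi, rfl⟩ := he
      have := hr (i + 1) hi
      rw [hz, run_zero] at this
      have h5 := congrArg (fun σ : St F K => σ.2.2.1) this
      simpa [st] using h5.symm
    · exact hV e he

end IDS

theorem idl [Fintype F] : IDL F := by
  classical
  intro E K _ _ S x y z t s n Λ Ω α β hS hd hn hinj hout ht h hΛ hΩ hdis hid
  set Z : Set E := {e | ∃ i < n, z (s + i) = e} with hZ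
  have hnd : ¬Dep S Z Z := by
    rintro ⟨V, hV0, hV1, hV2⟩
    refine hV0 ((IDS.core hS hd hn hinj ht h hid hV1 0 0 0 0 fun j hj => ?_).2.2 rfl rfl rfl rfl)
    rw [hV2 _ ⟨j, hj, rfl⟩]
    simp
  obtain ⟨S', hp⟩ := exists_isPiv hnd
  have hZΛ : ∀ w ∈ Λ, w ∉ Z := by
    rintro w hw ⟨i, hi, rfl⟩
    exact (hout i hi).1 hw
  have hZΩ : ∀ w ∈ Ω, w ∉ Z := by
    rintro w hw ⟨i, hi, rfl⟩
    exact (hout i hi).2 hw
  have key : ∀ w, w ∉ Z → ∃ V : E → F, (∀ e, e ∉ Z → V e = 0) ∧
      (∀ e ∈ Z, (S *ᵥ V) e + S e w = 0) ∧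
      ∀ p, p ∉ Z → S' p w = S p w + ∑ i ∈ Finset.range n, S p (z (s + i)) * V (z (s + i)) := by
    intro w hw
    have h1 := hp.solve (Pi.single w 1)
    set V : E → F := Z.piecewise (S' *ᵥ Pi.single w 1) 0 with hV
    have hV0 : ∀ e, e ∉ Z → V e = 0 := fun e he => by
      rw [hV, Set.piecewise_eq_of_notMem _ _ _ he, Pi.zero_apply]
    have h2 : Z.piecewise (S' *ᵥ Pi.single w 1) (Pi.single w 1) = V + Pi.single w 1 := by
      funext e
      by_cases he : e ∈ Z
      · rw [Pi.add_apply, hV, Set.piecewise_eq_of_mem _ _ _ he, Set.piecewise_eq_of_mem _ _ _ he,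
          Pi.single_eq_of_ne (by rintro rfl; exact hw he), add_zero]
      · rw [Pi.add_apply, hV0 e he, Set.piecewise_eq_of_notMem _ _ _ he, zero_add]
    have h3 : Z.piecewise (Pi.single w 1) (S' *ᵥ Pi.single w 1) =
        S *ᵥ V + S *ᵥ Pi.single w 1 := by
      rw [← mulVec_add, ← h2]
      have e : ∀ (D D' : ∀ j, Decidable (j ∈ Z)) (f g : E → F),
          @Set.piecewise _ _ Z f g D = @Set.piecewise _ _ Z f g D' := fun D D' f g => by
        rw [Subsingleton.elim D D']
      exact (e _ _ _ _).trans (h1.trans (congrArg _ (e _ _ _ _)))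
    refine ⟨V, hV0, fun e he => ?_, fun p hp' => ?_⟩
    · have := congrFun h3 e
      rw [Set.piecewise_eq_of_mem _ _ _ he, Pi.single_eq_of_ne (by rintro rfl; exact hw he),
        Pi.add_apply, mulVec_single_one] at this
      exact this.symm
    · have := congrFun h3 p
      rw [Set.piecewise_eq_of_notMem _ _ _ hp', Pi.add_apply, mulVec_single_one,
        mulVec_single_one, mulVec, dotProduct, IDS.sum_seg hinj hV0] at this
      rw [add_comm]
      exact this
  have keyΛ : ∀ w ∈ Λ, ∀ p ∈ Λ, S' p w = S p w := by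
    intro w hw p hp'
    obtain ⟨V, hV0, hV1, hV2⟩ := key w (hZΛ w hw)
    have hc := (IDS.core hS hd hn hinj ht h hid hV0 (x w) 0 (α w) 0 fun j hj => by
      have := hV1 _ ⟨j, hj, rfl⟩
      rw [hS (z (s + j)) w, hΛ w hw j hj] at this
      simpa using this).1 (x p) (α p)
    rw [hV2 p (hZΛ p hp'), Finset.sum_congr rfl fun i hi => by
      rw [hΛ p hp' i (Finset.mem_range.1 hi)], hc, mul_zero, add_zero]
  have keyΩ : ∀ w ∈ Ω, (∀ p ∈ Λ, S' p w = S p w + α p * β w) ∧ ∀ p ∈ Ω, S' p w = S p w := by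
    intro w hw
    obtain ⟨V, hV0, hV1, hV2⟩ := key w (hZΩ w hw)
    have hc := IDS.core hS hd hn hinj ht h hid hV0 0 (y w) 0 (β w) fun j hj => by
      have := hV1 _ ⟨j, hj, rfl⟩
      rw [hΩ w hw j hj] at this
      simpa using this
    refine ⟨fun p hp' => ?_, fun p hp' => ?_⟩
    · rw [hV2 p (hZΛ p hp'), Finset.sum_congr rfl fun i hi => by
        rw [hΛ p hp' i (Finset.mem_range.1 hi)], hc.1 (x p) (α p)]
    · rw [hV2 p (hZΩ p hp'), Finset.sum_congr rfl fun i hi => by
        rw [hS p (z (s + i)), hΩ p hp' i (Finset.mem_range.1 hi), neg_mul],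
        Finset.sum_neg_distrib, hc.2.1 (y p) (β p), mul_zero, neg_zero, add_zero]
  exact ⟨S', hp, fun u hu v hv => keyΛ v hv u hu, fun u hu v hv => (keyΩ v hv).2 u hu,
    fun u hu w hw => (keyΩ w hw).1 u hu⟩

namespace IDS

variable {E K : Type} [Fintype E] [Fintype K]

/-- The path without the vertices `s, …, s + n - 1`. -/
def skip (v : ℕ → E) (s n j : ℕ) : E := if j < s then v j else v (j + n)

/-- The link into the vertex number `j`. -/
def lk (S : Matrix E E F) (kk : K → E) (X : E → K → F) (v : ℕ → E) (j : ℕ) : F :=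
  nat S kk X (v (j - 1)) (v j)

/-- One segment with trivial transfer is removed. -/
lemma cut_seg [Fintype F] (h : IDL F) {S : Matrix E E F} {kk : K → E} {X : E → K → F}
    {Q Ω : Set E} {v : ℕ → E} {len s n : ℕ} (hS : Skew S) (hd : ∀ u, S u u = 0)
    (hQΩ : Disjoint Q Ω) (hk : ∀ r, kk r ∈ Q) (hP : PS S kk X Q Ω v len) (hs : 1 ≤ s) (hn : 1 ≤ n)
    (he : s + n < len)
    (hid : run (fun j => X (v j)) (fun j => yv S kk (v j)) (lk S kk X v) s n = id) :
    ∃ S', IsPiv S S' {e | ∃ i < n, v (s + i) = e} ∧ PS S' kk X Q Ω (skip v s n) (len - n) ∧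
      AgreeOn (Q ∪ Ω) S S' ∧ (∀ u ∈ Q, S' u (v 0) = S u (v 0)) ∧
      ∀ w ∈ Ω, S' (v (len - 1)) w = S (v (len - 1)) w := by
  classical
  set Λ : Set E := Q ∪ {e | ∃ j < s, v j = e} with hΛ
  set Ω' : Set E := Ω ∪ {e | ∃ j, s + n ≤ j ∧ j < len ∧ v j = e} with hΩ'
  set α : E → F := fun e => if e = v (s - 1) then 1 else 0 with hα
  set β : E → F := fun e => nat S kk X (v (s + n - 1)) e with hβ
  have hnat : ∀ u w, S u w = X u ⬝ᵥ yv S kk w + nat S kk X u w := fun u w => by
    rw [nat]
    ring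
  have αQ : ∀ u ∈ Q, α u = 0 := fun u hu => by
    refine if_neg ?_
    rintro rfl
    exact hP.notQ _ (by omega) hu
  have αv : ∀ j, j + 1 < s → α (v j) = 0 := fun j hj => by
    refine if_neg fun e => ?_
    have := hP.inj j (by omega) (s - 1) (by omega) e
    omega
  have βΩ : ∀ w ∈ Ω, β w = 0 := fun w hw => hP.right _ (by omega) w hw
  have mΛ : ∀ j < s, v j ∈ Λ := fun j hj => Or.inr ⟨j, hj, rfl⟩
  have mΩ : ∀ j, s + n ≤ j → j < len → v j ∈ Ω' := fun j h1 h2 => Or.inr ⟨j, h1, h2, rfl⟩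
  obtain ⟨S', hp, aΛ, aΩ, aX⟩ := h E K S X (yv S kk) v (lk S kk X v) s n Λ Ω' α β hS hd hn
    (fun i hi j hj e => by
      have := hP.inj _ (by omega) _ (by omega) e
      omega)
    (fun i hi => by
      constructor
      · rintro (h1 | ⟨j, hj, e⟩)
        · exact hP.notQ _ (by omega) h1
        · have := hP.inj _ (by omega) _ (by omega) e
          omega
      · rintro (h1 | ⟨j, hj, hj', e⟩)
        · exact hP.notO _ (by omega) h1
        · have := hP.inj _ (by omega) _ (by omega) e
          omega)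
    (fun i hi => by
      have := hP.link (s + i - 1) (by omega)
      rwa [show s + i - 1 + 1 = s + i by omega] at this)
    (fun i j hij hj => by
      rw [hnat]
      congr 1
      split_ifs with e
      · subst e
        rfl
      · exact hP.chord _ _ (by omega) (by omega))
    (fun w hw j hj => by
      rw [hnat]
      congr 1
      rcases hw with hw | ⟨i, hi, rfl⟩
      · rw [αQ w hw, mul_zero, ite_self]
        exact hP.left w hw _ (by omega) (by omega)
      · split_ifs with e
        · subst e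
          by_cases e2 : i + 1 = s
          · have e3 : i = s - 1 := by omega
            subst e3
            simp only [hα, if_true, mul_one]
            rfl
          · rw [αv i (by omega), mul_zero]
            exact hP.chord _ _ (by omega) (by omega)
        · exact hP.chord _ _ (by omega) (by omega))
    (fun w hw j hj => by
      rw [hnat]
      congr 1
      split_ifs with e
      · rw [show s + j = s + n - 1 by omega]
      · rcases hw with hw | ⟨i, hi, hi', rfl⟩
        · exact hP.right _ (by omega) w hw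
        · exact hP.chord _ _ (by omega) hi')
    (by
      rw [Set.disjoint_left]
      rintro e (h1 | ⟨j, hj, rfl⟩) (h2 | ⟨j', h3, h4, e'⟩)
      · exact Set.disjoint_left.1 hQΩ h1 h2
      · exact hP.notQ j' h4 (e' ▸ h1)
      · exact hP.notO j (by omega) h2
      · have := hP.inj _ h4 _ (by omega) e'
        omega) hid
  have hy : ∀ w ∈ Λ ∪ Ω', yv S' kk w = yv S kk w := by
    intro w hw
    funext r
    rcases hw with hw | hw
    · exact aΛ _ (Or.inl (hk r)) w hw
    · rw [yv, aX _ (Or.inl (hk r)) w hw, αQ _ (hk r), zero_mul, add_zero]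
      rfl
  have nΛ : ∀ u ∈ Λ, ∀ w ∈ Λ, nat S' kk X u w = nat S kk X u w := fun u hu w hw => by
    rw [nat, nat, hy w (Or.inl hw), aΛ u hu w hw]
  have nΩ : ∀ u ∈ Ω', ∀ w ∈ Ω', nat S' kk X u w = nat S kk X u w := fun u hu w hw => by
    rw [nat, nat, hy w (Or.inr hw), aΩ u hu w hw]
  have nX : ∀ u ∈ Λ, ∀ w ∈ Ω', nat S' kk X u w = nat S kk X u w + α u * β w := fun u hu w hw => by
    rw [nat, nat, hy w (Or.inr hw), aX u hu w hw]
    ring
  have s1 : ∀ j < s, skip v s n j = v j := fun j hj => if_pos hj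
  have s2 : ∀ j, s ≤ j → skip v s n j = v (j + n) := fun j hj => if_neg (by omega)
  refine ⟨S', hp, ⟨fun i hi j hj e => ?_, fun j hj => ?_, fun j hj => ?_, fun u hu j h1 hj => ?_,
    fun j hj w hw => ?_, fun i j hij hj => ?_, fun j hj => ?_⟩, ?_,
    fun u hu => aΛ u (Or.inl hu) _ (mΛ 0 hs),
    fun w hw => aΩ _ (mΩ _ (by omega) (by omega)) w (Or.inl hw)⟩
  · unfold skip at e
    split_ifs at e <;>
    · have := hP.inj _ (by omega) _ (by omega) e
      omega
  · unfold skip
    split_ifs <;> exact hP.notQ _ (by omega)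
  · unfold skip
    split_ifs <;> exact hP.notO _ (by omega)
  · rcases lt_or_ge j s with h2 | h2
    · rw [s1 j h2, nΛ u (Or.inl hu) _ (mΛ j h2)]
      exact hP.left u hu j h1 (by omega)
    · rw [s2 j h2, nX u (Or.inl hu) _ (mΩ _ (by omega) (by omega)), αQ u hu, zero_mul, add_zero]
      exact hP.left u hu _ (by omega) (by omega)
  · rcases lt_or_ge j s with h2 | h2
    · rw [s1 j h2, nX _ (mΛ j h2) w (Or.inl hw), βΩ w hw, mul_zero, add_zero]
      exact hP.right j (by omega) w hw
    · rw [s2 j h2, nΩ _ (mΩ _ (by omega) (by omega)) w (Or.inl hw)]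
      exact hP.right _ (by omega) w hw
  · rcases lt_or_ge j s with h2 | h2
    · rw [s1 j h2, s1 i (by omega), nΛ _ (mΛ i (by omega)) _ (mΛ j h2)]
      exact hP.chord i j hij (by omega)
    · rcases lt_or_ge i s with h3 | h3
      · rw [s1 i h3, s2 j h2, nX _ (mΛ i h3) _ (mΩ _ (by omega) (by omega)),
          hP.chord i (j + n) (by omega) (by omega), zero_add]
        by_cases h4 : i + 1 < s
        · rw [αv i h4, zero_mul]
        · rw [show β (v (j + n)) = 0 from hP.chord _ _ (by omega) (by omega), mul_zero]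
      · rw [s2 i h3, s2 j h2, nΩ _ (mΩ _ (by omega) (by omega)) _ (mΩ _ (by omega) (by omega))]
        exact hP.chord _ _ (by omega) (by omega)
  · rcases lt_or_ge (j + 1) s with h2 | h2
    · rw [s1 _ h2, s1 j (by omega), nΛ _ (mΛ j (by omega)) _ (mΛ _ h2)]
      exact hP.link j (by omega)
    · rcases lt_or_ge j s with h3 | h3
      · rw [s1 j h3, s2 _ h2, nX _ (mΛ j h3) _ (mΩ _ (by omega) (by omega)),
          hP.chord j (j + 1 + n) (by omega) (by omega), zero_add,
          show α (v j) = 1 from if_pos (by rw [show j = s - 1 by omega]), one_mul,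
          show j + 1 + n = s + n - 1 + 1 by omega]
        exact hP.link _ (by omega)
      · rw [s2 j h3, s2 _ h2, nΩ _ (mΩ _ (by omega) (by omega)) _ (mΩ _ (by omega) (by omega)),
          show j + 1 + n = j + n + 1 by omega]
        exact hP.link _ (by omega)
  · have hX : ∀ u ∈ Q, ∀ w ∈ Ω, S' u w = S u w := fun u hu w hw => by
      rw [aX u (Or.inl hu) w (Or.inl hw), αQ u hu, zero_mul, add_zero]
    rintro u (hu | hu) w (hw | hw)
    · exact aΛ u (Or.inl hu) w (Or.inl hw)
    · exact hX u hu w hw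
    · rw [hp.skew hS u w, hS u w, hX w hw u hu]
    · exact aΩ u (Or.inl hu) w (Or.inl hw)

end IDS

theorem shrink [Fintype F] (h : IDL F) : SHRINK F := by
  classical
  intro K _
  let _ : Fintype (St F K → St F K) := Fintype.ofFinite _
  refine ⟨Fintype.card ((St F K → St F K) × (St F K → St F K)) + 2, ?_⟩
  intro E ι _ col S i1 i2 kk X Q Ω v len hF hQΩ hk
  induction len using Nat.strong_induction_on generalizing col S v with
  | _ len ih =>
  intro hlen hP
  by_cases hle : len ≤ Fintype.card ((St F K → St F K) × (St F K → St F K)) + 2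
  · exact ⟨∅, S, v, len, fun i => isPiv_empty _, fun e he => he.elim, hlen, hle, rfl, rfl,
      fun j hj => ⟨id, j, hj, rfl⟩,
      fun i hi => ⟨hP i hi, fun _ _ _ _ => rfl, fun _ _ => rfl, fun _ _ => rfl⟩⟩
  set R : ι → ℕ → ℕ → St F K → St F K := fun i =>
    run (fun j => X i (v j)) (fun j => yv (S i) kk (v j)) (IDS.lk (S i) kk (X i) v) with hR
  obtain ⟨a, n, hn, han, e1, e2⟩ : ∃ a n, 1 ≤ n ∧ 1 + a + n < len ∧
      R i1 1 (a + n) = R i1 1 a ∧ R i2 1 (a + n) = R i2 1 a := by
    obtain ⟨a, b, hab, e⟩ := Fintype.exists_ne_map_eq_of_card_lt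
      (fun a : Fin (len - 1) => (R i1 1 a, R i2 1 a)) (by rw [Fintype.card_fin]; omega)
    rw [Prod.mk.injEq] at e
    have ha := a.2
    have hb := b.2
    rcases lt_or_gt_of_ne (Fin.val_ne_of_ne hab) with hlt | hlt
    · refine ⟨a, b - a, by omega, by omega, ?_⟩
      rw [show a.val + (b.val - a.val) = b.val by omega]
      exact ⟨e.1.symm, e.2.symm⟩
    · refine ⟨b, a - b, by omega, by omega, ?_⟩
      rw [show b.val + (a.val - b.val) = a.val by omega]
      exact e
  have hcut : ∀ i, i = i1 ∨ i = i2 → ∃ S', IsPiv (S i) S' {e | ∃ j < n, v (1 + a + j) = e} ∧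
      PS S' kk (X i) Q Ω (IDS.skip v (1 + a) n) (len - n) ∧ AgreeOn (Q ∪ Ω) (S i) S' ∧
      (∀ u ∈ Q, S' u (v 0) = S i u (v 0)) ∧
      ∀ w ∈ Ω, S' (v (len - 1)) w = S i (v (len - 1)) w := by
    intro i hi
    refine IDS.cut_seg h (hF.skew i) (hF.diag i) hQΩ hk (hP i hi) (by omega) hn han
      (run_eq_id (fun j hj => ?_) ?_)
    · have := (hP i hi).link j (by omega)
      rwa [IDS.lk, show 1 + j - 1 = j by omega, add_comm 1 j]
    · rcases hi with rfl | rfl
      · exact e1
      · exact e2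
  set Z : Set E := {e | ∃ j < n, v (1 + a + j) = e} with hZ
  obtain ⟨S1, hS1, -⟩ := hcut i1 (Or.inl rfl)
  obtain ⟨A, hA⟩ := hF.exists_piv hS1.not_dep
  have hcut' : ∀ i, i = i1 ∨ i = i2 →
      PS (A i) kk (X i) Q Ω (IDS.skip v (1 + a) n) (len - n) ∧ AgreeOn (Q ∪ Ω) (S i) (A i) ∧
      (∀ u ∈ Q, A i u (v 0) = S i u (v 0)) ∧
      ∀ w ∈ Ω, A i (v (len - 1)) w = S i (v (len - 1)) w := by
    intro i hi
    obtain ⟨S', h1, h2⟩ := hcut i hi
    rwa [(hA i).unique h1]
  obtain ⟨Z2, S2, v', len', p1, p2, p3, p4, p5, p6, p7, p8⟩ := ih (len - n) (by omega)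
    (colFlip col Z) A (IDS.skip v (1 + a) n) (hF.piv hA) (by omega) fun i hi => (hcut' i hi).1
  have q0 : IDS.skip v (1 + a) n 0 = v 0 := if_pos (by omega)
  have q1 : IDS.skip v (1 + a) n (len - n - 1) = v (len - 1) := by
    rw [IDS.skip, if_neg (by omega), show len - n - 1 + n = len - 1 by omega]
  rw [q0] at p5 p8
  rw [q1] at p6 p8
  have hinj := (hP i1 (Or.inl rfl)).inj
  refine ⟨symmDiff Z Z2, S2, v', len', fun i => (hA i).comp (p1 i), fun e he => ?_, p3, p4, p5, p6,
    fun j hj => ?_, fun i hi => ?_⟩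
  · rcases Set.symmDiff_subset_union he with ⟨j, hj, rfl⟩ | he
    · exact ⟨_, by omega, by omega, rfl⟩
    · obtain ⟨j, h1, h2, rfl⟩ := p2 e he
      unfold IDS.skip
      split_ifs
      · exact ⟨j, h1, by omega, rfl⟩
      · exact ⟨j + n, by omega, by omega, rfl⟩
  · obtain ⟨h1, j', hj', h2⟩ := p7 j hj
    have h3 : ∃ j'' < len, (j'' < 1 + a ∨ 1 + a + n ≤ j'') ∧ v' j = v j'' := by
      rw [h2]
      unfold IDS.skip
      split_ifs with h4
      · exact ⟨j', by omega, Or.inl h4, rfl⟩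
      · exact ⟨j' + n, by omega, Or.inr (by omega), rfl⟩
    obtain ⟨j'', h4, h5, h6⟩ := h3
    refine ⟨fun he => ?_, j'', h4, h6⟩
    rcases Set.symmDiff_subset_union he with ⟨i, hi, e⟩ | he
    · have := hinj _ (by omega) _ h4 (e.trans h6)
      omega
    · exact h1 he
  · obtain ⟨r1, r2, r3, r4⟩ := p8 i hi
    obtain ⟨-, t2, t3, t4⟩ := hcut' i hi
    exact ⟨r1, t2.trans r2, fun u hu => (r3 u hu).trans (t3 u hu),
      fun w hw => (r4 w hw).trans (t4 w hw)⟩

end Pool.Agent.MP_d99b12_co.H25
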