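import Pool.Agent.MP_d99b12_co.H25.Spec
import Pool.Agent.MP_d99b12_co.H25.ChainB

/-! # The first chain: a sunflower of witnesses, made homogeneous -/

namespace Pool.Agent.MP_d99b12_co.H25

open Matrix Sum

namespace INIT

/-- Sunflowers in a sequence of small sets. -/
lemma flower (k n : ℕ) : ∃ N, ∀ (E : Type) (W : Fin N → Finset E), (∀ i, (W i).card ≤ k) →
    ∃ g : Fin n ↪o Fin N, (∀ i j, (W (g i)).card = (W (g j)).card) ∧
      ∀ i j, i ≠ j → ∀ e ∈ W (g i), e ∈ W (g j) → ∀ l, e ∈ W (g l) := by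
  obtain ⟨N, hN⟩ := ramsey2 ((Fin k → Fin k → Prop) × Fin (k + 1)) (n + 1)
  refine ⟨N, fun E W hW => ?_⟩
  have hw : ∀ i, ∀ e ∈ W i, ∃ s : Fin k, (W i).toList[s.val]? = some e := by
    intro i e he
    obtain ⟨s, hs, h⟩ := List.getElem_of_mem (Finset.mem_toList.2 he)
    have h1 : s < k := by
      rw [Finset.length_toList] at hs
      exact hs.trans_le (hW i)
    exact ⟨⟨s, h1⟩, by rw [List.getElem?_eq_getElem hs, h]⟩
  obtain ⟨g, hg⟩ := hN fun i j => (fun s t => (W i).toList[s.val]? = (W j).toList[t.val]?,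
    ⟨(W i).card, Nat.lt_succ_of_le (hW i)⟩)
  have key : ∀ i j : Fin n, i < j → ∀ e ∈ W (g i.castSucc), e ∈ W (g j.castSucc) →
      ∀ l : Fin n, e ∈ W (g l.castSucc) := by
    intro i j hij e hi hj l
    obtain ⟨s, hs⟩ := hw _ e hi
    obtain ⟨t, ht⟩ := hw _ e hj
    have h0 : i.castSucc < j.castSucc := Fin.castSucc_lt_castSucc_iff.2 hij
    have h1 := congrFun (congrFun (congrArg Prod.fst
      (hg _ _ _ _ h0 (Fin.castSucc_lt_last i))) s) t
    have h2 := congrFun (congrFun (congrArg Prod.fst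
      (hg _ _ _ _ h0 (Fin.castSucc_lt_last l))) s) t
    simp only [eq_iff_iff] at h1 h2
    have h3 := (h2.1 (hs.trans ht.symm)).trans ((h1.1 (hs.trans ht.symm)).symm.trans hs)
    exact Finset.mem_toList.1 (List.mem_of_getElem? h3)
  refine ⟨Fin.castSuccOrderEmb.trans g, fun i j => ?_, fun i j hij e hi hj => ?_⟩
  · exact congrArg Fin.val (congrArg Prod.snd
      (hg _ _ _ _ (Fin.castSucc_lt_last i) (Fin.castSucc_lt_last j)))
  · rcases lt_or_gt_of_ne hij with h | h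
    · exact key i j h e hi hj
    · exact key j i h e hj hi

/-- Core and petals of a sunflower, enumerated. -/
lemma flower' (k n : ℕ) : ∃ N, ∀ (E : Type) (W : Fin N → Finset E), (∀ i, (W i).card ≤ k) →
    ∃ (a b : Fin (k + 1)) (g : Fin n ↪o Fin N) (kk : Fin a → E) (pp : Fin n → Fin b → E),
      Function.Injective (emb kk pp) ∧ ∀ i, ↑(W (g i)) ⊆ Set.range kk ∪ Set.range (pp i) := by
  classical
  obtain ⟨N, hN⟩ := flower k (n + 1)
  refine ⟨N, fun E W hW => ?_⟩
  obtain ⟨g, h1, h2⟩ := hN E W hW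
  obtain ⟨C, hC⟩ : ∃ C : Finset E, ∀ e, e ∈ C ↔ ∀ l, e ∈ W (g l) :=
    ⟨(W (g 0)).filter fun e => ∀ l, e ∈ W (g l), fun e => by
      rw [Finset.mem_filter]
      exact ⟨fun h => h.2, fun h => ⟨h 0, h⟩⟩⟩
  have h3 : ∀ l, C ⊆ W (g l) := fun l e he => (hC e).1 he l
  have h4 : ∀ l, (W (g l) \ C).card = (W (g 0) \ C).card := fun l => by
    rw [Finset.card_sdiff_of_subset (h3 l), Finset.card_sdiff_of_subset (h3 0), h1 l 0]
  refine ⟨⟨C.card, Nat.lt_succ_of_le ((Finset.card_le_card (h3 0)).trans (hW _))⟩,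
    ⟨(W (g 0) \ C).card, Nat.lt_succ_of_le ((Finset.card_le_card Finset.sdiff_subset).trans (hW _))⟩,
    Fin.castSuccOrderEmb.trans g, fun r => (C.equivFin.symm r).val,
    fun i p => ((Finset.equivFinOfCardEq (h4 i.castSucc)).symm p).val, ?_, fun i e he => ?_⟩
  · have h5 : ∀ (i : Fin n) p, ((Finset.equivFinOfCardEq (h4 i.castSucc)).symm p).val ∈
        W (g i.castSucc) ∧ ((Finset.equivFinOfCardEq (h4 i.castSucc)).symm p).val ∉ C :=
      fun i p => Finset.mem_sdiff.1 ((Finset.equivFinOfCardEq (h4 i.castSucc)).symm p).2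
    rintro (r | ⟨i, p⟩) (r' | ⟨j, q⟩) h <;> simp only [emb, Sum.elim_inl, Sum.elim_inr] at h
    · rw [C.equivFin.symm.injective (Subtype.ext h)]
    · exact absurd (h ▸ (C.equivFin.symm r).2) (h5 j q).2
    · exact absurd (h ▸ (C.equivFin.symm r').2) (h5 i p).2
    · obtain rfl : i = j := by
        by_contra hij
        exact (h5 i p).2 ((hC _).2 (h2 _ _ (fun h' => hij (Fin.castSucc_injective _ h')) _
          (h5 i p).1 (h ▸ (h5 j q).1)))
      rw [(Finset.equivFinOfCardEq (h4 i.castSucc)).symm.injective (Subtype.ext h)]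
  · by_cases hc : e ∈ C
    · exact Or.inl ⟨C.equivFin ⟨e, hc⟩, by simp⟩
    · exact Or.inr ⟨Finset.equivFinOfCardEq (h4 i.castSucc) ⟨e, Finset.mem_sdiff.2 ⟨he, hc⟩⟩,
        by simp⟩

variable {F : Type} [Field F]

lemma equivOn_scale {E : Type} (W : Set E) (M : Matrix E E F) (c : E → Fˣ) :
    EquivOn W M (scale c M) := ⟨c, fun _ _ _ _ => rfl⟩

/-- A chain whose first member is not equivalent to the last one on the core and the first petal
is deviant. -/
lemma devD {E K P : Type} [Fintype E] [Fintype K] [Fintype P] {n : ℕ} {d : Datum F K P}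
    {col : E → Bool} {S : Fin (n + 1 + 1) → Matrix E E F} {kk : K → E} {pp : Fin (n + 1) → P → E}
    (hf : Fam col S) (h : IsChain d col S kk pp)
    (hd : ¬EquivOn (Set.range kk ∪ Set.range (pp 0)) (S (Fin.last _)) (S (Fin.castSucc 0))) :
    d.DevD Set.univ := by
  rw [Datum.devD_iff]
  by_contra h0
  have h1 := h.pair_false (i := Fin.last _) (j := 0) (by simp)
  have h2 := h.pair_true 0
  have h3 := equivOn_of_not_devP (M := d.pair false) (M' := d.pair true)
    (by rw [h1]; exact fun u v => hf.skew _ _ _) (by rw [h2]; exact fun u v => hf.skew _ _ _)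
    (by rintro _ ⟨k, rfl⟩ _ ⟨k', rfl⟩; rfl) h0
  rw [h1, h2, equivOn_submatrix_iff (h.elim_inj 0)] at h3
  refine hd (h3.mono ?_)
  rintro _ (⟨k, rfl⟩ | ⟨p, rfl⟩)
  · exact ⟨inl k, Or.inl ⟨k, rfl⟩, rfl⟩
  · exact ⟨inr p, Or.inr ⟨p, trivial, rfl⟩, rfl⟩

end INIT

variable {F : Type} [Field F] [Fintype F]

theorem init {m : ℕ} (hs : START F m) (hh : HOM F) : INIT F m := by
  intro hM
  have key : ∀ n, ∃ x : Σ ab : Fin 11 × Fin 11,
      Datum F (Fin ab.1 ⊕ Fin ab.2 ⊕ Fin ab.2) (Fin ab.2),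
      RealN m n x.2 ∧ x.2.Ref ∧ x.2.DevD Set.univ := by
    intro n
    choose N1 hN1 using fun ab : Fin 11 × Fin 11 => hh (Fin ab.1) (Fin ab.2) (n + 1)
    obtain ⟨N2, hN2⟩ := INIT.flower' 10 (Finset.univ.sup N1)
    obtain ⟨N3, hN3⟩ := hs N2
    obtain ⟨E, _, col, S, hF, hC, hI⟩ : ∃ (E : Type) (_ : Fintype E) (col : E → Bool)
        (S : Fin N3 → Matrix E E F), Fam col S ∧ (∀ i, Conn m (S i)) ∧
        ∀ i j, i ≠ j → ¬EquivOn Set.univ (S i) (S j) := by
      by_contra h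
      refine hM ⟨N3, fun E _ col S h1 h2 => ?_⟩
      by_contra h3
      exact h ⟨E, inferInstance, col, S, h1, h2, fun i j hij h4 => h3 ⟨i, j, hij, h4⟩⟩
    obtain ⟨col', T, W, hF', hC', hW, hT⟩ := hN3 E col S hF hC hI
    obtain ⟨a, b, g, kk, pp, hinj, hsub⟩ := hN2 E W hW
    have hle : N1 (a, b) ≤ Finset.univ.sup N1 := Finset.le_sup (Finset.mem_univ _)
    have hinj' : Function.Injective (emb kk fun i => pp (Fin.castLE hle i)) := by
      have h1 : emb kk (fun i => pp (Fin.castLE hle i)) =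
          emb kk pp ∘ Sum.map id (Prod.map (Fin.castLE hle) id) := by
        ext (r | ⟨i, p⟩) <;> rfl
      rw [h1]
      exact hinj.comp (Function.injective_id.sumMap
        ((Fin.castLE_injective hle).prodMap Function.injective_id))
    obtain ⟨d, g2, i0, iR, c, -, -, -, -, hR, hch⟩ := hN1 (a, b) E col'
      (fun i => T (g (Fin.castLE hle i))) kk (fun i => pp (Fin.castLE hle i)) (hF'.reindex _) hinj'
    have hF2 := (hF'.reindex fun i => g (Fin.castLE hle (g2 i))).scale c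
    refine ⟨⟨(a, b), d⟩, RealN.mono ⟨E, inferInstance, col', _, _, _, hF2,
      fun i => (hC' _).scale _, hch⟩ n.le_succ, hR, INIT.devD hF2 hch fun h => ?_⟩
    have h1 : g (Fin.castLE hle (g2 (Fin.castSucc 0))) < g (Fin.castLE hle (g2 (Fin.last _))) :=
      g.strictMono ((Fin.strictMono_castLE hle) (g2.strictMono (Fin.castSucc_lt_last 0)))
    refine hT _ _ h1 ((((INIT.equivOn_scale _ _ _).trans h).trans
      (INIT.equivOn_scale _ _ _).symm).mono ((hsub _).trans ?_))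
    rintro _ (⟨k, rfl⟩ | ⟨p, rfl⟩)
    · exact Or.inl ⟨inl k, rfl⟩
    · exact Or.inr ⟨p, rfl⟩
  obtain ⟨x, hx⟩ := finite_antitone _ (fun _ _ _ hn h => ⟨h.1.mono hn, h.2⟩) key
  exact ⟨_, _, inferInstance, inferInstance, x.2, fun n => (hx n).1, (hx 0).2⟩

end Pool.Agent.MP_d99b12_co.H25
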