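import Pool.Agent.MP_d99b12_co.H25.Spec3

/-! # Linking by augmenting walks -/

namespace Pool.Agent.MP_d99b12_co.H25

open Matrix

namespace Link

set_option linter.unusedSectionVars false

variable {F : Type} [Field F] {E ι K : Type} [Fintype E] [Fintype K]

/-- On the columns `Y` the row `u` is a linear function of the core vectors. -/
def Sp (S : Matrix E E F) (kk : K → E) (Y : Set E) (u : E) : Prop :=
  ∃ l : (K → F) →ₗ[F] F, ∀ b ∈ Y, S u b = l (yv S kk b)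

/-- The span of the core vectors of `N`. -/
def Ph (S : Matrix E E F) (kk : K → E) (N : Set E) : Submodule F (K → F) :=
  Submodule.span F (yv S kk '' N)

/-- Some row next to `w` is not spanned on `Y`. -/
def Hit (col : E → Bool) (S : Matrix E E F) (kk : K → E) (Fa : Set E) (c : Bool) (Y : Set E)
    (w : E) : Prop := ∃ x ∈ Fa, col x = c ∧ S x w ≠ 0 ∧ ¬Sp S kk Y x

def Start (col : E → Bool) (S : Matrix E E F) (kk : K → E) (Fa N : Set E) (c : Bool) : Set E :=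
  {w | (w ∈ Fa ∧ col w ≠ c) ∧ yv S kk w ∉ Ph S kk N}

def Stop (col : E → Bool) (S : Matrix E E F) (kk : K → E) (Fa N : Set E) (c : Bool) : Set E :=
  {w | Hit col S kk Fa c N w}

def Rel (col : E → Bool) (S : Matrix E E F) (kk : K → E) (Fa N : Set E) (c : Bool) (w w' : E) :
    Prop := (w' ∈ Fa ∧ col w' ≠ c) ∧ Hit col S kk Fa c (insert w' N) w

variable {S S' : Matrix E E F} {kk : K → E} {N Y Y' : Set E} {u x w v : E} {μ : E → F}

lemma Sp.mono (h : Sp S kk Y u) (hY : Y' ⊆ Y) : Sp S kk Y' u :=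
  h.imp fun _ k b hb => k b (hY hb)

lemma mem_Ph (h : v ∈ N) : yv S kk v ∈ Ph S kk N := Submodule.subset_span ⟨v, h, rfl⟩

lemma eq_Ph {l l' : (K → F) →ₗ[F] F} (h : ∀ e ∈ N, l (yv S kk e) = l' (yv S kk e)) {t : K → F}
    (ht : t ∈ Ph S kk N) : l t = l' t :=
  LinearMap.eqOn_span (by rintro _ ⟨e, he, rfl⟩; exact h e he) ht

section Pivot

variable (hx : ¬Sp S kk N x) (hw : S x w ≠ 0) (hμ : ∀ e ∈ N, S x e = S x w * μ e)
  (hy : ∀ e ∈ N, yv S' kk e = yv S kk e - μ e • yv S kk w)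
include hx hw hμ hy

lemma w_mem : yv S kk w ∈ Ph S' kk N := by
  by_contra h
  obtain ⟨l, h1, h2⟩ := Submodule.exists_le_ker_of_notMem h
  refine hx ⟨(S x w / l (yv S kk w)) • l, fun e he => ?_⟩
  have h3 : l (yv S' kk e) = 0 := h2 (mem_Ph he)
  rw [hy e he, map_sub, map_smul, sub_eq_zero] at h3
  rw [LinearMap.smul_apply, h3, hμ e he, smul_eq_mul, smul_eq_mul]
  field_simp

lemma ph_le : Ph S kk N ≤ Ph S' kk N := Submodule.span_le.2 (by
  rintro _ ⟨e, he, rfl⟩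
  rw [← sub_add_cancel (yv S kk e) (μ e • yv S kk w), ← hy e he]
  exact add_mem (mem_Ph he) (Submodule.smul_mem _ _ (w_mem hx hw hμ hy)))

lemma ph_eq (h : yv S kk w ∈ Ph S kk N) : Ph S' kk N = Ph S kk N :=
  le_antisymm (Submodule.span_le.2 (by
    rintro _ ⟨e, he, rfl⟩
    rw [hy e he]
    exact sub_mem (mem_Ph he) (Submodule.smul_mem _ _ h))) (ph_le hx hw hμ hy)

/-- A row that is spanned before and after the pivot is spanned at `w`. -/
lemma sp_w (h : yv S kk w ∈ Ph S kk N) (hu : ∀ e ∈ N, S' u e = S u e - μ e * S u w)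
    {l : (K → F) →ₗ[F] F} (hl : ∀ e ∈ N, S u e = l (yv S kk e)) (h' : Sp S' kk N u) :
    S u w = l (yv S kk w) := by
  obtain ⟨l', hl'⟩ := h'
  have k : ∀ e ∈ N, (l' - l) (yv S kk e) = μ e * (l' (yv S kk w) - S u w) := fun e he => by
    have := hl' e he
    rw [hu e he, hl e he, hy e he, map_sub, map_smul, smul_eq_mul] at this
    rw [LinearMap.sub_apply]
    linear_combination -this
  by_cases c : l' (yv S kk w) - S u w = 0
  · have := eq_Ph (l' := 0) (fun e he => by rw [k e he, c, mul_zero]; rfl) h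
    rw [LinearMap.sub_apply, LinearMap.zero_apply] at this
    linear_combination this - c
  · refine absurd ⟨(S x w / (l' (yv S kk w) - S u w)) • (l' - l), fun e he => ?_⟩ hx
    rw [LinearMap.smul_apply, k e he, hμ e he, smul_eq_mul]
    field_simp

/-- A step that avoids the pivot survives. -/
lemma sp_v (h : yv S kk w ∈ Ph S kk N) (hu : ∀ e ∈ N, S' u e = S u e - μ e * S u w)
    (h1 : Sp S kk N u) (hv : yv S kk v ∈ Ph S kk N) (e1 : S' u v = S u v)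
    (e2 : yv S' kk v = yv S kk v) (h' : Sp S' kk (insert v N) u) : Sp S kk (insert v N) u := by
  obtain ⟨l, hl⟩ := h1
  have k := sp_w hx hw hμ hy h hu hl (h'.mono (Set.subset_insert _ _))
  obtain ⟨l', hl'⟩ := h'
  refine ⟨l, ?_⟩
  rintro b (rfl | hb)
  · rw [← e1, hl' b (Set.mem_insert _ _), e2]
    refine eq_Ph (S := S') (fun e he => ?_) (ph_le hx hw hμ hy hv)
    rw [← hl' e (Set.mem_insert_of_mem _ he), hu e he, hy e he, map_sub, map_smul, hl e he, k,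
      smul_eq_mul]
  · exact hl b hb

end Pivot

lemma bool_eq {a b c : Bool} (h : a ≠ c) (h' : b ≠ c) : a = b := by
  cases a <;> cases b <;> cases c <;> simp_all

/-- An augmenting walk increases the span. -/
lemma aug {Fa : Set E} {c : Bool} {i0 : ι} (hk : ∀ k, kk k ∉ Fa) (hN : ∀ e ∈ N, e ∉ Fa) (n : ℕ) :
    ∀ (b : Dsp F E ι) (z : ℕ → E), Fam b.1 b.2 → (∀ e ∈ N, b.1 e ≠ c) →
      Walk (Rel b.1 (b.2 i0) kk Fa N c) (Start b.1 (b.2 i0) kk Fa N c)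
        (Stop b.1 (b.2 i0) kk Fa N c) n z →
      ∃ b', PivIn Fa b b' ∧ Ph (b.2 i0) kk N < Ph (b'.2 i0) kk N := by
  induction n using Nat.strong_induction_on with
  | _ n ih =>
  intro b z0 hb hc hz0
  obtain ⟨ℓ, z, hℓ, hz⟩ := hz0.exists_sWalk
  have hcol : ∀ i ≤ ℓ, z i ∈ Fa ∧ b.1 (z i) ≠ c := fun i hi => by
    cases i with
    | zero => exact hz.start.1
    | succ i => exact (hz.step i hi).1
  obtain ⟨x, x1, x2, x3, x4⟩ := hz.stop
  obtain ⟨w1, w2⟩ := hcol ℓ le_rfl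
  have hp := PivIn.edge hb x1 w1 x3
  have key : ∀ u v, u ≠ x → u ≠ z ℓ → v ≠ z ℓ → b.1 v ≠ c → epiv (b.2 i0) x (z ℓ) u v =
      b.2 i0 u v - b.2 i0 x v / b.2 i0 x (z ℓ) * b.2 i0 u (z ℓ) := fun u v a1 a2 a3 a4 => by
    rw [epiv_uv _ a1 a2 (fun e : v = x => a4 (e ▸ x2)) a3, hb.bip i0 _ v (bool_eq w2 a4)]
    ring
  have key' : ∀ v, v ≠ z ℓ → b.1 v ≠ c → yv (epiv (b.2 i0) x (z ℓ)) kk v =
      yv (b.2 i0) kk v - (b.2 i0 x v / b.2 i0 x (z ℓ)) • yv (b.2 i0) kk (z ℓ) := fun v a3 a4 =>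
    funext fun k => key _ v (fun e => hk k (e ▸ x1)) (fun e => hk k (e ▸ w1)) a3 a4
  have hNw : ∀ e ∈ N, e ≠ z ℓ := fun e he k => hN e he (k ▸ w1)
  have hμ : ∀ e ∈ N, b.2 i0 x e = b.2 i0 x (z ℓ) * (b.2 i0 x e / b.2 i0 x (z ℓ)) := fun e _ =>
    (mul_div_cancel₀ _ x3).symm
  have hy := fun e he => key' e (hNw e he) (hc e he)
  by_cases hw : yv (b.2 i0) kk (z ℓ) ∈ Ph (b.2 i0) kk N
  swap
  · exact ⟨_, hp, lt_of_le_of_ne (ph_le x4 x3 hμ hy) fun e => hw (e ▸ w_mem x4 x3 hμ hy)⟩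
  obtain ⟨m, rfl⟩ : ∃ m, ℓ = m + 1 := by
    cases ℓ with
    | zero => exact absurd hw hz.start.2
    | succ m => exact ⟨m, rfl⟩
  have hE := ph_eq x4 x3 hμ hy hw
  have ns : ∀ i ≤ m, ∀ u ∈ Fa, b.1 u = c → b.2 i0 u (z i) ≠ 0 → Sp (b.2 i0) kk N u :=
    fun i hi u a1 a2 a3 => not_not.1 fun k => hz.notMem_stop (i := i) (by omega) ⟨u, a1, a2, a3, k⟩
  have z0 : ∀ i ≤ m, b.2 i0 x (z i) = 0 := fun i hi => not_not.1 fun k => x4 (ns i hi x x1 x2 k)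
  have zw : ∀ i ≤ m, z i ≠ z (m + 1) := fun i hi k => x3 (k ▸ z0 i hi)
  have cf : ∀ u, u ≠ x → u ≠ z (m + 1) → colFlip b.1 {x, z (m + 1)} u = b.1 u := fun u a1 a2 =>
    colFlip_of_notMem _ (by rintro (k | k); exacts [a1 k, a2 k])
  have cz : ∀ i ≤ m, z i ∈ Fa ∧ colFlip b.1 {x, z (m + 1)} (z i) ≠ c := fun i hi => by
    obtain ⟨a1, a2⟩ := hcol i (by omega)
    exact ⟨a1, by rwa [cf (z i) (fun e => a2 (e ▸ x2)) (zw i hi)]⟩
  have yz : ∀ i ≤ m, yv (epiv (b.2 i0) x (z (m + 1))) kk (z i) = yv (b.2 i0) kk (z i) :=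
    fun i hi => by rw [key' _ (zw i hi) (hcol i (by omega)).2, z0 i hi, zero_div, zero_smul, sub_zero]
  have hit : ∀ i ≤ m, ∀ Y Y', Hit b.1 (b.2 i0) kk Fa c Y (z i) →
      (∀ u, u ≠ x → u ≠ z (m + 1) → Sp (b.2 i0) kk N u →
        Sp (epiv (b.2 i0) x (z (m + 1))) kk Y' u → Sp (b.2 i0) kk Y u) →
      Hit (colFlip b.1 {x, z (m + 1)}) (epiv (b.2 i0) x (z (m + 1))) kk Fa c Y' (z i) := by
    rintro i hi Y Y' ⟨u, a1, a2, a3, a4⟩ k
    have a5 : u ≠ x := fun e => a3 (e ▸ z0 i hi)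
    have a6 : u ≠ z (m + 1) := fun e => w2 (e ▸ a2)
    refine ⟨u, a1, (cf u a5 a6).trans a2, ?_, fun k' => a4 (k u a5 a6 (ns i hi u a1 a2 a3) k')⟩
    rwa [key u _ a5 a6 (zw i hi) (hcol i (by omega)).2, z0 i hi, zero_div, zero_mul, sub_zero]
  obtain ⟨b', p1, p2⟩ := ih m (by omega)
    (colFlip b.1 {x, z (m + 1)}, fun i => epiv (b.2 i) x (z (m + 1))) z (hp.fam hb)
    (fun e he => by rw [hp.col (hN e he)]; exact hc e he)
    ⟨⟨cz 0 m.zero_le, by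
      change yv (epiv (b.2 i0) x (z (m + 1))) kk (z 0) ∉ Ph (epiv (b.2 i0) x (z (m + 1))) kk N
      rw [hE, yz 0 m.zero_le]
      exact hz.start.2⟩,
    hit m le_rfl _ N (hz.step m (by omega)).2 fun u a1 a2 ⟨l, hl⟩ k => ⟨l, by
      rintro e (rfl | he)
      exacts [sp_w x4 x3 hμ hy hw (fun e he => key u e a1 a2 (hNw e he) (hc e he)) hl k, hl e he]⟩,
    fun i hi => ⟨cz (i + 1) hi, hit i hi.le _ _ (hz.step i (by omega)).2 fun u a1 a2 a3 k =>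
      sp_v x4 x3 hμ hy hw (fun e he => key u e a1 a2 (hNw e he) (hc e he)) a3
        (not_not.1 fun k' => hz.notMem_start (i := i + 1) (by omega) (by omega)
          ⟨hcol _ (by omega), k'⟩)
        (by rw [key u _ a1 a2 (zw _ hi) (hcol _ (by omega)).2, z0 _ hi, zero_div, zero_mul, sub_zero])
        (yz _ hi) k⟩⟩
  exact ⟨b', hp.trans p1, hE ▸ p2⟩

/-- Without an augmenting walk there is a cut of the rank of the span. -/
lemma cut {col : E → Bool} {Fa C R U X : Set E} {c : Bool} (hs : Skew S) (hb : Bip col S)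
    (hC : ∀ w ∈ C, w ∈ R ∨ w ∈ N ∨ w ∈ Fa) (hR : ∀ r ∈ R, col r = c ∧ ∀ v ∈ Fa, S r v = 0)
    (hN : ∀ e ∈ N, col e ≠ c) (hU : Ph S kk N ≤ Ph S kk U) (h1 : Start col S kk Fa N c ⊆ X)
    (h2 : Disjoint X (Stop col S kk Fa N c))
    (h3 : ∀ u ∈ X, ∀ v, v ∉ X → ¬Rel col S kk Fa N c u v) :
    ∃ X' ⊆ Fa, RkLE S (X' ∪ kk '' {k | col (kk k) = c}) (C \ X') U.ncard := by
  classical
  refine ⟨{u | u ∈ Fa ∧ (col u ≠ c ∧ u ∈ X ∨ col u = c ∧ ∃ w ∈ X, S u w ≠ 0)}, fun _ h => h.1, ?_⟩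
  generalize hX' : {u | u ∈ Fa ∧ (col u ≠ c ∧ u ∈ X ∨ col u = c ∧ ∃ w ∈ X, S u w ≠ 0)} = X'
  have mem : ∀ u, u ∈ X' ↔ u ∈ Fa ∧ (col u ≠ c ∧ u ∈ X ∨ col u = c ∧ ∃ w ∈ X, S u w ≠ 0) :=
    fun u => hX' ▸ Iff.rfl
  have t1 : ∀ w ∈ C \ X', col w ≠ c → w ∈ N ∨ w ∈ Fa ∧ w ∉ X := fun w hw k => by
    rcases hC w hw.1 with a | a | a
    exacts [absurd (hR w a).1 k, Or.inl a, Or.inr ⟨a, fun e => hw.2 ((mem w).2 ⟨a, Or.inl ⟨k, e⟩⟩)⟩]
  have t2 : ∀ w ∈ C \ X', col w ≠ c → yv S kk w ∈ Ph S kk N := fun w hw k => by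
    rcases t1 w hw k with a | ⟨a, a'⟩
    exacts [mem_Ph a, not_not.1 fun e => a' (h1 ⟨⟨a, k⟩, e⟩)]
  have t3 : ∀ u, ∃ l : (K → F) →ₗ[F] F, u ∈ X' ∪ kk '' {k | col (kk k) = c} → ∀ w ∈ C \ X',
      (col w = c → S u w = 0) ∧ (col w ≠ c → S u w = l (yv S kk w)) := fun u => by
    by_cases hu : u ∈ X' ∪ kk '' {k | col (kk k) = c}
    swap
    · exact ⟨0, fun k => absurd k hu⟩
    rcases hu with hu | ⟨k, hk, rfl⟩
    · obtain ⟨u1, ⟨u2, u3⟩ | ⟨u2, w0, u3, u4⟩⟩ := (mem u).1 hu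
      · refine ⟨0, fun _ w hw => ⟨fun k => ?_, fun k => hb u w (bool_eq u2 k)⟩⟩
        rw [hs, neg_eq_zero]
        rcases hC w hw.1 with a | a | a
        exacts [(hR w a).2 u u1, absurd k (hN w a),
          not_not.1 fun e => hw.2 ((mem w).2 ⟨a, Or.inr ⟨k, u, u3, e⟩⟩)]
      · obtain ⟨l, hl⟩ : Sp S kk N u := not_not.1 fun e =>
          Set.disjoint_left.1 h2 u3 ⟨u, u1, u2, u4, e⟩
        refine ⟨l, fun _ w hw => ⟨fun k => hb u w (u2.trans k.symm), fun k => ?_⟩⟩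
        rcases t1 w hw k with a | ⟨a, a'⟩
        · exact hl w a
        · obtain ⟨l', hl'⟩ : Sp S kk (insert w N) u := not_not.1 fun e =>
            h3 w0 u3 w a' ⟨⟨a, k⟩, u, u1, u2, u4, e⟩
          rw [hl' w (Set.mem_insert _ _)]
          exact eq_Ph (fun e he => (hl' e (Set.mem_insert_of_mem _ he)).symm.trans (hl e he))
            (t2 w hw k)
    · exact ⟨LinearMap.proj k, fun _ w _ => ⟨fun e => hb _ w (Eq.trans hk e.symm), fun _ => rfl⟩⟩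
  have t4 : ∀ w, ∃ g : U → F, w ∈ C \ X' → (col w = c → g = 0) ∧
      (col w ≠ c → ∑ e, g e • yv S kk e = yv S kk w) := fun w => by
    by_cases hw : w ∈ C \ X' ∧ col w ≠ c
    · have := hU (t2 w hw.1 hw.2)
      rw [Ph, Set.image_eq_range, Submodule.mem_span_range_iff_exists_fun] at this
      exact this.imp fun g hg _ => ⟨fun k => absurd k hw.2, fun _ => hg⟩
    · exact ⟨0, fun a => ⟨fun _ => rfl, fun k => absurd ⟨a, k⟩ hw⟩⟩
  choose l hl using t3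
  choose g hg using t4
  refine rkLE_of_fac (K := U) (fun u e => l u (yv S kk e)) g
    (by rw [← Nat.card_eq_fintype_card, Nat.card_coe_set_eq]) fun u hu w hw => ?_
  by_cases k : col w = c
  · rw [(hl u hu w hw).1 k, (hg w hw).1 k, dotProduct_zero]
  · rw [(hl u hu w hw).2 k, ← (hg w hw).2 k, map_sum, dotProduct]
    exact Finset.sum_congr rfl fun e _ => by rw [map_smul, smul_eq_mul, mul_comm]

end Link

variable {F : Type} [Field F] [Fintype F]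

set_option linter.unusedSectionVars false in
open Link in
theorem link : LINK F := by
  classical
  intro E ι K _ _ a i0 kk C R c ha hk hRC hR
  obtain ⟨N, hN⟩ : ∃ N : Set E, ∀ e, e ∈ N ↔ e ∈ C ∧ ∃ r ∈ R, a.2 i0 r e ≠ 0 :=
    ⟨{e | _}, fun _ => Iff.rfl⟩
  have hNF : ∀ e ∈ N, e ∉ Far (a.2 i0) C R := fun e he k =>
    let ⟨_, r, r1, r2⟩ := (hN e).1 he
    r2 (k.2.2 r r1)
  have hkF : ∀ k, kk k ∉ Far (a.2 i0) C R := fun k e => hk k e.1
  obtain ⟨_, ⟨b, hb, rfl⟩, hm⟩ := (wellFounded_gt (α := Submodule F (K → F))).has_min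
    {P | ∃ b, PivIn (Far (a.2 i0) C R) a b ∧ Ph (b.2 i0) kk N = P} ⟨_, a, PivIn.refl _ _, rfl⟩
  have fb := hb.fam ha
  have hc : ∀ e ∈ N, b.1 e ≠ c := fun e he => by
    obtain ⟨_, r, r1, r2⟩ := (hN e).1 he
    rw [hb.col (hNF e he), ← hR r r1]
    exact (ha.col_ne r2).symm
  obtain ⟨U, u1, -, u2, u3⟩ := exists_linearIndepOn_extension (K := F) (v := yv (b.2 i0) kk)
    (linearIndepOn_empty F _) (Set.empty_subset N)
  rcases exists_sWalk_or_closed (Rel b.1 (b.2 i0) kk (Far (a.2 i0) C R) N c)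
    (Start b.1 (b.2 i0) kk (Far (a.2 i0) C R) N c) (Stop b.1 (b.2 i0) kk (Far (a.2 i0) C R) N c) with
    ⟨ℓ, z, hz⟩ | ⟨X, h1, h2, h3⟩
  · obtain ⟨b', p1, p2⟩ := aug hkF hNF ℓ b z fb hc hz.toWalk
    exact absurd p2 (hm _ ⟨b', hb.trans p1, rfl⟩)
  obtain ⟨X', x1, x2⟩ := cut (C := C) (R := R) (U := U) (fb.skew i0) (fb.bip i0)
    (fun w hw => by
      by_contra! k
      exact k.2.2 ⟨hw, k.1, fun r hr => not_not.1 fun e => k.2.1 ((hN w).2 ⟨hw, r, hr, e⟩)⟩)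
    (fun r hr => ⟨(hb.far_col hr).trans (hR r hr), fun v hv =>
      (hb.far_row ha hr i0 v).trans (hv.2.2 r hr)⟩) hc (Submodule.span_le.2 u2) h1 h2 h3
  refine ⟨b, U, C \ X', hb, ⟨fun e he => ((hN e).1 (u1 he)).1, fun e he => ?_, fun hd => ?_⟩,
    fun r hr => ⟨hRC hr, fun k => (x1 k).2.1 hr⟩, Set.sdiff_subset,
    fun r hr e he k => ⟨he, fun k' => k ((x1 k').2.2 r hr)⟩, x2.mono ?_ le_rfl le_rfl⟩
  · obtain ⟨_, r, r1, r2⟩ := (hN e).1 (u1 he)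
    exact ⟨r, r1, by rwa [hb.far_row ha r1]⟩
  · obtain ⟨u, a1, a2, a3⟩ := dep_core.1 hd
    refine a1 (funext fun e => by_contra fun k => k ?_)
    refine linearIndepOn_iff'.1 u3 (Finset.univ.filter (· ∈ U)) u (by simp) ?_ e
      (Finset.mem_filter.2 ⟨Finset.mem_univ _, by_contra fun k' => k (a2 e k')⟩)
    rw [← a3]
    exact Finset.sum_subset (Finset.subset_univ _) fun y _ hy => by
      rw [a2 y (by simpa using hy), zero_smul]
  · rintro u (hu | ⟨k, hk', rfl⟩)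
    · exact Or.inl (not_not.1 fun k => hu.2 ⟨hu.1, k⟩)
    · exact Or.inr ⟨k, (hb.col (hkF k)).trans hk', rfl⟩

end Pool.Agent.MP_d99b12_co.H25
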