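import Pool.Agent.MP_d99b12_co.H25.Spec2
import Pool.Agent.MP_d99b12_co.H25.ChainB

/-! # Pivots inside a closed petal -/

namespace Pool.Agent.MP_d99b12_co.H25

open Matrix

set_option linter.unusedSectionVars false
set_option linter.unusedVariables false

variable {F : Type} [Field F] {E K ι : Type} [Fintype E] [Fintype K]

section Piv

variable {S S' : Matrix E E F} {Z C : Set E} {kk : K → E}

/-- A row without neighbours in `Z` is not changed by the pivot on `Z`. -/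
lemma IsPiv.row (h : IsPiv S S' Z) {u : E} (hu : u ∉ Z) (h0 : ∀ z ∈ Z, S u z = 0) (v : E) :
    S' u v = S u v := by
  classical
  have e := congrFun (h.solve (Pi.single v 1)) u
  rw [Set.piecewise_eq_of_notMem _ _ _ hu] at e
  have e1 : (S' *ᵥ Pi.single v 1) u = S' u v := by simp
  rw [← e1, e]
  simp only [mulVec, dotProduct]
  rw [Finset.sum_eq_single v]
  · by_cases hv : v ∈ Z
    · rw [h0 v hv, zero_mul]
    · rw [Set.piecewise_eq_of_notMem _ _ _ hv]; simp
  · intro b _ hb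
    by_cases hz : b ∈ Z
    · rw [h0 b hz, zero_mul]
    · rw [Set.piecewise_eq_of_notMem _ _ _ hz]; simp [hb]
  · simp

lemma Shut.piv (hs : Shut S kk C) (h : IsPiv S S' Z) (hZ : Z ⊆ C) : Shut S' kk C := by
  classical
  refine ⟨hs.notK, fun u hu => inSpan_iff.2 fun w hw h0 => ?_⟩
  have e := h.solve w
  have h1 := inSpan_iff.1 (hs.span u hu) (Z.piecewise (S' *ᵥ w) w)
    (fun y hy => by rw [Set.piecewise_eq_of_notMem _ _ _ fun hz => hy (hZ hz)]; exact hw y hy)
    (fun r => by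
      rw [← e, Set.piecewise_eq_of_notMem _ _ _ fun hz => hs.notK r (hZ hz)]; exact h0 r)
  rwa [← e, Set.piecewise_eq_of_notMem _ _ _ fun hz => hu (hZ hz)] at h1

lemma Shut.same {T : Matrix E E F} (hs : Shut S kk C) (h : Same S T) : Shut T kk C :=
  ⟨hs.notK, fun u hu => h.inSpan (hs.span u hu)⟩

lemma mulVec_core [DecidableEq E] (S : Matrix E E F) (hS : Skew S) (kk : K → E) (x : K → F) (b : E) :
    (S *ᵥ ∑ r, x r • Pi.single (kk r) (1 : F)) b = -(x ⬝ᵥ yv S kk b) := by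
  rw [mulVec_sum, Finset.sum_apply, dotProduct, ← Finset.sum_neg_distrib]
  refine Finset.sum_congr rfl fun r _ => ?_
  rw [mulVec_smul]
  simp [yv, hS b (kk r)]

lemma Full.piv (hf : Full S kk C) (hS : Skew S) (hk : ∀ k, kk k ∉ C) (h : IsPiv S S' Z)
    (hZ : Z ⊆ C) : Full S' kk C := by
  classical
  intro x hx
  set w : E → F := ∑ r, x r • Pi.single (kk r) (1 : F) with hw
  have hwC : ∀ b ∈ C, w b = 0 := fun b hb => by
    rw [hw, Finset.sum_apply]
    exact Finset.sum_eq_zero fun r _ => by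
      have : b ≠ kk r := fun e => hk r (e ▸ hb)
      simp [this]
  have h1 : ∀ b ∈ C, (S' *ᵥ w) b = 0 := fun b hb => by
    rw [hw, mulVec_core S' (h.skew hS), hx b hb, neg_zero]
  have e := h.solve w
  have e1 : Z.piecewise (S' *ᵥ w) w = w := by
    ext t
    by_cases ht : t ∈ Z
    · rw [Set.piecewise_eq_of_mem _ _ _ ht, h1 t (hZ ht), hwC t (hZ ht)]
    · rw [Set.piecewise_eq_of_notMem _ _ _ ht]
  rw [e1] at e
  refine hf x fun b hb => ?_
  have h2 := congrFun e b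
  rw [hw, mulVec_core S hS, ← hw] at h2
  by_cases ht : b ∈ Z
  · rw [Set.piecewise_eq_of_mem _ _ _ ht, hwC b hb] at h2
    exact neg_eq_zero.1 h2.symm
  · rw [Set.piecewise_eq_of_notMem _ _ _ ht, h1 b hb] at h2
    exact neg_eq_zero.1 h2.symm

lemma rkLE_zero {X Y : Set E} : RkLE S X Y 0 ↔ ∀ u ∈ X, ∀ w ∈ Y, S u w = 0 :=
  ⟨fun ⟨x, y, h⟩ u hu w hw => by rw [h u hu w hw]; simp [dotProduct],
    fun h => ⟨0, 0, fun u hu w hw => by rw [h u hu w hw]; simp [dotProduct]⟩⟩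

lemma ConnOn.piv (hc : ConnOn S C) (h : IsPiv S S' Z) (hZ : Z ⊆ C) : ConnOn S' C := by
  classical
  intro X hX h0
  have hp := h.submatrix (f := (Subtype.val : C → E)) Subtype.val_injective (by simpa using hZ)
  have h1 : RkLE (S'.submatrix (Subtype.val : C → E) Subtype.val) (Subtype.val ⁻¹' X)
      (Subtype.val ⁻¹' X)ᶜ 0 := rkLE_zero.2 fun u hu w hw => h0 u hu w ⟨w.2, hw⟩
  have h2 := rkLE_zero.1 (hp.symm.rkLE_cut h1)
  exact hc X hX fun u hu v hv => h2 ⟨u, hX hu⟩ hu ⟨v, hv.1⟩ hv.2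

lemma ConnOn.same {T : Matrix E E F} (hc : ConnOn S C) (h : Same S T) : ConnOn T C :=
  fun X hX h0 => hc X hX fun u hu v hv => (h.zero_iff u v).2 (h0 u hu v hv)

lemma ConnOn.congr {T : Matrix E E F} (hc : ConnOn S C) (h : ∀ u ∈ C, ∀ v ∈ C, T u v = S u v) :
    ConnOn T C :=
  fun X hX h0 => hc X hX fun u hu v hv => (h u (hX hu) v hv.1).symm.trans (h0 u hu v hv)

lemma TP.piv {m : ℕ} (ht : TP m S kk C) (hS : Skew S) (h : IsPiv S S' Z) (hZ : Z ⊆ C) :
    TP m S' kk C :=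
  ⟨h.conn ht.conn, ht.inj, ht.big, ht.shut.piv h hZ, ht.full.piv hS ht.shut.notK h hZ,
    ht.con.piv h hZ⟩

end Piv

section PivIn

variable {C C' : Set E} {a b c : Dsp F E ι}

lemma PivIn.refl (C : Set E) (a : Dsp F E ι) : PivIn C a a :=
  ⟨∅, Set.empty_subset _, (colFlip_empty _).symm, fun i => isPiv_empty _⟩

lemma PivIn.trans (h : PivIn C a b) (h' : PivIn C b c) : PivIn C a c := by
  obtain ⟨Z, h1, h2, h3⟩ := h
  obtain ⟨Z', g1, g2, g3⟩ := h'
  refine ⟨symmDiff Z Z', fun x hx => ?_, by rw [g2, h2, colFlip_colFlip],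
    fun i => (h3 i).comp (g3 i)⟩
  rcases hx with hx | hx
  · exact h1 hx.1
  · exact g1 hx.1

lemma PivIn.mono (h : PivIn C a b) (hC : C ⊆ C') : PivIn C' a b := by
  obtain ⟨Z, h1, h2⟩ := h
  exact ⟨Z, h1.trans hC, h2⟩

lemma PivIn.fam (h : PivIn C a b) (ha : Fam a.1 a.2) : Fam b.1 b.2 := by
  obtain ⟨Z, -, h2, h3⟩ := h
  rw [h2]
  exact ha.piv h3

/-- The pivot on one edge. -/
lemma PivIn.edge (ha : Fam a.1 a.2) {i0 : ι} {x y : E} (hx : x ∈ C) (hy : y ∈ C)
    (hxy : a.2 i0 x y ≠ 0) : PivIn C a (colFlip a.1 {x, y}, fun i => epiv (a.2 i) x y) :=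
  ⟨{x, y}, by rintro _ (rfl | rfl) <;> assumption, rfl, fun i =>
    ha.isPiv_epiv fun e => hxy ((ha.zero_iff i i0 x y).1 e)⟩

lemma PivIn.col (h : PivIn C a b) {v : E} (hv : v ∉ C) : b.1 v = a.1 v := by
  obtain ⟨Z, h1, h2, -⟩ := h
  rw [h2, colFlip_of_notMem _ fun hz => hv (h1 hz)]

/-- A row outside `C` without neighbours in `C` is unchanged. -/
lemma PivIn.row (h : PivIn C a b) (ha : Fam a.1 a.2) {i0 : ι} {u : E} (hu : u ∉ C)
    (h0 : ∀ z ∈ C, a.2 i0 u z = 0) (i : ι) (v : E) : b.2 i u v = a.2 i u v := by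
  obtain ⟨Z, h1, -, h3⟩ := h
  exact (h3 i).row (fun hz => hu (h1 hz)) (fun z hz => (ha.zero_iff i i0 u z).2 (h0 z (h1 hz))) v

lemma PivIn.conn (h : PivIn C a b) {m : ℕ} {i : ι} (hc : Conn m (a.2 i)) : Conn m (b.2 i) := by
  obtain ⟨Z, -, -, h3⟩ := h
  exact (h3 i).conn hc

lemma PivIn.connOn (h : PivIn C a b) (hC : C ⊆ C') {i : ι} (hc : ConnOn (a.2 i) C') :
    ConnOn (b.2 i) C' := by
  obtain ⟨Z, h1, -, h3⟩ := h
  exact hc.piv (h3 i) (h1.trans hC)

lemma PivIn.shut (h : PivIn C a b) (hC : C ⊆ C') {i : ι} {kk : K → E} (hc : Shut (a.2 i) kk C') :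
    Shut (b.2 i) kk C' := by
  obtain ⟨Z, h1, -, h3⟩ := h
  exact hc.piv (h3 i) (h1.trans hC)

lemma PivIn.tp (h : PivIn C a b) (ha : Fam a.1 a.2) (hC : C ⊆ C') {m : ℕ} {i : ι} {kk : K → E}
    (ht : TP m (a.2 i) kk C') : TP m (b.2 i) kk C' := by
  obtain ⟨Z, h1, -, h3⟩ := h
  exact ht.piv (ha.skew i) (h3 i) (h1.trans hC)

lemma far_sub (S : Matrix E E F) (C R : Set E) : Far S C R ⊆ C := fun _ h => h.1

lemma far_anti (S : Matrix E E F) (C : Set E) {R R' : Set E} (h : R ⊆ R') :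
    Far S C R' ⊆ Far S C R := fun _ hv => ⟨hv.1, fun e => hv.2.1 (h e), fun r hr => hv.2.2 r (h hr)⟩

/-- Pivots far from `R` do not change the rows of `R`. -/
lemma PivIn.far_row {R : Set E} {i0 : ι} (h : PivIn (Far (a.2 i0) C R) a b) (ha : Fam a.1 a.2)
    {r : E} (hr : r ∈ R) (i : ι) (v : E) : b.2 i r v = a.2 i r v :=
  h.row ha (fun e => e.2.1 hr) (fun z hz => hz.2.2 r hr) i v

lemma PivIn.far_col {R : Set E} {i0 : ι} (h : PivIn (Far (a.2 i0) C R) a b) {r : E} (hr : r ∈ R) :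
    b.1 r = a.1 r := h.col fun e => e.2.1 hr

lemma PivIn.far_eq {R : Set E} {i0 : ι} (h : PivIn (Far (a.2 i0) C R) a b) (ha : Fam a.1 a.2) :
    Far (b.2 i0) C R = Far (a.2 i0) C R := by
  ext v
  simp only [Far, Set.mem_ofPred_eq]
  refine and_congr_right fun _ => and_congr_right fun _ => forall₂_congr fun r hr => ?_
  rw [h.far_row ha hr]

end PivIn

section FC

variable {S T : Matrix E E F} {kk : K → E} {C X Y : Set E} {m : ℕ}

/-- `Dep` only depends on the columns `Y`. -/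
lemma Dep.congr (h : Dep S X Y) (he : ∀ x ∈ X, ∀ y ∈ Y, T x y = S x y) : Dep T X Y := by
  obtain ⟨u, h0, h1, h2⟩ := h
  refine ⟨u, h0, h1, fun x hx => ?_⟩
  rw [← h2 x hx]
  refine Finset.sum_congr rfl fun y _ => ?_
  by_cases hy : y ∈ Y
  · simp [he x hx y hy]
  · simp [h1 y hy]

lemma Dep.nonempty (h : Dep S X Y) : Y.Nonempty := by
  obtain ⟨u, h0, h1, -⟩ := h
  obtain ⟨y, hy⟩ := Function.ne_iff.1 h0
  exact ⟨y, by_contra fun e => hy (h1 y e)⟩

lemma dep_core {Y : Set E} : Dep S (Set.range kk) Y ↔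
    ∃ u : E → F, u ≠ 0 ∧ (∀ y, y ∉ Y → u y = 0) ∧ ∑ e, u e • yv S kk e = 0 := by
  refine exists_congr fun u => and_congr_right fun _ => and_congr_right fun _ => ?_
  rw [Set.forall_mem_range, funext_iff]
  refine forall_congr' fun r => ?_
  simp [mulVec, dotProduct, yv, Finset.sum_apply, mul_comm]

lemma Dep.rkLE (h : Dep S X Y) : RkLE S X Y (Y.ncard - 1) := by
  classical
  refine rkLE_iff_dep.2 fun Y0 h1 h2 => ?_
  have h3 := (Set.ncard_pos (Set.toFinite Y)).2 h.nonempty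
  have : (↑Y0 : Set E) = Y :=
    Set.eq_of_subset_of_ncard_le h1 (by rw [Set.ncard_coe_finset]; omega) (Set.toFinite Y)
  rwa [this]

/-- More than `card K` columns are dependent on the core. -/
lemma dep_of_card (h : Fintype.card K < Y.ncard) : Dep S (Set.range kk) Y := by
  classical
  obtain ⟨Y0, h1, h2⟩ := Set.exists_subset_card_eq (s := Y) (n := Fintype.card K + 1) h
  have h3 : RkLE S (Set.range kk) Y (Fintype.card K) := by
    refine rkLE_of_fac (fun u => if h : u ∈ Set.range kk then Pi.single h.choose 1 else 0)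
      (yv S kk) le_rfl fun u hu w _ => ?_
    rw [dif_pos hu, single_dotProduct, one_mul, yv, hu.choose_spec]
  have := rkLE_iff_dep.1 h3 Y0.toFinset (by simpa using h1)
    (by rw [← h2, Set.ncard_eq_toFinset_card'])
  exact this.mono le_rfl (by simpa using h1)

lemma RkLE.symm (hS : Skew S) {l : ℕ} (h : RkLE S X Y l) : RkLE S Y X l := by
  obtain ⟨x, y, h⟩ := h
  exact ⟨fun u => -y u, x, fun u hu w hw => by
    rw [hS u w, h w hw u hu, neg_dotProduct, dotProduct_comm]⟩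

/-- The cut rank of a subset of a closed set is read inside the set and the core. -/
lemma Shut.cut (hs : Shut S kk C) (hX : X ⊆ C) {l : ℕ}
    (h : RkLE S ((C \ X) ∪ Set.range kk) X l) : RkLE S Xᶜ X l := by
  classical
  obtain ⟨x, y, h⟩ := h
  choose! t ht using hs.span
  refine ⟨fun u => if u ∈ C then x u else ∑ r, t u r • x (kk r), y, fun u hu w hw => ?_⟩
  by_cases hc : u ∈ C
  · simp only [if_pos hc]
    exact h u (Or.inl ⟨hc, hu⟩) w hw
  · simp only [if_neg hc]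
    rw [ht u hc w (hX hw), sum_dotProduct]
    refine Finset.sum_congr rfl fun r _ => ?_
    rw [smul_dotProduct, smul_eq_mul, yv, h _ (Or.inr ⟨r, rfl⟩) w hw]

/-- Full connectivity inside a closed set. -/
lemma Shut.small (hs : Shut S kk C) (hS : Skew S) (hc : Conn m S) (hi : Function.Injective kk)
    (hb : m < Fintype.card K) (hX : X ⊆ C) {l : ℕ} (hl : l ≤ m)
    (h : RkLE S ((C \ X) ∪ Set.range kk) X l) : X.ncard ≤ l := by
  refine (hc X l hl ((hs.cut hX h).symm hS)).resolve_right fun h1 => ?_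
  have h2 : Set.range kk ⊆ Xᶜ := by
    rintro _ ⟨k, rfl⟩ hk
    exact hs.notK k (hX hk)
  have := Set.ncard_le_ncard h2 (Set.toFinite _)
  rw [Set.ncard_range_of_injective hi, Nat.card_eq_fintype_card] at this
  omega

/-- A set that carries a vector invisible from outside has cut rank above `m`. -/
lemma Shut.fc (hs : Shut S kk C) (hS : Skew S) (hc : Conn m S) (hi : Function.Injective kk)
    (hb : m < Fintype.card K) (hX : X ⊆ C) (hd : Dep S ((C \ X) ∪ Set.range kk) X) :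
    ¬RkLE S ((C \ X) ∪ Set.range kk) X m := fun h => by
  have h1 := hs.small hS hc hi hb hX le_rfl h
  have h2 := hs.small hS hc hi hb hX (by omega) hd.rkLE
  have h3 := (Set.ncard_pos (Set.toFinite X)).2 hd.nonempty
  omega

lemma Shut.fc_card (hs : Shut S kk C) (hS : Skew S) (hc : Conn m S) (hi : Function.Injective kk)
    (hb : m < Fintype.card K) (hX : X ⊆ C) (hd : Dep S ((C \ X) ∪ Set.range kk) X) :
    m + 2 ≤ X.ncard := by
  by_contra h
  exact hs.fc hS hc hi hb hX hd (hd.rkLE.mono le_rfl le_rfl (by omega))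

lemma TP.fc (ht : TP m S kk C) (hS : Skew S) (hX : X ⊆ C)
    (hd : Dep S ((C \ X) ∪ Set.range kk) X) : ¬RkLE S ((C \ X) ∪ Set.range kk) X m :=
  ht.shut.fc hS ht.conn ht.inj ht.big hX hd

/-- An element of a true petal that does not see the core has a neighbour in the petal. -/
lemma TP.exists_nb (ht : TP m S kk C) {r : E} (hr : r ∈ C) (h0 : yv S kk r = 0) :
    ∃ o ∈ C, o ≠ r ∧ S r o ≠ 0 := by
  classical
  by_contra h
  push Not at h
  rcases ht.con {r} (by simpa using hr) (by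
    rintro _ rfl v hv
    exact h v hv.1 hv.2) with e | e
  · exact Set.singleton_ne_empty _ e
  · have hK : Nonempty K := Fintype.card_pos_iff.1 (by have := ht.big; omega)
    obtain ⟨k⟩ := hK
    have := ht.full (Pi.single k 1) fun b hb => by
      rw [← e] at hb
      rw [hb, h0, dotProduct_zero]
    simpa using congrFun this k

/-- The component of a connected subset of a closed set. -/
lemma Shut.comp {Ω C1 : Set E} (hs : Shut S kk Ω) (hS : Skew S) (h1 : C1 ⊆ Ω) (hc : ConnOn S C1)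
    (hne : C1.Nonempty) : ∃ C, C1 ⊆ C ∧ C ⊆ Ω ∧ ConnOn S C ∧ Shut S kk C ∧
      ∀ u ∈ C, ∀ v ∈ Ω, S u v ≠ 0 → v ∈ C := by
  obtain ⟨e, he⟩ := hne
  let R : E → E → Prop := fun u v => v ∈ Ω ∧ S u v ≠ 0
  let C : Set E := {v | Relation.ReflTransGen R e v}
  have hCΩ : C ⊆ Ω := fun v hv => by
    induction hv with
    | refl => exact h1 he
    | tail _ h _ => exact h.1
  have hcl : ∀ u ∈ C, ∀ v ∈ Ω, S u v ≠ 0 → v ∈ C := fun u hu v hv h =>
    Relation.ReflTransGen.tail hu ⟨hv, h⟩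
  refine ⟨C, ?_, hCΩ, fun X hX h0 => ?_, ⟨fun k hk => hs.notK k (hCΩ hk), fun w hw => ?_⟩, hcl⟩
  · rcases hc (C1 ∩ C) Set.inter_subset_left (fun u hu v hv => by_contra fun h =>
      hv.2 ⟨hv.1, hcl u hu.2 v (h1 hv.1) h⟩) with e1 | e1
    · exact absurd (show e ∈ C1 ∩ C from ⟨he, Relation.ReflTransGen.refl⟩) (by simp [e1])
    · exact Set.inter_eq_left.1 e1
  · have key : ∀ v ∈ C, (v ∈ X ↔ e ∈ X) := fun v hv => by
      induction hv with
      | refl => rfl
      | @tail b c h2 h3 ih =>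
        rw [← ih]
        have hc' : c ∈ C := h2.tail h3
        exact ⟨fun hx => by_contra fun hb => h3.2 (by rw [hS, h0 c hx b ⟨h2, hb⟩, neg_zero]),
          fun hx => by_contra fun hb => h3.2 (h0 b hx c ⟨hc', hb⟩)⟩
    by_cases hx : e ∈ X
    · exact Or.inr (hX.antisymm fun v hv => (key v hv).2 hx)
    · exact Or.inl (Set.eq_empty_of_forall_notMem fun v hv => hx ((key v (hX hv)).1 hv))
  · by_cases hΩ : w ∈ Ω
    · refine ⟨0, fun b hb => ?_⟩
      rw [zero_dotProduct, hS, neg_eq_zero]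
      exact by_contra fun h => hw (hcl b hb w hΩ h)
    · obtain ⟨x, hx⟩ := hs.span w hΩ
      exact ⟨x, hx.mono hCΩ⟩

end FC

end Pool.Agent.MP_d99b12_co.H25
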