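import Pool.Agent.MP_d99b12_co.H25.Spec3
import Pool.Agent.MP_d99b12_co.H25.Final

/-! # Assembly for odd primes -/

namespace Pool.Agent.MP_d99b12_co.H25

open Matrix Sum

variable {F : Type} [Field F] [Fintype F]

theorem algr_of {p k : ℕ} (hp : p.Prime) (h2 : p ≠ 2) (hk : 2 ≤ k) (hq : Fintype.card F = p ^ k)
    (hcr : CRUDE F) (hcl : CLOSED F ((k - 1) * (p - 1) + 1)) (hpk : PACK F ((k - 1) * (p - 1) + 1))
    (hs : SYS2 F) (hlc : AUXLC F ((k - 1) * (p - 1) + 1)) (hmin : MINS F p k) (hw : KILLW F p k) :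
    ALGR F ((k - 1) * (p - 1) + 1) := by
  intro K P _ _ d h0 hr hd hn ht hv
  by_contra hlt
  have p3 : 2 ≤ p - 1 := by
    have := hp.two_le
    omega
  have hm : 2 * (k - 1) ≤ (k - 1) * (p - 1) := by
    rw [mul_comm]; exact Nat.mul_le_mul_left _ p3
  obtain ⟨K1, P1, _, _, d1, u1, r1, n1, v1, b1, c1⟩ := hcl (by omega) hcr K P d h0 hr hd hn ht hv
    (not_le.1 hlt)
  have real1 : Real ((k - 1) * (p - 1) + 1) d1 := fun n => by
    obtain ⟨E, _, col, N, S, kk, pp, a, b, Ω, g1, g2, g3, g4, -⟩ := c1 n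
    let g' : Fin (n + 1) → Fin (N + 1) := Fin.lastCases (Fin.last N) fun t => (a t).castSucc
    have hl : g' (Fin.last n) = Fin.last N := by simp [g']
    exact ⟨E, inferInstance, col, fun i => S (g' i), kk, fun t => pp (a t), g1.reindex _,
      fun i => g2 _, g3.sub' g4 (fun j => by simp [g']) fun j => by rw [hl]; simp⟩
  have key : ∀ c : Bool, Fintype.card {k // ¬d1.colK k = c} ≤ Fintype.card {k // d1.colK k = c} →
      False := by
    intro c hc
    obtain ⟨s1, e1, e2, e3⟩ := hs K1 P1 d1 real1.alg u1 r1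
    obtain ⟨a1, a2, a3⟩ := v1
    have w1 := ANEM.vis_of_devD real1.alg a3
    obtain ⟨A, hA⟩ := anem' K1 P1 s1 _ _ _ _ _ a1 a2 c (e3 P1 id Function.injective_id r1 n1) w1 e1
    have small : Fintype.card {k // ¬d1.colK k = c} < k := by
      have := hmin hp hk hq _ _ A hA (by rw [e2]; exact hc)
      rwa [e2] at this
    obtain ⟨W, _, d2, g1, g2, g3, g4, g5, ⟨x, y, g6⟩, g7⟩ := hpk K1 P1 d1 c u1 r1 n1 ⟨a1, a2, a3⟩ b1
      (by omega) c1
    have red2 : d2.Red := fun z hz => g4 z fun q => hz (inr q)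
    obtain ⟨s, f1, f2, f3⟩ := hs K1 (W ⊕ P1) d2 g1 g2 red2
    obtain ⟨j1, j2, o, R, U, j3, j4⟩ := hlc K1 W c (d2.resP inl)
      (fun u v => g1.skewA.1 (inl u) (inl v)) (by
        ext u v
        exact congrFun (congrFun g2 (inl u)) (inl v)) g7
    have D1 := f3 P1 inr inr_injective g4 g5
    have V1 : VisP (d2.resP inr).y (d2.resP inr).B (d2.resP inr).Bs x y := by
      have : d2.DevD {inr x, inr y} := fun ⟨c, h1, h2⟩ => g6 ⟨fun q => c (inr q), fun q hq => h1 _ (by
        rcases hq with rfl | rfl <;> simp), fun q hq q' hq' => h2 _ (by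
        rcases hq with rfl | rfl <;> simp) _ (by rcases hq' with rfl | rfl <;> simp)⟩
      exact ANEM.vis_of_devD g1 this
    have pos : 1 ≤ Fintype.card {k // ¬s.colK k = c} := by
      have ne : (d2.resP inr).colP x ≠ (d2.resP inr).colP y := fun e =>
        V1.2.2 ((D1.bips _ _ e).trans (D1.bip _ _ e).symm)
      obtain ⟨q, hq, yq⟩ : ∃ q, (d2.resP inr).colP q = c ∧ (d2.resP inr).y q ≠ 0 := by
        by_cases e : (d2.resP inr).colP x = c
        · exact ⟨x, e, V1.1⟩
        · refine ⟨y, ?_, V1.2.1⟩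
          revert e ne
          cases (d2.resP inr).colP x <;> cases (d2.resP inr).colP y <;> cases c <;> simp
      obtain ⟨k, hk⟩ := Function.ne_iff.1 yq
      exact Fintype.card_pos_iff.2 ⟨⟨k, fun e => hk (ANEM.row_supp D1.toSDisp hq k e)⟩⟩
    have e4 : s.colK = d1.colK := f2.trans g3
    have e5 : (d2.resP (inl : W → W ⊕ P1)).colK = d1.colK := g3
    obtain ⟨t1, t2⟩ := hw hp h2 hk hq K1 P1 W s _ _ _ _ x y c _ _ _ o R U f1 D1 V1
      (f3 W inl inl_injective j1 j2).toSDisp j3 (by rw [e4]; exact hc) pos (by rw [e4]; exact small)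
    rw [e4] at t1 pos
    rw [e5] at j4
    have r0 : 1 ≤ R.card := by
      obtain ⟨r, hr, -⟩ := j3.base
      exact Finset.card_pos.2 ⟨r, hr⟩
    by_cases h1 : R.card = 1
    · have := t1 h1
      omega
    · have := t2 (by omega)
      omega
  have e1 := ANEM.card_split d1.colK true
  have e2 := ANEM.card_split d1.colK false
  have e3 := ANEM.card_swap d1.colK
  rcases le_total (Fintype.card {k // ¬d1.colK k = true}) (Fintype.card {k // d1.colK k = true})
    with l | l
  · exact key true l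
  · exact key false (by omega)

end Pool.Agent.MP_d99b12_co.H25
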