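import Pool.Agent.MP_d99b12_co.H25.Spec3

/-! # Packing an auxiliary petal and a visible petal into one homogeneous chain -/

namespace Pool.Agent.MP_d99b12_co.H25

open Matrix Sum

variable {F : Type} [Field F] [Fintype F]

namespace PACK

variable {K P W E : Type} [Fintype K] [Fintype P] [Fintype W] [Fintype E]

/-- The properties of the packed datum. -/
def Phi (m : ℕ) (c : Bool) (d : Datum F K P) (d' : Datum F K (W ⊕ P)) : Prop :=
  d'.U = 0 ∧ d'.colK = d.colK ∧ (d'.resP inr).Red ∧ NConn (d'.resP inr).B ∧ (d'.resP inr).Vis ∧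
    Aux m c (d'.resP inl).dsp.1 ((d'.resP inl).pair false) inl (Set.range inr)

omit [Fintype F] [Fintype K] [Fintype P] in
lemma devD_scale {d d' : Datum F K P} {P0 : Set P} (h : d.DevD P0) (c : P → Fˣ) (hV : d'.V = d.V)
    (hA : d'.A = d.A) (hc : ∀ p k, (c p : F) * d.V k p = d.V k p)
    (hs : ∀ p q, d'.As p q = (c p : F) * (c q : F) * d.As p q) : d'.DevD P0 := by
  rintro ⟨e, h1, h2⟩
  rw [hV] at h1
  rw [hA] at h2
  refine h ⟨fun p => (c p)⁻¹ * e p, fun p hp k => ?_, fun p hp q hq => ?_⟩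
  · rw [Units.val_mul, mul_assoc, h1 p hp k, Units.inv_mul_eq_iff_eq_mul, hc]
  · rw [unit_flip (hs p q), h2 p hp q hq, Units.val_mul, Units.val_mul]
    ring

omit [Fintype F] [Fintype P] in
lemma core {m n N N0 : ℕ} (h3 : AUXSUB F m) {c : Bool} {d : Datum F K P} (hU : d.U = 0)
    (hR : d.Red) (hC : NConn d.B) (hV : d.Vis) {col col' : E → Bool}
    {S S' : Fin (N0 + 1) → Matrix E E F} {kk : K → E} {pp : Fin N0 → P → E}
    (hch : IsChain d col S kk pp) (hF : Fam col' S') (hc : ∀ i, Conn m (S' i))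
    {α : Fin N → Fin N0} (hα : StrictMono α) {f : Fin N → W → E}
    (hK : ∀ k, col' (kk k) = col (kk k))
    (hrow : ∀ t p i v, S' i (pp (α t) p) v = S i (pp (α t) p) v)
    (hz : ∀ t t', t ≠ t' → ∀ x y i,
      S' i (Sum.elim (f t) (pp (α t)) x) (Sum.elim (f t') (pp (α t')) y) = 0)
    (hX : ∀ t i, Aux m c col' (S' i) kk (Set.range (f t)))
    {d' : Datum F K (W ⊕ P)} {g : Fin (n + 2 + 1) ↪o Fin N} {e : Fin (n + 2 + 1) → E → Fˣ}
    (e1 : ∀ i k, e i (kk k) = 1) (el : e (Fin.last _) = 1)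
    (h : IsChain d' col' (fun i => scale (e i) (S' (α (g i)).castSucc)) kk
      fun j => Sum.elim (f (g j.castSucc)) (pp (α (g j.castSucc)))) :
    RealN m n d' ∧ Phi m c d d' := by
  set j0 : Fin (n + 2) := ⟨0, by omega⟩ with hj0
  set j1 : Fin (n + 2) := ⟨1, by omega⟩ with hj1
  have h01 : j0 < j1 := by simp [hj0, hj1]
  have h0l : j0.val < (Fin.last (n + 2)).val := by simp [hj0]
  have hg0 : α (g j0.castSucc) < α (g (Fin.last (n + 2))) :=
    hα (g.strictMono (Fin.castSucc_lt_last _))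
  have hg01 : g j0.castSucc ≠ g j1.castSucc :=
    (g.strictMono (Fin.castSucc_lt_castSucc_iff.2 h01)).ne
  have hlast : scale (e (Fin.last (n + 2))) (S' (α (g (Fin.last (n + 2)))).castSucc) =
      S' (α (g (Fin.last (n + 2)))).castSucc := by rw [el, scale_one]
  have hkp : ∀ i t k q, S' i (kk k) (pp (α t) q) = d.V k q := fun i t k q => by
    rw [hF.skew, hrow, hch.pp_kk, neg_neg]
  have kU : d'.U = 0 := by
    ext x y
    rw [← h.pp_lt (Fin.last _) h01 x y, scale_apply, hz _ _ hg01, mul_zero]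
    rfl
  have kV : (d'.resP inr).V = d.V := by
    ext k q
    have h1 := h.kk_pp (Fin.last _) k j0 (inr q)
    rw [hlast] at h1
    exact h1.symm.trans (hkp _ _ k q)
  have kA : (d'.resP inr).A = d.A := by
    ext p q
    have h1 := h.pp_left h0l (inr p) (inr q)
    rw [hlast] at h1
    exact h1.symm.trans ((hrow _ p _ _).trans (hch.pp_left hg0 p q))
  refine ⟨RealN.mono (n' := n + 2) ⟨E, inferInstance, col', _, _, _,
    (hF.reindex fun i => (α (g i)).castSucc).scale e, fun i => (hc _).scale _, h⟩ (by omega),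
    kU, funext fun k => ?_, fun x hx => hR x fun q => ?_, ?_, ?_, ?_⟩
  · rw [← h.colK, hK, hch.colK]
  · have h1 : d.y q = (d'.resP inr).y q := funext fun k => (congrFun (congrFun kV k) q).symm
    rw [h1]
    exact hx q
  · have h1 : (d'.resP inr).U = d.U := by
      rw [hU]
      ext p q
      exact congrFun (congrFun kU _) _
    rw [Datum.B, kA, h1]
    exact hC
  · obtain ⟨x, y, hxy⟩ := hV
    refine ⟨x, y, devD_scale hxy (fun p => e j0.castSucc (pp (α (g j0.castSucc)) p)) kV kA
      (fun p k => ?_) fun p q => ?_⟩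
    · have h1 := h.kk_pp j0.castSucc k j0 (inr p)
      rw [scale_apply, e1, Units.val_one, one_mul, Sum.elim_inr, hkp] at h1
      exact h1.trans (congrFun (congrFun kV k) p)
    · have h1 := h.pp_own j0 (inr p) (inr q)
      rw [scale_apply, Sum.elim_inr, Sum.elim_inr, hrow, hch.pp_own] at h1
      exact h1.symm
  · have h' := h.resP (f := (inl : W → W ⊕ P)) inl_injective
    have h1 := h'.pair_false h0l
    rw [hlast] at h1
    have h2 : (d'.resP inl).dsp.1 = col' ∘ Sum.elim kk (f (g j0.castSucc)) := by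
      funext u
      rcases u with k | w
      · exact (h'.colK k).symm
      · exact (h'.colP j0 w).symm
    rw [h1, h2]
    exact h3 E K W c col' _ kk _ (h'.elim_inj j0) (hX _ _)

omit [Field F] [Fintype F] in
lemma exists_enum {X : Set E} {w : ℕ} (h : X.ncard = w) :
    ∃ f : Fin w → E, Function.Injective f ∧ Set.range f = X := by
  let e : X ≃ Fin w := Finite.equivFinOfCardEq h
  exact ⟨Subtype.val ∘ e.symm, Subtype.val_injective.comp e.symm.injective, by
    rw [e.symm.surjective.range_comp, Subtype.range_coe]⟩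

end PACK

open PACK in
theorem pack {m : ℕ} (hH : HOM F) (hA : ALLW F m) (h3 : AUXSUB F m) : PACK F m := by
  intro K P _ _ d c hU hR hC hV hm hm' hcl
  set w0 := 4 * (3 * Fintype.card K + 2) with hw0
  have key : ∀ n, ∃ w : Fin (w0 + 1), ∃ d' : Datum F K (Fin w ⊕ P),
      RealN m n d' ∧ Phi m c d d' := by
    intro n
    choose Nw hNw using fun w : Fin (w0 + 1) => hH K (Fin w ⊕ P) (n + 2)
    obtain ⟨M, hM⟩ := pigeon (w0 + 1) (Finset.univ.sup Nw + 1)
    obtain ⟨E, _, col, N, S, kk, pp, a, b, Ω, hF, hc, hch, ha, hab, hΩ, hs, hd⟩ := hcl (M + M)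
    obtain ⟨col', S', hF', hc', hK, hJ, hz, hW⟩ := hA K P d c E col N (M + M) S kk pp a b Ω
      (Finset.univ.filter fun t => t.val < M) hU hR hC hm hm' hF hc hch hab hΩ hs hd
    choose X hX hXc hXa using fun t : Fin M =>
      hW (Fin.castAdd M t) (Finset.mem_filter.2 ⟨Finset.mem_univ _, t.2⟩)
    obtain ⟨g, hg⟩ := hM (Fin (w0 + 1)) (by simp)
      fun t => ⟨(X t).ncard, Nat.lt_succ_of_le (hXc t)⟩
    set w : Fin (w0 + 1) := ⟨(X (g 0)).ncard, Nat.lt_succ_of_le (hXc _)⟩
    have hle : Nw w ≤ Finset.univ.sup Nw + 1 :=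
      (Finset.le_sup (Finset.mem_univ w)).trans (Nat.le_succ _)
    let τ : Fin (Nw w) → Fin M := fun t => g (Fin.castLE hle t)
    have hτ : StrictMono τ := g.strictMono.comp (Fin.strictMono_castLE hle)
    choose f hf hf' using fun t : Fin (Nw w) =>
      exists_enum (X := X (τ t)) (w := w) (congrArg Fin.val (hg (Fin.castLE hle t) 0))
    let α : Fin (Nw w) → Fin N := fun t => a (Fin.natAdd M (τ t))
    have hα : StrictMono α := ha.comp ((Fin.strictMono_natAdd M).comp hτ)
    let ρ : Fin (Nw w) → Fin w ⊕ P → Fin (M + M) := fun t =>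
      Sum.elim (fun _ => Fin.castAdd M (τ t)) fun _ => Fin.natAdd M (τ t)
    have hρ : ∀ t x, Sum.elim (f t) (pp (α t)) x ∈ Ω (ρ t x) := by
      rintro t (x | p)
      · exact hX _ (hf' t ▸ Set.mem_range_self x)
      · exact (hΩ _ p).1
    have hρ' : ∀ t t' x y, ρ t x = ρ t' y → t = t' ∧ x.isLeft = y.isLeft := by
      rintro t t' (x | x) (y | y) e <;> have e' := congrArg Fin.val e <;>
        simp only [ρ, Sum.elim_inl, Sum.elim_inr, Fin.val_castAdd, Fin.val_natAdd] at e'
      · exact ⟨hτ.injective (Fin.ext e'), rfl⟩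
      · have := (τ t).2
        omega
      · have := (τ t').2
        omega
      · exact ⟨hτ.injective (Fin.ext (by omega)), rfl⟩
    have hinj : Function.Injective (emb kk fun t => Sum.elim (f t) (pp (α t))) := by
      rintro (k | ⟨t, x⟩) (k' | ⟨t', y⟩) e
      · rw [hch.kk_inj e]
      · have e' : kk k = Sum.elim (f t') (pp (α t')) y := e
        exact absurd (hρ t' y) (by rw [← e']; exact (hs _).notK k)
      · have e' : Sum.elim (f t) (pp (α t)) x = kk k' := e
        exact absurd (hρ t x) (by rw [e']; exact (hs _).notK k')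
      · have e' : Sum.elim (f t) (pp (α t)) x = Sum.elim (f t') (pp (α t')) y := e
        obtain ⟨rfl, h1⟩ := hρ' t t' x y (by_contra fun h =>
          Set.disjoint_left.1 (hd _ _ h).1 (hρ t x) (e' ▸ hρ t' y))
        rcases x with x | x <;> rcases y with y | y
        · rw [hf t e']
        · exact absurd h1 (by simp)
        · exact absurd h1 (by simp)
        · rw [(hch.pp_inj e').2]
    obtain ⟨d1, g1, i0, iR, e, -, -, e1, el, -, h1⟩ := hNw w E col'
      (fun t => S' (α t).castSucc) kk _ (hF'.reindex _) hinj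
    refine ⟨w, d1.resK inl, core h3 hU hR hC hV hch hF' hc' hα hK (fun t p i v => ?_)
      (fun t t' h x y i => hz _ _ (fun e => h (hρ' t t' x y e).1) _ (hρ t x) _ (hρ t' y) i)
      (fun t i => hf' t ▸ hXa (τ t) i) (fun i k => e1 i (inl k)) el (h1.resK inl_injective)⟩
    exact (hJ _ (by simp) _ (hΩ _ p).1).2 i v
  obtain ⟨w, hw⟩ := finite_antitone (fun (w : Fin (w0 + 1)) n => ∃ d' : Datum F K (Fin w ⊕ P),
    RealN m n d' ∧ Phi m c d d') (fun _ _ _ hn h => h.imp fun _ k => ⟨k.1.mono hn, k.2⟩) key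
  obtain ⟨d', h1, h2⟩ := real_of_forall _ hw
  exact ⟨Fin w, inferInstance, d', h1.alg, h2⟩

end Pool.Agent.MP_d99b12_co.H25
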