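import Pool.Agent.MP_d99b12_co.H25.Spec3
import Pool.Agent.MP_d99b12_co.H25.SYS

/-! # One state machine for all the sub-petals -/

namespace Pool.Agent.MP_d99b12_co.H25

open Matrix Sum Sys56

namespace Sys2

variable {F : Type} [Field F] {K P P' : Type} [Fintype K] [Fintype P] [Fintype P']

lemma sum_ext {M : Type} [AddCommMonoid M] {f : P' → P} (hf : Function.Injective f) (u : P' → F)
    (g : P → F → M) (hg : ∀ p, g p 0 = 0) :
    ∑ p, g p (Function.extend f u 0 p) = ∑ q, g (f q) (u q) := by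
  classical
  symm
  refine Finset.sum_of_injOn f hf.injOn (fun _ _ => Finset.mem_univ _) (fun p _ hp => ?_)
    fun q _ => by rw [hf.extend_apply]
  rw [Function.extend_apply' _ _ _ fun ⟨q, h⟩ => hp ⟨q, Finset.mem_coe.2 (Finset.mem_univ _), h⟩]
  exact hg p

variable {δ : Matrix K K F} {y : P → K → F} {B : Matrix P P F} {f : P' → P} {X Y : Set P'}

omit [Fintype K] in
lemma out_ext (hf : Function.Injective f) (u : P' → F) :
    out y (Function.extend f u 0) = out (y ∘ f) u :=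
  sum_ext hf u (fun p c => c • y p) fun _ => zero_smul _ _

lemma lsol_ext (hf : Function.Injective f) (ω r : K → F) (u : P' → F) :
    LSol δ y B (f '' X) (f '' Y) ω r (Function.extend f u 0) ↔
      LSol δ (y ∘ f) (B.submatrix f f) X Y ω r u := by
  refine and_congr ⟨fun h q hq => ?_, fun h p hp => ?_⟩ ?_
  · have := h (f q) fun ⟨q', h1, h2⟩ => hq (hf h2 ▸ h1)
    rwa [hf.extend_apply] at this
  · by_cases h1 : ∃ q, f q = p
    · obtain ⟨q, rfl⟩ := h1
      rw [hf.extend_apply]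
      exact h q fun hq => hp ⟨q, hq, rfl⟩
    · rw [Function.extend_apply' _ _ _ h1]
      rfl
  · rw [Set.forall_mem_image]
    refine forall₂_congr fun p _ => ?_
    have : (B *ᵥ Function.extend f u 0) (f p) = (B.submatrix f f *ᵥ u) p :=
      sum_ext hf u (fun q c => B (f p) q * c) fun _ => mul_zero _
    rw [this]
    rfl

omit [Fintype K] [Fintype P] [Fintype P'] in
lemma eq_ext (hf : Function.Injective f) {v : P → F} (h : ∀ q, q ∉ f '' Y → v q = 0) :
    Function.extend f (v ∘ f) 0 = v := by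
  funext p
  by_cases h1 : ∃ q, f q = p
  · obtain ⟨q, rfl⟩ := h1
    rw [hf.extend_apply]
    rfl
  · rw [Function.extend_apply' _ _ _ h1, h p fun ⟨q, _, e⟩ => h1 ⟨q, e⟩]
    rfl

lemma letter_res (hf : Function.Injective f) (X Y : Set P') :
    Act.letter δ (y ∘ f) (B.submatrix f f) X Y = Act.letter δ y B (f '' X) (f '' Y) := by
  refine act_ext ?_ ?_
  · rintro ⟨ω, r, r2⟩
    rw [mem_letter, mem_letter]
    constructor
    · rintro ⟨u, h1, h2⟩
      exact ⟨_, (lsol_ext hf ω r u).2 h1, by rw [out_ext hf, h2]⟩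
    · rintro ⟨v, h1, h2⟩
      have e := eq_ext hf h1.1
      exact ⟨v ∘ f, (lsol_ext hf ω r _).1 (by rwa [e]), by rw [← out_ext hf, e, h2]⟩
  · rw [hid_letter, hid_letter]
    constructor
    · rintro ⟨u, h0, h1, h2⟩
      refine ⟨_, fun h => h0 (funext fun q => ?_), (lsol_ext hf 0 0 u).2 h1,
        by rw [out_ext hf, h2]⟩
      have := congrFun h (f q)
      rwa [hf.extend_apply] at this
    · rintro ⟨v, h0, h1, h2⟩
      have e := eq_ext hf h1.1
      refine ⟨v ∘ f, fun h => h0 ?_, (lsol_ext hf 0 0 _).1 (by rwa [e]),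
        by rw [← out_ext hf, e, h2]⟩
      rw [← e, h]
      exact Function.extend_zero f

end Sys2

theorem sys2 {F : Type} [Field F] [Fintype F] : SYS2 F := by
  intro K P _ _ d h h0 hd
  obtain ⟨Ub, hb, hU⟩ := exists_Ub h ⟨fun p => ⟨0, fun q => by simp [h0]⟩,
    fun p => ⟨0, fun q => by simp [h0]⟩⟩ hd
  have hall : Act.add ⊤ ∈ words (Ub + Ubᵀ) d.y d.B := by
    obtain ⟨Y, hY⟩ := letter_all (Ub + Ubᵀ) d.y d.B hd
    rw [← hY]
    exact letter_mem_words _ _ _
  refine ⟨⟨d.colK, d.D, Ub, words (Ub + Ubᵀ) d.y d.B, alg_D h, hb, one_mem_words _,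
    fun f hf g hg => comp_mem_words hf hg, hall⟩,
    (delta_iff hd hU).2 fun p q => by simp [h0], rfl, fun P' _ f hf hr hc => ?_⟩
  have e1 : ∀ X Y, Act.letter (Ub + Ubᵀ) (d.resP f).y (d.resP f).B X Y =
      Act.letter (Ub + Ubᵀ) d.y d.B (f '' X) (f '' Y) :=
    Sys2.letter_res (y := d.y) (B := d.B) hf
  have e2 : ∀ X Y, Act.letter (Ub + Ubᵀ) (d.resP f).y (d.resP f).Bs X Y =
      Act.letter (Ub + Ubᵀ) d.y d.Bs (f '' X) (f '' Y) :=
    Sys2.letter_res (y := d.y) (B := d.Bs) hf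
  refine ⟨⟨fun p => alg_y h (f p), fun p q hpq => ?_, fun p q => ?_,
    fun X Y => (e1 X Y).symm ▸ letter_mem_words _ _ _, hr, hc⟩,
    fun p q hpq => ?_, fun p q => ?_, fun _ _ _ => rfl, Or.inr rfl, ?_, ?_⟩
  · change d.B (f p) (f q) = 0
    simp [Datum.B, (alg_A h).2 (f p) (f q) hpq, h0]
  · refine Eq.trans ?_ (dot_delta hU (f p) (f q)).symm
    change d.B (f p) (f q) + d.B (f q) (f p) = _
    simp only [Datum.B, Matrix.add_apply, transpose_apply]
    rw [(alg_A h).1 (f p) (f q)]; ring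
  · change d.Bs (f p) (f q) = 0
    simp [Datum.Bs, (alg_As h).2 (f p) (f q) hpq, h0]
  · refine Eq.trans ?_ (dot_delta hU (f p) (f q)).symm
    change d.Bs (f p) (f q) + d.Bs (f q) (f p) = _
    simp only [Datum.Bs, Matrix.add_apply, transpose_apply]
    rw [(alg_As h).1 (f p) (f q)]; ring
  · rintro X Y al ⟨n, Zl, rfl⟩ XK YK
    obtain ⟨bx, H⟩ := main h hU 0
    have := H n Zl (f '' X) (f '' Y) Fin.elim0 XK YK
    rw [word_zero, word_zero, Sys56.comp_one, Sys56.comp_one, ← e1, ← e2] at this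
    rw [shift_zero, one_comp]
    exact this
  · rintro ar ⟨m, Zr, rfl⟩
    obtain ⟨bx, H⟩ := main h hU m
    refine ⟨word (Ub + Ubᵀ) d.y bx Zr, ?_⟩
    rintro X Y al ⟨n, Zl, rfl⟩ XK YK
    rw [shift_zero, one_comp]
    have := H n Zl (f '' X) (f '' Y) Zr XK YK
    rw [← e1, ← e2] at this
    exact this

end Pool.Agent.MP_d99b12_co.H25
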