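import Pool.Agent.MP_d99b12_co.H25.Spec

/-! # Statements for all odd primes: closed petals, the auxiliary petal, the final algebra -/

namespace Pool.Agent.MP_d99b12_co.H25

open Matrix Sum

section Defs

variable {F : Type} [Field F] {E K P W ι : Type} [Fintype K]

/-- `C` sees the rest of the world only through the rows `kk`. -/
structure Shut (S : Matrix E E F) (kk : K → E) (C : Set E) : Prop where
  notK : ∀ k, kk k ∉ C
  span : ∀ w, w ∉ C → InSpan S kk C w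

/-- A chain with `n` closed sets, each around two petals, and no edges between them. -/
def ClosedN (m n : ℕ) (d : Datum F K P) : Prop :=
  ∃ (E : Type) (_ : Fintype E) (col : E → Bool) (N : ℕ) (S : Fin (N + 1) → Matrix E E F)
    (kk : K → E) (pp : Fin N → P → E) (a b : Fin n → Fin N) (Ω : Fin n → Set E),
    Fam col S ∧ (∀ i, Conn m (S i)) ∧ IsChain d col S kk pp ∧ StrictMono a ∧ (∀ t, a t ≠ b t) ∧
    (∀ t p, pp (a t) p ∈ Ω t ∧ pp (b t) p ∈ Ω t) ∧ (∀ t, Shut (S (Fin.last N)) kk (Ω t)) ∧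
    ∀ t t', t ≠ t' → Disjoint (Ω t) (Ω t') ∧ ∀ u ∈ Ω t, ∀ w ∈ Ω t', S (Fin.last N) u w = 0

/-- A true petal: closed, connected, spanning, inside an ` (m + 2)`-connected matroid. -/
structure TP (m : ℕ) (S : Matrix E E F) (kk : K → E) (C : Set E) : Prop where
  conn : Conn m S
  inj : Function.Injective kk
  big : m < Fintype.card K
  shut : Shut S kk C
  full : Full S kk C
  con : ConnOn S C

/-- The elements of `C` outside `R` that have no neighbour in `R`. -/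
def Far (S : Matrix E E F) (C R : Set E) : Set E := {v | v ∈ C ∧ v ∉ R ∧ ∀ r ∈ R, S r v = 0}

variable [Fintype E]

/-- `b` arises from `a` by one principal pivot inside `C`. -/
def PivIn (C : Set E) (a b : Dsp F E ι) : Prop :=
  ∃ Z ⊆ C, b.1 = colFlip a.1 Z ∧ ∀ i, IsPiv (a.2 i) (b.2 i) Z

/-- Rows `R` of colour `c` with a common neighbour `o`; their core vectors have rank `|R| - 1`, and
no pivot on at most two edges removes the core vector of one of them (unless `R` is one row). -/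
structure Fan (c : Bool) (col : E → Bool) (S : Matrix E E F) (kk : K → E) (C : Set E) (o : E)
    (R : Set E) : Prop where
  oC : o ∈ C
  RC : R ⊆ C
  colR : ∀ r ∈ R, col r = c
  adj : ∀ r ∈ R, S r o ≠ 0
  dep : Dep S (Set.range kk) R
  base : ∃ r0 ∈ R, ¬Dep S (Set.range kk) (R \ {r0})
  ns2 : ∀ r ∈ R, ∀ r' ∈ R, ∀ e ∈ C, S r e ≠ 0 → ¬Dep S (insert e (Set.range kk)) {r, r'}
  ns3 : ∀ r ∈ R, ∀ r' ∈ R, ∀ r'' ∈ R, ∀ e ∈ C, S r e * S r' o ≠ S r o * S r' e →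
    ¬Dep S (insert o (insert e (Set.range kk))) {r, r', r''}

/-- Neighbours `U` of `R` with independent core vectors. -/
structure Wide (S : Matrix E E F) (kk : K → E) (C R U : Set E) : Prop where
  UC : U ⊆ C
  adj : ∀ e ∈ U, ∃ r ∈ R, S r e ≠ 0
  ind : ¬Dep S (Set.range kk) U

/-- The auxiliary petal `C` at connectivity `m`. -/
def Aux (m : ℕ) (c : Bool) (col : E → Bool) (S : Matrix E E F) (kk : K → E) (C : Set E) : Prop :=
  ConnOn S C ∧ Full S kk C ∧ ∃ o R U, Fan c col S kk C o R ∧ Wide S kk C R U ∧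
    (m + 2 ≤ U.ncard + R.ncard ∨
      (R.ncard = 1 ∧ m + 1 ≤ U.ncard + Fintype.card {k // ¬col (kk k) = c}))

/-- No display of `C` has a row of colour `c` that does not see the core. -/
def Marked (c : Bool) (a : Dsp F E ι) (i0 : ι) (kk : K → E) (C : Set E) : Prop :=
  ∀ b, PivIn C a b → ∀ r ∈ C, b.1 r = c → yv (b.2 i0) kk r ≠ 0

/-- The same structure in a display `(col, y, B)` of a petal. -/
structure Lc [Fintype W] (c : Bool) (col : W → Bool) (y : W → K → F) (B : Matrix W W F) (o : W)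
    (R U : Finset W) : Prop where
  colR : ∀ r ∈ R, col r = c
  adj : ∀ r ∈ R, B r o ≠ 0
  dep : ∃ φ : W → F, φ ≠ 0 ∧ (∀ r, r ∉ R → φ r = 0) ∧ ∑ r, φ r • y r = 0
  base : ∃ r0 ∈ R, ∀ φ : W → F, (∀ r, r ∉ R ∨ r = r0 → φ r = 0) → ∑ r, φ r • y r = 0 → φ = 0
  ns2 : ∀ r ∈ R, ∀ r' ∈ R, ∀ e, B r e ≠ 0 → ∀ φ : W → F, (∀ t, t ≠ r → t ≠ r' → φ t = 0) →
    ∑ t, φ t • y t = 0 → ∑ t, φ t * B t e = 0 → φ = 0
  ns3 : ∀ r ∈ R, ∀ r' ∈ R, ∀ r'' ∈ R, ∀ e, B r e * B r' o ≠ B r o * B r' e → ∀ φ : W → F,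
    (∀ t, t ≠ r → t ≠ r' → t ≠ r'' → φ t = 0) → ∑ t, φ t • y t = 0 → ∑ t, φ t * B t o = 0 →
    ∑ t, φ t * B t e = 0 → φ = 0
  adjU : ∀ e ∈ U, ∃ r ∈ R, B r e ≠ 0
  ind : ∀ u : W → F, (∀ e, e ∉ U → u e = 0) → ∑ e, u e • y e = 0 → u = 0

end Defs

variable (F : Type) [Field F] [Fintype F]

/-! ## Closed petals -/

/-- A crude bound on the level. -/
def CRUDE : Prop := ∃ L, ALG F L

def CLOSED (m : ℕ) : Prop := 2 ≤ m → CRUDE F → ∀ (K P : Type) [Fintype K] [Fintype P]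
  (d : Datum F K P), Real m d → d.Ref → d.Red → NConn d.B → d.Tau0 → d.Vis →
  m < Fintype.card K → ∃ (K' P' : Type) (_ : Fintype K') (_ : Fintype P') (d' : Datum F K' P'),
    d'.U = 0 ∧ d'.Red ∧ NConn d'.B ∧ d'.Vis ∧ m < Fintype.card K' ∧ ∀ n, ClosedN m n d'

/-! ## Inside one closed petal -/

/-- Linking: after pivots far from `R` the rank of the neighbours of `R` is the rank of a cut. -/
def LINK : Prop := ∀ (E ι K : Type) [Fintype E] [Fintype K] (a : Dsp F E ι) (i0 : ι)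
  (kk : K → E) (C R : Set E) (c : Bool), Fam a.1 a.2 → (∀ k, kk k ∉ C) → R ⊆ C →
  (∀ r ∈ R, a.1 r = c) → ∃ b U A, PivIn (Far (a.2 i0) C R) a b ∧ Wide (b.2 i0) kk C R U ∧ R ⊆ A ∧
    A ⊆ C ∧ (∀ r ∈ R, ∀ e ∈ C, a.2 i0 r e ≠ 0 → e ∈ A) ∧
    RkLE (b.2 i0) ((C \ A) ∪ kk '' {k | a.1 (kk k) = c}) A U.ncard

/-- A subset of a connected set is connected up by short paths. -/
def CONNECT : Prop := ∀ (E ι : Type) [Fintype E] (a : Dsp F E ι) (i0 : ι) (C W0 : Set E),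
  Fam a.1 a.2 → ConnOn (a.2 i0) C → W0 ⊆ C →
  ∃ b W, PivIn (Far (a.2 i0) C W0) a b ∧ W0 ⊆ W ∧ W ⊆ C ∧ W.ncard ≤ 4 * W0.ncard ∧
    ConnOn (b.2 i0) W

/-- The auxiliary petal inside a closed set around two connected spanning sets with twins. -/
def EXT (m : ℕ) : Prop := ∀ (E ι K : Type) [Fintype E] [Fintype K] (a : Dsp F E ι) (i0 : ι)
  (kk : K → E) (Ω C1 C2 : Set E) (c : Bool) (e1 e2 : E), Fam a.1 a.2 → Conn m (a.2 i0) →
  Function.Injective kk → m < Fintype.card K → Shut (a.2 i0) kk Ω → C1 ⊆ Ω → C2 ⊆ Ω →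
  ConnOn (a.2 i0) C1 → ConnOn (a.2 i0) C2 → Full (a.2 i0) kk C1 → Full (a.2 i0) kk C2 →
  e1 ∈ C1 → e2 ∈ C2 → e1 ≠ e2 → yv (a.2 i0) kk e1 = yv (a.2 i0) kk e2 → ¬a.1 e1 = c →
  ¬a.1 e2 = c → 2 * Fintype.card {k // ¬a.1 (kk k) = c} < m →
  ∃ b W, PivIn Ω a b ∧ W ⊆ Ω ∧ W.ncard ≤ 4 * (3 * Fintype.card K + 2) ∧
    Aux m c b.1 (b.2 i0) kk W

/-! ## Packing -/

def PACK (m : ℕ) : Prop := ∀ (K P : Type) [Fintype K] [Fintype P] (d : Datum F K P) (c : Bool),
  d.U = 0 → d.Red → NConn d.B → d.Vis → m < Fintype.card K →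
  2 * Fintype.card {k // ¬d.colK k = c} < m → (∀ n, ClosedN m n d) →
  ∃ (W : Type) (_ : Fintype W) (d' : Datum F K (W ⊕ P)), d'.Alg ∧ d'.U = 0 ∧ d'.colK = d.colK ∧
    (d'.resP inr).Red ∧ NConn (d'.resP inr).B ∧ (d'.resP inr).Vis ∧
    Aux m c (d'.resP inl).dsp.1 ((d'.resP inl).pair false) inl (Set.range inr)

def SYS2 : Prop := ∀ (K P : Type) [Fintype K] [Fintype P] (d : Datum F K P), d.Alg → d.U = 0 →
  d.Red → ∃ s : Sys F K, s.δ = 0 ∧ s.colK = d.colK ∧ ∀ (P' : Type) [Fintype P'] (f : P' → P),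
    Function.Injective f → (d.resP f).Red → NConn (d.resP f).B →
    Disp s (d.resP f).colP (d.resP f).y (d.resP f).B (d.resP f).Bs 0

/-! ## The final algebra -/

/-- The smaller side of the core has fewer than `k` elements. -/
def MINS (p k : ℕ) : Prop := p.Prime → 2 ≤ k → Fintype.card F = p ^ k → ∀ (I J : Type) [Fintype I]
  [Fintype J] (A : Anem F I J), A.Ax → Fintype.card J ≤ Fintype.card I → Fintype.card J < k

/-- A visible petal bounds the auxiliary petal of the same system. -/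
def KILLW (p k : ℕ) : Prop := p.Prime → p ≠ 2 → 2 ≤ k → Fintype.card F = p ^ k →
  ∀ (K P W : Type) [Fintype K] [Fintype P] [Fintype W] (s : Sys F K) (col : P → Bool)
  (y : P → K → F) (B Bs : Matrix P P F) (a b : P) (c : Bool) (col' : W → Bool) (y' : W → K → F)
  (B' : Matrix W W F) (o : W) (R U : Finset W), s.δ = 0 → Disp s col y B Bs 0 → VisP y B Bs a b →
  SDisp s col' y' B' → Lc c col' y' B' o R U →
  Fintype.card {k // ¬s.colK k = c} ≤ Fintype.card {k // s.colK k = c} →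
  1 ≤ Fintype.card {k // ¬s.colK k = c} → Fintype.card {k // ¬s.colK k = c} < k →
  (R.card = 1 → U.card + Fintype.card {k // ¬s.colK k = c} ≤ (k - 1) * (p - 1) + 1) ∧
  (2 ≤ R.card → U.card + R.card ≤ (k - 1) * (p - 1) + 2)

end Pool.Agent.MP_d99b12_co.H25
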