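import Pool.Agent.MP_d99b12_co.H25.PATH1

/-! # Row PATH, part 3: pivots along the rail -/

namespace Pool.Agent.MP_d99b12_co.H25

open Matrix Sum STAR

set_option linter.unusedSectionVars false

variable {F : Type} [Field F]

namespace PATH

variable {K P E : Type} [Fintype K] [Fintype P] [Fintype E] {m p0 κ T : ℕ} {P0 : Set P}
  {col : E → Bool} {S : Fin T → Matrix E E F} {kk : K → E} {X : Fin T → E → K → F} {Q0 : Set E}
  {e : Fin T → P ⊕ ℕ → E} {len : Fin T → ℕ} {pf : P → E}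
  {L w : ℕ} {gg : ℕ → Fin T} {b : ℕ → ℕ} {z : ℕ → E} {N p l : ℕ} {f t : ℕ → ℕ}

/-- One more independent column than the core has rows. -/
lemma level {M : Matrix E E F} {Y : E → K → F} {c : K → E} {u v : E} {A B : Set E} (sk : Skew M)
    (hf : Full M kk (Set.range pf)) (al : ∀ k q, nat M kk Y (c k) (pf q) = 0)
    (rk : ∀ x : K → F, ∑ k, x k • Y (c k) = 0 →
      (∀ r, ∑ k, x k * nat M kk Y (c k) (kk r) = 0) → x = 0)
    (h2 : ∀ k, nat M kk Y u (c k) = 0) (h0 : nat M kk Y u v ≠ 0) (hk : ∀ k, kk k ∈ A)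
    (hp : ∀ q, pf q ∈ A) (huA : u ∈ A) (hc : ∀ k, c k ∈ B) (hv : v ∈ B) :
    ¬RkLE M A B (Fintype.card K) := by
  rintro ⟨x, y, h⟩
  refine not_rkLE_of_full (S := M) (kk := c) (X := B) (Y := A) (u := v) (fun a ha => ?_)
    (fun ⟨a, ha⟩ => h0 ?_) hc hv
    ⟨-y, x, fun w hw a ha => by rw [sk, h a ha w hw, Pi.neg_apply, neg_dotProduct, dotProduct_comm]⟩
  · have h1 : ∑ k, a k • Y (c k) = 0 := hf _ fun b hb => by
      obtain ⟨q, rfl⟩ := hb
      rw [← ha _ (hp q), sum_dotProduct, dotProduct]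
      exact Finset.sum_congr rfl fun k _ => by
        rw [smul_dotProduct, ← sub_eq_zero.1 (al k q)]; rfl
    refine rk a h1 fun r => ?_
    have h3 := congrArg (· ⬝ᵥ yv M kk (kk r)) h1
    simp only [sum_dotProduct, smul_dotProduct, smul_eq_mul, zero_dotProduct] at h3
    simp only [nat, mul_sub, Finset.sum_sub_distrib, h3, sub_zero]
    exact ha _ (hk r)
  · have h1 (o) (ho : o ∈ A) : M o v = ∑ k, a k * M o (c k) := by
      rw [sk, ha o ho, dotProduct, ← Finset.sum_neg_distrib]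
      exact Finset.sum_congr rfl fun k _ => by rw [sk o, yv, mul_neg]
    simp only [nat, sub_eq_zero] at h2 ⊢
    simp only [h1 u huA, h2, dotProduct, yv, h1 _ (hk _), Finset.mul_sum]
    rw [Finset.sum_comm]
    exact Finset.sum_congr rfl fun _ _ => Finset.sum_congr rfl fun _ _ => by ring

variable (G : Grown m p0 κ P0 col S kk X Q0 e len pf) (R : Rail S kk X e len L w gg b z)
include G R

lemma seg_piv [Fintype F] (hi : IDL F) (i : Fin T) {M : Matrix E E F} (hM : Skew M)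
    (hd : ∀ u, M u u = 0) {a a' : ℕ} (h1 : 1 ≤ a) (h2 : a < a') (h3 : a' ≤ b L)
    (hid : rrun S kk X z i a (a' - a) = id) {Λ Ω : Set E} (hD : Disjoint Λ Ω)
    (hZ : ∀ k, a ≤ k → k < a' → z k ∉ Λ ∧ z k ∉ Ω)
    (e1 : ∀ k, a ≤ k → k < a' → (∀ k', a ≤ k' → k' < a' → M (z k') (z k) = S i (z k') (z k)) ∧
      (∀ u ∈ Λ, M u (z k) = S i u (z k)) ∧ ∀ v ∈ Ω, M (z k) v = S i (z k) v)
    (hl : ∀ u ∈ Λ, ∀ k, a < k → k < a' → nat (S i) kk (X i) u (z k) = 0)
    (hr : ∀ v ∈ Ω, ∀ k, a ≤ k → k + 1 < a' → nat (S i) kk (X i) (z k) v = 0) :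
    ∃ M', IsPiv M M' (seg z a a') ∧ AgreeOn Λ M M' ∧ AgreeOn Ω M M' ∧ ∀ u ∈ Λ, ∀ v ∈ Ω,
      M' u v = M u v + nat (S i) kk (X i) u (z a) / nat (S i) kk (X i) (z (a - 1)) (z a) *
        nat (S i) kk (X i) (z (a' - 1)) v := by
  have hs : seg z a a' = {x | ∃ j < a' - a, z (a + j) = x} := by
    ext x
    exact ⟨fun ⟨k, u, v, h⟩ => ⟨k - a, by omega, by rwa [Nat.add_sub_cancel' u]⟩,
      fun ⟨j, u, h⟩ => ⟨a + j, by omega, by omega, h⟩⟩
  have lk : ∀ k, 1 ≤ k → k < b L → nat (S i) kk (X i) (z (k - 1)) (z k) ≠ 0 := fun k u v => by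
    have := R.link (k - 1) (by omega) i
    rwa [Nat.sub_add_cancel u] at this
  have un : ∀ u v, S i u v = X i u ⬝ᵥ yv (S i) kk v + nat (S i) kk (X i) u v := fun u v => by
    rw [nat]; ring
  rw [hs]
  refine hi E K M (X i) (yv (S i) kk) z (fun k => nat (S i) kk (X i) (z (k - 1)) (z k)) a (a' - a)
    Λ Ω _ _ hM hd (by omega) (fun j u j' v h => ?_) (fun j u => hZ _ (by omega) (by omega))
    (fun j u => lk _ (by omega) (by omega)) (fun j j' u v => ?_) (fun x hx j u => ?_)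
    (fun x hx j u => ?_) hD hid
  · have := z_inj G R (by omega) (by omega) h
    omega
  · rw [(e1 _ (by omega) (by omega)).1 _ (by omega) (by omega), un]
    split_ifs with h
    · subst h; rfl
    · rw [R.chord _ _ (by omega) (by omega)]
  · rw [(e1 _ (by omega) (by omega)).2.1 x hx, un]
    split_ifs with h
    · subst h
      rw [mul_div_cancel₀ _ (lk a h1 (by omega))]; rfl
    · rw [hl x hx _ (by omega) (by omega)]
  · rw [(e1 _ (by omega) (by omega)).2.2 x hx, un]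
    split_ifs with h
    · rw [show a + j = a' - 1 by omega]
    · rw [hr x hx _ (by omega) (by omega)]

variable (B : Blk S kk X e len L gg b z N p l f t)
include B

omit G in
lemma nums {h : ℕ} (hN : h ≤ N + 1) : f h < L ∧ b (f h) < b (f h + 1) ∧ b (f h + 1) < b (t h) ∧
    b (t h) < b L := by
  have a1 := B.ft h hN
  have a2 : t h < L := by
    rcases hN.eq_or_lt with rfl | h'
    · exact B.lt
    · have := B.tf h _ h' le_rfl
      have := B.ft _ le_rfl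
      have := B.lt
      omega
  exact ⟨by omega, R.b_lt _, b_smono R (by omega), b_smono R a2⟩

omit G in
lemma nums2 {h h' : ℕ} (a : h < h') (hN : h' ≤ N + 1) : b (t h) < b (f h') :=
  b_smono R (B.tf h h' a hN)

omit G in
lemma vlp {h : ℕ} (hN : h ≤ N + 1) {x : P ⊕ ℕ} (hx : x ∈ vl P p) : x ∈ vl P (len (gg (f h))) := by
  rw [B.len h hN]; exact hx

/-- The left part of the core. -/
def lam (kk : K → E) (c : P → E) (u : E) : Set E := Set.range kk ∪ Set.range c ∪ {u}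

lemma lam_QS {h : ℕ} (h1 : 1 ≤ h) (hN : h ≤ N + 1) :
    lam kk (fun q => e (gg (f 0)) (inl q)) (z (b (t 0) - 1)) ⊆ QS Q0 e len (gg (f h)).val := by
  have a0 := nums R B (Nat.zero_le (N + 1))
  have a1 := nums R B hN
  have a2 := nums2 R B h1 hN
  have a3 := B.tf 0 h h1 hN
  have a4 := B.ft 0 (by omega)
  rintro _ ((⟨r, rfl⟩ | ⟨q, rfl⟩) | rfl)
  · exact Or.inl (G.kQ r)
  · exact mem_QS (R.mono _ _ (by omega) a1.1) fun _ h => by cases h
  · exact z_QS R a1.1 (by omega)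

lemma lam_z {k : ℕ} (h1 : b (t 0) ≤ k) (h2 : k < b L) :
    z k ∉ lam kk (fun q => e (gg (f 0)) (inl q)) (z (b (t 0) - 1)) := by
  have a0 := nums R B (Nat.zero_le (N + 1))
  rintro ((⟨r, h⟩ | ⟨q, h⟩) | h)
  · exact z_ne_kk G R h2 r h.symm
  · have := z_eq G R h2 a0.1 (fun _ h => by cases h) h.symm
    omega
  · have := z_inj G R h2 (by omega) h
    omega

lemma lam_nat {k : ℕ} (h1 : b (t 0) < k) (h2 : k < b L) (i : Fin T) :
    ∀ u ∈ lam kk (fun q => e (gg (f 0)) (inl q)) (z (b (t 0) - 1)),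
      nat (S i) kk (X i) u (z k) = 0 := by
  have a0 := nums R B (Nat.zero_le (N + 1))
  rintro _ ((⟨r, rfl⟩ | ⟨q, rfl⟩) | rfl)
  · exact nat_kk G i r _
  · exact nat_e_z G R (fun _ h => by cases h) (by omega) h2 i
  · exact R.chord _ _ (by omega) h2 i

/-- The pivot on the rail between block `0` and block `h`. -/
lemma left_piv [Fintype F] (hi : IDL F) {h h' : ℕ} (h1 : 1 ≤ h) (h2 : h ≤ h') (h3 : h' ≤ N + 1) :
    ∃ M', IsPiv (S (gg (f h'))) M' (seg z (b (t 0)) (b (f h))) ∧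
      AgreeOn (lam kk (fun q => e (gg (f 0)) (inl q)) (z (b (t 0) - 1))) (S (gg (f h'))) M' ∧
      AgreeOn (Set.range pf ∪ e (gg (f h)) '' vl P p ∪ seg z (b (t h)) (b L)) (S (gg (f h'))) M' ∧
      ∀ u ∈ lam kk (fun q => e (gg (f 0)) (inl q)) (z (b (t 0) - 1)),
        ∀ v ∈ Set.range pf ∪ e (gg (f h)) '' vl P p ∪ seg z (b (t h)) (b L),
        M' u v = S (gg (f h')) u v + nat (S (gg (f h'))) kk (X (gg (f h'))) u (z (b (t 0))) /
          nat (S (gg (f h'))) kk (X (gg (f h'))) (z (b (t 0) - 1)) (z (b (t 0))) *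
          nat (S (gg (f h'))) kk (X (gg (f h'))) (z (b (f h) - 1)) v := by
  have hN : h ≤ N + 1 := h2.trans h3
  have a0 := nums R B (Nat.zero_le (N + 1))
  have a1 := nums R B hN
  have a2 := nums2 R B h1 hN
  refine seg_piv G R hi _ (G.fam.skew _) (G.fam.diag _) (by omega) a2 (by omega)
    (B.idL h h' h1 h2 h3) (Set.disjoint_left.2 ?_) (fun k u v => ⟨lam_z G R B u (by omega), ?_⟩)
    (fun _ _ _ => ⟨fun _ _ _ => rfl, fun _ _ => rfl, fun _ _ => rfl⟩)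
    (fun u hu k a c => lam_nat G R B a (by omega) _ u hu) ?_
  · rintro u hu ((⟨q, rfl⟩ | ⟨x, hx, rfl⟩) | ⟨k, u1, u2, rfl⟩)
    · exact G.pfQ q (QS_mono (Fin.is_lt _).le (lam_QS G R B h1 hN hu))
    · exact (G.piece _).disj x (vlp R B hN hx) (lam_QS G R B h1 hN hu)
    · exact lam_z G R B (by omega) u2 hu
  · rintro ((⟨q, h⟩ | ⟨x, hx, h⟩) | ⟨k', u1, u2, h⟩)
    · exact z_ne_pf G R (by omega) q h.symm
    · have := z_eq G R (by omega) a1.1 (vlp R B hN hx) h.symm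
      omega
    · have := z_inj G R u2 (by omega) h
      omega
  · rintro _ ((⟨q, rfl⟩ | ⟨x, hx, rfl⟩) | ⟨k', u1, u2, rfl⟩) k a c
    · exact nat_pf G _ (z_QT R (by omega)) q
    · by_cases h0 : x = inr 0
      · rw [h0, ← R.start _ a1.1]
        exact R.chord _ _ (by omega) (by omega) _
      · exact (G.piece _).zero _ _ (z_QS R a1.1 (by omega)) x (vlp R B hN hx) h0
    · exact R.chord _ _ (by omega) u2 _

lemma left_agree {h : ℕ} {i : Fin T} {M : Matrix E E F} {Ω : Set E} {β : E → F} (hM : Skew M)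
    (q1 : AgreeOn (lam kk (fun q => e (gg (f 0)) (inl q)) (z (b (t 0) - 1))) (S i) M)
    (q2 : AgreeOn Ω (S i) M)
    (q3 : ∀ u ∈ lam kk (fun q => e (gg (f 0)) (inl q)) (z (b (t 0) - 1)), ∀ v ∈ Ω,
      M u v = S i u v + nat (S i) kk (X i) u (z (b (t h))) / nat (S i) kk (X i) (z (b (t h) - 1))
        (z (b (t h))) * β v) {u v : E} (hu : u ∈ Set.range kk ∪ Ω) (hv : v ∈ Set.range kk ∪ Ω) :
    M u v = S i u v ∧ nat M kk (X i) u v = nat (S i) kk (X i) u v := by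
  have k1 : ∀ r, ∀ v ∈ Set.range kk ∪ Ω, M (kk r) v = S i (kk r) v := by
    rintro r v (⟨r', rfl⟩ | hv)
    · exact q1 _ (.inl (.inl ⟨r, rfl⟩)) _ (.inl (.inl ⟨r', rfl⟩))
    · rw [q3 _ (.inl (.inl ⟨r, rfl⟩)) v hv, nat_kk G, zero_div, zero_mul, add_zero]
  have k2 : M u v = S i u v := by
    rcases hu with ⟨r, rfl⟩ | hu
    · exact k1 r v hv
    rcases hv with ⟨r, rfl⟩ | hv
    · rw [hM, G.fam.skew i, k1 r u (.inr hu)]
    · exact q2 u hu v hv
  exact ⟨k2, by rw [nat, nat, k2, show yv M kk v = yv (S i) kk v from funext fun r => k1 r v hv]⟩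

/-- The display in which block `h` hangs directly on block `0`. -/
lemma two_step [Fintype F] (hi : IDL F) {h : ℕ} (h1 : 1 ≤ h) (hN : h ≤ N) :
    ∃ S2 : Fin T → Matrix E E F, (∀ i, IsPiv (S i) (S2 i)
      (symmDiff (seg z (b (t 0)) (b (f h))) (seg z (b (t h)) (b (f (N + 1)))))) ∧
    (∀ h', h ≤ h' → h' ≤ N + 1 → ∀ u ∈ Set.range kk ∪ e (gg (f h)) '' vl P p,
      ∀ v ∈ (Set.range kk ∪ e (gg (f h)) '' vl P p) ∪ Set.range pf,
      nat (S2 (gg (f h'))) kk (X (gg (f h'))) u v = nat (S (gg (f h'))) kk (X (gg (f h'))) u v) ∧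
    (∀ o ∈ Set.range kk ∪ Set.range pf, ∀ q, S2 (gg (f (N + 1))) o (e (gg (f h)) (inl q)) =
      S2 (gg (f (N + 1))) o (e (gg (f 0)) (inl q))) ∧
    Full (S2 (gg (f (N + 1)))) kk (Set.range pf) ∧
    ∀ A C : Set E, (∀ k, kk k ∈ A) → (∀ q, pf q ∈ A) → z (b (t 0) - 1) ∈ A →
      (∀ x ∈ vl P p, e (gg (f h)) x ∈ C) → ¬RkLE (S2 (gg (f (N + 1)))) A C (Fintype.card K) := by
  classical
  have hN' : h ≤ N + 1 := by omega
  have a0 := nums R B (Nat.zero_le (N + 1))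
  have a1 := nums R B hN'
  have a2 := nums2 R B h1 hN'
  have a3 := nums2 R B (show h < N + 1 by omega) le_rfl
  have a4 := nums R B (le_refl (N + 1))
  have hv (q : P) (n : ℕ) : (inl q : P ⊕ ℕ) ∈ vl P n := fun _ h => by cases h
  have hv0 : (inr 0 : P ⊕ ℕ) ∈ vl P p := B.len h hN' ▸ v0_mem G _
  obtain ⟨M1, p1, q1, q2, q3⟩ := left_piv G R B hi h1 hN' le_rfl
  obtain ⟨S1, hS1⟩ := G.fam.exists_piv p1.not_dep
  obtain rfl := (hS1 _).unique p1
  have F1 := G.fam.piv hS1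
  have pz : ∀ k, b (t h) ≤ k → k < b L → z k ∉ e (gg (f h)) '' vl P p := by
    rintro k u v ⟨x, hx, h⟩
    have := z_eq G R v a1.1 (vlp R B hN' hx) h.symm
    omega
  have pp : ∀ q, pf q ∉ e (gg (f h)) '' vl P p := by
    rintro q ⟨x, hx, h⟩
    exact G.pfQ q (h ▸ mem_QS (Fin.is_lt _) (vlp R B hN' hx))
  have bpf : ∀ i k, k < b L → ∀ q, nat (S i) kk (X i) (z k) (pf q) = 0 := fun i k hk q =>
    nat_pf G _ (z_QT R hk) q
  obtain ⟨M2, p2, r1, -, r3⟩ := seg_piv G R hi (gg (f (N + 1))) (F1.skew (gg (f (N + 1))))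
    (F1.diag _) (by omega) a3 (by omega) (B.idR h hN)
    (Λ := lam kk (fun q => e (gg (f 0)) (inl q)) (z (b (t 0) - 1)) ∪ e (gg (f h)) '' vl P p)
    (Ω := Set.range pf) (Set.disjoint_right.2 (by
      rintro _ ⟨q, rfl⟩ (hu | hu)
      · exact G.pfQ q (QS_mono (Fin.is_lt _).le (lam_QS G R B h1 hN' hu))
      · exact pp q hu))
    (fun k u v => ⟨fun h => h.elim (lam_z G R B (by omega) (by omega)) (pz k u (by omega)),
      fun ⟨q, h⟩ => z_ne_pf G R (by omega) q h.symm⟩)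
    (fun k u v => by
      have zk : z k ∈ Set.range pf ∪ e (gg (f h)) '' vl P p ∪ seg z (b (t h)) (b L) :=
        .inr ⟨k, u, by omega, rfl⟩
      refine ⟨fun k' u' v' => q2 _ (.inr ⟨k', u', by omega, rfl⟩) _ zk, ?_,
        fun o ho => q2 _ zk _ (.inl (.inl ho))⟩
      rintro x (hx | hx)
      · rw [q3 x hx _ zk, R.chord (b (f h) - 1) k (by omega) (by omega), mul_zero, add_zero]
      · exact q2 _ (.inl (.inr hx)) _ zk)
    (by
      rintro x (hx | ⟨x, hx, rfl⟩) k u v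
      · exact lam_nat G R B (by omega) (by omega) _ x hx
      · exact nat_e_z G R (vlp R B hN' hx) (by omega) (by omega) _)
    (by
      rintro _ ⟨q, rfl⟩ k u v
      exact bpf _ k (by omega) q)
  obtain ⟨S2, hS2⟩ := F1.exists_piv p2.not_dep
  obtain rfl := (hS2 _).unique p2
  have F2 := F1.piv hS2
  have hnat : ∀ h', h ≤ h' → h' ≤ N + 1 → ∀ u ∈ Set.range kk ∪ e (gg (f h)) '' vl P p,
      ∀ v ∈ (Set.range kk ∪ e (gg (f h)) '' vl P p) ∪ Set.range pf,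
      nat (S2 (gg (f h'))) kk (X (gg (f h'))) u v = nat (S (gg (f h'))) kk (X (gg (f h'))) u v := by
    intro h' u1 u2 u hu v hv
    obtain ⟨M, p', s1, s2, s3⟩ := left_piv G R B hi h1 u1 u2
    obtain rfl := (hS1 _).unique p'
    have ag := fun u v => (left_agree G R B (u := u) (v := v) (F1.skew _) s1 s2 s3 · · |>.2)
    have sub : Set.range kk ∪ e (gg (f h)) '' vl P p ⊆ Set.range kk ∪
        (Set.range pf ∪ e (gg (f h)) '' vl P p ∪ seg z (b (t h)) (b L)) :=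
      Set.union_subset_union_right _ fun _ h => .inl (.inr h)
    rw [(hS2 _).nat_eq (F1.skew _) (Q := Set.range kk ∪ e (gg (f h)) '' vl P p)
      (Ω := Set.range pf) ?_ ?_ ?_ ?_ ?_ (fun r => .inl ⟨r, rfl⟩)
      (fun r => (G.al _ _ (Or.inl (G.kQ r))).eq_single (G.full _)) u hu v hv]
    · exact ag u v (sub hu) (hv.elim (sub ·) fun h => .inr (.inl (.inl h)))
    · refine Set.disjoint_right.2 ?_
      rintro _ ⟨k, c1, c2, rfl⟩ (⟨r, h⟩ | h)
      · exact z_ne_kk G R (by omega) r h.symm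
      · exact pz k c1 (by omega) h
    · refine Set.disjoint_right.2 ?_
      rintro _ ⟨k, c1, c2, rfl⟩ ⟨q, h⟩
      exact z_ne_pf G R (by omega) q h.symm
    · refine Set.disjoint_right.2 ?_
      rintro _ ⟨q, rfl⟩ (⟨r, h⟩ | h)
      · exact G.pfQ q (h ▸ Or.inl (G.kQ r))
      · exact pp q h
    · rintro x hx _ ⟨k, c1, c2, rfl⟩
      rw [ag _ _ (sub hx) (.inr (.inr ⟨k, c1, by omega, rfl⟩))]
      rcases hx with ⟨r, rfl⟩ | ⟨x, hx, rfl⟩
      · exact nat_kk G _ r _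
      · exact nat_e_z G R (vlp R B hN' hx) (by omega) (by omega) _
    · rintro _ ⟨k, c1, c2, rfl⟩ _ ⟨q, rfl⟩
      rw [ag _ _ (.inr (.inr ⟨k, c1, by omega, rfl⟩)) (.inr (.inl (.inl ⟨q, rfl⟩)))]
      exact bpf _ k (by omega) q
  have E1 : ∀ u ∈ lam kk (fun q => e (gg (f 0)) (inl q)) (z (b (t 0) - 1)) ∪
      e (gg (f h)) '' vl P p, ∀ q, S2 (gg (f (N + 1))) u (pf q) = S (gg (f (N + 1))) u (pf q) := by
    intro u hu q
    rw [r3 u hu _ ⟨q, rfl⟩, bpf _ _ (by omega), mul_zero, add_zero]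
    rcases hu with hu | hu
    · rw [q3 u hu _ (.inl (.inl ⟨q, rfl⟩)), bpf _ _ (by omega), mul_zero, add_zero]
    · exact q2 _ (.inl (.inr hu)) _ (.inl (.inl ⟨q, rfl⟩))
  have E2 : ∀ r, ∀ u ∈ lam kk (fun q => e (gg (f 0)) (inl q)) (z (b (t 0) - 1)) ∪
      e (gg (f h)) '' vl P p, S2 (gg (f (N + 1))) (kk r) u = S (gg (f (N + 1))) (kk r) u := by
    intro r u hu
    rw [r1 _ (.inl (.inl (.inl ⟨r, rfl⟩))) u hu]
    rcases hu with hu | hu
    · exact q1 _ (.inl (.inl ⟨r, rfl⟩)) u hu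
    · rw [q3 _ (.inl (.inl ⟨r, rfl⟩)) u (.inl (.inr hu)), nat_kk G, zero_div, zero_mul, add_zero]
  have E3 : ∀ x ∈ vl P p, nat (S2 (gg (f (N + 1)))) kk (X (gg (f (N + 1)))) (z (b (t 0) - 1))
      (e (gg (f h)) x) = nat (S (gg (f (N + 1)))) kk (X (gg (f (N + 1)))) (z (b (t 0) - 1))
      (e (gg (f h)) x) + nat (S (gg (f (N + 1)))) kk (X (gg (f (N + 1)))) (z (b (f h) - 1))
      (e (gg (f h)) x) := by
    intro x hx
    have lk := R.link (b (t 0) - 1) (by omega) (gg (f (N + 1)))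
    rw [show b (t 0) - 1 + 1 = b (t 0) by omega] at lk
    rw [nat, r1 _ (.inl (.inr rfl)) _ (.inr ⟨x, hx, rfl⟩),
      q3 _ (.inr rfl) _ (.inl (.inr ⟨x, hx, rfl⟩)), div_self lk, one_mul,
      show yv (S2 (gg (f (N + 1)))) kk (e (gg (f h)) x) = yv (S (gg (f (N + 1)))) kk _ from
        funext fun r => E2 r _ (.inr ⟨x, hx, rfl⟩), add_sub_right_comm]
    rfl
  have hfull : Full (S2 (gg (f (N + 1)))) kk (Set.range pf) := fun x hx => G.full _ x (by
    rintro _ ⟨q, rfl⟩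
    rw [← hx _ ⟨q, rfl⟩, show yv (S2 (gg (f (N + 1)))) kk (pf q) = yv (S (gg (f (N + 1)))) kk _
      from funext fun r => E1 _ (.inl (.inl (.inl ⟨r, rfl⟩))) q])
  refine ⟨S2, fun i => (hS1 i).comp (hS2 i), hnat, ?_, hfull, fun A C c1 c2 c3 c4 => ?_⟩
  · rintro _ (⟨r, rfl⟩ | ⟨q', rfl⟩) q
    · rw [E2 r _ (.inr ⟨_, hv q p, rfl⟩), E2 r _ (.inl (.inl (.inr ⟨q, rfl⟩))), B.colK h hN]
    · rw [F2.skew, F2.skew _ (pf q'), E1 _ (.inr ⟨_, hv q p, rfl⟩),
        E1 _ (.inl (.inl (.inr ⟨q, rfl⟩))), G.al _ _ (mem_QS (Fin.is_lt _) (hv q _)) _ ⟨q', rfl⟩,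
        G.al _ _ (mem_QS (Fin.is_lt _) (hv q _)) _ ⟨q', rfl⟩, B.colX h hN]
  · obtain ⟨C0, hC⟩ := (G.piece (gg (f h))).rk
    have mc (q : P) : e (gg (f h)) (inl q) ∈ Set.range kk ∪ e (gg (f h)) '' vl P p :=
      .inr ⟨_, hv q p, rfl⟩
    refine level (Y := X (gg (f (N + 1)))) (c := fun k => e (gg (f h)) (inl (C0 k))) (F2.skew _)
      hfull (fun k q => ?_) (fun x x1 x2 => hC _ x x1 fun r => ?_) (fun k => ?_) ?_ c1 c2 c3
      (fun k => c4 _ (hv _ p)) (c4 _ hv0)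
    · rw [hnat _ hN' le_rfl _ (mc _) _ (.inr ⟨q, rfl⟩)]
      exact nat_pf G _ (mem_QS (Fin.is_lt _) (hv _ _)) q
    · rw [← x2 r]
      exact Finset.sum_congr rfl fun k _ => by
        rw [hnat _ hN' le_rfl _ (mc _) _ (.inl (.inl ⟨r, rfl⟩))]
    · rw [E3 _ (hv _ p), (G.piece _).zero _ _ (z_QS R a1.1 (by omega)) _ (hv _ _) (by simp),
        (G.piece _).zero _ _ (z_QS R a1.1 (by omega)) _ (hv _ _) (by simp), add_zero]
    · have lk := R.link (b (f h) - 1) (by omega) (gg (f (N + 1)))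
      rw [show b (f h) - 1 + 1 = b (f h) by omega] at lk
      rwa [E3 _ hv0, ← R.start _ a1.1, R.chord _ _ (by omega) (by omega), zero_add]

end PATH

end Pool.Agent.MP_d99b12_co.H25
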