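import Pool.Agent.MP_d99b12_co.H25.PATH1

/-! # Row PATH, part 4: the blocks are connected -/

namespace Pool.Agent.MP_d99b12_co.H25

open Matrix Sum STAR

set_option linter.unusedSectionVars false

variable {F : Type} [Field F]

namespace PATH

open Classical in
/-- A splitting of `B` is respected by the nonzero entries of `M`. -/
lemma split_iff [Fintype F] {D : Type} [Fintype D] {B M : Matrix D D F} {Z : Set D} {v0 zl : D}
    (H : ∀ a : D → F, Z.piecewise (B *ᵥ a) a v0 = 0 ∧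
      ∀ x, x ≠ zl → Z.piecewise a (B *ᵥ a) x = (M *ᵥ Z.piecewise (B *ᵥ a) a) x)
    {Y : Set D} (hY : ∀ x ∈ Y, ∀ y, y ∉ Y → B x y = 0 ∧ B y x = 0) {x y : D} (hx : x ≠ zl)
    (hy : y ≠ v0) (hM : M x y ≠ 0) : x ∈ Y ↔ y ∈ Y := by
  have inj : Function.Injective fun a : D → F =>
      Function.update (Z.piecewise (B *ᵥ a) a) v0 (Z.piecewise a (B *ᵥ a) zl) := by
    intro a a' h
    have h1 : Z.piecewise (B *ᵥ a) a = Z.piecewise (B *ᵥ a') a' := funext fun q => by
      by_cases e : q = v0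
      · rw [e, (H a).1, (H a').1]
      · simpa [Function.update_of_ne e] using congrFun h q
    have h2 : Z.piecewise a (B *ᵥ a) = Z.piecewise a' (B *ᵥ a') := funext fun q => by
      by_cases e : q = zl
      · rw [e]
        simpa using congrFun h v0
      · rw [(H a).2 q e, (H a').2 q e, h1]
    funext q
    by_cases e : q ∈ Z
    · simpa [e] using congrFun h2 q
    · simpa [e] using congrFun h1 q
  obtain ⟨a, ha⟩ := Finite.surjective_of_injective inj (Pi.single y 1)
  have hu : Z.piecewise (B *ᵥ a) a = Pi.single y 1 := funext fun q => by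
    by_cases e : q = v0
    · rw [e, (H a).1, Pi.single_eq_of_ne hy.symm]
    · simpa [Function.update_of_ne e] using congrFun ha q
  have hw : Z.piecewise a (B *ᵥ a) x = M x y := by
    rw [(H a).2 x hx, hu]
    simp
  have hB : B *ᵥ Y.indicator a = Y.indicator (B *ᵥ a) := funext fun q => by
    by_cases e : q ∈ Y
    · rw [Set.indicator_of_mem e]
      refine Finset.sum_congr rfl fun r _ => ?_
      by_cases e' : r ∈ Y
      · rw [Set.indicator_of_mem e']
      · simp [(hY q e r e').1]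
    · rw [Set.indicator_of_notMem e]
      refine Finset.sum_eq_zero fun r _ => ?_
      by_cases e' : r ∈ Y
      · simp [(hY r e' q e).2]
      · simp [e']
  have hc : ∀ c d : D → F,
      Z.piecewise (Y.indicator c) (Y.indicator d) = Y.indicator (Z.piecewise c d) := by
    intro c d
    funext q
    by_cases e : q ∈ Z <;> by_cases e' : q ∈ Y <;> simp [e, e']
  have key := (H (Y.indicator a)).2 x hx
  rw [hB, hc, hc, hu] at key
  by_cases e : y ∈ Y
  · have h1 : Y.indicator (Pi.single y (1 : F) : D → F) = Pi.single y 1 := funext fun q => by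
      by_cases e' : q ∈ Y
      · rw [Set.indicator_of_mem e']
      · rw [Set.indicator_of_notMem e', Pi.single_eq_of_ne (by rintro rfl; exact e' e)]
    rw [h1] at key
    refine iff_of_true (by_contra fun e' => hM ?_) e
    rw [Set.indicator_of_notMem e'] at key
    simpa using key.symm
  · have h1 : Y.indicator (Pi.single y (1 : F) : D → F) = 0 := funext fun q => by
      by_cases e' : q ∈ Y
      · rw [Set.indicator_of_mem e', Pi.single_eq_of_ne (by rintro rfl; exact e e')]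
        rfl
      · rw [Set.indicator_of_notMem e']
        rfl
    rw [h1] at key
    refine iff_of_false (fun e' => hM ?_) e
    rw [Set.indicator_of_mem e', hw] at key
    simpa using key

variable {K P E : Type} [Fintype K] [Fintype P] [Fintype E] {m p0 κ T : ℕ} {P0 : Set P}
  {col : E → Bool} {S : Fin T → Matrix E E F} {kk : K → E} {X : Fin T → E → K → F} {Q0 : Set E}
  {e : Fin T → P ⊕ ℕ → E} {len : Fin T → ℕ} {pf : P → E}
  {L w : ℕ} {gg : ℕ → Fin T} {b : ℕ → ℕ} {z : ℕ → E} {N p l : ℕ} {f t : ℕ → ℕ}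

lemma nat_sum {M : Matrix E E F} {Y : E → K → F} {U : E → F}
    (h : ∀ r, (M *ᵥ U) (kk r) = 0) (x : E) : (M *ᵥ U) x = ∑ y, nat M kk Y x y * U y := by
  have h1 : ∑ y, (Y x ⬝ᵥ yv M kk y) * U y = ∑ r, Y x r * (M *ᵥ U) (kk r) := by
    simp only [dotProduct, mulVec, yv, Finset.sum_mul, Finset.mul_sum, mul_assoc]
    exact Finset.sum_comm
  simp only [nat, sub_mul, Finset.sum_sub_distrib, h1, h, mul_zero, Finset.sum_const_zero,
    sub_zero]
  rfl

section blocks

variable (G : Grown m p0 κ P0 col S kk X Q0 e len pf) (R : Rail S kk X e len L w gg b z)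
include G R

lemma bl_inj4 {j : ℕ} (hj : j < L) (hl : len (gg j) = p) (hb : b (j + 1) + l ≤ b L) :
    Function.Injective (bl e gg b z p l j) := by
  have hv : ∀ x, lab P p x ∈ vl P (len (gg j)) := fun x => by rw [hl]; exact mem_vl.2 ⟨x, rfl⟩
  have d : ∀ (x : P ⊕ Fin p) (k : Fin l), z (b (j + 1) + k) ≠ e (gg j) (lab P p x) := fun x k h => by
    have := (z_eq G R (by omega) hj (hv x) h).2
    omega
  rintro (x | x) (y | y) h
  · rw [lab_inj p ((G.piece _).inj (hv x) (hv y) h)]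
  · exact absurd h.symm (d x y)
  · exact absurd h (d y x)
  · have := z_inj G R (by omega) (by omega) h
    rw [Fin.ext (show x.val = y.val by omega)]

omit G in
lemma bl_QS4 {j j' : ℕ} (hjj : j < j') (hj' : j' < L) (hl : len (gg j) = p)
    (hb : b (j + 1) + l ≤ b j') (x : (P ⊕ Fin p) ⊕ Fin l) :
    bl e gg b z p l j x ∈ QS Q0 e len (gg j').val := by
  rcases x with x | x
  · exact mem_QS (R.mono j j' hjj hj') (by rw [hl]; exact mem_vl.2 ⟨x, rfl⟩)
  · exact z_QS R hj' (show b (j + 1) + x < b j' by omega)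

lemma z_ne_bl4 {j k : ℕ} (hj : j < L) (hl : len (gg j) = p) (hb : b (j + 1) + l ≤ b L)
    (hk : k < b j) (x : (P ⊕ Fin p) ⊕ Fin l) : bl e gg b z p l j x ≠ z k := by
  have h1 := b_smono R hj
  have h2 := R.b_lt j
  rcases x with x | x
  · intro h
    have := (z_eq G R (by omega) hj (by rw [hl]; exact mem_vl.2 ⟨x, rfl⟩) h.symm).1
    omega
  · intro h
    have := z_inj G R (show b (j + 1) + x < b L by omega) (by omega) h
    omega

lemma bl_ne_bl4 {j j' : ℕ} (hjj : j < j') (hj' : j' < L) (hl : len (gg j) = p)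
    (hl' : len (gg j') = p) (hb : b (j + 1) + l ≤ b j') (hb' : b (j' + 1) + l ≤ b L)
    (x y : (P ⊕ Fin p) ⊕ Fin l) : bl e gg b z p l j' y ≠ bl e gg b z p l j x := by
  rcases x with x | x
  · have hx : lab P p x ∈ vl P (len (gg j)) := by rw [hl]; exact mem_vl.2 ⟨x, rfl⟩
    rcases y with y | y
    · intro h
      exact hjj.ne' (e_inj G R hj' (hjj.trans hj') (by rw [hl']; exact mem_vl.2 ⟨y, rfl⟩) hx h)
    · intro h
      have h1 := (z_eq G R (show b (j' + 1) + y < b L by omega) (hjj.trans hj') hx h).2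
      have h2 := R.b_lt j'
      omega
  · exact z_ne_bl4 G R hj' hl' hb' (show b (j + 1) + x < b j' by omega) y

omit G in
lemma bl_cases4 {j a a' : ℕ} (hj : j < L) (hl : len (gg j) = p) (ha : a ≤ b j)
    (ha' : b (j + 1) + l ≤ a') (x : (P ⊕ Fin p) ⊕ Fin l) :
    bl e gg b z p l j x ∈ seg z a a' ∨
      ∃ y ∈ vl P (len (gg j)), y ≠ inr 0 ∧ bl e gg b z p l j x = e (gg j) y := by
  have h2 := R.b_lt j
  rcases x with x | x
  · by_cases h : lab P p x = inr 0
    · refine .inl ⟨b j, ha, by omega, ?_⟩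
      rw [R.start j hj, ← h]
      rfl
    · exact .inr ⟨_, by rw [hl]; exact mem_vl.2 ⟨x, rfl⟩, h, rfl⟩
  · exact .inl ⟨b (j + 1) + x, by omega, by omega, rfl⟩

omit G in
lemma z_mem_bl4 {j k : ℕ} (hj : j < L) (hl : len (gg j) = p) (h1 : b j ≤ k)
    (h2 : k < b (j + 1) + l) : z k ∈ Set.range (bl e gg b z p l j) := by
  by_cases h : k < b (j + 1)
  · obtain ⟨x, hx, e1⟩ := R.mem j hj k h1 h
    obtain ⟨a, rfl⟩ := mem_vl.1 (hl ▸ hx)
    exact ⟨inl a, e1.symm⟩
  · refine ⟨inr ⟨k - b (j + 1), by omega⟩, ?_⟩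
    change z (b (j + 1) + (k - b (j + 1))) = z k
    rw [Nat.add_sub_cancel' (not_lt.1 h)]

end blocks

theorem blk_nconn [Fintype F] (G : Grown m p0 κ P0 col S kk X Q0 e len pf)
    (R : Rail S kk X e len L w gg b z) (B : Blk S kk X e len L gg b z N p l f t) (i : Fin T)
    {T' : Matrix E E F} (hp : IsPiv (S i) T' (seg z (b (t 0)) (b (f (N + 1))))) {h1 h2 : ℕ}
    (a1 : 1 ≤ h1) (a2 : h1 < h2) (a3 : h2 ≤ N)
    (hK : ∀ r x, T' (kk r) (bl e gg b z p l (f h1) x) = T' (kk r) (bl e gg b z p l (f h2) x))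
    (hu : ∀ x, T' (z (b (t 0) - 1)) (bl e gg b z p l (f h1) x) =
      T' (z (b (t 0) - 1)) (bl e gg b z p l (f h2) x))
    {C : Matrix ((P ⊕ Fin p) ⊕ Fin l) ((P ⊕ Fin p) ⊕ Fin l) F}
    (hC : ∀ x y, C x y = T' (bl e gg b z p l (f h1) y) (bl e gg b z p l (f h2) x) -
      T' (bl e gg b z p l (f h1) y) (bl e gg b z p l (f h1) x)) : NConn C := by
  classical
  have o0 := B.ft 0 (by omega)
  have o1 := B.tf 0 h1 (by omega) (by omega)
  have o2 := B.ft h1 (by omega)
  have o3 := B.tf h1 h2 a2 (by omega)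
  have o4 := B.ft h2 (by omega)
  have o5 := B.tf h2 (N + 1) (by omega) le_rfl
  have o6 := B.ft (N + 1) le_rfl
  have o7 := B.lt
  have l1 := B.len h1 (by omega)
  have l2 := B.len h2 (by omega)
  have g1 := B.gap h1 (by omega)
  have g2 := B.gap h2 (by omega)
  have c0 : b 0 < b (t 0) := b_smono R (by omega)
  have c1 := b_smono R o1
  have c2 := R.b_lt (f h1)
  have c3 : b (f h1 + 1) < b (t h1) := b_smono R (by omega)
  have c4 := b_smono R o3
  have c5 := R.b_lt (f h2)
  have c6 := b_smono R o5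
  have c7 : b (f (N + 1)) < b L := b_smono R (by omega)
  have j1 : f h1 < L := by omega
  have j2 : f h2 < L := by omega
  have hp0 : 0 < p := l1 ▸ (G.piece _).pos
  have hl0 : l - 1 < l := by omega
  have i1 := bl_inj4 (l := l) G R j1 l1 (by omega)
  have d12 := bl_ne_bl4 (l := l) G R (show f h1 < f h2 by omega) j2 l1 l2 (by omega) (by omega)
  have q12 := bl_QS4 (l := l) (Q0 := Q0) R (show f h1 < f h2 by omega) j2 l1 (by omega)
  have n1 := fun k hk => z_ne_bl4 (l := l) (k := k) G R j1 l1 (by omega) hk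
  have n2 := fun k hk => z_ne_bl4 (l := l) (k := k) G R j2 l2 (by omega) hk
  have s1 := bl_cases4 (l := l) (a' := b (f (N + 1))) R j1 l1 c1.le (by omega)
  have s2 := bl_cases4 (l := l) (a := b (t 0)) (a' := b (f (N + 1))) R j2 l2 (by omega) (by omega)
  have m1 := fun k u v => z_mem_bl4 (l := l) (k := k) R j1 l1 u v
  have ev0 : bl e gg b z p l (f h1) (inl (inr ⟨0, hp0⟩)) = z (b (f h1)) := (R.start _ j1).symm
  have hrow : ∀ x, x ≠ inr ⟨l - 1, hl0⟩ → ∀ k, b (t h1) ≤ k → k < b L →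
      nat (S i) kk (X i) (bl e gg b z p l (f h1) x) (z k) = 0 := by
    rintro (x | x) hx k u v
    · exact nat_e_z G R (by rw [l1]; exact mem_vl.2 ⟨x, rfl⟩) (by omega) v i
    · have : x.val ≠ l - 1 := fun h => hx (congrArg inr (Fin.ext h))
      exact R.chord _ _ (show b (f h1 + 1) + x + 2 ≤ k by omega) v i
  generalize hb1 : bl e gg b z p l (f h1) = b1 at *
  generalize bl e gg b z p l (f h2) = b2 at *
  set Z := seg z (b (t 0)) (b (f (N + 1))) with hZ
  have H : ∀ a : (P ⊕ Fin p) ⊕ Fin l → F,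
      (b1 ⁻¹' Z).piecewise ((of fun y x => -C x y) *ᵥ a) a (inl (inr ⟨0, hp0⟩)) = 0 ∧
      ∀ x, x ≠ inr ⟨l - 1, hl0⟩ → (b1 ⁻¹' Z).piecewise a ((of fun y x => -C x y) *ᵥ a) x =
        ((of fun x y => nat (S i) kk (X i) (b1 x) (b1 y)) *ᵥ
          (b1 ⁻¹' Z).piecewise ((of fun y x => -C x y) *ᵥ a) a) x := by
    intro a
    obtain ⟨u2, hu2⟩ : ∃ u2 : E → F,
        u2 = ∑ x, a x • (Pi.single (b1 x) (1 : F) - Pi.single (b2 x) (1 : F) : E → F) := ⟨_, rfl⟩
    have e1 : ∀ y, (T' *ᵥ u2) y = ∑ x, a x * (T' y (b1 x) - T' y (b2 x)) := fun y => by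
      rw [hu2, mulVec_sum, Finset.sum_apply]
      refine Finset.sum_congr rfl fun x _ => ?_
      simp [mulVec_smul, mulVec_sub]
    have e2 : ∀ y, u2 (b1 y) = a y := fun y => by
      rw [hu2, Finset.sum_apply, Finset.sum_eq_single y]
      · simp [Pi.single_eq_of_ne (d12 y y).symm]
      · intro x _ hx
        simp [Pi.single_eq_of_ne (d12 y x).symm, Pi.single_eq_of_ne (i1.ne hx.symm)]
      · simp
    have e3 : ∀ y, (∀ x, b1 x ≠ y) → (∀ x, b2 x ≠ y) → u2 y = 0 := fun y u v => by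
      rw [hu2, Finset.sum_apply]
      refine Finset.sum_eq_zero fun x _ => ?_
      simp [Pi.single_eq_of_ne (u x).symm, Pi.single_eq_of_ne (v x).symm]
    have e4 : ∀ y, (T' *ᵥ u2) (b1 y) = ((of fun y x => -C x y) *ᵥ a) y := fun y => by
      rw [e1]
      refine Finset.sum_congr rfl fun x _ => ?_
      change _ = -C x y * a x
      rw [hC]
      ring
    have hs := hp.solve u2
    obtain ⟨U, hU⟩ : ∃ U, U = Z.piecewise (T' *ᵥ u2) u2 := ⟨_, rfl⟩
    obtain ⟨W, hW⟩ : ∃ W, W = Z.piecewise u2 (T' *ᵥ u2) := ⟨_, rfl⟩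
    have hs' : W = S i *ᵥ U := by
      rw [hU, hW]
      convert hs
    have w1 : ∀ y, W y = ∑ y', nat (S i) kk (X i) y y' * U y' := fun y => by
      rw [hs']
      refine nat_sum (fun r => ?_) y
      have hn : kk r ∉ Z := fun ⟨k, _, v, h⟩ => z_ne_kk G R (by omega) r h
      rw [← hs', hW, Set.piecewise_eq_of_notMem _ _ _ hn, e1]
      exact Finset.sum_eq_zero fun x _ => by rw [hK, sub_self, mul_zero]
    have sup : ∀ y, U y = 0 ∨ y ∈ Z ∨
        (y ∈ Set.range b1 ∧ ∃ x ∈ vl P (len (gg (f h1))), x ≠ inr 0 ∧ y = e (gg (f h1)) x) ∨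
        ∃ x ∈ vl P (len (gg (f h2))), x ≠ inr 0 ∧ y = e (gg (f h2)) x := fun y => by
      by_cases hy : y ∈ Z
      · exact .inr (.inl hy)
      by_cases u : ∃ x, b1 x = y
      · obtain ⟨x, rfl⟩ := u
        exact .inr (.inr (.inl ⟨⟨x, rfl⟩, (s1 x).resolve_left hy⟩))
      by_cases v : ∃ x, b2 x = y
      · obtain ⟨x, rfl⟩ := v
        exact .inr (.inr (.inr ((s2 x).resolve_left hy)))
      · refine .inl ?_
        rw [hU, Set.piecewise_eq_of_notMem _ _ _ hy]
        exact e3 y (fun x h => u ⟨x, h⟩) fun x h => v ⟨x, h⟩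
    have w2 : ∀ k, b (t 0) ≤ k + 1 → k < b (f h1) → W (z k) = 0 := fun k u v => by
      by_cases h : b (t 0) ≤ k
      · have hm : z k ∈ Z := ⟨k, h, by omega, rfl⟩
        rw [hW, Set.piecewise_eq_of_mem _ _ _ hm]
        exact e3 _ (n1 k v) (n2 k (by omega))
      · have hn : z k ∉ Z := fun ⟨k', u', v', h'⟩ => by
          have := z_inj G R (by omega) (by omega) h'
          omega
        rw [hW, Set.piecewise_eq_of_notMem _ _ _ hn, e1, show k = b (t 0) - 1 by omega]
        exact Finset.sum_eq_zero fun x _ => by rw [hu, sub_self, mul_zero]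
    have ind : ∀ k, b (t 0) ≤ k → k ≤ b (f h1) → U (z k) = 0 := by
      intro k
      induction k using Nat.strong_induction_on with
      | _ k ih =>
        intro u v
        obtain ⟨k, rfl⟩ : ∃ k', k = k' + 1 := ⟨k - 1, by omega⟩
        have h0 := w2 k u v
        rw [w1, Finset.sum_eq_single (z (k + 1))] at h0
        · exact (mul_eq_zero.1 h0).resolve_left (R.link k (by omega) i)
        · intro y _ hy
          rcases sup y with h | ⟨k', u', v', rfl⟩ | ⟨-, x, hx, hx0, rfl⟩ | ⟨x, hx, hx0, rfl⟩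
          · rw [h, mul_zero]
          · rcases lt_trichotomy k' (k + 1) with h | h | h
            · rw [ih k' h u' (by omega), mul_zero]
            · exact absurd (congrArg z h) hy
            · rw [R.chord k k' h (by omega) i, zero_mul]
          · rw [(G.piece _).zero i _ (z_QS R j1 v) x hx hx0, zero_mul]
          · rw [(G.piece _).zero i _ (z_QS R j2 (by omega)) x hx hx0, zero_mul]
        · simp
    have f1 : ∀ y, (b1 ⁻¹' Z).piecewise ((of fun y x => -C x y) *ᵥ a) a y = U (b1 y) := fun y => by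
      rw [hU]
      by_cases h : b1 y ∈ Z
      · rw [Set.piecewise_eq_of_mem _ _ _ h, e4]
        exact Set.piecewise_eq_of_mem _ _ _ h
      · rw [Set.piecewise_eq_of_notMem _ _ _ h, e2]
        exact Set.piecewise_eq_of_notMem _ _ _ h
    have f2 : ∀ y, (b1 ⁻¹' Z).piecewise a ((of fun y x => -C x y) *ᵥ a) y = W (b1 y) := fun y => by
      rw [hW]
      by_cases h : b1 y ∈ Z
      · rw [Set.piecewise_eq_of_mem _ _ _ h, e2]
        exact Set.piecewise_eq_of_mem _ _ _ h
      · rw [Set.piecewise_eq_of_notMem _ _ _ h, e4]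
        exact Set.piecewise_eq_of_notMem _ _ _ h
    refine ⟨by rw [f1, ev0]; exact ind _ c1.le le_rfl, fun x hx => ?_⟩
    rw [f2, w1, funext f1]
    symm
    refine Fintype.sum_of_injective b1 i1 _ _ (fun y hy => ?_) fun y => rfl
    rcases sup y with h | ⟨k', u', v', rfl⟩ | ⟨h, -⟩ | ⟨x', hx', hx0, rfl⟩
    · rw [h, mul_zero]
    · by_cases h : k' ≤ b (f h1)
      · rw [ind k' u' h, mul_zero]
      by_cases h' : k' < b (t h1)
      · exact absurd (m1 k' (by omega) (by omega)) hy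
      · rw [hrow x hx k' (by omega) (by omega), zero_mul]
    · exact absurd h hy
    · rw [(G.piece _).zero i _ (q12 x) x' hx' hx0, zero_mul]
  intro Y hY
  have edge : ∀ x y, x ≠ inr ⟨l - 1, hl0⟩ → y ≠ inl (inr ⟨0, hp0⟩) →
      nat (S i) kk (X i) (b1 x) (b1 y) ≠ 0 → (x ∈ Y ↔ y ∈ Y) := fun x y hx hy h =>
    split_iff (by convert H) (fun x hx y hy => by
      simp [(hY x hx y hy).1, (hY x hx y hy).2]) hx hy h
  subst hb1
  have key : ∀ x, Relation.ReflTransGen (fun a c => a ∈ vl P (len (gg (f h1))) ∧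
      c ∈ vl P (len (gg (f h1))) ∧
      ∀ i, nat (S i) kk (X i) (e (gg (f h1)) a) (e (gg (f h1)) c) ≠ 0) (inr 0) x →
      ∀ a, lab P p a = x → (inl a ∈ Y ↔ inl (inr ⟨0, hp0⟩) ∈ Y) := by
    intro x hx
    induction hx with
    | refl => exact fun a ha => by rw [lab_inj p (ha.trans (rfl : _ = lab P p (inr ⟨0, hp0⟩)))]
    | tail _ h ih =>
      rintro c rfl
      obtain ⟨u1, -, u3⟩ := h
      obtain ⟨a, rfl⟩ := mem_vl.1 (l1 ▸ u1)
      by_cases h0 : c = inr ⟨0, hp0⟩
      · rw [h0]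
      rw [← ih a rfl]
      exact (edge (inl a) (inl c) (by simp) (by simpa using h0) (u3 i)).symm
  have all1 (a) := key _ ((G.piece _).reach _ (by rw [l1]; exact mem_vl.2 ⟨a, rfl⟩)) a rfl
  have all2 : ∀ n (hn : n < l), (inr ⟨n, hn⟩ ∈ Y ↔ inl (inr ⟨0, hp0⟩) ∈ Y) := by
    intro n
    induction n with
    | zero =>
      intro hn
      obtain ⟨x, hx, e1⟩ := R.mem _ j1 (b (f h1 + 1) - 1) (by omega) (by omega)
      obtain ⟨a, rfl⟩ := mem_vl.1 (l1 ▸ hx)
      have h := R.link (b (f h1 + 1) - 1) (by omega) i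
      rw [e1, show b (f h1 + 1) - 1 + 1 = b (f h1 + 1) by omega] at h
      rw [← all1 a]
      exact (edge (inl a) (inr ⟨0, hn⟩) (by simp) (by simp) h).symm
    | succ n ih =>
      intro hn
      rw [← ih (by omega)]
      refine (edge (inr ⟨n, by omega⟩) (inr ⟨n + 1, hn⟩) (fun h => ?_) (by simp)
        (R.link (b (f h1 + 1) + n) (by omega) i)).symm
      have : n = l - 1 := congrArg Fin.val (inr_injective h)
      omega
  have all : ∀ x, x ∈ Y ↔ inl (inr ⟨0, hp0⟩) ∈ Y := by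
    rintro (x | x)
    exacts [all1 x, all2 x.1 x.2]
  by_cases h : inl (inr ⟨0, hp0⟩) ∈ Y
  · exact .inr (Set.eq_univ_of_forall fun a => (all a).2 h)
  · exact .inl (Set.eq_empty_of_forall_notMem fun a ha => h ((all a).1 ha))

end PATH

end Pool.Agent.MP_d99b12_co.H25
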