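import Pool.Agent.MP_d99b12_co.H25.PATH2
import Pool.Agent.MP_d99b12_co.H25.PATH3
import Pool.Agent.MP_d99b12_co.H25.PATH4

/-! # Row PATH: a long branch of pieces gives a chain of higher level -/

namespace Pool.Agent.MP_d99b12_co.H25

open Matrix Sum STAR

set_option linter.unusedSectionVars false

variable {F : Type} [Field F]

namespace PATH

variable {K P E : Type} [Fintype K] [Fintype P] [Fintype E] {m p0 κ T : ℕ} {P0 : Set P}
  {col : E → Bool} {S : Fin T → Matrix E E F} {kk : K → E} {X : Fin T → E → K → F} {Q0 : Set E}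
  {e : Fin T → P ⊕ ℕ → E} {len : Fin T → ℕ} {pf : P → E}
  {L w : ℕ} {gg : ℕ → Fin T} {b : ℕ → ℕ} {z : ℕ → E} {N p l : ℕ} {f t : ℕ → ℕ}

/-- The new core. -/
def cor (kk : K → E) (pf c : P → E) (u v : E) : K ⊕ P ⊕ P ⊕ Bool → E :=
  Sum.elim kk (Sum.elim pf (Sum.elim c fun a => bif a then v else u))

variable (G : Grown m p0 κ P0 col S kk X Q0 e len pf) (R : Rail S kk X e len L w gg b z)
  (B : Blk S kk X e len L gg b z N p l f t)
include G R B

lemma val_inj : Set.InjOn (Sum.elim kk (Sum.elim pf (Sum.elim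
    (fun y : ℕ × (P ⊕ ℕ) => e (gg (f y.1)) y.2) z)))
    {a | (∀ y, a = inr (inr (inl y)) → y.1 ≤ N ∧ y.2 ∈ vl P p) ∧ ∀ k, a = inr (inr (inr k)) →
      k < b L ∧ ∀ h ≤ N, ¬(b (f h) ≤ k ∧ k < b (f h + 1))} := by
  have k1 (r s) : kk r ∈ QS Q0 e len s := .inl (G.kQ r)
  have v {y : ℕ × (P ⊕ ℕ)} (h : y.1 ≤ N ∧ y.2 ∈ vl P p) : y.2 ∈ vl P (len (gg (f y.1))) :=
    vlp R B (by omega) h.2
  have n {y : ℕ × (P ⊕ ℕ)} (h : y.1 ≤ N ∧ y.2 ∈ vl P p) : f y.1 < L := (nums R B (by omega)).1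
  rintro (a | a | a | a) ⟨a1, a2⟩ (c | c | c | c) ⟨c1, c2⟩ h <;> simp only [elim_inl, elim_inr] at h
  · rw [G.kinj h]
  · exact absurd (h ▸ k1 a T) (G.pfQ c)
  · exact absurd (h ▸ k1 a _) ((G.piece _).disj _ (v (c1 c rfl)))
  · exact absurd h.symm (z_ne_kk G R (c2 c rfl).1 a)
  · exact absurd (h ▸ k1 c T) (G.pfQ a)
  · rw [G.pfinj h]
  · exact absurd (h ▸ mem_QS (Fin.is_lt _) (v (c1 c rfl))) (G.pfQ a)
  · exact absurd h.symm (z_ne_pf G R (c2 c rfl).1 a)
  · exact absurd (h ▸ k1 c _) ((G.piece _).disj _ (v (a1 a rfl)))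
  · exact absurd (h ▸ mem_QS (Fin.is_lt _) (v (a1 a rfl))) (G.pfQ c)
  · have e1 := e_inj G R (n (a1 a rfl)) (n (c1 c rfl)) (v (a1 a rfl)) (v (c1 c rfl)) h
    have u1 := a1 a rfl
    have u2 := c1 c rfl
    obtain ⟨i, x⟩ := a
    obtain ⟨j, y⟩ := c
    obtain rfl : i = j := by
      rcases lt_trichotomy i j with h' | h' | h'
      · have := B.tf i j h' (by omega)
        have := B.ft i (by omega)
        simp only at e1
        omega
      · exact h'
      · have := B.tf j i h' (by omega)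
        have := B.ft j (by omega)
        simp only at e1
        omega
    rw [show x = y from (G.piece _).inj (v u1) (v u2) h]
  · exact absurd (z_eq G R (c2 c rfl).1 (n (a1 a rfl)) (v (a1 a rfl)) h.symm)
      ((c2 c rfl).2 _ (a1 a rfl).1)
  · exact absurd h (z_ne_kk G R (a2 a rfl).1 c)
  · exact absurd h (z_ne_pf G R (a2 a rfl).1 c)
  · exact absurd (z_eq G R (a2 a rfl).1 (n (c1 c rfl)) (v (c1 c rfl)) h)
      ((a2 a rfl).2 _ (c1 c rfl).1)
  · rw [z_inj G R (a2 a rfl).1 (c2 c rfl).1 h]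

omit G in
lemma gap_not {h k : ℕ} (hN : h ≤ N + 1) (h1 : b (f h + 1) ≤ k) (h2 : k < b (t h)) :
    k < b L ∧ ∀ h' ≤ N, ¬(b (f h') ≤ k ∧ k < b (f h' + 1)) := by
  refine ⟨h2.trans (nums R B hN).2.2.2, fun h' a ⟨c1, c2⟩ => ?_⟩
  rcases lt_trichotomy h h' with u | rfl | u
  · have := nums2 R B u (by omega)
    omega
  · omega
  · have := nums2 R B u hN
    have := nums R B hN
    have := nums R B (h := h') (by omega)
    omega

lemma emb_inj {n : ℕ} (hn : n ≤ N) : Function.Injective (emb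
    (cor kk pf (fun q => e (gg (f 0)) (inl q)) (z (b (t 0) - 1)) (z (b (f (N + 1)))))
    fun j : Fin n => bl e gg b z p l (f (j + 1))) := by
  let code : (K ⊕ P ⊕ P ⊕ Bool) ⊕ Fin n × ((P ⊕ Fin p) ⊕ Fin l) → K ⊕ P ⊕ (ℕ × (P ⊕ ℕ)) ⊕ ℕ :=
    Sum.elim (Sum.map id (Sum.map id (Sum.map (fun q => (0, inl q))
      fun a => bif a then b (f (N + 1)) else b (t 0) - 1)))
      fun y => inr (inr (Sum.map (fun x => (y.1 + 1, lab P p x))
        (fun i : Fin l => b (f (y.1 + 1) + 1) + i) y.2))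
  have a0 := nums R B (Nat.zero_le (N + 1))
  have a1 := nums R B (le_refl (N + 1))
  have a2 := nums2 R B (show 0 < N + 1 by omega) le_rfl
  have a3 : ∀ (j : Fin n) (i : Fin l), b (t 0) < b (f (j + 1) + 1) + i ∧
      b (f (j + 1) + 1) + i < b (t (j + 1)) ∧ b (t (j + 1)) < b (f (N + 1)) := fun j i => by
    have := nums R B (h := j + 1) (by omega)
    have := nums2 R B (show 0 < j.val + 1 by omega) (by omega)
    have := nums2 R B (show j.val + 1 < N + 1 by omega) le_rfl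
    have := B.gap (j + 1) (by omega)
    omega
  have hc : Function.Injective code := by
    rintro ((a | a | a | a) | ⟨j, a | a⟩) ((c | c | c | c) | ⟨j', c | c⟩) h <;>
      simp only [code, elim_inl, elim_inr, Sum.map_inl, Sum.map_inr, id, inl.injEq, inr.injEq,
        reduceCtorEq, Prod.mk.injEq, true_and] at h ⊢
    · exact h
    · exact h
    · exact h
    · exact absurd h.1 (by simp)
    · cases a <;> cases c <;> simp only [cond] at h <;> first | rfl | omega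
    · have := a3 j' c
      cases a <;> simp only [cond] at h <;> omega
    · exact absurd h.1 (by simp)
    · exact ⟨Fin.ext (by omega), lab_inj p h.2⟩
    · have := a3 j a
      cases c <;> simp only [cond] at h <;> omega
    · have := a3 j a
      have := a3 j' c
      obtain rfl : j = j' := by
        rcases lt_trichotomy j j' with h' | h' | h'
        · have := nums2 R B (show j.val + 1 < j'.val + 1 by omega) (by omega)
          have := nums R B (h := j' + 1) (by omega)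
          omega
        · exact h'
        · have := nums2 R B (show j'.val + 1 < j.val + 1 by omega) (by omega)
          have := nums R B (h := j + 1) (by omega)
          omega
      exact ⟨rfl, Fin.ext (by omega)⟩
  have hm : ∀ a, (∀ y, code a = inr (inr (inl y)) → y.1 ≤ N ∧ y.2 ∈ vl P p) ∧
      ∀ k, code a = inr (inr (inr k)) →
        k < b L ∧ ∀ h ≤ N, ¬(b (f h) ≤ k ∧ k < b (f h + 1)) := by
    rintro ((a | a | a | a) | ⟨j, a | a⟩) <;> refine ⟨fun y h => ?_, fun k h => ?_⟩ <;> cases h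
    · exact ⟨Nat.zero_le _, fun _ h => by cases h⟩
    · cases a
      · exact gap_not R B (Nat.zero_le _) (show _ ≤ b (t 0) - 1 by omega)
          (show b (t 0) - 1 < _ by omega)
      · refine ⟨show b (f (N + 1)) < _ by omega, fun h a ⟨c1, c2⟩ => ?_⟩
        have := nums2 R B (show h < N + 1 by omega) le_rfl
        have := nums R B (h := h) (by omega)
        simp only [cond] at c2
        omega
    · exact ⟨show j.val + 1 ≤ N by omega, mem_vl.2 ⟨a, rfl⟩⟩
    · exact gap_not R B (h := j + 1) (by omega) (Nat.le_add_right _ _) (a3 j a).2.1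
  intro a c h
  refine hc (val_inj G R B (hm a) (hm c) ?_)
  have ev : ∀ a, Sum.elim kk (Sum.elim pf (Sum.elim
      (fun y : ℕ × (P ⊕ ℕ) => e (gg (f y.1)) y.2) z)) (code a) = emb
      (cor kk pf (fun q => e (gg (f 0)) (inl q)) (z (b (t 0) - 1)) (z (b (f (N + 1)))))
      (fun j : Fin n => bl e gg b z p l (f (j + 1))) a := by
    rintro ((a | a | a | a) | ⟨j, a | a⟩)
    any_goals rfl
    cases a <;> rfl
  rw [ev, ev, h]

/-- The part of the rail inside block `h`. -/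
lemma seg_sub {h : ℕ} (h1 : 1 ≤ h) (hN : h ≤ N) :
    symmDiff (seg z (b (t 0)) (b (f (N + 1))))
      (symmDiff (seg z (b (t 0)) (b (f h))) (seg z (b (t h)) (b (f (N + 1))))) ⊆
      Set.range (bl e gg b z p l (f h)) := by
  have a1 := nums R B (h := h) (by omega)
  have a2 := nums2 R B h1 (by omega)
  have a3 := nums2 R B (show h < N + 1 by omega) le_rfl
  have a4 := nums R B (le_refl (N + 1))
  have a5 := B.gap h (by omega)
  have mem : ∀ k < b L, ∀ a a', a' ≤ b L → (z k ∈ seg z a a' ↔ a ≤ k ∧ k < a') :=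
    fun k hk a a' ha => ⟨fun ⟨k', u, v, h⟩ => z_inj G R (v.trans_le ha) hk h ▸ ⟨u, v⟩,
      fun h => ⟨k, h.1, h.2, rfl⟩⟩
  intro x hx
  obtain ⟨k, hk, rfl⟩ : ∃ k < b L, z k = x := by
    simp only [Set.mem_symmDiff] at hx
    rcases hx with ⟨⟨k, -, u, h⟩, -⟩ | ⟨⟨⟨k, -, u, h⟩, -⟩ | ⟨⟨k, -, u, h⟩, -⟩, -⟩ <;>
      exact ⟨k, by omega, h⟩
  simp only [Set.mem_symmDiff, mem k hk _ (b (f (N + 1))) (by omega),
    mem k hk _ (b (f h)) (by omega)] at hx
  by_cases hk' : k < b (f h + 1)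
  · obtain ⟨x, hx', h'⟩ := R.mem _ a1.1 k (by omega) hk'
    rw [B.len h (by omega)] at hx'
    obtain ⟨a, rfl⟩ := mem_vl.1 hx'
    exact ⟨inl a, h'.symm⟩
  · exact ⟨inr ⟨k - b (f h + 1), by omega⟩, congrArg z (by simp only; omega)⟩

end PATH

open PATH in
theorem path [Fintype F] (hi : IDL F) (hh : HOM F) (m : ℕ) : PATH F m := by
  classical
  intro K P _ _ p0
  obtain ⟨l0, hl0⟩ := exists_blk (F := F) K P m p0 (Fintype.card P + p0)
  refine ⟨l0, fun n => ?_⟩
  choose N hN using fun p l : ℕ => hh (K ⊕ P ⊕ P ⊕ Bool) ((P ⊕ Fin p) ⊕ Fin l) (n + 2)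
  obtain ⟨L, hL⟩ := hl0 (∑ p ∈ Finset.range (p0 + 1), ∑ l ∈ Finset.range (l0 + 1), N p l)
  refine ⟨L + 1, fun κ T P0 E _ col S kk X Q0 e len pf G g h1 h2 => ?_⟩
  obtain ⟨gg, b, z, R⟩ := exists_rail G g h1 h2
  obtain ⟨p, hp, l, hl, f, t, B⟩ := hL κ T P0 E col S kk X Q0 e len pf G gg b z R
  have hle : N p l ≤ ∑ p ∈ Finset.range (p0 + 1), ∑ l ∈ Finset.range (l0 + 1), N p l :=
    (Finset.single_le_sum (f := N p) (fun _ _ => Nat.zero_le _)
      (Finset.mem_range.2 (Nat.lt_succ_of_le hl))).trans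
      (Finset.single_le_sum (f := fun p => ∑ l ∈ Finset.range (l0 + 1), N p l)
        (fun _ _ => Nat.zero_le _) (Finset.mem_range.2 (Nat.lt_succ_of_le hp)))
  generalize ∑ p ∈ Finset.range (p0 + 1), ∑ l ∈ Finset.range (l0 + 1), N p l = N0 at B hle
  obtain ⟨M0, hM0, -⟩ := left_piv G R B hi (h := N0 + 1) (by omega) le_rfl le_rfl
  obtain ⟨S', hS'⟩ := G.fam.exists_piv hM0.not_dep
  have F' := G.fam.piv hS'
  obtain ⟨d, g2, i0, iR, c, -, -, hc, hcl, hr, C⟩ := hN p l E _ (fun j => S' (gg (f (j + 1)))) _ _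
    (F'.reindex _) (emb_inj G R B hle)
  refine ⟨p, hp, l, hl, d, RealN.mono ⟨E, _, _, _, _, _, (F'.reindex fun i => gg (f (g2 i + 1))).scale c,
    fun i => ((hS' _).conn (G.conn _)).scale _, C⟩ (Nat.le_add_right n 2), hr, ?_⟩
  have h0 : ((0 : Fin (n + 2)) : ℕ) < (Fin.last (n + 2) : ℕ) := by simp
  set kk' := Sum.elim
    (cor kk pf (fun q => e (gg (f 0)) (inl q)) (z (b (t 0) - 1)) (z (b (f (N0 + 1)))))
    (Sum.elim (bl e gg b z p l (f (i0 + 1))) (bl e gg b z p l (f (iR + 1)))) with hkk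
  set h : ℕ := g2 (0 : Fin (n + 2)).castSucc + 1 with hh0
  set h' : ℕ := g2 (Fin.last (n + 2)) + 1 with hh'
  have u1 : 1 ≤ h := by omega
  have u2 : h < h' := Nat.succ_lt_succ (g2.strictMono (Fin.castSucc_lt_last 0))
  have u3 : h' ≤ N0 := (g2 (Fin.last (n + 2))).2.trans_le hle
  have hσ : scale (c (Fin.last _)) (S' (gg (f h'))) = S' (gg (f h')) := by rw [hcl, scale_one]
  obtain ⟨S2, hS2, hnat, hpar, hfull, hlev⟩ := two_step G R B hi u1 (u2.le.trans u3)
  have F2 := G.fam.piv hS2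
  have sub := seg_sub G R B u1 (u2.le.trans u3)
  set Zh := symmDiff (seg z (b (t 0)) (b (f (N0 + 1))))
    (symmDiff (seg z (b (t 0)) (b (f h))) (seg z (b (t h)) (b (f (N0 + 1))))) with hZh
  have hP : ∀ i, IsPiv (S' i) (S2 i) Zh := fun i => (hS' i).symm.comp (hS2 i)
  have ιi : Function.Injective (Sum.elim kk' (bl e gg b z p l (f h))) := C.elim_inj 0
  have sub' : Zh ⊆ Set.range (Sum.elim kk' (bl e gg b z p l (f h))) := fun x hx =>
    (sub hx).elim fun a ha => ⟨inr a, ha⟩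
  have pre : Sum.elim kk' (bl e gg b z p l (f h)) ⁻¹' Zh =
      inr '' (bl e gg b z p l (f h) ⁻¹' Zh) := by
    ext (k | a)
    · refine ⟨fun hk => ?_, fun ⟨a, _, h⟩ => by cases h⟩
      obtain ⟨a, ha⟩ := sub hk
      cases ιi (a₁ := inr a) (a₂ := inl k) ha
    · simp
  have pF : IsPiv (d.pair false) ((S2 (gg (f h'))).submatrix
      (Sum.elim kk' (bl e gg b z p l (f h))) (Sum.elim kk' (bl e gg b z p l (f h))))
      (inr '' (bl e gg b z p l (f h) ⁻¹' Zh)) := by
    rw [C.pair_false h0, ← pre]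
    exact (hσ ▸ hP _).submatrix ιi sub'
  refine ⟨?_, ?_, ?_⟩
  · refine blk_nconn G R B (gg (f h')) (hS' _) u1
      (h2 := g2 (1 : Fin (n + 2)).castSucc + 1) (Nat.succ_lt_succ (g2.strictMono (by simp)))
      ((g2 _).2.trans_le hle) (fun r x => ?_) (fun x => ?_) fun x y => ?_
    · rw [← hσ]
      exact (C.kk_pp _ (inl (inl r)) 0 x).trans (C.kk_pp _ (inl (inl r)) 1 x).symm
    · rw [← hσ]
      exact (C.kk_pp _ (inl (inr (inr (inr false)))) 0 x).trans
        (C.kk_pp _ (inl (inr (inr (inr false)))) 1 x).symm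
    · rw [F'.skew _ _ (bl e gg b z p l (f h) x), sub_neg_eq_add, add_comm, ← hσ]
      exact congrArg₂ (· + ·) (C.pp_left h0 x y).symm (C.pp_lt _ (by simp) y x).symm
  · by_contra hle'
    rw [not_lt, show d.V = (d.pair false).submatrix inl inr from rfl, rank_le_iff_rkLE,
      ← Set.compl_range_inl] at hle'
    have := pF.rkLE_cut hle'
    rw [Set.compl_range_inl, ← rank_le_iff_rkLE] at this
    have := (F2.same _ (gg (f (N0 + 1)))).rkLE
      ((rank_le_iff_rkLE _ kk' (bl e gg b z p l (f h)) _).1 this)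
    refine hlev _ _ (fun k => ?_) (fun q => ?_) ?_ (fun x hx => ?_) this
    exacts [⟨inl (inl k), rfl⟩, ⟨inl (inr (inl q)), rfl⟩, ⟨inl (inr (inr (inr false))), rfl⟩,
      (mem_vl.1 hx).elim fun a ha => ⟨inl a, congrArg _ ha⟩]
  · set c2 := Zh.piecewise (c (0 : Fin (n + 2)).castSucc)⁻¹ (c (0 : Fin (n + 2)).castSucc) with hc2
    have hc' : ∀ k, c2 (kk' k) = 1 := fun k => by
      by_cases hk : kk' k ∈ Zh
      · rw [hc2, Set.piecewise_eq_of_mem _ _ _ hk, Pi.inv_apply, hc, inv_one]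
      · rw [hc2, Set.piecewise_eq_of_notMem _ _ _ hk, hc]
    refine ⟨bl e gg b z p l (f h) ⁻¹' Zh, fun a => (bif a then scale c2 (S2 (gg (f h))) else S2 (gg (f h'))).submatrix
      (Sum.elim kk' (bl e gg b z p l (f h))) (Sum.elim kk' (bl e gg b z p l (f h))),
      fun a => ?_, fun ag => ?_⟩
    · cases a
      · exact pF
      · rw [C.pair_true 0, ← pre]
        exact ((hP _).scale _).submatrix ιi sub'
    have ag' : ∀ k k', S2 (gg (f h)) (kk' k) (kk' k') = S2 (gg (f h')) (kk' k) (kk' k') :=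
      fun k k' => by
        have := ag _ ⟨k, rfl⟩ _ ⟨k', rfl⟩
        simp only [cond, submatrix_apply, elim_inl, scale_apply, hc', Units.val_one, one_mul] at this
        exact this
    have hv (q : P) (n : ℕ) : (inl q : P ⊕ ℕ) ∈ vl P n := fun _ h => by cases h
    have mc (q : P) : e (gg (f h)) (inl q) ∈ Set.range kk ∪ e (gg (f h)) '' vl P p :=
      .inr ⟨_, hv q p, rfl⟩
    let oo : K ⊕ P → _ := fun a => (inl (Sum.map id inl a) :
      (K ⊕ P ⊕ P ⊕ Bool) ⊕ ((P ⊕ Fin p) ⊕ Fin l) ⊕ ((P ⊕ Fin p) ⊕ Fin l))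
    have hoo : Set.range kk ∪ Set.range pf = Set.range fun a => kk' (oo a) := by
      ext x
      constructor
      · rintro (⟨r, rfl⟩ | ⟨q, rfl⟩)
        exacts [⟨inl r, rfl⟩, ⟨inr q, rfl⟩]
      · rintro ⟨r | q, rfl⟩
        exacts [.inl ⟨r, rfl⟩, .inr ⟨q, rfl⟩]
    refine ⟨Set.range fun a => inl (oo a), fun _ ⟨a, h⟩ => ⟨_, h⟩, ?_, ?_⟩
    · have al (j) (v1 : h ≤ j) (v2 : j ≤ N0 + 1) : ∀ w ∈ (fun q => e (gg (f h)) (inl q)) '' P0,
          Al (S2 (gg (f j))) kk (Set.range pf) w (X (gg (f j)) w) := by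
        rintro _ ⟨q, -, rfl⟩ _ ⟨q', rfl⟩
        refine sub_eq_zero.1 ((hnat j v1 v2 _ (mc q) _ (.inr ⟨q', rfl⟩)).trans ?_)
        exact nat_pf G _ (mem_QS (Fin.is_lt _) (hv _ _)) q'
      have lt : gg (f h) < gg (f h') := R.mono _ _ (by
        have := B.tf h h' u2 (by omega)
        have := B.ft h (by omega)
        omega) (nums R B (by omega)).1
      have key := devP_of_not_dEq (S := S2 (gg (f h'))) (S' := S2 (gg (f h))) (by
          rw [hoo]
          rintro _ ⟨a, rfl⟩ _ ⟨a', rfl⟩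
          exact ag' _ _) (F2.skew _) (F2.skew _) ((F2.same _ _).full hfull)
        (al h' u2.le (by omega)) (al h le_rfl (by omega)) fun ⟨c3, h3⟩ =>
          G.dev _ _ lt (DEq.symm ⟨c3, by
            rintro _ ⟨q, hq, rfl⟩
            obtain ⟨v1, v2, v3⟩ := h3 _ ⟨q, hq, rfl⟩
            refine ⟨v1, fun r => ?_, ?_⟩
            · rw [← hnat h le_rfl (by omega) _ (mc q) _ (.inl (.inl ⟨r, rfl⟩)),
                ← hnat h' u2.le (by omega) _ (mc q) _ (.inl (.inl ⟨r, rfl⟩)), v2]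
            · rintro _ ⟨q', hq', rfl⟩
              rw [← hnat h le_rfl (by omega) _ (mc q) _ (.inl (mc q')),
                ← hnat h' u2.le (by omega) _ (mc q) _ (.inl (mc q')), v3 _ ⟨q', hq', rfl⟩]⟩)
      simp only [cond]
      rw [devP_submatrix_iff ιi, devP_scale_iff (by rintro _ ⟨_, ⟨a, rfl⟩, rfl⟩; exact hc' (oo a))]
      refine key.mono ?_ ?_
      · rw [hoo]
        rintro _ ⟨a, rfl⟩
        exact ⟨_, ⟨a, rfl⟩, rfl⟩
      · rintro _ ⟨q, hq, rfl⟩
        exact ⟨_, ⟨_, ⟨q, hq, rfl⟩, rfl⟩, rfl⟩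
    · rintro _ ⟨q, -, rfl⟩
      have par (i) := (F2.same (gg (f (N0 + 1))) i).par_col (F2.skew _) (F2.skew _) one_ne_zero
        fun o ho => (hpar o ho q).trans (one_mul _).symm
      obtain ⟨c3, v3⟩ := par (gg (f h))
      obtain ⟨c4, v4⟩ := par (gg (f h'))
      refine ⟨c2 (e (gg (f h)) (inl q)) * c3 * c4⁻¹, ?_⟩
      rintro _ ⟨a, rfl⟩
      have ho : kk' (oo a) ∈ Set.range kk ∪ Set.range pf := hoo ▸ ⟨a, rfl⟩
      have v5 : S2 (gg (f h)) (kk' (oo a)) (e (gg (f 0)) (inl q)) =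
        S2 (gg (f h')) (kk' (oo a)) (e (gg (f 0)) (inl q)) := ag' _ (inl (inr (inr (inl q))))
      change (c2 (kk' (oo a)) : F) * c2 (e (gg (f h)) (inl q)) *
        S2 (gg (f h)) (kk' (oo a)) (e (gg (f h)) (inl q)) =
        _ * S2 (gg (f h')) (kk' (oo a)) (e (gg (f h)) (inl q))
      rw [hc', v3 _ ho, v4 _ ho, v5]
      simp only [Units.val_mul, Units.val_one, one_mul, mul_assoc, Units.inv_mul_cancel_left]

end Pool.Agent.MP_d99b12_co.H25
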