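import Pool.Agent.MP_d99b12_co.H25.STAR
import Pool.Agent.MP_d99b12_co.H25.IDS

/-! # Row PATH, part 1: the rail through a long branch of pieces -/

namespace Pool.Agent.MP_d99b12_co.H25

open Matrix Sum STAR

set_option linter.unusedSectionVars false

variable {F : Type} [Field F]

namespace PATH

variable {K P E : Type} [Fintype K] [Fintype P] [Fintype E] {m p0 κ T : ℕ} {P0 : Set P}
  {col : E → Bool} {S : Fin T → Matrix E E F} {kk : K → E} {X : Fin T → E → K → F} {Q0 : Set E}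
  {e : Fin T → P ⊕ ℕ → E} {len : Fin T → ℕ} {pf : P → E}

/-- The wires of the pieces `gg 0, …, gg (L - 1)`, concatenated to one chordless path `z`. -/
structure Rail (S : Fin T → Matrix E E F) (kk : K → E) (X : Fin T → E → K → F)
    (e : Fin T → P ⊕ ℕ → E) (len : Fin T → ℕ) (L w : ℕ) (gg : ℕ → Fin T) (b : ℕ → ℕ)
    (z : ℕ → E) : Prop where
  mono : ∀ j j', j < j' → j' < L → gg j < gg j'
  b0 : b 0 = 0
  b_lt : ∀ j, b j < b (j + 1)
  b_le : ∀ j, b (j + 1) ≤ b j + w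
  mem : ∀ j < L, ∀ k, b j ≤ k → k < b (j + 1) → ∃ x ∈ vl P (len (gg j)), z k = e (gg j) x
  start : ∀ j < L, z (b j) = e (gg j) (inr 0)
  inj : ∀ j < L, ∀ k k', b j ≤ k → k < b (j + 1) → b j ≤ k' → k' < b (j + 1) → z k = z k' → k = k'
  link : ∀ k, k + 1 < b L → ∀ i, nat (S i) kk (X i) (z k) (z (k + 1)) ≠ 0
  chord : ∀ k k', k + 2 ≤ k' → k' < b L → ∀ i, nat (S i) kk (X i) (z k) (z k') = 0
  skip : ∀ j j', j + 2 ≤ j' → j' < L → ∀ x ∈ vl P (len (gg j)), ∀ i,
    nat (S i) kk (X i) (e (gg j) x) (e (gg j') (inr 0)) = 0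

lemma exists_block {b : ℕ → ℕ} (h0 : b 0 = 0) (h : ∀ j, b j < b (j + 1)) (k : ℕ) :
    ∃ j, b j ≤ k ∧ k < b (j + 1) := by
  induction k with
  | zero => exact ⟨0, h0.le, by have := h 0; omega⟩
  | succ k ih =>
    obtain ⟨j, h1, h2⟩ := ih
    by_cases h3 : k + 1 < b (j + 1)
    · exact ⟨j, by omega, h3⟩
    · exact ⟨j + 1, by omega, by have := h (j + 1); omega⟩

lemma block_le {b : ℕ → ℕ} (h : ∀ j, b j < b (j + 1)) {j j' : ℕ} (h1 : b j < b (j' + 1)) :
    j ≤ j' := Nat.lt_succ_iff.1 ((strictMono_nat_of_lt_succ h).lt_iff_lt.1 h1)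

variable (G : Grown m p0 κ P0 col S kk X Q0 e len pf)
include G

lemma zero_all {u : E} (hu : u ∈ QS Q0 e len T) (w : E)
    (h : ¬∀ i, nat (S i) kk (X i) u w ≠ 0) (i : Fin T) : nat (S i) kk (X i) u w = 0 := by
  push Not at h
  obtain ⟨i', h⟩ := h
  exact ((G.fam.same i' i).nat_zero (G.full i') (G.al i' u hu) (G.al i u hu) w).1 h

lemma v0_mem (s : Fin T) : (inr 0 : P ⊕ ℕ) ∈ vl P (len s) := fun _ h => by
  cases h; exact (G.piece s).pos

lemma wire (s : Fin T) (H : Set (P ⊕ ℕ)) (hH : ∃ x ∈ vl P (len s), x ∈ H) :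
    ∃ (l : ℕ) (wz : ℕ → P ⊕ ℕ), l < Fintype.card P + p0 ∧ wz 0 = inr 0 ∧
      (∀ i ≤ l, wz i ∈ vl P (len s)) ∧ (∀ i ≤ l, ∀ j ≤ l, wz i = wz j → i = j) ∧
      (∀ k < l, ∀ i, nat (S i) kk (X i) (e s (wz k)) (e s (wz (k + 1))) ≠ 0) ∧
      (∀ k k', k + 2 ≤ k' → k' ≤ l → ∀ i, nat (S i) kk (X i) (e s (wz k)) (e s (wz k')) = 0) ∧
      wz l ∈ H ∧ ∀ k < l, wz k ∉ H := by
  obtain ⟨x, hx, hxH⟩ := hH
  obtain ⟨l0, z0, hw⟩ := walk_of_reflTransGen (A := {inr 0}) (B := H) ((G.piece s).reach x hx)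
    rfl hxH
  obtain ⟨l, wz, -, h⟩ := hw.exists_sWalk
  have h0 : wz 0 = inr 0 := h.start
  have hv : ∀ i ≤ l, wz i ∈ vl P (len s) := by
    intro i hi
    rcases i with _ | i
    · rw [h0]; exact v0_mem G s
    · exact (h.step i hi).2.1
  refine ⟨l, wz, ?_, h0, hv, fun i hi j hj => h.inj hi hj, fun k hk => (h.step k hk).2.2,
    fun k k' h1 h2 => ?_, h.stop, fun k hk => h.notMem_stop hk⟩
  · choose a ha using fun i : Fin (l + 1) => mem_vl.1 (hv i (Nat.lt_succ_iff.1 i.2))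
    have : Function.Injective a := fun i j hij => Fin.ext (h.inj (Nat.lt_succ_iff.1 i.2)
      (Nat.lt_succ_iff.1 j.2) (by rw [← ha i, ← ha j, hij]))
    have := Fintype.card_le_of_injective a this
    have := G.len_le s
    simp at *
    omega
  · exact zero_all G (mem_QS s.2 (hv k (by omega))) _ fun hn =>
      h.chord h1 h2 ⟨hv k (by omega), hv k' h2, hn⟩

lemma exists_rail {L : ℕ} (g : Fin (L + 1) ↪o Fin T)
    (h1 : ∀ j j' : Fin (L + 1), j.val + 1 = j'.val → ∃ x ∈ vl P (len (g j)),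
      ∀ i, nat (S i) kk (X i) (e (g j) x) (e (g j') (inr 0)) ≠ 0)
    (h2 : ∀ j j' : Fin (L + 1), j.val + 1 < j'.val → ∀ x ∈ vl P (len (g j)),
      ∀ i, nat (S i) kk (X i) (e (g j) x) (e (g j') (inr 0)) = 0) :
    ∃ gg b z, Rail S kk X e len L (Fintype.card P + p0) gg b z := by
  classical
  let gg : ℕ → Fin T := fun j => g ⟨min j L, by omega⟩
  have hg : ∀ j (h : j ≤ L), gg j = g ⟨j, by omega⟩ := fun j h => by simp [gg, min_eq_left h]
  have hmono : ∀ j j', j < j' → j' ≤ L → gg j < gg j' := fun j j' a c => by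
    rw [hg j (by omega), hg j' c]; exact g.strictMono a
  choose l wz a1 a2 a3 a4 a5 a6 a7 a8 using fun j : ℕ => wire G (gg j)
    {x | j < L → ∀ i, nat (S i) kk (X i) (e (gg j) x) (e (gg (j + 1)) (inr 0)) ≠ 0} (by
      by_cases hj : j < L
      · obtain ⟨x, hx, hx'⟩ := h1 ⟨j, by omega⟩ ⟨j + 1, by omega⟩ rfl
        rw [hg j hj.le, hg (j + 1) hj]
        exact ⟨x, hx, fun _ => hx'⟩
      · exact ⟨_, v0_mem G _, fun h => absurd h hj⟩)
  let b : ℕ → ℕ := fun j => ∑ i ∈ Finset.range j, (l i + 1)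
  have hb : ∀ j, b (j + 1) = b j + (l j + 1) := fun j => Finset.sum_range_succ _ _
  have hlt : ∀ j, b j < b (j + 1) := fun j => by rw [hb]; omega
  choose pc c1 c2 using exists_block (b := b) rfl hlt
  have hpc : ∀ j k, b j ≤ k → k < b (j + 1) → pc k = j := fun j k u v =>
    le_antisymm (block_le hlt ((c1 k).trans_lt v)) (block_le hlt (u.trans_lt (c2 k)))
  let z : ℕ → E := fun k => e (gg (pc k)) (wz (pc k) (k - b (pc k)))
  have hz : ∀ j k, b j ≤ k → k < b (j + 1) → z k = e (gg j) (wz j (k - b j)) := fun j k u v => by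
    simp only [z, hpc j k u v]
  have hskip : ∀ j j', j + 2 ≤ j' → j' < L → ∀ x ∈ vl P (len (gg j)), ∀ i,
      nat (S i) kk (X i) (e (gg j) x) (e (gg j') (inr 0)) = 0 := fun j j' u v => by
    rw [hg j (by omega), hg j' v.le]
    exact h2 _ _ (show j + 1 < j' by omega)
  refine ⟨gg, b, z, fun j j' u v => hmono j j' u v.le, rfl, hlt, fun j => ?_, fun j _ k u v => ?_,
    fun j _ => ?_, fun j _ k k' u v u' v' h => ?_, fun k hk i => ?_, fun k k' u v i => ?_, hskip⟩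
  · have := a1 j; rw [hb]; omega
  · exact ⟨_, a3 j _ (by rw [hb] at v; omega), hz j k u v⟩
  · rw [hz j _ le_rfl (hlt j), Nat.sub_self, a2]
  · rw [hz j k u v, hz j k' u' v'] at h
    rw [hb] at v v'
    have := a4 j _ (by omega) _ (by omega)
      ((G.piece _).inj (a3 j _ (by omega)) (a3 j _ (by omega)) h)
    omega
  · have u := c1 k
    have v := c2 k
    by_cases h : k + 1 < b (pc k + 1)
    · rw [hz _ k u v, hz _ (k + 1) (by omega) h, show k + 1 - b (pc k) = k - b (pc k) + 1 by omega]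
      exact a5 _ _ (by rw [hb] at h; omega) i
    · have e1 : k + 1 = b (pc k + 1) := by omega
      have hj : pc k + 1 < L := (strictMono_nat_of_lt_succ hlt).lt_iff_lt.1 (e1 ▸ hk)
      rw [hz _ k u v, hz (pc k + 1) (k + 1) e1.ge (e1 ▸ hlt _), e1, Nat.sub_self, a2,
        show k - b (pc k) = l (pc k) by rw [hb] at e1; omega]
      exact a7 _ (by omega) i
  · have u1 := c1 k
    have v1 := c2 k
    have u2 := c1 k'
    have v2 := c2 k'
    have hle : pc k ≤ pc k' := block_le hlt (by omega)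
    have hL : pc k' < L := (strictMono_nat_of_lt_succ hlt).lt_iff_lt.1 (u2.trans_lt v)
    have m1 := a3 (pc k) (k - b (pc k)) (by rw [hb] at v1; omega)
    have m2 := a3 (pc k') (k' - b (pc k')) (by rw [hb] at v2; omega)
    rw [hz _ k u1 v1, hz _ k' u2 v2]
    rcases hle.eq_or_lt with h | h
    · rw [← h] at u2 v2 ⊢
      exact a6 _ _ _ (by omega) (by rw [hb] at v2; omega) i
    by_cases h0 : k' = b (pc k')
    · rw [show k' - b (pc k') = 0 by omega, a2]
      by_cases h3 : pc k' = pc k + 1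
      · rw [h3] at h0 hL ⊢
        refine zero_all G (mem_QS (gg _).2 m1) _ (fun hn => ?_) i
        exact a8 (pc k) _ (by rw [hb] at h0; omega) fun _ => hn
      · exact hskip _ _ (by omega) hL _ m1 i
    · refine (G.piece _).zero i _ (mem_QS (hmono _ _ h hL.le) m1) _ m2 fun h4 => h0 ?_
      have := a4 (pc k') _ (by rw [hb] at v2; omega) 0 (Nat.zero_le _) (h4.trans (a2 _).symm)
      omega

lemma agreeS {s s' : Fin T} (h : s ≤ s')
    (hD : ∀ r r', S s' (kk r) (kk r') = S s (kk r) (kk r')) :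
    AgreeOn (QS Q0 e len s.val) (S s) (S s') := by
  have hk : ∀ r, kk r ∈ QS Q0 e len s.val := fun r => Or.inl (G.kQ r)
  have h1 : ∀ r, yv (S s') kk (kk r) = yv (S s) kk (kk r) := fun r => funext fun r' => hD r' r
  have h2 : ∀ w ∈ QS Q0 e len s.val, yv (S s') kk w = yv (S s) kk w := fun w hw => funext fun r => by
    have := (G.agree s s' h w hw).2 _ (hk r)
    rw [nat, nat, (G.agree s s' h w hw).1, h1, sub_left_inj] at this
    rw [yv, yv, G.fam.skew s' _ w, G.fam.skew s _ w, this]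
  intro u hu w hw
  have := (G.agree s s' h u hu).2 w hw
  rwa [nat, nat, (G.agree s s' h u hu).1, h2 w hw, sub_left_inj] at this

lemma nat_kk (i : Fin T) (r : K) (w : E) : nat (S i) kk (X i) (kk r) w = 0 :=
  nat_core (G.full i) (G.al i _ (Or.inl (G.kQ r))) w

lemma nat_pf (i : Fin T) {u : E} (hu : u ∈ QS Q0 e len T) (q : P) :
    nat (S i) kk (X i) u (pf q) = 0 := sub_eq_zero.2 (G.al i u hu _ ⟨q, rfl⟩)

variable {L w : ℕ} {gg : ℕ → Fin T} {b : ℕ → ℕ} {z : ℕ → E} (R : Rail S kk X e len L w gg b z)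
include R

lemma e_inj {j j' : ℕ} (hj : j < L) (hj' : j' < L) {x x' : P ⊕ ℕ} (hx : x ∈ vl P (len (gg j)))
    (hx' : x' ∈ vl P (len (gg j'))) (h : e (gg j) x = e (gg j') x') : j = j' := by
  rcases lt_trichotomy j j' with a | a | a
  · exact absurd (h ▸ mem_QS (R.mono j j' a hj') hx) ((G.piece _).disj _ hx')
  · exact a
  · exact absurd (h ▸ mem_QS (R.mono j' j a hj) hx') ((G.piece _).disj _ hx)

omit G in
lemma z_block {k : ℕ} (hk : k < b L) : ∃ j < L, b j ≤ k ∧ k < b (j + 1) ∧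
    ∃ x ∈ vl P (len (gg j)), z k = e (gg j) x := by
  obtain ⟨j, u, v⟩ := exists_block R.b0 R.b_lt k
  have : j < L := (strictMono_nat_of_lt_succ R.b_lt).lt_iff_lt.1 (u.trans_lt hk)
  exact ⟨j, this, u, v, R.mem j this k u v⟩

omit G in
lemma b_mono {j j' : ℕ} (h : j ≤ j') : b j ≤ b j' :=
  (strictMono_nat_of_lt_succ R.b_lt).monotone h

omit G in
lemma b_smono {j j' : ℕ} (h : j < j') : b j < b j' := strictMono_nat_of_lt_succ R.b_lt h

lemma z_eq {k j : ℕ} (hk : k < b L) (hj : j < L) {x : P ⊕ ℕ} (hx : x ∈ vl P (len (gg j)))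
    (h : z k = e (gg j) x) : b j ≤ k ∧ k < b (j + 1) := by
  obtain ⟨j', a, u, v, x', hx', h'⟩ := z_block R hk
  obtain rfl := e_inj G R hj a hx hx' (h.symm.trans h')
  exact ⟨u, v⟩

lemma z_inj {k k' : ℕ} (hk : k < b L) (hk' : k' < b L) (h : z k = z k') : k = k' := by
  obtain ⟨j, a, u, v, x, hx, h'⟩ := z_block R hk
  obtain ⟨u', v'⟩ := z_eq G R hk' a hx (h.symm.trans h')
  exact R.inj j a k k' u v u' v' h

omit G in
lemma z_QS {k j : ℕ} (hj : j < L) (hk : k < b j) : z k ∈ QS Q0 e len (gg j).val := by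
  obtain ⟨j', a, u, v, x, hx, h'⟩ := z_block R (hk.trans (b_smono R hj))
  rw [h']
  exact mem_QS (R.mono j' j ((strictMono_nat_of_lt_succ R.b_lt).lt_iff_lt.1 (u.trans_lt hk)) hj) hx

omit G in
lemma z_QT {k : ℕ} (hk : k < b L) : z k ∈ QS Q0 e len T := by
  obtain ⟨j', a, u, v, x, hx, h'⟩ := z_block R hk
  rw [h']
  exact mem_QS (gg j').2 hx

lemma z_ne_kk {k : ℕ} (hk : k < b L) (r : K) : z k ≠ kk r := by
  obtain ⟨j', a, u, v, x, hx, h'⟩ := z_block R hk
  rw [h']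
  exact fun h => (G.piece _).disj _ hx (h ▸ Or.inl (G.kQ r))

lemma z_ne_pf {k : ℕ} (hk : k < b L) (q : P) : z k ≠ pf q :=
  fun h => G.pfQ q (h ▸ z_QT R hk)

/-- A piece does not see the rail beyond the start of the next piece. -/
lemma nat_e_z {j k : ℕ} {x : P ⊕ ℕ} (hx : x ∈ vl P (len (gg j))) (h1 : b (j + 1) < k)
    (hk : k < b L) (i : Fin T) : nat (S i) kk (X i) (e (gg j) x) (z k) = 0 := by
  obtain ⟨j', a, u, v, x', hx', h'⟩ := z_block R hk
  have hle : j + 1 ≤ j' := block_le R.b_lt (h1.trans v)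
  rw [h']
  by_cases h0 : x' = inr 0
  · have e1 : k = b j' := z_inj G R hk (u.trans_lt hk) (by rw [h', R.start j' a, h0])
    have : j + 1 ≠ j' := fun h => by rw [h] at h1; omega
    rw [h0]
    exact R.skip j j' (by omega) a x hx i
  · exact (G.piece _).zero i _ (mem_QS (R.mono j j' hle a) hx) _ hx' h0

omit G R in
/-- The transfer along the rail in the representation `i`. -/
def rrun (S : Fin T → Matrix E E F) (kk : K → E) (X : Fin T → E → K → F) (z : ℕ → E) (i : Fin T)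
    (s n : ℕ) : St F K → St F K :=
  run (fun k => X i (z k)) (fun k => yv (S i) kk (z k))
    (fun k => nat (S i) kk (X i) (z (k - 1)) (z k)) s n

omit G R in
/-- The rail vertices with numbers in `[a, a')`. -/
def seg (z : ℕ → E) (a a' : ℕ) : Set E := {x | ∃ k, a ≤ k ∧ k < a' ∧ z k = x}

omit G R in
/-- A block: a whole piece and the rail after it. -/
def bl (e : Fin T → P ⊕ ℕ → E) (gg : ℕ → Fin T) (b : ℕ → ℕ) (z : ℕ → E) (p l j : ℕ) :
    (P ⊕ Fin p) ⊕ Fin l → E :=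
  Sum.elim (fun x => e (gg j) (lab P p x)) fun i => z (b (j + 1) + i)

omit G R in
/-- Blocks `0, …, N + 1`; block `h` runs from piece `f h` to piece `t h - 1`. -/
structure Blk (S : Fin T → Matrix E E F) (kk : K → E) (X : Fin T → E → K → F)
    (e : Fin T → P ⊕ ℕ → E) (len : Fin T → ℕ) (L : ℕ) (gg : ℕ → Fin T) (b : ℕ → ℕ) (z : ℕ → E)
    (N p l : ℕ) (f t : ℕ → ℕ) : Prop where
  ft : ∀ h ≤ N + 1, f h + 2 ≤ t h
  tf : ∀ h h', h < h' → h' ≤ N + 1 → t h < f h'
  lt : t (N + 1) < L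
  len : ∀ h ≤ N + 1, len (gg (f h)) = p
  gap : ∀ h ≤ N + 1, b (t h) = b (f h + 1) + l
  idL : ∀ h h', 1 ≤ h → h ≤ h' → h' ≤ N + 1 →
    rrun S kk X z (gg (f h')) (b (t 0)) (b (f h) - b (t 0)) = id
  idR : ∀ h ≤ N, rrun S kk X z (gg (f (N + 1))) (b (t h)) (b (f (N + 1)) - b (t h)) = id
  colK : ∀ h ≤ N, ∀ r q, S (gg (f (N + 1))) (kk r) (e (gg (f h)) (inl q)) =
    S (gg (f (N + 1))) (kk r) (e (gg (f 0)) (inl q))
  colX : ∀ h ≤ N, ∀ q, X (gg (f (N + 1))) (e (gg (f h)) (inl q)) =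
    X (gg (f (N + 1))) (e (gg (f 0)) (inl q))

end PATH

end Pool.Agent.MP_d99b12_co.H25
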