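import Pool.Agent.MP_d99b12_co.H25.PATH1

/-! # Row PATH, part 2: choice of the blocks -/

namespace Pool.Agent.MP_d99b12_co.H25

open Matrix Sum STAR

set_option linter.unusedSectionVars false

variable {F : Type} [Field F]

namespace PATH

namespace P2

/-- Every window contains two indices of the same colour at distance at least two. -/
lemma window {C : Type} [Fintype C] (χ : ℕ → C) (s : ℕ) :
    ∃ f t, s ≤ f ∧ f + 2 ≤ t ∧ t < s + (2 * Fintype.card C + 2) ∧ χ f = χ t := by
  obtain ⟨i, j, hij, h⟩ := Fintype.exists_ne_map_eq_of_card_lt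
    (fun i : Fin (Fintype.card C + 1) => χ (s + 2 * i.val)) (by simp)
  have hi := i.2
  have hj := j.2
  have hne : i.val ≠ j.val := fun e => hij (Fin.ext e)
  rcases lt_or_gt_of_ne hne with a | a
  · exact ⟨s + 2 * i.val, s + 2 * j.val, by omega, by omega, by omega, h⟩
  · exact ⟨s + 2 * j.val, s + 2 * i.val, by omega, by omega, by omega, h.symm⟩

variable {K P E : Type} [Fintype K] [Fintype P] [Fintype E] {m p0 κ T : ℕ} {P0 : Set P}
  {col : E → Bool} {S : Fin T → Matrix E E F} {kk : K → E} {X : Fin T → E → K → F} {Q0 : Set E}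
  {e : Fin T → P ⊕ ℕ → E} {len : Fin T → ℕ} {pf : P → E}
  {L w : ℕ} {gg : ℕ → Fin T} {b : ℕ → ℕ} {z : ℕ → E}

/-- The colour of an index of the rail. -/
def colour (S : Fin T → Matrix E E F) (kk : K → E) (X : Fin T → E → K → F) (gg : ℕ → Fin T)
    (b : ℕ → ℕ) (z : ℕ → E) (j : ℕ) : (K → K → F) × (St F K → St F K) :=
  (fun r r' => S (gg j) (kk r) (kk r'), rrun S kk X z (gg j) 1 (b j - 1))

lemma b_add (R : Rail S kk X e len L w gg b z) (j n : ℕ) : b (j + n) ≤ b j + n * w := by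
  induction n with
  | zero => simp
  | succ n ih =>
    have := R.b_le (j + n)
    rw [← add_assoc, Nat.succ_mul]
    omega

lemma gg_le (R : Rail S kk X e len L w gg b z) {a j : ℕ} (h : a ≤ j) (hj : j < L) :
    gg a ≤ gg j := by
  rcases h.eq_or_lt with rfl | h
  · exact le_rfl
  · exact (R.mono a j h hj).le

variable (G : Grown m p0 κ P0 col S kk X Q0 e len pf) (R : Rail S kk X e len L w gg b z)
include G R

lemma agree_col {a j : ℕ} (h : a ≤ j) (hj : j < L)
    (hc : colour S kk X gg b z a = colour S kk X gg b z j) :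
    AgreeOn (QS Q0 e len (gg a).val) (S (gg a)) (S (gg j)) :=
  agreeS G (gg_le R h hj) fun r r' => (congrFun (congrFun (congrArg Prod.fst hc) r) r').symm

lemma rr_congr {a j : ℕ} (h : a ≤ j) (hj : j < L)
    (hc : colour S kk X gg b z a = colour S kk X gg b z j) {s n : ℕ} (hn : s + n ≤ b a) :
    rrun S kk X z (gg j) s n = rrun S kk X z (gg a) s n := by
  have ha : a < L := h.trans_lt hj
  have hA := agree_col G R h hj hc
  have hle := gg_le R h hj
  refine run_congr fun i hi => ?_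
  have h1 : z (s + i) ∈ QS Q0 e len (gg a).val := z_QS R ha (by omega)
  have h2 : z (s + i - 1) ∈ QS Q0 e len (gg a).val := z_QS R ha (by omega)
  exact ⟨(G.agree _ _ hle _ h1).1, funext fun r => hA _ (Or.inl (G.kQ r)) _ h1,
    (G.agree _ _ hle _ h2).2 _ h1⟩

lemma rr_id [Finite F] {a a' j : ℕ} (h0 : 1 ≤ a) (h1 : a ≤ a') (h2 : a' ≤ j) (hj : j < L)
    (hc : colour S kk X gg b z a = colour S kk X gg b z j)
    (hc' : colour S kk X gg b z a' = colour S kk X gg b z j) :
    rrun S kk X z (gg j) (b a) (b a' - b a) = id := by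
  have hb0 : 0 < b a := by
    have := b_smono R (show 0 < a by omega)
    omega
  have hb1 : b a ≤ b a' := b_mono R h1
  have hb2 : b a < b L := b_smono R (by omega)
  have e1 := rr_congr G R (h1.trans h2) hj hc (s := 1) (n := b a - 1) (by omega)
  have e2 := rr_congr G R h2 hj hc' (s := 1) (n := b a' - 1) (by omega)
  have e3 : rrun S kk X z (gg a') 1 (b a' - 1) = rrun S kk X z (gg a) 1 (b a - 1) :=
    congrArg Prod.snd (hc'.trans hc.symm)
  have e4 : rrun S kk X z (gg j) 1 (b a - 1 + (b a' - b a)) =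
      rrun S kk X z (gg j) 1 (b a - 1) := by
    rw [show b a - 1 + (b a' - b a) = b a' - 1 by omega, e1, e2, e3]
  have := run_eq_id (fun i hi => by
    have := R.link i (by omega) (gg j)
    rwa [show 1 + i - 1 = i by omega, add_comm 1 i]) e4
  rwa [show 1 + (b a - 1) = b a by omega] at this

end P2

open P2 in
theorem exists_blk [Fintype F] (K P : Type) [Fintype K] [Fintype P] (m p0 w : ℕ) :
    ∃ l0, ∀ N, ∃ L, ∀ (κ T : ℕ) (P0 : Set P) (E : Type) [Fintype E] (col : E → Bool)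
    (S : Fin T → Matrix E E F) (kk : K → E) (X : Fin T → E → K → F) (Q0 : Set E)
    (e : Fin T → P ⊕ ℕ → E) (len : Fin T → ℕ) (pf : P → E),
    Grown m p0 κ P0 col S kk X Q0 e len pf → ∀ (gg : ℕ → Fin T) (b : ℕ → ℕ) (z : ℕ → E),
    Rail S kk X e len L w gg b z →
    ∃ p ≤ p0, ∃ l ≤ l0, ∃ f t, Blk S kk X e len L gg b z N p l f t := by
  classical
  let C := (K → K → F) × (St F K → St F K)
  have : Fintype C := Fintype.ofFinite C
  obtain ⟨W, hW⟩ : ∃ W, W = 2 * Fintype.card C + 2 := ⟨_, rfl⟩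
  refine ⟨W * w, fun N => ?_⟩
  let β := C × Fin (p0 + 1) × Fin (W * w + 1) × (K → P → F) × (P → K → F)
  obtain ⟨M, hM⟩ := pigeon (Nat.card β) (N + 2)
  refine ⟨1 + M * W, fun κ T P0 E _ col S kk X Q0 e len pf G gg b z R => ?_⟩
  choose f0 t0 w1 w2 w3 w4 using fun h : ℕ =>
    window (C := C) (colour S kk X gg b z) (1 + h * W)
  rw [← hW] at w3
  have hgap : ∀ h, b (t0 h) - b (f0 h + 1) < W * w + 1 := fun h => by
    have a1 := w1 h
    have a2 := w2 h
    have a3 := w3 h
    have h1 := b_add R (f0 h + 1) W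
    have h2 : b (t0 h) ≤ b (f0 h + 1 + W) := b_mono R (by omega)
    omega
  obtain ⟨g, hg⟩ := hM β le_rfl fun h => (colour S kk X gg b z (f0 h),
    ⟨len (gg (f0 h)), Nat.lt_succ_of_le (G.len_le _)⟩, ⟨b (t0 h) - b (f0 h + 1), hgap h⟩,
    fun r q => S (gg (t0 h)) (kk r) (e (gg (f0 h)) (inl q)),
    fun q => X (gg (t0 h)) (e (gg (f0 h)) (inl q)))
  obtain ⟨γ, hγ⟩ : ∃ γ : ℕ → Fin (N + 2), ∀ h ≤ N + 1, (γ h).val = h :=
    ⟨fun h => ⟨min h (N + 1), by omega⟩, fun h hh => min_eq_left hh⟩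
  let f : ℕ → ℕ := fun h => f0 (g (γ h))
  let t : ℕ → ℕ := fun h => t0 (g (γ h))
  have hft : ∀ h, f h + 2 ≤ t h := fun h => w2 _
  have hf1 : ∀ h, 1 ≤ f h := fun h => le_trans (Nat.le_add_right _ _) (w1 _)
  have htf : ∀ h h', h < h' → h' ≤ N + 1 → t h < f h' := fun h h' u v => by
    have a0 : γ h < γ h' := by
      rw [Fin.lt_def, hγ h (by omega), hγ h' v]
      exact u
    have a1 : (g (γ h)).val + 1 ≤ (g (γ h')).val := g.strictMono a0
    have a2 := w3 (g (γ h))
    have a3 := w1 (g (γ h'))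
    have a4 := Nat.mul_le_mul_right W a1
    rw [Nat.succ_mul] at a4
    simp only [f, t]
    omega
  have htL : ∀ h, t h < 1 + M * W := fun h => by
    have a1 : (g (γ h)).val + 1 ≤ M := (g (γ h)).2
    have a2 := w3 (g (γ h))
    have a4 := Nat.mul_le_mul_right W a1
    rw [Nat.succ_mul] at a4
    simp only [t]
    omega
  have hfL : ∀ h, f h < 1 + M * W := fun h => by
    have := hft h
    have := htL h
    omega
  have cf : ∀ h h', colour S kk X gg b z (f h) = colour S kk X gg b z (f h') := fun h h' =>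
    congrArg Prod.fst (hg (γ h) (γ h'))
  have ct : ∀ h h', colour S kk X gg b z (t h) = colour S kk X gg b z (f h') := fun h h' =>
    (w4 _).symm.trans (cf h h')
  have clen : ∀ h, len (gg (f h)) = len (gg (f 0)) := fun h =>
    congrArg (fun x : β => x.2.1.val) (hg (γ h) (γ 0))
  have cgap : ∀ h, b (t h) - b (f h + 1) = b (t 0) - b (f 0 + 1) := fun h =>
    congrArg (fun x : β => x.2.2.1.val) (hg (γ h) (γ 0))
  have cK : ∀ h r q, S (gg (t h)) (kk r) (e (gg (f h)) (inl q)) =
      S (gg (t 0)) (kk r) (e (gg (f 0)) (inl q)) := fun h r q =>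
    congrArg (fun x : β => x.2.2.2.1 r q) (hg (γ h) (γ 0))
  have cX : ∀ h q, X (gg (t h)) (e (gg (f h)) (inl q)) =
      X (gg (t 0)) (e (gg (f 0)) (inl q)) := fun h q =>
    congrArg (fun x : β => x.2.2.2.2 q) (hg (γ h) (γ 0))
  have hQ : ∀ h q, e (gg (f h)) (inl q) ∈ QS Q0 e len (gg (t h)).val := fun h q =>
    mem_QS (R.mono _ _ (by have := hft h; omega) (htL h)) fun i hi => by cases hi
  have hN : ∀ h ≤ N, t h ≤ f (N + 1) := fun h hh => (htf h (N + 1) (by omega) le_rfl).le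
  have aK : ∀ h ≤ N, ∀ r q, S (gg (f (N + 1))) (kk r) (e (gg (f h)) (inl q)) =
      S (gg (t h)) (kk r) (e (gg (f h)) (inl q)) := fun h hh r q =>
    agree_col G R (hN h hh) (hfL _) (ct h (N + 1)) _ (Or.inl (G.kQ r)) _ (hQ h q)
  have aX : ∀ h ≤ N, ∀ q, X (gg (f (N + 1))) (e (gg (f h)) (inl q)) =
      X (gg (t h)) (e (gg (f h)) (inl q)) := fun h hh q =>
    (G.agree _ _ (gg_le R (hN h hh) (hfL _)) _ (hQ h q)).1
  refine ⟨len (gg (f 0)), G.len_le _, b (t 0) - b (f 0 + 1), Nat.lt_succ_iff.1 (hgap _), f, t,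
    fun h _ => hft h, htf, htL _, fun h _ => clen h, fun h _ => ?_, fun h h' u v v' => ?_,
    fun h hh => ?_, fun h hh r q => ?_, fun h hh q => ?_⟩
  · have a1 : b (f h + 1) ≤ b (t h) := b_mono R (by have := hft h; omega)
    have := cgap h
    omega
  · refine rr_id G R (by have := hft 0; omega) (htf 0 h u (by omega)).le ?_ (hfL _) (ct 0 h')
      (cf h h')
    rcases v.eq_or_lt with rfl | v
    · exact le_rfl
    · have := hft h
      have := htf h h' v v'
      omega
  · exact rr_id G R (by have := hft h; omega) (hN h hh) le_rfl (hfL _) (ct h (N + 1)) rfl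
  · rw [aK h hh, aK 0 (Nat.zero_le _), cK]
  · rw [aX h hh, aX 0 (Nat.zero_le _), cX]

end PATH

end Pool.Agent.MP_d99b12_co.H25
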