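import Pool.Agent.MP_d99b12_co.H25.Spec
import Pool.Agent.MP_d99b12_co.H25.ChainB

/-! # ROUNDC, part a: cross ratios, tame vertices, facts on a triple datum, the final homogenisation -/

namespace Pool.Agent.MP_d99b12_co.H25

open Matrix Sum

namespace ROUNDC

section Gen

variable {F : Type} [Field F] {E : Type}

/-- The cross ratio of the 4-cycle `k, β1, α, β2`. -/
noncomputable def cr (M : Matrix E E F) (k β1 α β2 : E) : F :=
  M k β1 * M α β2 / (M k β2 * M α β1)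

/-- `w` sees the triple as `k` does. -/
def Tame (M : Matrix E E F) (k β1 α β2 w : E) : Prop :=
  M w α = 0 ∧ M w β1 * M k β2 = M w β2 * M k β1

/-- The edge `o → v` of a blocking walk. -/
def Edge (M : Matrix E E F) (k β1 o v : E) : Prop := M o v * M k β1 ≠ M o β1 * M k v

lemma uc4_iff {M M' : Matrix E E F} {k β1 α β2 : E} (h1 : M k β1 ≠ 0) (h2 : M k β2 ≠ 0)
    (h3 : M α β1 ≠ 0) (h4 : M α β2 ≠ 0) (h2' : M' k β2 ≠ 0) (h3' : M' α β1 ≠ 0) :
    UC4 M M' k β1 α β2 ↔ cr M k β1 α β2 ≠ cr M' k β1 α β2 := by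
  unfold UC4 cr
  rw [Ne, Ne, Ne, Ne, Ne, Ne, div_eq_div_iff (mul_ne_zero h2 h3) (mul_ne_zero h2' h3')]
  constructor
  · rintro ⟨-, -, -, -, h⟩ he
    exact h (by linear_combination -he)
  · intro h
    exact ⟨h1, h2, h3, h4, fun he => h (by linear_combination -he)⟩

lemma Tame.same [Fintype E] {M M' : Matrix E E F} (h : Same M M') {k β1 α β2 w : E}
    (ht : Tame M k β1 α β2 w) : Tame M' k β1 α β2 w :=
  ⟨(h.zero_iff _ _).1 ht.1, (h.det2 w k β1 β2).1 ht.2⟩

lemma ns_of_conn [Fintype E] {m : ℕ} (hm : 1 ≤ m) {M : Matrix E E F} (hc : Conn m M) (hs : Skew M)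
    {O : Set E} {k β1 α β2 w : E} (h1 : M k β1 ≠ 0) (hne : β1 ≠ α) (hk : k ∈ O) (hw : w ∈ O)
    (hwk : w ≠ k) : NS O M k β1 α β2 := by
  intro X hd hb1 ha _ hclo
  have hr : RkLE M X Xᶜ 1 := by
    refine ⟨fun u _ => -M k u / M k β1, fun w _ => M w β1, fun u hu w hw => ?_⟩
    have := hclo w hw u hu
    simp only [dotProduct, Finset.univ_unique, Finset.sum_singleton]
    rw [hs u w]
    field_simp
    linear_combination -this
  have hk' : k ∈ Xᶜ := fun h => Set.disjoint_left.1 hd h hk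
  have hw' : w ∈ Xᶜ := fun h => Set.disjoint_left.1 hd h hw
  rcases hc X 1 hm hr with h | h
  · exact hne ((Set.ncard_le_one (Set.toFinite _)).1 h _ hb1 _ ha)
  · exact hwk ((Set.ncard_le_one (Set.toFinite _)).1 h _ hw' _ hk')

end Gen

section Dat

variable {F : Type} [Field F] {K P : Type}

/-- The triple of petal `u`. -/
def InT (b1 a b2 : P) {N : ℕ} (u : Fin N) (x : K ⊕ Fin N × P) : Prop :=
  x = inr (u, b1) ∨ x = inr (u, a) ∨ x = inr (u, b2)

/-- The reference matrix. -/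
def BG (d : Datum F K P) (N : ℕ) : Matrix (K ⊕ Fin N × P) (K ⊕ Fin N × P) F :=
  d.big fun _ => d.A

lemma not_inT_inl {b1 a b2 : P} {N : ℕ} (u : Fin N) (k : K) : ¬InT b1 a b2 u (inl k) := by
  simp [InT]

lemma InT.eq {b1 a b2 : P} {N : ℕ} {u u' : Fin N} {p : P}
    (h : InT b1 a b2 u (inr (u', p) : K ⊕ Fin N × P)) : u' = u := by
  rcases h with h | h | h <;> simp only [inr.injEq, Prod.mk.injEq] at h <;> exact h.1

lemma InT.uniq {b1 a b2 : P} {N : ℕ} {u u' : Fin N} {x : K ⊕ Fin N × P}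
    (h : InT b1 a b2 u x) (h' : InT b1 a b2 u' x) : u = u' := by
  rcases h with rfl | rfl | rfl <;> exact h'.eq

lemma not_inT_of_ne {b1 a b2 : P} {N : ℕ} {u u' : Fin N} (h : u' ≠ u) (p : P) :
    ¬InT b1 a b2 u (inr (u', p) : K ⊕ Fin N × P) := fun h' => h h'.eq

lemma BG_inl_inr (d : Datum F K P) {N : ℕ} (k : K) (u : Fin N) (p : P) :
    BG d N (inl k) (inr (u, p)) = d.V k p := rfl

/-- What is used about the datum. -/
structure Gd (d : Datum F K P) (k : K) (b1 a b2 : P) : Prop where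
  vb1 : d.V k b1 ≠ 0
  vb2 : d.V k b2 ≠ 0
  ab1 : d.A a b1 ≠ 0
  ab2 : d.A a b2 ≠ 0
  ne1 : b1 ≠ a
  ne2 : b2 ≠ a
  ne3 : b1 ≠ b2
  skew : ∀ N, Skew (BG d N)
  zero : ∀ N (u : Fin N) x, ¬InT b1 a b2 u x → BG d N x (inr (u, a)) = 0
  par : ∀ N (u : Fin N) x, ¬InT b1 a b2 u x →
    BG d N x (inr (u, b1)) * d.V k b2 = BG d N x (inr (u, b2)) * d.V k b1

lemma gd_of_tri [Fintype K] [Fintype P] {m : ℕ} {d : Datum F K P} {k : K} {b1 a b2 : P}
    (hR : Real m d) (hr : d.Ref) (ht : d.Tri k b1 a b2) : Gd d k b1 a b2 := by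
  have hf := hR.alg.fam_pair
  obtain ⟨h1, h2, h3, h4, h5⟩ := ht.uc
  have hcol : d.dsp.1 (inl k) = d.dsp.1 (inr a) := by
    have c1 := hf.col_ne (i := false) h1
    have c2 := hf.col_ne (i := false) h3
    revert c1 c2
    cases d.dsp.1 (inl k) <;> cases d.dsp.1 (inr a) <;> cases d.dsp.1 (inr b1) <;> simp
  have hka : d.V k a = 0 := hf.bip false _ _ hcol
  have v1 : d.V k b1 ≠ 0 := h1
  have ya : ∀ k', d.V k' a = 0 := by
    intro k'
    have := ht.clo (inl k') (by simp) (inr a) (by simp)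
    change d.V k' a * d.V k b1 = d.V k' b1 * d.V k a at this
    rw [hka, mul_zero] at this
    exact (mul_eq_zero.1 this).resolve_right v1
  have yb : ∀ k', d.V k' b1 * d.V k b2 = d.V k' b2 * d.V k b1 := by
    intro k'
    exact (ht.clo (inl k') (by simp) (inr b2) (by simp)).symm
  have dot_a : ∀ x : K → F, x ⬝ᵥ d.y a = 0 := by
    intro x
    simp [dotProduct, Datum.y, ya]
  have dot_b : ∀ x : K → F, x ⬝ᵥ d.y b1 * d.V k b2 = x ⬝ᵥ d.y b2 * d.V k b1 := by
    intro x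
    simp only [dotProduct, Datum.y, Finset.sum_mul]
    exact Finset.sum_congr rfl fun k' _ => by rw [mul_assoc, yb, mul_assoc]
  have hA : ∀ p, ¬(p = b1 ∨ p = a ∨ p = b2) →
      d.A p a = 0 ∧ d.A p b1 * d.V k b2 = d.A p b2 * d.V k b1 := by
    intro p hp
    have hp' : (inr p : K ⊕ P) ∉ ({inr b1, inr a, inr b2} : Set (K ⊕ P)) := by simpa using hp
    have e1 := ht.clo (inr p) hp' (inr a) (by simp)
    have e2 := ht.clo (inr p) hp' (inr b2) (by simp)
    change d.A p a * d.V k b1 = d.A p b1 * d.V k a at e1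
    rw [hka, mul_zero] at e1
    exact ⟨(mul_eq_zero.1 e1).resolve_right v1, e2.symm⟩
  have key : ∀ N (u : Fin N) x, ¬InT b1 a b2 u x → BG d N x (inr (u, a)) = 0 ∧
      BG d N x (inr (u, b1)) * d.V k b2 = BG d N x (inr (u, b2)) * d.V k b1 := by
    intro N u x hx
    rcases x with k' | ⟨i, p⟩
    · exact ⟨ya k', yb k'⟩
    · simp only [BG, Datum.big, of_apply]
      by_cases hi : i = u
      · subst hi
        simp only [if_true]
        exact hA p (by simpa [InT] using hx)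
      · simp only [hi, if_false]
        by_cases hl : i < u
        · simp only [hl, if_true]
          obtain ⟨x, hx⟩ := hr.1 p
          simp only [hx]
          exact ⟨dot_a x, dot_b x⟩
        · simp only [hl, if_false]
          obtain ⟨x, hx⟩ := hr.2 p
          simp only [hx]
          exact ⟨by rw [dot_a, neg_zero], by rw [neg_mul, neg_mul, dot_b]⟩
  refine ⟨v1, h2, h3, h4, ?_, ?_, ?_, ?_, fun N u x hx => (key N u x hx).1,
    fun N u x hx => (key N u x hx).2⟩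
  · rintro rfl
    exact h3 (hf.diag false _)
  · rintro rfl
    exact h4 (hf.diag false _)
  · rintro rfl
    exact h5 rfl
  · intro N
    obtain ⟨E, _, col, S, kk, pp, hfam, -, hch⟩ := hR N
    intro x y
    have := hch.last
    unfold BG
    rw [← this]
    exact hfam.skew _ _ _

end Dat

section Fin

variable {F : Type} [Field F]

/-- The conclusion for given shapes. -/
def Good {K P : Type} [Fintype K] (k : K) (b1 a b2 : P) (d : Datum F K P) : Prop :=
  d.Ref ∧ UC4 (d.pair false) (d.pair true) (inl k) (inr b1) (inr a) (inr b2) ∧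
    NS (Set.range inl) (d.pair false) (inl k) (inr b1) (inr a) (inr b2)

lemma fin (hh : HOM F) (m : ℕ) (K P : Type) [Fintype K] [Fintype P] (k : K) (b1 a b2 : P) (n : ℕ) :
    ∃ N, ∀ (E : Type) [Fintype E] (col : E → Bool) (S : Fin N → Matrix E E F) (kk : K → E)
      (pp : Fin N → P → E) (R : Matrix E E F), Fam col S → (∀ i, Conn m (S i)) →
      Function.Injective (emb kk pp) → (∀ i, Same (S i) R) →
      (∀ i j, j < i → UC4 (S i) (S j) (kk k) (pp j b1) (pp j a) (pp j b2)) →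
      (∀ j (X : Set E), X ⊆ Set.range (pp j) → pp j b1 ∈ X → pp j a ∈ X → pp j b2 ∈ X →
        (∀ w, w ∈ Set.range kk ∨ w ∈ Set.range (pp j) → w ∉ X → ∀ x ∈ X,
          R w x * R (kk k) (pp j b1) = R w (pp j b1) * R (kk k) x) → False) →
      ∃ d : Datum F (K ⊕ P ⊕ P) P, RealN m n d ∧ Good (inl k) b1 a b2 d := by
  obtain ⟨N, hN⟩ := hh K P (n + 1)
  refine ⟨N, fun E _ col S kk pp R hf hc hi hR huc hns => ?_⟩
  obtain ⟨d, g, i0, iR, c, -, -, -, hc1, href, hch⟩ := hN E col S kk pp hf hi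
  have hlt : ((0 : Fin (n + 1)) : ℕ) < (Fin.last (n + 1) : ℕ) := by simp
  have hp0 := hch.pair_false hlt
  have hp1 := hch.pair_true 0
  rw [hc1, scale_one] at hp0
  refine ⟨d, RealN.mono ⟨E, inferInstance, col, _, _, _, (hf.reindex g).scale c,
    fun i => (hc (g i)).scale (c i), hch⟩ (Nat.le_succ n), href, ?_, ?_⟩
  · rw [hp0, hp1]
    exact (huc (g (Fin.last _)) (g (Fin.castSucc 0)) (g.strictMono (Fin.castSucc_lt_last 0))).scale _
  · intro X hd h1 h2 h3 hclo
    rw [hp0] at hclo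
    set f : (K ⊕ P ⊕ P) ⊕ P → E :=
      Sum.elim (Sum.elim kk (Sum.elim (pp i0) (pp iR))) (pp (g (Fin.castSucc 0))) with hfdef
    refine hns (g (Fin.castSucc 0)) (f '' X) ?_ ⟨_, h1, rfl⟩ ⟨_, h2, rfl⟩ ⟨_, h3, rfl⟩ ?_
    · rintro _ ⟨x, hx, rfl⟩
      rcases x with x | x
      · exact absurd ⟨x, rfl⟩ (Set.disjoint_left.1 hd hx)
      · exact ⟨x, rfl⟩
    · rintro w hw hwX _ ⟨x, hx, rfl⟩
      obtain ⟨w0, rfl⟩ : ∃ w0, f w0 = w := by
        rcases hw with ⟨k', rfl⟩ | ⟨p, rfl⟩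
        · exact ⟨inl (inl k'), rfl⟩
        · exact ⟨inr p, rfl⟩
      have := hclo w0 (fun h => hwX ⟨_, h, rfl⟩) x hx
      exact ((hR (g (Fin.last _))).det2 (f w0) (kk k) (f x) (pp (g (Fin.castSucc 0)) b1)).1 this

end Fin

end ROUNDC

end Pool.Agent.MP_d99b12_co.H25
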