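import Pool.Agent.MP_d99b12_co.H25.ROUNDCa

/-! # ROUNDC, part b: frames and one walk -/

namespace Pool.Agent.MP_d99b12_co.H25

open Matrix Sum

namespace ROUNDC

variable {F : Type} [Field F] {K P : Type}

/-- A display with an embedded copy of the reference matrix, exact outside the triples. -/
structure Frame (d : Datum F K P) (b1 a b2 : P) (m : ℕ) (E ι : Type) [Fintype E] (σ : ι)
    (N : ℕ) where
  col : E → Bool
  S : ι → Matrix E E F
  c : K ⊕ Fin N × P → Fˣ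
  e : K ⊕ Fin N × P → E
  fam : Fam col S
  conn : ∀ i, Conn m (S i)
  einj : Function.Injective e
  ref : ∀ x y, (∀ u, InT b1 a b2 u x → ¬InT b1 a b2 u y) →
    (c x : F) * (c y : F) * S σ (e x) (e y) = BG d N x y
  adj1 : ∀ u, S σ (e (inr (u, a))) (e (inr (u, b1))) ≠ 0
  adj2 : ∀ u, S σ (e (inr (u, a))) (e (inr (u, b2))) ≠ 0

namespace Frame

variable {d : Datum F K P} {k : K} {b1 a b2 : P} {m : ℕ} {E ι : Type} [Fintype E] {σ : ι} {N : ℕ}

noncomputable def crr (f : Frame d b1 a b2 m E ι σ N) (k : K) (i : ι) (u : Fin N) : F :=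
  cr (f.S i) (f.e (inl k)) (f.e (inr (u, b1))) (f.e (inr (u, a))) (f.e (inr (u, b2)))

def Tm (f : Frame d b1 a b2 m E ι σ N) (k : K) (u : Fin N) (w : E) : Prop :=
  Tame (f.S σ) (f.e (inl k)) (f.e (inr (u, b1))) (f.e (inr (u, a))) (f.e (inr (u, b2))) w

def Ed (f : Frame d b1 a b2 m E ι σ N) (k : K) (u : Fin N) (o v : E) : Prop :=
  Edge (f.S σ) (f.e (inl k)) (f.e (inr (u, b1))) o v

variable (f : Frame d b1 a b2 m E ι σ N)

lemma ref_inl (k' : K) (u : Fin N) (p : P) :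
    (f.c (inl k') : F) * (f.c (inr (u, p)) : F) * f.S σ (f.e (inl k')) (f.e (inr (u, p))) =
      d.V k' p := f.ref _ _ fun _ h => absurd h (not_inT_inl _ _)

lemma kb1 (hg : Gd d k b1 a b2) (i : ι) (u : Fin N) :
    f.S i (f.e (inl k)) (f.e (inr (u, b1))) ≠ 0 := by
  intro h
  have := f.ref_inl k u b1
  rw [(f.fam.zero_iff i σ _ _).1 h, mul_zero] at this
  exact hg.vb1 this.symm

lemma kb2 (hg : Gd d k b1 a b2) (i : ι) (u : Fin N) :
    f.S i (f.e (inl k)) (f.e (inr (u, b2))) ≠ 0 := by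
  intro h
  have := f.ref_inl k u b2
  rw [(f.fam.zero_iff i σ _ _).1 h, mul_zero] at this
  exact hg.vb2 this.symm

lemma ab1 (i : ι) (u : Fin N) : f.S i (f.e (inr (u, a))) (f.e (inr (u, b1))) ≠ 0 :=
  fun h => f.adj1 u ((f.fam.zero_iff i σ _ _).1 h)

lemma ab2 (i : ι) (u : Fin N) : f.S i (f.e (inr (u, a))) (f.e (inr (u, b2))) ≠ 0 :=
  fun h => f.adj2 u ((f.fam.zero_iff i σ _ _).1 h)

lemma uc_iff (hg : Gd d k b1 a b2) (i j : ι) (u : Fin N) :
    UC4 (f.S i) (f.S j) (f.e (inl k)) (f.e (inr (u, b1))) (f.e (inr (u, a))) (f.e (inr (u, b2))) ↔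
      f.crr k i u ≠ f.crr k j u :=
  uc4_iff (f.kb1 hg i u) (f.kb2 hg i u) (f.ab1 i u) (f.ab2 i u) (f.kb2 hg j u) (f.ab1 j u)

lemma ref_out {u : Fin N} {x y : K ⊕ Fin N × P} (hx : ¬InT b1 a b2 u x) (hy : InT b1 a b2 u y) :
    (f.c x : F) * (f.c y : F) * f.S σ (f.e x) (f.e y) = BG d N x y :=
  f.ref _ _ fun _ h h' => hx (hy.uniq h' ▸ h)

/-- Embedded elements outside a triple are tame for it. -/
lemma tame_e (hg : Gd d k b1 a b2) {u : Fin N} {x : K ⊕ Fin N × P} (hx : ¬InT b1 a b2 u x) :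
    f.Tm k u (f.e x) := by
  have h0 := f.ref_out hx (Or.inr (Or.inl rfl))
  have h1 := f.ref_out hx (Or.inl rfl)
  have h2 := f.ref_out hx (Or.inr (Or.inr rfl))
  have k1 := f.ref_inl k u b1
  have k2 := f.ref_inl k u b2
  constructor
  · rw [hg.zero N u x hx] at h0
    simpa using h0
  · have := hg.par N u x hx
    rw [← h1, ← h2, ← k1, ← k2] at this
    have hc : (f.c x : F) * f.c (inl k) * f.c (inr (u, b1)) * f.c (inr (u, b2)) ≠ 0 := by simp
    exact mul_left_cancel₀ hc (by linear_combination this)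

end Frame

section Walk

variable {d : Datum F K P} {k : K} {b1 a b2 : P} {m : ℕ} {E ι : Type} [Fintype E] {σ : ι} {N : ℕ}

open Classical in
/-- Replace the values on a triple. -/
noncomputable def upd {β : Type} (b1 a b2 : P) (u : Fin N) (g : K ⊕ Fin N × P → β) (x1 x0 x2 : β) :
    K ⊕ Fin N × P → β := fun x =>
  if x = inr (u, b1) then x1 else if x = inr (u, a) then x0 else if x = inr (u, b2) then x2 else g x

lemma upd_off {β : Type} {u : Fin N} (g : K ⊕ Fin N × P → β) (x1 x0 x2 : β) {x : K ⊕ Fin N × P}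
    (h : ¬InT b1 a b2 u x) : upd b1 a b2 u g x1 x0 x2 x = g x := by
  simp only [InT, not_or] at h
  simp [upd, h.1, h.2.1, h.2.2]

lemma upd_1 {β : Type} {u : Fin N} (g : K ⊕ Fin N × P → β) (x1 x0 x2 : β) :
    upd b1 a b2 u g x1 x0 x2 (inr (u, b1)) = x1 := by simp [upd]

lemma upd_0 (hg : Gd d k b1 a b2) {β : Type} {u : Fin N} (g : K ⊕ Fin N × P → β) (x1 x0 x2 : β) :
    upd b1 a b2 u g x1 x0 x2 (inr (u, a)) = x0 := by simp [upd, hg.ne1.symm]

lemma upd_2 (hg : Gd d k b1 a b2) {β : Type} {u : Fin N} (g : K ⊕ Fin N × P → β) (x1 x0 x2 : β) :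
    upd b1 a b2 u g x1 x0 x2 (inr (u, b2)) = x2 := by simp [upd, hg.ne3.symm, hg.ne2]

/-- The relation between a frame and the frame after a walk at the label `j`. -/
structure Walked (k : K) (f f' : Frame d b1 a b2 m E ι σ N) (j : Fin N) (V : Set E) (i1 i2 : ι)
    (v o : E) : Prop where
  eoff : ∀ x, ¬InT b1 a b2 j x → f'.e x = f.e x
  agree : ∀ i, AgreeOn ({w | ∃ x, ¬InT b1 a b2 j x ∧ f.e x = w} ∪ V) (f.S i) (f'.S i)
  vnot : ∀ w ∈ V, ∀ x, w ≠ f'.e x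
  vV : v ∉ V
  ve : ∀ x, v ≠ f'.e x
  dev : f'.crr k i1 j ≠ f'.crr k i2 j
  oin : o ∈ {w | ∃ x, ¬InT b1 a b2 j x ∧ f.e x = w} ∪ V
  edge : f'.Ed k j o v
  wild : ¬f'.Tm k j v

lemma walk [Fintype F] (hw : WALK F) (hm : 1 ≤ m) (hg : Gd d k b1 a b2)
    (f : Frame d b1 a b2 m E ι σ N) {j j1 : Fin N} (hj : j1 ≠ j) {V : Set E}
    (hV : ∀ w ∈ V, ∀ x, w ≠ f.e x) (hVt : ∀ w ∈ V, f.Tm k j w) {i1 i2 : ι}
    (hdev : f.crr k i1 j ≠ f.crr k i2 j) :
    ∃ (f' : Frame d b1 a b2 m E ι σ N) (v o : E), Walked k f f' j V i1 i2 v o := by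
  set O : Set E := {w | ∃ x, ¬InT b1 a b2 j x ∧ f.e x = w} ∪ V with hO
  have memO : ∀ {x}, ¬InT b1 a b2 j x → f.e x ∈ O := fun {x} hx => Or.inl ⟨x, hx, rfl⟩
  have notO : ∀ {x}, InT b1 a b2 j x → f.e x ∉ O := by
    rintro x hx (⟨y, hy, hxy⟩ | h)
    · exact hy (f.einj hxy ▸ hx)
    · exact hV _ h x rfl
  have hkO : f.e (inl k) ∈ O := memO (not_inT_inl _ _)
  have tameO : ∀ w ∈ O, f.Tm k j w := by
    rintro w (⟨x, hx, rfl⟩ | h)
    · exact f.tame_e hg hx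
    · exact hVt w h
  have hne : f.e (inr (j, b1)) ≠ f.e (inr (j, a)) := fun h => hg.ne1 (by simpa using f.einj h)
  obtain ⟨b, b1', a', b2', v, o, hr, n1, n0, n2, nv, v1, v0, v2, huc, hno, hκ, ho, hedge, hwild⟩ :=
    hw E ι (f.col, f.S) i1 i2 O (f.e (inl k)) (f.e (inr (j, b1))) (f.e (inr (j, a)))
      (f.e (inr (j, b2))) f.fam hkO (notO (Or.inl rfl)) (notO (Or.inr (Or.inl rfl)))
      (notO (Or.inr (Or.inr rfl))) ((f.uc_iff hg i1 i2 j).2 hdev)
      (fun w hw => ((tameO w hw).same (f.fam.same σ i1)).1)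
      (fun w hw => ((tameO w hw).same (f.fam.same σ i1)).2)
      (ns_of_conn hm (f.conn i1) (f.fam.skew i1) (f.kb1 hg i1 j) hne hkO
        (memO (not_inT_of_ne hj b1)) fun h => by simpa using f.einj h)
  have hfam : Fam b.1 b.2 := hr.fam f.fam
  have hag : ∀ i, AgreeOn O (f.S i) (b.2 i) := fun i => hr.agree f.fam i
  have d1 : b1' ≠ a' := by
    rintro rfl
    exact huc.2.2.1 (hfam.diag _ _)
  have d2 : b2' ≠ a' := by
    rintro rfl
    exact huc.2.2.2.1 (hfam.diag _ _)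
  have d3 : b1' ≠ b2' := by
    rintro rfl
    exact huc.2.2.2.2 rfl
  obtain ⟨κ1, κ2, hκσ⟩ := hκ σ
  set r : Fˣ := Units.mk0 _ (div_ne_zero (f.kb2 hg σ j) (f.kb1 hg σ j)) with hrdef
  have hrw : ∀ w ∈ O, f.S σ w (f.e (inr (j, b2))) = r * f.S σ w (f.e (inr (j, b1))) := by
    intro w hw
    have := (tameO w hw).2
    have h1 := f.kb1 hg σ j
    rw [hrdef, Units.val_mk0]
    field_simp
    linear_combination -this
  set e' : K ⊕ Fin N × P → E := upd b1 a b2 j f.e b1' a' b2' with he'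
  set c' : K ⊕ Fin N × P → Fˣ :=
    upd b1 a b2 j f.c (f.c (inr (j, b1)) * κ1⁻¹) 1 (f.c (inr (j, b2)) * r * κ2⁻¹) with hc'
  have e1 : e' (inr (j, b1)) = b1' := upd_1 _ _ _ _
  have e0 : e' (inr (j, a)) = a' := upd_0 hg _ _ _ _
  have e2 : e' (inr (j, b2)) = b2' := upd_2 hg _ _ _ _
  have eo : ∀ {x}, ¬InT b1 a b2 j x → e' x = f.e x := fun hx => upd_off _ _ _ _ hx
  have eT : ∀ {x}, InT b1 a b2 j x → e' x ∉ O ∧ v ≠ e' x := by
    rintro x (rfl | rfl | rfl)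
    · rw [e1]; exact ⟨n1, v1⟩
    · rw [e0]; exact ⟨n0, v0⟩
    · rw [e2]; exact ⟨n2, v2⟩
  have einj : Function.Injective e' := by
    intro x y hxy
    by_cases hx : InT b1 a b2 j x <;> by_cases hy : InT b1 a b2 j y
    · rcases hx with rfl | rfl | rfl <;> rcases hy with rfl | rfl | rfl <;>
        simp only [e1, e0, e2] at hxy <;>
        first | rfl | exact absurd hxy (by first | assumption | exact Ne.symm (by assumption))
    · exact absurd (hxy ▸ eo hy ▸ memO hy) (eT hx).1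
    · exact absurd (hxy ▸ eo hx ▸ memO hx) (eT hy).1
    · exact f.einj (by rwa [eo hx, eo hy] at hxy)
  have href1 : ∀ x y, ¬InT b1 a b2 j x → InT b1 a b2 j y →
      (c' x : F) * (c' y : F) * b.2 σ (e' x) (e' y) = BG d N x y := by
    intro x y hx hy
    have hcx : c' x = f.c x := upd_off _ _ _ _ hx
    have hxO := memO hx
    have hold := f.ref_out hx hy
    rw [eo hx, hcx]
    rcases hy with rfl | rfl | rfl
    · rw [e1, (hκσ _ hxO).1, ← hold, hc', upd_1]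
      simp only [Units.val_mul, Units.val_inv_eq_inv_val]
      field_simp
    · rw [e0, hno σ _ hxO, hg.zero N j x hx, mul_zero]
    · rw [e2, (hκσ _ hxO).2, ← hold, hc', upd_2 hg, hrw _ hxO]
      simp only [Units.val_mul, Units.val_inv_eq_inv_val]
      field_simp
  have href : ∀ x y, (∀ u, InT b1 a b2 u x → ¬InT b1 a b2 u y) →
      (c' x : F) * (c' y : F) * b.2 σ (e' x) (e' y) = BG d N x y := by
    intro x y hxy
    by_cases hx : InT b1 a b2 j x
    · have hy := hxy j hx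
      have := href1 y x hy hx
      rw [hg.skew N x y, hfam.skew σ (e' x) (e' y), ← this]
      ring
    · by_cases hy : InT b1 a b2 j y
      · exact href1 x y hx hy
      · have hcx : c' x = f.c x := upd_off _ _ _ _ hx
        have hcy : c' y = f.c y := upd_off _ _ _ _ hy
        rw [eo hx, eo hy, hcx, hcy, hag σ _ (memO hx) _ (memO hy)]
        exact f.ref x y hxy
  have hadj : ∀ u, b.2 σ (e' (inr (u, a))) (e' (inr (u, b1))) ≠ 0 ∧
      b.2 σ (e' (inr (u, a))) (e' (inr (u, b2))) ≠ 0 := by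
    intro u
    by_cases hu : u = j
    · subst hu
      rw [e0, e1, e2]
      exact ⟨fun h => huc.2.2.1 ((hfam.zero_iff σ i1 _ _).1 h),
        fun h => huc.2.2.2.1 ((hfam.zero_iff σ i1 _ _).1 h)⟩
    · have q := fun p => not_inT_of_ne (K := K) (b1 := b1) (a := a) (b2 := b2) hu p
      rw [eo (q a), eo (q b1), eo (q b2), hag σ _ (memO (q a)) _ (memO (q b1)),
        hag σ _ (memO (q a)) _ (memO (q b2))]
      exact ⟨f.adj1 u, f.adj2 u⟩
  let f' : Frame d b1 a b2 m E ι σ N :=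
    ⟨b.1, b.2, c', e', hfam, fun i => hr.conn f.fam (f.conn i), einj, href, fun u => (hadj u).1,
      fun u => (hadj u).2⟩
  have ek : e' (inl k) = f.e (inl k) := eo (not_inT_inl _ _)
  refine ⟨f', v, o, fun x hx => eo hx, hag, ?_, fun h => nv (Or.inr h), ?_, ?_, ho, ?_, ?_⟩
  · intro w hw x (hx : w = e' x)
    by_cases hT : InT b1 a b2 j x
    · exact (eT hT).1 (hx ▸ Or.inr hw)
    · exact hV w hw x (hx.trans (eo hT))
  · intro x (hx : v = e' x)
    by_cases hT : InT b1 a b2 j x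
    · exact (eT hT).2 hx
    · exact nv (hx ▸ eo hT ▸ memO hT)
  · refine (f'.uc_iff hg i1 i2 j).1 ?_
    change UC4 (b.2 i1) (b.2 i2) (e' (inl k)) (e' (inr (j, b1))) (e' (inr (j, a))) (e' (inr (j, b2)))
    rw [ek, e1, e0, e2]
    exact huc
  · change Edge (b.2 σ) (e' (inl k)) (e' (inr (j, b1))) o v
    rw [ek, e1]
    exact hedge σ
  · change ¬Tame (b.2 σ) (e' (inl k)) (e' (inr (j, b1))) (e' (inr (j, a))) (e' (inr (j, b2))) v
    rw [ek, e1, e0, e2]
    rintro ⟨t1, t2⟩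
    rcases hwild σ with h | h
    · exact h t1
    · exact h t2

namespace Walked

variable {f f' : Frame d b1 a b2 m E ι σ N} {j : Fin N} {V : Set E} {i1 i2 : ι} {v o : E}

lemma ek (h : Walked k f f' j V i1 i2 v o) (k' : K) : f'.e (inl k') = f.e (inl k') :=
  h.eoff _ (not_inT_inl _ _)

lemma ep (h : Walked k f f' j V i1 i2 v o) {u : Fin N} (hu : u ≠ j) (p : P) :
    f'.e (inr (u, p)) = f.e (inr (u, p)) := h.eoff _ (not_inT_of_ne hu p)

lemma mk_ (f : Frame d b1 a b2 m E ι σ N) (j : Fin N) (V : Set E) (k' : K) :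
    f.e (inl k') ∈ {w | ∃ x, ¬InT b1 a b2 j x ∧ f.e x = w} ∪ V :=
  Or.inl ⟨_, not_inT_inl _ _, rfl⟩

lemma mp (f : Frame d b1 a b2 m E ι σ N) (V : Set E) {u : Fin N} (hu : u ≠ j) (p : P) :
    f.e (inr (u, p)) ∈ {w | ∃ x, ¬InT b1 a b2 j x ∧ f.e x = w} ∪ V :=
  Or.inl ⟨_, not_inT_of_ne hu p, rfl⟩

lemma crr (h : Walked k f f' j V i1 i2 v o) {u : Fin N} (hu : u ≠ j) (i : ι) :
    f'.crr k i u = f.crr k i u := by
  unfold Frame.crr cr
  rw [h.ek, h.ep hu, h.ep hu, h.ep hu, h.agree i _ (mk_ f j V k) _ (mp f V hu b1),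
    h.agree i _ (mk_ f j V k) _ (mp f V hu b2), h.agree i _ (mp f V hu a) _ (mp f V hu b1),
    h.agree i _ (mp f V hu a) _ (mp f V hu b2)]

lemma tm (h : Walked k f f' j V i1 i2 v o) {u : Fin N} (hu : u ≠ j) {w : E} (hw : w ∈ V) :
    f'.Tm k u w ↔ f.Tm k u w := by
  unfold Frame.Tm Tame
  rw [h.ek, h.ep hu, h.ep hu, h.ep hu, h.agree σ _ (mk_ f j V k) _ (mp f V hu b1),
    h.agree σ _ (mk_ f j V k) _ (mp f V hu b2), h.agree σ _ (Or.inr hw) _ (mp f V hu b1),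
    h.agree σ _ (Or.inr hw) _ (mp f V hu b2), h.agree σ _ (Or.inr hw) _ (mp f V hu a)]

lemma ed (h : Walked k f f' j V i1 i2 v o) {u : Fin N} (hu : u ≠ j) {w o' : E} (hw : w ∈ V)
    (ho : o' ∈ {w | ∃ x, ¬InT b1 a b2 j x ∧ f.e x = w} ∪ V) : f'.Ed k u o' w ↔ f.Ed k u o' w := by
  unfold Frame.Ed Edge
  rw [h.ek, h.ep hu, h.agree σ _ (mk_ f j V k) _ (mp f V hu b1),
    h.agree σ _ (mk_ f j V k) _ (Or.inr hw), h.agree σ _ ho _ (mp f V hu b1),
    h.agree σ _ ho _ (Or.inr hw)]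

end Walked

end Walk

end ROUNDC

end Pool.Agent.MP_d99b12_co.H25
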