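import Pool.Agent.MP_d99b12_co.H25.ROUNDCb

/-! # ROUNDC, part c: the induction state, the start and one step -/

namespace Pool.Agent.MP_d99b12_co.H25

open Matrix Sum

namespace ROUNDC

variable {F : Type} [Field F] {K P : Type}

/-- `o` lies in the core or in the piece with flowers `u1`, `u2` and vertex `w`. -/
def Frame.Loc {d : Datum F K P} {b1 a b2 : P} {m : ℕ} {E ι : Type} [Fintype E] {σ : ι} {N : ℕ}
    (f : Frame d b1 a b2 m E ι σ N) (u1 u2 : Fin N) (w o : E) : Prop :=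
  (∃ k', o = f.e (inl k')) ∨ (∃ p, o = f.e (inr (u1, p))) ∨ (∃ p, o = f.e (inr (u2, p))) ∨ o = w

/-- `t` finished pieces and `n` remaining petals. -/
structure Sta (d : Datum F K P) (k : K) (b1 a b2 : P) (m : ℕ) (E ι : Type) [Fintype E] (σ : ι)
    (N t n : ℕ) where
  f : Frame d b1 a b2 m E ι σ N
  own : ℕ → Fin N
  cmp : ℕ → Fin N
  rem : Fin n → Fin N
  v : ℕ → E
  o : ℕ → E
  φ : ℕ → ℕ
  dev : ℕ → ι
  cl : Fin (n + 1) → ι
  vinj : ∀ s < t, ∀ s' < t, v s = v s' → s = s'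
  vnot : ∀ s < t, ∀ x, v s ≠ f.e x
  oo : ∀ s < t, ∀ s' < t, own s = own s' → s = s'
  cc : ∀ s < t, ∀ s' < t, cmp s = cmp s' → s = s'
  oc : ∀ s < t, ∀ s' < t, own s ≠ cmp s'
  rr : Function.Injective rem
  orr : ∀ s < t, ∀ j, own s ≠ rem j
  crr : ∀ s < t, ∀ j, cmp s ≠ rem j
  tame : ∀ s < t, ∀ j, f.Tm k (rem j) (v s)
  wild : ∀ s < t, ¬f.Tm k (own s) (v s)
  edge : ∀ s < t, f.Ed k (own s) (o s) (v s)
  φle : ∀ s < t, φ s ≤ s
  oloc : ∀ s < t, f.Loc (own (φ s)) (cmp (φ s)) (v (φ s)) (o s)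
  onot : ∀ s < t, ∀ x, InT b1 a b2 (own s) x → o s ≠ f.e x
  one : ∀ s < t, o s ≠ v s
  uc1 : ∀ s' < t, ∀ s < s', f.crr k (dev s') (own s) ≠ f.crr k (dev s) (own s)
  uc2 : ∀ s < t, ∀ i, f.crr k (cl i) (own s) ≠ f.crr k (dev s) (own s)
  uc3 : ∀ (i : Fin (n + 1)) (j : Fin n), j.val < i.val →
    f.crr k (cl i) (rem j) ≠ f.crr k (cl j.castSucc) (rem j)

variable {d : Datum F K P} {k : K} {b1 a b2 : P} {m : ℕ}

lemma init (hg : Gd d k b1 a b2)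
    (hu : UC4 (d.pair false) (d.pair true) (inl k) (inr b1) (inr a) (inr b2)) {n : ℕ}
    (h : RealN m (n + 1) d) : ∃ (E ι : Type) (_ : Fintype E) (σ : ι) (N : ℕ),
      Nonempty (Sta d k b1 a b2 m E ι σ N 0 n) := by
  obtain ⟨E, _, col, S, kk, pp, hf, hc, hch⟩ := h
  have hl : ∀ x y, S (Fin.last _) (emb kk pp x) (emb kk pp y) = BG d (n + 1) x y := fun x y =>
    congrFun (congrFun hch.last x) y
  have hA : ∀ u p q, BG d (n + 1) (inr (u, p)) (inr (u, q)) = d.A p q := by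
    intro u p q
    simp [BG, Datum.big]
  let f : Frame d b1 a b2 m E (Fin (n + 2)) (Fin.last _) (n + 1) :=
    ⟨col, S, fun _ => 1, emb kk pp, hf, hc, hch.inj, fun x y _ => by simpa using hl x y,
      fun u => by rw [hl, hA]; exact hg.ab1, fun u => by rw [hl, hA]; exact hg.ab2⟩
  refine ⟨E, Fin (n + 2), inferInstance, Fin.last _, n + 1,
    ⟨⟨f, fun _ => 0, fun _ => 0, Fin.castSucc, fun _ => kk k, fun _ => kk k, fun _ => 0,
      fun _ => 0, Fin.castSucc, by simp, by simp, by simp, by simp, by simp,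
      Fin.castSucc_injective _, by simp, by simp, by simp, by simp, by simp, by simp, by simp,
      by simp, by simp, by simp, by simp, fun i j hij => ?_⟩⟩⟩
  refine (f.uc_iff hg _ _ _).1 ?_
  rw [hch.pair_false (i := i.castSucc) (j := j.castSucc) (by simpa using hij),
    hch.pair_true j.castSucc] at hu
  exact hu

section Step

variable [Fintype K] [Fintype P]

/-- The first shape of the result. -/
def Out1 (F : Type) [Field F] {K P : Type} [Fintype K] [Fintype P] (k : K) (b1 a b2 : P)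
    (m n : ℕ) : Prop :=
  ∃ d' : Datum F ((K ⊕ Unit) ⊕ P ⊕ P) P, RealN m n d' ∧ Good (inl (inl k)) b1 a b2 d'

lemma hub (hh : HOM F) (hg : Gd d k b1 a b2) (m n : ℕ) : ∃ n1, ∀ (E ι : Type) [Fintype E] (σ : ι)
    (N : ℕ) (f : Frame d b1 a b2 m E ι σ N) (L : Fin n1 → Fin N) (R : Fin n1 → ι) (v : E),
    Function.Injective L → (∀ i j, j < i → f.crr k (R i) (L j) ≠ f.crr k (R j) (L j)) →
    (∀ x, v ≠ f.e x) → (∀ j, ¬f.Tm k (L j) v) → Out1 F k b1 a b2 m n := by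
  obtain ⟨n1, h⟩ := fin hh m (K ⊕ Unit) P (inl k) b1 a b2 n
  refine ⟨n1, fun E ι _ σ N f L R v hL huc hv hw => ?_⟩
  refine h E f.col (fun i => f.S (R i)) (Sum.elim (fun k' => f.e (inl k')) fun _ => v)
    (fun j p => f.e (inr (L j, p))) (f.S σ) (f.fam.reindex R) (fun i => f.conn _) ?_
    (fun i => f.fam.same _ _) (fun i j hij => (f.uc_iff hg _ _ _).2 (huc i j hij)) ?_
  · rintro ((x | x) | ⟨i, p⟩) ((y | y) | ⟨j, q⟩) hxy <;>
      simp only [emb, Sum.elim_inl, Sum.elim_inr, f.einj.eq_iff, inl.injEq, inr.injEq,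
        Prod.mk.injEq, hL.eq_iff, reduceCtorEq] at hxy ⊢ <;>
      first | exact hxy | exact absurd hxy (hv _) | exact absurd hxy.symm (hv _)
  · intro j X hX h1 h0 h2 hclo
    have hvX : v ∉ X := fun h => by
      obtain ⟨p, hp⟩ := hX h
      exact hv _ hp.symm
    have e0 := hclo v (Or.inl ⟨inr (), rfl⟩) hvX _ h0
    have e2 := hclo v (Or.inl ⟨inr (), rfl⟩) hvX _ h2
    simp only [Sum.elim_inl] at e0 e2
    rw [(f.tame_e hg (not_inT_inl (L j) k)).1, mul_zero] at e0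
    exact hw j ⟨(mul_eq_zero.1 e0).resolve_right (f.kb1 hg σ _), e2.symm⟩

lemma pigeon_or' (n1 n2 : ℕ) : ∃ N, ∀ p : Fin (N + 1) → Prop,
    (∃ g : Fin n1 ↪o Fin (N + 1), ∀ i, p (g i)) ∨ ∃ g : Fin n2 ↪o Fin (N + 1), ∀ i, ¬p (g i) := by
  obtain ⟨N, h⟩ := pigeon_or n1 n2
  refine ⟨N, fun p => ?_⟩
  rcases h fun i => p i.castSucc with ⟨g, hg⟩ | ⟨g, hg⟩
  · exact Or.inl ⟨g.trans Fin.castSuccOrderEmb, hg⟩
  · exact Or.inr ⟨g.trans Fin.castSuccOrderEmb, hg⟩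

lemma all_succ {t : ℕ} {p : ℕ → Prop} (h1 : ∀ s < t, p s) (h2 : p t) : ∀ s < t + 1, p s := by
  intro s hs
  rcases Nat.lt_succ_iff_lt_or_eq.1 hs with h | rfl
  · exact h1 s h
  · exact h2

/-- Extend a sequence at position `t`. -/
def ex {β : Type} (g : ℕ → β) (t : ℕ) (x : β) : ℕ → β := fun s => if s = t then x else g s

lemma ex_lt {β : Type} (g : ℕ → β) {t s : ℕ} (x : β) (h : s < t) : ex g t x s = g s := by
  simp [ex, h.ne]

lemma ex_self {β : Type} (g : ℕ → β) (t : ℕ) (x : β) : ex g t x t = x := by simp [ex]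

lemma ex_inj {β : Type} {g : ℕ → β} {t : ℕ} {x : β} (h : ∀ s < t, ∀ s' < t, g s = g s' → s = s')
    (hx : ∀ s < t, g s ≠ x) : ∀ s < t + 1, ∀ s' < t + 1, ex g t x s = ex g t x s' → s = s' := by
  refine all_succ (fun s hs => all_succ (fun s' hs' => ?_) ?_) (all_succ (fun s' hs' => ?_) ?_)
  · rw [ex_lt _ _ hs, ex_lt _ _ hs']; exact h s hs s' hs'
  · rw [ex_lt _ _ hs, ex_self]; exact fun e => absurd e (hx s hs)
  · rw [ex_lt _ _ hs', ex_self]; exact fun e => absurd e.symm (hx s' hs')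
  · exact fun _ => rfl

variable {E ι : Type} [Fintype E] {σ : ι} {N t n : ℕ}

omit [Fintype K] [Fintype P] in
lemma Walked.loc {f f' : Frame d b1 a b2 m E ι σ N} {j : Fin N} {V : Set E} {i1 i2 : ι} {v o : E}
    (h : Walked k f f' j V i1 i2 v o) {u1 u2 : Fin N} (h1 : u1 ≠ j) (h2 : u2 ≠ j) {w o' : E}
    (hw : w ∈ V) (hl : f.Loc u1 u2 w o') :
    f'.Loc u1 u2 w o' ∧ o' ∈ {w | ∃ x, ¬InT b1 a b2 j x ∧ f.e x = w} ∪ V := by
  rcases hl with ⟨k', rfl⟩ | ⟨p, rfl⟩ | ⟨p, rfl⟩ | rfl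
  · exact ⟨Or.inl ⟨k', (h.ek k').symm⟩, Walked.mk_ f j V k'⟩
  · exact ⟨Or.inr (Or.inl ⟨p, (h.ep h1 p).symm⟩), Walked.mp f V h1 p⟩
  · exact ⟨Or.inr (Or.inr (Or.inl ⟨p, (h.ep h2 p).symm⟩)), Walked.mp f V h2 p⟩
  · exact ⟨Or.inr (Or.inr (Or.inr rfl)), Or.inr hw⟩

omit [Fintype K] [Fintype P] in
/-- The companion flower and the piece of the witness. -/
lemma companion {n0 : ℕ} (st : Sta d k b1 a b2 m E ι σ N t (n0 + 2))
    {f' : Frame d b1 a b2 m E ι σ N} {i1 i2 : ι} {v o : E}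
    (h : Walked k st.f f' (st.rem 0) {w | ∃ s < t, st.v s = w} i1 i2 v o) :
    ∃ (cm : Fin N) (φ : ℕ), (∀ s < t, st.own s ≠ cm ∧ st.cmp s ≠ cm) ∧ st.rem 0 ≠ cm ∧ φ ≤ t ∧
      f'.Loc (ex st.own t (st.rem 0) φ) (ex st.cmp t cm φ) (ex st.v t v φ) o := by
  have hd : (∀ s < t, st.own s ≠ st.rem 1 ∧ st.cmp s ≠ st.rem 1) ∧ st.rem 0 ≠ st.rem 1 :=
    ⟨fun s hs => ⟨st.orr s hs 1, st.crr s hs 1⟩, fun e => by simpa using st.rr e⟩
  rcases h.oin with ⟨x, hx, rfl⟩ | ⟨s, hs, rfl⟩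
  · rw [← h.eoff x hx]
    rcases x with k' | ⟨u, p⟩
    · exact ⟨_, t, hd.1, hd.2, le_rfl, Or.inl ⟨k', rfl⟩⟩
    · by_cases h0 : st.rem 0 = u
      · exact ⟨_, t, hd.1, hd.2, le_rfl, Or.inr (Or.inl ⟨p, by rw [ex_self, h0]⟩)⟩
      by_cases h1 : ∃ s < t, st.own s = u
      · obtain ⟨s, hs, rfl⟩ := h1
        exact ⟨_, s, hd.1, hd.2, hs.le, Or.inr (Or.inl ⟨p, by rw [ex_lt _ _ hs]⟩)⟩
      by_cases h2 : ∃ s < t, st.cmp s = u
      · obtain ⟨s, hs, rfl⟩ := h2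
        exact ⟨_, s, hd.1, hd.2, hs.le, Or.inr (Or.inr (Or.inl ⟨p, by rw [ex_lt _ _ hs]⟩))⟩
      exact ⟨u, t, fun s hs => ⟨fun e => h1 ⟨s, hs, e⟩, fun e => h2 ⟨s, hs, e⟩⟩, h0, le_rfl,
        Or.inr (Or.inr (Or.inl ⟨p, by rw [ex_self]⟩))⟩
  · exact ⟨_, s, hd.1, hd.2, hs.le, Or.inr (Or.inr (Or.inr (by rw [ex_lt _ _ hs])))⟩

omit [Fintype K] [Fintype P] in
/-- The new state. -/
lemma next {n0 : ℕ} (st : Sta d k b1 a b2 m E ι σ N t (n0 + 2))
    {f' : Frame d b1 a b2 m E ι σ N} {v o : E}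
    (h : Walked k st.f f' (st.rem 0) {w | ∃ s < t, st.v s = w} (st.cl (Fin.last _)) (st.cl 0) v o)
    (G : Fin (n + 2) ↪o Fin (n0 + 1)) (hG : ∀ j, f'.Tm k (st.rem (G j).succ) v) {γ : F}
    (hγ : ∀ j, f'.crr k (st.cl (G j).succ.castSucc) (st.rem 0) = γ) :
    Nonempty (Sta d k b1 a b2 m E ι σ N (t + 1) n) := by
  obtain ⟨cm, φ, hcm, hcm0, hφ, hloc⟩ := companion st h
  have hLinj : Function.Injective fun j => st.rem (G j).succ := fun i j e =>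
    G.injective (Fin.succ_injective _ (st.rr e))
  obtain ⟨z, hz⟩ : ∃ z : Fin (n + 2), ∀ j, j ≠ z → cm ≠ st.rem (G j).succ := by
    by_cases hc : ∃ z, cm = st.rem (G z).succ
    · obtain ⟨z, rfl⟩ := hc
      exact ⟨z, fun j hj e => hj (hLinj e).symm⟩
    · exact ⟨0, fun j _ e => hc ⟨j, e⟩⟩
  obtain ⟨dv, hdv, hdvγ⟩ : ∃ dv, (∃ i, dv = st.cl i) ∧ γ ≠ f'.crr k dv (st.rem 0) := by
    by_cases hc : γ = f'.crr k (st.cl 0) (st.rem 0)
    · exact ⟨_, ⟨Fin.last _, rfl⟩, hc ▸ h.dev.symm⟩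
    · exact ⟨_, ⟨0, rfl⟩, hc⟩
  obtain ⟨idv, rfl⟩ := hdv
  have r0 : ∀ j : Fin (n0 + 1), st.rem j.succ ≠ st.rem 0 := fun j e =>
    Fin.succ_ne_zero j (st.rr e)
  have vV : ∀ {s}, s < t → st.v s ∈ {w | ∃ s < t, st.v s = w} := fun {s} hs => ⟨s, hs, rfl⟩
  have hl : ∀ s < t, _ := fun s hs =>
    have hs' : st.φ s < t := (st.φle s hs).trans_lt hs
    h.loc (st.orr _ hs' 0) (st.crr _ hs' 0) (vV hs') (st.oloc s hs)
  have oO : o ∈ {w | ∃ x, ¬InT b1 a b2 (st.rem 0) x ∧ f'.e x = w} ∪ {w | ∃ s < t, st.v s = w} := by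
    rcases h.oin with ⟨x, hx, e⟩ | e
    · exact Or.inl ⟨x, hx, (h.eoff x hx).trans e⟩
    · exact Or.inr e
  refine ⟨⟨f', ex st.own t (st.rem 0), ex st.cmp t cm,
    fun j => st.rem (G (z.succAbove j.castSucc)).succ, ex st.v t v, ex st.o t o, ex st.φ t φ,
    ex st.dev t (st.cl idv), fun i => st.cl (G (z.succAbove i)).succ.castSucc,
    ex_inj st.vinj fun s hs e => h.vV (e ▸ vV hs), all_succ (fun s hs => ?_) ?_,
    ex_inj st.oo fun s hs => st.orr s hs 0, ex_inj st.cc fun s hs => (hcm s hs).2,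
    all_succ (fun s hs => all_succ (fun s' hs' => ?_) ?_) (all_succ (fun s' hs' => ?_) ?_),
    fun i j e => Fin.castSucc_injective _ (Fin.succAbove_right_injective (hLinj e)),
    all_succ (fun s hs j => ?_) (fun j => ?_), all_succ (fun s hs j => ?_) (fun j => ?_),
    all_succ (fun s hs j => ?_) (fun j => ?_), all_succ (fun s hs => ?_) ?_,
    all_succ (fun s hs => ?_) ?_, all_succ (fun s hs => ?_) ?_, all_succ (fun s hs => ?_) ?_,
    all_succ (fun s hs x hx => ?_) (fun x hx => ?_), all_succ (fun s hs => ?_) ?_,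
    all_succ (fun s' hs' s hs => ?_) (fun s hs => ?_), all_succ (fun s hs i => ?_) (fun i => ?_),
    fun i j hij => ?_⟩⟩
  · rw [ex_lt _ _ hs]; exact h.vnot _ (vV hs)
  · rw [ex_self]; exact h.ve
  · rw [ex_lt _ _ hs, ex_lt _ _ hs']; exact st.oc s hs s' hs'
  · rw [ex_lt _ _ hs, ex_self]; exact (hcm s hs).1
  · rw [ex_lt _ _ hs', ex_self]; exact (st.crr s' hs' 0).symm
  · rw [ex_self, ex_self]; exact hcm0
  · rw [ex_lt _ _ hs]; exact st.orr s hs _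
  · rw [ex_self]; exact (r0 _).symm
  · rw [ex_lt _ _ hs]; exact st.crr s hs _
  · rw [ex_self]; exact hz _ (Fin.succAbove_ne _ _)
  · rw [ex_lt _ _ hs]; exact (h.tm (r0 _) (vV hs)).2 (st.tame s hs _)
  · rw [ex_self]; exact hG _
  · rw [ex_lt _ _ hs, ex_lt _ _ hs, h.tm (st.orr s hs 0) (vV hs)]; exact st.wild s hs
  · rw [ex_self, ex_self]; exact h.wild
  · rw [ex_lt _ _ hs, ex_lt _ _ hs, ex_lt _ _ hs, h.ed (st.orr s hs 0) (vV hs) (hl s hs).2]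
    exact st.edge s hs
  · rw [ex_self, ex_self, ex_self]; exact h.edge
  · rw [ex_lt _ _ hs]; exact st.φle s hs
  · rw [ex_self]; exact hφ
  · have hs' : st.φ s < t := (st.φle s hs).trans_lt hs
    rw [ex_lt st.φ _ hs, ex_lt _ _ hs', ex_lt _ _ hs', ex_lt _ _ hs', ex_lt _ _ hs]
    exact (hl s hs).1
  · rw [ex_self st.φ, ex_self st.o]; exact hloc
  · rw [ex_lt _ _ hs] at hx ⊢
    rw [h.eoff x fun hx' => st.orr s hs 0 (hx.uniq hx')]
    exact st.onot s hs x hx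
  · rw [ex_self] at hx ⊢
    intro e
    rcases oO with ⟨y, hy, e'⟩ | e'
    · exact hy (f'.einj (e'.trans e) ▸ hx)
    · exact h.vnot _ e' x e
  · rw [ex_lt _ _ hs, ex_lt _ _ hs]; exact st.one s hs
  · rw [ex_self, ex_self]
    rintro rfl
    rcases oO with ⟨y, -, e'⟩ | e'
    · exact h.ve y e'.symm
    · exact h.vV e'
  · have hs2 := hs.trans hs'
    rw [ex_lt _ _ hs', ex_lt _ _ hs2, ex_lt _ _ hs2, h.crr (st.orr s hs2 0), h.crr (st.orr s hs2 0)]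
    exact st.uc1 s' hs' s hs
  · rw [ex_self, ex_lt _ _ hs, ex_lt _ _ hs, h.crr (st.orr s hs 0), h.crr (st.orr s hs 0)]
    exact st.uc2 s hs _
  · rw [ex_lt _ _ hs, ex_lt _ _ hs, h.crr (st.orr s hs 0), h.crr (st.orr s hs 0)]
    exact st.uc2 s hs _
  · rw [ex_self, ex_self, hγ]; exact hdvγ
  · rw [h.crr (r0 _), h.crr (r0 _)]
    refine st.uc3 _ _ ?_
    have : G (z.succAbove j.castSucc) < G (z.succAbove i) :=
      G.strictMono (Fin.strictMono_succAbove z (show j.castSucc < i from hij))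
    simpa using this

lemma step [Fintype F] (hw : WALK F) (hh : HOM F) (hm : 1 ≤ m) (hg : Gd d k b1 a b2) (n n1 : ℕ) :
    ∃ n0, ∀ (E ι : Type) [Fintype E] (σ : ι) (N t : ℕ), Sta d k b1 a b2 m E ι σ N t n0 →
      Out1 F k b1 a b2 m n1 ∨ Nonempty (Sta d k b1 a b2 m E ι σ N (t + 1) n) := by
  obtain ⟨na, ha⟩ := hub hh hg m n1
  obtain ⟨nb, hb⟩ := pigeon (Nat.card F) (n + 2)
  obtain ⟨n0, h0⟩ := pigeon_or' na nb
  refine ⟨n0 + 2, fun E ι _ σ N t st => ?_⟩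
  have r0 : ∀ j : Fin (n0 + 1), st.rem j.succ ≠ st.rem 0 := fun j e =>
    Fin.succ_ne_zero j (st.rr e)
  obtain ⟨f', v, o, h⟩ := walk hw hm hg st.f (r0 0) (V := {w | ∃ s < t, st.v s = w})
    (by rintro _ ⟨s, hs, rfl⟩; exact st.vnot s hs) (by rintro _ ⟨s, hs, rfl⟩; exact st.tame s hs 0)
    (st.uc3 (Fin.last _) 0 (by simp))
  rcases h0 fun j => ¬f'.Tm k (st.rem j.succ) v with ⟨g, hgw⟩ | ⟨g, hgt⟩
  · refine Or.inl (ha E ι σ N f' (fun j => st.rem (g j).succ) (fun j => st.cl (g j).succ.castSucc) v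
      (fun i j e => g.injective (Fin.succ_injective _ (st.rr e))) (fun i j hij => ?_) h.ve hgw)
    rw [h.crr (r0 _), h.crr (r0 _)]
    exact st.uc3 _ _ (by simpa using g.strictMono hij)
  · obtain ⟨g2, hg2⟩ := hb F le_rfl fun j => f'.crr k (st.cl (g j).succ.castSucc) (st.rem 0)
    exact Or.inr (next st h (g2.trans g) (fun j => not_not.1 (hgt (g2 j))) fun j => hg2 j 0)

end Step

end ROUNDC

end Pool.Agent.MP_d99b12_co.H25
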