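import Pool.Agent.MP_d99b12_co.H25.Spec
import Pool.Agent.MP_d99b12_co.H25.ChainB

/-! # Row STAR: many pieces that hang on one vertex -/

namespace Pool.Agent.MP_d99b12_co.H25

open Matrix Sum

variable {F : Type} [Field F]

namespace STAR

variable {K P E : Type} [Fintype K] [Fintype P] [Fintype E] {m p0 κ T : ℕ} {P0 : Set P}
  {col : E → Bool} {S : Fin T → Matrix E E F} {kk : K → E} {X : Fin T → E → K → F} {Q0 : Set E}
  {e : Fin T → P ⊕ ℕ → E} {len : Fin T → ℕ} {pf : P → E}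

/-- The labels of a piece of length `p`. -/
def lab (P : Type) (p : ℕ) : P ⊕ Fin p → P ⊕ ℕ := Sum.map id Fin.val

omit [Fintype P] in
lemma lab_inj (p : ℕ) : Function.Injective (lab P p) :=
  Function.injective_id.sumMap Fin.val_injective

omit [Fintype P] in
lemma mem_vl {p : ℕ} {x : P ⊕ ℕ} : x ∈ vl P p ↔ ∃ a, lab P p a = x := by
  constructor
  · rcases x with x | x
    exacts [fun _ => ⟨inl x, rfl⟩, fun h => ⟨inr ⟨x, h x rfl⟩, rfl⟩]
  · rintro ⟨a | a, rfl⟩ i h
    · cases h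
    · cases h; exact a.2

omit [Fintype P] [Fintype E] in
lemma QS_mono {s s' : ℕ} (h : s ≤ s') : QS Q0 e len s ⊆ QS Q0 e len s' :=
  Set.union_subset_union_right _ fun _ ⟨t, ht, hx⟩ => ⟨t, ht.trans_le h, hx⟩

omit [Fintype P] [Fintype E] in
lemma mem_QS {t : Fin T} {s : ℕ} (h : t.val < s) {x} (hx : x ∈ vl P (len t)) :
    e t x ∈ QS Q0 e len s := .inr ⟨t, h, x, hx, rfl⟩

variable (G : Grown m p0 κ P0 col S kk X Q0 e len pf) {u : E}
include G

omit [Fintype P] in
lemma inj {N p : ℕ} (h : Fin (N + 1) ↪o Fin T) (hl : ∀ j, len (h j) = p)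
    (hu : ∀ j, u ∈ QS Q0 e len (h j).val ∧ ∀ i, nat (S i) kk (X i) u (e (h j) (inr 0)) ≠ 0) :
    Function.Injective (emb (Sum.elim kk (Sum.elim (fun _ : Unit => u) pf))
      fun j x => e (h j) (lab P p x)) := by
  have hv (j x) : lab P p x ∈ vl P (len (h j)) := by rw [hl]; exact mem_vl.2 ⟨x, rfl⟩
  have k1 (k s) : kk k ∈ QS Q0 e len s := .inl (G.kQ k)
  have u1 : u ∈ QS Q0 e len T := QS_mono (h 0).2.le (hu 0).1
  have ku (k) : kk k ≠ u := fun e' => (hu 0).2 (h 0)
    (e' ▸ nat_core (G.full _) (G.al _ _ (k1 k T)) _)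
  have d (j x) := (G.piece (h j)).disj _ (hv j x)
  have e1 (j x) : e (h j) (lab P p x) ∈ QS Q0 e len T := mem_QS (h j).2 (hv j x)
  have e2 (j j' x x') (hj : j < j') : e (h j) (lab P p x) ≠ e (h j') (lab P p x') := fun e' =>
    d j' x' (e' ▸ mem_QS (h.strictMono hj) (hv j x))
  rintro ((a | a | a) | ⟨j, a⟩) ((b | b | b) | ⟨j', b⟩) hab <;> simp only [emb, elim_inl, elim_inr] at hab
  · rw [G.kinj hab]
  · exact absurd hab (ku _)
  · exact absurd (hab ▸ k1 a T) (G.pfQ b)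
  · exact absurd (hab ▸ k1 a _) (d j' b)
  · exact absurd hab.symm (ku _)
  · rfl
  · exact absurd (hab ▸ u1) (G.pfQ b)
  · exact absurd (hab ▸ (hu j').1) (d j' b)
  · exact absurd (hab ▸ k1 b T) (G.pfQ a)
  · exact absurd (hab ▸ u1) (G.pfQ a)
  · rw [G.pfinj hab]
  · exact absurd (hab ▸ e1 j' b) (G.pfQ a)
  · exact absurd (hab ▸ k1 b _) (d j a)
  · exact absurd (hab ▸ (hu j).1) (d j a)
  · exact absurd (hab ▸ e1 j a) (G.pfQ b)
  · rcases lt_trichotomy j j' with hj | rfl | hj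
    · exact absurd hab (e2 _ _ _ _ hj)
    · rw [lab_inj p ((G.piece (h j)).inj (hv j a) (hv j b) hab)]
    · exact absurd hab.symm (e2 _ _ _ _ hj)

omit [Fintype P] in
lemma level (i s : Fin T) {A B : Set E} (hk : ∀ k, kk k ∈ A) (hp : ∀ p, pf p ∈ A) (huA : u ∈ A)
    (hB : ∀ x ∈ vl P (len s), e s x ∈ B) (hu : u ∈ QS Q0 e len s.val)
    (h0 : nat (S i) kk (X i) u (e s (inr 0)) ≠ 0) : ¬RkLE (S i) A B (Fintype.card K) := by
  obtain ⟨C, hC⟩ := (G.piece s).rk
  have sk := G.fam.skew i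
  have hv (q : P) : inl q ∈ vl P (len s) := fun _ h => by cases h
  have hv0 : inr 0 ∈ vl P (len s) := fun _ h => by cases h; exact (G.piece s).pos
  rintro ⟨x, y, h⟩
  refine not_rkLE_of_full (S := S i) (kk := fun k => e s (inl (C k))) (X := B) (Y := A)
    (u := e s (inr 0)) (fun z hz => ?_) (fun ⟨z, hz⟩ => h0 ?_) (fun k => hB _ (hv _)) (hB _ hv0)
    ⟨-y, x, fun w hw a ha => by rw [sk, h a ha w hw, Pi.neg_apply, neg_dotProduct, dotProduct_comm]⟩
  · have h1 : ∑ k, z k • X i (e s (inl (C k))) = 0 := G.full i _ fun b hb => by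
      obtain ⟨q, rfl⟩ := hb
      rw [← hz _ (hp q), sum_dotProduct, dotProduct]
      exact Finset.sum_congr rfl fun k _ => by
        rw [smul_dotProduct, ← G.al i _ (mem_QS s.2 (hv _)) _ ⟨q, rfl⟩]; rfl
    refine hC i z h1 fun r => ?_
    have h2 := congrArg (· ⬝ᵥ yv (S i) kk (kk r)) h1
    simp only [sum_dotProduct, smul_dotProduct, smul_eq_mul, zero_dotProduct] at h2
    simp only [nat, mul_sub, Finset.sum_sub_distrib, h2, sub_zero]
    exact hz _ (hk r)
  · have h1 (a) (ha : a ∈ A) : S i a (e s (inr 0)) = ∑ k, z k * S i a (e s (inl (C k))) := by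
      rw [sk, hz a ha, dotProduct, ← Finset.sum_neg_distrib]
      exact Finset.sum_congr rfl fun k _ => by rw [sk a, yv, mul_neg]
    have h2 (k) := (G.piece s).zero i u hu _ (hv (C k)) (by simp)
    simp only [nat, sub_eq_zero] at h2 ⊢
    simp only [h1 u huA, h2, dotProduct, yv, h1 _ (hk _), Finset.mul_sum]
    rw [Finset.sum_comm]
    exact Finset.sum_congr rfl fun _ _ => Finset.sum_congr rfl fun _ _ => by ring

omit [Fintype P] in
lemma nconn (i s s' : Fin T) (hs : s < s') {p : ℕ} (hl : len s = p) (hl' : len s' = p)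
    {B : Matrix (P ⊕ Fin p) (P ⊕ Fin p) F}
    (hy : ∀ x, yv (S i) kk (e s' (lab P p x)) = yv (S i) kk (e s (lab P p x)))
    (hB : ∀ x y, B x y = S i (e s (lab P p x)) (e s (lab P p y)) +
      S i (e s (lab P p y)) (e s' (lab P p x))) : NConn B := by
  intro Y hY
  have hp : 0 < p := hl ▸ (G.piece s).pos
  have key : ∀ x, Relation.ReflTransGen (fun a b => a ∈ vl P (len s) ∧ b ∈ vl P (len s) ∧
      ∀ i, nat (S i) kk (X i) (e s a) (e s b) ≠ 0) (inr 0) x → ∀ a, lab P p a = x →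
      (a ∈ Y ↔ inr ⟨0, hp⟩ ∈ Y) := by
    intro x hx
    induction hx with
    | refl => exact fun a ha => by rw [lab_inj p (ha.trans (rfl : _ = lab P p (inr ⟨0, hp⟩)))]
    | tail _ h ih =>
      rintro b rfl
      obtain ⟨h1, h2, h3⟩ := h
      obtain ⟨a, rfl⟩ := mem_vl.1 (hl ▸ h1)
      by_cases h0 : lab P p b = inr 0
      · rw [lab_inj p (h0.trans (rfl : _ = lab P p (inr ⟨0, hp⟩)))]
      have hz := (G.piece s').zero i _ (mem_QS hs h1) (lab P p b)
        (by rw [hl']; exact mem_vl.2 ⟨b, rfl⟩) h0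
      have hn : B b a ≠ 0 := fun h4 => h3 i (by
        rw [hB, G.fam.skew i] at h4
        rw [nat, hy] at hz
        rw [nat]
        linear_combination hz - h4)
      rw [← ih a rfl]
      exact ⟨fun hb => by_contra fun ha => hn (hY b hb a ha).1,
        fun ha => by_contra fun hb => hn (hY a ha b hb).2⟩
  have all (a) := key _ ((G.piece s).reach _ (by rw [hl]; exact mem_vl.2 ⟨a, rfl⟩)) a rfl
  by_cases h : inr ⟨0, hp⟩ ∈ Y
  · exact .inr (Set.eq_univ_of_forall fun a => (all a).2 h)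
  · exact .inl (Set.eq_empty_of_forall_notMem fun a ha => h ((all a).1 ha))

end STAR

open STAR in
theorem star [Fintype F] (hh : HOM F) (m : ℕ) : STAR F m := by
  intro K P _ _ p0 n
  choose N hN using fun p : ℕ => hh (K ⊕ Unit ⊕ P) (P ⊕ Fin p) (n + 2)
  obtain ⟨n1, hn1⟩ := pigeon (p0 + 1) (∑ p ∈ Finset.range (p0 + 1), N p + 1)
  refine ⟨n1, fun κ T P0 E _ col S kk X Q0 e len pf G u g hu => ?_⟩
  obtain ⟨g1, hg1⟩ := hn1 (Fin (p0 + 1)) (by simp) fun j => ⟨len (g j), Nat.lt_succ_of_le (G.len_le _)⟩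
  let h' := g1.trans g
  obtain ⟨p, hp⟩ : ∃ p, ∀ j, len (h' j) = p := ⟨_, fun j => congrArg Fin.val (hg1 j 0)⟩
  have hp0 : p ≤ p0 := hp 0 ▸ G.len_le _
  have hle : N p ≤ ∑ p ∈ Finset.range (p0 + 1), N p + 1 := Nat.le_succ_of_le
    (Finset.single_le_sum (fun _ _ => Nat.zero_le _) (Finset.mem_range.2 (Nat.lt_succ_of_le hp0)))
  let h : Fin (N p) ↪o Fin T := (Fin.castLEOrderEmb hle).trans h'
  have hl (j) : len (h j) = p := hp _
  have hu' (j) := hu (g1 (Fin.castLE hle j))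
  obtain ⟨d, g2, i0, iR, c, -, -, hc, hcl, hr, C⟩ := hN p E col (fun j => S (h j))
    (Sum.elim kk (Sum.elim (fun _ : Unit => u) pf)) (fun j x => e (h j) (lab P p x))
    (G.fam.reindex h) fun a b hab => by
      have := inj G h' hp (fun j => hu (g1 j))
        (a₁ := Sum.map id (Prod.map (Fin.castLE hle) id) a)
        (a₂ := Sum.map id (Prod.map (Fin.castLE hle) id) b)
        (by rcases a with a | a <;> rcases b with b | b <;> exact hab)
      exact (Function.injective_id.sumMap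
        ((Fin.castLE_injective hle).prodMap Function.injective_id)) this
  set kk' := Sum.elim (Sum.elim kk (Sum.elim (fun _ : Unit => u) pf))
    (Sum.elim (fun x => e (h i0) (lab P p x)) fun x => e (h iR) (lab P p x)) with hkk
  have hσ : scale (c (Fin.last _)) (S (h (g2 (Fin.last _)))) = S (h (g2 (Fin.last _))) := by
    rw [hcl, scale_one]
  have h0 : ((0 : Fin (n + 2)) : ℕ) < (Fin.last (n + 2) : ℕ) := by simp
  have hv (j x) : lab P p x ∈ vl P (len (h j)) := by rw [hl]; exact mem_vl.2 ⟨x, rfl⟩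
  refine ⟨p, hp0, d, RealN.mono ⟨E, _, col, _, _, _, ((G.fam.reindex h).reindex g2).scale c,
    fun i => (G.conn _).scale _, C⟩ (Nat.le_add_right n 2), hr, ?_, ?_, Datum.DevD.mid ?_⟩
  · refine nconn G (h (g2 (Fin.last _))) (h (g2 (0 : Fin (n + 2)).castSucc))
      (h (g2 (1 : Fin (n + 2)).castSucc)) (h.strictMono (g2.strictMono (by simp)))
      (hl _) (hl _) (fun x => funext fun k => ?_) fun x y => ?_
    · rw [← hσ]
      exact (C.kk_pp _ (inl (inl k)) 1 x).trans (C.kk_pp _ (inl (inl k)) 0 x).symm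
    · rw [← hσ]
      exact congrArg₂ (· + ·) (C.pp_left h0 x y).symm (C.pp_lt _ (by simp) y x).symm
  · by_contra hle
    have e1 : d.V = (S (h (g2 (Fin.last _)))).submatrix kk'
        fun x => e (h (g2 (0 : Fin (n + 2)).castSucc)) (lab P p x) := by
      ext k x
      rw [← hσ]
      exact (C.kk_pp _ k 0 x).symm
    rw [not_lt, e1, rank_le_iff_rkLE] at hle
    refine level G _ (h (g2 (0 : Fin (n + 2)).castSucc)) (fun k => ?_) (fun q => ?_) ?_
      (fun x hx => ?_) (hu' _).1 ((hu' _).2 _) hle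
    exacts [⟨inl (inl k), rfl⟩, ⟨inl (inr (inr q)), rfl⟩, ⟨inl (inr (inl ())), rfl⟩,
      mem_vl.1 (by rwa [hl] at hx) |>.imp fun a ha => congrArg _ ha]
  · have hc' : ∀ o ∈ Set.range kk', c (0 : Fin (n + 2)).castSucc o = 1 := by
      rintro _ ⟨k, rfl⟩; exact hc _ k
    have sub : Set.range kk ∪ Set.range pf ⊆ Set.range kk' := by
      rintro _ (⟨k, rfl⟩ | ⟨q, rfl⟩)
      exacts [⟨inl (inl k), rfl⟩, ⟨inl (inr (inr q)), rfl⟩]
    have al (i) : ∀ w ∈ (fun q => e (h (g2 (0 : Fin (n + 2)).castSucc)) (inl q)) '' P0,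
        Al (S i) kk (Set.range pf) w (X i w) := by
      rintro _ ⟨q, -, rfl⟩
      exact G.al i _ (mem_QS (Fin.is_lt _) (hv _ (inl q)))
    have key := devP_of_not_dEq (S := S (h (g2 (Fin.last _)))) (fun a ha b hb => by
        obtain ⟨k, rfl⟩ := sub ha
        obtain ⟨k', rfl⟩ := sub hb
        have e1 := C.kk_kk (0 : Fin (n + 2)).castSucc k k'
        rw [scale_apply, hc, hc, Units.val_one, one_mul, one_mul] at e1
        rw [e1, ← hσ, C.kk_kk]) (G.fam.skew _) (G.fam.skew _) (G.full _) (al _) (al _)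
      fun h' => G.dev _ _ (h.strictMono (g2.strictMono (Fin.castSucc_lt_last 0))) h'.symm
    rw [Datum.devD_iff, C.pair_false h0, C.pair_true 0, devP_submatrix_iff (C.elim_inj 0),
      ← Set.range_comp, Sum.elim_comp_inl, hσ, devP_scale_iff hc']
    refine key.mono sub ?_
    rintro _ ⟨q, hq, rfl⟩
    exact ⟨_, ⟨_, ⟨q, hq, rfl⟩, rfl⟩, rfl⟩

end Pool.Agent.MP_d99b12_co.H25
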