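import Pool.Agent.MP_d99b12_co.H25.Spec
import Pool.Agent.MP_d99b12_co.H25.ChainB

/-! # One growth step, part 1: the blocking path -/

namespace Pool.Agent.MP_d99b12_co.H25

open Matrix Sum

namespace STEP

variable {F : Type} [Field F] {E K P ι : Type} [Fintype K]

/-- Independent vectors indexed by `K`: every list of values is attained. -/
lemma solve (y : K → K → F) (h : ∀ u : K → F, ∑ k, u k • y k = 0 → u = 0) (b : K → F) :
    ∃ x : K → F, ∀ k, b k = x ⬝ᵥ y k := by
  classical
  have hi : Function.Injective (fun u : K → F => u ᵥ* (Matrix.of y)) := by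
    intro u u' e
    have : u - u' = 0 := by
      apply h
      have e' : (u - u') ᵥ* (Matrix.of y) = 0 := by
        rw [Matrix.sub_vecMul]; exact sub_eq_zero.2 e
      rw [← e']
      funext r
      simp [Matrix.vecMul, dotProduct, Finset.sum_apply]
    exact sub_eq_zero.1 this
  have hu : IsUnit (Matrix.of y) := Matrix.vecMul_injective_iff_isUnit.1 hi
  obtain ⟨x, hx⟩ := Matrix.mulVec_surjective_iff_isUnit.2 hu b
  refine ⟨x, fun k => ?_⟩
  rw [← hx, dotProduct_comm]
  simp [Matrix.mulVec, dotProduct]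

lemma perp (y : K → K → F) (h : ∀ u : K → F, ∑ k, u k • y k = 0 → u = 0) (x : K → F)
    (hx : ∀ k, x ⬝ᵥ y k = 0) : x = 0 := by
  classical
  funext r
  have key : ∀ b : K → F, ∃ u : K → F, ∑ k, u k • y k = b := by
    intro b
    have hi : Function.Injective (fun u : K → F => u ᵥ* (Matrix.of y)) := by
      intro u u' e
      have : u - u' = 0 := by
        apply h
        have e' : (u - u') ᵥ* (Matrix.of y) = 0 := by
          rw [Matrix.sub_vecMul]; exact sub_eq_zero.2 e
        rw [← e']
        funext r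
        simp [Matrix.vecMul, dotProduct, Finset.sum_apply]
      exact sub_eq_zero.1 this
    have hu : IsUnit (Matrix.of y) := Matrix.vecMul_injective_iff_isUnit.1 hi
    obtain ⟨u, hu'⟩ := Matrix.vecMul_surjective_iff_isUnit.2 hu b
    refine ⟨u, ?_⟩
    rw [← hu']
    funext r
    simp [Matrix.vecMul, dotProduct, Finset.sum_apply]
  obtain ⟨u, hu⟩ := key (Pi.single r 1)
  have : x ⬝ᵥ (∑ k, u k • y k) = 0 := by
    rw [dotProduct_sum]
    exact Finset.sum_eq_zero fun k _ => by rw [dotProduct_smul, hx k, smul_zero]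
  rw [hu] at this
  simpa using this

lemma indep (y : K → K → F) (h : ∀ x : K → F, (∀ k, x ⬝ᵥ y k = 0) → x = 0) (u : K → F)
    (hu : ∑ k, u k • y k = 0) : u = 0 := by
  refine perp (fun r k => y k r) (fun x hx => h x fun k => ?_) u fun r => ?_
  · have := congrFun hx k
    simpa [dotProduct, Finset.sum_apply] using this
  · have := congrFun hu r
    simpa [dotProduct, Finset.sum_apply] using this

lemma al_iff {S : Matrix E E F} {kk : K → E} {X : E → K → F} {Y : Set E} {u : E} :
    Al S kk Y u (X u) ↔ ∀ w ∈ Y, nat S kk X u w = 0 := by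
  simp only [Al, nat, sub_eq_zero]

lemma nat_congr {S : Matrix E E F} {kk : K → E} {X X' : E → K → F} {u : E} (h : X' u = X u)
    (w : E) : nat S kk X' u w = nat S kk X u w := by
  simp only [nat, h]

lemma nat_congr' {S S' : Matrix E E F} {kk : K → E} {X X' : E → K → F} {u w : E}
    (h : X' u = X u) (h1 : S' u w = S u w) (h2 : ∀ r, S' (kk r) w = S (kk r) w) :
    nat S' kk X' u w = nat S kk X u w := by
  have : yv S' kk w = yv S kk w := funext h2
  simp only [nat, h, h1, this]

lemma range_sub {N : ℕ} (pp : Fin N → P → E) (j : Fin N) : Set.range (pp j) ⊆ petals pp := by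
  rintro _ ⟨p, rfl⟩; exact ⟨j, p, rfl⟩

lemma petals_sub {N n : ℕ} (pp : Fin N → P → E) (g : Fin n → Fin N) :
    petals (fun t => pp (g t)) ⊆ petals pp := by
  rintro _ ⟨t, p, rfl⟩; exact ⟨g t, p, rfl⟩

variable [Fintype E] {m N : ℕ} {d : Datum F K P} {col : E → Bool} {S : ι → Matrix E E F}
  {kk : K → E} {pp : Fin N → P → E} {cl : Fin (N + 1) → ι} {Q : Set E} {X : ι → E → K → F}

lemma disjQ (hs : Stage m d col S kk pp cl Q X) : Disjoint Q (petals pp) := by
  rw [Set.disjoint_right]
  rintro _ ⟨j, p, rfl⟩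
  exact hs.disj j p

lemma full (hs : Stage m d col S kk pp cl Q X) (hr : d.Red) (i : ι) (j : Fin N) :
    Full (S i) kk (Set.range (pp j)) :=
  (hs.fam.same (cl (Fin.last N)) i).full (hs.chain.full hr (Fin.last N) j)

/-- A shortest path of the background-free matrix from `Q` to the petals. -/
lemma exists_path (hs : Stage m d col S kk pp cl Q X) (hr : d.Red) (hK : Fintype.card K ≤ m)
    (hQ : Fintype.card K < Q.ncard) (hN : Fintype.card K < N) (p0 : P) :
    ∃ (X0 : E → K → F) (v : ℕ → E) (p : ℕ) (u0 : E), 1 ≤ p ∧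
      (∀ u ∈ Q, X0 u = X (cl (Fin.last N)) u) ∧
      PS (S (cl (Fin.last N))) kk X0 Q (petals pp) v p ∧ u0 ∈ Q ∧
      nat (S (cl (Fin.last N))) kk X0 u0 (v 0) ≠ 0 ∧
      ¬InSpan (S (cl (Fin.last N))) kk (petals pp) (v (p - 1)) := by
  classical
  set σ := S (cl (Fin.last N)) with hσ
  obtain ⟨C, hC⟩ := exists_cols d.y hr
  let j0 : Fin N := ⟨0, by omega⟩
  have hyv : ∀ j q, yv σ kk (pp j q) = d.y q := fun j q => hs.chain.yv_pp (Fin.last N) j q
  have hsol : ∀ u, ∃ x : K → F, ∀ k, σ u (pp j0 (C k)) = x ⬝ᵥ d.y (C k) :=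
    fun u => solve (fun k => d.y (C k)) hC _
  choose x hx using hsol
  have huniq : ∀ u x', Al σ kk (petals pp) u x' → x' = x u := by
    intro u x' h
    rw [← sub_eq_zero]
    apply perp (fun k => d.y (C k)) hC
    intro k
    have e1 := h _ ⟨j0, C k, rfl⟩
    rw [hyv, hx] at e1
    rw [sub_dotProduct, e1, sub_self]
  have hxQ : ∀ u ∈ Q, x u = X (cl (Fin.last N)) u := fun u hu => (huniq u _ (hs.al _ u hu)).symm
  have hQY : ∀ u ∈ Q, ∀ w ∈ petals pp, nat σ kk x u w = 0 := by
    intro u hu
    rw [← al_iff, hxQ u hu]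
    exact hs.al _ u hu
  rcases exists_sWalk_or_closed (fun u w => nat σ kk x u w ≠ 0) Q (petals pp) with
    ⟨ℓ, z, hz⟩ | ⟨W, h1, h2, h3⟩
  · have hd := disjQ hs
    have h0 : ℓ ≠ 0 := by
      rintro rfl
      exact Set.disjoint_left.1 hd hz.start hz.stop
    have h1 : ℓ ≠ 1 := by
      rintro rfl
      exact hz.step 0 (by omega) (hQY _ hz.start _ hz.stop)
    refine ⟨x, fun i => z (i + 1), ℓ - 1, z 0, by omega, hxQ, ⟨?_, ?_, ?_, ?_, ?_, ?_, ?_⟩,
      hz.start, hz.step 0 (by omega), ?_⟩
    · intro i hi j hj e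
      have := hz.inj (by omega) (by omega) e
      omega
    · intro j hj
      exact hz.notMem_start (by omega) (by omega)
    · intro j hj
      exact hz.notMem_stop (by omega)
    · intro u hu j h1 h2
      exact not_not.1 (hz.chord_start hu (by omega) (by omega))
    · intro j hj w hw
      exact not_not.1 (hz.chord_stop hw (by omega))
    · intro i j h1 h2
      exact not_not.1 (hz.chord (by omega) (by omega))
    · intro j hj
      exact hz.step (j + 1) (by omega)
    · rintro ⟨x', hx'⟩
      have e : ℓ - 1 - 1 + 1 = ℓ - 1 := by omega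
      simp only [e] at hx'
      have := hz.step (ℓ - 1) (by omega)
      rw [show ℓ - 1 + 1 = ℓ by omega] at this
      apply this
      rw [huniq _ _ hx'] at hx'
      exact al_iff.1 hx' _ hz.stop
  · exfalso
    have hrk : RkLE σ W Wᶜ (Fintype.card K) :=
      rkLE_of_fac x (yv σ kk) le_rfl fun u hu w hw => sub_eq_zero.1 (not_not.1 (h3 u hu w hw))
    rcases hs.conn _ W _ hK hrk with h | h
    · have := Set.ncard_le_ncard h1 (Set.toFinite W)
      omega
    · have hsub : Set.range (fun j => pp j p0) ⊆ Wᶜ := by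
        rintro _ ⟨j, rfl⟩ hw
        exact Set.disjoint_left.1 h2 hw ⟨j, p0, rfl⟩
      have hinj : Function.Injective (fun j => pp j p0) := fun j j' e => (hs.chain.pp_inj e).1
      have := Set.ncard_le_ncard hsub (Set.toFinite _)
      rw [Set.ncard_range_of_injective hinj] at this
      simp at this
      omega

/-- The hub case. -/
lemma hub (hs : Stage m d col S kk pp cl Q X) {P0 : Set P} (hA : d.AugIn P0) {n0 : ℕ}
    (g : Fin n0 ↪o Fin N) {v : E} (h1 : v ∉ Q) (h2 : v ∉ petals pp)
    (h3 : ∀ t, ¬InSpan (S (cl (Fin.last N))) kk (Set.range (pp (g t))) v) :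
    HubOut F K m n0 P0 := by
  let g' : Fin (n0 + 1) → Fin (N + 1) := Fin.lastCases (Fin.last N) fun t => (g t).castSucc
  have hl : g' (Fin.last n0) = Fin.last N := by simp [g']
  refine ⟨d, E, inferInstance, col, fun i => S (cl (g' i)), kk, fun t => pp (g t), v, hA,
    hs.fam.reindex _, fun i => hs.conn _, ?_, ?_, ?_⟩
  · exact hs.chain.sub' g.strictMono (fun j => by simp [g']) fun j => by rw [hl]; simp
  · rintro ⟨x | ⟨t, q⟩, rfl⟩
    · exact h1 (hs.kQ x)
    · exact h2 ⟨g t, q, rfl⟩
  · intro t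
    simp only [hl]
    exact h3 t

end STEP

end Pool.Agent.MP_d99b12_co.H25
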