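import Pool.Agent.MP_d99b12_co.H25.STEP1

/-! # One growth step, part 2: the new piece -/

namespace Pool.Agent.MP_d99b12_co.H25

open Matrix Sum

namespace STEP

variable {F : Type} [Field F] {E K P ι : Type} [Fintype K]

open Classical in
/-- The coefficients of the row `u` with respect to the rows `kk` on the columns `Y`. -/
noncomputable def co (S : Matrix E E F) (kk : K → E) (Y : Set E) (u : E) : K → F :=
  if h : InSpan S kk Y u then h.choose else 0

lemma co_al {S : Matrix E E F} {kk : K → E} {Y : Set E} {u : E} (h : InSpan S kk Y u) :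
    Al S kk Y u (co S kk Y u) := by
  simp only [co, dif_pos h]
  exact h.choose_spec

lemma co_eq {S : Matrix E E F} {kk : K → E} {Y : Set E} {u : E} {x : K → F} (hf : Full S kk Y)
    (h : Al S kk Y u x) : co S kk Y u = x := Al.unique hf (co_al ⟨x, h⟩) h

lemma ps_congr {S : Matrix E E F} {kk : K → E} {X X' : E → K → F} {Q Ω Ω' : Set E} {v : ℕ → E}
    {len : ℕ} (h : PS S kk X Q Ω v len) (hΩ : Ω' ⊆ Ω) (h1 : ∀ u ∈ Q, X' u = X u)
    (h2 : ∀ t, t + 1 < len → X' (v t) = X (v t)) : PS S kk X' Q Ω' v len where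
  inj := h.inj
  notQ := h.notQ
  notO := fun j hj hm => h.notO j hj (hΩ hm)
  left := fun u hu j a b => by rw [nat_congr (h1 u hu)]; exact h.left u hu j a b
  right := fun j hj w hw => by rw [nat_congr (h2 j hj)]; exact h.right j hj w (hΩ hw)
  chord := fun i j a b => by rw [nat_congr (h2 i (by omega))]; exact h.chord i j a b
  link := fun j hj => by rw [nat_congr (h2 j hj)]; exact h.link j hj

variable [Fintype E]

lemma nat_co {T T' : Matrix E E F} (h : Same T T') {kk : K → E} {Y : Set E} {u : E}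
    (hf : Full T kk Y) (hu : InSpan T kk Y u) (w : E) :
    nat T kk (co T kk Y) u w = 0 ↔ nat T' kk (co T' kk Y) u w = 0 :=
  h.nat_zero hf (co_al hu) (co_al (h.inSpan hu)) w

lemma ps_same {T T' : Matrix E E F} (h : Same T T') {kk : K → E} {Y Q Ω : Set E} {v : ℕ → E}
    {len : ℕ} (hf : Full T kk Y) (hp : PS T kk (co T kk Y) Q Ω v len)
    (h1 : ∀ u ∈ Q, InSpan T kk Y u) (h2 : ∀ t, t + 1 < len → InSpan T kk Y (v t)) :
    PS T' kk (co T' kk Y) Q Ω v len where
  inj := hp.inj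
  notQ := hp.notQ
  notO := hp.notO
  left := fun u hu j a b => (nat_co h hf (h1 u hu) _).1 (hp.left u hu j a b)
  right := fun j hj w hw => (nat_co h hf (h2 j hj) _).1 (hp.right j hj w hw)
  chord := fun i j a b => (nat_co h hf (h2 i (by omega)) _).1 (hp.chord i j a b)
  link := fun j hj e => hp.link j hj ((nat_co h hf (h2 j hj) _).2 e)

variable {m N : ℕ} {d : Datum F K P} {col : E → Bool} {S : ι → Matrix E E F}
  {kk : K → E} {pp : Fin N → P → E} {cl : Fin (N + 1) → ι} {Q : Set E} {X : ι → E → K → F}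

/-- The rows of the petal `j` on the petals that lie on one side of it. -/
lemma petal_al (hs : Stage m d col S kk pp cl Q X) (hr : d.Ref) {n : ℕ} {j : Fin N}
    {g : Fin n → Fin N} (side : (∀ t, j < g t) ∨ ∀ t, g t < j) :
    ∃ ξ : P → K → F, (∀ i q, Al (S (cl i)) kk (petals fun t => pp (g t)) (pp j q) (ξ q)) ∧
      ((∀ q q', d.A q q' - ξ q ⬝ᵥ d.y q' = -d.B q' q) ∨
        ∀ q q', d.A q q' - ξ q ⬝ᵥ d.y q' = d.B q q') := by
  have hA : ∀ q q', d.A q q' = -d.A q' q := by
    intro q q'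
    have hj : j.val < (Fin.last N).val := by simp
    rw [← hs.chain.pp_left hj, ← hs.chain.pp_left hj]
    exact hs.fam.skew _ _ _
  rcases side with h | h
  · choose ξ hξ using hr.1
    refine ⟨ξ, ?_, Or.inl fun q q' => ?_⟩
    · rintro i q _ ⟨t, q', rfl⟩
      have e1 := hs.chain.pp_lt i (h t) q q'
      have e2 := hs.chain.yv_pp i (g t) q'
      simp only at e1 e2 ⊢
      rw [e1, e2, hξ]
    · rw [← hξ, hA q q']
      simp only [Datum.B, Matrix.add_apply, Matrix.transpose_apply]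
      ring
  · choose ξ hξ using hr.2
    refine ⟨fun q => -ξ q, ?_, Or.inr fun q q' => ?_⟩
    · rintro i q _ ⟨t, q', rfl⟩
      have e1 := hs.chain.pp_gt i (h t) q q'
      have e2 := hs.chain.yv_pp i (g t) q'
      simp only at e1 e2 ⊢
      rw [e1, e2, hξ, neg_dotProduct]
    · rw [neg_dotProduct, ← hξ]
      simp only [Datum.B, Matrix.add_apply, Matrix.transpose_apply]
      ring

omit [Fintype K] [Fintype E] in
/-- Strong connectivity: everything is reached from one vertex, in both directions. -/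
lemma sc_reach {B M : Matrix P P F} (h : SC B)
    (hM : (∀ q q', M q q' = -B q' q) ∨ ∀ q q', M q q' = B q q') (q0 q : P) :
    Relation.ReflTransGen (fun a b => M a b ≠ 0) q0 q := by
  set R := {q | Relation.ReflTransGen (fun a b => M a b ≠ 0) q0 q} with hR
  have h0 : q0 ∈ R := Relation.ReflTransGen.refl
  have hcl : ∀ a ∈ R, ∀ b, b ∉ R → M a b = 0 := fun a ha b hb =>
    not_not.1 fun e => hb (Relation.ReflTransGen.tail ha e)
  suffices hu : R = Set.univ by
    have : q ∈ R := hu ▸ Set.mem_univ q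
    exact this
  rcases hM with hM | hM
  · rcases h Rᶜ (fun a ha b hb => by
      have := hcl b (not_not.1 hb) a ha
      rwa [hM, neg_eq_zero] at this) with e | e
    · exact Set.compl_empty_iff.1 e
    · exact absurd h0 (by rw [← Set.mem_compl_iff, e]; trivial)
  · rcases h R (fun a ha b hb => by rw [← hM]; exact hcl a ha b hb) with e | e
    · rw [e] at h0; exact h0.elim
    · exact e

/-- The data of the petal `j` differ in the reference and in its own representation. -/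
lemma not_dEq (hs : Stage m d col S kk pp cl Q X) {P0 : Set P} (hd : d.DevD P0) {j : Fin N}
    {T1 T2 : Matrix E E F} {X1 X2 : E → K → F} {ξ : P → K → F} {W : Set E}
    (hk : ∀ r, kk r ∈ W) (hp : ∀ q, pp j q ∈ W)
    (h1 : AgreeOn W (S (cl j.castSucc)) T1) (h2 : AgreeOn W (S (cl (Fin.last N))) T2)
    (e1 : ∀ q, X1 (pp j q) = ξ q) (e2 : ∀ q, X2 (pp j q) = ξ q) :
    ¬DEq T2 T1 kk X2 X1 ((fun q => pp j q) '' P0) := by
  rintro ⟨c, hc⟩
  have hj : j.val < (Fin.last N).val := by simp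
  have y1 : ∀ r, yv T1 kk (kk r) = fun k => d.D k r := fun r => funext fun k =>
    (h1 _ (hk k) _ (hk r)).trans (hs.chain.kk_kk _ k r)
  have y2 : ∀ r, yv T2 kk (kk r) = fun k => d.D k r := fun r => funext fun k =>
    (h2 _ (hk k) _ (hk r)).trans (hs.chain.kk_kk _ k r)
  have z1 : ∀ q, yv T1 kk (pp j q) = d.y q := fun q => funext fun k =>
    (h1 _ (hk k) _ (hp q)).trans (hs.chain.kk_pp _ k j q)
  have z2 : ∀ q, yv T2 kk (pp j q) = d.y q := fun q => funext fun k =>
    (h2 _ (hk k) _ (hp q)).trans (hs.chain.kk_pp _ k j q)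
  have hx : ∀ p ∈ P0, ξ p = (c (pp j p) : F) • ξ p := fun p h => by
    have := (hc _ ⟨p, h, rfl⟩).1
    rwa [e1, e2] at this
  have hV : ∀ p ∈ P0, ∀ k, (c (pp j p) : F) * d.V k p = d.V k p := by
    intro p h k
    have := (hc _ ⟨p, h, rfl⟩).2.1 k
    have a1 : T1 (pp j p) (kk k) = -d.V k p :=
      (h1 _ (hp p) _ (hk k)).trans (hs.chain.pp_kk _ k j p)
    have a2 : T2 (pp j p) (kk k) = -d.V k p :=
      (h2 _ (hp p) _ (hk k)).trans (hs.chain.pp_kk _ k j p)
    simp only [nat, e1, e2, y1, y2, a1, a2] at this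
    have b : ξ p ⬝ᵥ (fun k' => d.D k' k) = (c (pp j p) : F) * (ξ p ⬝ᵥ fun k' => d.D k' k) := by
      conv_lhs => rw [hx p h, smul_dotProduct, smul_eq_mul]
    linear_combination this + b
  refine hd ⟨fun p => c (pp j p), hV, fun p h q h' => ?_⟩
  have := (hc _ ⟨p, h, rfl⟩).2.2 _ ⟨q, h', rfl⟩
  have a1 : T1 (pp j p) (pp j q) = d.As p q :=
    (h1 _ (hp p) _ (hp q)).trans (hs.chain.pp_own j p q)
  have a2 : T2 (pp j p) (pp j q) = d.A p q :=
    (h2 _ (hp p) _ (hp q)).trans (hs.chain.pp_left hj p q)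
  simp only [nat, e1, e2, z1, z2, a1, a2] at this
  have hy : d.y q = (c (pp j q) : F) • d.y q := funext fun k => (hV q h' k).symm
  have b : ξ p ⬝ᵥ d.y q = (c (pp j p) : F) * (c (pp j q) : F) * (ξ p ⬝ᵥ d.y q) := by
    conv_lhs => rw [hx p h, hy, smul_dotProduct, dotProduct_smul, smul_eq_mul, smul_eq_mul]
    ring
  linear_combination this + b

/-- The facts about the display after the path has been shortened. -/
structure Post (m : ℕ) (P0 : Set P) (col col' : E → Bool) (S T : ι → Matrix E E F) (kk : K → E)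
    (X X1 : ι → E → K → F) (Q Y : Set E) (f : P → E) (v : ℕ → E) (len : ℕ) (i1 i2 : ι) : Prop where
  fam : Fam col' T
  conn : ∀ i, Conn m (T i)
  colQ : ∀ u ∈ Q, col' u = col u
  colY : ∀ u ∈ Y, col' u = col u
  notY : ∀ t < len, v t ∉ Y
  al : ∀ i, ∀ u ∈ Q ∪ Sum.elim f v '' vl P len, Al (T i) kk Y u (X1 i u)
  full : ∀ i, ∀ C ⊆ Y, Full (S i) kk C → Full (T i) kk C
  keep : ∀ i, ∀ u ∈ Q, X1 i u = X i u ∧ ∀ w ∈ Q, nat (T i) kk (X1 i) u w = nat (S i) kk (X i) u w
  psi : ∀ i, ∃ Ψ2 Ψ3 : Matrix K K F,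
    (∀ r, ∀ w ∈ Y, T i (kk r) w = S i (kk r) w + (Ψ2 *ᵥ yv (S i) kk w) r) ∧
      ∀ u ∈ Y, ∀ w ∈ Y, T i u w = S i u w + yv (S i) kk u ⬝ᵥ Ψ3 *ᵥ yv (S i) kk w
  piece : Piece T kk X1 Q (Sum.elim f v) len
  dev : ¬DEq (T i2) (T i1) kk (X1 i2) (X1 i1) ((fun q => f q) '' P0)

end STEP

end Pool.Agent.MP_d99b12_co.H25
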