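import Pool.Agent.MP_d99b12_co.H25.STEP2

/-! # One growth step, part 3: shortening the path -/

namespace Pool.Agent.MP_d99b12_co.H25

open Matrix Sum

namespace STEP

variable {F : Type} [Field F] {E K P ι : Type} [Fintype K] [Fintype E]

variable {m N : ℕ} {d : Datum F K P} {col : E → Bool} {S : ι → Matrix E E F}
  {kk : K → E} {pp : Fin N → P → E} {cl : Fin (N + 1) → ι} {Q : Set E} {X : ι → E → K → F}

omit [Fintype E] in
lemma full_agree {M M' : Matrix E E F} {W C : Set E} (h : AgreeOn W M M') (hk : ∀ r, kk r ∈ W)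
    (hC : C ⊆ W) (hf : Full M kk C) : Full M' kk C := fun x hx => hf x fun b hb => by
  have : yv M' kk b = yv M kk b := funext fun r => h _ (hk r) _ (hC hb)
  rw [← this]; exact hx b hb

omit [Fintype E] in
lemma al_agree {M M' : Matrix E E F} {W C : Set E} {u : E} {x : K → F} (h : AgreeOn W M M')
    (hk : ∀ r, kk r ∈ W) (hC : C ⊆ W) (hu : ∀ w ∈ C, M' u w = M u w) (ha : Al M kk C u x) :
    Al M' kk C u x := fun b hb => by
  have : yv M' kk b = yv M kk b := funext fun r => h _ (hk r) _ (hC hb)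
  rw [this, hu b hb]; exact ha b hb

lemma post (hs : Stage m d col S kk pp cl Q X) {P0 : Set P} (hA : d.AugIn P0) {n : ℕ} {j : Fin N}
    {g : Fin (n + 1) → Fin N} (side : (∀ t, j < g t) ∨ ∀ t, g t < j)
    {X0 : E → K → F} {v : ℕ → E} {p : ℕ} {u0 : E} (_hp : 1 ≤ p)
    (hX0 : ∀ u ∈ Q, X0 u = X (cl (Fin.last N)) u)
    (hps : PS (S (cl (Fin.last N))) kk X0 Q (petals pp) v p) (hu0 : u0 ∈ Q)
    (hit : nat (S (cl (Fin.last N))) kk X0 u0 (v 0) ≠ 0) {xs : K → F}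
    (hxs : Al (S (cl (Fin.last N))) kk (petals fun t => pp (g t)) (v (p - 1)) xs)
    (hnot : ¬Al (S (cl (Fin.last N))) kk (Set.range (pp j)) (v (p - 1)) xs) {p0 : ℕ}
    (hsh : ∀ (X : ι → E → K → F) (Ω : Set E), Disjoint Q Ω →
      (∀ i, i = cl j.castSucc ∨ i = cl (Fin.last N) → PS (S i) kk (X i) Q Ω v p) →
      ∃ (Z : Set E) (S' : ι → Matrix E E F) (v' : ℕ → E) (len' : ℕ), (∀ i, IsPiv (S i) (S' i) Z) ∧
        (∀ e ∈ Z, ∃ j, 1 ≤ j ∧ j + 1 < p ∧ v j = e) ∧ 1 ≤ len' ∧ len' ≤ p0 ∧ v' 0 = v 0 ∧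
        v' (len' - 1) = v (p - 1) ∧ (∀ j < len', v' j ∉ Z ∧ ∃ j' < p, v' j = v j') ∧
        ∀ i, i = cl j.castSucc ∨ i = cl (Fin.last N) → PS (S' i) kk (X i) Q Ω v' len' ∧
          AgreeOn (Q ∪ Ω) (S i) (S' i) ∧ (∀ u ∈ Q, S' i u (v 0) = S i u (v 0)) ∧
          ∀ w ∈ Ω, S' i (v (p - 1)) w = S i (v (p - 1)) w) :
    ∃ (col' : E → Bool) (T : ι → Matrix E E F) (X1 : ι → E → K → F) (v' : ℕ → E) (len : ℕ),
      len ≤ p0 ∧ Post m P0 col col' S T kk X X1 Q (petals fun t => pp (g t)) (pp j) v' len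
        (cl j.castSucc) (cl (Fin.last N)) := by
  classical
  obtain ⟨hRef, hRed, hSC, hDev⟩ := hA
  set l := cl (Fin.last N) with hl
  set i1 := cl j.castSucc with hi1
  set Y := petals fun t => pp (g t) with hY
  set Ω := Y ∪ Set.range (pp j) with hΩ
  have hYP : Y ⊆ petals pp := petals_sub pp g
  have hΩP : Ω ⊆ petals pp := Set.union_subset hYP (range_sub pp j)
  have hYΩ : Y ⊆ Ω := Set.subset_union_left
  have hjΩ : ∀ q, pp j q ∈ Ω := fun q => Or.inr ⟨q, rfl⟩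
  have hQΩ : Disjoint Q Ω := (disjQ hs).mono_right hΩP
  have hF : ∀ i, Full (S i) kk Y := fun i =>
    (full hs hRed i (g 0)).mono (range_sub (fun t => pp (g t)) 0)
  obtain ⟨ξ, hξ, hB⟩ := petal_al hs hRef side
  let X' : ι → E → K → F := fun i => co (S i) kk Y
  have hX'Q : ∀ i, ∀ u ∈ Q, X' i u = X i u := fun i u hu =>
    co_eq (hF i) ((hs.al i u hu).mono hYP)
  have hv0 : ∀ t, t + 1 < p → Al (S l) kk Y (v t) (X0 (v t)) := fun t ht =>
    al_iff.2 fun w hw => hps.right t ht w (hYP hw)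
  have hpsl : PS (S l) kk (X' l) Q Ω v p :=
    ps_congr hps hΩP (fun u hu => by rw [hX'Q l u hu, hX0 u hu]) fun t ht => co_eq (hF l) (hv0 t ht)
  have hpsi : ∀ i, PS (S i) kk (X' i) Q Ω v p := fun i =>
    ps_same (hs.fam.same l i) (hF l) hpsl (fun u hu => ⟨_, (hs.al l u hu).mono hYP⟩)
      fun t ht => ⟨_, hv0 t ht⟩
  obtain ⟨Z, T, v', len, hpiv, hZ, hlen, hlen0, hv'0, hv'l, -, hT⟩ :=
    hsh X' Ω hQΩ fun i _ => hpsi i
  have hQZ : Disjoint Q Z := by
    rw [Set.disjoint_right]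
    intro e he
    obtain ⟨t, -, h2, rfl⟩ := hZ e he
    exact hpsl.notQ t (by omega)
  have hΩZ : Disjoint Ω Z := by
    rw [Set.disjoint_right]
    intro e he
    obtain ⟨t, -, h2, rfl⟩ := hZ e he
    exact hpsl.notO t (by omega)
  have h1 : ∀ i, ∀ u ∈ Q, ∀ z ∈ Z, nat (S i) kk (X' i) u z = 0 := by
    intro i u hu z hz
    obtain ⟨t, a, b, rfl⟩ := hZ z hz
    exact (hpsi i).left u hu t a (by omega)
  have h2 : ∀ i, ∀ z ∈ Z, ∀ w ∈ Ω, nat (S i) kk (X' i) z w = 0 := by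
    intro i z hz w hw
    obtain ⟨t, a, b, rfl⟩ := hZ z hz
    exact (hpsi i).right t b w hw
  have hsing : ∀ i r, X' i (kk r) = Pi.single r 1 := fun i r =>
    Al.eq_single (hF i) (co_al ⟨_, (hs.al i _ (hs.kQ r)).mono hYP⟩)
  have hne : ∀ i, ∀ u ∈ Q, ∀ w ∈ Q ∪ Ω, nat (T i) kk (X' i) u w = nat (S i) kk (X' i) u w :=
    fun i => (hpiv i).nat_eq (hs.fam.skew i) hQZ hΩZ hQΩ (h1 i) (h2 i) hs.kQ (hsing i)
  have hfam : Fam (colFlip col Z) T := hs.fam.piv hpiv
  have hkW : ∀ r, kk r ∈ Q ∪ Ω := fun r => Or.inl (hs.kQ r)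
  have hΩW : Ω ⊆ Q ∪ Ω := Set.subset_union_right
  obtain ⟨hpsT, hag, hT0, hTl⟩ := hT l (Or.inr rfl)
  have hag1 := (hT i1 (Or.inl rfl)).2.1
  have hfull : ∀ i, ∀ C ⊆ Ω, Full (S i) kk C → Full (T i) kk C := fun i C hC h =>
    (hfam.same l i).full (full_agree hag hkW (hC.trans hΩW) ((hs.fam.same i l).full h))
  have hFT : ∀ i, Full (T i) kk Y := fun i => hfull i Y hYΩ (hF i)
  let X1 : ι → E → K → F := fun i => co (T i) kk Y
  have hQal : ∀ i, ∀ u ∈ Q, Al (T i) kk Y u (X' i u) := fun i u hu => al_iff.2 fun w hw => by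
    rw [hne i u hu w (hΩW (hYΩ hw))]
    exact al_iff.1 (co_al ⟨_, (hs.al i u hu).mono hYP⟩) w hw
  have hX1Q : ∀ i, ∀ u ∈ Q, X1 i u = X' i u := fun i u hu => co_eq (hFT i) (hQal i u hu)
  have hPl : ∀ q, Al (T l) kk Y (pp j q) (ξ q) := fun q =>
    al_agree hag hkW (hYΩ.trans hΩW) (fun w hw => hag _ (hΩW (hjΩ q)) _ (hΩW (hYΩ hw))) (hξ _ q)
  have hP1 : ∀ q, Al (T i1) kk Y (pp j q) (ξ q) := fun q =>
    al_agree hag1 hkW (hYΩ.trans hΩW) (fun w hw => hag1 _ (hΩW (hjΩ q)) _ (hΩW (hYΩ hw))) (hξ _ q)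
  have hlast : Al (T l) kk Y (v' (len - 1)) xs := by
    rw [hv'l]
    exact al_agree hag hkW (hYΩ.trans hΩW) (fun w hw => hTl w (hYΩ hw)) hxs
  have hmid : ∀ t, t + 1 < len → Al (T l) kk Y (v' t) (X' l (v' t)) := fun t ht =>
    al_iff.2 fun w hw => hpsT.right t ht w (hYΩ hw)
  have hps1 : PS (T l) kk (X1 l) Q Ω v' len :=
    ps_congr hpsT subset_rfl (hX1Q l) fun t ht => co_eq (hFT l) (hmid t ht)
  have hin : ∀ x ∈ vl P len, InSpan (T l) kk Y (Sum.elim (pp j) v' x) := by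
    rintro (q | t) hx
    · exact ⟨_, hPl q⟩
    · have ht : t < len := hx t rfl
      rcases Nat.lt_or_ge (t + 1) len with h | h
      · exact ⟨_, hmid t h⟩
      · obtain rfl : t = len - 1 := by omega
        exact ⟨_, hlast⟩
  have hinl : ∀ q, (inl q : P ⊕ ℕ) ∈ vl P len := fun q i h => by cases h
  have hinr : ∀ t < len, (inr t : P ⊕ ℕ) ∈ vl P len := fun t ht i h => by
    obtain rfl : t = i := by simpa using h
    exact ht
  have tQ : ∀ i, ∀ u ∈ Q, ∀ w, nat (T l) kk (X1 l) u w = 0 ↔ nat (T i) kk (X1 i) u w = 0 :=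
    fun i u hu w => nat_co (hfam.same l i) (hFT l) ⟨_, hQal l u hu⟩ w
  have tP : ∀ i, ∀ x ∈ vl P len, ∀ w, nat (T l) kk (X1 l) (Sum.elim (pp j) v' x) w = 0 ↔
      nat (T i) kk (X1 i) (Sum.elim (pp j) v' x) w = 0 :=
    fun i x hx w => nat_co (hfam.same l i) (hFT l) (hin x hx) w
  have hyj : ∀ q, yv (T l) kk (pp j q) = d.y q := fun q => funext fun r =>
    (hag _ (hkW r) _ (hΩW (hjΩ q))).trans (hs.chain.kk_pp _ r j q)
  refine ⟨colFlip col Z, T, X1, v', len, hlen0, hfam, fun i => (hpiv i).conn (hs.conn i),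
    fun u hu => colFlip_of_notMem col (Set.disjoint_left.1 hQZ hu),
    fun u hu => colFlip_of_notMem col (Set.disjoint_left.1 hΩZ (hYΩ hu)),
    fun t ht h => hpsT.notO t ht (hYΩ h), ?_, fun i C hC => hfull i C (hC.trans hYΩ), ?_, ?_,
    ⟨hlen, ?_, ?_, ?_, ?_, ?_, ?_⟩, ?_⟩
  · rintro i u (hu | ⟨x, hx, rfl⟩)
    · exact co_al ⟨_, hQal i u hu⟩
    · exact co_al ((hfam.same l i).inSpan (hin x hx))
  · intro i u hu
    refine ⟨(hX1Q i u hu).trans (hX'Q i u hu), fun w hw => ?_⟩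
    rw [nat_congr (hX1Q i u hu), hne i u hu w (Or.inl hw), nat_congr (hX'Q i u hu)]
  · intro i
    obtain ⟨Ψ1, Ψ2, Ψ3, -, a, b⟩ := (hpiv i).pers (hs.fam.skew i) hQZ hΩZ hQΩ (h1 i) (h2 i)
    refine ⟨Ψ2, Ψ3, fun r w hw => ?_, fun u hu w hw => b u (hYΩ hu) w (hYΩ hw)⟩
    rw [a _ (hs.kQ r) w (hYΩ hw), hsing, single_one_dotProduct]
  · rintro (q | t) hx (q' | t') hx' e
    · rw [(hs.chain.pp_inj e).2]
    · exact absurd (hjΩ q) (by
        have e' : pp j q = v' t' := e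
        rw [e']; exact hpsT.notO t' (hx' t' rfl))
    · exact absurd (hjΩ q') (by
        have e' : v' t = pp j q' := e
        rw [← e']; exact hpsT.notO t (hx t rfl))
    · rw [hpsT.inj t (hx t rfl) t' (hx' t' rfl) e]
  · rintro (q | t) hx
    · exact hs.disj j q
    · exact hpsT.notQ t (hx t rfl)
  · intro i u hu x hx h0
    rw [← tQ i u hu]
    rcases x with q | t
    · rw [nat_congr (hX1Q l u hu), Sum.elim_inl, hne l u hu _ (hΩW (hjΩ q)),
        nat_congr (hX'Q l u hu)]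
      exact al_iff.1 (hs.al l u hu) _ ⟨j, q, rfl⟩
    · refine hps1.left u hu t ?_ (hx t rfl)
      rcases Nat.eq_zero_or_pos t with rfl | h
      · exact absurd rfl h0
      · exact h
  · refine ⟨u0, hu0, fun i e => hit ?_⟩
    rw [← tQ i u0 hu0, Sum.elim_inr, hv'0] at e
    rw [← e]
    symm
    exact nat_congr' (by rw [hX1Q l u0 hu0, hX'Q l u0 hu0, hX0 u0 hu0]) (hT0 u0 hu0)
      fun r => hT0 _ (hs.kQ r)
  · have hpath : ∀ t < len, Relation.ReflTransGen (fun a b => a ∈ vl P len ∧ b ∈ vl P len ∧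
        ∀ i, nat (T i) kk (X1 i) (Sum.elim (pp j) v' a) (Sum.elim (pp j) v' b) ≠ 0)
        (inr 0) (inr t) := by
      intro t
      induction t with
      | zero => exact fun _ => Relation.ReflTransGen.refl
      | succ t ih =>
        intro ht
        refine (ih (by omega)).tail ⟨hinr t (by omega), hinr _ ht, fun i e => ?_⟩
        exact hps1.link t ht ((tP i (inr t) (hinr t (by omega)) _).2 e)
    rintro (q | t) hx
    · obtain ⟨q0, hq0⟩ : ∃ q0, nat (T l) kk (X1 l) (v' (len - 1)) (pp j q0) ≠ 0 := by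
        by_contra hc
        push Not at hc
        apply hnot
        rintro _ ⟨q0, rfl⟩
        have := hc q0
        have e : X1 l (v' (len - 1)) = xs := co_eq (hFT l) hlast
        simp only [nat, e, sub_eq_zero, hyj] at this
        rw [hv'l, hTl _ (hjΩ q0)] at this
        rw [this]
        exact congrArg _ (hs.chain.yv_pp (Fin.last N) j q0).symm
      have hM : ∀ a b, nat (T l) kk (X1 l) (pp j a) (pp j b) = d.A a b - ξ a ⬝ᵥ d.y b := by
        intro a b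
        have e : X1 l (pp j a) = ξ a := co_eq (hFT l) (hPl a)
        have e2 : T l (pp j a) (pp j b) = d.A a b :=
          (hag _ (hΩW (hjΩ a)) _ (hΩW (hjΩ b))).trans (hs.chain.pp_left (by simp) a b)
        simp only [nat, e, e2, hyj]
      have hr := sc_reach (M := Matrix.of fun a b => d.A a b - ξ a ⬝ᵥ d.y b) hSC hB q0 q
      refine ((hpath (len - 1) (by omega)).tail (c := inl q0)
        ⟨hinr _ (by omega), hinl q0, fun i e => ?_⟩).trans ?_
      · exact hq0 ((tP i (inr (len - 1)) (hinr _ (by omega)) _).2 e)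
      · refine Relation.ReflTransGen.lift (fun q => (inl q : P ⊕ ℕ)) (fun a b h => ?_) _ _ hr
        refine ⟨hinl a, hinl b, fun i e => h ?_⟩
        have := (tP i (inl a) (hinl a) _).2 e
        rwa [Sum.elim_inl, Sum.elim_inl, hM] at this
    · exact hpath t (hx t rfl)
  · obtain ⟨C, hC⟩ := exists_cols d.y hRed
    refine ⟨C, fun i u a b => ?_⟩
    have f1 : Full (T l) kk (Set.range fun k => pp j (C k)) := fun x hx =>
      perp (fun k => d.y (C k)) hC x fun k => by rw [← hyj]; exact hx _ ⟨k, rfl⟩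
    have f2 := (hfam.same l i).full f1
    refine indep (fun k => yv (T i) kk (pp j (C k))) (fun x hx => f2 x ?_) u ?_
    · rintro _ ⟨k, rfl⟩; exact hx k
    · funext r
      have b' := b r
      have a' := congrArg (· ⬝ᵥ yv (T i) kk (kk r)) a
      simp only [Sum.elim_inl, sum_dotProduct, smul_dotProduct, smul_eq_mul, zero_dotProduct,
        nat, mul_sub, Finset.sum_sub_distrib] at a' b'
      rw [a', sub_zero] at b'
      simp only [Finset.sum_apply, Pi.smul_apply, smul_eq_mul, yv, Pi.zero_apply]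
      rw [← neg_eq_zero, ← b', ← Finset.sum_neg_distrib]
      exact Finset.sum_congr rfl fun k _ => by rw [hfam.skew i (pp j (C k)) (kk r)]; ring
  · exact not_dEq hs hDev hkW (fun q => hΩW (hjΩ q)) hag1 hag
      (fun q => co_eq (hFT i1) (hP1 q)) fun q => co_eq (hFT l) (hPl q)

end STEP

end Pool.Agent.MP_d99b12_co.H25
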