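import Pool.Agent.MP_d99b12_co.H25.SysDefs
import Pool.Agent.MP_d99b12_co.H30.Defs

/-! # Statements of the steps (MP_d99b12_co).  Proofs on paper: `/team-store/MP_d99b12_plan.md`. -/

namespace Pool.Agent.MP_d99b12_co.H25

open Matrix Sum

variable (F : Type) [Field F] [Fintype F]

/-! ## Pairs -/

def SHR : Prop := ∀ (E ι : Type) [Fintype E] (a : Dsp F E ι) (i1 i2 : ι) (O Y : Set E),
  Fam a.1 a.2 → Disjoint O Y → DevP O (a.2 i1) (a.2 i2) Y →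
  ∃ b, IReach O Y a b ∧ (Single O Y (b.2 i1) (b.2 i2) ∨
    ∃ ℓ u c, ℓ ≤ 3 ∧ Cfg O Y (b.2 i1) (b.2 i2) ℓ u c)

def START (m : ℕ) : Prop := ∀ n, ∃ N, ∀ (E : Type) [Fintype E] (col : E → Bool)
  (S : Fin N → Matrix E E F), Fam col S → (∀ i, Conn m (S i)) →
  (∀ i j, i ≠ j → ¬EquivOn Set.univ (S i) (S j)) →
  ∃ (col' : E → Bool) (T : Fin n → Matrix E E F) (W : Fin n → Finset E), Fam col' T ∧
    (∀ i, Conn m (T i)) ∧ (∀ i, (W i).card ≤ 10) ∧ ∀ i j, i < j → ¬EquivOn ↑(W i) (T j) (T i)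

def CL : Prop := ∀ (E : Type) [Fintype E] (a : Dsp F E Bool) (O : Set E), Fam a.1 a.2 →
  ParAll O a → Rooted O (a.2 false) → DevP O (a.2 false) (a.2 true) Oᶜ →
  VisR O a ∨ ∃ b, HReach O a b ∧ ∃ k ∈ O, ∃ b1 a0 b2, b1 ∉ O ∧ a0 ∉ O ∧ b2 ∉ O ∧
    UC4 (b.2 false) (b.2 true) k b1 a0 b2

def MID1 : Prop := ∀ (E : Type) [Fintype E] (a : Dsp F E Bool) (O Z O' : Set E)
  (M : Bool → Matrix E E F) (x y : E), Fam a.1 a.2 → ParAll O a →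
  AgreeOn O (a.2 false) (a.2 true) → Disjoint Z O → (∀ b, IsPiv (a.2 b) (M b) Z) →
  x ∉ O → y ∉ O → O' ⊆ O →
  (AgreeOn O (M false) (M true) → DevP O' (M false) (M true) {x, y} ∧
    Par O' (M false) (M true) x ∧ Par O' (M false) (M true) y) → VisR O a

def WALK : Prop := ∀ (E ι : Type) [Fintype E] (a : Dsp F E ι) (i1 i2 : ι) (O : Set E)
  (k b1 a0 b2 : E), Fam a.1 a.2 → k ∈ O → b1 ∉ O → a0 ∉ O → b2 ∉ O →
  UC4 (a.2 i1) (a.2 i2) k b1 a0 b2 → NoNb (a.2 i1) O a0 →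
  (∀ o ∈ O, a.2 i1 o b1 * a.2 i1 k b2 = a.2 i1 o b2 * a.2 i1 k b1) → NS O (a.2 i1) k b1 a0 b2 →
  ∃ (b : Dsp F E ι) (b1' a' b2' v o : E), HReach O a b ∧ b1' ∉ O ∧ a' ∉ O ∧ b2' ∉ O ∧ v ∉ O ∧
    v ≠ b1' ∧ v ≠ a' ∧ v ≠ b2' ∧ UC4 (b.2 i1) (b.2 i2) k b1' a' b2' ∧ (∀ i, NoNb (b.2 i) O a') ∧
    (∀ i, ∃ κ1 κ2 : Fˣ, ∀ w ∈ O, b.2 i w b1' = κ1 * a.2 i w b1 ∧ b.2 i w b2' = κ2 * a.2 i w b1) ∧
    o ∈ O ∧ (∀ i, b.2 i o v * b.2 i k b1' ≠ b.2 i o b1' * b.2 i k v) ∧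
    ∀ i, b.2 i v a' ≠ 0 ∨ b.2 i v b1' * b.2 i k b2' ≠ b.2 i v b2' * b.2 i k b1'

def WALKP : Prop := ∀ (E : Type) [Fintype E] (a : Dsp F E Bool) (O : Set E) (k b1 a0 b2 : E),
  Fam a.1 a.2 → ParAll O a → k ∈ O → b1 ∉ O → a0 ∉ O → b2 ∉ O →
  UC4 (a.2 false) (a.2 true) k b1 a0 b2 → NS O (a.2 false) k b1 a0 b2 → VisR O a

/-! ## Chains -/

def HOM : Prop := ∀ (K P : Type) [Fintype K] [Fintype P] (n : ℕ), ∃ N, ∀ (E : Type) [Fintype E]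
  (col : E → Bool) (S : Fin N → Matrix E E F) (kk : K → E) (pp : Fin N → P → E), Fam col S →
  Function.Injective (emb kk pp) →
  ∃ (d : Datum F (K ⊕ P ⊕ P) P) (g : Fin (n + 1) ↪o Fin N) (i0 iR : Fin N)
    (c : Fin (n + 1) → E → Fˣ), (∀ i, i0 < g i) ∧ (∀ i, g i < iR) ∧
    (∀ i k, c i (Sum.elim kk (Sum.elim (pp i0) (pp iR)) k) = 1) ∧ c (Fin.last n) = 1 ∧ d.Ref ∧
    IsChain d col (fun i => scale (c i) (S (g i))) (Sum.elim kk (Sum.elim (pp i0) (pp iR)))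
      fun j => pp (g j.castSucc)

/-- The combinatorial form of the theorem. -/
def MAIN (m : ℕ) : Prop := ∃ N, ∀ (E : Type) [Fintype E] (col : E → Bool)
  (S : Fin N → Matrix E E F), Fam col S → (∀ i, Conn m (S i)) →
  ∃ i j, i ≠ j ∧ EquivOn Set.univ (S i) (S j)

def INIT (m : ℕ) : Prop := ¬MAIN F m → ∃ (K P : Type) (_ : Fintype K) (_ : Fintype P)
  (d : Datum F K P), Real m d ∧ d.Ref ∧ d.DevD Set.univ

/-- Harmless pivots of the pair are realised by chains. -/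
def HP (m : ℕ) : Prop := ∀ (K P : Type) [Fintype K] [Fintype P] (d : Datum F K P), Real m d →
  d.Ref → ∀ b, HReach (Set.range inl) d.dsp b →
  ∃ (d' : Datum F K P) (c : K ⊕ P → Fˣ), Real m d' ∧ d'.Ref ∧ d'.V.rank = d.V.rank ∧
    (NConn d.B → NConn d'.B) ∧ (∀ k, c (inl k) = 1) ∧ d'.dsp.1 = b.1 ∧
    d'.pair false = b.2 false ∧ d'.pair true = scale c (b.2 true)

def BGEN (m : ℕ) : Prop := ∀ (K P : Type) [Fintype K] [Fintype P] (d : Datum F K P), Real m d →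
  d.Ref → NConn d.B → 2 ≤ d.V.rank → d.DevD Set.univ →
  VisR (Set.range inl) d.dsp ∨ ∃ (P' : Type) (_ : Fintype P') (d' : Datum F K P') (k : K)
    (b1 a b2 : P'), Real m d' ∧ d'.Ref ∧ d'.Tri k b1 a b2

def ROUNDC (m : ℕ) : Prop := 1 ≤ m → ∀ (K P : Type) [Fintype K] [Fintype P] (d : Datum F K P)
  (k : K) (b1 a b2 : P), Real m d → d.Ref → d.Tri k b1 a b2 →
  ∃ (K' P' : Type) (_ : Fintype K') (_ : Fintype P') (d' : Datum F K' P') (k' : K')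
    (b1' a' b2' : P'), Real m d' ∧ d'.Ref ∧
    UC4 (d'.pair false) (d'.pair true) (inl k') (inr b1') (inr a') (inr b2') ∧
    NS (Set.range inl) (d'.pair false) (inl k') (inr b1') (inr a') (inr b2')

/-! ## Augmentation -/

/-- A path segment whose transfer is the identity can be pivoted away; the link is passed on. -/
def IDL : Prop := ∀ (E K : Type) [Fintype E] [Fintype K] (S : Matrix E E F) (x y : E → K → F)
  (z : ℕ → E) (t : ℕ → F) (s n : ℕ) (Λ Ω : Set E) (α β : E → F), Skew S → (∀ u, S u u = 0) →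
  1 ≤ n → (∀ i < n, ∀ j < n, z (s + i) = z (s + j) → i = j) →
  (∀ i < n, z (s + i) ∉ Λ ∧ z (s + i) ∉ Ω) → (∀ i < n, t (s + i) ≠ 0) →
  (∀ i j, i < j → j < n → S (z (s + i)) (z (s + j)) =
    x (z (s + i)) ⬝ᵥ y (z (s + j)) + if j = i + 1 then t (s + j) else 0) →
  (∀ w ∈ Λ, ∀ j < n, S w (z (s + j)) = x w ⬝ᵥ y (z (s + j)) + if j = 0 then t s * α w else 0) →
  (∀ w ∈ Ω, ∀ j < n, S (z (s + j)) w = x (z (s + j)) ⬝ᵥ y w + if j + 1 = n then β w else 0) →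
  Disjoint Λ Ω → run (fun j => x (z j)) (fun j => y (z j)) t s n = id →
  ∃ S', IsPiv S S' {e | ∃ i < n, z (s + i) = e} ∧ AgreeOn Λ S S' ∧ AgreeOn Ω S S' ∧
    ∀ u ∈ Λ, ∀ w ∈ Ω, S' u w = S u w + α u * β w

def SHRINK : Prop := ∀ (K : Type) [Fintype K], ∃ p0, ∀ (E ι : Type) [Fintype E]
  (col : E → Bool) (S : ι → Matrix E E F) (i1 i2 : ι) (kk : K → E) (X : ι → E → K → F)
  (Q Ω : Set E) (v : ℕ → E) (len : ℕ), Fam col S → Disjoint Q Ω → (∀ r, kk r ∈ Q) → 1 ≤ len →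
  (∀ i, i = i1 ∨ i = i2 → PS (S i) kk (X i) Q Ω v len) →
  ∃ (Z : Set E) (S' : ι → Matrix E E F) (v' : ℕ → E) (len' : ℕ), (∀ i, IsPiv (S i) (S' i) Z) ∧
    (∀ e ∈ Z, ∃ j, 1 ≤ j ∧ j + 1 < len ∧ v j = e) ∧ 1 ≤ len' ∧ len' ≤ p0 ∧ v' 0 = v 0 ∧
    v' (len' - 1) = v (len - 1) ∧ (∀ j < len', v' j ∉ Z ∧ ∃ j' < len, v' j = v j') ∧
    ∀ i, i = i1 ∨ i = i2 → PS (S' i) kk (X i) Q Ω v' len' ∧ AgreeOn (Q ∪ Ω) (S i) (S' i) ∧
      (∀ u ∈ Q, S' i u (v 0) = S i u (v 0)) ∧ ∀ w ∈ Ω, S' i (v (len - 1)) w = S i (v (len - 1)) w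

def STEP (m : ℕ) : Prop := ∀ (K P : Type) [Fintype K] [Fintype P], Fintype.card K ≤ m →
  ∃ p0, ∀ κ n n0, ∃ N, ∀ (E ι : Type) [Fintype E] (d : Datum F K P) (P0 : Set P)
  (col : E → Bool) (S : ι → Matrix E E F) (kk : K → E) (pp : Fin N → P → E)
  (cl : Fin (N + 1) → ι) (Q : Set E) (X : ι → E → K → F),
  Stage m d col S kk pp cl Q X → d.AugIn P0 → Fintype.card K < Q.ncard → Q.ncard ≤ κ →
  HubOut F K m n0 P0 ∨ ∃ (d' : Datum F K P) (col' : E → Bool) (S' : ι → Matrix E E F)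
    (g : Fin n → Fin N) (g' : Fin (n + 1) → Fin (N + 1)) (X' : ι → E → K → F) (e : P ⊕ ℕ → E)
    (len : ℕ) (dv : Fin (N + 1)), d'.AugIn P0 ∧ len ≤ p0 ∧
    Stage m d' col' S' kk (fun j => pp (g j)) (fun j => cl (g' j)) (Q ∪ e '' vl P len) X' ∧
    Piece S' kk X' Q e len ∧
    (∀ i, ∀ u ∈ Q, X' i u = X i u ∧ ∀ w ∈ Q, nat (S' i) kk (X' i) u w = nat (S i) kk (X i) u w) ∧
    ∀ j, ¬DEq (S' (cl dv)) (S' (cl (g' j))) kk (X' (cl dv)) (X' (cl (g' j)))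
      ((fun p => e (inl p)) '' P0)

def GROW (m : ℕ) : Prop := ∀ (K P : Type) [Fintype K] [Fintype P], Fintype.card K ≤ m →
  ∃ p0 κ, ∀ T n0, ∃ N, ∀ (d : Datum F K P) (P0 : Set P), RealN m N d → d.AugIn P0 →
  HubOut F K m n0 P0 ∨ ∃ (E : Type) (_ : Fintype E) (col : E → Bool) (S : Fin T → Matrix E E F)
    (kk : K → E) (X : Fin T → E → K → F) (Q0 : Set E) (e : Fin T → P ⊕ ℕ → E) (len : Fin T → ℕ)
    (pf : P → E), Grown m p0 κ P0 col S kk X Q0 e len pf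

def HUB (m : ℕ) : Prop := ∀ (K P : Type) [Fintype K] [Fintype P] (n : ℕ), ∃ n0, ∀ P0 : Set P,
  HubOut F K m n0 P0 → ∃ d : Datum F ((K ⊕ Unit) ⊕ P ⊕ P) P,
    RealN m n d ∧ d.AugOut (Fintype.card K) P0

def STAR (m : ℕ) : Prop := ∀ (K P : Type) [Fintype K] [Fintype P] (p0 n : ℕ), ∃ n1,
  ∀ (κ T : ℕ) (P0 : Set P) (E : Type) [Fintype E] (col : E → Bool) (S : Fin T → Matrix E E F)
  (kk : K → E) (X : Fin T → E → K → F) (Q0 : Set E) (e : Fin T → P ⊕ ℕ → E) (len : Fin T → ℕ)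
  (pf : P → E), Grown m p0 κ P0 col S kk X Q0 e len pf → ∀ (u : E) (g : Fin n1 ↪o Fin T),
  (∀ j, u ∈ QS Q0 e len (g j).val ∧ ∀ i, nat (S i) kk (X i) u (e (g j) (inr 0)) ≠ 0) →
  ∃ p ≤ p0, ∃ d : Datum F ((K ⊕ Unit ⊕ P) ⊕ (P ⊕ Fin p) ⊕ (P ⊕ Fin p)) (P ⊕ Fin p),
    RealN m n d ∧ d.AugOut (Fintype.card K) (inl '' P0)

def PATH (m : ℕ) : Prop := ∀ (K P : Type) [Fintype K] [Fintype P] (p0 : ℕ), ∃ l0, ∀ n, ∃ L,
  ∀ (κ T : ℕ) (P0 : Set P) (E : Type) [Fintype E] (col : E → Bool) (S : Fin T → Matrix E E F)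
  (kk : K → E) (X : Fin T → E → K → F) (Q0 : Set E) (e : Fin T → P ⊕ ℕ → E) (len : Fin T → ℕ)
  (pf : P → E), Grown m p0 κ P0 col S kk X Q0 e len pf → ∀ g : Fin L ↪o Fin T,
  (∀ j j' : Fin L, j.val + 1 = j'.val → ∃ x ∈ vl P (len (g j)),
    ∀ i, nat (S i) kk (X i) (e (g j) x) (e (g j') (inr 0)) ≠ 0) →
  (∀ j j' : Fin L, j.val + 1 < j'.val → ∀ x ∈ vl P (len (g j)),
    ∀ i, nat (S i) kk (X i) (e (g j) x) (e (g j') (inr 0)) = 0) →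
  ∃ p ≤ p0, ∃ l ≤ l0, ∃ d : Datum F ((K ⊕ P ⊕ P ⊕ Bool) ⊕ ((P ⊕ Fin p) ⊕ Fin l) ⊕
    ((P ⊕ Fin p) ⊕ Fin l)) ((P ⊕ Fin p) ⊕ Fin l),
    RealN m n d ∧ d.AugOut (Fintype.card K) ((fun q => inl (inl q)) '' P0)

def AUG (m : ℕ) : Prop := ∀ (K P : Type) [Fintype K] [Fintype P] (d : Datum F K P) (P0 : Set P),
  Fintype.card K ≤ m → Real m d → d.AugIn P0 →
  ∃ (K' P' : Type) (_ : Fintype K') (_ : Fintype P') (d' : Datum F K' P') (ι : P → P'),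
    Real m d' ∧ d'.AugOut (Fintype.card K) (ι '' P0)

/-! ## Algebra -/

/-- The final algebraic statement for realisable data. -/
def ALGR (m : ℕ) : Prop := ∀ (K P : Type) [Fintype K] [Fintype P] (d : Datum F K P), Real m d →
  d.Ref → d.Red → NConn d.B → d.Tau0 → d.Vis → Fintype.card K ≤ m

/-- The final algebraic statement (no matroid, no connectivity). -/
def ALG (m : ℕ) : Prop := ∀ (K P : Type) [Fintype K] [Fintype P] (d : Datum F K P), d.Alg →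
  d.Ref → d.Red → NConn d.B → d.Tau0 → d.Vis → Fintype.card K ≤ m

def A1 : Prop := ∀ (K P : Type) [Fintype K] [Fintype P] (d : Datum F K P), d.Alg →
  d.Ref → d.Red → NConn d.B → d.Vis → 3 ≤ Fintype.card K → d.Tau0

def SYS : Prop := ∀ (K P : Type) [Fintype K] [Fintype P] (d : Datum F K P), d.Alg → d.Ref →
  d.Red → NConn d.B → ∃ s : Sys F K, Disp s d.colP d.y d.B d.Bs 0 ∧ (s.δ = 0 ↔ d.Tau0)

/-- Exchange on an invertible edge of the normal petal. -/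
def SREB : Prop := ∀ (K P : Type) [Fintype K] [Fintype P] (s : Sys F K) (col : P → Bool)
  (y : P → K → F) (B : Matrix P P F) (a b : P), SDisp s col y B → B a b ≠ 0 → B b a ≠ 0 →
  SDisp s (colFlip col {a, b}) (reY y B a b) (epiv B a b) ∧
    Act.tf s.δ (rePhi y B a b) ∈ s.𝒜 ∧ Act.tfInv s.δ (rePhi y B a b) ∈ s.𝒜

/-- The deviant petal has the zero pattern of the normal one. -/
def ZP : Prop := ∀ (K P : Type) [Fintype K] [Fintype P] (s : Sys F K) (col : P → Bool)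
  (y : P → K → F) (B Bs : Matrix P P F) (ε : Matrix K K F), Disp s col y B Bs ε →
  ∀ p q, Bs p q = 0 ↔ B p q = 0

/-- Exchange in both petals. -/
def REB : Prop := ∀ (K P : Type) [Fintype K] [Fintype P] (s : Sys F K) (col : P → Bool)
  (y : P → K → F) (B Bs : Matrix P P F) (ε : Matrix K K F) (a b : P), Disp s col y B Bs ε →
  B a b ≠ 0 → B b a ≠ 0 → (s.δ = 0 ∨ ¬VisP y B Bs a b) →
  ∃ c : P → Fˣ, (∀ p, reY y Bs a b p = (c p : F) • reY y B a b p) ∧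
    (∀ p, reY y B a b p = 0 → c p = 1) ∧
    Disp s (colFlip col {a, b}) (reY y B a b) (epiv B a b) (scale c⁻¹ (epiv Bs a b))
      (ε + rePhi y Bs a b - rePhi y B a b)

/-- Far-end exchanges bring a vector outside `D0` to distance at most two of the visible pair. -/
def C1PRE : Prop := ∀ (K P : Type) [Fintype K] [Fintype P] (s : Sys F K) (col : P → Bool)
  (y : P → K → F) (B Bs : Matrix P P F) (ε : Matrix K K F) (a b : P) (D0 : Submodule F (K → F)),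
  Disp s col y B Bs ε → VisP y B Bs a b → (∀ x ∈ D0, s.δ *ᵥ x = 0) → D0 ≠ ⊤ → y a ∈ D0 →
  y b ∈ D0 → ∃ (col' : P → Bool) (y' : P → K → F) (B' Bs' : Matrix P P F) (ε' : Matrix K K F),
    Disp s col' y' B' Bs' ε' ∧
    ((s.δ ≠ 0 ∧ ∃ a' b', VisP y' B' Bs' a' b' ∧ y' b' ∉ D0) ∨
      ∃ a' b' z, ((a' = a ∧ b' = b) ∨ (a' = b ∧ b' = a)) ∧ VisP y' B' Bs' a' b' ∧ y' a = y a ∧
        y' b = y b ∧ col' a = col a ∧ col' b = col b ∧ y' z ∉ D0 ∧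
        (B' a' z ≠ 0 ∨ ∃ w, y' w ∈ D0 ∧ B' w b' ≠ 0 ∧ B' w z ≠ 0 ∧ B' a' z = 0))

/-- Moving the visible pair. -/
def C1 : Prop := ∀ (K P : Type) [Fintype K] [Fintype P] (s : Sys F K) (col : P → Bool)
  (y : P → K → F) (B Bs : Matrix P P F) (ε : Matrix K K F) (a b : P) (D0 : Submodule F (K → F)),
  Disp s col y B Bs ε → VisP y B Bs a b → (∀ x ∈ D0, s.δ *ᵥ x = 0) → D0 ≠ ⊤ → y a ∈ D0 →
  y b ∈ D0 → ∃ (col' : P → Bool) (y' : P → K → F) (B' Bs' : Matrix P P F) (ε' : Matrix K K F)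
    (a' b' : P), Disp s col' y' B' Bs' ε' ∧ VisP y' B' Bs' a' b' ∧ y' b' ∉ D0 ∧
    (s.δ ≠ 0 ∨ (col' a' = col a ∧ y' a' = y a) ∨ (col' a' = col b ∧ y' a' = y b))

/-- Zero test. -/
def ZT : Prop := ∀ (K P : Type) [Fintype K] [Fintype P] (s : Sys F K) (col : P → Bool)
  (y : P → K → F) (B Bs : Matrix P P F) (a b : P) (ξ : K → F), Disp s col y B Bs 0 →
  VisP y B Bs a b → Act.test s.δ ξ ∈ s.𝒜 → (∀ k, col a = s.colK k → ξ k = 0) →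
  ξ ⬝ᵥ s.δ *ᵥ y b ≠ 0 → ξ ∈ Submodule.span F {y a}

def A1S : Prop := ∀ (K P : Type) [Fintype K] [Fintype P] (s : Sys F K) (col : P → Bool)
  (y : P → K → F) (B Bs : Matrix P P F) (a b : P), Disp s col y B Bs 0 → VisP y B Bs a b →
  3 ≤ Fintype.card K → s.δ = 0

def ANEM : Prop := ∀ (K P : Type) [Fintype K] [Fintype P] (s : Sys F K) (col : P → Bool)
  (y : P → K → F) (B Bs : Matrix P P F) (ε : Matrix K K F) (a b : P) (c : Bool),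
  Disp s col y B Bs ε → VisP y B Bs a b → s.δ = 0 →
  ∃ A : Anem F {k // s.colK k = c} {k // ¬s.colK k = c}, A.Ax

def KILL2 : Prop := ∀ p : ℕ, p.Prime → Fintype.card F = p ^ 2 → ∀ (I J : Type) [Fintype I]
  [Fintype J] (A : Anem F I J), A.Ax → 1 ≤ Fintype.card J →
  Fintype.card J ≤ Fintype.card I → Fintype.card I + Fintype.card J ≤ p

def KILL8 : Prop := Fintype.card F = 8 → ∀ (I J : Type) [Fintype I] [Fintype J] (A : Anem F I J),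
  A.Ax → 1 ≤ Fintype.card J → Fintype.card I ≤ 1

/-! ## Assembly -/

def PLAY (m : ℕ) : Prop := 2 ≤ m → ALGR F m → MAIN F m

/-- `N` depends on the size of the field only; matroid form. -/
def MAT (m : ℕ) : Prop := ∀ N, (∀ (E : Type) [Fintype E] (col : E → Bool)
  (S : Fin N → Matrix E E F), Fam col S → (∀ i, Conn m (S i)) →
    ∃ i j, i ≠ j ∧ EquivOn Set.univ (S i) (S j)) → 1 ≤ N →
  ∀ (α : Type) [Finite α] (M : Matroid α), H30.TutteConnected M (m + 2) →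
  ∀ (n : ℕ) (v : Fin N → α → Fin n → F), (∀ i, H30.Rep M (v i)) →
    ∃ i j, i ≠ j ∧ H30.Equivalent M.E (v i) (v j)

end Pool.Agent.MP_d99b12_co.H25
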