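import Pool.Agent.MP_d99b12_co.H25.Lib2

/-! # Transport of the auxiliary petal -/

namespace Pool.Agent.MP_d99b12_co.H25

open Matrix Sum

variable (F : Type) [Field F] [Fintype F]

def AUXSAME (m : ℕ) : Prop := ∀ (E K : Type) [Fintype E] [Fintype K] (c : Bool) (col : E → Bool)
  (S T : Matrix E E F) (kk : K → E) (C : Set E), Same S T → Aux m c col S kk C → Aux m c col T kk C

def AUXCONGR (m : ℕ) : Prop := ∀ (E K : Type) [Fintype E] [Fintype K] (c : Bool)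
  (col col' : E → Bool) (S T : Matrix E E F) (kk : K → E) (C : Set E), Skew S → Skew T →
  (∀ u ∈ C, ∀ v, T u v = S u v) → (∀ u ∈ C, col' u = col u) → (∀ k, col' (kk k) = col (kk k)) →
  Aux m c col S kk C → Aux m c col' T kk C

def AUXSUB (m : ℕ) : Prop := ∀ (E K W : Type) [Fintype E] [Fintype K] [Fintype W] (c : Bool)
  (col : E → Bool) (S : Matrix E E F) (kk : K → E) (f : W → E),
  Function.Injective (Sum.elim kk f) → Aux m c col S kk (Set.range f) →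
  Aux m c (col ∘ Sum.elim kk f) (S.submatrix (Sum.elim kk f) (Sum.elim kk f)) inl (Set.range inr)

def AUXLC (m : ℕ) : Prop := ∀ (K W : Type) [Fintype K] [Fintype W] (c : Bool) (d : Datum F K W),
  Skew d.A → d.U = 0 → Aux m c d.dsp.1 (d.pair false) inl (Set.range inr) →
  d.Red ∧ NConn d.B ∧ ∃ o R U, Lc c d.colP d.y d.B o R U ∧ (m + 2 ≤ U.card + R.card ∨
    (R.card = 1 ∧ m + 1 ≤ U.card + Fintype.card {k // ¬d.colK k = c}))

/-- Auxiliary petals in all the sets `Ω t`, `t ∈ J`, at the same time. -/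
def ALLW (m : ℕ) : Prop := ∀ (K P : Type) [Fintype K] [Fintype P] (d : Datum F K P) (c : Bool)
  (E : Type) [Fintype E] (col : E → Bool) (N n : ℕ) (S : Fin (N + 1) → Matrix E E F) (kk : K → E)
  (pp : Fin N → P → E) (a b : Fin n → Fin N) (Ω : Fin n → Set E) (J : Finset (Fin n)),
  d.U = 0 → d.Red → NConn d.B → m < Fintype.card K → 2 * Fintype.card {k // ¬d.colK k = c} < m →
  Fam col S → (∀ i, Conn m (S i)) → IsChain d col S kk pp → (∀ t, a t ≠ b t) →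
  (∀ t p, pp (a t) p ∈ Ω t ∧ pp (b t) p ∈ Ω t) → (∀ t, Shut (S (Fin.last N)) kk (Ω t)) →
  (∀ t t', t ≠ t' → Disjoint (Ω t) (Ω t') ∧ ∀ u ∈ Ω t, ∀ w ∈ Ω t', S (Fin.last N) u w = 0) →
  ∃ (col' : E → Bool) (S' : Fin (N + 1) → Matrix E E F), Fam col' S' ∧ (∀ i, Conn m (S' i)) ∧
    (∀ k, col' (kk k) = col (kk k)) ∧
    (∀ t, t ∉ J → ∀ u ∈ Ω t, col' u = col u ∧ ∀ i v, S' i u v = S i u v) ∧
    (∀ t t', t ≠ t' → ∀ u ∈ Ω t, ∀ w ∈ Ω t', ∀ i, S' i u w = 0) ∧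
    ∀ t ∈ J, ∃ W ⊆ Ω t, W.ncard ≤ 4 * (3 * Fintype.card K + 2) ∧
      ∀ i, Aux m c col' (S' i) kk W

end Pool.Agent.MP_d99b12_co.H25
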