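import Pool.Agent.MP_d99b12_co.H25.Spec3

/-! # Open or closed chains -/

namespace Pool.Agent.MP_d99b12_co.H25

open Matrix Sum

section Defs

variable {F : Type} [Field F] {E K P : Type} [Fintype K]

/-- A closed set contains the petals `j`, `l` and misses the petal `i`. -/
def Sep {N : ℕ} (S : Matrix E E F) (kk : K → E) (pp : Fin N → P → E) (i j l : Fin N) : Prop :=
  ∃ C, Shut S kk C ∧ ∀ p, pp j p ∈ C ∧ pp l p ∈ C ∧ pp i p ∉ C

/-- A chain in which first petals, or last petals, of triples cannot be separated. -/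
def OpenN (m n : ℕ) (d : Datum F K P) : Prop :=
  ∃ (E : Type) (_ : Fintype E) (col : E → Bool) (S : Fin (n + 1) → Matrix E E F) (kk : K → E)
    (pp : Fin n → P → E), Fam col S ∧ (∀ i, Conn m (S i)) ∧ IsChain d col S kk pp ∧
    ((∀ i j l, i < j → j < l → ¬Sep (S (Fin.last n)) kk pp i j l) ∨
      ∀ i j l, i < j → j < l → ¬Sep (S (Fin.last n)) kk pp l i j)

end Defs

variable (F : Type) [Field F] [Fintype F]

def FLAT (m : ℕ) : Prop := ∀ (K P : Type) [Fintype K] [Fintype P] (d : Datum F K P), Real m d →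
  d.Ref → d.Red → NConn d.B → d.Tau0 → d.Vis → ∃ (K' : Type) (_ : Fintype K') (d' : Datum F K' P),
    Real m d' ∧ d'.U = 0 ∧ d'.Red ∧ NConn d'.B ∧ d'.Vis ∧ Fintype.card K ≤ Fintype.card K'

def DICH (m : ℕ) : Prop := ∀ n1 n2, ∃ N, ∀ (K P : Type) [Fintype K] [Fintype P] (d : Datum F K P),
  RealN m N d → d.U = 0 → d.Red → NConn d.B → Nonempty K → OpenN m n1 d ∨ ClosedN m n2 d

def AUG2 (m : ℕ) : Prop := ∀ (K P : Type) [Fintype K] [Fintype P] (d : Datum F K P) (P0 : Set P),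
  (∀ n, OpenN m n d) → d.AugIn P0 →
  ∃ (K' P' : Type) (_ : Fintype K') (_ : Fintype P') (d' : Datum F K' P') (ι : P → P'),
    Real m d' ∧ d'.AugOut (Fintype.card K) (ι '' P0)

end Pool.Agent.MP_d99b12_co.H25
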