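import Pool.Agent.MP_d99b12_co.H25.Defs

/-!
# The state machine of a homogeneous chain and the final algebra (MP_d99b12_co)

A petal reads the state ` (ω, r)` (`r` = sum of the outputs of the petals to its right) through
`ω + δ r` and adds its own output to `r`.
-/

namespace Pool.Agent.MP_d99b12_co.H25

open Matrix

variable {F : Type} [Field F] {K P : Type}

/-- A linear relation between ` (ω, r)` and the new `r'`; `hid` records a nonzero internal solution
with `ω = r = r' = 0`. -/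
structure Act (F K : Type) [Field F] where
  rel : Submodule F ((K → F) × (K → F) × (K → F))
  hid : Prop

namespace Act

/-- First `g` (to the right), then `f`. -/
def comp (f g : Act F K) : Act F K where
  rel :=
    { carrier := {x | ∃ r', (x.1, x.2.1, r') ∈ g.rel ∧ (x.1, r', x.2.2) ∈ f.rel}
      add_mem' := by
        rintro a b ⟨r, h1, h2⟩ ⟨s, h3, h4⟩
        exact ⟨r + s, g.rel.add_mem h1 h3, f.rel.add_mem h2 h4⟩
      zero_mem' := ⟨0, g.rel.zero_mem, f.rel.zero_mem⟩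
      smul_mem' := by
        rintro c a ⟨r, h1, h2⟩
        exact ⟨c • r, g.rel.smul_mem c h1, f.rel.smul_mem c h2⟩ }
  hid := f.hid ∨ g.hid ∨ ∃ r', r' ≠ 0 ∧ (0, 0, r') ∈ g.rel ∧ (0, r', 0) ∈ f.rel

/-- Add any vector of `W` to `r`. -/
def add (W : Submodule F (K → F)) : Act F K where
  rel :=
    { carrier := {x | x.2.2 - x.2.1 ∈ W}
      add_mem' := by
        intro a b ha hb
        have := W.add_mem ha hb
        simp only [Set.mem_ofPred_eq, Prod.snd_add, Prod.fst_add] at *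
        convert this using 1; abel
      zero_mem' := by simp
      smul_mem' := by
        intro c a ha
        have := W.smul_mem c ha
        simp only [Set.mem_ofPred_eq, Prod.smul_snd, Prod.smul_fst] at *
        rwa [smul_sub] at this }
  hid := False

def one : Act F K := add ⊥

variable [Fintype K]

/-- `r' = r + Φ (ω + δ r)`. -/
def tf (δ Φ : Matrix K K F) : Act F K where
  rel :=
    { carrier := {x | x.2.2 = x.2.1 + Φ *ᵥ (x.1 + δ *ᵥ x.2.1)}
      add_mem' := by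
        intro a b ha hb
        simp only [Set.mem_ofPred_eq, Prod.snd_add, Prod.fst_add, mulVec_add] at *
        rw [ha, hb]; abel
      zero_mem' := by simp
      smul_mem' := by
        intro c a ha
        simp only [Set.mem_ofPred_eq, Prod.smul_snd, Prod.smul_fst, mulVec_add, mulVec_smul] at *
        rw [ha]; simp only [smul_add] }
  hid := False

/-- The inverse relation `r = r' + Φ (ω + δ r')`. -/
def tfInv (δ Φ : Matrix K K F) : Act F K where
  rel :=
    { carrier := {x | x.2.1 = x.2.2 + Φ *ᵥ (x.1 + δ *ᵥ x.2.2)}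
      add_mem' := by
        intro a b ha hb
        simp only [Set.mem_ofPred_eq, Prod.snd_add, Prod.fst_add, mulVec_add] at *
        rw [ha, hb]; abel
      zero_mem' := by simp
      smul_mem' := by
        intro c a ha
        simp only [Set.mem_ofPred_eq, Prod.smul_snd, Prod.smul_fst, mulVec_add, mulVec_smul] at *
        rw [ha]; simp only [smul_add] }
  hid := False

/-- `r' = r + ε ω`. -/
def shift (ε : Matrix K K F) : Act F K := tf 0 ε

/-- Keep `r` and require `ξ ⬝ (ω + δ r) = 0`. -/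
def test (δ : Matrix K K F) (ξ : K → F) : Act F K where
  rel :=
    { carrier := {x | x.2.2 = x.2.1 ∧ ξ ⬝ᵥ (x.1 + δ *ᵥ x.2.1) = 0}
      add_mem' := by
        rintro a b ⟨h1, h2⟩ ⟨h3, h4⟩
        simp only [Set.mem_ofPred_eq, Prod.snd_add, Prod.fst_add, mulVec_add, dotProduct_add] at *
        exact ⟨by rw [h1, h3], by linear_combination h2 + h4⟩
      zero_mem' := by simp
      smul_mem' := by
        rintro c a ⟨h1, h2⟩
        simp only [Set.mem_ofPred_eq, Prod.smul_snd, Prod.smul_fst, mulVec_smul, dotProduct_add,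
          dotProduct_smul, smul_eq_mul] at *
        exact ⟨by rw [h1], by linear_combination c * h2⟩ }
  hid := False

/-- A petal with vectors `y` and matrix `B`: unknowns on `Y`, equations on `X`. -/
def letter [Fintype P] (δ : Matrix K K F) (y : P → K → F) (B : Matrix P P F) (X Y : Set P) :
    Act F K where
  rel :=
    { carrier := {x | ∃ u : P → F, (∀ q, q ∉ Y → u q = 0) ∧
        (∀ p ∈ X, (B *ᵥ u) p + y p ⬝ᵥ (x.1 + δ *ᵥ x.2.1) = 0) ∧ x.2.2 = x.2.1 + ∑ q, u q • y q}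
      add_mem' := by
        rintro a b ⟨u, h1, h2, h3⟩ ⟨v, h4, h5, h6⟩
        refine ⟨u + v, fun q hq => by simp [h1 q hq, h4 q hq], fun p hp => ?_, ?_⟩
        · have e1 := h2 p hp
          have e2 := h5 p hp
          simp only [Prod.snd_add, Prod.fst_add, mulVec_add, dotProduct_add, Pi.add_apply] at *
          linear_combination e1 + e2
        · simp only [Prod.snd_add, Prod.fst_add, Pi.add_apply, add_smul, Finset.sum_add_distrib]
          rw [h3, h6]; abel
      zero_mem' := ⟨0, by simp, by simp, by simp⟩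
      smul_mem' := by
        rintro c a ⟨u, h1, h2, h3⟩
        refine ⟨c • u, fun q hq => by simp [h1 q hq], fun p hp => ?_, ?_⟩
        · have e1 := h2 p hp
          simp only [Prod.smul_snd, Prod.smul_fst, mulVec_smul, dotProduct_add, dotProduct_smul,
            smul_eq_mul, Pi.smul_apply] at *
          linear_combination c * e1
        · simp only [Prod.smul_snd, Prod.smul_fst, Pi.smul_apply, smul_eq_mul, mul_smul]
          rw [h3, smul_add, Finset.smul_sum] }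
  hid := ∃ u : P → F, u ≠ 0 ∧ (∀ q, q ∉ Y → u q = 0) ∧ (∀ p ∈ X, (B *ᵥ u) p = 0) ∧
    ∑ q, u q • y q = 0

end Act

variable [Fintype K]

/-- The whole configuration (core pattern `XK`, `YK`, petals acting by `a`) is dependent. -/
def cfg (D Ub : Matrix K K F) (XK YK : Set K) (a : Act F K) : Prop :=
  a.hid ∨ ∃ ω r : K → F, (ω ≠ 0 ∨ r ≠ 0) ∧ (ω, 0, r) ∈ a.rel ∧
    (∀ k, k ∉ YK → (ω + Ubᵀ *ᵥ r) k = 0) ∧ ∀ k ∈ XK, (r - D *ᵥ (ω + Ubᵀ *ᵥ r)) k = 0

/-- The core data and the set `𝒜` of relations realised by words of normal petals. -/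
structure Sys (F K : Type) [Field F] [Fintype K] where
  colK : K → Bool
  D : Matrix K K F
  Ub : Matrix K K F
  𝒜 : Set (Act F K)
  bipD : Bip colK D
  bipU : Bip colK Ub
  one_mem : Act.one ∈ 𝒜
  comp_mem : ∀ f ∈ 𝒜, ∀ g ∈ 𝒜, f.comp g ∈ 𝒜
  all_mem : Act.add ⊤ ∈ 𝒜

def Sys.δ (s : Sys F K) : Matrix K K F := s.Ub + s.Ubᵀ

variable [Fintype P]

/-- A display of the normal petal. -/
structure SDisp (s : Sys F K) (col : P → Bool) (y : P → K → F) (B : Matrix P P F) : Prop where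
  ycol : ∀ p k, col p = s.colK k → y p k = 0
  bip : Bip col B
  compat : ∀ p q, B p q + B q p = y p ⬝ᵥ s.δ *ᵥ y q
  mem : ∀ X Y, Act.letter s.δ y B X Y ∈ s.𝒜
  span : ∀ x : K → F, (∀ p, x ⬝ᵥ y p = 0) → x = 0
  conn : NConn B

/-- A display of the normal and the deviant petal; `ε` is the offset of the deviant one. -/
structure Disp (s : Sys F K) (col : P → Bool) (y : P → K → F) (B Bs : Matrix P P F)
    (ε : Matrix K K F) : Prop extends SDisp s col y B where
  bips : Bip col Bs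
  compats : ∀ p q, Bs p q + Bs q p = y p ⬝ᵥ s.δ *ᵥ y q
  bipe : Bip s.colK ε
  adm : s.δ = 0 ∨ ε = 0
  good0 : ∀ X Y, ∀ al ∈ s.𝒜, ∀ XK YK,
    cfg s.D s.Ub XK YK (al.comp (Act.letter s.δ y B X Y)) ↔
      cfg s.D s.Ub XK YK (al.comp ((Act.shift ε).comp (Act.letter s.δ y Bs X Y)))
  goodR : ∀ ar ∈ s.𝒜, ∃ box : Act F K, ∀ X Y, ∀ al ∈ s.𝒜, ∀ XK YK,
    cfg s.D s.Ub XK YK (al.comp ((Act.letter s.δ y B X Y).comp ar)) ↔
      cfg s.D s.Ub XK YK (al.comp (((Act.shift ε).comp (Act.letter s.δ y Bs X Y)).comp box))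

open Classical in
/-- The vectors after the exchange on `{a, b}`. -/
noncomputable def reY (y : P → K → F) (B : Matrix P P F) (a b : P) (p : P) : K → F :=
  if p = a then -(B b a)⁻¹ • y b else if p = b then -(B a b)⁻¹ • y a
  else y p - (B p b / B a b) • y a - (B p a / B b a) • y b

/-- The transfer matrix of the exchange on `{a, b}`. -/
noncomputable def rePhi (y : P → K → F) (B : Matrix P P F) (a b : P) : Matrix K K F :=
  -(B a b)⁻¹ • vecMulVec (y b) (y a) - (B b a)⁻¹ • vecMulVec (y a) (y b)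

/-- ` (a, b)` is a visible pair. -/
def VisP (y : P → K → F) (B Bs : Matrix P P F) (a b : P) : Prop :=
  y a ≠ 0 ∧ y b ≠ 0 ∧ Bs a b ≠ B a b

/-- The window spanned by `Y0` and cut by `X0` is singular for `M`. -/
def Sing {I J : Type} [Fintype J] (M : Matrix I J F) (Y0 : Set (I → F)) (X0 : Set (J → F)) : Prop :=
  ∃ w : J → F, w ≠ 0 ∧ (∀ ξ ∈ X0, ξ ⬝ᵥ w = 0) ∧ M *ᵥ w ∈ Submodule.span F Y0

/-- The commutative end game: offset `D`, shifts `H`, achievable columns `𝒴` and rows `𝒳`. -/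
structure Anem (F I J : Type) [Field F] where
  D : Matrix I J F
  H : AddSubgroup (Matrix I J F)
  𝒴 : Set (I → F)
  𝒳 : Set (J → F)

namespace Anem

variable {I J : Type} [Fintype I] [Fintype J]

/-- The shift `ε` is not seen by any window. -/
def Ok (A : Anem F I J) (ε : Matrix I J F) : Prop :=
  ∀ Y0 ⊆ A.𝒴, ∀ X0 ⊆ A.𝒳, ∀ h ∈ A.H, Sing (A.D + h) Y0 X0 ↔ Sing (A.D + h + ε) Y0 X0

structure Ax (A : Anem F I J) : Prop where
  spanY : Submodule.span F A.𝒴 = ⊤
  spanX : Submodule.span F A.𝒳 = ⊤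
  /-- the visible pair can be moved off any hyperplanes -/
  move : ∀ f : I → F, f ≠ 0 → ∀ w : J → F, w ≠ 0 → ∃ y ∈ A.𝒴, ∃ ξ ∈ A.𝒳, ∃ (γ : F)
    (ε : Matrix I J F), f ⬝ᵥ y ≠ 0 ∧ ξ ⬝ᵥ w ≠ 0 ∧ vecMulVec y ξ ∈ A.H ∧ γ ≠ 0 ∧ γ ≠ 1 ∧
      A.Ok ε ∧ A.Ok (ε + (γ - 1) • vecMulVec y ξ)
  /-- a basis along a tree, and rows that pair with it inside `H` -/
  tree : ∃ (u : Fin (Fintype.card I) → I → F) (par : Fin (Fintype.card I) → Fin (Fintype.card I))
    (X1 : Set (J → F)), LinearIndependent F u ∧ (∀ i, u i ∈ A.𝒴) ∧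
      (∀ i, 0 < i.val → par i < i ∧ u i - u (par i) ∈ A.𝒴) ∧ X1 ⊆ A.𝒳 ∧
      Submodule.span F X1 = ⊤ ∧ ∀ i, ∀ ξ ∈ X1, ∃ c : F, c ≠ 0 ∧ c • vecMulVec (u i) ξ ∈ A.H
  /-- a visible star with two independent columns -/
  star : 2 ≤ Fintype.card I → ∃ (u1 u2 : I → F) (ξ : J → F) (γ : F) (ε : Matrix I J F),
    LinearIndependent F ![u1, u2] ∧ u1 ∈ A.𝒴 ∧ u2 ∈ A.𝒴 ∧ u1 - u2 ∈ A.𝒴 ∧ ξ ∈ A.𝒳 ∧ ξ ≠ 0 ∧
      vecMulVec u1 ξ ∈ A.H ∧ vecMulVec u2 ξ ∈ A.H ∧ γ ≠ 0 ∧ γ ≠ 1 ∧ A.Ok ε ∧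
      A.Ok (ε + (γ - 1) • vecMulVec u1 ξ) ∧ A.Ok (ε + (γ - 1) • vecMulVec u2 ξ)

end Anem

end Pool.Agent.MP_d99b12_co.H25
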